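import Pool.Agent.BICS.PGrid
import Pool.Agent.Helper53.BQ.Kge

/-!
# ISO for subsets: connectivity of an arbitrary large subset of a plain grid
(helper43, for MP_5165fa_co; library)
-/

open Set BIC
open scoped Matroid

namespace CWL

open BICS

variable {α V : Type*}

/-- A plain `n × n` grid has at most `2 n ^ 2` elements. -/
theorem isGrid_ncard_le {S : Set α} {ends : α → Sym2 V} {n : ℕ} {p : ℕ → ℕ → V}
    {hE vE : ℕ → ℕ → α} (hG : IsGrid S ends n p hE vE) : S.ncard ≤ 2 * (n * n) := by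
  classical
  obtain ⟨f1, f2⟩ := inBox_finite (n := n) (hE := hE) (vE := vE) (Finset.range n) (Finset.range n)
  rw [Finset.card_range] at f2
  refine (Set.ncard_le_ncard ?_ f1).trans f2
  intro e he
  rcases hG.cover e he with ⟨i, j, hi, hj, rfl⟩ | ⟨i, j, hi, hj, rfl⟩
  · exact Or.inl ⟨i, j, hi, hj, Finset.mem_range.2 hi, Finset.mem_range.2 (by omega),
      Finset.mem_range.2 hj, rfl⟩
  · exact Or.inr ⟨i, j, hi, hj, Finset.mem_range.2 (by omega), Finset.mem_range.2 hi,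
      Finset.mem_range.2 hj, rfl⟩

/-- **Isoperimetry of the grid, two-sided.** -/
theorem isGrid_iso {N : Matroid α} [N.Finite] {T : Set α} {ends : α → Sym2 V} {n : ℕ}
    {p : ℕ → ℕ → V} {hE vE : ℕ → ℕ → α} (hB : Bic N T ends) (hG : IsGrid T ends n p hE vE)
    {A : Set α} {t : ℕ} (hA : A ⊆ T) (ht : rk N A + rk N (T \ A) ≤ rk N T + t) :
    A.ncard ≤ 32 * (t + 1) ^ 2 ∨ (T \ A).ncard ≤ 32 * (t + 1) ^ 2 := by
  classical
  by_cases hn : 4 * (t + 1) < n
  · obtain ⟨DR, DC, h1, h2, h3⟩ := grid_iso hB hG hA ht hn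
    obtain ⟨f1, f2⟩ := inBox_finite (n := n) (hE := hE) (vE := vE) DR DC
    have h5 := Nat.mul_le_mul h1 h2
    have h6 : 4 * (t + 1) * (4 * (t + 1)) = 16 * (t + 1) ^ 2 := by ring
    rw [h6] at h5
    rcases h3 with h3 | h3
    · left
      refine (Set.ncard_le_ncard h3 f1).trans (f2.trans ?_)
      omega
    · right
      refine (Set.ncard_le_ncard h3 f1).trans (f2.trans ?_)
      omega
  · left
    have hTf : T.Finite := N.ground_finite.subset hB.sub
    have h1 := isGrid_ncard_le hG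
    have h2 := Nat.mul_le_mul (not_lt.1 hn) (not_lt.1 hn)
    have h6 : 4 * (t + 1) * (4 * (t + 1)) = 16 * (t + 1) ^ 2 := by ring
    rw [h6] at h2
    have h3 := Set.ncard_le_ncard hA hTf
    omega

/-- **ISO for subsets.**  Every subset of the grid with more than `32 (t + 1) ^ 2` elements is as
well linked to `Q` as the whole grid, up to `32 (t + 1) ^ 2`. -/
theorem kge_sub {M : Matroid α} [M.Finite] {C T Q S : Set α} {t : ℕ} {s : ℕ}
    (hC : C ⊆ M.E \ T) (hT : T ⊆ M.E) (hTQ : Disjoint T Q) (hP : PGrid (M ／ C) T s)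
    (hS : S ⊆ T) (hSc : 32 * (t + 1) ^ 2 < S.ncard)
    (h : KGe M T Q (t + 32 * (t + 1) ^ 2 + 1)) : KGe M S Q (t + 1) := by
  obtain ⟨V, ends, p, hE, vE, hB, hG⟩ := hP
  intro X hX1 hX2
  by_contra hcon
  push Not at hcon
  have hXE : X ⊆ M.E := hX2.trans sdiff_subset
  have hC' : C ⊆ M.E := hC.trans sdiff_subset
  have hE' : T ⊆ M.E \ C := fun x hx => ⟨hT hx, fun h => (hC h).2 hx⟩
  have h1 := BQ.conn_minor hC' hE' hXE
  have hfin := BQ.fin_contract (M := M) C
  have hA : T ∩ X ⊆ T := inter_subset_left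
  have e1 : T \ (T ∩ X) = T \ X := by
    ext x; simp only [mem_sdiff, mem_inter_iff]; tauto
  have hTf : T.Finite := M.ground_finite.subset hT
  have h5 := isGrid_iso (t := t) hB hG hA (by rw [e1]; omega)
  rw [e1] at h5
  have h7 : S.ncard ≤ (T ∩ X).ncard :=
    Set.ncard_le_ncard (fun x hx => ⟨hS hx, hX1 hx⟩) (hTf.subset hA)
  have h8 : (T \ X).ncard ≤ 32 * (t + 1) ^ 2 := by
    rcases h5 with h5 | h5
    · omega
    · exact h5
  have hX' := h (X ∪ T) subset_union_right (by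
    rintro x (hx | hx)
    · exact hX2 hx
    · exact ⟨hT hx, Set.disjoint_left.1 hTQ hx⟩)
  have hf : (T \ X).Finite := hTf.subset sdiff_subset
  have h6 : rk M (X ∪ T) ≤ rk M X + (T \ X).ncard := by
    have := rk_union_le M (X := X) (Y := T \ X) hf
    rwa [show X ∪ (T \ X) = X ∪ T by rw [union_sdiff_self]] at this
  have h7 : rk M (M.E \ (X ∪ T)) ≤ rk M (M.E \ X) :=
    rk_mono M (sdiff_subset_sdiff_right subset_union_left)
  omega

/-- The same for `Grd`. -/
theorem kge_sub_grd {M : Matroid α} [M.Finite] {C T Q S : Set α} {t : ℕ}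
    {ends : α → Sym2 (ℕ × ℕ)} {x y s : ℕ} (hC : C ⊆ M.E \ T) (hT : T ⊆ M.E)
    (hTQ : Disjoint T Q) (hB : Bic (M ／ C) T ends) (hG : Grd T ends x y s s)
    (hS : S ⊆ T) (hSc : 32 * (t + 1) ^ 2 < S.ncard)
    (h : KGe M T Q (t + 32 * (t + 1) ^ 2 + 1)) : KGe M S Q (t + 1) := by
  have hne : S.Nonempty := by
    by_contra h0
    rw [not_nonempty_iff_eq_empty.1 h0, Set.ncard_empty] at hSc
    omega
  obtain ⟨e₀, _⟩ := hne
  obtain ⟨hE, vE, hI⟩ := hG.isGrid e₀
  have hP : PGrid (M ／ C) T s := ⟨ℕ × ℕ, ends, _, hE, vE, hB, hI⟩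
  exact kge_sub hC hT hTQ hP hS hSc h

/-- The dual form (right side). -/
theorem kge_sub_right {M : Matroid α} [M.Finite] {D R T S : Set α} {t s : ℕ}
    (hD : D ⊆ M.E \ T) (hR : R ⊆ M.E) (hT : T ⊆ M.E) (hRT : Disjoint R T)
    (hP : PGrid (M✶ ／ D) T s) (hS : S ⊆ T) (hSc : 32 * (t + 1) ^ 2 < S.ncard)
    (h : KGe M R T (t + 32 * (t + 1) ^ 2 + 1)) : KGe M R S (t + 1) := by
  have h1 := kge_sub (M := M✶) (by exact hD) (by exact hT) hRT.symm hP hS hSc (h.dual hR)
  have h2 := h1.dual (by exact hS.trans hT)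
  rwa [Matroid.dual_dual] at h2

end CWL
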