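import Pool.Agent.BICS.Asm
import Pool.Agent.Helper57.TB.Cont
import Pool.Agent.Helper53.BQ.Kge

/-!
# LINK: the linking number passes to minors, unless there is a uniform minor
(helper43, for MP_5165fa_co; library)
-/

open Set BIC
open scoped Matroid

namespace CWL

open BICS

universe u

variable {α : Type u}

/-- Unit steps from `M` to a minor: either a minor between, written `M ／ P` or `M ／ C ＼ P`, has
linking number exactly `K`, or the last one has linking number at least `K + 1`. -/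
theorem link_steps {M : Matroid α} [M.Finite] {R Q C D : Set α} {K : ℕ}
    (hR : R ⊆ M.E) (hQ : Q ⊆ M.E) (hRQ : Disjoint R Q) (hC : C ⊆ M.E \ (R ∪ Q))
    (hD : D ⊆ M.E \ (R ∪ Q)) (hCD : Disjoint C D) (hK : KGe M R Q K) :
    (∃ C' ⊆ C, ∃ D' ⊆ D, KGe (M ／ C' ＼ D') R Q K ∧ ¬ KGe (M ／ C' ＼ D') R Q (K + 1)) ∨
      KGe (M ／ C ＼ D) R Q (K + 1) := by
  have hRC : R ⊆ (M ／ C).E := fun z hz => ⟨hR hz, fun h => (hC h).2 (Or.inl hz)⟩
  have hQC : Q ⊆ (M ／ C).E := fun z hz => ⟨hQ hz, fun h => (hC h).2 (Or.inr hz)⟩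
  rcases cont hR hQ hRQ hC hK with ⟨P', hP', h1, h2⟩ | h1
  · left
    refine ⟨P', hP', ∅, empty_subset _, ?_⟩
    rw [Matroid.delete_empty]
    exact ⟨h1, h2⟩
  · have fin1 : (M ／ C).Finite := BQ.fin_contract C
    have h3 : KGe (M ／ C)✶ Q R (K + 1) := h1.dual hRC
    have hDC : D ⊆ (M ／ C).E \ (Q ∪ R) := by
      intro z hz
      refine ⟨⟨(hD hz).1, fun h => Set.disjoint_left.1 hCD h hz⟩, ?_⟩
      rw [union_comm]
      exact (hD hz).2
    -- back from the dual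
    have back : ∀ P ⊆ D, ∀ n, KGe ((M ／ C)✶ ／ P) Q R n → KGe (M ／ C ＼ P) R Q n := by
      intro P hP n h
      rw [← Matroid.dual_delete] at h
      have fin2 : (M ／ C ＼ P).Finite := BQ.fin_delete P
      have h4 := KGe.dual (M := (M ／ C ＼ P)✶) h (by
        rw [Matroid.dual_ground, Matroid.delete_ground]
        exact fun z hz => ⟨hQC hz, fun h' => (hDC (hP h')).2 (Or.inl hz)⟩)
      rwa [Matroid.dual_dual] at h4
    have forth : ∀ P ⊆ D, ∀ n, KGe (M ／ C ＼ P) R Q n → KGe ((M ／ C)✶ ／ P) Q R n := by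
      intro P hP n h
      have fin2 : (M ／ C ＼ P).Finite := BQ.fin_delete P
      have h4 := h.dual (by
        rw [Matroid.delete_ground]
        exact fun z hz => ⟨hRC hz, fun h' => (hDC (hP h')).2 (Or.inr hz)⟩)
      rwa [Matroid.dual_delete] at h4
    rcases cont (M := (M ／ C)✶) (by exact hQC) (by exact hRC) hRQ.symm (by exact hDC)
      (BQ.KGe.mono_n h3 (Nat.le_succ K)) with ⟨P', hP', h4, h5⟩ | h4
    · left
      exact ⟨C, Subset.refl _, P', hP', back P' hP' _ h4, fun h => h5 (forth P' hP' _ h)⟩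
    · exact Or.inr (back D (Subset.refl _) _ h4)

/-- A bicircular structure of a minor, seen in a larger matroid: `N = M ／ C ＼ D`. -/
theorem pgrid_lift {M : Matroid α} [M.Finite] {R C D C₁ : Set α} {s : ℕ}
    (hC₁ : C₁ ⊆ (M ／ C ＼ D).E \ R) (hR : R ⊆ (M ／ C ＼ D).E)
    (h : PGrid (M ／ C ＼ D ／ C₁) R s) : PGrid (M ／ (C ∪ C₁)) R s := by
  obtain ⟨V, ends, p, hE, vE, hB, hG⟩ := h
  refine ⟨V, ends, p, hE, vE, ?_, hG⟩
  have hDC₁ : Disjoint D C₁ := by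
    rw [Set.disjoint_left]
    intro z hz1 hz2
    exact (hC₁ hz2).1.2 hz1
  have e1 : M ／ C ＼ D ／ C₁ = M ／ (C ∪ C₁) ＼ D := by
    rw [← Matroid.contract_delete_comm _ hDC₁.symm, Matroid.contract_contract]
  rw [e1] at hB
  have fin1 : (M ／ (C ∪ C₁)).Finite := BQ.fin_contract _
  have fin2 : (M ／ (C ∪ C₁) ＼ D).Finite := BQ.fin_delete _
  have hR' : R ⊆ (M ／ (C ∪ C₁)).E \ D := by
    intro z hz
    refine ⟨⟨(hR hz).1.1, ?_⟩, (hR hz).2⟩
    rintro (h1 | h1)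
    · exact (hR hz).1.2 h1
    · exact (hC₁ h1).2 hz
  refine Bic_of_rk hB (hR'.trans sdiff_subset) ?_
  intro X hX
  rw [rk_delete (hX.trans hR')]

/-- **LINK.** -/
theorem link (k : ℕ) (hk : 1 ≤ k) : ∃ K₀ : ℕ, ∀ K ≥ K₀, ∃ s₀ : ℕ, ∀ s₁ ≥ s₀, ∀ s₂ ≥ s₀,
    ∀ {α : Type u} (M X : Matroid α) [M.Finite] (R Q C₁ D₂ : Set α), X ≤m M →
    R ⊆ X.E → Q ⊆ X.E → Disjoint R Q → C₁ ⊆ X.E \ R → D₂ ⊆ X.E \ Q →
    PGrid (X ／ C₁) R s₁ → PGrid (X✶ ／ D₂) Q s₂ → KGe M R Q (K + 1) →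
    HasUniformMinor M k ∨ KGe X R Q (K + 1) := by
  obtain ⟨κ₀, hSP⟩ := thmSP.{u} k hk
  refine ⟨κ₀, ?_⟩
  intro K hK₀
  obtain ⟨s₀, hs₀⟩ := hSP K
  refine ⟨s₀, ?_⟩
  intro s₁ hs₁ s₂ hs₂ α M X _ R Q C₁ D₂ hX hR hQ hRQ hC₁ hD₂ hP₁ hP₂ hK
  obtain ⟨C, D, hC, hD, hCD, rfl⟩ := hX.exists_eq_contract_delete_disjoint
  have hRM : R ⊆ M.E := fun z hz => (hR hz).1.1
  have hQM : Q ⊆ M.E := fun z hz => (hQ hz).1.1
  have hC' : C ⊆ M.E \ (R ∪ Q) := by
    intro z hz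
    refine ⟨hC hz, ?_⟩
    rintro (h | h)
    · exact (hR h).1.2 hz
    · exact (hQ h).1.2 hz
  have hD' : D ⊆ M.E \ (R ∪ Q) := by
    intro z hz
    refine ⟨hD hz, ?_⟩
    rintro (h | h)
    · exact (hR h).2 hz
    · exact (hQ h).2 hz
  rcases link_steps hRM hQM hRQ hC' hD' hCD (BQ.KGe.mono_n hK (Nat.le_succ K)) with
    ⟨C', hC'C, D', hD'D, h1, h2⟩ | h1
  · left
    have hCD' : Disjoint C' D' := hCD.mono hC'C hD'D
    set M' := M ／ C' ＼ D' with hM'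
    have fin1 : (M ／ C').Finite := BQ.fin_contract _
    have finM' : M'.Finite := BQ.fin_delete _
    have hCrD' : Disjoint D' (C \ C') := hCD.symm.mono hD'D sdiff_subset
    -- the minor `X` as a minor of `M'`
    have eX : M' ／ (C \ C') ＼ (D \ D') = M ／ C ＼ D := by
      rw [hM', ← Matroid.contract_delete_comm _ hCrD'.symm, Matroid.contract_contract,
        union_sdiff_self, union_eq_self_of_subset_left hC'C, Matroid.delete_delete,
        union_sdiff_self, union_eq_self_of_subset_left hD'D]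
    have hEM' : ∀ z, z ∈ M'.E ↔ z ∈ M.E ∧ z ∉ C' ∧ z ∉ D' := by
      intro z
      rw [hM', Matroid.delete_ground, Matroid.contract_ground]
      simp only [mem_sdiff]
      tauto
    have hRM' : R ⊆ M'.E := fun z hz =>
      (hEM' z).2 ⟨hRM hz, fun h => (hC' (hC'C h)).2 (Or.inl hz),
        fun h => (hD' (hD'D h)).2 (Or.inl hz)⟩
    have hQM' : Q ⊆ M'.E := fun z hz =>
      (hEM' z).2 ⟨hQM hz, fun h => (hC' (hC'C h)).2 (Or.inr hz),
        fun h => (hD' (hD'D h)).2 (Or.inr hz)⟩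
    have hCD2 : Disjoint (C \ C') (D \ D') := hCD.mono sdiff_subset sdiff_subset
    have hXE : ∀ z ∈ (M ／ C ＼ D).E, z ∈ M'.E := fun z hz =>
      (hEM' z).2 ⟨hz.1.1, fun h => hz.1.2 (hC'C h), fun h => hz.2 (hD'D h)⟩
    have p1 : PGrid (M' ／ ((C \ C') ∪ C₁)) R s₁ := by
      refine pgrid_lift (M := M') (D := D \ D') ?_ ?_ ?_
      · rw [eX]; exact hC₁
      · rw [eX]; exact hR
      · rw [eX]; exact hP₁
    have eXd : M'✶ ／ (D \ D') ＼ (C \ C') = (M ／ C ＼ D)✶ := by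
      rw [← eX, Matroid.dual_delete (M := M' ／ (C \ C')), Matroid.dual_contract (M := M'),
        Matroid.contract_delete_comm _ hCD2.symm]
    have p2 : PGrid (M'✶ ／ ((D \ D') ∪ D₂)) Q s₂ := by
      refine pgrid_lift (M := M'✶) (D := C \ C') ?_ ?_ ?_
      · rw [eXd]; exact hD₂
      · rw [eXd]; exact hQ
      · rw [eXd]; exact hP₂
    refine HasUniformMinor_mono (M' := M') (hs₀ s₁ hs₁ s₂ hs₂ M' R Q
      ((C \ C') ∪ C₁) ((D \ D') ∪ D₂) hRM' hQM' hRQ ?_ ?_ p1 p2 (BQ.KGe.mono_n h1 hK₀) h2)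
      (Matroid.contract_delete_isMinor M C' D')
    · rintro z (hz | hz)
      · refine ⟨(hEM' z).2 ⟨hC hz.1, hz.2, fun h => Set.disjoint_left.1 hCD hz.1 (hD'D h)⟩, ?_⟩
        exact fun h => (hC' hz.1).2 (Or.inl h)
      · exact ⟨hXE z (hC₁ hz).1, (hC₁ hz).2⟩
    · rintro z (hz | hz)
      · refine ⟨(hEM' z).2 ⟨hD hz.1, fun h => Set.disjoint_left.1 hCD (hC'C h) hz.1, hz.2⟩, ?_⟩
        exact fun h => (hD' hz.1).2 (Or.inr h)
      · exact ⟨hXE z (hD₂ hz).1, (hD₂ hz).2⟩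
  · exact Or.inr h1

end CWL
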