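import Pool.Agent.CW.PairEx
import Pool.Agent.CW.Link
import Pool.Agent.CW.Iso
import Pool.Agent.CW.Scale2
import Pool.Agent.BICS.RkRect
import Pool.Agent.Helper74.DST.Top

/-!
# Row A1 of T*: existence of the clean pair with a good block, and the linking
-/

open Set BIC BICS
open scoped Matroid

namespace CWL

universe u

/-- **Linking.**  In every minor `X` of `M`, a plain grid of side `≥ s₀` on anchors of the rows and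
a plain grid (in the dual) of side `≥ s₀` on anchors of the columns are `t`-linked in `X`. -/
def Linked {α : Type u} (M : Matroid α) (t s₀ : ℕ) (R₁ R₂ : Set α) : Prop :=
  ∀ X : Matroid α, X ≤m M → ∀ R ⊆ R₁, ∀ Q ⊆ R₂, ∀ C D : Set α, ∀ s₁ ≥ s₀, ∀ s₂ ≥ s₀,
    R ⊆ X.E → Q ⊆ X.E → C ⊆ X.E \ R → D ⊆ X.E \ Q → PGrid (X ／ C) R s₁ → PGrid (X✶ ／ D) Q s₂ →
    KGe X R Q t

lemma Linked.mono {α : Type u} {M M' : Matroid α} {t s₀ : ℕ} {R₁ R₂ R₁' R₂' : Set α}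
    (h : Linked M t s₀ R₁ R₂) (hM : M' ≤m M) (h₁ : R₁' ⊆ R₁) (h₂ : R₂' ⊆ R₂) :
    Linked M' t s₀ R₁' R₂' :=
  fun X hX R hR Q hQ => h X (hX.trans hM) R (hR.trans h₁) Q (hQ.trans h₂)

/-- a plain grid is large -/
lemma pgrid_ncard {α : Type u} {N : Matroid α} [N.Finite] {R : Set α} {s : ℕ} (h : PGrid N R s)
    (hs : 2 ≤ s) : s * s ≤ R.ncard := by
  obtain ⟨ends, hB, hG⟩ := h.toGrd
  have h1 := rk_rect hB hG hs hs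
  have h2 := rk_le_ncard N (N.ground_finite.subset hB.sub)
  omega

/-- **Linking in all minors.** -/
theorem linkAll (k : ℕ) (hk : 1 ≤ k) (t : ℕ) : ∃ s₀ B : ℕ, ∀ n : ℕ, ∀ {α : Type u}
    (M : Matroid α) [M.Finite] (S₁ S₂ C₁ D₂ : Set α) (g₁ g₂ : α → Sym2 (ℕ × ℕ)),
    Dat M S₁ S₂ C₁ D₂ g₁ g₂ n → KGe M S₁ S₂ B → HasUniformMinor M k ∨ Linked M t s₀ S₁ S₂ := by
  obtain ⟨K₀, hK⟩ := link.{u} k hk
  set K := max K₀ t with hKdef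
  obtain ⟨s₀, hs₀⟩ := hK K (le_max_left _ _)
  set t₂ := K + 32 * (K + 1) ^ 2 with ht₂
  refine ⟨max s₀ (32 * (t₂ + 1) ^ 2 + 2), t₂ + 32 * (t₂ + 1) ^ 2 + 1, ?_⟩
  intro n α M _ S₁ S₂ C₁ D₂ g₁ g₂ hdat hKGe
  by_cases hU : HasUniformMinor M k
  · exact Or.inl hU
  right
  intro X hX R hR Q hQ C D s₁ hs₁ s₂ hs₂ hRX hQX hC hD hP₁ hP₂
  have hfX : X.Finite := ⟨M.ground_finite.subset hX.subset⟩
  have hf1 : (X ／ C).Finite := BQ.fin_contract C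
  have hfX' : X✶.Finite := inferInstance
  have hf2 : (X✶ ／ D).Finite := BQ.fin_contract D
  have hbig : ∀ s ≥ max s₀ (32 * (t₂ + 1) ^ 2 + 2), 32 * (t₂ + 1) ^ 2 < s * s ∧ 2 ≤ s := by
    intro s hs
    have h1 : 32 * (t₂ + 1) ^ 2 + 2 ≤ s := (le_max_right _ _).trans hs
    refine ⟨?_, by omega⟩
    have h2 : s ≤ s * s := Nat.le_mul_self s
    omega
  have hRc := pgrid_ncard hP₁ (hbig s₁ hs₁).2
  have hQc := pgrid_ncard hP₂ (hbig s₂ hs₂).2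
  have h1 := (hbig s₁ hs₁).1
  have h2 := (hbig s₂ hs₂).1
  have hKt : 32 * (K + 1) ^ 2 ≤ 32 * (t₂ + 1) ^ 2 :=
    Nat.mul_le_mul_left _ (Nat.pow_le_pow_left (by omega) 2)
  -- in `M`
  have hne : Q.Nonempty := by
    by_contra h0
    rw [not_nonempty_iff_eq_empty.1 h0, Set.ncard_empty] at hQc
    omega
  obtain ⟨e₀, _⟩ := hne
  obtain ⟨hE, vE, hI⟩ := hdat.G₂.isGrid e₀
  have k1 : KGe M S₁ Q (t₂ + 1) := kge_sub_right (D := D₂) (T := S₂) (s := n) hdat.hD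
    hdat.sub₁ hdat.sub₂ hdat.dj ⟨ℕ × ℕ, g₂, _, hE, vE, hdat.b₂, hI⟩ hQ (by omega) hKGe
  have k2 : KGe M R Q (K + 1) := by
    refine kge_sub_grd (T := S₁) hdat.hC hdat.sub₁ (hdat.dj.mono_right hQ) hdat.b₁ hdat.G₁ hR
      (by omega) ?_
    exact BQ.KGe.mono_n k1 (by omega)
  rcases hs₀ s₁ ((le_max_left _ _).trans hs₁) s₂ ((le_max_left _ _).trans hs₂) M X R Q C D hX hRX
    hQX (hdat.dj.mono hR hQ) hC hD hP₁ hP₂ k2 with h | h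
  · exact absurd h hU
  · exact BQ.KGe.mono_n h (by have := le_max_right K₀ t; omega)

/-- a subgrid of a grid in the corner -/
lemma Dat.sub {α : Type u} {M : Matroid α} {S₁ S₂ C₁ D₂ : Set α} {g₁ g₂ : α → Sym2 (ℕ × ℕ)}
    {n n' : ℕ} (h : Dat M S₁ S₂ C₁ D₂ g₁ g₂ n) (hn : n' ≤ n) :
    Dat M (blk S₁ g₁ 0 0 n') (blk S₂ g₂ 0 0 n') C₁ D₂ g₁ g₂ n' := by
  have hr : rect 0 0 n' n' ⊆ rect 0 0 n n := rect_sub (le_refl _) (by omega) (le_refl _) (by omega)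
  have h₁ : blk S₁ g₁ 0 0 n' ⊆ S₁ := blk_sub
  have h₂ : blk S₂ g₂ 0 0 n' ⊆ S₂ := blk_sub
  exact ⟨h₁.trans h.sub₁, h₂.trans h.sub₂, h.dj.mono h₁ h₂,
    fun x hx => ⟨(h.hC hx).1, fun hx2 => (h.hC hx).2 (h₁ hx2)⟩,
    fun x hx => ⟨(h.hD hx).1, fun hx2 => (h.hD hx).2 (h₂ hx2)⟩,
    Bic_sub h.b₁ h₁, Grd_sub h.G₁ hr, Bic_sub h.b₂ h₂, Grd_sub h.G₂ hr⟩

/-- the size of a grid -/
lemma grd_ncard {α : Type u} {S : Set α} {g : α → Sym2 (ℕ × ℕ)} {n : ℕ}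
    (hG : Grd S g 0 0 n n) : S.ncard ≤ 2 * (n * n) := by
  rcases S.eq_empty_or_nonempty with h | ⟨e₀, _⟩
  · rw [h, Set.ncard_empty]
    omega
  · obtain ⟨hE, vE, hI⟩ := hG.isGrid e₀
    exact isGrid_ncard_le hI

/-- the pair in numbers which do not mention `n` -/
lemma HasPair.fin {α : Type u} {M : Matroid α} {S₁ S₂ : Set α} {κ A N b : ℕ}
    (h : HasPair M S₁ S₂ κ A N b) {c Y : ℕ} (hA : 1 ≤ A) (hY : 2 ≤ Y) (hN : A * (Y + 2) ≤ N)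
    (hb : b ≤ c * N ^ 4) :
    ∃ (M' : Matroid α) (y₁ u₁ : ℕ) (L₁ : Bool × ℕ × ℕ → List α) (f₁ : α → Sym2 ((ℕ × ℕ) ⊕ α))
      (e₁ : Bool × ℕ × ℕ → α) (y₂ u₂ : ℕ) (L₂ : Bool × ℕ × ℕ → List α)
      (f₂ : α → Sym2 ((ℕ × ℕ) ⊕ α)) (e₂ : Bool × ℕ × ℕ → α), M' ≤m M ∧
      Y ≤ y₁ ∧ Y ≤ y₂ ∧ u₁ ≤ κ ∧ u₂ ≤ κ ∧
      Pair M' (Seg y₁) L₁ f₁ e₁ u₁ (Seg y₂) L₂ f₂ e₂ u₂ ∧ e₁ '' Seg y₁ ⊆ S₁ ∧
      e₂ '' Seg y₂ ⊆ S₂ ∧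
      (crr L₁ (Seg y₁) ∩ crr L₂ (Seg y₂)).ncard ≤ c * (2 * A) ^ 4 * y₁ ^ 2 * y₂ ^ 2 := by
  obtain ⟨M', y₁, u₁, L₁, f₁, e₁, y₂, u₂, L₂, f₂, e₂, h1, h2, h3, h4, h5, h6, h7, h8, h9⟩ := h
  have hY₁ : Y ≤ y₁ := by
    have h10 : A * (Y + 2) ≤ A * (y₁ + 2) := hN.trans h2
    have := Nat.le_of_mul_le_mul_left h10 (by omega)
    omega
  have hY₂ : Y ≤ y₂ := by
    have h10 : A * (Y + 2) ≤ A * (y₂ + 2) := hN.trans h3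
    have := Nat.le_of_mul_le_mul_left h10 (by omega)
    omega
  refine ⟨M', y₁, u₁, L₁, f₁, e₁, y₂, u₂, L₂, f₂, e₂, h1, hY₁, hY₂, h4, h5, h6, h7, h8, ?_⟩
  have hN₁ : N ≤ 2 * A * y₁ := h2.trans (by
    calc A * (y₁ + 2) ≤ A * (2 * y₁) := Nat.mul_le_mul_left _ (by omega)
      _ = 2 * A * y₁ := by ring)
  have hN₂ : N ≤ 2 * A * y₂ := h3.trans (by
    calc A * (y₂ + 2) ≤ A * (2 * y₂) := Nat.mul_le_mul_left _ (by omega)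
      _ = 2 * A * y₂ := by ring)
  calc (crr L₁ (Seg y₁) ∩ crr L₂ (Seg y₂)).ncard ≤ c * N ^ 4 := h9.trans hb
    _ = c * (N ^ 2 * N ^ 2) := by ring
    _ ≤ c * ((2 * A * y₁) ^ 2 * (2 * A * y₂) ^ 2) :=
        Nat.mul_le_mul_left _ (Nat.mul_le_mul (Nat.pow_le_pow_left hN₁ 2)
          (Nat.pow_le_pow_left hN₂ 2))
    _ = c * (2 * A) ^ 4 * y₁ ^ 2 * y₂ ^ 2 := by ring

/-- **Existence of a pair**, both alternatives, with linking. -/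
theorem pairExists (k K : ℕ) (hk : 1 ≤ k) : ∃ κ K' : ℕ, ∀ t : ℕ, ∃ s₀ : ℕ, ∀ Y : ℕ, ∃ N : ℕ,
    ∀ n ≥ N, ∀ {α : Type u} (M : Matroid α) [M.Finite] (C₁ D₁ C₂ D₂ : Set α),
    C₁ ⊆ M.E → C₂ ⊆ M.E → D₂ ⊆ M.E →
    Disjoint (M.E \ (C₁ ∪ D₁)) (M.E \ (C₂ ∪ D₂)) →
    IsBicircular (M ／ C₁ ＼ D₁) (GPlus n) → IsBicircular (M✶ ／ D₂ ＼ C₂) (GPlus n) →
    ((C₁ ∩ D₂).ncard ≤ K * n ^ 4 ∨ (D₁ ∩ C₂).ncard ≤ K * n ^ 4) →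
    KGe M (M.E \ (C₁ ∪ D₁)) (M.E \ (C₂ ∪ D₂)) N → HasUniformMinor M k ∨
    ∃ (M' : Matroid α) (y₁ u₁ : ℕ) (L₁ : Bool × ℕ × ℕ → List α) (f₁ : α → Sym2 ((ℕ × ℕ) ⊕ α))
      (e₁ : Bool × ℕ × ℕ → α) (y₂ u₂ : ℕ) (L₂ : Bool × ℕ × ℕ → List α)
      (f₂ : α → Sym2 ((ℕ × ℕ) ⊕ α)) (e₂ : Bool × ℕ × ℕ → α), M' ≤m M ∧
      Y ≤ y₁ ∧ Y ≤ y₂ ∧ u₁ ≤ κ ∧ u₂ ≤ κ ∧
      Pair M' (Seg y₁) L₁ f₁ e₁ u₁ (Seg y₂) L₂ f₂ e₂ u₂ ∧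
      Linked M' t s₀ (e₁ '' Seg y₁) (e₂ '' Seg y₂) ∧
      (crr L₁ (Seg y₁) ∩ crr L₂ (Seg y₂)).ncard ≤ K' * y₁ ^ 2 * y₂ ^ 2 := by
  obtain ⟨κ₁, A₁, hA₁, hp₁⟩ := pairAlt1.{u} k
  obtain ⟨κ₂, A₂, hA₂, hp₂⟩ := pairAlt2.{u} k
  refine ⟨κ₁ + κ₂, (16 + 81 * K) * (2 * A₁) ^ 4 + (88 + 81 * K + κ₂) * (2 * A₂) ^ 4, fun t => ?_⟩
  obtain ⟨s₀, B, hl⟩ := linkAll.{u} k hk t
  refine ⟨s₀, fun Y => ⟨4 * B + 2 * ((A₁ + A₂) * (Y + 2 + 2)) + 4, ?_⟩⟩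
  intro n hn α M _ C₁ D₁ C₂ D₂ hC₁ hC₂ hD₂ hdis hb₁ hb₂ hcnt hKGe
  have hf : M✶.Finite := inferInstance
  have hfin : M.E.Finite := M.ground_finite
  obtain ⟨S₁, g₁, hS₁, hB₁, hG₁, hc₁, hk₁⟩ := DST.split1 (by omega) hC₁ hb₁
  obtain ⟨S₂, g₂, hS₂, hB₂, hG₂, hc₂, hk₂⟩ := DST.split1 (M := M✶) (by omega) hD₂ hb₂
  rw [Matroid.dual_ground, union_comm D₂ C₂] at hS₂ hk₂ hc₂
  have hE₁ : M.E \ (C₁ ∪ D₁) ⊆ M.E := sdiff_subset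
  have hE₂ : M.E \ (C₂ ∪ D₂) ⊆ M.E := sdiff_subset
  have k1 : KGe M S₁ (M.E \ (C₂ ∪ D₂)) (2 * B) := by
    refine hk₁ _ _ hdis ?_
    exact BQ.KGe.mono_n hKGe (by omega)
  have k2 : KGe M✶ S₂ S₁ B := by
    refine hk₂ _ _ (hdis.symm.mono_right hS₁) ?_
    exact k1.dual (hS₁.trans hE₁)
  have k3 : KGe M S₁ S₂ B := by
    have := k2.dual (M := M✶) (hS₂.trans hE₂)
    rwa [Matroid.dual_dual] at this
  have hdat : Dat M S₁ S₂ C₁ D₂ g₁ g₂ n := ⟨hS₁.trans hE₁, hS₂.trans hE₂, hdis.mono hS₁ hS₂,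
    fun c hc => ⟨hC₁ hc, fun h => (hS₁ h).2 (Or.inl hc)⟩,
    fun d hd => ⟨hD₂ hd, fun h => (hS₂ h).2 (Or.inr hd)⟩, hB₁, hG₁, hB₂, hG₂⟩
  rcases hl n M S₁ S₂ C₁ D₂ g₁ g₂ hdat k3 with h | hlink
  · exact Or.inl h
  set N := n / 2 with hNdef
  have hN1 : 2 * N ≤ n := by omega
  have hN2 : n ≤ 3 * N := by omega
  have hN0 : 1 ≤ N := by omega
  have hNA : (A₁ + A₂) * (Y + 2 + 2) ≤ N := by omega
  have hNA₁ : A₁ * (Y + 2 + 2) ≤ N := le_trans (Nat.mul_le_mul_right _ (by omega)) hNA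
  have hNA₂ : A₂ * (Y + 2 + 2) ≤ N := le_trans (Nat.mul_le_mul_right _ (by omega)) hNA
  have hd := hdat.sub hN1
  set T₁ := blk S₁ g₁ 0 0 (2 * N) with hT₁
  set T₂ := blk S₂ g₂ 0 0 (2 * N) with hT₂
  have hTS₁ : T₁ ⊆ S₁ := blk_sub
  have hTS₂ : T₂ ⊆ S₂ := blk_sub
  have c1 : T₁.ncard ≤ 8 * N ^ 2 := (grd_ncard hd.G₁).trans (by nlinarith)
  have c2 : T₂.ncard ≤ 8 * N ^ 2 := (grd_ncard hd.G₂).trans (by nlinarith)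
  have cN : N ^ 2 ≤ N ^ 4 := Nat.pow_le_pow_right hN0 (by norm_num)
  have cn : n ^ 4 ≤ 81 * N ^ 4 := by
    calc n ^ 4 ≤ (3 * N) ^ 4 := Nat.pow_le_pow_left hN2 4
      _ = 81 * N ^ 4 := by ring
  have cK : K * n ^ 4 ≤ 81 * K * N ^ 4 := by
    calc K * n ^ 4 ≤ K * (81 * N ^ 4) := Nat.mul_le_mul_left _ cn
      _ = 81 * K * N ^ 4 := by ring
  have hlk : ∀ {M' : Matroid α} {R₁ R₂ : Set α}, M' ≤m M → R₁ ⊆ T₁ → R₂ ⊆ T₂ →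
      Linked M' t s₀ R₁ R₂ := fun hM' h1 h2 =>
    hlink.mono hM' (h1.trans hTS₁) (h2.trans hTS₂)
  rcases hcnt with hcnt | hcnt
  · rcases hp₁ N (le_trans (Nat.le_mul_of_pos_right _ (by omega)) hNA₁) M T₁ T₂ C₁ D₂ g₁ g₂ hd.sub₁
      hd.sub₂ hd.dj hd.hC hd.hD hd.b₁ hd.G₁ hd.b₂ hd.G₂ with h | h
    · exact Or.inl h
    right
    obtain ⟨M', y₁, u₁, L₁, f₁, e₁, y₂, u₂, L₂, f₂, e₂, h1, h2, h3, h4, h5, h6, h7, h8, h9⟩ :=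
      h.fin (c := 16 + 81 * K) hA₁ (show 2 ≤ Y + 2 by omega) hNA₁ (by
        rw [add_mul]
        omega)
    refine ⟨M', y₁, u₁, L₁, f₁, e₁, y₂, u₂, L₂, f₂, e₂, h1, by omega, by omega, by omega,
      by omega, h6, hlk h1 h7 h8, h9.trans ?_⟩
    rw [mul_assoc, mul_assoc _ (y₁ ^ 2)]
    exact Nat.mul_le_mul_right _ (by omega)
  · rcases hp₂ N (le_trans (Nat.le_mul_of_pos_right _ (by omega)) hNA₂) M T₁ T₂ C₁ D₂ g₁ g₂ hd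
      with h | h
    · exact Or.inl h
    right
    have hX : (M.E \ (T₁ ∪ T₂ ∪ C₁ ∪ D₂)).ncard ≤ (D₁ ∩ C₂).ncard + (S₁.ncard +
        ((M.E \ (C₁ ∪ D₁)) \ S₁).ncard) + (S₂.ncard + ((M.E \ (C₂ ∪ D₂)) \ S₂).ncard) := by
      have hsub : M.E \ (T₁ ∪ T₂ ∪ C₁ ∪ D₂) ⊆ (D₁ ∩ C₂) ∪ (S₁ ∪ ((M.E \ (C₁ ∪ D₁)) \ S₁)) ∪
          (S₂ ∪ ((M.E \ (C₂ ∪ D₂)) \ S₂)) := by
        rintro x ⟨hx, hx2⟩
        by_cases h1 : x ∈ S₁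
        · exact Or.inl (Or.inr (Or.inl h1))
        by_cases h2 : x ∈ S₂
        · exact Or.inr (Or.inl h2)
        by_cases hd1 : x ∈ D₁
        · by_cases hc2 : x ∈ C₂
          · exact Or.inl (Or.inl ⟨hd1, hc2⟩)
          · refine Or.inr (Or.inr ⟨⟨hx, ?_⟩, h2⟩)
            rintro (h | h)
            · exact hc2 h
            · exact hx2 (Or.inr h)
        · refine Or.inl (Or.inr (Or.inr ⟨⟨hx, ?_⟩, h1⟩))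
          rintro (h | h)
          · exact hx2 (Or.inl (Or.inr h))
          · exact hd1 h
      refine (Set.ncard_le_ncard hsub (hfin.subset ?_)).trans ?_
      · rintro x ((h | h | h) | (h | h))
        · exact hC₂ h.2
        · exact hdat.sub₁ h
        · exact h.1.1
        · exact hdat.sub₂ h
        · exact h.1.1
      · have r1 := Set.ncard_union_le ((D₁ ∩ C₂) ∪ (S₁ ∪ ((M.E \ (C₁ ∪ D₁)) \ S₁)))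
          (S₂ ∪ ((M.E \ (C₂ ∪ D₂)) \ S₂))
        have r2 := Set.ncard_union_le (D₁ ∩ C₂) (S₁ ∪ ((M.E \ (C₁ ∪ D₁)) \ S₁))
        have r3 := Set.ncard_union_le S₁ ((M.E \ (C₁ ∪ D₁)) \ S₁)
        have r4 := Set.ncard_union_le S₂ ((M.E \ (C₂ ∪ D₂)) \ S₂)
        omega
    have c3 : S₁.ncard ≤ 18 * N ^ 2 := (grd_ncard hG₁).trans (by nlinarith)
    have c4 : S₂.ncard ≤ 18 * N ^ 2 := (grd_ncard hG₂).trans (by nlinarith)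
    have c5 : n * n + 1 ≤ 10 * N ^ 2 := by nlinarith
    have c6 : κ₂ ≤ κ₂ * N ^ 4 := Nat.le_mul_of_pos_right _ (by positivity)
    obtain ⟨M', y₁, u₁, L₁, f₁, e₁, y₂, u₂, L₂, f₂, e₂, h1, h2, h3, h4, h5, h6, h7, h8, h9⟩ :=
      h.fin (c := 88 + 81 * K + κ₂) hA₂ (show 2 ≤ Y + 2 by omega) hNA₂ (by
        rw [add_mul, add_mul]
        omega)
    refine ⟨M', y₁, u₁, L₁, f₁, e₁, y₂, u₂, L₂, f₂, e₂, h1, by omega, by omega, by omega,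
      by omega, h6, hlk h1 h7 h8, h9.trans ?_⟩
    rw [mul_assoc, mul_assoc _ (y₁ ^ 2)]
    exact Nat.mul_le_mul_right _ (by omega)

/-- **A1 + A2.**  `κ` bounds the lifts.  `G` is the distance of the tiles, `Cb G` the density, `t`
the linkage with its threshold `s₀ t`.  Given the density function `Df` (`Df L` = inverse of the
density allowed for the threshold `L`), `h`, the width `K₀` of the boundary layer, the least side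
`w₁` of the block and the side `s` of the tiles there is `wmax`; then the number `m` of the tiles can
be chosen. -/
theorem worldExists (k K : ℕ) (hk : 1 ≤ k) : ∃ (κ : ℕ) (s₀ Cb : ℕ → ℕ), ∀ t G : ℕ, 2 ∣ G →
    ∀ (Df : ℕ → ℕ) (h K₀ w₁ s : ℕ), s < G → ∃ wmax : ℕ, ∀ m : ℕ, ∃ N : ℕ, ∀ n ≥ N,
    ∀ {α : Type u} (M : Matroid α) [M.Finite] (C₁ D₁ C₂ D₂ : Set α),
    C₁ ⊆ M.E → C₂ ⊆ M.E → D₂ ⊆ M.E →
    Disjoint (M.E \ (C₁ ∪ D₁)) (M.E \ (C₂ ∪ D₂)) →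
    IsBicircular (M ／ C₁ ＼ D₁) (GPlus n) → IsBicircular (M✶ ／ D₂ ＼ C₂) (GPlus n) →
    ((C₁ ∩ D₂).ncard ≤ K * n ^ 4 ∨ (D₁ ∩ C₂).ncard ≤ K * n ^ 4) →
    KGe M (M.E \ (C₁ ∪ D₁)) (M.E \ (C₂ ∪ D₂)) N → HasUniformMinor M k ∨
    ∃ (M₀ : Matroid α) (w L : ℕ) (𝒯 : Finset (ℕ × ℕ)) (L₁ : Bool × ℕ × ℕ → List α)
      (f₁ : α → Sym2 ((ℕ × ℕ) ⊕ α)) (e₁ : Bool × ℕ × ℕ → α) (u₁ : ℕ)
      (L₂ : Bool × ℕ × ℕ → List α) (f₂ : α → Sym2 ((ℕ × ℕ) ⊕ α)) (e₂ : Bool × ℕ × ℕ → α) (u₂ : ℕ),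
      M₀ ≤m M ∧ w₁ ≤ w ∧ w ≤ wmax ∧ L ≤ wmax ∧ u₁ ≤ κ ∧ u₂ ≤ κ ∧ m ≤ 𝒯.card ∧
      (∀ b ∈ 𝒯, G ∣ b.1 ∧ G ∣ b.2) ∧
      World M₀ w s 𝒯 L₁ f₁ e₁ u₁ L₂ f₂ e₂ u₂ ∧
      Linked M₀ t (s₀ t) (e₁ '' Seg w) (e₂ '' tiles s 𝒯) ∧
      ∀ b ∈ 𝒯,
        -- (a) no row is heavy in the tile
        (∀ r ∈ Seg w, Df L * ({x | x ∈ L₁ r} ∩ crr L₂ (shS b.1 b.2 '' Seg s)).ncard < w ^ 2) ∧
        -- (b) total
        (crr L₁ (Seg w) ∩ crr L₂ (shS b.1 b.2 '' Seg s)).ncard ≤ Cb G * w ^ 2 ∧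
        -- (c) boundary layer
        Df L * (crr L₁ (layer w K₀) ∩ crr L₂ (shS b.1 b.2 '' Seg s)).ncard ≤ w ^ 2 ∧
        -- (d) rows with more than `L` conflicts in the tile carry little together
        h * (crr L₁ {r | r ∈ Seg w ∧
              L < ({x | x ∈ L₁ r} ∩ crr L₂ (shS b.1 b.2 '' Seg s)).ncard} ∩
            crr L₂ (shS b.1 b.2 '' Seg s)).ncard ≤ w ^ 2 := by
  classical
  obtain ⟨κ, K', hpair⟩ := pairExists.{u} k K hk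
  choose s₀ hs₀ using hpair
  have hsc := fun G => scale2.{u} K' G
  choose Cb hsc using hsc
  refine ⟨κ, s₀, Cb, fun t G hG Df h K₀ w₁ s hsG => ?_⟩
  obtain ⟨wmax, c, hw⟩ := hsc G Df h K₀ w₁ s hsG hG
  refine ⟨wmax, fun m => ?_⟩
  obtain ⟨N, hN⟩ := hs₀ t (2 * wmax + 2 * s + c * m + 1)
  refine ⟨N, fun n hn {α} M _ C₁ D₁ C₂ D₂ hC₁ hC₂ hD₂ hdis hb₁ hb₂ hcnt hKGe => ?_⟩
  rcases hN n hn M C₁ D₁ C₂ D₂ hC₁ hC₂ hD₂ hdis hb₁ hb₂ hcnt hKGe with hU | hU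
  · exact Or.inl hU
  right
  obtain ⟨M', y₁, u₁, L₁, f₁, e₁, y₂, u₂, L₂, f₂, e₂, h1, h2, h3, h4, h5, h6, h7, h8⟩ := hU
  have hfM : M'.Finite := ⟨M.ground_finite.subset h1.subset⟩
  have hQf : (crr L₁ (Seg y₁) ∩ crr L₂ (Seg y₂)).Finite :=
    M'.ground_finite.subset (inter_subset_left.trans h6.s₁.sub_ground)
  -- the row and the column of a conflict
  have hrow : ∀ x ∈ crr L₁ (Seg y₁), ∃ r ∈ Seg y₁, x ∈ L₁ r := fun x hx => hx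
  have hcol : ∀ x ∈ crr L₂ (Seg y₂), ∃ r ∈ Seg y₂, x ∈ L₂ r := fun x hx => hx
  choose! p hp1 hp2 using hrow
  choose! q hq1 hq2 using hcol
  have hpu : ∀ r ∈ Seg y₁, ∀ x ∈ L₁ r, p x = r := fun r hr x hx =>
    h6.s₁.uniq (hp1 x ⟨r, hr, hx⟩) hr (hp2 x ⟨r, hr, hx⟩) hx
  have hqu : ∀ r ∈ Seg y₂, ∀ x ∈ L₂ r, q x = r := fun r hr x hx =>
    h6.s₂.uniq (hq1 x ⟨r, hr, hx⟩) hr (hq2 x ⟨r, hr, hx⟩) hx
  obtain ⟨w, L, hw1, hww, hwm, hLm, i, j, hi, hj, hiw, hjw, 𝒯, h𝒯c, h𝒯, hfin⟩ :=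
    hw y₁ y₂ (by omega) (by omega) hQf.toFinset p q (by
      rw [← Set.ncard_eq_toFinset_card _ hQf]
      exact h8)
  have hev : ∀ b ∈ 𝒯, b.1 % 2 = 0 ∧ b.2 % 2 = 0 ∧ b.1 + s ≤ y₂ ∧ b.2 + s ≤ y₂ := by
    intro b hb
    obtain ⟨g1, g2, g3, g4⟩ := h𝒯 b hb
    have g5 := hG.trans g1
    have g6 := hG.trans g2
    exact ⟨by omega, by omega, g3, g4⟩
  obtain ⟨M₀, L₁', f₁', L₂', f₂', k1, k2, k3, k4⟩ := h6.world hi hj hiw hjw hev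
  have hfM₀ : M₀.Finite := ⟨M'.ground_finite.subset k1.subset⟩
  have hS₁ : ∀ r ∈ Seg w, shS i j r ∈ Seg y₁ := fun r hr => shS_mem (by omega) hiw hjw hr
  have hS₂ : tiles s 𝒯 ⊆ Seg y₂ := by
    rintro σ ⟨b, hb, hσ⟩
    obtain ⟨g1, g2, g3, g4⟩ := hev b hb
    exact shS_sub (by omega) g3 g4 hσ
  have htile : ∀ b ∈ 𝒯, shS b.1 b.2 '' Seg s ⊆ tiles s 𝒯 := fun b hb σ hσ => ⟨b, hb, hσ⟩
  -- transport of the conflicts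
  have htr : ∀ b ∈ 𝒯, ∀ r ∈ Seg w, ∀ x ∈ L₁' r, x ∈ crr L₂' (shS b.1 b.2 '' Seg s) →
      x ∈ hQf.toFinset ∧ p x = shS i j r ∧ q x ∈ shS b.1 b.2 '' Seg s := by
    rintro b hb r hr x hx ⟨σ, hσ, hxσ⟩
    have g1 := k3 r hr x hx
    have g2 := k4 σ (htile b hb hσ) x hxσ
    have g3 : σ ∈ Seg y₂ := hS₂ (htile b hb hσ)
    refine ⟨hQf.mem_toFinset.2 ⟨⟨_, hS₁ r hr, g1⟩, ⟨_, g3, g2⟩⟩, hpu _ (hS₁ r hr) x g1, ?_⟩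
    rw [hqu σ g3 x g2]
    exact hσ
  have hle : ∀ (A : Set α) (F : Finset α), (∀ x ∈ A, x ∈ F) → A.ncard ≤ F.card := by
    intro A F hAF
    have := Set.ncard_le_ncard (s := A) (t := (F : Set α)) (fun x hx => by
      exact Finset.mem_coe.2 (hAF x hx)) F.finite_toSet
    rwa [Set.ncard_coe_finset] at this
  refine ⟨M₀, w, L, 𝒯, L₁', f₁', _, u₁, L₂', f₂', e₂, u₂, k1.trans h1, hww, hwm, hLm, h4, h5, ?_,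
    fun b hb => ⟨(h𝒯 b hb).1, (h𝒯 b hb).2.1⟩, k2, ?_, ?_⟩
  · -- the number of the tiles
    by_contra hlt
    push Not at hlt
    have g1 : c * 𝒯.card ≤ c * m := Nat.mul_le_mul_left _ hlt.le
    have g2 : y₂ ≤ y₂ ^ 2 := Nat.le_self_pow (by norm_num) _
    omega
  · refine h7.mono k1 ?_ (image_mono hS₂)
    rintro _ ⟨r, hr, rfl⟩
    exact ⟨_, hS₁ r hr, rfl⟩
  · intro b hb
    obtain ⟨g1, g2, g3, g4⟩ := hfin b hb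
    refine ⟨fun r hr => lt_of_le_of_lt (Nat.mul_le_mul_left _ (hle _ _ ?_)) (g1 r hr),
      (hle _ _ ?_).trans g2, (Nat.mul_le_mul_left _ (hle _ _ ?_)).trans g3,
      (Nat.mul_le_mul_left _ (hle _ _ ?_)).trans g4⟩
    · rintro x ⟨hx1, hx2⟩
      obtain ⟨g5, g6, g7⟩ := htr b hb r hr x hx1 hx2
      exact Finset.mem_filter.2 ⟨g5, g6, g7⟩
    · rintro x ⟨⟨r, hr, hx1⟩, hx2⟩
      obtain ⟨g5, g6, g7⟩ := htr b hb r hr x hx1 hx2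
      exact Finset.mem_filter.2 ⟨g5, by rw [g6]; exact ⟨r, hr, rfl⟩, g7⟩
    · rintro x ⟨⟨r, hr, hx1⟩, hx2⟩
      obtain ⟨g5, g6, g7⟩ := htr b hb r hr.1 x hx1 hx2
      exact Finset.mem_filter.2 ⟨g5, by rw [g6]; exact ⟨r, hr, rfl⟩, g7⟩
    · rintro x ⟨⟨r, ⟨hr, hL⟩, hx1⟩, hx2⟩
      obtain ⟨g5, g6, g7⟩ := htr b hb r hr x hx1 hx2
      refine Finset.mem_filter.2 ⟨g5, ⟨by rw [g6]; exact ⟨r, hr, rfl⟩, g7⟩, ?_⟩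
      refine lt_of_lt_of_le hL (hle _ _ ?_)
      rintro z ⟨hz1, hz2⟩
      obtain ⟨g8, g9, g10⟩ := htr b hb r hr z hz1 hz2
      exact Finset.mem_filter.2 ⟨g8, by rw [g9, g6], g10⟩

end CWL
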