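import Pool.Agent.CW.A1
import Pool.Agent.Helper53.BQ.W

/-!
# Hot blocks: a sub-wall and a tile without conflicts give a uniform minor
-/

open Set BIC BICS
open scoped Matroid

namespace CWL

universe u

section

variable {α : Type u} {M : Matroid α} {S S' : Set (Bool × ℕ × ℕ)} {L : Bool × ℕ × ℕ → List α}
  {f : α → Sym2 ((ℕ × ℕ) ⊕ α)} {e : Bool × ℕ × ℕ → α} {u y : ℕ}

/-- the vertices of a set of rows -/
def vtx (L : Bool × ℕ × ℕ → List α) (S : Set (Bool × ℕ × ℕ)) : Set ((ℕ × ℕ) ⊕ α) :=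
  {v | (∃ s ∈ S, v = Sum.inl (segNear s) ∨ v = Sum.inl (segFar s)) ∨
    ∃ c ∈ crr L S, v = Sum.inr c}

lemma GSide.node_vtx (h : GSide M S L f e u) {S' : Set (Bool × ℕ × ℕ)} (_hS : S' ⊆ S)
    {s : Bool × ℕ × ℕ} (hs : s ∈ S') {i : ℕ} (hi : i ≤ (L s).length) :
    node s (L s) i ∈ vtx L S' := by
  rcases node_cases s (List.ne_nil_of_mem (h.mem_last (_hS hs))) hi with h1 | h1 | ⟨c, hc, h1⟩
  · exact Or.inl ⟨s, hs, Or.inl h1⟩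
  · exact Or.inl ⟨s, hs, Or.inr h1⟩
  · exact Or.inr ⟨c, ⟨s, hs, hc⟩, h1⟩

lemma GSide.crr_ins (h : GSide M S L f e u) {S' : Set (Bool × ℕ × ℕ)} (hS : S' ⊆ S) :
    crr L S' ⊆ ins (crr L S) f (vtx L S') := by
  rintro x ⟨s, hs, hx⟩
  refine ⟨⟨s, hS hs, hx⟩, fun v hv => ?_⟩
  obtain ⟨i, hi, rfl⟩ := List.mem_iff_getElem.1 hx
  rw [h.end_eq s (hS hs) i hi, Sym2.mem_iff] at hv
  rcases hv with rfl | rfl
  · exact h.node_vtx hS hs hi.le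
  · exact h.node_vtx hS hs hi

/-- an exact wall contains a plain grid -/
theorem GSide.pgrid0 [M.Finite] {s : ℕ} (h : GSide M (Seg (2 * s)) L f e 0) :
    ∃ C R : Set α, C ⊆ crr L (Seg (2 * s)) ∧ R ⊆ e '' Seg (2 * s) ∧ Disjoint R C ∧
      PGrid (M ／ C) R s := by
  classical
  set Z : Set α := crr L (Seg (2 * s)) \ e '' Seg (2 * s) with hZ
  obtain ⟨f', h'⟩ := h.contract (Z := Z) sdiff_subset fun σ hσ hz => hz.2 ⟨σ, hσ, rfl⟩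
  have hf1 : (M ／ Z).Finite := BQ.fin_contract Z
  have hlist : ∀ σ ∈ Seg (2 * s), lrem L Z σ = [e σ] := by
    intro σ hσ
    have h1 : ∀ x ∈ lrem L Z σ, x = e σ := by
      intro x hx
      rw [mem_lrem] at hx
      by_contra hne
      have h2 : x ∈ e '' Seg (2 * s) := by
        by_contra h3
        exact hx.2 ⟨⟨σ, hσ, hx.1⟩, h3⟩
      obtain ⟨τ, hτ, rfl⟩ := h2
      exact hne (by rw [h.uniq hσ hτ hx.1 (h.mem_last hτ)])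
    have h2 := h'.mem_last hσ
    have h3 := h'.nodup σ hσ
    have h4 : (lrem L Z σ).length = 1 := by
      rcases Nat.lt_or_ge (lrem L Z σ).length 2 with h5 | h5
      · have := List.length_pos_of_mem h2
        omega
      · exfalso
        have h6 := h1 _ (List.getElem_mem (l := lrem L Z σ) (n := 0) (by omega))
        have h7 := h1 _ (List.getElem_mem (l := lrem L Z σ) (n := 1) (by omega))
        have h8 := (List.Nodup.getElem_inj_iff h3 (hi := by omega) (hj := by omega)).1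
          (h6.trans h7.symm)
        omega
    obtain ⟨a, ha⟩ := List.length_eq_one_iff.1 h4
    rw [ha] at h2 ⊢
    rw [List.mem_singleton.1 h2]
  have hends : ∀ σ ∈ Seg (2 * s), f' (e σ) = s(Sum.inl (segNear σ), Sum.inl (segFar σ)) := by
    intro σ hσ
    have h1 := h'.end_eq σ hσ 0 (by rw [hlist σ hσ]; simp)
    have h2 : (lrem L Z σ)[0]'(by rw [hlist σ hσ]; simp) = e σ := by
      simp only [hlist σ hσ, List.getElem_cons_zero]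
    rw [h2, node_zero] at h1
    rw [h1]
    have h3 := node_last (α := α) σ (l := lrem L Z σ) (by rw [hlist σ hσ]; simp)
    rw [show (lrem L Z σ).length = 0 + 1 from by rw [hlist σ hσ]; rfl] at h3
    rw [h3]
  have hcrr : crr (lrem L Z) (Seg (2 * s)) = e '' Seg (2 * s) := by
    ext x
    constructor
    · rintro ⟨σ, hσ, hx⟩
      rw [hlist σ hσ, List.mem_singleton] at hx
      exact ⟨σ, hσ, hx.symm⟩
    · rintro ⟨σ, hσ, rfl⟩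
      exact ⟨σ, hσ, by rw [hlist σ hσ]; simp⟩
  have hB := h'.lift.bic
  rw [hcrr] at hB
  set q : (ℕ × ℕ) ⊕ α → ℕ × ℕ := Sum.elim id fun _ => (0, 0) with hq
  have hB2 : Bic (M ／ Z) (e '' Seg (2 * s)) (fun x => (f' x).map q) := by
    refine ((bicU_zero hB).map q ?_).bic
    have hv : ∀ v ∈ {v | ∃ x ∈ e '' Seg (2 * s), v ∈ f' x}, ∃ p, v = Sum.inl p := by
      rintro v ⟨_, ⟨σ, hσ, rfl⟩, hv⟩
      rw [hends σ hσ, Sym2.mem_iff] at hv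
      rcases hv with rfl | rfl
      · exact ⟨_, rfl⟩
      · exact ⟨_, rfl⟩
    intro v hv1 w hv2 hvw
    obtain ⟨p, rfl⟩ := hv v hv1
    obtain ⟨p', rfl⟩ := hv w hv2
    simp only [hq, Sum.elim_inl, id] at hvw
    rw [hvw]
  obtain ⟨Z', R, hZ', hR, hP⟩ := wall_pgrid (N := M ／ Z) (e := e)
    (ends := fun x => (f' x).map q) h.e_inj (by
      intro σ hσ
      simp only [hends σ hσ, Sym2.map_mk, hq, Sum.elim_inl, id]) hB2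
  refine ⟨Z ∪ Z', R, ?_, hR.trans sdiff_subset, ?_, ?_⟩
  · exact union_subset sdiff_subset (hZ'.trans h.e_sub)
  · rw [Set.disjoint_left]
    rintro x hx (hx2 | hx2)
    · exact hx2.2 (hR hx).1
    · exact (hR hx).2 hx2
  · rw [← Matroid.contract_contract]
    exact hP

/-- **A plain grid in a side** (up to a lift). -/
theorem GSide.pgrid [M.Finite] (h : GSide M (Seg y) L f e u) {s : ℕ}
    (hy : (u + 1) * (2 * s + 2) ≤ y) :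
    ∃ C R : Set α, C ⊆ crr L (Seg y) ∧ R ⊆ e '' Seg y ∧ Disjoint R C ∧ PGrid (M ／ C) R s := by
  classical
  have hpos : ∀ j ≤ u, j * (2 * s + 2) + 2 * s ≤ y ∧ 2 * s ≤ y := by
    intro j hj
    have h1 : (j + 1) * (2 * s + 2) ≤ (u + 1) * (2 * s + 2) := Nat.mul_le_mul_right _ (by omega)
    have h2 : (j + 1) * (2 * s + 2) = j * (2 * s + 2) + (2 * s + 2) := by ring
    omega
  have hev : ∀ j, (j * (2 * s + 2)) % 2 = 0 := by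
    intro j
    have : j * (2 * s + 2) = 2 * (j * (s + 1)) := by ring
    omega
  set bl : ℕ → Set (Bool × ℕ × ℕ) := fun j => shS (j * (2 * s + 2)) 0 '' Seg (2 * s) with hbl
  have hbS : ∀ j ≤ u, bl j ⊆ Seg y := fun j hj =>
    shS_sub (by have := hev j; omega) (hpos j hj).1 (by have := (hpos j hj).2; omega)
  have hx : ∀ j, ∀ σ ∈ bl j, j * (2 * s + 2) ≤ (segNear σ).1 ∧
      (segNear σ).1 ≤ j * (2 * s + 2) + 2 * s ∧ j * (2 * s + 2) ≤ (segFar σ).1 ∧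
      (segFar σ).1 ≤ j * (2 * s + 2) + 2 * s := by
    rintro j _ ⟨σ, hσ, rfl⟩
    have h1 := seg_ends hσ
    rw [segNear_shS, segFar_shS]
    simp only
    omega
  have hsep : ∀ i ≤ u, ∀ j ≤ u, i ≠ j → ∀ a b : ℕ, i * (2 * s + 2) ≤ a →
      a ≤ i * (2 * s + 2) + 2 * s → j * (2 * s + 2) ≤ b → b ≤ j * (2 * s + 2) + 2 * s →
      a ≠ b := by
    intro i _ j _ hij a b h1 h2 h3 h4 hab
    rcases Nat.lt_or_gt_of_ne hij with h5 | h5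
    · have h6 : (i + 1) * (2 * s + 2) ≤ j * (2 * s + 2) := Nat.mul_le_mul_right _ h5
      have h7 : (i + 1) * (2 * s + 2) = i * (2 * s + 2) + (2 * s + 2) := by ring
      omega
    · have h6 : (j + 1) * (2 * s + 2) ≤ i * (2 * s + 2) := Nat.mul_le_mul_right _ h5
      have h7 : (j + 1) * (2 * s + 2) = j * (2 * s + 2) + (2 * s + 2) := by ring
      omega
  obtain ⟨i, hi, hB⟩ := h.lift.exact (fun j => vtx L (bl j)) (by
    intro i hi j hj hij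
    rw [Set.disjoint_left]
    rintro v (⟨σ, hσ, hv⟩ | ⟨c, ⟨σ, hσ, hc⟩, rfl⟩) (⟨τ, hτ, hv'⟩ | ⟨c', ⟨τ, hτ, hc'⟩, hv'⟩)
    · have h1 := hx i σ hσ
      have h2 := hx j τ hτ
      rcases hv with rfl | rfl <;> rcases hv' with hv' | hv' <;>
        rw [Sum.inl.injEq] at hv'
      · exact hsep i hi j hj hij _ _ h1.1 h1.2.1 h2.1 h2.2.1 (by rw [hv'])
      · exact hsep i hi j hj hij _ _ h1.1 h1.2.1 h2.2.2.1 h2.2.2.2 (by rw [hv'])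
      · exact hsep i hi j hj hij _ _ h1.2.2.1 h1.2.2.2 h2.1 h2.2.1 (by rw [hv'])
      · exact hsep i hi j hj hij _ _ h1.2.2.1 h1.2.2.2 h2.2.2.1 h2.2.2.2 (by rw [hv'])
    · rcases hv with rfl | rfl <;> simp at hv'
    · rcases hv' with hv' | hv' <;> simp at hv'
    · rw [Sum.inr.injEq] at hv'
      subst hv'
      have h3 := h.uniq (hbS i hi hσ) (hbS j hj hτ) hc hc'
      subst h3
      have h1 := hx i σ hσ
      have h2 := hx j σ hτ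
      exact hsep i hi j hj hij _ _ h1.1 h1.2.1 h2.1 h2.2.1 rfl)
  set A : Set α := ⋃ j ∈ Iio i, ins (crr L (Seg y)) f (vtx L (bl j)) with hA
  have hAs : A ⊆ crr L (Seg y) := by
    intro x hx
    simp only [hA, mem_iUnion₂] at hx
    obtain ⟨j, _, hj⟩ := hx
    exact hj.1
  have hf1 : (M ／ A).Finite := BQ.fin_contract A
  have hB1 : Bic (M ／ A) (crr L (bl i)) f := Bic_sub hB (h.crr_ins (hbS i hi))
  have hg : GSide (M ／ A) (bl i) L f e 0 :=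
    ⟨fun σ hσ => h.nodup σ (hbS i hi hσ), fun σ hσ τ hτ => h.disj σ (hbS i hi hσ) τ (hbS i hi hτ),
      fun σ hσ => h.end_eq σ (hbS i hi hσ), lift_of_bic hB1, fun σ hσ => h.last σ (hbS i hi hσ)⟩
  obtain ⟨f', hg'⟩ := hg.shift (S' := Seg (2 * s)) (Subset.refl _)
  obtain ⟨C, R, hC, hR, hd, hP⟩ := hg'.pgrid0
  have hC' : C ⊆ crr L (bl i) := by
    rw [crr_shift] at hC
    exact hC
  have hR' : R ⊆ e '' bl i := by
    rintro x hx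
    obtain ⟨σ, hσ, rfl⟩ := hR hx
    exact ⟨_, ⟨σ, hσ, rfl⟩, rfl⟩
  refine ⟨A ∪ C, R, union_subset hAs (hC'.trans (crr_mono (hbS i hi))),
    hR'.trans (image_mono (hbS i hi)), ?_, ?_⟩
  · rw [Set.disjoint_left]
    rintro x hx (hx2 | hx2)
    · have h1 := hB1.sub (show x ∈ crr L (bl i) from by
        obtain ⟨σ, hσ, rfl⟩ := hR' hx
        exact ⟨σ, hσ, h.mem_last (hbS i hi hσ)⟩)
      exact h1.2 hx2
    · exact Set.disjoint_left.1 hd hx hx2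
  · rw [← Matroid.contract_contract]
    exact hP

end

/-- **No conflicts.**  A side in `M` and a side in `M✶` without conflicts give a uniform minor. -/
theorem noConf (k : ℕ) (hk : 1 ≤ k) : ∃ t₀ : ℕ, ∀ κ s₀ : ℕ, ∃ ρ : ℕ, ∀ t ≥ t₀,
    ∀ {α : Type u} (M : Matroid α) [M.Finite] (L₁ : Bool × ℕ × ℕ → List α)
    (f₁ : α → Sym2 ((ℕ × ℕ) ⊕ α)) (e₁ : Bool × ℕ × ℕ → α) (L₂ : Bool × ℕ × ℕ → List α)
    (f₂ : α → Sym2 ((ℕ × ℕ) ⊕ α)) (e₂ : Bool × ℕ × ℕ → α),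
    Pair M (Seg ρ) L₁ f₁ e₁ κ (Seg ρ) L₂ f₂ e₂ κ → Linked M t s₀ (e₁ '' Seg ρ) (e₂ '' Seg ρ) →
    Disjoint (crr L₁ (Seg ρ)) (crr L₂ (Seg ρ)) → HasUniformMinor M k := by
  obtain ⟨n₀, hW⟩ := thmWp.{u} k hk 0
  refine ⟨n₀, fun κ s₀ => ?_⟩
  set n := max n₀ s₀ with hn
  refine ⟨(κ + 1) * (2 * n + 2), fun t ht {α} M _ L₁ f₁ e₁ L₂ f₂ e₂ hp hl hd => ?_⟩
  have hf : M✶.Finite := inferInstance
  obtain ⟨C₁, R₁, hC₁, hR₁, hd₁, hP₁⟩ := hp.s₁.pgrid (le_refl _)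
  obtain ⟨D₂, R₂, hD₂, hR₂, hd₂, hP₂⟩ := hp.s₂.pgrid (le_refl _)
  obtain ⟨g₁, hB₁, hG₁⟩ := hP₁.toGrd
  obtain ⟨g₂, hB₂, hG₂⟩ := hP₂.toGrd
  have hE₁ : R₁ ⊆ M.E := hR₁.trans (hp.s₁.e_sub.trans hp.s₁.sub_ground)
  have hE₂ : R₂ ⊆ M.E := hR₂.trans (hp.s₂.e_sub.trans hp.s₂.sub_ground)
  have hC₁' : C₁ ⊆ M.E \ R₁ := fun x hx => ⟨hp.s₁.sub_ground (hC₁ hx),
    fun h => Set.disjoint_left.1 hd₁ h hx⟩
  have hD₂' : D₂ ⊆ M.E \ R₂ := fun x hx => ⟨hp.s₂.sub_ground (hD₂ hx),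
    fun h => Set.disjoint_left.1 hd₂ h hx⟩
  have hCD : C₁ \ D₂ = C₁ := sdiff_eq_left.2 (hd.mono hC₁ hD₂)
  refine hW n (le_max_left _ _) M R₁ R₂ C₁ D₂ g₁ g₂ 0 0 0 0 hE₁ hE₂ (hp.dj.mono hR₁ hR₂) hC₁' hD₂'
    hB₁ hG₁ hB₂ hG₂ (by rw [hCD]; omega) ?_
  exact BQ.KGe.mono_n (hl M Matroid.IsMinor.refl R₁ hR₁ R₂ hR₂ C₁ D₂ n (le_max_right _ _) n
    (le_max_right _ _) hE₁ hE₂ hC₁' hD₂' hP₁ hP₂) ht

/-- **Hot blocks.** -/
theorem hotBlock (k : ℕ) (hk : 1 ≤ k) : ∃ t₀ : ℕ, ∀ κ s₀ : ℕ, ∃ ρ : ℕ, ∀ t ≥ t₀,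
    ∀ {α : Type u} (M : Matroid α) [M.Finite] (S₁ : Set (Bool × ℕ × ℕ))
    (L₁ : Bool × ℕ × ℕ → List α) (f₁ : α → Sym2 ((ℕ × ℕ) ⊕ α)) (e₁ : Bool × ℕ × ℕ → α) (u₁ : ℕ)
    (S₂ : Set (Bool × ℕ × ℕ)) (L₂ : Bool × ℕ × ℕ → List α) (f₂ : α → Sym2 ((ℕ × ℕ) ⊕ α))
    (e₂ : Bool × ℕ × ℕ → α) (u₂ : ℕ),
    Pair M S₁ L₁ f₁ e₁ u₁ S₂ L₂ f₂ e₂ u₂ → u₁ ≤ κ → u₂ ≤ κ →
    Linked M t s₀ (e₁ '' S₁) (e₂ '' S₂) → HasUniformMinor M k ∨
    ∀ i j a b : ℕ, shS i j '' Seg ρ ⊆ S₁ → shS a b '' Seg ρ ⊆ S₂ →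
      ∃ r ∈ shS i j '' Seg ρ, ∃ x ∈ L₁ r, x ∈ crr L₂ (shS a b '' Seg ρ) := by
  obtain ⟨t₀, h0⟩ := noConf.{u} k hk
  refine ⟨t₀, fun κ s₀ => ?_⟩
  obtain ⟨ρ, hρ⟩ := h0 κ s₀
  refine ⟨ρ, fun t ht {α} M _ S₁ L₁ f₁ e₁ u₁ S₂ L₂ f₂ e₂ u₂ hp hu₁ hu₂ hl => ?_⟩
  by_cases hU : HasUniformMinor M k
  · exact Or.inl hU
  right
  intro i j a b hi ha
  by_contra hno
  push Not at hno
  apply hU
  obtain ⟨f₁', q₁⟩ := (hp.s₁.mono hu₁).shift (S' := Seg ρ) hi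
  obtain ⟨f₂', q₂⟩ := (hp.s₂.mono hu₂).shift (S' := Seg ρ) ha
  have e1 : (fun r => e₁ (shS i j r)) '' Seg ρ ⊆ e₁ '' S₁ := by
    rintro _ ⟨r, hr, rfl⟩
    exact ⟨_, hi ⟨r, hr, rfl⟩, rfl⟩
  have e2 : (fun r => e₂ (shS a b r)) '' Seg ρ ⊆ e₂ '' S₂ := by
    rintro _ ⟨r, hr, rfl⟩
    exact ⟨_, ha ⟨r, hr, rfl⟩, rfl⟩
  refine hρ t ht M _ f₁' _ _ f₂' _ ⟨q₁, q₂, hp.dj.mono e1 e2⟩
    (hl.mono Matroid.IsMinor.refl e1 e2) ?_
  rw [crr_shift, crr_shift, Set.disjoint_left]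
  rintro x ⟨r, hr, hx⟩ hx2
  exact hno r hr x hx hx2

end CWL
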