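import Pool.Agent.CW.WallIso
import Pool.Agent.CW.A1
import Pool.Agent.CW.Hot
import Pool.Agent.TST.Reps

/-!
# Row (A) of T*: low order regions without a block of the columns meet few rows
-/

open Set BIC BICS
open scoped Matroid

namespace CWL

universe u

/-! ### separations under restriction and contraction -/

section sep

variable {α : Type*} {M : Matroid α} [M.Finite]

lemma sep_restrict {E A T : Set α} {k : ℕ} (hA : A ⊆ E) (hT : T ⊆ E)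
    (h : rk M A + rk M (E \ A) ≤ rk M E + k) :
    rk M (A ∩ T) + rk M (T \ (A ∩ T)) ≤ rk M T + k := by
  have h1 := rk_submod (M := M) A T
  have h2 := rk_submod (M := M) (E \ A) (A ∪ T)
  have e1 : (E \ A) ∩ (A ∪ T) = T \ (A ∩ T) := by
    ext x
    simp only [mem_inter_iff, mem_sdiff, mem_union]
    constructor
    · rintro ⟨⟨_, h3⟩, h4 | h4⟩
      · exact absurd h4 h3
      · exact ⟨h4, fun h5 => h3 h5.1⟩
    · rintro ⟨h3, h4⟩
      exact ⟨⟨hT h3, fun h5 => h4 ⟨h5, h3⟩⟩, Or.inr h3⟩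
  have e2 : (E \ A) ∪ (A ∪ T) = E := by
    ext x
    simp only [mem_sdiff, mem_union]
    constructor
    · rintro (h3 | h3 | h3)
      · exact h3.1
      · exact hA h3
      · exact hT h3
    · intro h3
      by_cases h4 : x ∈ A
      · exact Or.inr (Or.inl h4)
      · exact Or.inl ⟨h3, h4⟩
  rw [e1, e2] at h2
  omega

lemma sep_union {R A Z : Set α} {k : ℕ} (h : rk M A + rk M (R \ A) ≤ rk M R + k)
    (hZ : Z ⊆ R) : rk M (A ∪ Z) + rk M ((R \ A) ∪ Z) ≤ rk M R + rk M Z + k := by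
  have h1 := rk_submod (M := M) A Z
  have h2 := rk_submod (M := M) (R \ A) Z
  have h3 := rk_submod (M := M) (A ∩ Z) ((R \ A) ∩ Z)
  have h4 : rk M Z ≤ rk M ((A ∩ Z) ∪ ((R \ A) ∩ Z)) := by
    refine rk_mono M fun x hx => ?_
    by_cases h5 : x ∈ A
    · exact Or.inl ⟨h5, hx⟩
    · exact Or.inr ⟨⟨hZ hx, h5⟩, hx⟩
  omega

end sep

section

variable {α : Type*} {M : Matroid α} {L : Bool × ℕ × ℕ → List α}
  {f : α → Sym2 ((ℕ × ℕ) ⊕ α)} {e : Bool × ℕ × ℕ → α} {u y : ℕ}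

/-- one choice of representatives -/
lemma GSide.iso_reps [M.Finite] (h : GSide M (Seg y) L f e u) {A : Set α}
    (hA : A ⊆ crr L (Seg y)) {q : ℕ}
    (hq : rk M A + rk M (crr L (Seg y) \ A) ≤ rk M (crr L (Seg y)) + q)
    {r : Bool × ℕ × ℕ → α} (hr : ∀ s ∈ Seg y, r s ∈ L s) :
    {s ∈ Seg y | r s ∈ A}.ncard ≤ cW (q + u) ∨ {s ∈ Seg y | r s ∉ A}.ncard ≤ cW (q + u) := by
  classical
  set R : Set α := crr L (Seg y) with hR
  obtain ⟨h0, N, hNf, hN1, hN2, hN3⟩ := h.lift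
  -- the quotient
  have n1 : ∀ X ⊆ R, rk N X ≤ rk M X := by
    intro X hX
    have h1 := hN2 ∅ X (empty_subset _) hX
    rw [rk_empty, rk_empty] at h1
    omega
  have hqN : rk N A + rk N (R \ A) ≤ rk N R + (q + u) := by
    have h1 := n1 A hA
    have h2 := n1 (R \ A) sdiff_subset
    have h3 := hN3 R (Subset.refl _)
    omega
  set Z : Set α := R \ r '' Seg y with hZ
  have hrR : r '' Seg y ⊆ R := by
    rintro _ ⟨s, hs, rfl⟩
    exact ⟨s, hs, hr s hs⟩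
  have hRE : R ⊆ N.E := hN1.sub
  obtain ⟨ends', hB', hends'⟩ := TST.con_reps (M := N) h.side.sw (bicU_zero hN1) hr
  have hf : (N ／ Z).Finite := BQ.fin_contract Z
  have hsep := sep_union hqN (Z := Z) sdiff_subset
  have hZE : Z ⊆ N.E := sdiff_subset.trans hRE
  have hA' : A ∩ r '' Seg y ⊆ r '' Seg y := inter_subset_right
  have key : rk (N ／ Z) (A ∩ r '' Seg y) + rk (N ／ Z) (r '' Seg y \ (A ∩ r '' Seg y)) ≤
      rk (N ／ Z) (r '' Seg y) + (q + u) := by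
    have hsub : ∀ X ⊆ r '' Seg y, X ⊆ N.E \ Z := fun X hX x hx =>
      ⟨hRE (hrR (hX hx)), fun hz => hz.2 (hX hx)⟩
    have r1 := rk_contract_set (M := N) (C := Z) (X := A ∩ r '' Seg y) hZE (hsub _ hA')
    have r2 := rk_contract_set (M := N) (C := Z) (X := r '' Seg y \ (A ∩ r '' Seg y)) hZE
      (hsub _ sdiff_subset)
    have r3 := rk_contract_set (M := N) (C := Z) (X := r '' Seg y) hZE (hsub _ (Subset.refl _))
    have e1 : A ∩ r '' Seg y ∪ Z = A ∪ Z := by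
      ext x
      simp only [mem_union, mem_inter_iff, hZ, mem_sdiff]
      constructor
      · rintro (h3 | h3)
        · exact Or.inl h3.1
        · exact Or.inr h3
      · rintro (h3 | h3)
        · by_cases h4 : x ∈ r '' Seg y
          · exact Or.inl ⟨h3, h4⟩
          · exact Or.inr ⟨hA h3, h4⟩
        · exact Or.inr h3
    have e2 : r '' Seg y \ (A ∩ r '' Seg y) ∪ Z = (R \ A) ∪ Z := by
      ext x
      simp only [mem_union, mem_inter_iff, hZ, mem_sdiff]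
      constructor
      · rintro (h3 | h3)
        · exact Or.inl ⟨hrR h3.1, fun h4 => h3.2 ⟨h4, h3.1⟩⟩
        · exact Or.inr h3
      · rintro (h3 | h3)
        · by_cases h4 : x ∈ r '' Seg y
          · exact Or.inl ⟨h4, fun h5 => h3.2 h5.1⟩
          · exact Or.inr ⟨h3.1, h4⟩
        · exact Or.inr h3
    have e3 : r '' Seg y ∪ Z = R := by
      rw [hZ, union_sdiff_cancel hrR]
    rw [e1] at r1
    rw [e2] at r2
    rw [e3] at r3
    omega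
  have hinj : InjOn r (Seg y) := by
    intro s hs s' hs' hss
    refine h.uniq hs hs' (hr s hs) ?_
    rw [hss]
    exact hr s' hs'
  have hfin := wall_iso (N := N ／ Z) (p := fun v => (Sum.inl v : (ℕ × ℕ) ⊕ α)) (e := r)
    (ends := ends') (y := y) (q := q + u) (fun a b hab => Sum.inl_injective hab) hinj hends'
    hB'.bic hA' key
  have e1 : ∀ s ∈ Seg y, (r s ∈ A ∩ r '' Seg y ↔ r s ∈ A) := fun s hs =>
    ⟨fun h1 => h1.1, fun h1 => ⟨h1, ⟨s, hs, rfl⟩⟩⟩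
  have e2 : {s ∈ Seg y | r s ∈ A ∩ r '' Seg y} = {s ∈ Seg y | r s ∈ A} := by
    ext s
    exact and_congr_right fun hs => e1 s hs
  have e3 : {s ∈ Seg y | r s ∉ A ∩ r '' Seg y} = {s ∈ Seg y | r s ∉ A} := by
    ext s
    exact and_congr_right fun hs => not_congr (e1 s hs)
  rw [e2, e3] at hfin
  exact hfin

/-- **Isoperimetry of a side.**  A separation of low order of the subdivided wall: few rows meet
`A`, or few rows meet the complement. -/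
theorem GSide.iso [M.Finite] (h : GSide M (Seg y) L f e u) {A : Set α}
    (hA : A ⊆ crr L (Seg y)) {q : ℕ}
    (hq : rk M A + rk M (crr L (Seg y) \ A) ≤ rk M (crr L (Seg y)) + q) :
    {s ∈ Seg y | ∃ x ∈ L s, x ∈ A}.ncard ≤ 2 * cW (q + u) + 1 ∨
      {s ∈ Seg y | ∃ x ∈ L s, x ∉ A}.ncard ≤ cW (q + u) := by
  classical
  have hSf : (Seg y).Finite := seg_finite y
  set Mt : Set (Bool × ℕ × ℕ) := {s ∈ Seg y | ∃ x ∈ L s, x ∈ A} with hMt
  set Fu : Set (Bool × ℕ × ℕ) := {s ∈ Seg y | ∀ x ∈ L s, x ∈ A} with hFu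
  have hFM : Fu ⊆ Mt := fun s hs => ⟨hs.1, e s, h.mem_last hs.1, hs.2 _ (h.mem_last hs.1)⟩
  have hMf : Mt.Finite := hSf.subset fun s hs => hs.1
  have hne : ∀ s ∈ Seg y, L s ≠ [] := fun s hs => List.ne_nil_of_mem (h.mem_last hs)
  -- representatives for `T`
  have key : ∀ T, Fu ⊆ T → T ⊆ Mt → T.ncard ≤ cW (q + u) ∨ (Seg y \ T).ncard ≤ cW (q + u) := by
    intro T hFT hTM
    have hex : ∀ s : Bool × ℕ × ℕ, ∃ x : α, s ∈ Seg y → x ∈ L s ∧ (x ∈ A ↔ s ∈ T) := by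
      intro s
      by_cases hs : s ∈ Seg y
      · by_cases hsT : s ∈ T
        · obtain ⟨x, hx, hxA⟩ := (hTM hsT).2
          exact ⟨x, fun _ => ⟨hx, fun _ => hsT, fun _ => hxA⟩⟩
        · have h1 : ¬ ∀ x ∈ L s, x ∈ A := fun h2 => hsT (hFT ⟨hs, h2⟩)
          push Not at h1
          obtain ⟨x, hx, hxA⟩ := h1
          exact ⟨x, fun _ => ⟨hx, fun h2 => absurd h2 hxA, fun h2 => absurd h2 hsT⟩⟩
      · exact ⟨e s, fun h1 => absurd h1 hs⟩
    choose r hr using hex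
    have h1 := h.iso_reps hA hq (r := r) (fun s hs => (hr s hs).1)
    have e1 : {s ∈ Seg y | r s ∈ A} = T := by
      ext s
      exact ⟨fun h2 => ((hr s h2.1).2).1 h2.2, fun h2 => ⟨(hTM h2).1, ((hr s (hTM h2).1).2).2 h2⟩⟩
    have e2 : {s ∈ Seg y | r s ∉ A} = Seg y \ T := by
      ext s
      exact ⟨fun h2 => ⟨h2.1, fun h3 => h2.2 (((hr s h2.1).2).2 h3)⟩,
        fun h2 => ⟨h2.1, fun h3 => h2.2 (((hr s h2.1).2).1 h3)⟩⟩
    rw [e1, e2] at h1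
    exact h1
  have eF : {s ∈ Seg y | ∃ x ∈ L s, x ∉ A} = Seg y \ Fu := by
    ext s
    constructor
    · rintro ⟨h1, x, hx, hxA⟩
      exact ⟨h1, fun h2 => hxA (h2.2 x hx)⟩
    · rintro ⟨h1, h2⟩
      refine ⟨h1, ?_⟩
      by_contra hcon
      push Not at hcon
      exact h2 ⟨h1, hcon⟩
  rw [eF]
  by_contra hcon
  push Not at hcon
  obtain ⟨c1, c2⟩ := hcon
  have k1 : (Seg y \ Mt).ncard ≤ cW (q + u) := by
    rcases key Mt hFM (Subset.refl _) with h1 | h1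
    · omega
    · exact h1
  have k2 : Fu.ncard ≤ cW (q + u) := by
    rcases key Fu (Subset.refl _) hFM with h1 | h1
    · exact h1
    · omega
  obtain ⟨T, hT1, hT2, hT3⟩ := Set.exists_subsuperset_card_eq hFM
    (show Fu.ncard ≤ cW (q + u) + 1 by omega) (show cW (q + u) + 1 ≤ Mt.ncard by omega)
  rcases key T hT1 hT2 with h1 | h1
  · omega
  · have h2 : Mt ⊆ T ∪ (Seg y \ T) := by
      intro s hs
      by_cases h3 : s ∈ T
      · exact Or.inl h3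
      · exact Or.inr ⟨hs.1, h3⟩
    have h3 := Set.ncard_le_ncard h2 ((hMf.subset hT2).union (hSf.subset sdiff_subset))
    have h4 := Set.ncard_union_le T (Seg y \ T)
    omega

end

/-- **Row (A), alpha.**  Let `t > k₀`, let `M` carry a side of side `w` with anchors linked to
`R₂`, and let `Q ⊆ R₂` be a plain grid of the dual.  A region `A` of order `≤ k₀` without elements
of `Q` meets at most `c` rows. -/
theorem alpha (κ k₀ : ℕ) : ∃ c : ℕ, ∀ s₀ : ℕ, ∃ w₀ : ℕ, ∀ w ≥ w₀, ∀ t > k₀, ∀ {α : Type u}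
    (M : Matroid α) [M.Finite] (L : Bool × ℕ × ℕ → List α) (f : α → Sym2 ((ℕ × ℕ) ⊕ α))
    (e : Bool × ℕ × ℕ → α) (u : ℕ) (R₂ Q D : Set α) (s₂ : ℕ), u ≤ κ → s₀ ≤ s₂ →
    GSide M (Seg w) L f e u → Linked M t s₀ (e '' Seg w) R₂ → Q ⊆ R₂ → Q ⊆ M.E →
    D ⊆ M.E \ Q → PGrid (M✶ ／ D) Q s₂ → ∀ A ⊆ M.E, Disjoint A Q →
    rk M A + rk M (M.E \ A) ≤ rk M M.E + k₀ →
    {r ∈ Seg w | ∃ x ∈ L r, x ∈ A}.ncard ≤ c := by
  classical
  set m : ℕ := cW (k₀ + κ) with hm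
  refine ⟨2 * m + 1, fun s₀ => ?_⟩
  set y' : ℕ := (κ + 1) * (2 * s₀ + 2) with hy'
  set g : ℕ := 2 * (y' + 1) with hg
  refine ⟨g * (m + 1), ?_⟩
  intro w hw t ht α M _ L f e u R₂ Q D s₂ hu hs₂ hS hlink hQR hQE hD hP A hAE hAQ hsep
  have hS' := hS.mono hu
  set R : Set α := crr L (Seg w) with hR
  have hRE : R ⊆ M.E := hS.sub_ground
  have h1 := sep_restrict hAE hRE hsep
  have h2 := hS'.iso (A := A ∩ R) inter_subset_right h1
  have e1 : {s ∈ Seg w | ∃ x ∈ L s, x ∈ A ∩ R} = {s ∈ Seg w | ∃ x ∈ L s, x ∈ A} := by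
    ext s
    refine and_congr_right fun hs => ?_
    constructor
    · rintro ⟨x, hx, hxA⟩
      exact ⟨x, hx, hxA.1⟩
    · rintro ⟨x, hx, hxA⟩
      exact ⟨x, hx, hxA, ⟨s, hs, hx⟩⟩
  have e2 : {s ∈ Seg w | ∃ x ∈ L s, x ∉ A ∩ R} = {s ∈ Seg w | ∃ x ∈ L s, x ∉ A} := by
    ext s
    refine and_congr_right fun hs => ?_
    constructor
    · rintro ⟨x, hx, hxA⟩
      exact ⟨x, hx, fun h3 => hxA ⟨h3, ⟨s, hs, hx⟩⟩⟩
    · rintro ⟨x, hx, hxA⟩
      exact ⟨x, hx, fun h3 => hxA h3.1⟩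
  rw [e1, e2] at h2
  rcases h2 with h2 | h2
  · exact h2
  exfalso
  -- a block of rows inside `A`
  set Bd : Set (Bool × ℕ × ℕ) := {s ∈ Seg w | ∃ x ∈ L s, x ∉ A} with hBd
  have hBf : Bd.Finite := (seg_finite w).subset fun s hs => hs.1
  have hbS : ∀ a ≤ m, shS (g * a) 0 '' Seg y' ⊆ Seg w := by
    intro a ha
    have h3 : g * (a + 1) ≤ g * (m + 1) := Nat.mul_le_mul_left _ (by omega)
    have h4 : g * (a + 1) = g * a + g := by ring
    refine shS_sub ?_ (by omega) (by omega)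
    have h5 : g * a = 2 * ((y' + 1) * a) := by rw [hg]; ring
    omega
  obtain ⟨a, ha, hfree⟩ : ∃ a ≤ m, ∀ s ∈ shS (g * a) 0 '' Seg y', s ∉ Bd := by
    by_contra hcon
    push Not at hcon
    have hx : ∀ a : ℕ, ∃ s : Bool × ℕ × ℕ, a ≤ m → s ∈ shS (g * a) 0 '' Seg y' ∧ s ∈ Bd := by
      intro a
      by_cases ha : a ≤ m
      · obtain ⟨s, h3, h4⟩ := hcon a ha
        exact ⟨s, fun _ => ⟨h3, h4⟩⟩
      · exact ⟨(true, 0, 0), fun h => absurd h ha⟩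
    choose φ hφ using hx
    have hinj : InjOn φ (Set.Iic m) := by
      intro a ha b hb hab
      obtain ⟨⟨σ, hσ, h3⟩, -⟩ := hφ a ha
      obtain ⟨⟨τ, hτ, h4⟩, -⟩ := hφ b hb
      rw [← hab, ← h3] at h4
      have h5 := seg_ends hσ
      have h6 := seg_ends hτ
      simp only [segNear] at h5 h6
      have h7 : τ.2.1 + g * b = σ.2.1 + g * a := congrArg (fun s => s.2.1) h4
      by_contra hne
      rcases Nat.lt_or_gt_of_ne hne with h8 | h8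
      · have h9 : g * (a + 1) ≤ g * b := Nat.mul_le_mul_left _ h8
        have h10 : g * (a + 1) = g * a + g := by ring
        omega
      · have h9 : g * (b + 1) ≤ g * a := Nat.mul_le_mul_left _ h8
        have h10 : g * (b + 1) = g * b + g := by ring
        omega
    have h3 : φ '' Set.Iic m ⊆ Bd := by
      rintro _ ⟨a, ha, rfl⟩
      exact (hφ a ha).2
    have h4 := Set.ncard_le_ncard h3 hBf
    rw [hinj.ncard_image, Set.ncard_eq_toFinset_card', Set.toFinset_Iic, Nat.card_Iic] at h4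
    omega
  have hS2 := hS'.subset (hbS a ha)
  obtain ⟨f', hS3⟩ := hS2.shift (S' := Seg y') (Subset.refl _)
  obtain ⟨C, R', hC, hR', hd, hPG⟩ := hS3.pgrid (s := s₀) (le_refl _)
  have hR1 : R' ⊆ e '' Seg w := by
    intro x hx
    obtain ⟨σ, hσ, rfl⟩ := hR' hx
    exact ⟨_, hbS a ha ⟨σ, hσ, rfl⟩, rfl⟩
  have hR2 : R' ⊆ A := by
    intro x hx
    obtain ⟨σ, hσ, rfl⟩ := hR' hx
    have h3 : shS (g * a) 0 σ ∈ shS (g * a) 0 '' Seg y' := ⟨σ, hσ, rfl⟩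
    have h4 := hfree _ h3
    by_contra hxA
    exact h4 ⟨hbS a ha h3, _, hS.mem_last (hbS a ha h3), hxA⟩
  have hCE : C ⊆ M.E := hC.trans hS3.sub_ground
  have hR'E : R' ⊆ M.E := hR2.trans hAE
  have hK := hlink M Matroid.IsMinor.refl R' hR1 Q hQR C D s₀ (le_refl _) s₂ hs₂ hR'E hQE
    (fun x hx => ⟨hCE hx, fun hx2 => Set.disjoint_left.1 hd hx2 hx⟩) hD hPG hP
  have hfin := hK A hR2 (fun x hx => ⟨hAE hx, fun hxQ => Set.disjoint_left.1 hAQ hx hxQ⟩)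
  omega

/-- **Alpha in a world**: a region of order `≤ k₀ < t` without anchors of one tile meets few
rows. -/
theorem World.alpha (κ k₀ : ℕ) : ∃ c : ℕ, ∀ s₀ : ℕ, ∃ w₀ : ℕ, ∀ w ≥ w₀, ∀ t > k₀,
    ∀ s ≥ (κ + 1) * (2 * s₀ + 2), ∀ {α : Type u} (M : Matroid α) [M.Finite]
    (𝒯 : Finset (ℕ × ℕ)) (L₁ : Bool × ℕ × ℕ → List α) (f₁ : α → Sym2 ((ℕ × ℕ) ⊕ α))
    (e₁ : Bool × ℕ × ℕ → α) (u₁ : ℕ) (L₂ : Bool × ℕ × ℕ → List α)
    (f₂ : α → Sym2 ((ℕ × ℕ) ⊕ α)) (e₂ : Bool × ℕ × ℕ → α) (u₂ : ℕ),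
    World M w s 𝒯 L₁ f₁ e₁ u₁ L₂ f₂ e₂ u₂ → u₁ ≤ κ → u₂ ≤ κ →
    Linked M t s₀ (e₁ '' Seg w) (e₂ '' tiles s 𝒯) → ∀ b ∈ 𝒯, ∀ A ⊆ M.E,
    (∀ σ ∈ shS b.1 b.2 '' Seg s, e₂ σ ∉ A) → rk M A + rk M (M.E \ A) ≤ rk M M.E + k₀ →
    {r ∈ Seg w | ∃ x ∈ L₁ r, x ∈ A}.ncard ≤ c := by
  classical
  obtain ⟨c, hc⟩ := CWL.alpha.{u} κ k₀
  refine ⟨c, fun s₀ => ?_⟩
  obtain ⟨w₀, hw₀⟩ := hc s₀
  refine ⟨w₀, ?_⟩
  intro w hw t ht s hs α M _ 𝒯 L₁ f₁ e₁ u₁ L₂ f₂ e₂ u₂ hW hu₁ hu₂ hlink b hb A hA hAb hsep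
  have hf : M✶.Finite := inferInstance
  have hbt : shS b.1 b.2 '' Seg s ⊆ tiles s 𝒯 := fun σ hσ => ⟨b, hb, hσ⟩
  have h1 := (hW.pair.s₂.mono hu₂).subset hbt
  obtain ⟨f', h2⟩ := h1.shift (S' := Seg s) (Subset.refl _)
  obtain ⟨C, Q, hC, hQ, hd, hP⟩ := h2.pgrid (s := s₀) hs
  have hQ2 : Q ⊆ e₂ '' (shS b.1 b.2 '' Seg s) := by
    intro x hx
    obtain ⟨σ, hσ, rfl⟩ := hQ hx
    exact ⟨_, ⟨σ, hσ, rfl⟩, rfl⟩
  have hQE : Q ⊆ M.E := (hQ2.trans h1.e_sub).trans h1.sub_ground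
  refine hw₀ w hw t ht M L₁ f₁ e₁ u₁ (e₂ '' tiles s 𝒯) Q C s₀ hu₁ (le_refl _) hW.pair.s₁ hlink
    (hQ2.trans (image_mono hbt)) hQE
    (fun x hx => ⟨h2.sub_ground (hC hx), fun hx2 => Set.disjoint_left.1 hd hx2 hx⟩) hP A hA ?_ hsep
  rw [Set.disjoint_left]
  intro x hxA hxQ
  obtain ⟨σ, hσ, rfl⟩ := hQ2 hxQ
  exact hAb σ hσ hxA

end CWL
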