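import Pool.Agent.CW.Alpha

/-!
# Alpha by hot blocks: the rows may lose their anchors (host form)

`F` is a set of row elements which are contracted (`M_host = M ／ F`), every row keeps an element, no
element of the tile is contracted.  A region of low order of `M ／ F` without anchors of the tile
meets few rows.
-/

open Set BIC BICS
open scoped Matroid

namespace CWL

universe u

lemma sep_union2 {α : Type*} {M : Matroid α} [M.Finite] {R A F Z : Set α} {k : ℕ}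
    (h : rk M (A ∪ F) + rk M ((R \ A) ∪ F) ≤ rk M R + rk M F + k) (hFZ : F ⊆ Z) (hZ : Z ⊆ R) :
    rk M (A ∪ Z) + rk M ((R \ A) ∪ Z) ≤ rk M R + rk M Z + k := by
  have h1 := rk_submod (M := M) (A ∪ F) Z
  have h2 := rk_submod (M := M) ((R \ A) ∪ F) Z
  have h3 := rk_submod (M := M) ((A ∪ F) ∩ Z) (((R \ A) ∪ F) ∩ Z)
  have h4 : rk M Z ≤ rk M (((A ∪ F) ∩ Z) ∪ (((R \ A) ∪ F) ∩ Z)) := by
    refine rk_mono M fun x hx => ?_
    by_cases h5 : x ∈ A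
    · exact Or.inl ⟨Or.inl h5, hx⟩
    · exact Or.inr ⟨Or.inl ⟨hZ hx, h5⟩, hx⟩
  have h5 : rk M F ≤ rk M (((A ∪ F) ∩ Z) ∩ (((R \ A) ∪ F) ∩ Z)) :=
    rk_mono M fun x hx => ⟨⟨Or.inr hx, hFZ hx⟩, ⟨Or.inr hx, hFZ hx⟩⟩
  have e1 : A ∪ F ∪ Z = A ∪ Z := by rw [union_assoc, union_eq_self_of_subset_left hFZ]
  have e2 : R \ A ∪ F ∪ Z = R \ A ∪ Z := by rw [union_assoc, union_eq_self_of_subset_left hFZ]
  rw [e1] at h1
  rw [e2] at h2
  omega

section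

variable {α : Type*} {M : Matroid α} {L : Bool × ℕ × ℕ → List α}
  {f : α → Sym2 ((ℕ × ℕ) ⊕ α)} {e : Bool × ℕ × ℕ → α} {u y : ℕ}

/-- one choice of representatives outside of `F` -/
lemma GSide.iso_repsF [M.Finite] (h : GSide M (Seg y) L f e u) {F A : Set α}
    (hF : F ⊆ crr L (Seg y)) (hA : A ⊆ crr L (Seg y) \ F) {q : ℕ}
    (hq : rk (M ／ F) A + rk (M ／ F) ((crr L (Seg y) \ F) \ A) ≤
      rk (M ／ F) (crr L (Seg y) \ F) + q)
    {r : Bool × ℕ × ℕ → α} (hr : ∀ s ∈ Seg y, r s ∈ L s ∧ r s ∉ F) :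
    {s ∈ Seg y | r s ∈ A}.ncard ≤ cW (q + u) ∨ {s ∈ Seg y | r s ∉ A}.ncard ≤ cW (q + u) := by
  classical
  set R : Set α := crr L (Seg y) with hR
  obtain ⟨h0, N, hNf, hN1, hN2, hN3⟩ := h.lift
  have hAR : A ⊆ R := hA.trans sdiff_subset
  have hRE : R ⊆ N.E := hN1.sub
  have hRM : R ⊆ M.E := h0
  have hsF : ∀ X ⊆ R \ F, X ⊆ M.E \ F := fun X hX x hx => ⟨hRM (hX hx).1, (hX hx).2⟩
  -- the separation in `M`, in terms of ranks of `M`
  have eAF : (R \ F) \ A ∪ F = (R \ A) ∪ F := by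
    ext x
    simp only [mem_union, mem_sdiff]
    constructor
    · rintro (h3 | h3)
      · exact Or.inl ⟨h3.1.1, h3.2⟩
      · exact Or.inr h3
    · rintro (h3 | h3)
      · by_cases h4 : x ∈ F
        · exact Or.inr h4
        · exact Or.inl ⟨⟨h3.1, h4⟩, h3.2⟩
      · exact Or.inr h3
  have eRF : R \ F ∪ F = R := by rw [sdiff_union_self, union_eq_self_of_subset_right hF]
  have c1 := rk_contract_set (M := M) (C := F) (X := A) (hF.trans hRM) (hsF _ hA)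
  have c2 := rk_contract_set (M := M) (C := F) (X := (R \ F) \ A) (hF.trans hRM)
    (hsF _ sdiff_subset)
  have c3 := rk_contract_set (M := M) (C := F) (X := R \ F) (hF.trans hRM)
    (hsF _ (Subset.refl _))
  rw [eAF] at c2
  rw [eRF] at c3
  -- the quotient
  have q1 := hN2 F (A ∪ F) subset_union_right (union_subset hAR hF)
  have q2 := hN2 F ((R \ A) ∪ F) subset_union_right (union_subset sdiff_subset hF)
  have q3 := hN3 R (Subset.refl _)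
  have q4 : rk N F ≤ rk M F := by
    have h1 := hN2 ∅ F (empty_subset _) hF
    rw [rk_empty, rk_empty] at h1
    omega
  have hqN : rk N (A ∪ F) + rk N ((R \ A) ∪ F) ≤ rk N R + rk N F + (q + u) := by
    omega
  set Z : Set α := R \ r '' Seg y with hZ
  have hrR : r '' Seg y ⊆ R := by
    rintro _ ⟨s, hs, rfl⟩
    exact ⟨s, hs, (hr s hs).1⟩
  have hFZ : F ⊆ Z := by
    intro x hx
    refine ⟨hF hx, ?_⟩
    rintro ⟨s, hs, rfl⟩
    exact (hr s hs).2 hx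
  obtain ⟨ends', hB', hends'⟩ := TST.con_reps (M := N) h.side.sw (bicU_zero hN1)
    (fun s hs => (hr s hs).1)
  have hf : (N ／ Z).Finite := BQ.fin_contract Z
  have hsep := sep_union2 hqN hFZ (sdiff_subset : Z ⊆ R)
  have hZE : Z ⊆ N.E := sdiff_subset.trans hRE
  have hA' : A ∩ r '' Seg y ⊆ r '' Seg y := inter_subset_right
  have key : rk (N ／ Z) (A ∩ r '' Seg y) + rk (N ／ Z) (r '' Seg y \ (A ∩ r '' Seg y)) ≤
      rk (N ／ Z) (r '' Seg y) + (q + u) := by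
    have hsub : ∀ X ⊆ r '' Seg y, X ⊆ N.E \ Z := fun X hX x hx =>
      ⟨hRE (hrR (hX hx)), fun hz => hz.2 (hX hx)⟩
    have r1 := rk_contract_set (M := N) (C := Z) (X := A ∩ r '' Seg y) hZE (hsub _ hA')
    have r2 := rk_contract_set (M := N) (C := Z) (X := r '' Seg y \ (A ∩ r '' Seg y)) hZE
      (hsub _ sdiff_subset)
    have r3 := rk_contract_set (M := N) (C := Z) (X := r '' Seg y) hZE (hsub _ (Subset.refl _))
    have e1 : A ∩ r '' Seg y ∪ Z = A ∪ Z := by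
      ext x
      simp only [mem_union, mem_inter_iff, hZ, mem_sdiff]
      constructor
      · rintro (h3 | h3)
        · exact Or.inl h3.1
        · exact Or.inr h3
      · rintro (h3 | h3)
        · by_cases h4 : x ∈ r '' Seg y
          · exact Or.inl ⟨h3, h4⟩
          · exact Or.inr ⟨hAR h3, h4⟩
        · exact Or.inr h3
    have e2 : r '' Seg y \ (A ∩ r '' Seg y) ∪ Z = (R \ A) ∪ Z := by
      ext x
      simp only [mem_union, mem_inter_iff, hZ, mem_sdiff]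
      constructor
      · rintro (h3 | h3)
        · exact Or.inl ⟨hrR h3.1, fun h4 => h3.2 ⟨h4, h3.1⟩⟩
        · exact Or.inr h3
      · rintro (h3 | h3)
        · by_cases h4 : x ∈ r '' Seg y
          · exact Or.inl ⟨h4, fun h5 => h3.2 h5.1⟩
          · exact Or.inr ⟨h3.1, h4⟩
        · exact Or.inr h3
    have e3 : r '' Seg y ∪ Z = R := by
      rw [hZ, union_sdiff_cancel hrR]
    rw [e1] at r1
    rw [e2] at r2
    rw [e3] at r3
    omega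
  have hinj : InjOn r (Seg y) := by
    intro s hs s' hs' hss
    refine h.uniq hs hs' (hr s hs).1 ?_
    rw [hss]
    exact (hr s' hs').1
  have hfin := wall_iso (N := N ／ Z) (p := fun v => (Sum.inl v : (ℕ × ℕ) ⊕ α)) (e := r)
    (ends := ends') (y := y) (q := q + u) (fun a b hab => Sum.inl_injective hab) hinj hends'
    hB'.bic hA' key
  have e1 : ∀ s ∈ Seg y, (r s ∈ A ∩ r '' Seg y ↔ r s ∈ A) := fun s hs =>
    ⟨fun h1 => h1.1, fun h1 => ⟨h1, ⟨s, hs, rfl⟩⟩⟩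
  have e2 : {s ∈ Seg y | r s ∈ A ∩ r '' Seg y} = {s ∈ Seg y | r s ∈ A} := by
    ext s
    exact and_congr_right fun hs => e1 s hs
  have e3 : {s ∈ Seg y | r s ∉ A ∩ r '' Seg y} = {s ∈ Seg y | r s ∉ A} := by
    ext s
    exact and_congr_right fun hs => not_congr (e1 s hs)
  rw [e2, e3] at hfin
  exact hfin

/-- **Isoperimetry of a side after contraction of row elements** (every row keeps an element). -/
theorem GSide.isoF [M.Finite] (h : GSide M (Seg y) L f e u) {F A : Set α}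
    (hF : F ⊆ crr L (Seg y)) (hFr : ∀ s ∈ Seg y, ∃ x ∈ L s, x ∉ F)
    (hA : A ⊆ crr L (Seg y) \ F) {q : ℕ}
    (hq : rk (M ／ F) A + rk (M ／ F) ((crr L (Seg y) \ F) \ A) ≤
      rk (M ／ F) (crr L (Seg y) \ F) + q) :
    {s ∈ Seg y | ∃ x ∈ L s, x ∈ A}.ncard ≤ 2 * cW (q + u) + 1 ∨
      {s ∈ Seg y | ∃ x ∈ L s, x ∉ F ∧ x ∉ A}.ncard ≤ cW (q + u) := by
  classical
  have hSf : (Seg y).Finite := seg_finite y
  set Mt : Set (Bool × ℕ × ℕ) := {s ∈ Seg y | ∃ x ∈ L s, x ∈ A} with hMt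
  set Fu : Set (Bool × ℕ × ℕ) := {s ∈ Seg y | ∀ x ∈ L s, x ∉ F → x ∈ A} with hFu
  have hFM : Fu ⊆ Mt := by
    intro s hs
    obtain ⟨x, hx, hxF⟩ := hFr s hs.1
    exact ⟨hs.1, x, hx, hs.2 x hx hxF⟩
  have hMf : Mt.Finite := hSf.subset fun s hs => hs.1
  -- representatives for `T`
  have key : ∀ T, Fu ⊆ T → T ⊆ Mt → T.ncard ≤ cW (q + u) ∨ (Seg y \ T).ncard ≤ cW (q + u) := by
    intro T hFT hTM
    have hex : ∀ s : Bool × ℕ × ℕ, ∃ x : α, s ∈ Seg y → (x ∈ L s ∧ x ∉ F) ∧ (x ∈ A ↔ s ∈ T) := by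
      intro s
      by_cases hs : s ∈ Seg y
      · by_cases hsT : s ∈ T
        · obtain ⟨x, hx, hxA⟩ := (hTM hsT).2
          exact ⟨x, fun _ => ⟨⟨hx, (hA hxA).2⟩, fun _ => hsT, fun _ => hxA⟩⟩
        · have h1 : ¬ ∀ x ∈ L s, x ∉ F → x ∈ A := fun h2 => hsT (hFT ⟨hs, h2⟩)
          push Not at h1
          obtain ⟨x, hx, hxF, hxA⟩ := h1
          exact ⟨x, fun _ => ⟨⟨hx, hxF⟩, fun h2 => absurd h2 hxA, fun h2 => absurd h2 hsT⟩⟩
      · exact ⟨e s, fun h1 => absurd h1 hs⟩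
    choose r hr using hex
    have h1 := h.iso_repsF hF hA hq (r := r) (fun s hs => (hr s hs).1)
    have e1 : {s ∈ Seg y | r s ∈ A} = T := by
      ext s
      exact ⟨fun h2 => ((hr s h2.1).2).1 h2.2, fun h2 => ⟨(hTM h2).1, ((hr s (hTM h2).1).2).2 h2⟩⟩
    have e2 : {s ∈ Seg y | r s ∉ A} = Seg y \ T := by
      ext s
      exact ⟨fun h2 => ⟨h2.1, fun h3 => h2.2 (((hr s h2.1).2).2 h3)⟩,
        fun h2 => ⟨h2.1, fun h3 => h2.2 (((hr s h2.1).2).1 h3)⟩⟩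
    rw [e1, e2] at h1
    exact h1
  have eF : {s ∈ Seg y | ∃ x ∈ L s, x ∉ F ∧ x ∉ A} = Seg y \ Fu := by
    ext s
    constructor
    · rintro ⟨h1, x, hx, hxF, hxA⟩
      exact ⟨h1, fun h2 => hxA (h2.2 x hx hxF)⟩
    · rintro ⟨h1, h2⟩
      refine ⟨h1, ?_⟩
      by_contra hcon
      push Not at hcon
      exact h2 ⟨h1, hcon⟩
  rw [eF]
  by_contra hcon
  push Not at hcon
  obtain ⟨c1, c2⟩ := hcon
  have k1 : (Seg y \ Mt).ncard ≤ cW (q + u) := by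
    rcases key Mt hFM (Subset.refl _) with h1 | h1
    · omega
    · exact h1
  have k2 : Fu.ncard ≤ cW (q + u) := by
    rcases key Fu (Subset.refl _) hFM with h1 | h1
    · exact h1
    · omega
  obtain ⟨T, hT1, hT2, hT3⟩ := Set.exists_subsuperset_card_eq hFM
    (show Fu.ncard ≤ cW (q + u) + 1 by omega) (show cW (q + u) + 1 ≤ Mt.ncard by omega)
  rcases key T hT1 hT2 with h1 | h1
  · omega
  · have h2 : Mt ⊆ T ∪ (Seg y \ T) := by
      intro s hs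
      by_cases h3 : s ∈ T
      · exact Or.inl h3
      · exact Or.inr ⟨hs.1, h3⟩
    have h3 := Set.ncard_le_ncard h2 ((hMf.subset hT2).union (hSf.subset sdiff_subset))
    have h4 := Set.ncard_union_le T (Seg y \ T)
    omega

end

/-- a block of side `ρ` which avoids a small set of segments -/
lemma free_block {w ρ m : ℕ} (hw : 2 * (ρ + 1) * (m + 1) ≤ w) {Bd : Set (Bool × ℕ × ℕ)}
    (hBf : Bd.Finite) (hB : Bd.ncard ≤ m) :
    ∃ a : ℕ, shS a 0 '' Seg ρ ⊆ Seg w ∧ ∀ s ∈ shS a 0 '' Seg ρ, s ∉ Bd := by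
  classical
  set g : ℕ := 2 * (ρ + 1) with hg
  have hbS : ∀ a ≤ m, shS (g * a) 0 '' Seg ρ ⊆ Seg w := by
    intro a ha
    have h3 : g * (a + 1) ≤ g * (m + 1) := Nat.mul_le_mul_left _ (by omega)
    have h4 : g * (a + 1) = g * a + g := by ring
    refine shS_sub ?_ (by omega) (by omega)
    have h5 : g * a = 2 * ((ρ + 1) * a) := by rw [hg]; ring
    omega
  obtain ⟨a, ha, hfree⟩ : ∃ a ≤ m, ∀ s ∈ shS (g * a) 0 '' Seg ρ, s ∉ Bd := by
    by_contra hcon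
    push Not at hcon
    have hx : ∀ a : ℕ, ∃ s : Bool × ℕ × ℕ, a ≤ m → s ∈ shS (g * a) 0 '' Seg ρ ∧ s ∈ Bd := by
      intro a
      by_cases ha : a ≤ m
      · obtain ⟨s, h3, h4⟩ := hcon a ha
        exact ⟨s, fun _ => ⟨h3, h4⟩⟩
      · exact ⟨(true, 0, 0), fun h => absurd h ha⟩
    choose φ hφ using hx
    have hinj : InjOn φ (Set.Iic m) := by
      intro a ha b hb hab
      obtain ⟨⟨σ, hσ, h3⟩, -⟩ := hφ a ha
      obtain ⟨⟨τ, hτ, h4⟩, -⟩ := hφ b hb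
      rw [← hab, ← h3] at h4
      have h5 := seg_ends hσ
      have h6 := seg_ends hτ
      simp only [segNear] at h5 h6
      have h7 : τ.2.1 + g * b = σ.2.1 + g * a := congrArg (fun s => s.2.1) h4
      by_contra hne
      rcases Nat.lt_or_gt_of_ne hne with h8 | h8
      · have h9 : g * (a + 1) ≤ g * b := Nat.mul_le_mul_left _ h8
        have h10 : g * (a + 1) = g * a + g := by ring
        omega
      · have h9 : g * (b + 1) ≤ g * a := Nat.mul_le_mul_left _ h8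
        have h10 : g * (b + 1) = g * b + g := by ring
        omega
    have h3 : φ '' Set.Iic m ⊆ Bd := by
      rintro _ ⟨a, ha, rfl⟩
      exact (hφ a ha).2
    have h4 := Set.ncard_le_ncard h3 hBf
    rw [hinj.ncard_image, Set.ncard_eq_toFinset_card', Set.toFinset_Iic, Nat.card_Iic] at h4
    omega
  exact ⟨_, hbS a ha, hfree⟩

lemma seg_ncard_ge (s : ℕ) : s ≤ (Seg s).ncard := by
  classical
  have h1 : (fun x : ℕ => (true, x, 0)) '' Set.Iio s ⊆ Seg s := by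
    rintro _ ⟨x, hx, rfl⟩
    exact Or.inl ⟨rfl, hx, Nat.zero_le _⟩
  have h2 := Set.ncard_le_ncard h1 (seg_finite s)
  rw [Set.ncard_image_of_injective _ (fun a b hab => by simpa using hab)] at h2
  rwa [Set.ncard_eq_toFinset_card', Set.toFinset_Iio, Nat.card_Iio] at h2

/-- the order of a separation in the dual -/
lemma sep_dual {α : Type*} {M : Matroid α} [M.Finite] {X : Set α} (hX : X ⊆ M.E) {k : ℕ}
    (h : rk M X + rk M (M.E \ X) ≤ rk M M.E + k) :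
    rk M✶ X + rk M✶ (M.E \ X) ≤ rk M✶ M.E + k := by
  have h1 := rk_dual (M := M) hX
  have h2 := rk_dual (M := M) (X := M.E \ X) sdiff_subset
  have h3 := rk_dual (M := M) (X := M.E) (Subset.refl _)
  rw [sdiff_sdiff_cancel_left hX] at h2
  rw [sdiff_self] at h3
  have h4 := rk_empty M
  have h5 := Set.ncard_sdiff_add_ncard_of_subset hX M.ground_finite
  rw [h4] at h3
  omega

/-- **Alpha by hot blocks.** -/
theorem alphaHot (κ k₀ : ℕ) : ∃ c : ℕ, ∀ ρ : ℕ, ∃ w₀ s₁ : ℕ, ∀ w ≥ w₀, ∀ s ≥ s₁, ∀ {α : Type u}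
    (M : Matroid α) [M.Finite] (L₁ : Bool × ℕ × ℕ → List α) (f₁ : α → Sym2 ((ℕ × ℕ) ⊕ α))
    (e₁ : Bool × ℕ × ℕ → α) (u₁ : ℕ) (L₂ : Bool × ℕ × ℕ → List α)
    (f₂ : α → Sym2 ((ℕ × ℕ) ⊕ α)) (e₂ : Bool × ℕ × ℕ → α) (u₂ : ℕ) (F : Set α),
    u₁ ≤ κ → u₂ ≤ κ → GSide M (Seg w) L₁ f₁ e₁ u₁ → GSide M✶ (Seg s) L₂ f₂ e₂ u₂ →
    (∀ i j a b : ℕ, shS i j '' Seg ρ ⊆ Seg w → shS a b '' Seg ρ ⊆ Seg s →
      ∃ r ∈ shS i j '' Seg ρ, ∃ x ∈ L₁ r, x ∈ crr L₂ (shS a b '' Seg ρ)) →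
    F ⊆ crr L₁ (Seg w) → Disjoint (crr L₂ (Seg s)) F → (∀ r ∈ Seg w, ∃ x ∈ L₁ r, x ∉ F) →
    ∀ X ⊆ (M ／ F).E, Disjoint X (e₂ '' Seg s) →
    rk (M ／ F) X + rk (M ／ F) ((M ／ F).E \ X) ≤ rk (M ／ F) (M ／ F).E + k₀ →
    {r ∈ Seg w | ∃ x ∈ L₁ r, x ∈ X}.ncard ≤ c := by
  classical
  obtain ⟨m, hm⟩ : ∃ m, m = cW (k₀ + κ) := ⟨_, rfl⟩
  refine ⟨2 * m + 1, fun ρ => ?_⟩
  refine ⟨2 * (ρ + 1) * (m + 1), 2 * (ρ + 1) * (m + 1) + (2 * m + 2), ?_⟩
  intro w hw s hs α M _ L₁ f₁ e₁ u₁ L₂ f₂ e₂ u₂ F hu₁ hu₂ h₁ h₂ hhot hF hFd hFr X hX hXe hsep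
  have hfd : M✶.Finite := inferInstance
  have hfF : (M ／ F).Finite := BQ.fin_contract F
  have hfFd : (M ／ F)✶.Finite := inferInstance
  have g₁ := h₁.mono hu₁
  have hEF : (M ／ F).E = M.E \ F := Matroid.contract_ground _ _
  set R : Set α := crr L₁ (Seg w) with hR
  have hRE : R ⊆ M.E := h₁.sub_ground
  have hRFE : R \ F ⊆ (M ／ F).E := by
    rw [hEF]
    exact sdiff_subset_sdiff_left hRE
  -- rows
  have a1 := sep_restrict hX hRFE hsep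
  have a2 := g₁.isoF hF hFr (A := X ∩ (R \ F)) inter_subset_right a1
  have e1 : {r ∈ Seg w | ∃ x ∈ L₁ r, x ∈ X ∩ (R \ F)} = {r ∈ Seg w | ∃ x ∈ L₁ r, x ∈ X} := by
    ext r
    refine and_congr_right fun hr => ?_
    constructor
    · rintro ⟨x, hx, hxA⟩
      exact ⟨x, hx, hxA.1⟩
    · rintro ⟨x, hx, hxA⟩
      have := hX hxA
      rw [hEF] at this
      exact ⟨x, hx, hxA, ⟨r, hr, hx⟩, this.2⟩
  rw [e1, ← hm] at a2
  rcases a2 with a2 | a2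
  · exact a2
  exfalso
  obtain ⟨a, ha, hfree⟩ := free_block (w := w) (ρ := ρ) (m := m) hw
    ((seg_finite w).subset fun r hr => hr.1) a2
  -- columns
  have g₂ : GSide (M ／ F)✶ (Seg s) L₂ f₂ e₂ κ := by
    rw [Matroid.dual_contract]
    exact (h₂.mono hu₂).delete hFd
  set R₂ : Set α := crr L₂ (Seg s) with hR₂
  have hR₂E : R₂ ⊆ (M ／ F).E := by
    have := g₂.sub_ground
    rwa [Matroid.dual_ground] at this
  have b1 := sep_dual hX hsep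
  have b2 : rk (M ／ F)✶ ((M ／ F).E \ X) + rk (M ／ F)✶ ((M ／ F).E \ ((M ／ F).E \ X)) ≤
      rk (M ／ F)✶ (M ／ F).E + k₀ := by
    rw [sdiff_sdiff_cancel_left hX]
    omega
  have b3 := sep_restrict (M := (M ／ F)✶) (E := (M ／ F).E) (A := (M ／ F).E \ X) (T := R₂)
    sdiff_subset hR₂E b2
  have b4 := g₂.iso (A := ((M ／ F).E \ X) ∩ R₂) inter_subset_right b3
  rw [← hm] at b4
  have b5 : {σ ∈ Seg s | ∃ x ∈ L₂ σ, x ∉ ((M ／ F).E \ X) ∩ R₂}.ncard ≤ m := by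
    rcases b4 with b4 | b4
    · exfalso
      have h3 : Seg s ⊆ {σ ∈ Seg s | ∃ x ∈ L₂ σ, x ∈ ((M ／ F).E \ X) ∩ R₂} := by
        intro σ hσ
        have h4 : e₂ σ ∈ R₂ := ⟨σ, hσ, g₂.mem_last hσ⟩
        exact ⟨hσ, e₂ σ, g₂.mem_last hσ, ⟨hR₂E h4,
          fun h5 => Set.disjoint_left.1 hXe h5 ⟨σ, hσ, rfl⟩⟩, h4⟩
      have h4 := Set.ncard_le_ncard h3 ((seg_finite s).subset fun σ hσ => hσ.1)
      have h5 := seg_ncard_ge s
      omega
    · exact b4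
  obtain ⟨b, hb, hfree'⟩ := free_block (w := s) (ρ := ρ) (m := m) (by omega)
    ((seg_finite s).subset fun r hr => hr.1) b5
  -- a conflict of the two blocks
  obtain ⟨r, hr, x, hx, σ, hσ, hxσ⟩ := hhot a 0 b 0 ha hb
  have hxR₂ : x ∈ R₂ := ⟨σ, hb hσ, hxσ⟩
  have hxF : x ∉ F := fun h => Set.disjoint_left.1 hFd hxR₂ h
  have hxX : x ∈ X := by
    by_contra hcon
    exact hfree r hr ⟨ha hr, x, hx, hxF, fun h => hcon h.1⟩
  exact hfree' σ hσ ⟨hb hσ, x, hxσ, fun h => h.1.2 hxX⟩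

/-- **Alpha in the host**: a pair with linked anchors; row elements `F` are contracted (every row
keeps an element, the tile loses nothing). -/
theorem alphaHost (k : ℕ) (hk : 1 ≤ k) (κ k₀ : ℕ) : ∃ c t₀ : ℕ, ∀ s₀ : ℕ, ∃ w₀ s₁ : ℕ, ∀ w ≥ w₀,
    ∀ s ≥ s₁, ∀ t ≥ t₀, ∀ {α : Type u} (M : Matroid α) [M.Finite]
    (L₁ : Bool × ℕ × ℕ → List α) (f₁ : α → Sym2 ((ℕ × ℕ) ⊕ α)) (e₁ : Bool × ℕ × ℕ → α) (u₁ : ℕ)
    (S₂ : Set (Bool × ℕ × ℕ)) (L₂ : Bool × ℕ × ℕ → List α) (f₂ : α → Sym2 ((ℕ × ℕ) ⊕ α))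
    (e₂ : Bool × ℕ × ℕ → α) (u₂ : ℕ), Pair M (Seg w) L₁ f₁ e₁ u₁ S₂ L₂ f₂ e₂ u₂ → u₁ ≤ κ →
    u₂ ≤ κ → Linked M t s₀ (e₁ '' Seg w) (e₂ '' S₂) → HasUniformMinor M k ∨
    ∀ a b : ℕ, shS a b '' Seg s ⊆ S₂ → ∀ F : Set α, F ⊆ crr L₁ (Seg w) →
      Disjoint (crr L₂ (shS a b '' Seg s)) F → (∀ r ∈ Seg w, ∃ x ∈ L₁ r, x ∉ F) →
      ∀ X ⊆ (M ／ F).E, Disjoint X (e₂ '' (shS a b '' Seg s)) →
      rk (M ／ F) X + rk (M ／ F) ((M ／ F).E \ X) ≤ rk (M ／ F) (M ／ F).E + k₀ →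
      {r ∈ Seg w | ∃ x ∈ L₁ r, x ∈ X}.ncard ≤ c := by
  classical
  obtain ⟨c, hc⟩ := alphaHot.{u} κ k₀
  obtain ⟨t₀, ht₀⟩ := hotBlock.{u} k hk
  refine ⟨c, t₀, fun s₀ => ?_⟩
  obtain ⟨ρ, hρ⟩ := ht₀ κ s₀
  obtain ⟨w₀, s₁, h0⟩ := hc ρ
  refine ⟨w₀, s₁, ?_⟩
  intro w hw s hs t ht α M _ L₁ f₁ e₁ u₁ S₂ L₂ f₂ e₂ u₂ hp hu₁ hu₂ hl
  rcases hρ t ht M (Seg w) L₁ f₁ e₁ u₁ S₂ L₂ f₂ e₂ u₂ hp hu₁ hu₂ hl with hU | hhot
  · exact Or.inl hU
  right
  intro a b hab F hF hFd hFr X hX hXe hsep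
  have hf : M✶.Finite := inferInstance
  obtain ⟨f', hg⟩ := (hp.s₂.subset hab).shift (S' := Seg s) (Subset.refl _)
  have ecr : ∀ T : Set (Bool × ℕ × ℕ), crr (fun σ => L₂ (shS a b σ)) T =
      crr L₂ (shS a b '' T) := fun T => crr_shift
  have eim : (fun σ => e₂ (shS a b σ)) '' Seg s = e₂ '' (shS a b '' Seg s) := by
    rw [← image_comp]
    rfl
  refine h0 w hw s hs M L₁ f₁ e₁ u₁ (fun σ => L₂ (shS a b σ)) f' (fun σ => e₂ (shS a b σ)) u₂ F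
    hu₁ hu₂ hp.s₁ hg ?_ hF (by rw [ecr]; exact hFd) hFr X hX (by rw [eim]; exact hXe) hsep
  intro i j a' b' hi ha
  have e1 : shS a b '' (shS a' b' '' Seg ρ) = shS (a' + a) (b' + b) '' Seg ρ := by
    rw [← image_comp]
    refine image_congr fun σ _ => ?_
    simp only [Function.comp, shS, Nat.add_assoc]
  obtain ⟨r, hr, x, hx, hx2⟩ := hhot i j (a' + a) (b' + b) hi (by
    rw [← e1]
    exact (image_mono ha).trans hab)
  refine ⟨r, hr, x, hx, ?_⟩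
  rw [ecr, e1]
  exact hx2

end CWL
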