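import Pool.Agent.CW.RepsS
import Pool.Agent.CW.AlphaH

/-!
# Alpha by hot blocks with few missing rows
-/

open Set BIC BICS
open scoped Matroid

namespace CWL

universe u

section iso

variable {α V : Type*} {N : Matroid α} [N.Finite] {e : Bool × ℕ × ℕ → α} {ends : α → Sym2 V}
  {p : ℕ × ℕ → V} {y q τ : ℕ} {S : Set (Bool × ℕ × ℕ)}

/-- the only element of `A` at one of its ends, among the segments of `S` -/
def PndS (S : Set (Bool × ℕ × ℕ)) (e : Bool × ℕ × ℕ → α) (A : Set α) (σ : Bool × ℕ × ℕ) : Prop :=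
  σ ∈ S ∧ e σ ∈ A ∧ ∃ v, At v σ ∧ ∀ τ ∈ S, At v τ → e τ ∈ A → τ = σ

/-- a forest of the wall without one class: an injective choice of ends -/
lemma wall_forest (hy : 3 ≤ y) (t : Bool × ℕ × ℕ) : ∃ (E : Set (Bool × ℕ × ℕ))
    (φ : Bool × ℕ × ℕ → ℕ × ℕ), E ⊆ Seg y \ cls y t ∧ InjOn φ E ∧ (∀ σ ∈ E, At (φ σ) σ) ∧
    (wV y).card ≤ E.ncard + 1 := by
  classical
  set S₀ : Set (Bool × ℕ × ℕ) := Seg y \ cls y t with hS₀
  set en : Bool × ℕ × ℕ → Sym2 (ℕ × ℕ) := fun σ => s(segNear σ, segFar σ) with hen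
  have hcor : (0, 0) ∈ wV y := mem_wV.2 ⟨by simp, by simp⟩
  set R := fun a b => Gad.GAdj S₀ en a b ∧ a ∈ ((wV y : Finset (ℕ × ℕ)) : Set (ℕ × ℕ)) ∧
    b ∈ ((wV y : Finset (ℕ × ℕ)) : Set (ℕ × ℕ)) with hR
  have hRs : ∀ a b, R a b → R b a := fun a b h => ⟨h.1.symm, h.2.2, h.2.1⟩
  have hstep : ∀ a b, WR y (cls y t) a b → R a b := by
    rintro a b ⟨σ, h2, h3, h4⟩
    have h6 := seg_ends h2
    have m1 : segNear σ ∈ ((wV y : Finset (ℕ × ℕ)) : Set (ℕ × ℕ)) :=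
      Finset.mem_coe.2 (mem_wV.2 ⟨h6.1, h6.2.1⟩)
    have m2 : segFar σ ∈ ((wV y : Finset (ℕ × ℕ)) : Set (ℕ × ℕ)) :=
      Finset.mem_coe.2 (mem_wV.2 ⟨h6.2.2.1, h6.2.2.2⟩)
    have h7 : R (segNear σ) (segFar σ) := ⟨⟨σ, ⟨h2, h3⟩, rfl⟩, m1, m2⟩
    rcases h4 with ⟨rfl, rfl⟩ | ⟨rfl, rfl⟩
    · exact h7
    · exact hRs _ _ h7
  have hlk : ∀ a b, Lk y (cls y t) a b → Relation.ReflTransGen R a b := by
    intro a b h
    induction h with
    | refl => exact Relation.ReflTransGen.refl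
    | tail _ h2 ih => exact ih.tail (hstep _ _ h2)
  have hall : ∀ v ∈ wV y, Relation.ReflTransGen R (0, 0) v := by
    intro v hv
    have hw' := mem_wV.1 hv
    exact hlk _ _ (lk_corner hy t v.2 v.1 hw'.1 hw'.2)
  obtain ⟨E, -, -, hE⟩ := Gad.attach (S := S₀) (ends := en) (W := {(0, 0)})
    ((wV y).erase (0, 0)) (by
    intro v hv
    refine ⟨(0, 0), rfl, ?_⟩
    have h1 := hall v (Finset.mem_of_mem_erase hv)
    refine Relation.ReflTransGen.mono ?_ _ _ h1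
    intro x z hxz
    have h2 : ∀ x, x ∈ ((wV y : Finset (ℕ × ℕ)) : Set (ℕ × ℕ)) →
        x ∈ ({(0, 0)} : Set (ℕ × ℕ)) ∪ ((wV y).erase (0, 0) : Finset (ℕ × ℕ)) := by
      intro x hx
      by_cases hxb : x = (0, 0)
      · exact Or.inl hxb
      · exact Or.inr (Finset.mem_coe.2 (Finset.mem_erase.2 ⟨hxb, Finset.mem_coe.1 hx⟩))
    exact ⟨hxz.1, h2 x hxz.2.1, h2 z hxz.2.2⟩) (by
    rw [Set.disjoint_singleton_left, Finset.mem_coe]
    exact Finset.notMem_erase _ _)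
  have h1 := hE ∅ (Arb.single (0, 0))
  rw [empty_union] at h1
  obtain ⟨h2, h3, h4⟩ := h1
  obtain ⟨φ, hφ, hφe⟩ := h4 (0, 0) (Or.inl rfl)
  refine ⟨E, φ, fun x hx => (h2 hx).1, hφ.injOn, ?_, ?_⟩
  · intro σ hσ
    have := hφe σ hσ
    rw [hen] at this
    exact Sym2.mem_iff.1 this
  · have h6 : E.ncard = ((({(0, 0)} : Set (ℕ × ℕ)) ∪ ((wV y).erase (0, 0) : Finset (ℕ × ℕ))) \
        {(0, 0)}).ncard := by
      rw [← hφ.image_eq, hφ.injOn.ncard_image]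
    have h7 : (({(0, 0)} : Set (ℕ × ℕ)) ∪ ((wV y).erase (0, 0) : Finset (ℕ × ℕ))) \ {(0, 0)} =
        (((wV y).erase (0, 0) : Finset (ℕ × ℕ)) : Set (ℕ × ℕ)) := by
      ext x
      simp only [mem_sdiff, mem_union, mem_singleton_iff, Finset.mem_coe, Finset.mem_erase]
      tauto
    rw [h7, Set.ncard_coe_finset, Finset.card_erase_of_mem hcor] at h6
    omega

lemma pnd_cardS (hy : 3 ≤ y) (hS : S ⊆ Seg y) (hτ : (Seg y \ S).ncard ≤ τ)
    (hp : Function.Injective p) (he : InjOn e S)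
    (hends : ∀ σ ∈ S, ends (e σ) = s(p (segNear σ), p (segFar σ)))
    (hB : Bic N (e '' S) ends) {A : Set α} (hA : A ⊆ e '' S)
    (hq : rk N A + rk N (e '' S \ A) ≤ rk N (e '' S) + q) :
    {σ | PndS S e A σ}.ncard ≤ 12 * (q + τ + 1) + 3 := by
  classical
  have hSf : (Seg y).Finite := seg_finite y
  have hup : rk N (e '' S) ≤ (wV y).card := by
    have h1 : e '' S ⊆ ins (e '' S) ends (p '' (wV y : Set (ℕ × ℕ))) := by
      rintro _ ⟨σ, hσ, rfl⟩
      refine ⟨⟨σ, hσ, rfl⟩, fun v hv => ?_⟩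
      rw [hends σ hσ, Sym2.mem_iff] at hv
      have h2 := seg_ends (hS hσ)
      rcases hv with rfl | rfl
      · exact ⟨_, Finset.mem_coe.2 (mem_wV.2 ⟨h2.1, h2.2.1⟩), rfl⟩
      · exact ⟨_, Finset.mem_coe.2 (mem_wV.2 ⟨h2.2.2.1, h2.2.2.2⟩), rfl⟩
    have h2 : N.eRk (e '' S) ≤ (p '' (wV y : Set (ℕ × ℕ))).encard :=
      (N.eRk_mono h1).trans (hB.rk _)
    have h3 : (p '' (wV y : Set (ℕ × ℕ))).encard ≤ (((wV y).card : ℕ) : ℕ∞) := by
      refine (Set.encard_image_le _ _).trans ?_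
      rw [Set.encard_coe_eq_coe_finsetCard]
    have h4 := h2.trans h3
    rw [← cast_rk] at h4
    exact_mod_cast h4
  have hlow : ∀ t, (wV y).card ≤ rk N (e '' S \ e '' (cls y t ∩ S)) + 1 + τ := by
    intro t
    obtain ⟨E, φ, h1, h2, h3, h4⟩ := wall_forest hy t
    set G : Set (Bool × ℕ × ℕ) := E ∩ S with hG
    have hEf : E.Finite := hSf.subset fun x hx => (h1 hx).1
    have h5 : E.ncard ≤ G.ncard + τ := by
      have h6 : E ⊆ G ∪ (Seg y \ S) := by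
        intro x hx
        by_cases hxS : x ∈ S
        · exact Or.inl ⟨hx, hxS⟩
        · exact Or.inr ⟨(h1 hx).1, hxS⟩
      have h7 := Set.ncard_le_ncard h6 ((hEf.subset inter_subset_left).union
        (hSf.subset sdiff_subset))
      have h8 := Set.ncard_union_le G (Seg y \ S)
      omega
    have hinj : InjOn e G := he.mono inter_subset_right
    have h6 : N.Indep (e '' G) := by
      refine hB.ind (e '' G) (fun x => p (φ (Function.invFunOn e G x))) ?_ ?_ ?_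
      · exact image_mono inter_subset_right
      · rintro _ ⟨a, ha, rfl⟩ _ ⟨b, hb, rfl⟩ hab
        simp only [hinj.leftInvOn_invFunOn ha, hinj.leftInvOn_invFunOn hb] at hab
        rw [h2 ha.1 hb.1 (hp hab)]
      · rintro _ ⟨a, ha, rfl⟩
        simp only [hinj.leftInvOn_invFunOn ha]
        rw [hends a ha.2, Sym2.mem_iff]
        rcases h3 a ha.1 with h | h
        · exact Or.inl (by rw [h])
        · exact Or.inr (by rw [h])
    have h7 : e '' G ⊆ e '' S \ e '' (cls y t ∩ S) := by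
      rintro _ ⟨a, ha, rfl⟩
      refine ⟨⟨a, ha.2, rfl⟩, ?_⟩
      rintro ⟨b, hb, hab⟩
      rw [he hb.2 ha.2 hab] at hb
      exact (h1 ha.1).2 hb.1
    have h8 := rk_mono N h7
    rw [rk_indep h6, hinj.ncard_image] at h8
    omega
  -- one class
  have hcls : ∀ t, {σ | PndS S e A σ ∧ σ ∈ cls y t}.ncard ≤ q + τ + 1 := by
    intro t
    set P : Set α := e '' {σ | PndS S e A σ ∧ σ ∈ cls y t} with hP
    have hPA : P ⊆ A := by
      rintro _ ⟨σ, hσ, rfl⟩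
      exact hσ.1.2.1
    have hAE : A ⊆ N.E := hA.trans hB.sub
    have h1 := rk_coloops hAE hPA (by
      rintro _ ⟨σ, ⟨⟨g1, g2, v, g3, g4⟩, g5⟩, rfl⟩ hcl
      have hv : p v ∈ ends (e σ) := by
        rw [hends σ g1, Sym2.mem_iff]
        rcases g3 with rfl | rfl
        · exact Or.inl rfl
        · exact Or.inr rfl
      refine Gad.not_mem_Hx' hB ⟨σ, g1, rfl⟩ hv ?_
      unfold Gad.Hx
      refine N.closure_subset_closure ?_ hcl
      rintro x ⟨hx, hxσ⟩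
      obtain ⟨τ', hτ', rfl⟩ := hA hx
      refine ⟨⟨τ', hτ', rfl⟩, fun w hw hwv => ?_⟩
      rw [mem_singleton_iff] at hwv
      subst hwv
      rw [hends τ' hτ', Sym2.mem_iff] at hw
      have hvτ : At v τ' := by
        rcases hw with h | h
        · exact Or.inl (hp h)
        · exact Or.inr (hp h)
      exact hxσ (by rw [g4 τ' hτ' hvτ hx]; rfl))
    have hPn : P.ncard = {σ | PndS S e A σ ∧ σ ∈ cls y t}.ncard :=
      (he.mono (fun σ hσ => hσ.1.1)).ncard_image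
    have h2 : rk N (e '' S \ e '' (cls y t ∩ S)) ≤ rk N (A \ P) + rk N (e '' S \ A) := by
      have h3 := rk_submod (M := N) (A \ P) (e '' S \ A)
      have h4 : rk N (e '' S \ e '' (cls y t ∩ S)) ≤ rk N ((A \ P) ∪ (e '' S \ A)) := by
        refine rk_mono N ?_
        rintro x ⟨hx, hxc⟩
        by_cases hxA : x ∈ A
        · refine Or.inl ⟨hxA, ?_⟩
          rintro ⟨σ, hσ, rfl⟩
          exact hxc ⟨σ, ⟨hσ.2, hσ.1.1⟩, rfl⟩
        · exact Or.inr ⟨hx, hxA⟩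
      omega
    have h3 := hlow t
    omega
  -- all classes
  set Ex : Finset (Bool × ℕ × ℕ) := {(true, y - 1, 0), (true, 0, y), (true, y - 1, y)} with hEx
  set I : Finset (Bool × ℕ × ℕ) := Finset.univ ×ˢ (Finset.range 3 ×ˢ Finset.range 2) with hI
  have hIc : I.card = 12 := by
    rw [hI, Finset.card_product, Finset.card_product, Finset.card_range, Finset.card_range,
      Finset.card_univ, Fintype.card_bool]
  have hsub : {σ | PndS S e A σ} ⊆ (Ex : Set (Bool × ℕ × ℕ)) ∪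
      ⋃ t ∈ I, {σ | PndS S e A σ ∧ σ ∈ cls y t} := by
    intro σ hσ
    by_cases hE : σ ∈ Ex
    · exact Or.inl hE
    · right
      rw [mem_iUnion₂]
      refine ⟨(σ.1, σ.2.1 % 3, σ.2.2 % 2), ?_, hσ, hS hσ.1, rfl, rfl, rfl, ?_⟩
      · rw [hI, Finset.mem_product, Finset.mem_product, Finset.mem_range, Finset.mem_range]
        exact ⟨Finset.mem_univ _, Nat.mod_lt _ (by norm_num), Nat.mod_lt _ (by norm_num)⟩
      · simp only [hEx, Finset.mem_insert, Finset.mem_singleton, not_or] at hE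
        exact hE
  have hfin : (⋃ t ∈ I, {σ | PndS S e A σ ∧ σ ∈ cls y t}).Finite :=
    hSf.subset (by
      intro σ hσ
      obtain ⟨t, _, h⟩ := mem_iUnion₂.1 hσ
      exact hS h.1.1)
  have hUn : (⋃ t ∈ I, {σ | PndS S e A σ ∧ σ ∈ cls y t}).ncard ≤ 12 * (q + τ + 1) := by
    rw [← hIc]
    refine (Finset.set_ncard_biUnion_le _ _).trans ?_
    calc _ ≤ ∑ _i ∈ I, (q + τ + 1) := Finset.sum_le_sum fun t _ => hcls t
      _ = I.card * (q + τ + 1) := by rw [Finset.sum_const, smul_eq_mul]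
  have h1 := Set.ncard_le_ncard hsub ((Finset.finite_toSet Ex).union hfin)
  have h2 := Set.ncard_union_le (Ex : Set (Bool × ℕ × ℕ))
    (⋃ t ∈ I, {σ | PndS S e A σ ∧ σ ∈ cls y t})
  have h3 : (Ex : Set (Bool × ℕ × ℕ)).ncard ≤ 3 := by
    rw [Set.ncard_coe_finset]
    exact Finset.card_le_three
  omega

/-- **Isoperimetry of the brick wall with few missing segments.** -/
theorem wall_isoZ (hS : S ⊆ Seg y) (hτ : (Seg y \ S).ncard ≤ τ)
    (hp : Function.Injective p) (he : InjOn e S)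
    (hends : ∀ σ ∈ S, ends (e σ) = s(p (segNear σ), p (segFar σ)))
    (hB : Bic N (e '' S) ends) {A : Set α} (hA : A ⊆ e '' S)
    (hq : rk N A + rk N (e '' S \ A) ≤ rk N (e '' S) + q) :
    {σ ∈ S | e σ ∈ A}.ncard ≤ cW (q + 2 * τ) ∨ {σ ∈ S | e σ ∉ A}.ncard ≤ cW (q + 2 * τ) := by
  classical
  have hSf : (Seg y).Finite := seg_finite y
  have hSf' : S.Finite := hSf.subset hS
  by_cases hy : 3 ≤ y
  swap
  · left
    have h1 := seg_ncard y
    have h2 : {σ ∈ S | e σ ∈ A}.ncard ≤ (Seg y).ncard :=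
      ncard_le_ncard (fun σ hσ => hS hσ.1) hSf
    have h3 : (y + 1) ^ 2 ≤ 3 ^ 2 := Nat.pow_le_pow_left (by omega) 2
    have h4 : 13 ^ 2 ≤ (48 * (q + 2 * τ + 1) + 13) ^ 2 := Nat.pow_le_pow_left (by omega) 2
    unfold cW
    omega
  set A' : Set α := e '' S \ A with hA'
  have hAA : e '' S \ A' = A := by rw [hA', sdiff_sdiff_cancel_left hA]
  have c1 := pnd_cardS hy hS hτ hp he hends hB hA hq
  have c2 := pnd_cardS (q := q) hy hS hτ hp he hends hB (A := A') sdiff_subset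
    (by rw [hAA]; omega)
  have f1 : {σ | PndS S e A σ}.Finite := hSf'.subset fun σ hσ => hσ.1
  have f2 : {σ | PndS S e A' σ}.Finite := hSf'.subset fun σ hσ => hσ.1
  have f3 : (Seg y \ S).Finite := hSf.subset sdiff_subset
  set D : Finset (ℕ × ℕ) := (f1.toFinset.biUnion (fun σ => {segNear σ, segFar σ}) ∪
    f2.toFinset.biUnion (fun σ => {segNear σ, segFar σ})) ∪
    f3.toFinset.biUnion (fun σ => {segNear σ, segFar σ}) with hD
  have hDc : D.card ≤ 48 * (q + 2 * τ + 1) + 12 := by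
    have h1 : ∀ (F : Finset (Bool × ℕ × ℕ)) (n : ℕ), F.card ≤ n →
        (F.biUnion (fun σ => ({segNear σ, segFar σ} : Finset (ℕ × ℕ)))).card ≤ 2 * n := by
      intro F n hF
      refine (Finset.card_biUnion_le_card_mul _ _ 2 fun p _ => Finset.card_le_two).trans ?_
      omega
    have h2 := h1 f1.toFinset (12 * (q + τ + 1) + 3) (by rw [← Set.ncard_eq_toFinset_card _ f1]; exact c1)
    have h3 := h1 f2.toFinset (12 * (q + τ + 1) + 3) (by rw [← Set.ncard_eq_toFinset_card _ f2]; exact c2)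
    have h3' := h1 f3.toFinset τ (by rw [← Set.ncard_eq_toFinset_card _ f3]; exact hτ)
    have h4 := Finset.card_union_le (f1.toFinset.biUnion (fun σ => ({segNear σ, segFar σ} :
      Finset (ℕ × ℕ)))) (f2.toFinset.biUnion (fun σ => {segNear σ, segFar σ}))
    have h5 := Finset.card_union_le (f1.toFinset.biUnion (fun σ => ({segNear σ, segFar σ} :
      Finset (ℕ × ℕ))) ∪ f2.toFinset.biUnion (fun σ => {segNear σ, segFar σ}))
      (f3.toFinset.biUnion (fun σ => {segNear σ, segFar σ}))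
    rw [hD]
    omega
  have hfin := wall_colour (y := y) (fun σ => σ ∈ S ∧ e σ ∈ A) D hDc ?_
  · unfold cW
    rcases hfin with h1 | h1
    · left
      refine le_trans (le_of_eq ?_) h1
      congr 1
      ext σ
      exact ⟨fun h => ⟨hS h.1, h⟩, fun h => h.2⟩
    · right
      refine le_trans (Set.ncard_le_ncard ?_ (hSf.subset fun σ hσ => hσ.1)) h1
      intro σ hσ
      exact ⟨hS hσ.1, fun h => hσ.2 h.2⟩
  intro v hv hm
  by_cases hvZ : ∃ σ ∈ Seg y \ S, At v σ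
  · obtain ⟨σ, hσ, hvσ⟩ := hvZ
    rw [hD, Finset.mem_union]
    right
    rw [Finset.mem_biUnion]
    refine ⟨σ, f3.mem_toFinset.2 hσ, ?_⟩
    rw [Finset.mem_insert, Finset.mem_singleton]
    exact hvσ
  push Not at hvZ
  have hvS : ∀ σ ∈ Seg y, At v σ → σ ∈ S := by
    intro σ hσ h1
    by_contra h2
    exact hvZ σ ⟨hσ, h2⟩ h1
  -- at most three segments at `v`
  set Tv : Finset (Bool × ℕ × ℕ) := {(true, v.1, v.2), (true, v.1 - 1, v.2),
    (false, v.1, if (v.1 + v.2) % 2 = 0 then v.2 else v.2 - 1)} with hTv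
  have hTc : Tv.card ≤ 3 := Finset.card_le_three
  have hT : ∀ σ ∈ Seg y, At v σ → σ ∈ Tv := by
    rintro ⟨b, x, z⟩ hσ hvσ
    obtain ⟨v1, v2⟩ := v
    simp only [hTv, Finset.mem_insert, Finset.mem_singleton, Prod.mk.injEq]
    rcases hσ with ⟨g1, g2, g3⟩ | ⟨g1, g2, g3, g4⟩
    · simp only at g1 g2 g3
      subst g1
      simp only [At, segNear, segFar, if_true, Prod.mk.injEq] at hvσ
      simp only [true_and, reduceCtorEq, false_and, or_false]
      omega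
    · simp only at g1 g2 g3 g4
      subst g1
      simp only [At, segNear, segFar, Bool.false_eq_true, if_false, Prod.mk.injEq] at hvσ
      simp only [reduceCtorEq, false_and, false_or, true_and]
      split_ifs with h
      · omega
      · omega
  obtain ⟨⟨σ, hσ, hvσ, hσA⟩, ⟨τ', hτ', hvτ, hτA⟩⟩ := hm
  have hτS := hvS τ' hτ' hvτ
  have hτA1 : e τ' ∉ A := fun h => hτA ⟨hτS, h⟩
  have hτA' : e τ' ∈ A' := ⟨⟨τ', hτS, rfl⟩, hτA1⟩
  rw [hD, Finset.mem_union]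
  left
  rw [Finset.mem_union, Finset.mem_biUnion, Finset.mem_biUnion]
  by_cases h1 : ∀ σ' ∈ S, At v σ' → e σ' ∈ A → σ' = σ
  · left
    refine ⟨σ, f1.mem_toFinset.2 ⟨hσA.1, hσA.2, v, hvσ, h1⟩, ?_⟩
    rw [Finset.mem_insert, Finset.mem_singleton]
    exact hvσ
  · by_cases h2 : ∀ τ₁ ∈ S, At v τ₁ → e τ₁ ∈ A' → τ₁ = τ'
    · right
      refine ⟨τ', f2.mem_toFinset.2 ⟨hτS, hτA', v, hvτ, h2⟩, ?_⟩
      rw [Finset.mem_insert, Finset.mem_singleton]
      exact hvτ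
    · exfalso
      push Not at h1 h2
      obtain ⟨σ', hσ', hvσ', hσA', hne⟩ := h1
      obtain ⟨τ₁, hτ₁, hvτ₁, hτA'', hne'⟩ := h2
      have h3 : ({σ, σ', τ', τ₁} : Finset (Bool × ℕ × ℕ)) ⊆ Tv := by
        intro x hx
        simp only [Finset.mem_insert, Finset.mem_singleton] at hx
        rcases hx with rfl | rfl | rfl | rfl
        · exact hT _ hσ hvσ
        · exact hT _ (hS hσ') hvσ'
        · exact hT _ hτ' hvτ
        · exact hT _ (hS hτ₁) hvτ₁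
      have h4 := Finset.card_le_card h3
      have n1 : σ ≠ τ' := fun h => hτA1 (h ▸ hσA.2)
      have n2 : σ ≠ τ₁ := fun h => hτA''.2 (h ▸ hσA.2)
      have n3 : σ' ≠ τ' := fun h => hτA1 (h ▸ hσA')
      have n4 : σ' ≠ τ₁ := fun h => hτA''.2 (h ▸ hσA')
      have h5 : ({σ, σ', τ', τ₁} : Finset (Bool × ℕ × ℕ)).card = 4 := by
        rw [Finset.card_insert_of_notMem, Finset.card_insert_of_notMem,
          Finset.card_insert_of_notMem, Finset.card_singleton]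
        · rw [Finset.mem_singleton]; exact fun h => hne' h.symm
        · rw [Finset.mem_insert, Finset.mem_singleton]; exact fun h => h.elim n3 n4
        · rw [Finset.mem_insert, Finset.mem_insert, Finset.mem_singleton]
          rintro (h | h | h)
          · exact hne h.symm
          · exact n1 h
          · exact n2 h
      omega

end iso

section

variable {α : Type*} {M : Matroid α} {L : Bool × ℕ × ℕ → List α}
  {f : α → Sym2 ((ℕ × ℕ) ⊕ α)} {e : Bool × ℕ × ℕ → α} {u y τ : ℕ} {S : Set (Bool × ℕ × ℕ)}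

lemma GSide.subW (h : GSide M S L f e u) : SubW (crr L S) f L S where
  ne _ hs := List.ne_nil_of_mem (h.mem_last hs)
  nodup := h.nodup
  disj := h.disj
  mem _ := Iff.rfl
  end_eq := h.end_eq

/-- one choice of representatives outside of `F` -/
lemma GSide.iso_repsZ [M.Finite] (hSy : S ⊆ Seg y) (hτ : (Seg y \ S).ncard ≤ τ)
    (h : GSide M S L f e u) {F A : Set α}
    (hF : F ⊆ crr L S) (hA : A ⊆ crr L S \ F) {q : ℕ}
    (hq : rk (M ／ F) A + rk (M ／ F) ((crr L S \ F) \ A) ≤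
      rk (M ／ F) (crr L S \ F) + q)
    {r : Bool × ℕ × ℕ → α} (hr : ∀ s ∈ S, r s ∈ L s ∧ r s ∉ F) :
    {s ∈ S | r s ∈ A}.ncard ≤ cW (q + u + 2 * τ) ∨ {s ∈ S | r s ∉ A}.ncard ≤ cW (q + u + 2 * τ) := by
  classical
  have hSf : S.Finite := (seg_finite y).subset hSy
  set R : Set α := crr L S with hR
  obtain ⟨h0, N, hNf, hN1, hN2, hN3⟩ := h.lift
  have hAR : A ⊆ R := hA.trans sdiff_subset
  have hRE : R ⊆ N.E := hN1.sub
  have hRM : R ⊆ M.E := h0
  have hsF : ∀ X ⊆ R \ F, X ⊆ M.E \ F := fun X hX x hx => ⟨hRM (hX hx).1, (hX hx).2⟩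
  -- the separation in `M`, in terms of ranks of `M`
  have eAF : (R \ F) \ A ∪ F = (R \ A) ∪ F := by
    ext x
    simp only [mem_union, mem_sdiff]
    constructor
    · rintro (h3 | h3)
      · exact Or.inl ⟨h3.1.1, h3.2⟩
      · exact Or.inr h3
    · rintro (h3 | h3)
      · by_cases h4 : x ∈ F
        · exact Or.inr h4
        · exact Or.inl ⟨⟨h3.1, h4⟩, h3.2⟩
      · exact Or.inr h3
  have eRF : R \ F ∪ F = R := by rw [sdiff_union_self, union_eq_self_of_subset_right hF]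
  have c1 := rk_contract_set (M := M) (C := F) (X := A) (hF.trans hRM) (hsF _ hA)
  have c2 := rk_contract_set (M := M) (C := F) (X := (R \ F) \ A) (hF.trans hRM)
    (hsF _ sdiff_subset)
  have c3 := rk_contract_set (M := M) (C := F) (X := R \ F) (hF.trans hRM)
    (hsF _ (Subset.refl _))
  rw [eAF] at c2
  rw [eRF] at c3
  -- the quotient
  have q1 := hN2 F (A ∪ F) subset_union_right (union_subset hAR hF)
  have q2 := hN2 F ((R \ A) ∪ F) subset_union_right (union_subset sdiff_subset hF)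
  have q3 := hN3 R (Subset.refl _)
  have q4 : rk N F ≤ rk M F := by
    have h1 := hN2 ∅ F (empty_subset _) hF
    rw [rk_empty, rk_empty] at h1
    omega
  have hqN : rk N (A ∪ F) + rk N ((R \ A) ∪ F) ≤ rk N R + rk N F + (q + u) := by
    omega
  set Z : Set α := R \ r '' S with hZ
  have hrR : r '' S ⊆ R := by
    rintro _ ⟨s, hs, rfl⟩
    exact ⟨s, hs, (hr s hs).1⟩
  have hFZ : F ⊆ Z := by
    intro x hx
    refine ⟨hF hx, ?_⟩
    rintro ⟨s, hs, rfl⟩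
    exact (hr s hs).2 hx
  obtain ⟨ends', hB', hends'⟩ := con_repsS (M := N) hSf h.subW (bicU_zero hN1)
    (fun s hs => (hr s hs).1)
  have hf : (N ／ Z).Finite := BQ.fin_contract Z
  have hsep := sep_union2 hqN hFZ (sdiff_subset : Z ⊆ R)
  have hZE : Z ⊆ N.E := sdiff_subset.trans hRE
  have hA' : A ∩ r '' S ⊆ r '' S := inter_subset_right
  have key : rk (N ／ Z) (A ∩ r '' S) + rk (N ／ Z) (r '' S \ (A ∩ r '' S)) ≤
      rk (N ／ Z) (r '' S) + (q + u) := by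
    have hsub : ∀ X ⊆ r '' S, X ⊆ N.E \ Z := fun X hX x hx =>
      ⟨hRE (hrR (hX hx)), fun hz => hz.2 (hX hx)⟩
    have r1 := rk_contract_set (M := N) (C := Z) (X := A ∩ r '' S) hZE (hsub _ hA')
    have r2 := rk_contract_set (M := N) (C := Z) (X := r '' S \ (A ∩ r '' S)) hZE
      (hsub _ sdiff_subset)
    have r3 := rk_contract_set (M := N) (C := Z) (X := r '' S) hZE (hsub _ (Subset.refl _))
    have e1 : A ∩ r '' S ∪ Z = A ∪ Z := by
      ext x
      simp only [mem_union, mem_inter_iff, hZ, mem_sdiff]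
      constructor
      · rintro (h3 | h3)
        · exact Or.inl h3.1
        · exact Or.inr h3
      · rintro (h3 | h3)
        · by_cases h4 : x ∈ r '' S
          · exact Or.inl ⟨h3, h4⟩
          · exact Or.inr ⟨hAR h3, h4⟩
        · exact Or.inr h3
    have e2 : r '' S \ (A ∩ r '' S) ∪ Z = (R \ A) ∪ Z := by
      ext x
      simp only [mem_union, mem_inter_iff, hZ, mem_sdiff]
      constructor
      · rintro (h3 | h3)
        · exact Or.inl ⟨hrR h3.1, fun h4 => h3.2 ⟨h4, h3.1⟩⟩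
        · exact Or.inr h3
      · rintro (h3 | h3)
        · by_cases h4 : x ∈ r '' S
          · exact Or.inl ⟨h4, fun h5 => h3.2 h5.1⟩
          · exact Or.inr ⟨h3.1, h4⟩
        · exact Or.inr h3
    have e3 : r '' S ∪ Z = R := by
      rw [hZ, union_sdiff_cancel hrR]
    rw [e1] at r1
    rw [e2] at r2
    rw [e3] at r3
    omega
  have hinj : InjOn r S := by
    intro s hs s' hs' hss
    refine h.uniq hs hs' (hr s hs).1 ?_
    rw [hss]
    exact (hr s' hs').1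
  have hfin := wall_isoZ (N := N ／ Z) hSy hτ (p := fun v => (Sum.inl v : (ℕ × ℕ) ⊕ α)) (e := r)
    (ends := ends') (y := y) (q := q + u) (fun a b hab => Sum.inl_injective hab) hinj hends'
    hB'.bic hA' key
  have e1 : ∀ s ∈ S, (r s ∈ A ∩ r '' S ↔ r s ∈ A) := fun s hs =>
    ⟨fun h1 => h1.1, fun h1 => ⟨h1, ⟨s, hs, rfl⟩⟩⟩
  have e2 : {s ∈ S | r s ∈ A ∩ r '' S} = {s ∈ S | r s ∈ A} := by
    ext s
    exact and_congr_right fun hs => e1 s hs
  have e3 : {s ∈ S | r s ∉ A ∩ r '' S} = {s ∈ S | r s ∉ A} := by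
    ext s
    exact and_congr_right fun hs => not_congr (e1 s hs)
  rw [e2, e3] at hfin
  exact hfin

/-- **Isoperimetry of a side after contraction of row elements** (every row keeps an element). -/
theorem GSide.isoZ [M.Finite] (hSy : S ⊆ Seg y) (hτ : (Seg y \ S).ncard ≤ τ)
    (h : GSide M S L f e u) {F A : Set α}
    (hF : F ⊆ crr L S) (hFr : ∀ s ∈ S, ∃ x ∈ L s, x ∉ F)
    (hA : A ⊆ crr L S \ F) {q : ℕ}
    (hq : rk (M ／ F) A + rk (M ／ F) ((crr L S \ F) \ A) ≤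
      rk (M ／ F) (crr L S \ F) + q) :
    {s ∈ S | ∃ x ∈ L s, x ∈ A}.ncard ≤ 2 * cW (q + u + 2 * τ) + 1 ∨
      {s ∈ S | ∃ x ∈ L s, x ∉ F ∧ x ∉ A}.ncard ≤ cW (q + u + 2 * τ) := by
  classical
  have hSf : S.Finite := (seg_finite y).subset hSy
  set Mt : Set (Bool × ℕ × ℕ) := {s ∈ S | ∃ x ∈ L s, x ∈ A} with hMt
  set Fu : Set (Bool × ℕ × ℕ) := {s ∈ S | ∀ x ∈ L s, x ∉ F → x ∈ A} with hFu
  have hFM : Fu ⊆ Mt := by
    intro s hs
    obtain ⟨x, hx, hxF⟩ := hFr s hs.1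
    exact ⟨hs.1, x, hx, hs.2 x hx hxF⟩
  have hMf : Mt.Finite := hSf.subset fun s hs => hs.1
  -- representatives for `T`
  have key : ∀ T, Fu ⊆ T → T ⊆ Mt → T.ncard ≤ cW (q + u + 2 * τ) ∨ (S \ T).ncard ≤ cW (q + u + 2 * τ) := by
    intro T hFT hTM
    have hex : ∀ s : Bool × ℕ × ℕ, ∃ x : α, s ∈ S → (x ∈ L s ∧ x ∉ F) ∧ (x ∈ A ↔ s ∈ T) := by
      intro s
      by_cases hs : s ∈ S
      · by_cases hsT : s ∈ T
        · obtain ⟨x, hx, hxA⟩ := (hTM hsT).2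
          exact ⟨x, fun _ => ⟨⟨hx, (hA hxA).2⟩, fun _ => hsT, fun _ => hxA⟩⟩
        · have h1 : ¬ ∀ x ∈ L s, x ∉ F → x ∈ A := fun h2 => hsT (hFT ⟨hs, h2⟩)
          push Not at h1
          obtain ⟨x, hx, hxF, hxA⟩ := h1
          exact ⟨x, fun _ => ⟨⟨hx, hxF⟩, fun h2 => absurd h2 hxA, fun h2 => absurd h2 hsT⟩⟩
      · exact ⟨e s, fun h1 => absurd h1 hs⟩
    choose r hr using hex
    have h1 := h.iso_repsZ hSy hτ hF hA hq (r := r) (fun s hs => (hr s hs).1)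
    have e1 : {s ∈ S | r s ∈ A} = T := by
      ext s
      exact ⟨fun h2 => ((hr s h2.1).2).1 h2.2, fun h2 => ⟨(hTM h2).1, ((hr s (hTM h2).1).2).2 h2⟩⟩
    have e2 : {s ∈ S | r s ∉ A} = S \ T := by
      ext s
      exact ⟨fun h2 => ⟨h2.1, fun h3 => h2.2 (((hr s h2.1).2).2 h3)⟩,
        fun h2 => ⟨h2.1, fun h3 => h2.2 (((hr s h2.1).2).1 h3)⟩⟩
    rw [e1, e2] at h1
    exact h1
  have eF : {s ∈ S | ∃ x ∈ L s, x ∉ F ∧ x ∉ A} = S \ Fu := by
    ext s
    constructor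
    · rintro ⟨h1, x, hx, hxF, hxA⟩
      exact ⟨h1, fun h2 => hxA (h2.2 x hx hxF)⟩
    · rintro ⟨h1, h2⟩
      refine ⟨h1, ?_⟩
      by_contra hcon
      push Not at hcon
      exact h2 ⟨h1, hcon⟩
  rw [eF]
  by_contra hcon
  push Not at hcon
  obtain ⟨c1, c2⟩ := hcon
  have k1 : (S \ Mt).ncard ≤ cW (q + u + 2 * τ) := by
    rcases key Mt hFM (Subset.refl _) with h1 | h1
    · omega
    · exact h1
  have k2 : Fu.ncard ≤ cW (q + u + 2 * τ) := by
    rcases key Fu (Subset.refl _) hFM with h1 | h1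
    · exact h1
    · omega
  obtain ⟨T, hT1, hT2, hT3⟩ := Set.exists_subsuperset_card_eq hFM
    (show Fu.ncard ≤ cW (q + u + 2 * τ) + 1 by omega) (show cW (q + u + 2 * τ) + 1 ≤ Mt.ncard by omega)
  rcases key T hT1 hT2 with h1 | h1
  · omega
  · have h2 : Mt ⊆ T ∪ (S \ T) := by
      intro s hs
      by_cases h3 : s ∈ T
      · exact Or.inl h3
      · exact Or.inr ⟨hs.1, h3⟩
    have h3 := Set.ncard_le_ncard h2 ((hMf.subset hT2).union (hSf.subset sdiff_subset))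
    have h4 := Set.ncard_union_le T (S \ T)
    omega

end



/-- **Alpha by hot blocks with few missing rows.** -/
theorem alphaHotZ (κ k₀ τ : ℕ) : ∃ c : ℕ, ∀ ρ : ℕ, ∃ w₀ s₁ : ℕ, ∀ w ≥ w₀, ∀ s ≥ s₁,
    ∀ {α : Type u} (M : Matroid α) [M.Finite] (Z₀ : Set (Bool × ℕ × ℕ))
    (L₁ : Bool × ℕ × ℕ → List α) (f₁ : α → Sym2 ((ℕ × ℕ) ⊕ α))
    (e₁ : Bool × ℕ × ℕ → α) (u₁ : ℕ) (L₂ : Bool × ℕ × ℕ → List α)
    (f₂ : α → Sym2 ((ℕ × ℕ) ⊕ α)) (e₂ : Bool × ℕ × ℕ → α) (u₂ : ℕ) (F : Set α),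
    u₁ ≤ κ → u₂ ≤ κ → Z₀.Finite → Z₀.ncard ≤ τ →
    GSide M (Seg w \ Z₀) L₁ f₁ e₁ u₁ → GSide M✶ (Seg s) L₂ f₂ e₂ u₂ →
    (∀ i j a b : ℕ, shS i j '' Seg ρ ⊆ Seg w \ Z₀ → shS a b '' Seg ρ ⊆ Seg s →
      ∃ r ∈ shS i j '' Seg ρ, ∃ x ∈ L₁ r, x ∈ crr L₂ (shS a b '' Seg ρ)) →
    F ⊆ crr L₁ (Seg w \ Z₀) → Disjoint (crr L₂ (Seg s)) F →
    (∀ r ∈ Seg w \ Z₀, ∃ x ∈ L₁ r, x ∉ F) →
    ∀ X ⊆ (M ／ F).E, Disjoint X (e₂ '' Seg s) →
    rk (M ／ F) X + rk (M ／ F) ((M ／ F).E \ X) ≤ rk (M ／ F) (M ／ F).E + k₀ →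
    {r ∈ Seg w \ Z₀ | ∃ x ∈ L₁ r, x ∈ X}.ncard ≤ c := by
  classical
  obtain ⟨m, hm⟩ : ∃ m, m = cW (k₀ + κ + 2 * τ) := ⟨_, rfl⟩
  refine ⟨2 * m + 1, fun ρ => ?_⟩
  refine ⟨2 * (ρ + 1) * (m + τ + 1), 2 * (ρ + 1) * (m + τ + 1) + (2 * m + 2), ?_⟩
  intro w hw s hs α M _ Z₀ L₁ f₁ e₁ u₁ L₂ f₂ e₂ u₂ F hu₁ hu₂ hZf hZc h₁ h₂ hhot hF hFd hFr X hX
    hXe hsep
  have hfd : M✶.Finite := inferInstance
  have hfF : (M ／ F).Finite := BQ.fin_contract F
  have hfFd : (M ／ F)✶.Finite := inferInstance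
  have g₁ := h₁.mono hu₁
  have hEF : (M ／ F).E = M.E \ F := Matroid.contract_ground _ _
  have hSy : Seg w \ Z₀ ⊆ Seg w := sdiff_subset
  have hτ : (Seg w \ (Seg w \ Z₀)).ncard ≤ τ := by
    refine (Set.ncard_le_ncard ?_ hZf).trans hZc
    rintro x ⟨h3, h4⟩
    by_contra h5
    exact h4 ⟨h3, h5⟩
  set R : Set α := crr L₁ (Seg w \ Z₀) with hR
  have hRE : R ⊆ M.E := h₁.sub_ground
  have hRFE : R \ F ⊆ (M ／ F).E := by
    rw [hEF]
    exact sdiff_subset_sdiff_left hRE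
  -- rows
  have a1 := sep_restrict hX hRFE hsep
  have a2 := g₁.isoZ hSy hτ hF hFr (A := X ∩ (R \ F)) inter_subset_right a1
  have e1 : {r ∈ Seg w \ Z₀ | ∃ x ∈ L₁ r, x ∈ X ∩ (R \ F)} =
      {r ∈ Seg w \ Z₀ | ∃ x ∈ L₁ r, x ∈ X} := by
    ext r
    refine and_congr_right fun hr => ?_
    constructor
    · rintro ⟨x, hx, hxA⟩
      exact ⟨x, hx, hxA.1⟩
    · rintro ⟨x, hx, hxA⟩
      have := hX hxA
      rw [hEF] at this
      exact ⟨x, hx, hxA, ⟨r, hr, hx⟩, this.2⟩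
  rw [e1, ← hm] at a2
  rcases a2 with a2 | a2
  · exact a2
  exfalso
  set Bd : Set (Bool × ℕ × ℕ) :=
    {r ∈ Seg w \ Z₀ | ∃ x ∈ L₁ r, x ∉ F ∧ x ∉ X ∩ (R \ F)} with hBd
  have hBf : Bd.Finite := (seg_finite w).subset fun r hr => hr.1.1
  have hBZ : (Bd ∪ Z₀).ncard ≤ m + τ := (Set.ncard_union_le _ _).trans (by omega)
  obtain ⟨a, ha, hfree⟩ := free_block (w := w) (ρ := ρ) (m := m + τ) hw (hBf.union hZf) hBZ
  have ha' : shS a 0 '' Seg ρ ⊆ Seg w \ Z₀ := fun r hr => ⟨ha hr, fun h => hfree r hr (Or.inr h)⟩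
  -- columns
  have g₂ : GSide (M ／ F)✶ (Seg s) L₂ f₂ e₂ κ := by
    rw [Matroid.dual_contract]
    exact (h₂.mono hu₂).delete hFd
  set R₂ : Set α := crr L₂ (Seg s) with hR₂
  have hR₂E : R₂ ⊆ (M ／ F).E := by
    have := g₂.sub_ground
    rwa [Matroid.dual_ground] at this
  have b1 := sep_dual hX hsep
  have b2 : rk (M ／ F)✶ ((M ／ F).E \ X) + rk (M ／ F)✶ ((M ／ F).E \ ((M ／ F).E \ X)) ≤
      rk (M ／ F)✶ (M ／ F).E + k₀ := by
    rw [sdiff_sdiff_cancel_left hX]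
    omega
  have b3 := sep_restrict (M := (M ／ F)✶) (E := (M ／ F).E) (A := (M ／ F).E \ X) (T := R₂)
    sdiff_subset hR₂E b2
  have b4 := (g₂.isoZ (Subset.refl _) (τ := τ) (by simp) (F := ∅) (empty_subset _)
    (fun σ hσ => ⟨e₂ σ, g₂.mem_last hσ, by simp⟩) (A := ((M ／ F).E \ X) ∩ R₂)
    (by rw [sdiff_empty]; exact inter_subset_right) (q := k₀)
    (by
      rw [Matroid.contract_empty, sdiff_empty]
      exact b3))
  rw [← hm] at b4
  have b5 : {σ ∈ Seg s | ∃ x ∈ L₂ σ, x ∉ ((M ／ F).E \ X) ∩ R₂}.ncard ≤ m := by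
    rcases b4 with b4 | b4
    · exfalso
      have h3 : Seg s ⊆ {σ ∈ Seg s | ∃ x ∈ L₂ σ, x ∈ ((M ／ F).E \ X) ∩ R₂} := by
        intro σ hσ
        have h4 : e₂ σ ∈ R₂ := ⟨σ, hσ, g₂.mem_last hσ⟩
        exact ⟨hσ, e₂ σ, g₂.mem_last hσ, ⟨hR₂E h4,
          fun h5 => Set.disjoint_left.1 hXe h5 ⟨σ, hσ, rfl⟩⟩, h4⟩
      have h4 := Set.ncard_le_ncard h3 ((seg_finite s).subset fun σ hσ => hσ.1)
      have h5 := seg_ncard_ge s
      omega
    · refine (Set.ncard_le_ncard ?_ ((seg_finite s).subset fun σ hσ => hσ.1)).trans b4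
      rintro σ ⟨hσ, x, hx, hxX⟩
      exact ⟨hσ, x, hx, by simp, hxX⟩
  obtain ⟨b, hb, hfree'⟩ := free_block (w := s) (ρ := ρ) (m := m) (by
      have : 2 * (ρ + 1) * (m + 1) ≤ 2 * (ρ + 1) * (m + τ + 1) :=
        Nat.mul_le_mul_left _ (by omega)
      omega)
    ((seg_finite s).subset fun r hr => hr.1) b5
  -- a conflict of the two blocks
  obtain ⟨r, hr, x, hx, σ, hσ, hxσ⟩ := hhot a 0 b 0 ha' hb
  have hxR₂ : x ∈ R₂ := ⟨σ, hb hσ, hxσ⟩
  have hxF : x ∉ F := fun h => Set.disjoint_left.1 hFd hxR₂ h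
  have hxX : x ∈ X := by
    by_contra hcon
    exact hfree r hr (Or.inl ⟨ha' hr, x, hx, hxF, fun h => hcon h.1⟩)
  exact hfree' σ hσ ⟨hb hσ, x, hxσ, fun h => h.1.2 hxX⟩

end CWL
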