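import Pool.Agent.CW.Defs
import Pool.Agent.Helper21.CW.Opath

/-!
# Theorem CW, row P: glueing, O-paths and simultaneous certificates in graph form
-/

open Set BIC BICS
open scoped Matroid

namespace CWL

variable {α V : Type*} {M : Matroid α} {C T B : Set α} {ends : α → Sym2 V}

/-- `X` sees all of `B` -/
def Rob (M : Matroid α) (C B X : Set α) : Prop :=
  rk (M ／ C) X + B.ncard ≤ rk (M ／ (C \ B)) X

/-- every vertex of `W` has its own edge in `Z` -/
def Att (ends : α → Sym2 V) (Z : Set α) (W : Set V) : Prop :=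
  ∃ g : V → α, InjOn g W ∧ ∀ w ∈ W, g w ∈ Z ∧ w ∈ ends (g w)

lemma rk_conf0 [M.Finite] (hC : M.Indep C) {X : Set α} (hX : X ⊆ M.E \ C) :
    rk (M ／ C) X + C.ncard = rk M (X ∪ C) := by
  have := CW.rk_conf hC (Z := ∅) hX
  rwa [sdiff_empty] at this

lemma card_C [M.Finite] (hC : M.Indep C) (hBC : B ⊆ C) :
    (C \ B).ncard + B.ncard = C.ncard := by
  have hf : C.Finite := M.ground_finite.subset hC.subset_ground
  exact Set.ncard_sdiff_add_ncard_of_subset hBC hf

lemma Rob.mono [M.Finite] (hC : M.Indep C) (_hBC : B ⊆ C) {X Y : Set α} (hXY : X ⊆ Y)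
    (hY : Y ⊆ M.E \ C) (h : Rob M C B X) : Rob M C B Y := by
  have h1 := rk_conf0 hC hY
  have h2 := rk_conf0 hC (hXY.trans hY)
  have h3 := CW.rk_conf hC (Z := B) hY
  have h4 := CW.rk_conf hC (Z := B) (hXY.trans hY)
  have h5 := rk_submod M (X ∪ C) (Y ∪ (C \ B))
  have h6 : (X ∪ C) ∪ (Y ∪ (C \ B)) = Y ∪ C := by
    ext e
    have h7 := @hXY e
    simp only [mem_union, mem_sdiff]
    tauto
  have h7 : rk M (X ∪ (C \ B)) ≤ rk M ((X ∪ C) ∩ (Y ∪ (C \ B))) := by
    apply rk_mono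
    rintro e (he | he)
    · exact ⟨Or.inl he, Or.inl (hXY he)⟩
    · exact ⟨Or.inr he.1, Or.inr he⟩
  rw [h6] at h5
  have h8 : rk (M ／ C) X + B.ncard ≤ rk (M ／ (C \ B)) X := h
  show rk (M ／ C) Y + B.ncard ≤ rk (M ／ (C \ B)) Y
  omega

lemma rk_le_add [M.Finite] (hC : M.Indep C) (hBC : B ⊆ C) {X : Set α} (hX : X ⊆ M.E \ C) :
    rk (M ／ (C \ B)) X ≤ rk (M ／ C) X + B.ncard := by
  have h1 := rk_conf0 hC hX
  have h3 := CW.rk_conf hC (Z := B) hX
  have h4 := card_C hC hBC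
  have h5 : rk M (X ∪ (C \ B)) ≤ rk M (X ∪ C) :=
    rk_mono _ (union_subset_union_right _ sdiff_subset)
  omega

lemma rk_rob [M.Finite] (hC : M.Indep C) (hBC : B ⊆ C) {X : Set α}
    (hX : X ⊆ M.E \ C) (h : Rob M C B X) : rk (M ／ (C \ B)) X = rk (M ／ C) X + B.ncard :=
  le_antisymm (rk_le_add hC hBC hX) h

lemma count_le {N : Matroid α} [N.Finite] (hB : Bic N T ends) {X : Set α} {U : Set V}
    (hU : U.Finite) (hX : X ⊆ ins T ends U) : rk N X ≤ U.ncard := by
  have h1 := (N.eRk_mono hX).trans (hB.rk U)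
  rw [← cast_rk, ← hU.cast_ncard_eq] at h1
  exact_mod_cast h1

lemma count_ge {N : Matroid α} [N.Finite] (hB : Bic N T ends) {X Z : Set α} {U W : Set V}
    (_hU : U.Finite) (hW : W.Finite) (hX : X ⊆ ins T ends U) (hUX : U.ncard ≤ rk N X)
    (hZ : Z ⊆ T) (hd : Disjoint W U) (ha : Att ends Z W) :
    U.ncard + W.ncard ≤ rk N (X ∪ Z) := by
  classical
  obtain ⟨g, hg, hgW⟩ := ha
  have hXE : X ⊆ N.E := fun e he => hB.sub (hX he).1
  obtain ⟨I, hIX, hI, hIc⟩ := exists_basis_rk X hXE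
  have hIf := N.ground_finite.subset hI.subset_ground
  obtain ⟨φ, hφ, hφe⟩ := Bic_choice hB hI (fun e he => (hX (hIX he)).1) hIf
  have hgI : ∀ w ∈ W, g w ∉ I := fun w hw h => Set.disjoint_left.1 hd hw
    ((hX (hIX h)).2 w (hgW w hw).2)
  have hsec : ∃ ψ : α → V, ∀ e ∈ g '' W, ψ e ∈ W ∧ g (ψ e) = e := by
    refine ⟨fun e => if h : ∃ w ∈ W, g w = e then h.choose else φ e, fun e he => ?_⟩
    have he' : ∃ w ∈ W, g w = e := he
    simp only [dif_pos he']
    exact he'.choose_spec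
  obtain ⟨ψ, hψ⟩ := hsec
  have hψ1 : ∀ e ∈ g '' W, ψ e ∈ W := fun e he => (hψ e he).1
  have hψ2 : ∀ e ∈ g '' W, g (ψ e) = e := fun e he => (hψ e he).2
  have h1 : N.Indep (I ∪ g '' W) := by
    refine hB.ind _ (fun e => if e ∈ I then φ e else ψ e) ?_ ?_ ?_
    · refine union_subset (fun e he => (hX (hIX he)).1) ?_
      rintro _ ⟨w, hw, rfl⟩
      exact hZ (hgW w hw).1
    · intro a ha b hb hab
      have hI1 : ∀ e ∈ I, (if e ∈ I then φ e else ψ e) ∈ U := by
        intro e he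
        rw [if_pos he]
        exact (hX (hIX he)).2 _ (hφe e he)
      have hJI : ∀ e ∈ g '' W, e ∉ I := by
        rintro _ ⟨w, hw, rfl⟩
        exact hgI w hw
      have hJ1 : ∀ e ∈ g '' W, (if e ∈ I then φ e else ψ e) ∈ W := by
        intro e he
        rw [if_neg (hJI e he)]
        exact hψ1 e he
      simp only at hab
      rcases ha with ha | ha <;> rcases hb with hb | hb
      · rw [if_pos ha, if_pos hb] at hab
        exact hφ ha hb hab
      · exact absurd (hab ▸ hI1 a ha) (fun h => Set.disjoint_left.1 hd (hJ1 b hb) h)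
      · exact absurd (hab ▸ hJ1 a ha) (fun h => Set.disjoint_left.1 hd h (hI1 b hb))
      · rw [if_neg (hJI a ha), if_neg (hJI b hb)] at hab
        rw [← hψ2 a ha, ← hψ2 b hb, hab]
    · rintro e (he | he)
      · simp only [if_pos he]; exact hφe e he
      · have hJI : e ∉ I := by
          obtain ⟨w, hw, rfl⟩ := he
          exact hgI w hw
        simp only [if_neg hJI]
        have h2 := (hgW _ (hψ1 e he)).2
        rwa [hψ2 e he] at h2
  have h2 := rk_mono N (show I ∪ g '' W ⊆ X ∪ Z from union_subset_union hIX (by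
    rintro _ ⟨w, hw, rfl⟩
    exact (hgW w hw).1))
  have h3 : Disjoint I (g '' W) := by
    rw [Set.disjoint_left]
    rintro _ he ⟨w, hw, rfl⟩
    exact hgI w hw he
  rw [rk_indep h1, Set.ncard_union_eq h3 hIf (hW.image g), hg.ncard_image] at h2
  omega

/-- GLUE: `c` invisible on `X₁` and on `X₂`; `X₁ ∪ X₂` and `X₁ ∩ X₂` have full rank on
`V₁ ∪ V₂` and on `V₁ ∩ V₂`. -/
theorem glue [M.Finite] (hC : M.Indep C) (hT : T ⊆ M.E \ C) (hB : Bic (M ／ C) T ends)
    (hBC : B ⊆ C) {c : α} (hc : c ∈ C \ B) {X₁ X₂ : Set α} {V₁ V₂ : Set V} (hV₁ : V₁.Finite)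
    (hV₂ : V₂.Finite) (hX₁ : X₁ ⊆ ins T ends V₁) (hX₂ : X₂ ⊆ ins T ends V₂)
    (hR : Rob M C B (X₁ ∩ X₂)) (hi : (V₁ ∩ V₂).ncard ≤ rk (M ／ C) (X₁ ∩ X₂))
    (hu : (V₁ ∪ V₂).ncard ≤ rk (M ／ C) (X₁ ∪ X₂)) (h₁ : ¬ Vis M C B X₁ c)
    (h₂ : ¬ Vis M C B X₂ c) : ¬ Vis M C B (X₁ ∪ X₂) c := by
  have hT1 : X₁ ⊆ M.E \ C := fun e he => hT (hX₁ he).1
  have hT2 : X₂ ⊆ M.E \ C := fun e he => hT (hX₂ he).1
  have hel := CW.elem_conf hC (T := X₁ ∪ X₂) (union_subset hT1 hT2) hc.1 hc.2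
  have i1 := (CW.inv_iff hC hc.1 hc.2 hT1).2 h₁
  have i2 := (CW.inv_iff hC hc.1 hc.2 hT2).2 h₂
  refine (CW.inv_iff hC hc.1 hc.2 (union_subset hT1 hT2)).1
    (hel.glue subset_union_left subset_union_right i1 i2 ?_)
  have r0 := rk_rob hC hBC (inter_subset_left.trans hT1 : X₁ ∩ X₂ ⊆ _) hR
  have r1 := rk_rob hC hBC hT1 (hR.mono hC hBC inter_subset_left hT1)
  have r2 := rk_rob hC hBC hT2 (hR.mono hC hBC inter_subset_right hT2)
  have r3 := rk_rob hC hBC (union_subset hT1 hT2)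
    (hR.mono hC hBC (inter_subset_left.trans subset_union_left) (union_subset hT1 hT2))
  have c1 := count_le hB hV₁ hX₁
  have c2 := count_le hB hV₂ hX₂
  have c3 := Set.ncard_union_add_ncard_inter V₁ V₂ hV₁ hV₂
  omega

/-- pendant sets -/
theorem pendant [M.Finite] (hC : M.Indep C) (hT : T ⊆ M.E \ C) (hB : Bic (M ／ C) T ends)
    (hBC : B ⊆ C) {c : α} (hc : c ∈ C \ B) {X Z : Set α} {U W : Set V} (hU : U.Finite)
    (hW : W.Finite) (hX : X ⊆ ins T ends U) (hR : Rob M C B X) (hUX : U.ncard ≤ rk (M ／ C) X)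
    (hZ : Z ⊆ T) (hd : Disjoint W U) (ha : Att ends Z W) (hcard : Z.ncard ≤ W.ncard)
    (hi : ¬ Vis M C B X c) : ¬ Vis M C B (X ∪ Z) c := by
  have hT1 : X ⊆ M.E \ C := fun e he => hT (hX he).1
  have hT2 : Z ⊆ M.E \ C := fun e he => hT (hZ he)
  have hZf : Z.Finite := M.ground_finite.subset fun e he => (hT2 he).1
  have hel := CW.elem_conf hC (T := X ∪ Z) (union_subset hT1 hT2) hc.1 hc.2
  have i1 := (CW.inv_iff hC hc.1 hc.2 hT1).2 hi
  refine (CW.inv_iff hC hc.1 hc.2 (union_subset hT1 hT2)).1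
    (hel.inv_add subset_rfl hZf i1 ?_)
  have r1 := rk_rob hC hBC hT1 hR
  have r3 := rk_rob hC hBC (union_subset hT1 hT2)
    (hR.mono hC hBC subset_union_left (union_subset hT1 hT2))
  have c1 := count_le hB hU hX
  have c2 := count_ge hB hU hW hX hUX hZ hd ha
  omega

/-- `Q` is a path (or any set of edges) with the inner vertices `W` and the feet `E` -/
structure Pth (T : Set α) (ends : α → Sym2 V) (Q : Set α) (W E : Set V) : Prop where
  fin : W.Finite
  inc : Q ⊆ ins T ends (W ∪ E)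
  att : Att ends Q W

/-- (a') an unbalanced path over `O` is unbalanced over a part `O'` of `O` which has full rank
and contains its feet -/
theorem persist [M.Finite] (hC : M.Indep C) (hT : T ⊆ M.E \ C) (hB : Bic (M ／ C) T ends)
    (hBC : B ⊆ C) {c : α} (hc : c ∈ C \ B) {O O' Q : Set α} {U U' W E : Set V} (hU : U.Finite)
    (hO : O ⊆ ins T ends U) (hOU : U.ncard ≤ rk (M ／ C) O) (hO'O : O' ⊆ O)
    (hO' : O' ⊆ ins T ends U') (hU' : U' ⊆ U) (hOU' : U'.ncard ≤ rk (M ／ C) O')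
    (hR : Rob M C B O') (hQ : Pth T ends Q W E) (hW : Disjoint W U) (hE : E ⊆ U')
    (hi : ¬ Vis M C B O c) (hv : Vis M C B (O ∪ Q) c) : Vis M C B (O' ∪ Q) c := by
  by_contra hn
  have e1 : (O' ∪ Q) ∪ O = O ∪ Q := by
    ext e
    have := @hO'O e
    simp only [mem_union]
    tauto
  have hWE : W ∪ E ⊆ U' ∪ W := by
    rintro x (hx | hx)
    · exact Or.inr hx
    · exact Or.inl (hE hx)
  have hQT : Q ⊆ T := fun e he => (hQ.inc he).1
  have hV : (U' ∪ W) ∩ U = U' := by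
    ext x
    have h1 := @hU' x
    have h2 : x ∈ W → x ∉ U := fun h => Set.disjoint_left.1 hW h
    simp only [mem_inter_iff, mem_union]
    tauto
  have hV' : (U' ∪ W) ∪ U = U ∪ W := by
    ext x
    have h1 := @hU' x
    simp only [mem_union]
    tauto
  have hOin : O' ⊆ (O' ∪ Q) ∩ O := subset_inter subset_union_left hO'O
  have hfin : U'.Finite := hU.subset hU'
  have hOT : O ⊆ M.E \ C := fun e he => hT (hO he).1
  have c2 := count_ge hB hU hQ.fin hO hOU hQT hW hQ.att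
  refine glue hC hT hB hBC hc (X₁ := O' ∪ Q) (X₂ := O) (V₁ := U' ∪ W) (V₂ := U)
    (hfin.union hQ.fin) hU ?_ hO ?_ ?_ ?_ hn hi (by rwa [e1])
  · refine union_subset (hO'.trans (ins_mono subset_union_left)) (hQ.inc.trans (ins_mono hWE))
  · exact hR.mono hC hBC hOin (inter_subset_right.trans hOT)
  · rw [hV]
    exact hOU'.trans (rk_mono _ hOin)
  · rw [hV', e1, Set.ncard_union_eq hW.symm hU hQ.fin]
    exact c2

/-- standing assumptions: `U` is the vertex set of the wall, `Sv` the vertex set of the group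
which sees `B`. -/
structure Std (M : Matroid α) (C T B : Set α) (ends : α → Sym2 V) (U Sv : Set V) : Prop where
  ind : M.Indep C
  sub : T ⊆ M.E \ C
  bic : Bic (M ／ C) T ends
  BC : B ⊆ C
  fin : U.Finite
  SU : Sv ⊆ U
  full : ∀ v : V, ((U \ Sv) \ {v}).ncard ≤ rk (M ／ C) (ins T ends ((U \ Sv) \ {v}))
  full' : (U \ Sv).ncard ≤ rk (M ／ C) (ins T ends (U \ Sv))
  Sfull : Sv.ncard ≤ rk (M ／ C) (ins T ends Sv)
  rob : Rob M C B (ins T ends Sv)

/-- The gadget of `c`: `Y` the configuration, `f ∈ Y`, `W` inner vertices, `E` feet. -/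
structure Gad (M : Matroid α) (C T B : Set α) (ends : α → Sym2 V) (U Sv : Set V) (c : α)
    (Y : Set α) (f : α) (W E : Set V) : Prop where
  fY : f ∈ Y
  fin : W.Finite
  WU : Disjoint W U
  EU : E ⊆ U \ Sv
  inc : Y ⊆ ins T ends (W ∪ E)
  inn : ∀ e ∈ Y, ∃ w ∈ ends e, w ∈ W
  card : Y.ncard = W.ncard + 2
  att : Att ends (Y \ {f}) W
  attv : ∀ v ∈ E, Att ends Y (insert v W)
  vis : ∃ (Q : Set α) (W' E' : Set V), Q ⊆ Y \ {f} ∧ Pth T ends Q W' E' ∧ W' ⊆ W ∧ E' ⊆ E ∧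
    Vis M C B (ins T ends U ∪ Q) c
  visv : ∀ v ∈ E, ∃ (Q : Set α) (W' E' : Set V), Q ⊆ Y ∧ Pth T ends Q W' E' ∧ W' ⊆ W ∧
    E' ⊆ E ∧ v ∉ E' ∧ Vis M C B (ins T ends U ∪ Q) c

/-- counting for families -/
lemma count_fam {ι : Type*} {N : Matroid α} [N.Finite] (hB : Bic N T ends) {X : Set α}
    {U : Set V} (hU : U.Finite) (hX : X ⊆ ins T ends U) (hUX : U.ncard ≤ rk N X)
    (K : Finset ι) (Z : ι → Set α) (W : ι → Set V) (hW : ∀ d ∈ K, (W d).Finite)
    (hZ : ∀ d ∈ K, Z d ⊆ ins T ends (U ∪ W d)) (hd : ∀ d ∈ K, Disjoint (W d) U)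
    (hdd : ∀ d ∈ K, ∀ d' ∈ K, d ≠ d' → Disjoint (W d) (W d'))
    (ha : ∀ d ∈ K, Att ends (Z d) (W d)) :
    U.ncard + ∑ d ∈ K, (W d).ncard ≤ rk N (X ∪ ⋃ d ∈ K, Z d) := by
  classical
  have key : (U ∪ ⋃ d ∈ K, W d).ncard = U.ncard + ∑ d ∈ K, (W d).ncard ∧
      (U ∪ ⋃ d ∈ K, W d).ncard ≤ rk N (X ∪ ⋃ d ∈ K, Z d) := by
    induction K using Finset.induction_on with
    | empty => simpa using hUX
    | insert a K ha' ih =>
      obtain ⟨ih1, ih2⟩ := ih (fun d h => hW d (Finset.mem_insert_of_mem h))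
        (fun d h => hZ d (Finset.mem_insert_of_mem h))
        (fun d h => hd d (Finset.mem_insert_of_mem h))
        (fun d h d' h' => hdd d (Finset.mem_insert_of_mem h) d' (Finset.mem_insert_of_mem h'))
        (fun d h => ha d (Finset.mem_insert_of_mem h))
      have hfin : (U ∪ ⋃ d ∈ K, W d).Finite := hU.union
        (K.finite_toSet.biUnion fun d h => hW d (Finset.mem_insert_of_mem h))
      have hdis : Disjoint (W a) (U ∪ ⋃ d ∈ K, W d) := by
        rw [Set.disjoint_left]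
        rintro x hx (h | h)
        · exact Set.disjoint_left.1 (hd a (Finset.mem_insert_self _ _)) hx h
        · simp only [mem_iUnion] at h
          obtain ⟨d, hdK, hxd⟩ := h
          refine Set.disjoint_left.1 (hdd a (Finset.mem_insert_self _ _) d
            (Finset.mem_insert_of_mem hdK) ?_) hx hxd
          rintro rfl
          exact ha' hdK
      have e1 : (U ∪ ⋃ d ∈ insert a K, W d) = (U ∪ ⋃ d ∈ K, W d) ∪ W a := by
        rw [Finset.set_biUnion_insert, union_comm (W a), ← union_assoc]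
      have e2 : (X ∪ ⋃ d ∈ insert a K, Z d) = (X ∪ ⋃ d ∈ K, Z d) ∪ Z a := by
        rw [Finset.set_biUnion_insert, union_comm (Z a), ← union_assoc]
      have h1 := count_ge hB (X := X ∪ ⋃ d ∈ K, Z d) (Z := Z a) (W := W a) hfin
        (hW a (Finset.mem_insert_self _ _)) ?_ ih2 ?_ hdis (ha a (Finset.mem_insert_self _ _))
      · rw [e1, e2, Set.ncard_union_eq hdis.symm hfin (hW a (Finset.mem_insert_self _ _)),
          Finset.sum_insert ha', ih1]
        rw [ih1] at h1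
        exact ⟨by omega, h1⟩
      · refine union_subset (hX.trans (ins_mono subset_union_left)) ?_
        intro e he
        simp only [mem_iUnion] at he
        obtain ⟨d, hdK, hed⟩ := he
        refine ins_mono ?_ (hZ d (Finset.mem_insert_of_mem hdK) hed)
        rintro x (hx | hx)
        · exact Or.inl hx
        · exact Or.inr (mem_biUnion hdK hx)
      · exact fun e he => (hZ a (Finset.mem_insert_self _ _) he).1
  rw [← key.1]
  exact key.2

/-- the matroid of the simultaneous certificates -/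
def simM (M : Matroid α) (C T B : Set α) (ends : α → Sym2 V) (Sv : Set V) (K : Finset α)
    (Y : α → Set α) (f : α → α) : Matroid α :=
  M ／ (C \ (B ∪ K)) ／ (ins T ends Sv ∪ ⋃ c ∈ K, Y c \ {f c})

lemma ins_ins_compl (X : Set V) (v : V) :
    ins (ins T ends X) ends {v}ᶜ = ins T ends (X \ {v}) := by
  ext e
  constructor
  · rintro ⟨⟨h1, h2⟩, h3⟩
    exact ⟨h1, fun w hw => ⟨h2 w hw, h3 w hw⟩⟩
  · rintro ⟨h1, h2⟩
    exact ⟨⟨h1, fun w hw => (h2 w hw).1⟩, fun w hw => (h2 w hw).2⟩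

/-- a part of the wall, together with the group -/
structure Sub (M : Matroid α) (C T B : Set α) (ends : α → Sym2 V) (U Sv X : Set V) : Prop where
  sub : X ⊆ U \ Sv
  full : X.ncard ≤ rk (M ／ C) (ins T ends X)

/-- the edges of a part of the wall and of the group -/
def prt (T : Set α) (ends : α → Sym2 V) (Sv X : Set V) : Set α := ins T ends X ∪ ins T ends Sv

section std

variable {U Sv X : Set V}

lemma Std.full_U [M.Finite] (hS : Std M C T B ends U Sv) (hX : Sub M C T B ends U Sv X) :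
    (X ∪ Sv).ncard ≤ rk (M ／ C) (prt T ends Sv X) := by
  have h1 : Disjoint X Sv := by
    rw [Set.disjoint_left]
    exact fun x hx => (hX.sub hx).2
  have h2 := rk_skew hS.bic h1 (X := ins T ends X) (Y := ins T ends Sv) subset_rfl subset_rfl
  have h3 := hX.full
  have h4 := hS.Sfull
  have h5 := Set.ncard_union_le X Sv
  unfold prt
  omega

lemma Std.prt_sub (hS : Std M C T B ends U Sv) (hX : Sub M C T B ends U Sv X) :
    prt T ends Sv X ⊆ ins T ends U :=
  union_subset (ins_mono (hX.sub.trans sdiff_subset)) (ins_mono hS.SU)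

lemma Std.card_U [M.Finite] (hS : Std M C T B ends U Sv) :
    U.ncard ≤ rk (M ／ C) (ins T ends U) := by
  have h0 : Sub M C T B ends U Sv (U \ Sv) := ⟨subset_rfl, hS.full'⟩
  have h1 := hS.full_U h0
  rw [sdiff_union_of_subset hS.SU] at h1
  exact h1.trans (rk_mono _ (hS.prt_sub h0))

lemma Std.rob_prt [M.Finite] (hS : Std M C T B ends U Sv) (hX : Sub M C T B ends U Sv X) :
    Rob M C B (prt T ends Sv X) :=
  hS.rob.mono hS.ind hS.BC subset_union_right
    ((hS.prt_sub hX).trans (fun _ he => hS.sub he.1))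

lemma Std.vis_prt [M.Finite] (hS : Std M C T B ends U Sv) (hX : Sub M C T B ends U Sv X)
    {c : α} (hc : c ∈ C \ B) {Q : Set α} {W E : Set V} (hQ : Pth T ends Q W E)
    (hW : Disjoint W U) (hE : E ⊆ X) (hi : ¬ Vis M C B (ins T ends U) c)
    (hv : Vis M C B (ins T ends U ∪ Q) c) : Vis M C B (prt T ends Sv X ∪ Q) c :=
  persist hS.ind hS.sub hS.bic hS.BC hc hS.fin subset_rfl hS.card_U (hS.prt_sub hX)
    (union_subset (ins_mono subset_union_left) (ins_mono subset_union_right))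
    (union_subset (hX.sub.trans sdiff_subset) hS.SU) (hS.full_U hX) (hS.rob_prt hX) hQ hW
    (hE.trans subset_union_left) hi hv

lemma Vis.mono {X Y : Set α} {c : α} (h : X ⊆ Y) (hv : Vis M C B X c) : Vis M C B Y c :=
  M.closure_subset_closure (union_subset_union_left _ h) hv

end std

/-- the hypotheses of SIM -/
structure Sys (M : Matroid α) (C T B : Set α) (ends : α → Sym2 V) (U Sv : Set V) (K : Finset α)
    (Y : α → Set α) (f : α → α) (W E : α → Set V) : Prop where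
  std : Std M C T B ends U Sv
  KC : (K : Set α) ⊆ C \ B
  gad : ∀ c ∈ K, Gad M C T B ends U Sv c (Y c) (f c) (W c) (E c)
  WW : ∀ c ∈ K, ∀ d ∈ K, c ≠ d → Disjoint (W c) (W d)
  EE : ∀ c ∈ K, ∀ d ∈ K, c ≠ d → Disjoint (E c) (E d)
  inv : ∀ c ∈ K, ¬ Vis M C B (ins T ends U) c
  crs : ∀ c ∈ K, ∀ d ∈ K, d ≠ c → ¬ Vis M C B (ins T ends U ∪ Y c) d

namespace Sys

variable {U Sv X : Set V} {K : Finset α} {Y : α → Set α} {f : α → α} {W E : α → Set V}

lemma KC' (h : Sys M C T B ends U Sv K Y f W E) : (K : Set α) ⊆ C := fun _ hc => (h.KC hc).1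

lemma BK (h : Sys M C T B ends U Sv K Y f W E) : Disjoint B (K : Set α) :=
  Set.disjoint_left.2 fun _ hc hcK => (h.KC hcK).2 hc

lemma OT (h : Sys M C T B ends U Sv K Y f W E) : ins T ends U ⊆ M.E \ C :=
  fun _ he => h.std.sub he.1

lemma YT (h : Sys M C T B ends U Sv K Y f W E) {c : α} (hc : c ∈ K) : Y c ⊆ M.E \ C :=
  fun _ he => h.std.sub ((h.gad c hc).inc he).1

lemma YU (h : Sys M C T B ends U Sv K Y f W E) {c : α} (hc : c ∈ K) {e : α} (he : e ∈ Y c) :
    e ∉ ins T ends U := by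
  intro h1
  obtain ⟨w, hw, hw'⟩ := (h.gad c hc).inn e he
  exact Set.disjoint_left.1 (h.gad c hc).WU hw' (h1.2 w hw)

lemma YY (h : Sys M C T B ends U Sv K Y f W E) {c d : α} (hc : c ∈ K) (hd : d ∈ K)
    (hcd : c ≠ d) : Disjoint (Y c) (Y d) := by
  rw [Set.disjoint_left]
  intro e he he'
  obtain ⟨w, hw, hw'⟩ := (h.gad c hc).inn e he
  rcases ((h.gad d hd).inc he').2 w hw with h1 | h1
  · exact Set.disjoint_left.1 (h.WW c hc d hd hcd) hw' h1
  · exact Set.disjoint_left.1 (h.gad c hc).WU hw' ((h.gad d hd).EU h1).1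

lemma UT (h : Sys M C T B ends U Sv K Y f W E) : (⋃ c ∈ K, Y c) ⊆ M.E \ C :=
  iUnion₂_subset fun _ hc => h.YT hc

lemma DT (h : Sys M C T B ends U Sv K Y f W E) : (⋃ c ∈ K, Y c \ {f c}) ⊆ M.E \ C :=
  iUnion₂_subset fun _ hc => sdiff_subset.trans (h.YT hc)

lemma Yf (h : Sys M C T B ends U Sv K Y f W E) [M.Finite] {c : α} (hc : c ∈ K) :
    (Y c).Finite := M.ground_finite.subset fun _ he => (h.YT hc he).1

lemma cardD (h : Sys M C T B ends U Sv K Y f W E) [M.Finite] {c : α} (hc : c ∈ K) :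
    (Y c \ {f c}).ncard = (W c).ncard + 1 := by
  have h1 := Set.ncard_sdiff_singleton_add_one (h.gad c hc).fY (h.Yf hc)
  have h2 := (h.gad c hc).card
  omega

/-- the configurations are visible over every part of the wall -/
lemma vis0 (h : Sys M C T B ends U Sv K Y f W E) [M.Finite]
    (hX : Sub M C T B ends U Sv X) {c : α} (hc : c ∈ K) (hE : E c ⊆ X) :
    Vis M C B (prt T ends Sv X ∪ (Y c \ {f c})) c := by
  obtain ⟨Q, W', E', h1, h2, h3, h4, h5⟩ := (h.gad c hc).vis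
  exact (h.std.vis_prt hX (h.KC hc) h2 ((h.gad c hc).WU.mono_left h3) (h4.trans hE)
    (h.inv c hc) h5).mono (union_subset_union_right _ h1)

lemma visv (h : Sys M C T B ends U Sv K Y f W E) [M.Finite]
    {v : V} (hX : Sub M C T B ends U Sv X) (hv : ∀ w ∈ U \ Sv, w ≠ v → w ∈ X)
    {c : α} (hc : c ∈ K) (hvE : v ∈ E c) :
    Vis M C B (prt T ends Sv X ∪ Y c) c := by
  obtain ⟨Q, W', E', h1, h2, h3, h4, h5, h6⟩ := (h.gad c hc).visv v hvE
  refine (h.std.vis_prt hX (h.KC hc) h2 ((h.gad c hc).WU.mono_left h3) ?_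
    (h.inv c hc) h6).mono (union_subset_union_right _ h1)
  intro w hw
  exact hv w ((h.gad c hc).EU (h4 hw)) (fun h' => h5 (h' ▸ hw))

/-- ranks over a part of the wall -/
lemma rk_prt (h : Sys M C T B ends U Sv K Y f W E) [M.Finite]
    (hX : Sub M C T B ends U Sv X) {Z : Set α} (hZ : Z ⊆ M.E \ C) :
    rk (M ／ (C \ B)) (prt T ends Sv X ∪ Z) = rk (M ／ C) (prt T ends Sv X ∪ Z) + B.ncard := by
  have h1 : prt T ends Sv X ∪ Z ⊆ M.E \ C :=
    union_subset ((h.std.prt_sub hX).trans h.OT) hZ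
  exact rk_rob h.std.ind h.std.BC h1
    ((h.std.rob_prt hX).mono h.std.ind h.std.BC subset_union_left h1)

lemma card_prt (h : Sys M C T B ends U Sv K Y f W E) [M.Finite]
    (hX : Sub M C T B ends U Sv X) :
    rk (M ／ (C \ B)) (prt T ends Sv X) = (X ∪ Sv).ncard + B.ncard := by
  have h1 := h.rk_prt hX (Z := ∅) (empty_subset _)
  rw [union_empty] at h1
  have h2 := h.std.full_U hX
  have h3 := count_le h.std.bic (X := prt T ends Sv X) (U := X ∪ Sv)
    (h.std.fin.subset (union_subset (hX.sub.trans sdiff_subset) h.std.SU))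
    (union_subset (ins_mono subset_union_left) (ins_mono subset_union_right))
  omega

lemma finX (h : Sys M C T B ends U Sv K Y f W E) (hX : Sub M C T B ends U Sv X) :
    (X ∪ Sv).Finite :=
  h.std.fin.subset (union_subset (hX.sub.trans sdiff_subset) h.std.SU)

lemma prt_in (X : Set V) : prt T ends Sv X ⊆ ins T ends (X ∪ Sv) :=
  union_subset (ins_mono subset_union_left) (ins_mono subset_union_right)

lemma XU (h : Sys M C T B ends U Sv K Y f W E) (hX : Sub M C T B ends U Sv X) :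
    X ∪ Sv ⊆ U := union_subset (hX.sub.trans sdiff_subset) h.std.SU

lemma mem (h : Sys M C T B ends U Sv K Y f W E) [M.Finite]
    (hX : Sub M C T B ends U Sv X) {c : α} (hc : c ∈ K) (hE : E c ⊆ X) :
    f c ∈ (M ／ (C \ (B ∪ K))).closure (prt T ends Sv X ∪ (Y c \ {f c})) := by
  have hg := h.gad c hc
  have hOs := h.std.prt_sub hX
  have h1 := h.rk_prt hX (h.YT hc)
  have h2 := h.card_prt hX
  have h3 := h.rk_prt hX (Z := Y c \ {f c}) (sdiff_subset.trans (h.YT hc))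
  have h4 := count_le h.std.bic (X := prt T ends Sv X ∪ Y c) (U := (X ∪ Sv) ∪ W c)
    ((h.finX hX).union hg.fin) (union_subset ((prt_in X).trans (ins_mono subset_union_left))
      (hg.inc.trans (ins_mono (by
        rintro x (hx | hx)
        · exact Or.inr hx
        · exact Or.inl (Or.inl (hE hx))))))
  have h5 := Set.ncard_union_le (X ∪ Sv) (W c)
  have h6 := count_ge h.std.bic (X := prt T ends Sv X) (Z := Y c \ {f c}) (h.finX hX) hg.fin
    (prt_in X) (h.std.full_U hX) (fun e he => (hg.inc he.1).1)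
    (hg.WU.mono_right (h.XU hX)) hg.att
  have h7 := h.cardD hc
  have h8 := hg.card
  refine CW.sim_mem h.std.ind h.KC' h.BK (union_subset (hOs.trans h.OT) (h.YT hc)) hc hg.fY
    (h.vis0 hX hc hE) ?_ ?_ ?_
  · intro d hd hdc hv
    exact h.crs c hc d hd hdc (CW.vis_mono (union_subset_union_left _ hOs) hv)
  · omega
  · omega

lemma not_mem (h : Sys M C T B ends U Sv K Y f W E) [M.Finite] {v : V}
    (hX : Sub M C T B ends U Sv X) (hv : ∀ w ∈ U \ Sv, w ≠ v → w ∈ X) (hvX : v ∉ X)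
    {c : α} (hc : c ∈ K) (hvE : v ∈ E c) :
    f c ∉ (M ／ (C \ (B ∪ K))).closure (prt T ends Sv X ∪ ⋃ d ∈ K, Y d \ {f d}) := by
  classical
  have hg := h.gad c hc
  have hOs := h.std.prt_sub hX
  have hvU := hg.EU hvE
  have hEd : ∀ d ∈ K, d ≠ c → E d ⊆ X := by
    intro d hd hdc w hw
    refine hv w ((h.gad d hd).EU hw) ?_
    rintro rfl
    exact Set.disjoint_left.1 (h.EE d hd c hc hdc) hw hvE
  have hfT : ({f c} : Set α) ⊆ M.E \ C := by
    rintro _ rfl
    exact h.YT hc hg.fY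
  have hT : prt T ends Sv X ∪ (⋃ d ∈ K, Y d \ {f d}) ∪ {f c} ⊆ M.E \ C :=
    union_subset (union_subset (hOs.trans h.OT) h.DT) hfT
  refine CW.sim_not_mem (Y := Y c) (D := fun d => Y d \ {f d}) h.std.ind h.KC' h.BK hc rfl
    hT ?_ ?_ ?_ ?_ ?_
  · intro d hd hvd
    exact h.inv d hd (CW.vis_mono hOs hvd)
  · intro d hd hdc
    exact h.vis0 hX hd (hEd d hd hdc)
  · exact h.visv hX hv hc hvE
  · intro c' hc' d hd hdc' hvd
    refine h.crs c' hc' d hd hdc' (CW.vis_mono ?_ hvd)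
    rintro e ((he | he) | he)
    · exact Or.inl (hOs he)
    · exact Or.inr he.1
    · obtain ⟨h1, h2⟩ := he
      subst h2
      rw [h1]
      exact Or.inr hg.fY
  · have h2 := h.card_prt hX
    have h3 := h.rk_prt hX (Z := (⋃ d ∈ K, Y d \ {f d}) ∪ {f c}) (union_subset h.DT hfT)
    rw [← union_assoc] at h3
    have h4 := count_fam h.std.bic (X := prt T ends Sv X) (h.finX hX) (prt_in X)
      (h.std.full_U hX) K (fun d => if d = c then Y c else Y d \ {f d})
      (fun d => if d = c then insert v (W c) else W d) ?_ ?_ ?_ ?_ ?_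
    · have h5 : prt T ends Sv X ∪ (⋃ d ∈ K, (if d = c then Y c else Y d \ {f d})) ⊆
          prt T ends Sv X ∪ (⋃ d ∈ K, Y d \ {f d}) ∪ {f c} := by
        rintro e (he | he)
        · exact Or.inl (Or.inl he)
        · simp only [mem_iUnion] at he
          obtain ⟨d, hd, hed⟩ := he
          by_cases hdc : d = c
          · subst hdc
            rw [if_pos rfl] at hed
            by_cases hef : e = f d
            · exact Or.inr hef
            · exact Or.inl (Or.inr (mem_biUnion hd ⟨hed, hef⟩))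
          · rw [if_neg hdc] at hed
            exact Or.inl (Or.inr (mem_biUnion hd hed))
      have h6 := rk_mono (M ／ C) h5
      have hvW : v ∉ W c := fun hvW => Set.disjoint_left.1 hg.WU hvW hvU.1
      have h7 : ∑ d ∈ K, (if d = c then insert v (W c) else W d).ncard =
          ∑ d ∈ K, (W d).ncard + 1 := by
        rw [← Finset.sum_erase_add _ _ hc, ← Finset.sum_erase_add K (fun d => (W d).ncard) hc,
          if_pos rfl, Set.ncard_insert_of_notMem hvW hg.fin, ← add_assoc]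
        congr 2
        refine Finset.sum_congr rfl fun d hd => ?_
        rw [if_neg (Finset.ne_of_mem_erase hd)]
      have h8 : ∑ d ∈ K, (Y d \ {f d}).ncard = ∑ d ∈ K, (W d).ncard + K.card := by
        rw [Finset.card_eq_sum_ones, ← Finset.sum_add_distrib]
        exact Finset.sum_congr rfl fun d hd => h.cardD hd
      omega
    · intro d hd
      by_cases hdc : d = c
      · simp only [if_pos hdc]; exact hg.fin.insert v
      · simp only [if_neg hdc]; exact (h.gad d hd).fin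
    · intro d hd
      by_cases hdc : d = c
      · simp only [if_pos hdc]
        refine hg.inc.trans (ins_mono ?_)
        rintro x (hx | hx)
        · exact Or.inr (Or.inr hx)
        · by_cases hxv : x = v
          · exact Or.inr (Or.inl hxv)
          · exact Or.inl (Or.inl (hv x (hg.EU hx) hxv))
      · simp only [if_neg hdc]
        refine (sdiff_subset.trans (h.gad d hd).inc).trans (ins_mono ?_)
        rintro x (hx | hx)
        · exact Or.inr hx
        · exact Or.inl (Or.inl (hEd d hd hdc hx))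
    · intro d hd
      by_cases hdc : d = c
      · simp only [if_pos hdc]
        rw [Set.disjoint_left]
        rintro x (rfl | hx) hx'
        · rcases hx' with hx' | hx'
          · exact hvX hx'
          · exact hvU.2 hx'
        · exact Set.disjoint_left.1 hg.WU hx (h.XU hX hx')
      · simp only [if_neg hdc]
        exact (h.gad d hd).WU.mono_right (h.XU hX)
    · intro d hd d' hd' hdd'
      have hvd : ∀ a ∈ K, v ∉ W a := fun a ha hva =>
        Set.disjoint_left.1 (h.gad a ha).WU hva hvU.1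
      by_cases hdc : d = c
      · have hd'c : d' ≠ c := fun h' => hdd' (hdc.trans h'.symm)
        simp only [if_pos hdc, if_neg hd'c]
        rw [Set.disjoint_left]
        rintro x (rfl | hx) hx'
        · exact hvd d' hd' hx'
        · exact Set.disjoint_left.1 (h.WW c hc d' hd' (Ne.symm hd'c)) hx hx'
      · by_cases hd'c : d' = c
        · simp only [if_neg hdc, if_pos hd'c]
          rw [Set.disjoint_left]
          rintro x hx (rfl | hx')
          · exact hvd d hd hx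
          · exact Set.disjoint_left.1 (h.WW d hd c hc hdc) hx hx'
        · simp only [if_neg hdc, if_neg hd'c]
          exact h.WW d hd d' hd' hdd'
    · intro d hd
      by_cases hdc : d = c
      · simp only [if_pos hdc]; exact hg.attv v hvE
      · simp only [if_neg hdc]; exact (h.gad d hd).att

lemma skew (h : Sys M C T B ends U Sv K Y f W E) [M.Finite]
    (hX : Sub M C T B ends U Sv X) (hE : ∀ c ∈ K, E c ⊆ X) :
    rk (M ／ (C \ B)) (prt T ends Sv X) + ∑ c ∈ K, (Y c \ {f c}).ncard ≤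
      rk (M ／ (C \ (B ∪ K))) (prt T ends Sv X ∪ ⋃ c ∈ K, Y c \ {f c}) := by
  have hOs := h.std.prt_sub hX
  refine CW.sim_skew (D := fun d => Y d \ {f d}) h.std.ind h.KC' h.BK
    (union_subset (hOs.trans h.OT) h.DT) ?_ ?_ ?_
  · exact fun c hc => h.vis0 hX hc (hE c hc)
  · intro c hc d hd hdc hvd
    exact h.crs c hc d hd hdc (CW.vis_mono (union_subset_union hOs sdiff_subset) hvd)
  · have h2 := h.card_prt hX
    have h3 := h.rk_prt hX (Z := ⋃ d ∈ K, Y d \ {f d}) h.DT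
    have h4 := count_fam h.std.bic (X := prt T ends Sv X) (h.finX hX) (prt_in X)
      (h.std.full_U hX) K (fun d => Y d \ {f d}) W (fun d hd => (h.gad d hd).fin) ?_
      (fun d hd => (h.gad d hd).WU.mono_right (h.XU hX)) h.WW
      (fun d hd => (h.gad d hd).att)
    · have h8 : ∑ d ∈ K, (Y d \ {f d}).ncard = ∑ d ∈ K, (W d).ncard + K.card := by
        rw [Finset.card_eq_sum_ones, ← Finset.sum_add_distrib]
        exact Finset.sum_congr rfl fun d hd => h.cardD hd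
      omega
    · intro d hd
      refine (sdiff_subset.trans (h.gad d hd).inc).trans (ins_mono ?_)
      rintro x (hx | hx)
      · exact Or.inr hx
      · exact Or.inl (Or.inl (hE d hd hx))

end Sys

/-- **SIM.** -/
theorem sim [M.Finite] {U Sv : Set V} (hS : Std M C T B ends U Sv) {K : Finset α}
    (hK : (K : Set α) ⊆ C \ B) {Y : α → Set α} {f : α → α} {W E : α → Set V}
    (hG : ∀ c ∈ K, Gad M C T B ends U Sv c (Y c) (f c) (W c) (E c))
    (hW : ∀ c ∈ K, ∀ d ∈ K, c ≠ d → Disjoint (W c) (W d))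
    (hE : ∀ c ∈ K, ∀ d ∈ K, c ≠ d → Disjoint (E c) (E d))
    (hO : ∀ c ∈ K, ¬ Vis M C B (ins T ends U) c)
    (hx : ∀ c ∈ K, ∀ d ∈ K, d ≠ c → ¬ Vis M C B (ins T ends U ∪ Y c) d) :
    simM M C T B ends Sv K Y f ≤m M ∧
    Bic (simM M C T B ends Sv K Y f) (ins T ends (U \ Sv)) ends ∧
    ∀ c ∈ K, f c ∈ (simM M C T B ends Sv K Y f).closure (ins T ends (U \ Sv)) ∧
      f c ∉ ins T ends (U \ Sv) ∧
      Loc (simM M C T B ends Sv K Y f) (ins T ends (U \ Sv)) ends (f c) = E c := by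
  have h : Sys M C T B ends U Sv K Y f W E := ⟨hS, hK, hG, hW, hE, hO, hx⟩
  have h0 : Sub M C T B ends U Sv (U \ Sv) := ⟨subset_rfl, hS.full'⟩
  have h1 : ∀ v, Sub M C T B ends U Sv ((U \ Sv) \ {v}) := fun v => ⟨sdiff_subset, hS.full v⟩
  have hfn : ∀ c ∈ K, f c ∉ ins T ends Sv ∪ ⋃ d ∈ K, Y d \ {f d} := by
    rintro c hc (h2 | h2)
    · exact h.YU hc (hG c hc).fY (ins_mono hS.SU h2)
    · simp only [mem_iUnion] at h2
      obtain ⟨d, hd, h3⟩ := h2
      by_cases hcd : c = d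
      · subst hcd; exact h3.2 rfl
      · exact Set.disjoint_left.1 (h.YY hc hd hcd) (hG c hc).fY h3.1
  have hcl : ∀ X : Set V, (simM M C T B ends Sv K Y f).closure (ins T ends X) =
      (M ／ (C \ (B ∪ K))).closure (prt T ends Sv X ∪ ⋃ d ∈ K, Y d \ {f d}) \
        (ins T ends Sv ∪ ⋃ d ∈ K, Y d \ {f d}) := by
    intro X
    unfold simM prt
    rw [Matroid.contract_closure_eq, ← union_assoc]
  have hmem : ∀ c ∈ K, ∀ X : Set V, Sub M C T B ends U Sv X → E c ⊆ X →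
      f c ∈ (simM M C T B ends Sv K Y f).closure (ins T ends X) := by
    intro c hc X hX hEX
    rw [hcl]
    refine ⟨?_, hfn c hc⟩
    refine Matroid.closure_subset_closure _ ?_ (h.mem hX hc hEX)
    exact union_subset_union_right _ (subset_biUnion_of_mem (u := fun d => Y d \ {f d}) hc)
  have hmin : ∀ (N : Matroid α) (A : Set α), N ／ A ≤m N := by
    intro N A
    have := N.contract_delete_isMinor A ∅
    rwa [Matroid.delete_empty] at this
  have : (simM M C T B ends Sv K Y f).Finite := by unfold simM; infer_instance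
  refine ⟨(hmin _ _).trans (hmin _ _), ?_, ?_⟩
  · refine Bic_of_rk (N := M ／ C) (Bic_sub hS.bic (fun e he => he.1)) ?_ ?_
    · intro e he
      have h2 : e ∈ ins T ends U := ins_mono sdiff_subset he
      refine ⟨⟨(h.OT h2).1, fun h3 => (h.OT h2).2 h3.1⟩, ?_⟩
      rintro (h3 | h3)
      · obtain ⟨w, hw⟩ := exists_mem_ends ends e
        exact (he.2 w hw).2 (h3.2 w hw)
      · simp only [mem_iUnion] at h3
        obtain ⟨d, hd, h4⟩ := h3
        exact h.YU hd h4.1 h2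
    · intro X hX
      have h2 : Disjoint X (ins T ends Sv) := by
        rw [Set.disjoint_left]
        intro e he he'
        obtain ⟨w, hw⟩ := exists_mem_ends ends e
        exact ((hX he).2 w hw).2 (he'.2 w hw)
      have h3 := CW.sim_minor (D := fun d => Y d \ {f d}) h.std.ind h.KC' h.BK
        (O := prt T ends Sv (U \ Sv)) (S := ins T ends Sv) (X := X)
        (union_subset ((hS.prt_sub h0).trans h.OT) h.DT) ?_
        (h.skew h0 (fun c hc => (hG c hc).EU)) subset_union_right (hX.trans subset_union_left)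
        h2 ?_
      · have hXT : X ∪ ins T ends Sv ⊆ M.E \ C :=
          (union_subset_union_left _ hX).trans ((hS.prt_sub h0).trans h.OT)
        have h4 := rk_rob hS.ind hS.BC (subset_union_right.trans hXT) hS.rob
        have h5 := rk_rob hS.ind hS.BC hXT
          (hS.rob.mono hS.ind hS.BC subset_union_right hXT)
        have h6 := rk_skew hS.bic (V₁ := U \ Sv) (V₂ := Sv) disjoint_sdiff_left hX
          (Y := ins T ends Sv) subset_rfl
        unfold simM
        omega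
      · intro d hd hvd
        exact hO d hd (CW.vis_mono (hS.prt_sub h0) hvd)
      · rw [Set.disjoint_left]
        intro e he he'
        simp only [mem_iUnion] at he'
        obtain ⟨d, hd, h4⟩ := he'
        exact h.YU hd h4.1 (ins_mono sdiff_subset (hX he))
  · intro c hc
    refine ⟨hmem c hc _ h0 (hG c hc).EU,
      fun h2 => h.YU hc (hG c hc).fY (ins_mono sdiff_subset h2), ?_⟩
    ext v
    show f c ∉ _ ↔ v ∈ E c
    rw [ins_ins_compl]
    constructor
    · intro h2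
      by_contra h3
      refine h2 (hmem c hc _ (h1 v) ?_)
      exact fun w hw => ⟨(hG c hc).EU hw, fun h4 => h3 ((h4 : w = v) ▸ hw)⟩
    · intro h2 h3
      rw [hcl] at h3
      exact h.not_mem (h1 v) (fun w hw hwv => ⟨hw, hwv⟩) (fun h4 => h4.2 rfl) hc h2 h3.1

/-! ### the two kinds of gadgets -/

lemma Att.mono {Z Z' : Set α} {W W' : Set V} (h : Att ends Z W) (hZ : Z ⊆ Z') (hW : W' ⊆ W) :
    Att ends Z' W' := by
  obtain ⟨g, h1, h2⟩ := h
  exact ⟨g, h1.mono hW, fun w hw => ⟨hZ (h2 w (hW hw)).1, (h2 w (hW hw)).2⟩⟩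

lemma Att.union {Z₁ Z₂ : Set α} {W₁ W₂ : Set V} (h₁ : Att ends Z₁ W₁) (h₂ : Att ends Z₂ W₂)
    (hd : Disjoint Z₁ Z₂) : Att ends (Z₁ ∪ Z₂) (W₁ ∪ W₂) := by
  classical
  obtain ⟨g₁, h1, h2⟩ := h₁
  obtain ⟨g₂, h3, h4⟩ := h₂
  have h5 : ∀ w ∈ W₁ ∪ W₂, w ∉ W₁ → w ∈ W₂ := fun w hw hn => hw.resolve_left hn
  refine ⟨fun w => if w ∈ W₁ then g₁ w else g₂ w, ?_, ?_⟩
  · intro a ha b hb hab
    simp only at hab
    by_cases ha1 : a ∈ W₁ <;> by_cases hb1 : b ∈ W₁
    · rw [if_pos ha1, if_pos hb1] at hab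
      exact h1 ha1 hb1 hab
    · rw [if_pos ha1, if_neg hb1] at hab
      exact absurd (hab ▸ (h2 a ha1).1) (fun h => Set.disjoint_left.1 hd h (h4 b (h5 b hb hb1)).1)
    · rw [if_neg ha1, if_pos hb1] at hab
      exact absurd (hab ▸ (h4 a (h5 a ha ha1)).1) (fun h => Set.disjoint_left.1 hd (h2 b hb1).1 h)
    · rw [if_neg ha1, if_neg hb1] at hab
      exact h3 (h5 a ha ha1) (h5 b hb hb1) hab
  · intro w hw
    by_cases hw1 : w ∈ W₁
    · simp only [if_pos hw1]
      exact ⟨Or.inl (h2 w hw1).1, (h2 w hw1).2⟩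
    · simp only [if_neg hw1]
      exact ⟨Or.inr (h4 w (h5 w hw hw1)).1, (h4 w (h5 w hw hw1)).2⟩

lemma att_of {ι : Type*} [Nonempty ι] {Z : Set α} {I : Set ι} {v : ι → V} {el : ι → α}
    (hel : InjOn el I) (h : ∀ i ∈ I, el i ∈ Z ∧ v i ∈ ends (el i)) : Att ends Z (v '' I) := by
  refine ⟨fun w => el (Function.invFunOn v I w), ?_, ?_⟩
  · intro a ha b hb hab
    have h1 := Function.invFunOn_mem (f := v) (s := I) ha
    have h2 := Function.invFunOn_mem (f := v) (s := I) hb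
    have h3 := hel h1 h2 hab
    rw [← Function.invFunOn_eq (f := v) (s := I) ha, ← Function.invFunOn_eq (f := v) (s := I) hb,
      h3]
  · intro w hw
    have h1 := Function.invFunOn_mem (f := v) (s := I) hw
    have h2 := h _ h1
    rw [Function.invFunOn_eq (f := v) (s := I) hw] at h2
    exact h2

section grid

variable {ends : α → Sym2 (ℕ × ℕ)} {U Sv : Set (ℕ × ℕ)}

/-- a path in `T` -/
structure PT (T : Set α) (ends : α → Sym2 (ℕ × ℕ)) (v : ℕ → ℕ × ℕ) (n : ℕ) : Prop where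
  pos : 1 ≤ n
  inj : InjOn v (Iic n)
  adj : ∀ i < n, ∃ e ∈ T, ends e = s(v i, v (i + 1))

lemma PT.ext {v : ℕ → ℕ × ℕ} {n : ℕ} (h : PT T ends v n) {i j : ℕ} (hi : i < n) (hj : j < n)
    (hij : s(v i, v (i + 1)) = s(v j, v (j + 1))) : i = j := by
  have mi : i ∈ Iic n := hi.le
  have mi' : i + 1 ∈ Iic n := hi
  have mj : j ∈ Iic n := hj.le
  have mj' : j + 1 ∈ Iic n := hj
  rcases Sym2.eq_iff.1 hij with ⟨h1, h2⟩ | ⟨h1, h2⟩
  · exact h.inj mi mj h1
  · have h3 := h.inj mi mj' h1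
    have h4 := h.inj mi' mj h2
    omega

lemma PT.exists_el (hi : InjOn ends T) {v : ℕ → ℕ × ℕ} {n : ℕ} (h : PT T ends v n) :
    ∃ el : ℕ → α, (∀ i < n, el i ∈ T ∧ ends (el i) = s(v i, v (i + 1))) ∧ InjOn el (Iio n) ∧
      pthE T ends v n = el '' Iio n := by
  classical
  have h0 : ∀ i : ℕ, ∃ e, i < n → e ∈ T ∧ ends e = s(v i, v (i + 1)) := by
    intro i
    by_cases hin : i < n
    · obtain ⟨e, he, he'⟩ := h.adj i hin
      exact ⟨e, fun _ => ⟨he, he'⟩⟩
    · obtain ⟨e, he, he'⟩ := h.adj 0 h.pos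
      exact ⟨e, fun h' => absurd h' hin⟩
  choose el hel using h0
  refine ⟨el, hel, ?_, ?_⟩
  · intro i hi' j hj hij
    refine h.ext hi' hj ?_
    rw [← (hel i hi').2, ← (hel j hj).2, hij]
  · ext e
    constructor
    · rintro ⟨he, i, hin, hei⟩
      refine ⟨i, hin, hi (hel i hin).1 he ?_⟩
      rw [hei, (hel i hin).2]
    · rintro ⟨i, hin, rfl⟩
      exact ⟨(hel i hin).1, i, hin, (hel i hin).2⟩

lemma PT.card (hi : InjOn ends T) {v : ℕ → ℕ × ℕ} {n : ℕ} (h : PT T ends v n) :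
    (pthE T ends v n).ncard = n := by
  obtain ⟨el, h1, h2, h3⟩ := h.exists_el hi
  rw [h3, h2.ncard_image, ← Finset.coe_Iio, Set.ncard_coe_finset, Nat.card_Iio]

lemma PT.fin (hi : InjOn ends T) {v : ℕ → ℕ × ℕ} {n : ℕ} (h : PT T ends v n) :
    (pthE T ends v n).Finite := by
  obtain ⟨el, h1, h2, h3⟩ := h.exists_el hi
  rw [h3]
  exact (finite_Iio n).image el

/-- every vertex but the last has the next edge -/
lemma PT.att_lo (hi : InjOn ends T) {v : ℕ → ℕ × ℕ} {n : ℕ} (h : PT T ends v n) :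
    Att ends (pthE T ends v n) (v '' Iio n) := by
  obtain ⟨el, h1, h2, h3⟩ := h.exists_el hi
  rw [h3]
  refine att_of h2 fun i hin => ⟨mem_image_of_mem _ hin, ?_⟩
  rw [(h1 i hin).2]
  exact Sym2.mem_mk_left _ _

/-- every vertex but the first has the previous edge -/
lemma PT.att_hi (hi : InjOn ends T) {v : ℕ → ℕ × ℕ} {n : ℕ} (h : PT T ends v n) :
    Att ends (pthE T ends v n) (v '' Ioc 0 n) := by
  obtain ⟨el, h1, h2, h3⟩ := h.exists_el hi
  rw [h3]
  refine att_of (el := fun i => el (i - 1)) ?_ fun i hin => ?_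
  · intro i hi' j hj hij
    obtain ⟨i1, i2⟩ := hi'
    obtain ⟨j1, j2⟩ := hj
    have := h2 (show i - 1 ∈ Iio n from by simp only [mem_Iio]; omega)
      (show j - 1 ∈ Iio n from by simp only [mem_Iio]; omega) hij
    omega
  · obtain ⟨i1, i2⟩ := hin
    have h4 : i - 1 < n := by omega
    refine ⟨mem_image_of_mem _ h4, ?_⟩
    rw [(h1 _ h4).2]
    have h5 : i - 1 + 1 = i := by omega
    rw [h5]
    exact Sym2.mem_mk_right _ _

/-- the first edge is not needed for the inner vertices -/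
lemma PT.att_fst (hi : InjOn ends T) {v : ℕ → ℕ × ℕ} {n : ℕ} (h : PT T ends v n) :
    ∃ f ∈ pthE T ends v n, Att ends (pthE T ends v n \ {f}) (v '' Ioo 0 n) := by
  obtain ⟨el, h1, h2, h3⟩ := h.exists_el hi
  rw [h3]
  have h0 : (0 : ℕ) ∈ Iio n := h.pos
  refine ⟨el 0, mem_image_of_mem _ h0, ?_⟩
  refine att_of (el := el) (h2.mono fun i hi' => hi'.2) fun i hin => ?_
  refine ⟨⟨mem_image_of_mem _ hin.2, fun h4 => ?_⟩, ?_⟩
  · have := h2 (show i ∈ Iio n from hin.2) h0 h4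
    have := hin.1
    omega
  · rw [(h1 i hin.2).2]
    exact Sym2.mem_mk_left _ _

/-- the last edge is not needed for the inner vertices -/
lemma PT.att_lst (hi : InjOn ends T) {v : ℕ → ℕ × ℕ} {n : ℕ} (h : PT T ends v n) :
    ∃ f ∈ pthE T ends v n, Att ends (pthE T ends v n \ {f}) (v '' Ioo 0 n) := by
  obtain ⟨el, h1, h2, h3⟩ := h.exists_el hi
  rw [h3]
  have hp := h.pos
  have h0 : n - 1 ∈ Iio n := by simp only [mem_Iio]; omega
  refine ⟨el (n - 1), mem_image_of_mem _ h0, ?_⟩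
  have h4 : ∀ i ∈ Ioo 0 n, i - 1 ∈ Iio n := by
    rintro i ⟨i1, i2⟩
    simp only [mem_Iio]
    omega
  refine att_of (el := fun i => el (i - 1)) ?_ fun i hin => ?_
  · intro i hi' j hj hij
    have := h2 (h4 i hi') (h4 j hj) hij
    obtain ⟨i1, i2⟩ := hi'
    obtain ⟨j1, j2⟩ := hj
    omega
  · refine ⟨⟨mem_image_of_mem _ (h4 i hin), fun h5 => ?_⟩, ?_⟩
    · have := h2 (h4 i hin) h0 h5
      obtain ⟨i1, i2⟩ := hin
      omega
    · rw [(h1 _ (h4 i hin)).2]
      obtain ⟨i1, i2⟩ := hin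
      have h5 : i - 1 + 1 = i := by omega
      rw [h5]
      exact Sym2.mem_mk_right _ _

lemma PT.inc {v : ℕ → ℕ × ℕ} {n : ℕ} :
    pthE T ends v n ⊆ ins T ends (v '' Iic n) := by
  rintro e ⟨he, i, hin, hei⟩
  refine ⟨he, fun w hw => ?_⟩
  rw [hei] at hw
  rcases Sym2.mem_iff.1 hw with rfl | rfl
  · exact mem_image_of_mem _ hin.le
  · exact mem_image_of_mem _ hin

lemma PT.disj {v v' : ℕ → ℕ × ℕ} {n n' : ℕ} (h : PT T ends v n)
    (hd : ∀ i < n, 0 < i → ∀ j ≤ n', v i ≠ v' j)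
    (hd' : ∀ j ≤ n', v n ≠ v' j) : Disjoint (pthE T ends v n) (pthE T ends v' n') := by
  rw [Set.disjoint_left]
  rintro e ⟨_, i, hin, hei⟩ ⟨_, j, hjn, hej⟩
  rw [hei] at hej
  have h1 : v (i + 1) = v' j ∨ v (i + 1) = v' (j + 1) := by
    rcases Sym2.eq_iff.1 hej with ⟨h1, h2⟩ | ⟨h1, h2⟩
    · exact Or.inr h2
    · exact Or.inl h2
  rcases Nat.lt_or_ge (i + 1) n with h2 | h2
  · rcases h1 with h1 | h1
    · exact hd _ h2 (Nat.succ_pos _) _ hjn.le h1
    · exact hd _ h2 (Nat.succ_pos _) _ hjn h1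
  · have h3 : i + 1 = n := by omega
    rw [h3] at h1
    rcases h1 with h1 | h1
    · exact hd' _ hjn.le h1
    · exact hd' _ hjn h1

/-- a path in `T` with both ends in `U \ Sv` and no inner vertex in `U` -/
structure OP (T : Set α) (ends : α → Sym2 (ℕ × ℕ)) (U Sv : Set (ℕ × ℕ)) (v : ℕ → ℕ × ℕ)
    (n : ℕ) : Prop where
  two : 2 ≤ n
  inj : InjOn v (Iic n)
  adj : ∀ i < n, ∃ e ∈ T, ends e = s(v i, v (i + 1))
  fst : v 0 ∈ U \ Sv
  lst : v n ∈ U \ Sv
  mid : ∀ i, 0 < i → i < n → v i ∉ U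

lemma OP.pt {v : ℕ → ℕ × ℕ} {n : ℕ} (h : OP T ends U Sv v n) : PT T ends v n :=
  ⟨by have := h.two; omega, h.inj, h.adj⟩

lemma OP.inc {v : ℕ → ℕ × ℕ} {n : ℕ} :
    pthE T ends v n ⊆ ins T ends (v '' Ioo 0 n ∪ {v 0, v n}) := by
  refine PT.inc.trans (ins_mono ?_)
  rintro _ ⟨i, hi, rfl⟩
  have hi' : i ≤ n := hi
  rcases Nat.eq_zero_or_pos i with rfl | h1
  · exact Or.inr (Or.inl rfl)
  · rcases Nat.lt_or_ge i n with h2 | h2
    · exact Or.inl ⟨i, ⟨h1, h2⟩, rfl⟩
    · have : i = n := by omega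
      subst this
      exact Or.inr (Or.inr rfl)

lemma OP.pth (hi : InjOn ends T) {v : ℕ → ℕ × ℕ} {n : ℕ} (h : OP T ends U Sv v n) :
    Pth T ends (pthE T ends v n) (v '' Ioo 0 n) {v 0, v n} :=
  ⟨(finite_Ioo 0 n).image v, OP.inc,
    (h.pt.att_lo hi).mono subset_rfl (image_mono fun _ hi => hi.2)⟩

lemma OP.inn {v : ℕ → ℕ × ℕ} {n : ℕ} (h : OP T ends U Sv v n) {e : α}
    (he : e ∈ pthE T ends v n) : ∃ w ∈ ends e, w ∈ v '' Ioo 0 n := by
  obtain ⟨_, i, hin, hei⟩ := he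
  have := h.two
  rw [hei]
  rcases Nat.eq_zero_or_pos i with rfl | h1
  · exact ⟨v (0 + 1), Sym2.mem_mk_right _ _, 0 + 1, ⟨by omega, by omega⟩, rfl⟩
  · exact ⟨v i, Sym2.mem_mk_left _ _, i, ⟨h1, hin⟩, rfl⟩

lemma OP.cardW {v : ℕ → ℕ × ℕ} {n : ℕ} (h : InjOn v (Iic n)) :
    (v '' Ioo 0 n).ncard = n - 1 := by
  rw [(h.mono fun i hi => hi.2.le).ncard_image, ← Finset.coe_Ioo, Set.ncard_coe_finset,
    Nat.card_Ioo]
  omega

/-- two disjoint unbalanced O-paths -/
theorem Gad.two {c : α} (hi : InjOn ends T) {v v' : ℕ → ℕ × ℕ} {n n' : ℕ}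
    (h : OP T ends U Sv v n) (h' : OP T ends U Sv v' n')
    (hd : ∀ i ≤ n, ∀ j ≤ n', v i ≠ v' j)
    (hv : Vis M C B (ins T ends U ∪ pthE T ends v n) c)
    (hv' : Vis M C B (ins T ends U ∪ pthE T ends v' n') c) :
    ∃ f, Gad M C T B ends U Sv c (pthE T ends v n ∪ pthE T ends v' n') f
      (v '' Ioo 0 n ∪ v' '' Ioo 0 n') {v 0, v n, v' 0, v' n'} := by
  have hdis : Disjoint (pthE T ends v n) (pthE T ends v' n') :=
    h.pt.disj (fun i hin _ j hj => hd i hin.le j hj) (fun j hj => hd n le_rfl j hj)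
  obtain ⟨f, hf, hfa⟩ := h'.pt.att_fst hi
  have hfn : f ∉ pthE T ends v n := fun h1 => Set.disjoint_left.1 hdis h1 hf
  have a1 : Att ends (pthE T ends v n) (v '' Ioo 0 n) :=
    (h.pt.att_lo hi).mono subset_rfl (image_mono fun _ hi => hi.2)
  have a2 : Att ends (pthE T ends v' n') (v' '' Ioo 0 n') :=
    (h'.pt.att_lo hi).mono subset_rfl (image_mono fun _ hi => hi.2)
  have hWd : Disjoint (v '' Ioo 0 n) (v' '' Ioo 0 n') := by
    rw [Set.disjoint_left]
    rintro _ ⟨i, hi', rfl⟩ ⟨j, hj, hij⟩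
    exact hd i hi'.2.le j hj.2.le hij.symm
  have ht := h.two
  have ht' := h'.two
  refine ⟨f, ?_⟩
  constructor
  · exact Or.inr hf
  · exact ((finite_Ioo 0 n).image v).union ((finite_Ioo 0 n').image v')
  · rw [Set.disjoint_left]
    rintro _ (⟨i, hi', rfl⟩ | ⟨i, hi', rfl⟩)
    · exact h.mid i hi'.1 hi'.2
    · exact h'.mid i hi'.1 hi'.2
  · rintro w (rfl | rfl | rfl | rfl)
    exacts [h.fst, h.lst, h'.fst, h'.lst]
  · refine union_subset (OP.inc.trans (ins_mono ?_)) (OP.inc.trans (ins_mono ?_))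
    · rintro w (hw | rfl | rfl)
      · exact Or.inl (Or.inl hw)
      · exact Or.inr (by simp)
      · exact Or.inr (by simp)
    · rintro w (hw | rfl | rfl)
      · exact Or.inl (Or.inr hw)
      · exact Or.inr (by simp)
      · exact Or.inr (by simp)
  · rintro e (he | he)
    · obtain ⟨w, h1, h2⟩ := h.inn he
      exact ⟨w, h1, Or.inl h2⟩
    · obtain ⟨w, h1, h2⟩ := h'.inn he
      exact ⟨w, h1, Or.inr h2⟩
  · rw [Set.ncard_union_eq hdis (h.pt.fin hi) (h'.pt.fin hi), h.pt.card hi, h'.pt.card hi,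
      Set.ncard_union_eq hWd ((finite_Ioo 0 n).image v) ((finite_Ioo 0 n').image v'),
      OP.cardW h.inj, OP.cardW h'.inj]
    omega
  · refine (a1.union hfa (hdis.mono_right sdiff_subset)).mono ?_ subset_rfl
    rintro e (he | he)
    · exact ⟨Or.inl he, fun h1 => hfn ((h1 : e = f) ▸ he)⟩
    · exact ⟨Or.inr he.1, he.2⟩
  · rintro w (rfl | rfl | rfl | rfl)
    · refine ((h.pt.att_lo hi).union a2 hdis).mono subset_rfl ?_
      rintro w (rfl | ⟨i, hi', rfl⟩ | hw)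
      · exact Or.inl ⟨0, h.pt.pos, rfl⟩
      · exact Or.inl ⟨i, hi'.2, rfl⟩
      · exact Or.inr hw
    · refine ((h.pt.att_hi hi).union a2 hdis).mono subset_rfl ?_
      rintro w (rfl | ⟨i, hi', rfl⟩ | hw)
      · exact Or.inl ⟨n, ⟨h.pt.pos, le_rfl⟩, rfl⟩
      · exact Or.inl ⟨i, ⟨hi'.1, hi'.2.le⟩, rfl⟩
      · exact Or.inr hw
    · refine (a1.union (h'.pt.att_lo hi) hdis).mono subset_rfl ?_
      rintro w (rfl | hw | ⟨i, hi', rfl⟩)
      · exact Or.inr ⟨0, h'.pt.pos, rfl⟩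
      · exact Or.inl hw
      · exact Or.inr ⟨i, hi'.2, rfl⟩
    · refine (a1.union (h'.pt.att_hi hi) hdis).mono subset_rfl ?_
      rintro w (rfl | hw | ⟨i, hi', rfl⟩)
      · exact Or.inr ⟨n', ⟨h'.pt.pos, le_rfl⟩, rfl⟩
      · exact Or.inl hw
      · exact Or.inr ⟨i, ⟨hi'.1, hi'.2.le⟩, rfl⟩
  · refine ⟨_, _, _, ?_, h.pth hi, subset_union_left, ?_, hv⟩
    · exact fun e he => ⟨Or.inl he, fun h1 => hfn ((h1 : e = f) ▸ he)⟩
    · rintro w (rfl | rfl) <;> simp
  · rintro w (rfl | rfl | rfl | rfl)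
    · refine ⟨_, _, _, subset_union_right, h'.pth hi, subset_union_right, ?_, ?_, hv'⟩
      · rintro w (rfl | rfl) <;> simp
      · rintro (h1 | h1)
        · exact hd 0 (Nat.zero_le _) 0 (Nat.zero_le _) h1
        · exact hd 0 (Nat.zero_le _) n' le_rfl h1
    · refine ⟨_, _, _, subset_union_right, h'.pth hi, subset_union_right, ?_, ?_, hv'⟩
      · rintro w (rfl | rfl) <;> simp
      · rintro (h1 | h1)
        · exact hd n le_rfl 0 (Nat.zero_le _) h1
        · exact hd n le_rfl n' le_rfl h1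
    · refine ⟨_, _, _, subset_union_left, h.pth hi, subset_union_left, ?_, ?_, hv⟩
      · rintro w (rfl | rfl) <;> simp
      · rintro (h1 | h1)
        · exact hd 0 (Nat.zero_le _) 0 (Nat.zero_le _) h1.symm
        · exact hd n le_rfl 0 (Nat.zero_le _) h1.symm
    · refine ⟨_, _, _, subset_union_left, h.pth hi, subset_union_left, ?_, ?_, hv⟩
      · rintro w (rfl | rfl) <;> simp
      · rintro (h1 | h1)
        · exact hd 0 (Nat.zero_le _) n' le_rfl h1.symm
        · exact hd n le_rfl n' le_rfl h1.symm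

section tri

variable {v : Fin 3 → ℕ → ℕ × ℕ} {n : Fin 3 → ℕ} {w : ℕ × ℕ}

lemma tri_pth (hi : InjOn ends T) (pt : ∀ j, PT T ends (v j) (n j)) (h0 : ∀ j, v j 0 = w)
    {j₁ j₂ : Fin 3} (hd : Disjoint (pthE T ends (v j₁) (n j₁)) (pthE T ends (v j₂) (n j₂))) :
    Pth T ends (pthE T ends (v j₁) (n j₁) ∪ pthE T ends (v j₂) (n j₂))
      (v j₁ '' Iio (n j₁) ∪ v j₂ '' Iio (n j₂)) {v j₁ (n j₁), v j₂ (n j₂)} := by
  refine ⟨((finite_Iio _).image _).union ((finite_Iio _).image _), ?_, ?_⟩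
  · refine union_subset (PT.inc.trans (ins_mono ?_)) (PT.inc.trans (ins_mono ?_))
    · rintro _ ⟨i, hi', rfl⟩
      rcases Nat.lt_or_ge i (n j₁) with h1 | h1
      · exact Or.inl (Or.inl ⟨i, h1, rfl⟩)
      · have h2 : i = n j₁ := le_antisymm hi' h1
        rw [h2]
        exact Or.inr (Or.inl rfl)
    · rintro _ ⟨i, hi', rfl⟩
      rcases Nat.lt_or_ge i (n j₂) with h1 | h1
      · exact Or.inl (Or.inr ⟨i, h1, rfl⟩)
      · have h2 : i = n j₂ := le_antisymm hi' h1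
        rw [h2]
        exact Or.inr (Or.inr rfl)
  · have h2 : Att ends (pthE T ends (v j₂) (n j₂)) (v j₂ '' Ioo 0 (n j₂)) :=
      ((pt j₂).att_lo hi).mono subset_rfl (image_mono fun _ hi => hi.2)
    refine (((pt j₁).att_lo hi).union h2 hd).mono subset_rfl ?_
    rintro x (hx | ⟨i, hi', rfl⟩)
    · exact Or.inl hx
    · rcases Nat.eq_zero_or_pos i with rfl | h3
      · exact Or.inl ⟨0, (pt j₁).pos, by rw [h0, h0]⟩
      · exact Or.inr ⟨i, ⟨h3, hi'⟩, rfl⟩

lemma tri_att (hi : InjOn ends T) (pt : ∀ j, PT T ends (v j) (n j)) (h0 : ∀ j, v j 0 = w)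
    (dE : ∀ j j', j ≠ j' → Disjoint (pthE T ends (v j) (n j)) (pthE T ends (v j') (n j')))
    {k j₁ j₂ : Fin 3} (h1 : k ≠ j₁) (h2 : k ≠ j₂) (h3 : j₁ ≠ j₂)
    (hc : ∀ j : Fin 3, j = k ∨ j = j₁ ∨ j = j₂) :
    Att ends (⋃ j, pthE T ends (v j) (n j))
      (insert (v k (n k)) (⋃ j, v j '' Iio (n j))) := by
  have a2 : Att ends (pthE T ends (v j₂) (n j₂)) (v j₂ '' Ioo 0 (n j₂)) :=
    ((pt j₂).att_lo hi).mono subset_rfl (image_mono fun _ hi => hi.2)
  have a3 := (((pt k).att_hi hi).union ((pt j₁).att_lo hi) (dE k j₁ h1)).union a2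
    (disjoint_union_left.2 ⟨dE k j₂ h2, dE j₁ j₂ h3⟩)
  refine a3.mono ?_ ?_
  · rintro e ((he | he) | he)
    · exact mem_iUnion.2 ⟨k, he⟩
    · exact mem_iUnion.2 ⟨j₁, he⟩
    · exact mem_iUnion.2 ⟨j₂, he⟩
  · rintro x (rfl | hx)
    · exact Or.inl (Or.inl ⟨n k, ⟨(pt k).pos, le_rfl⟩, rfl⟩)
    · obtain ⟨j, i, hij, rfl⟩ := mem_iUnion.1 hx
      have hij' : i < n j := hij
      rcases Nat.eq_zero_or_pos i with rfl | h4
      · exact Or.inl (Or.inr ⟨0, (pt j₁).pos, by rw [h0, h0]⟩)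
      · rcases hc j with rfl | rfl | rfl
        · exact Or.inl (Or.inl ⟨i, ⟨h4, hij'.le⟩, rfl⟩)
        · exact Or.inl (Or.inr ⟨i, hij', rfl⟩)
        · exact Or.inr ⟨i, ⟨h4, hij'⟩, rfl⟩

end tri

/-- bad tripod: center `v j 0`, arms `v j` of length `n j` -/
theorem Gad.tri {c : α} (hi : InjOn ends T) {v : Fin 3 → ℕ → ℕ × ℕ} {n : Fin 3 → ℕ}
    {w : ℕ × ℕ} (h0 : ∀ j, v j 0 = w) (hn : ∀ j, 1 ≤ n j)
    (hinj : ∀ j, InjOn (v j) (Iic (n j)))
    (hdis : ∀ j j', j ≠ j' → ∀ i, 0 < i → i ≤ n j → ∀ i' ≤ n j', v j i ≠ v j' i')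
    (hadj : ∀ j, ∀ i < n j, ∃ e ∈ T, ends e = s(v j i, v j (i + 1)))
    (hfoot : ∀ j, v j (n j) ∈ U \ Sv) (hmid : ∀ j, ∀ i < n j, v j i ∉ U)
    (hv : ∀ j j', j ≠ j' →
      Vis M C B (ins T ends U ∪ (pthE T ends (v j) (n j) ∪ pthE T ends (v j') (n j'))) c) :
    ∃ f, Gad M C T B ends U Sv c (⋃ j, pthE T ends (v j) (n j)) f
      (⋃ j, v j '' Iio (n j)) {v 0 (n 0), v 1 (n 1), v 2 (n 2)} := by
  have pt : ∀ j, PT T ends (v j) (n j) := fun j => ⟨hn j, hinj j, hadj j⟩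
  have dE : ∀ j j', j ≠ j' →
      Disjoint (pthE T ends (v j) (n j)) (pthE T ends (v j') (n j')) := fun j j' hjj =>
    (pt j).disj (fun i hin hi0 i' hi' => hdis j j' hjj i hi0 hin.le i' hi')
      (fun i' hi' => hdis j j' hjj (n j) (hn j) le_rfl i' hi')
  obtain ⟨f, hf, hfa⟩ := (pt 0).att_lst hi
  have hY : (⋃ j, pthE T ends (v j) (n j)) = pthE T ends (v 0) (n 0) ∪
      pthE T ends (v 1) (n 1) ∪ pthE T ends (v 2) (n 2) := by
    ext e
    simp only [mem_iUnion, Fin.exists_fin_succ, Fin.exists_fin_zero, mem_union]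
    tauto
  have hW : (⋃ j, v j '' Iio (n j)) = v 0 '' Iio (n 0) ∪ v 1 '' Ioo 0 (n 1) ∪
      v 2 '' Ioo 0 (n 2) := by
    apply Subset.antisymm
    · intro x hx
      obtain ⟨j, i, hij, rfl⟩ := mem_iUnion.1 hx
      have hij' : i < n j := hij
      rcases Nat.eq_zero_or_pos i with rfl | h4
      · exact Or.inl (Or.inl ⟨0, hn 0, by rw [h0, h0]⟩)
      · have hj : j = 0 ∨ j = 1 ∨ j = 2 := by fin_cases j <;> simp
        rcases hj with rfl | rfl | rfl
        · exact Or.inl (Or.inl ⟨i, hij', rfl⟩)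
        · exact Or.inl (Or.inr ⟨i, ⟨h4, hij'⟩, rfl⟩)
        · exact Or.inr ⟨i, ⟨h4, hij'⟩, rfl⟩
    · rintro x ((⟨i, hij, rfl⟩ | ⟨i, hij, rfl⟩) | ⟨i, hij, rfl⟩)
      · exact mem_iUnion.2 ⟨0, i, hij, rfl⟩
      · exact mem_iUnion.2 ⟨1, i, hij.2, rfl⟩
      · exact mem_iUnion.2 ⟨2, i, hij.2, rfl⟩
  have hf1 : f ∉ pthE T ends (v 1) (n 1) := fun h1 => Set.disjoint_left.1 (dE 0 1 (by decide)) hf h1
  have hf2 : f ∉ pthE T ends (v 2) (n 2) := fun h1 => Set.disjoint_left.1 (dE 0 2 (by decide)) hf h1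
  have hE : ({v 0 (n 0), v 1 (n 1), v 2 (n 2)} : Set (ℕ × ℕ)) = {x | ∃ j, x = v j (n j)} := by
    ext x
    simp only [mem_insert_iff, mem_singleton_iff, mem_ofPred_eq, Fin.exists_fin_succ,
      Fin.exists_fin_zero]
    tauto
  have hfd : ∀ j j', j ≠ j' → v j (n j) ≠ v j' (n j') := fun j j' h =>
    hdis j j' h (n j) (hn j) le_rfl (n j') le_rfl
  -- for every arm there are two others
  have h3 : ∀ k : Fin 3, ∃ j₁ j₂ : Fin 3, k ≠ j₁ ∧ k ≠ j₂ ∧ j₁ ≠ j₂ ∧
      ∀ j : Fin 3, j = k ∨ j = j₁ ∨ j = j₂ := by decide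
  refine ⟨f, ?_⟩
  constructor
  · exact mem_iUnion.2 ⟨0, hf⟩
  · exact finite_iUnion fun j => (finite_Iio _).image _
  · rw [Set.disjoint_left]
    intro x hx
    obtain ⟨j, i, hij, rfl⟩ := mem_iUnion.1 hx
    exact hmid j i hij
  · rw [hE]
    rintro _ ⟨j, rfl⟩
    exact hfoot j
  · rw [hE]
    refine iUnion_subset fun j => PT.inc.trans (ins_mono ?_)
    rintro _ ⟨i, hi', rfl⟩
    rcases Nat.lt_or_ge i (n j) with h1 | h1
    · exact Or.inl (mem_iUnion.2 ⟨j, i, h1, rfl⟩)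
    · have h2 : i = n j := le_antisymm hi' h1
      rw [h2]
      exact Or.inr ⟨j, rfl⟩
  · intro e he
    obtain ⟨j, _, i, hin, hei⟩ := mem_iUnion.1 he
    refine ⟨v j i, ?_, mem_iUnion.2 ⟨j, i, hin, rfl⟩⟩
    rw [hei]
    exact Sym2.mem_mk_left _ _
  · have d1 : Disjoint (v 0 '' Iio (n 0)) (v 1 '' Ioo 0 (n 1)) := by
      rw [Set.disjoint_left]
      rintro _ ⟨i, hi', rfl⟩ ⟨j, hj, hij⟩
      exact hdis 1 0 (by decide) j hj.1 hj.2.le i (le_of_lt hi') hij
    have d2 : Disjoint (v 0 '' Iio (n 0) ∪ v 1 '' Ioo 0 (n 1)) (v 2 '' Ioo 0 (n 2)) := by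
      rw [Set.disjoint_left]
      rintro _ (⟨i, hi', rfl⟩ | ⟨i, hi', rfl⟩) ⟨j, hj, hij⟩
      · exact hdis 2 0 (by decide) j hj.1 hj.2.le i (le_of_lt hi') hij
      · exact hdis 2 1 (by decide) j hj.1 hj.2.le i hi'.2.le hij
    have c0 : (v 0 '' Iio (n 0)).ncard = n 0 := by
      rw [((hinj 0).mono Iio_subset_Iic_self).ncard_image, ← Finset.coe_Iio,
        Set.ncard_coe_finset, Nat.card_Iio]
    rw [hY, hW, Set.ncard_union_eq (disjoint_union_left.2 ⟨dE 0 2 (by decide),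
      dE 1 2 (by decide)⟩) (((pt 0).fin hi).union ((pt 1).fin hi)) ((pt 2).fin hi),
      Set.ncard_union_eq (dE 0 1 (by decide)) ((pt 0).fin hi) ((pt 1).fin hi),
      (pt 0).card hi, (pt 1).card hi, (pt 2).card hi,
      Set.ncard_union_eq d2 (((finite_Iio _).image _).union ((finite_Ioo _ _).image _))
        ((finite_Ioo _ _).image _),
      Set.ncard_union_eq d1 ((finite_Iio _).image _) ((finite_Ioo _ _).image _), c0,
      OP.cardW (hinj 1), OP.cardW (hinj 2)]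
    have := hn 1
    have := hn 2
    omega
  · have a2 : Att ends (pthE T ends (v 2) (n 2)) (v 2 '' Ioo 0 (n 2)) :=
      ((pt 2).att_lo hi).mono subset_rfl (image_mono fun _ hi => hi.2)
    have d0 : Disjoint (pthE T ends (v 0) (n 0) \ {f}) (pthE T ends (v 1) (n 1)) :=
      (dE 0 1 (by decide)).mono_left sdiff_subset
    have d1 : Disjoint (pthE T ends (v 0) (n 0) \ {f} ∪ pthE T ends (v 1) (n 1))
        (pthE T ends (v 2) (n 2)) :=
      disjoint_union_left.2 ⟨(dE 0 2 (by decide)).mono_left sdiff_subset, dE 1 2 (by decide)⟩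
    refine ((hfa.union ((pt 1).att_lo hi) d0).union a2 d1).mono ?_ ?_
    · rw [hY]
      rintro e ((he | he) | he)
      · exact ⟨Or.inl (Or.inl he.1), he.2⟩
      · exact ⟨Or.inl (Or.inr he), fun h1 => hf1 ((h1 : e = f) ▸ he)⟩
      · exact ⟨Or.inr he, fun h1 => hf2 ((h1 : e = f) ▸ he)⟩
    · intro x hx
      obtain ⟨j, i, hij, rfl⟩ := mem_iUnion.1 hx
      have hij' : i < n j := hij
      rcases Nat.eq_zero_or_pos i with rfl | h4
      · exact Or.inl (Or.inr ⟨0, hn 1, by rw [h0, h0]⟩)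
      · have hj : j = 0 ∨ j = 1 ∨ j = 2 := by fin_cases j <;> simp
        rcases hj with rfl | rfl | rfl
        · exact Or.inl (Or.inl ⟨i, ⟨h4, hij'⟩, rfl⟩)
        · exact Or.inl (Or.inr ⟨i, hij', rfl⟩)
        · exact Or.inr ⟨i, ⟨h4, hij'⟩, rfl⟩
  · rw [hE]
    rintro _ ⟨k, rfl⟩
    obtain ⟨j₁, j₂, k1, k2, k3, k4⟩ := h3 k
    exact tri_att hi pt h0 dE k1 k2 k3 k4
  · refine ⟨_, _, _, ?_, tri_pth hi pt h0 (dE 1 2 (by decide)), ?_, ?_, hv 1 2 (by decide)⟩
    · rintro e (he | he)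
      · exact ⟨mem_iUnion.2 ⟨1, he⟩, fun h1 => hf1 ((h1 : e = f) ▸ he)⟩
      · exact ⟨mem_iUnion.2 ⟨2, he⟩, fun h1 => hf2 ((h1 : e = f) ▸ he)⟩
    · exact union_subset (subset_iUnion (fun j => v j '' Iio (n j)) 1)
        (subset_iUnion (fun j => v j '' Iio (n j)) 2)
    · rintro x (rfl | rfl) <;> simp
  · rw [hE]
    rintro _ ⟨k, rfl⟩
    obtain ⟨j₁, j₂, k1, k2, k3, k4⟩ := h3 k
    refine ⟨_, _, _, ?_, tri_pth hi pt h0 (dE j₁ j₂ k3), ?_, ?_, ?_, hv j₁ j₂ k3⟩
    · exact union_subset (subset_iUnion (fun j => pthE T ends (v j) (n j)) j₁)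
        (subset_iUnion (fun j => pthE T ends (v j) (n j)) j₂)
    · exact union_subset (subset_iUnion (fun j => v j '' Iio (n j)) j₁)
        (subset_iUnion (fun j => v j '' Iio (n j)) j₂)
    · rintro x (rfl | rfl)
      · exact ⟨j₁, rfl⟩
      · exact ⟨j₂, rfl⟩
    · rintro (h4 | h4)
      · exact hfd k j₁ k1 h4
      · exact hfd k j₂ k2 h4

end grid

end CWL
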