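import Pool.Agent.CW.Cells
import Pool.Agent.CW.Sim

/-!
# Theorem CW: the straight arms of a bad tripod (for CERT-B, helper43)
-/

open Set BIC BICS
open scoped Matroid

namespace CWL

universe u

variable {α : Type*} {T : Set α} {ends : α → Sym2 (ℕ × ℕ)}

/-- the three directions of a tripod -/
def dirs (e : Fin 4) (j : Fin 3) : Fin 4 := if j = 0 then 0 else if j = 1 then 1 else e

lemma dirs_zero (e : Fin 4) : dirs e 0 = 0 := rfl
lemma dirs_one (e : Fin 4) : dirs e 1 = 1 := rfl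
lemma dirs_two (e : Fin 4) : dirs e 2 = e := rfl

lemma dirs_mem (e : Fin 4) (j : Fin 3) : dirs e j = 0 ∨ dirs e j = 1 ∨ dirs e j = e := by
  fin_cases j
  · exact Or.inl rfl
  · exact Or.inr (Or.inl rfl)
  · exact Or.inr (Or.inr rfl)

lemma dirs_inj {e : Fin 4} (he : e = 2 ∨ e = 3) {j j' : Fin 3} (h : j ≠ j') :
    dirs e j ≠ dirs e j' := by
  rcases he with rfl | rfl <;> revert j j' <;> decide

/-- membership in the square in coordinates -/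
lemma arm_in {q w : ℕ × ℕ} {L : ℕ} (hw : w ∈ csq q L) (d : Fin 4) {i : ℕ}
    (hi : i < armLen q L w d) : arm w d i ∈ csq q L := by
  rw [mem_csq] at hw ⊢
  fin_cases d <;> simp [arm, armLen] at hi ⊢ <;> omega

lemma arm_zero (w : ℕ × ℕ) (d : Fin 4) : arm w d 0 = w := by
  fin_cases d <;> simp [arm]

lemma armLen_pos {q w : ℕ × ℕ} {L : ℕ} (hw : w ∈ csq q L) (d : Fin 4) : 1 ≤ armLen q L w d := by
  rw [mem_csq] at hw
  fin_cases d <;> simp [armLen] <;> omega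

lemma arm_inj {q w : ℕ × ℕ} {L : ℕ} (hw : w ∈ csq q L) (h1 : 1 ≤ q.1) (h2 : 1 ≤ q.2) (d : Fin 4) :
    InjOn (arm w d) (Iic (armLen q L w d)) := by
  rw [mem_csq] at hw
  intro i hi j hj hij
  rw [mem_Iic] at hi hj
  fin_cases d <;> simp [arm, armLen, Prod.ext_iff] at hi hj hij <;> omega

lemma arm_dis {q w : ℕ × ℕ} {L : ℕ} (hw : w ∈ csq q L) (h1 : 1 ≤ q.1) (h2 : 1 ≤ q.2)
    {d d' : Fin 4} (hd : d ≠ d') {i i' : ℕ} (hi0 : 0 < i) (hi : i ≤ armLen q L w d)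
    (hi' : i' ≤ armLen q L w d') : arm w d i ≠ arm w d' i' := by
  rw [mem_csq] at hw
  intro hij
  fin_cases d <;> fin_cases d' <;> first | exact absurd rfl hd |
    (simp [arm, armLen, Prod.ext_iff] at hi hi' hij; omega)

lemma arm_adj {N : ℕ} (hG : Grd T ends 0 0 (2 * N) (2 * N)) {q w : ℕ × ℕ} {L : ℕ}
    (hw : w ∈ csq q L) (h1 : 1 ≤ q.1) (h2 : 1 ≤ q.2) (h3 : q.1 + L + 1 ≤ N)
    (h4 : q.2 + L + 1 ≤ N) (d : Fin 4) {i : ℕ} (hi : i < armLen q L w d) :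
    ∃ e ∈ T, ends e = s(arm w d i, arm w d (i + 1)) := by
  rw [mem_csq] at hw
  refine hG.surj _ _ ?_ ?_ ?_
  · fin_cases d <;> simp [arm, armLen, adj] at hi ⊢ <;> omega
  · simp only [rect, mem_ofPred_eq]
    fin_cases d <;> simp [arm, armLen] at hi ⊢ <;> omega
  · simp only [rect, mem_ofPred_eq]
    fin_cases d <;> simp [arm, armLen] at hi ⊢ <;> omega

/-- the feet in the form of `GlNearH` -/
lemma arm_foot {q w : ℕ × ℕ} {L : ℕ} (hw : w ∈ csq q L) (h1 : 1 ≤ q.1) (h2 : 1 ≤ q.2) :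
    w.2 - 2 * q.2 < 2 * L ∧ w.1 - 2 * q.1 < 2 * L ∧
    arm w 0 (armLen q L w 0) = foot (2 * L) (dbl q) 0 (w.2 - 2 * q.2) ∧
    arm w 1 (armLen q L w 1) = foot (2 * L) (dbl q) 1 (w.2 - 2 * q.2) ∧
    arm w 2 (armLen q L w 2) = foot (2 * L) (dbl q) 2 (w.1 - 2 * q.1) ∧
    arm w 3 (armLen q L w 3) = foot (2 * L) (dbl q) 3 (w.1 - 2 * q.1) := by
  rw [mem_csq] at hw
  refine ⟨by omega, by omega, ?_, ?_, ?_, ?_⟩ <;>
    simp [arm, armLen, foot, dbl, Prod.ext_iff] <;> omega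

/-- the cell of a foot: it is next to the square -/
lemma arm_foot_cell {q w : ℕ × ℕ} {L : ℕ} (hw : w ∈ csq q L) (h1 : 1 ≤ q.1) (h2 : 1 ≤ q.2)
    (d : Fin 4) : (((arm w d (armLen q L w d)).1 / 2, (arm w d (armLen q L w d)).2 / 2) :
      ℕ × ℕ) ∈ rect (q.1 - 1) (q.2 - 1) (L + 2) (L + 2) ∧
    (((arm w d (armLen q L w d)).1 / 2, (arm w d (armLen q L w d)).2 / 2) : ℕ × ℕ) ∉
      rect q.1 q.2 L L := by
  rw [mem_csq] at hw
  simp only [rect, mem_ofPred_eq]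
  fin_cases d <;> simp [arm, armLen] <;> omega

/-- **The tripod in a square of cells**, in the form needed by `Gad.tri`. -/
theorem arms {N : ℕ} (hG : Grd T ends 0 0 (2 * N) (2 * N)) {q w : ℕ × ℕ} {L : ℕ}
    (hw : w ∈ csq q L) (h1 : 1 ≤ q.1) (h2 : 1 ≤ q.2) (h3 : q.1 + L + 1 ≤ N)
    (h4 : q.2 + L + 1 ≤ N) {e : Fin 4} (he : e = 2 ∨ e = 3) :
    (∀ j : Fin 3, arm w (dirs e j) 0 = w) ∧
    (∀ j : Fin 3, 1 ≤ armLen q L w (dirs e j)) ∧
    (∀ j : Fin 3, InjOn (arm w (dirs e j)) (Iic (armLen q L w (dirs e j)))) ∧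
    (∀ j j' : Fin 3, j ≠ j' → ∀ i, 0 < i → i ≤ armLen q L w (dirs e j) →
      ∀ i' ≤ armLen q L w (dirs e j'), arm w (dirs e j) i ≠ arm w (dirs e j') i') ∧
    (∀ j : Fin 3, ∀ i < armLen q L w (dirs e j), ∃ f ∈ T,
      ends f = s(arm w (dirs e j) i, arm w (dirs e j) (i + 1))) ∧
    (∀ j : Fin 3, ∀ i < armLen q L w (dirs e j), arm w (dirs e j) i ∈ csq q L) ∧
    (∃ a < 2 * L, ∃ b < 2 * L,
      ({arm w (dirs e 0) (armLen q L w (dirs e 0)), arm w (dirs e 1) (armLen q L w (dirs e 1)),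
        arm w (dirs e 2) (armLen q L w (dirs e 2))} : Set (ℕ × ℕ)) =
        {foot (2 * L) (dbl q) 0 a, foot (2 * L) (dbl q) 1 a, foot (2 * L) (dbl q) e b}) := by
  refine ⟨fun j => arm_zero w _, fun j => armLen_pos hw _, fun j => arm_inj hw h1 h2 _,
    fun j j' hj i hi0 hi i' hi' => arm_dis hw h1 h2 (dirs_inj he hj) hi0 hi hi',
    fun j i hi => arm_adj hG hw h1 h2 h3 h4 _ hi, fun j i hi => arm_in hw _ hi, ?_⟩
  obtain ⟨f1, f2, f3, f4, f5, f6⟩ := arm_foot hw h1 h2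
  refine ⟨w.2 - 2 * q.2, f1, w.1 - 2 * q.1, f2, ?_⟩
  rw [dirs_zero, dirs_one, dirs_two, f3, f4]
  rcases he with rfl | rfl
  · rw [f5]
  · rw [f6]

end CWL
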