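import Pool.Agent.CW.Defs

/-!
# Theorem CW: certificate rows

`CertC` (two crossing paths) and `CertB` (bad tripods) are the interfaces between the rows
P, G, GL and the rows F and W.
-/

open Set BIC BICS
open scoped Matroid

namespace CWL

universe u

/-- ROW CERT-C (over GlMixH, groupStmt, Sim). Many conflicts `c t`, invisible without the cells
`A t`; the cells of `A t` in the block `X, n` lie in the squares of side `L` with corners in `H t`;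
two of these squares (`p (t, 0)`, `p (t, 1)`) contain unbalanced paths from left to right. -/
def CertC (k : ℕ) : Prop :=
  ∀ κ L b : ℕ, 2 ≤ L → ∃ F m δ : ℕ, ∀ {α : Type u} (M : Matroid α) [M.Finite] (C T B : Set α)
    (ends : α → Sym2 (ℕ × ℕ)) (N : ℕ), Ctx M C T B ends N F → B.ncard ≤ κ →
    ∀ (X : ℕ × ℕ) (n : ℕ), X.1 + n ≤ N → X.2 + n ≤ N →
    ∀ (c : Fin m → α) (A H : Fin m → Finset (ℕ × ℕ)) (p : Fin m × Fin 2 → ℕ × ℕ),
    (∀ t, c t ∈ C \ B) →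
    (∀ t, (A t).card ≤ b ∧ (H t).card ≤ b ∧ ¬ Vis M C B (ins T ends (pun N (A t))) (c t)) →
    (∀ t, ∀ i ∈ A t, i ∈ rect X.1 X.2 n n → ∃ q ∈ H t, i ∈ rect q.1 q.2 L L) →
    (∀ t, ∀ q ∈ H t, ∀ i ∈ rect q.1 q.2 L L, i ∈ A t) →
    (∀ t t', ∀ q ∈ H t, ∀ q' ∈ H t', (t ≠ t' ∨ q ≠ q') → Far δ q L q' L) →
    (∀ t, p t ∈ H t.1) → Function.Injective p →
    (∀ t, X.1 + δ ≤ (p t).1 ∧ X.2 + δ ≤ (p t).2 ∧ (p t).1 + L + δ ≤ X.1 + n ∧
      (p t).2 + L + δ ≤ X.2 + n) →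
    (∀ t, ∃ (v : ℕ → ℕ × ℕ) (l : ℕ), CrossPath (p t) L v l ∧
      Vis M C B (ins T ends (pun N (A t.1)) ∪ pthE T ends v l) (c t.1)) →
    HasUniformMinor M k

/-- straight arms from `w`: `0` left, `1` right, `2` up, `3` down -/
def arm (w : ℕ × ℕ) (d : Fin 4) (i : ℕ) : ℕ × ℕ :=
  if d = 0 then (w.1 - i, w.2) else if d = 1 then (w.1 + i, w.2) else
    if d = 2 then (w.1, w.2 + i) else (w.1, w.2 - i)

/-- number of edges of the arm from `w` out of the square `csq q L` -/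
def armLen (q : ℕ × ℕ) (L : ℕ) (w : ℕ × ℕ) (d : Fin 4) : ℕ :=
  if d = 0 then w.1 + 1 - 2 * q.1 else if d = 1 then 2 * q.1 + 2 * L - w.1 else
    if d = 2 then 2 * q.2 + 2 * L - w.2 else w.2 + 1 - 2 * q.2

/-- ROW CERT-B (over GlNearH, groupStmt, Sim). Many conflicts `c t`, invisible without the cells
`A t`; the cells of `A t` in the block form the square `p t`, which contains a bad tripod. -/
def CertB (k : ℕ) : Prop :=
  ∀ κ L b : ℕ, 2 ≤ L → ∃ F m δ : ℕ, ∀ {α : Type u} (M : Matroid α) [M.Finite] (C T B : Set α)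
    (ends : α → Sym2 (ℕ × ℕ)) (N : ℕ), Ctx M C T B ends N F → B.ncard ≤ κ →
    ∀ (X : ℕ × ℕ) (n : ℕ), X.1 + n ≤ N → X.2 + n ≤ N →
    ∀ (c : Fin m → α) (A : Fin m → Finset (ℕ × ℕ)) (p : Fin m → ℕ × ℕ),
    (∀ t, c t ∈ C \ B) →
    (∀ t, (A t).card ≤ b ∧ ¬ Vis M C B (ins T ends (pun N (A t))) (c t)) →
    (∀ t, ∀ i ∈ rect X.1 X.2 n n, i ∈ A t ↔ i ∈ rect (p t).1 (p t).2 L L) →
    (∀ t t', t ≠ t' → Far δ (p t) L (p t') L) →
    (∀ t, X.1 + δ ≤ (p t).1 ∧ X.2 + δ ≤ (p t).2 ∧ (p t).1 + L + δ ≤ X.1 + n ∧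
      (p t).2 + L + δ ≤ X.2 + n) →
    (∀ t, ∃ w ∈ csq (p t) L, ∃ e : Fin 4, (e = 2 ∨ e = 3) ∧
      ∀ d d' : Fin 4, d ≠ d' → (d = 0 ∨ d = 1 ∨ d = e) → (d' = 0 ∨ d' = 1 ∨ d' = e) →
        Vis M C B (ins T ends (pun N (A t)) ∪ (pthE T ends (arm w d) (armLen (p t) L w d) ∪
          pthE T ends (arm w d') (armLen (p t) L w d'))) (c t)) →
    HasUniformMinor M k

/-- ROW Q, corrected form (helper66): the path may use the ring around the square; it is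
unbalanced over the grid without the cells of `A` and without the ring. -/
def CrossStmt2 : Prop :=
  ∀ {α : Type u} (M : Matroid α) [M.Finite] (C T B : Set α) (ends : α → Sym2 (ℕ × ℕ))
    (N F L : ℕ) (q : ℕ × ℕ) (A A' : Finset (ℕ × ℕ)) (c : α), Ctx M C T B ends N F →
    A'.card ≤ F → 1 ≤ L → 2 ≤ q.1 → 2 ≤ q.2 → q.1 + L + 2 ≤ N → q.2 + L + 2 ≤ N →
    (∀ i ∈ rect (q.1 - 2) (q.2 - 2) (L + 4) (L + 4), i ∈ A ↔ i ∈ rect q.1 q.2 L L) →
    (∀ i, i ∈ A' ↔ i ∈ A ∨ i ∈ rect (q.1 - 1) (q.2 - 1) (L + 2) (L + 2)) →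
    c ∈ C \ B → ¬ Vis M C B (ins T ends (pun N A)) c →
    Vis M C B (ins T ends (pun N A ∪ csq q L)) c →
    ∃ (v : ℕ → ℕ × ℕ) (n : ℕ), CrossPath (q.1 - 1, q.2 - 1) (L + 2) v n ∧
      Vis M C B (ins T ends (pun N A') ∪ pthE T ends v n) c

end CWL
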