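import Pool.Agent.CW.Group
import Pool.Agent.CW.Defs2

/-!
# Theorem CW: unions of cells (helper53)
-/

open Set BIC BICS
open scoped Matroid

namespace CWL

universe u

/-- the vertices of the cells in `Q` -/
def cv (Q : Set (ℕ × ℕ)) : Set (ℕ × ℕ) := {v | (v.1 / 2, v.2 / 2) ∈ Q}

lemma mem_cv {Q : Set (ℕ × ℕ)} {v : ℕ × ℕ} : v ∈ cv Q ↔ (v.1 / 2, v.2 / 2) ∈ Q := Iff.rfl

lemma cv_union (P Q : Set (ℕ × ℕ)) : cv (P ∪ Q) = cv P ∪ cv Q := rfl

lemma cv_inter (P Q : Set (ℕ × ℕ)) : cv (P ∩ Q) = cv P ∩ cv Q := rfl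

lemma cv_sdiff (P Q : Set (ℕ × ℕ)) : cv (P \ Q) = cv P \ cv Q := rfl

lemma cv_mono {P Q : Set (ℕ × ℕ)} (h : P ⊆ Q) : cv P ⊆ cv Q := fun _ hv => h hv

lemma cv_empty : cv ∅ = ∅ := rfl

lemma cv_iUnion {ι : Sort*} (P : ι → Set (ℕ × ℕ)) : cv (⋃ i, P i) = ⋃ i, cv (P i) := by
  ext v; simp only [mem_cv, mem_iUnion]

lemma cl2_eq_cv (i : ℕ × ℕ) : cl2 i = cv {i} := by
  ext v
  rw [mem_cl2, mem_cv, mem_singleton_iff, Prod.ext_iff]
  simp only
  omega

lemma csq_eq_cv (q : ℕ × ℕ) (s : ℕ) : csq q s = cv (rect q.1 q.2 s s) := by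
  ext v
  rw [mem_csq, mem_cv]
  simp only [rect, mem_ofPred_eq]
  omega

lemma pun_eq_cv (N : ℕ) (A : Finset (ℕ × ℕ)) : pun N A = cv (rect 0 0 N N \ A) := by
  rw [pun, csq_eq_cv, cv_sdiff]
  congr 1
  ext v
  simp only [mem_iUnion, cl2_eq_cv, mem_cv, mem_singleton_iff, exists_prop, Finset.mem_coe]
  constructor
  · rintro ⟨i, hi, h⟩
    rw [h]; exact hi
  · intro h
    exact ⟨_, h, rfl⟩

lemma blks_eq_cv (P : Finset (ℕ × ℕ)) : blks P = cv (⋃ p ∈ P, rect p.1 p.2 2 2) := by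
  rw [blks, cv_iUnion]
  congr 1
  funext p
  rw [cv_iUnion]
  congr 1
  funext _
  exact csq_eq_cv p 2

lemma cl2_ncard (i : ℕ × ℕ) : (cl2 i).ncard = 4 := by
  have h1 : cl2 i = ((Finset.Ico (2 * i.1) (2 * i.1 + 2) ×ˢ
      Finset.Ico (2 * i.2) (2 * i.2 + 2) : Finset (ℕ × ℕ)) : Set (ℕ × ℕ)) := by
    ext v
    rw [mem_cl2]
    simp only [Finset.mem_coe, Finset.mem_product, Finset.mem_Ico]
    omega
  rw [h1, Set.ncard_coe_finset, Finset.card_product, Nat.card_Ico, Nat.card_Ico,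
    Nat.add_sub_cancel_left, Nat.add_sub_cancel_left]

lemma cv_finite {Q : Set (ℕ × ℕ)} (hQ : Q.Finite) : (cv Q).Finite := by
  have h1 : cv Q = ⋃ i ∈ Q, cl2 i := by
    ext v
    simp only [mem_iUnion, cl2_eq_cv, mem_cv, mem_singleton_iff, exists_prop]
    constructor
    · intro h
      exact ⟨_, h, rfl⟩
    · rintro ⟨i, hi, h⟩
      rw [h]; exact hi
  rw [h1]
  refine hQ.biUnion fun i _ => ?_
  exact Set.finite_of_ncard_ne_zero (by rw [cl2_ncard]; norm_num)

lemma rect_finite (x y a b : ℕ) : (rect x y a b).Finite := by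
  refine ((Finset.range (x + a) ×ˢ Finset.range (y + b)).finite_toSet).subset ?_
  rintro v ⟨h1, h2, h3, h4⟩
  simp only [Finset.mem_coe, Finset.mem_product, Finset.mem_range]
  omega

lemma cv_biUnion (U : Finset (ℕ × ℕ)) : cv U = ⋃ i ∈ U, cl2 i := by
  ext v
  simp only [mem_iUnion, cl2_eq_cv, mem_cv, mem_singleton_iff, exists_prop, Finset.mem_coe]
  constructor
  · intro h
    exact ⟨_, h, rfl⟩
  · rintro ⟨i, hi, h⟩
    rw [h]; exact hi

lemma cv_ncard (U : Finset (ℕ × ℕ)) : (cv U).ncard = 4 * U.card := by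
  classical
  induction U using Finset.induction_on with
  | empty => simp [cv_empty]
  | insert i U hi ih =>
    rw [Finset.coe_insert, Set.insert_eq, cv_union, Set.ncard_union_eq _
      (cv_finite (Set.finite_singleton i)) (cv_finite U.finite_toSet), ih, ← cl2_eq_cv, cl2_ncard,
      Finset.card_insert_of_notMem hi]
    · ring
    · rw [Set.disjoint_left]
      intro v hv hv'
      rw [mem_cv, mem_singleton_iff] at hv
      rw [mem_cv, hv] at hv'
      exact hi hv'

section rank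

variable {α : Type*} {N : Matroid α} {S : Set α} {ends : α → Sym2 (ℕ × ℕ)} {n : ℕ}

/-- unions of cells have full rank -/
theorem full_cv [N.Finite] (hB : Bic N S ends) (hG : Grd S ends 0 0 (2 * n) (2 * n))
    {Q : Set (ℕ × ℕ)} (hQ : Q ⊆ rect 0 0 n n) : (cv Q).ncard ≤ rk N (ins S ends (cv Q)) := by
  classical
  have hf := (rect_finite 0 0 n n).subset hQ
  obtain ⟨U, rfl⟩ := hf.exists_finset_coe
  have h1 := rk_cellsE hB hG U fun i hi => by
    obtain ⟨h1, h2, h3, h4⟩ := hQ hi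
    omega
  rw [cv_ncard]
  refine h1.trans (rk_mono N ?_)
  rw [cv_biUnion]
  exact cellsE_sub U

/-- the partner in a `4 × 2` rectangle minus a vertex `v` -/
def dpart (v u : ℕ × ℕ) : ℕ × ℕ :=
  if v.1 < 2 then
    (if u.1 < 2 then
      (if u.1 = 1 then (2, u.2) else if v = (1, u.2) then (0, 1 - u.2) else (1, u.2))
    else (if u = (2, 0) then (3, 0) else if u = (3, 0) then (3, 1) else
      if u = (3, 1) then (2, 1) else (2, 0)))
  else
    (if 2 ≤ u.1 then
      (if u.1 = 2 then (1, u.2) else if v = (2, u.2) then (3, 1 - u.2) else (2, u.2))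
    else (if u = (0, 0) then (1, 0) else if u = (1, 0) then (1, 1) else
      if u = (1, 1) then (0, 1) else (0, 0)))

lemma dpart_spec : ∀ v ∈ Finset.range 4 ×ˢ Finset.range 2, ∀ u ∈ Finset.range 4 ×ˢ Finset.range 2,
    u ≠ v → dpart v u ∈ Finset.range 4 ×ˢ Finset.range 2 ∧ dpart v u ≠ v ∧
      ((u.1 = (dpart v u).1 ∧ (u.2 + 1 = (dpart v u).2 ∨ (dpart v u).2 + 1 = u.2)) ∨
        (u.2 = (dpart v u).2 ∧ (u.1 + 1 = (dpart v u).1 ∨ (dpart v u).1 + 1 = u.1))) ∧
      ∀ u' ∈ Finset.range 4 ×ˢ Finset.range 2, u' ≠ v → dpart v u = u' → dpart v u' ≠ u := by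
  decide

/-- a domino minus a vertex has full rank -/
theorem rk_domino [N.Finite] (hB : Bic N S ends) {x y a b : ℕ} (hG : Grd S ends x y a b)
    {x' y' : ℕ} (sw : Bool)
    (hr : ∀ u ∈ Finset.range 4 ×ˢ Finset.range 2,
      (if sw then ((x' + u.2, y' + u.1) : ℕ × ℕ) else (x' + u.1, y' + u.2)) ∈ rect x y a b)
    {v : ℕ × ℕ} (hv : v ∈ Finset.range 4 ×ˢ Finset.range 2) {R : Set (ℕ × ℕ)}
    (hR : ∀ u ∈ Finset.range 4 ×ˢ Finset.range 2, u ≠ v →
      (if sw then ((x' + u.2, y' + u.1) : ℕ × ℕ) else (x' + u.1, y' + u.2)) ∈ R) :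
    7 ≤ rk N (ins S ends R) := by
  classical
  set pt : ℕ × ℕ → ℕ × ℕ := fun u => if sw then (x' + u.2, y' + u.1) else (x' + u.1, y' + u.2)
    with hpt
  set U : Finset (ℕ × ℕ) := (Finset.range 4 ×ˢ Finset.range 2).erase v with hU
  have hUc : U.card = 7 := by
    rw [hU, Finset.card_erase_of_mem hv, Finset.card_product, Finset.card_range,
      Finset.card_range]
  have hmem : ∀ u ∈ U, u ≠ v ∧ u ∈ Finset.range 4 ×ˢ Finset.range 2 := by
    intro u hu
    exact Finset.mem_erase.1 hu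
  have hpinj : Function.Injective pt := by
    rintro ⟨i, j⟩ ⟨i', j'⟩ h
    simp only [hpt] at h
    cases sw <;> simp only [Prod.mk.injEq, if_true, if_false, Bool.false_eq_true] at h ⊢ <;> omega
  have H : ∀ u ∈ U, ∃ e, e ∈ S ∧ ends e = s(pt u, pt (dpart v u)) := by
    intro u hu
    obtain ⟨h1, h2⟩ := hmem u hu
    obtain ⟨h3, h4, h5, h6⟩ := dpart_spec v hv u h2 h1
    have h7 : adj (pt u) (pt (dpart v u)) := by
      simp only [hpt, adj]
      cases sw <;> simp only [if_true, if_false, Bool.false_eq_true] <;> omega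
    obtain ⟨e, he, he'⟩ := hG.surj _ _ h7 (hr u h2) (hr _ h3)
    exact ⟨e, he, he'⟩
  have hne : Nonempty α := by
    have : U.Nonempty := by
      rw [← Finset.card_pos, hUc]; norm_num
    obtain ⟨u, hu⟩ := this
    exact ⟨(H u hu).choose⟩
  choose! g hg using H
  rw [← hUc]
  refine rk_ge_card hB (fun e he => he.1) (p := pt) hpinj.injOn (g := g) ?_ ?_
  · intro u hu u' hu' h
    have e1 := (hg _ hu).2
    have e2 := (hg _ hu').2
    rw [h, e2] at e1
    rw [Sym2.eq_iff] at e1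
    obtain ⟨h1, h2⟩ := hmem u hu
    obtain ⟨h1', h2'⟩ := hmem u' hu'
    obtain ⟨h3, h4, h5, h6⟩ := dpart_spec v hv u h2 h1
    rcases e1 with ⟨e1, _⟩ | ⟨e1, e2⟩
    · exact (hpinj e1).symm
    · exact absurd (hpinj e2) (h6 u' h2' h1' (hpinj e1).symm)
  · intro u hu
    obtain ⟨h1, h2⟩ := hmem u hu
    obtain ⟨h3, h4, h5, h6⟩ := dpart_spec v hv u h2 h1
    refine ⟨⟨(hg u hu).1, ?_⟩, ?_⟩
    · intro w hw
      rw [(hg u hu).2] at hw
      rcases Sym2.mem_iff.1 hw with rfl | rfl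
      · exact hR u h2 h1
      · exact hR _ h3 h4
    · rw [(hg u hu).2]
      exact Sym2.mem_mk_left _ _

/-- unions of cells have full rank, also without one vertex, if every cell has a neighbour -/
theorem full_cv' [N.Finite] (hB : Bic N S ends) (hG : Grd S ends 0 0 (2 * n) (2 * n))
    {Q : Set (ℕ × ℕ)} (hQ : Q ⊆ rect 0 0 n n) (hn : ∀ i ∈ Q, ∃ j ∈ Q, adj i j) (v : ℕ × ℕ) :
    (cv Q \ {v}).ncard ≤ rk N (ins S ends (cv Q \ {v})) := by
  classical
  by_cases hv : v ∈ cv Q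
  swap
  · rw [sdiff_singleton_eq_self hv]
    exact full_cv hB hG hQ
  have hf := (rect_finite 0 0 n n).subset hQ
  obtain ⟨U, rfl⟩ := hf.exists_finset_coe
  set i : ℕ × ℕ := (v.1 / 2, v.2 / 2) with hi
  have hiU : i ∈ U := hv
  obtain ⟨j, hj, hij⟩ := hn i hiU
  have hj : j ∈ U := hj
  have hne : i ≠ j := by
    intro h
    rw [← h] at hij
    rcases hij with ⟨_, h | h⟩ | ⟨_, h | h⟩ <;> omega
  set U' : Finset (ℕ × ℕ) := (U.erase i).erase j with hU'
  have hcard : U.card = U'.card + 2 := by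
    have h1 : j ∈ U.erase i := Finset.mem_erase.2 ⟨hne.symm, hj⟩
    have h2 := Finset.card_erase_add_one h1
    have h3 := Finset.card_erase_add_one hiU
    rw [hU']
    omega
  have h1 : (cv (U : Set (ℕ × ℕ)) \ {v}).ncard + 1 = 4 * U.card := by
    rw [← cv_ncard]
    exact Set.ncard_sdiff_singleton_add_one hv (cv_finite U.finite_toSet)
  have h2 := rk_cellsE hB hG U' fun k hk => by
    have hk' : k ∈ U := Finset.mem_of_mem_erase (Finset.mem_of_mem_erase hk)
    obtain ⟨h1, h2, h3, h4⟩ := hQ hk'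
    omega
  have hiR : i ∈ rect 0 0 n n := hQ hiU
  have hjR : j ∈ rect 0 0 n n := hQ hj
  -- the domino
  have h3 : 7 ≤ rk N (ins S ends (cv {i, j} \ {v})) := by
    have hadj : (i.1 = j.1 ∧ (i.2 + 1 = j.2 ∨ j.2 + 1 = i.2)) ∨
      (i.2 = j.2 ∧ (i.1 + 1 = j.1 ∨ j.1 + 1 = i.1)) := hij
    obtain ⟨r1, r2, r3, r4⟩ := hiR
    obtain ⟨s1, s2, s3, s4⟩ := hjR
    have hi1 : i.1 = v.1 / 2 := rfl
    have hi2 : i.2 = v.2 / 2 := rfl
    have key : ∀ w : ℕ × ℕ, ((w.1 / 2 = i.1 ∧ w.2 / 2 = i.2) ∨ (w.1 / 2 = j.1 ∧ w.2 / 2 = j.2)) →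
        w ≠ v → w ∈ cv {i, j} \ {v} := by
      intro w hw hwv
      refine ⟨?_, hwv⟩
      rw [mem_cv]
      rcases hw with ⟨a, b⟩ | ⟨a, b⟩
      · exact Or.inl (Prod.ext a b)
      · exact Or.inr (Prod.ext a b)
    by_cases hcase : i.1 = j.1
    · -- vertical domino
      refine rk_domino hB hG (x' := 2 * i.1) (y' := 2 * min i.2 j.2) true ?_
        (v := (v.2 - 2 * min i.2 j.2, v.1 - 2 * i.1)) ?_ ?_
      · intro u hu
        rw [Finset.mem_product, Finset.mem_range, Finset.mem_range] at hu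
        simp only [if_true, rect, mem_ofPred_eq]
        omega
      · rw [Finset.mem_product, Finset.mem_range, Finset.mem_range]
        simp only
        omega
      · intro u hu huv
        rw [Finset.mem_product, Finset.mem_range, Finset.mem_range] at hu
        simp only [if_true]
        apply key
        · simp only
          omega
        · intro h
          apply huv
          rw [← h]
          ext <;> simp only <;> omega
    · -- horizontal domino
      refine rk_domino hB hG (x' := 2 * min i.1 j.1) (y' := 2 * i.2) false ?_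
        (v := (v.1 - 2 * min i.1 j.1, v.2 - 2 * i.2)) ?_ ?_
      · intro u hu
        rw [Finset.mem_product, Finset.mem_range, Finset.mem_range] at hu
        simp only [if_false, Bool.false_eq_true, rect, mem_ofPred_eq]
        omega
      · rw [Finset.mem_product, Finset.mem_range, Finset.mem_range]
        simp only
        omega
      · intro u hu huv
        rw [Finset.mem_product, Finset.mem_range, Finset.mem_range] at hu
        simp only [if_false, Bool.false_eq_true]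
        apply key
        · simp only
          omega
        · intro h
          apply huv
          rw [← h]
          ext <;> simp only <;> omega
  have hd : Disjoint (cv (U' : Set (ℕ × ℕ))) (cv {i, j} \ {v}) := by
    rw [Set.disjoint_left]
    rintro w hw ⟨hw', _⟩
    rw [mem_cv] at hw hw'
    have hw2 : (w.1 / 2, w.2 / 2) ∈ U' := hw
    rw [hU', Finset.mem_erase, Finset.mem_erase] at hw2
    rcases hw' with h | h
    · exact hw2.2.1 h
    · exact hw2.1 h
  have h4 := rk_skew hB hd (X := cellsE S ends U') (Y := ins S ends (cv {i, j} \ {v}))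
    (by rw [cv_biUnion]; exact cellsE_sub U') (Subset.refl _)
  have h5 : rk N (cellsE S ends U' ∪ ins S ends (cv {i, j} \ {v})) ≤
      rk N (ins S ends (cv (U : Set (ℕ × ℕ)) \ {v})) := by
    refine rk_mono N (union_subset ((cellsE_sub U').trans (ins_mono ?_)) (ins_mono ?_))
    · rw [← cv_biUnion]
      intro w hw
      have hw2 : (w.1 / 2, w.2 / 2) ∈ U' := hw
      rw [hU', Finset.mem_erase, Finset.mem_erase] at hw2
      refine ⟨hw2.2.2, ?_⟩
      rintro rfl
      exact hw2.2.1 rfl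
    · rintro w ⟨hw, hw'⟩
      refine ⟨?_, hw'⟩
      rw [mem_cv] at hw ⊢
      rcases hw with h | h
      · rw [h]; exact hiU
      · rw [(h : _ = j)]; exact hj
  omega

/-- elements in a union of two vertex sets without edges between them -/
theorem ins_union_of_nadj {x y a b : ℕ} (hG : Grd S ends x y a b) {V W : Set (ℕ × ℕ)}
    (h : ∀ v ∈ V, ∀ w ∈ W, v ∉ W → w ∉ V → ¬ adj v w) :
    ins S ends (V ∪ W) = ins S ends V ∪ ins S ends W := by
  apply Subset.antisymm
  · rintro e ⟨he, he'⟩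
    obtain ⟨p, q, h1, h2, _, _⟩ := hG.mem e he
    have hp := he' p (by rw [h1]; simp)
    have hq := he' q (by rw [h1]; simp)
    have key : (p ∈ V ∧ q ∈ V) ∨ (p ∈ W ∧ q ∈ W) := by
      by_contra hcon
      have hsymm : adj q p := by
        rcases h2 with ⟨a, b | b⟩ | ⟨a, b | b⟩
        · exact Or.inl ⟨a.symm, Or.inr b⟩
        · exact Or.inl ⟨a.symm, Or.inl b⟩
        · exact Or.inr ⟨a.symm, Or.inr b⟩
        · exact Or.inr ⟨a.symm, Or.inl b⟩
      by_cases hpV : p ∈ V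
      · by_cases hqV : q ∈ V
        · exact hcon (Or.inl ⟨hpV, hqV⟩)
        · have hqW : q ∈ W := hq.resolve_left hqV
          by_cases hpW : p ∈ W
          · exact hcon (Or.inr ⟨hpW, hqW⟩)
          · exact h p hpV q hqW hpW hqV h2
      · have hpW : p ∈ W := hp.resolve_left hpV
        by_cases hqW : q ∈ W
        · exact hcon (Or.inr ⟨hpW, hqW⟩)
        · have hqV : q ∈ V := hq.resolve_right hqW
          exact h q hqV p hpW hqW hpV hsymm
    rcases key with ⟨a, b⟩ | ⟨a, b⟩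
    · refine Or.inl ⟨he, fun v hv => ?_⟩
      rw [h1] at hv
      rcases Sym2.mem_iff.1 hv with rfl | rfl <;> assumption
    · refine Or.inr ⟨he, fun v hv => ?_⟩
      rw [h1] at hv
      rcases Sym2.mem_iff.1 hv with rfl | rfl <;> assumption
  · exact union_subset (ins_mono subset_union_left) (ins_mono subset_union_right)

/-- two vertex sets which do not touch -/
theorem ins_union_cv {x y a b : ℕ} (hG : Grd S ends x y a b) {P Q : Set (ℕ × ℕ)}
    (h : ∀ i ∈ P, ∀ j ∈ Q, i ∉ Q → j ∉ P → ¬ adj i j) :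
    ins S ends (cv P ∪ cv Q) = ins S ends (cv P) ∪ ins S ends (cv Q) := by
  refine ins_union_of_nadj hG ?_
  intro v hv w hw hv' hw' hvw
  rw [mem_cv] at hv hw hv' hw'
  refine h _ hv _ hw hv' hw' ?_
  have hne : ((v.1 / 2, v.2 / 2) : ℕ × ℕ) ≠ (w.1 / 2, w.2 / 2) := by
    intro h
    rw [h] at hv'
    exact hv' hw
  have h3 : v.1 / 2 ≠ w.1 / 2 ∨ v.2 / 2 ≠ w.2 / 2 := by
    by_contra hc
    push Not at hc
    exact hne (Prod.ext hc.1 hc.2)
  unfold adj at hvw ⊢
  simp only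
  omega

/-- the elements inside a vertex set form a grid on this set -/
theorem grdU_ins {x y a b : ℕ} (hG : Grd S ends x y a b) {U : Set (ℕ × ℕ)}
    (hU : U ⊆ rect x y a b) : GrdU (ins S ends U) ends U where
  inj := hG.inj.mono fun _ he => he.1
  mem := by
    rintro e ⟨he, he'⟩
    obtain ⟨p, q, h1, h2, _, _⟩ := hG.mem e he
    exact ⟨p, q, h1, h2, he' p (by rw [h1]; simp), he' q (by rw [h1]; simp)⟩
  surj := by
    intro p q hpq hp hq
    obtain ⟨e, he, he'⟩ := hG.surj p q hpq (hU hp) (hU hq)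
    refine ⟨e, ⟨he, ?_⟩, he'⟩
    intro v hv
    rw [he'] at hv
    rcases Sym2.mem_iff.1 hv with rfl | rfl <;> assumption

end rank

/-- `x ↦ 2 x` on corners -/
def dbl (q : ℕ × ℕ) : ℕ × ℕ := (2 * q.1, 2 * q.2)

lemma dbl_inj : Function.Injective dbl := by
  rintro ⟨a, b⟩ ⟨c, d⟩ h
  simp only [dbl, Prod.mk.injEq] at h ⊢
  omega

/-- the form of the vertex set in `GlNearH` and `GlMixH` -/
theorem csq_sdiff_eq [DecidableEq (ℕ × ℕ)] (X : ℕ × ℕ) (n L : ℕ) (H : Finset (ℕ × ℕ)) :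
    csq X n \ ⋃ q ∈ H, csq q L = rect (dbl X).1 (dbl X).2 (2 * n) (2 * n) \
      ⋃ q ∈ H.image dbl, rect q.1 q.2 (2 * L) (2 * L) := by
  congr 1
  ext v
  simp only [mem_iUnion, exists_prop, Finset.mem_image]
  constructor
  · rintro ⟨q, hq, h⟩
    exact ⟨dbl q, ⟨q, hq, rfl⟩, h⟩
  · rintro ⟨_, ⟨q, hq, rfl⟩, h⟩
    exact ⟨q, hq, h⟩

lemma Far.dbl {δ : ℕ} {p q : ℕ × ℕ} {s t : ℕ} (h : Far δ p s q t) :
    Far (2 * δ) (CWL.dbl p) (2 * s) (CWL.dbl q) (2 * t) := by
  unfold Far CWL.dbl at *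
  simp only
  omega

lemma Far.mono {δ δ' : ℕ} (h : δ ≤ δ') {p q : ℕ × ℕ} {s t : ℕ} (hf : Far δ' p s q t) :
    Far δ p s q t := by
  unfold Far at *
  omega

lemma Far.symm {δ : ℕ} {p q : ℕ × ℕ} {s t : ℕ} (h : Far δ p s q t) : Far δ q t p s := by
  unfold Far at *
  omega

section ctx

variable {α : Type*} {M : Matroid α} {C T B : Set α} {ends : α → Sym2 (ℕ × ℕ)} {N F : ℕ}

/-- everything which contains all but `F` cells sees `B` -/
theorem Ctx.rob_of [M.Finite] (h : Ctx M C T B ends N F) {A : Finset (ℕ × ℕ)} (hA : A.card ≤ F)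
    {Y : Set α} (hY : ins T ends (pun N A) ⊆ Y) (hYT : Y ⊆ T) :
    rk (M ／ C) Y + B.ncard ≤ rk (M ／ (C \ B)) Y := by
  have h1 := h.rob A hA
  have h2 := quo_conf (B := B) h.ind h.sub _ _ hY hYT
  omega

end ctx

end CWL
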