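import Pool.Agent.CW.CertBase

/-!
# Row CERT-B of Theorem CW: bad tripods
-/

open Set BIC BICS
open scoped Matroid

namespace CWL

universe u

/-! ### straight arms -/

section arm

variable {q w : ℕ × ℕ} {L : ℕ}

lemma arm_0 (w : ℕ × ℕ) (i : ℕ) : arm w 0 i = (w.1 - i, w.2) := rfl
lemma arm_1 (w : ℕ × ℕ) (i : ℕ) : arm w 1 i = (w.1 + i, w.2) := rfl
lemma arm_2 (w : ℕ × ℕ) (i : ℕ) : arm w 2 i = (w.1, w.2 + i) := rfl
lemma arm_3 (w : ℕ × ℕ) (i : ℕ) : arm w 3 i = (w.1, w.2 - i) := rfl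
lemma armLen_0 (q : ℕ × ℕ) (L : ℕ) (w : ℕ × ℕ) : armLen q L w 0 = w.1 + 1 - 2 * q.1 := rfl
lemma armLen_1 (q : ℕ × ℕ) (L : ℕ) (w : ℕ × ℕ) : armLen q L w 1 = 2 * q.1 + 2 * L - w.1 := rfl
lemma armLen_2 (q : ℕ × ℕ) (L : ℕ) (w : ℕ × ℕ) : armLen q L w 2 = 2 * q.2 + 2 * L - w.2 := rfl
lemma armLen_3 (q : ℕ × ℕ) (L : ℕ) (w : ℕ × ℕ) : armLen q L w 3 = w.2 + 1 - 2 * q.2 := rfl

lemma fin4_cases (d : Fin 4) : d = 0 ∨ d = 1 ∨ d = 2 ∨ d = 3 := by
  fin_cases d <;> simp

lemma mem_csq' : w ∈ csq q L ↔ 2 * q.1 ≤ w.1 ∧ w.1 < 2 * q.1 + 2 * L ∧ 2 * q.2 ≤ w.2 ∧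
    w.2 < 2 * q.2 + 2 * L := Iff.rfl

lemma armLen_pos (hw : w ∈ csq q L) (d : Fin 4) : 1 ≤ armLen q L w d := by
  rw [mem_csq'] at hw
  rcases fin4_cases d with rfl | rfl | rfl | rfl
  · rw [armLen_0]; omega
  · rw [armLen_1]; omega
  · rw [armLen_2]; omega
  · rw [armLen_3]; omega

lemma arm_start (w : ℕ × ℕ) (d : Fin 4) : arm w d 0 = w := by
  rcases fin4_cases d with rfl | rfl | rfl | rfl <;> rfl

lemma arm_in (hw : w ∈ csq q L) {d : Fin 4} {i : ℕ} (hi : i < armLen q L w d) :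
    arm w d i ∈ csq q L := by
  rw [mem_csq'] at hw ⊢
  rcases fin4_cases d with rfl | rfl | rfl | rfl
  · rw [armLen_0] at hi; rw [arm_0]; dsimp only; omega
  · rw [armLen_1] at hi; rw [arm_1]; dsimp only; omega
  · rw [armLen_2] at hi; rw [arm_2]; dsimp only; omega
  · rw [armLen_3] at hi; rw [arm_3]; dsimp only; omega

lemma arm_inj (hw : w ∈ csq q L) (h1 : 1 ≤ q.1) (h2 : 1 ≤ q.2) (d : Fin 4) :
    InjOn (arm w d) (Iic (armLen q L w d)) := by
  rw [mem_csq'] at hw
  intro i hi j hj hij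
  rw [mem_Iic] at hi hj
  have h3 := congrArg Prod.fst hij
  have h4 := congrArg Prod.snd hij
  rcases fin4_cases d with rfl | rfl | rfl | rfl
  · rw [armLen_0] at hi hj; rw [arm_0, arm_0] at h3; dsimp only at h3; omega
  · rw [arm_1, arm_1] at h3; dsimp only at h3; omega
  · rw [arm_2, arm_2] at h4; dsimp only at h4; omega
  · rw [armLen_3] at hi hj; rw [arm_3, arm_3] at h4; dsimp only at h4; omega

lemma arm_adj (hw : w ∈ csq q L) (h1 : 1 ≤ q.1) (h2 : 1 ≤ q.2) {d : Fin 4} {i : ℕ}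
    (hi : i < armLen q L w d) : adj (arm w d i) (arm w d (i + 1)) := by
  rw [mem_csq'] at hw
  unfold adj
  rcases fin4_cases d with rfl | rfl | rfl | rfl
  · rw [armLen_0] at hi; rw [arm_0, arm_0]; dsimp only; omega
  · rw [arm_1, arm_1]; dsimp only; omega
  · rw [arm_2, arm_2]; dsimp only; omega
  · rw [armLen_3] at hi; rw [arm_3, arm_3]; dsimp only; omega

lemma arm_disj (hw : w ∈ csq q L) (h1 : 1 ≤ q.1) (h2 : 1 ≤ q.2) {d d' : Fin 4} (hd : d ≠ d')
    {i i' : ℕ} (h0 : 0 < i) (hi : i ≤ armLen q L w d) (hi' : i' ≤ armLen q L w d') :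
    arm w d i ≠ arm w d' i' := by
  rw [mem_csq'] at hw
  intro h
  have h3 := congrArg Prod.fst h
  have h4 := congrArg Prod.snd h
  rcases fin4_cases d with rfl | rfl | rfl | rfl <;>
    rcases fin4_cases d' with rfl | rfl | rfl | rfl
  all_goals first
    | exact hd rfl
    | (simp only [arm_0, arm_1, arm_2, arm_3, armLen_0, armLen_1, armLen_2, armLen_3] at *
       omega)

/-- the foot of an arm -/
lemma arm_foot_0 (hw : w ∈ csq q L) (h1 : 1 ≤ q.1) :
    arm w 0 (armLen q L w 0) = foot (2 * L) (dbl q) 0 (w.2 - 2 * q.2) := by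
  rw [mem_csq'] at hw
  rw [armLen_0, arm_0]
  show _ = ((dbl q).1 - 1, (dbl q).2 + (w.2 - 2 * q.2))
  simp only [dbl, Prod.mk.injEq]
  omega

lemma arm_foot_1 (hw : w ∈ csq q L) :
    arm w 1 (armLen q L w 1) = foot (2 * L) (dbl q) 1 (w.2 - 2 * q.2) := by
  rw [mem_csq'] at hw
  rw [armLen_1, arm_1]
  show _ = ((dbl q).1 + 2 * L, (dbl q).2 + (w.2 - 2 * q.2))
  simp only [dbl, Prod.mk.injEq]
  omega

lemma arm_foot_2 (hw : w ∈ csq q L) :
    arm w 2 (armLen q L w 2) = foot (2 * L) (dbl q) 2 (w.1 - 2 * q.1) := by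
  rw [mem_csq'] at hw
  rw [armLen_2, arm_2]
  show _ = ((dbl q).1 + (w.1 - 2 * q.1), (dbl q).2 + 2 * L)
  simp only [dbl, Prod.mk.injEq]
  omega

lemma arm_foot_3 (hw : w ∈ csq q L) (h2 : 1 ≤ q.2) :
    arm w 3 (armLen q L w 3) = foot (2 * L) (dbl q) 3 (w.1 - 2 * q.1) := by
  rw [mem_csq'] at hw
  rw [armLen_3, arm_3]
  show _ = ((dbl q).1 + (w.1 - 2 * q.1), (dbl q).2 - 1)
  simp only [dbl, Prod.mk.injEq]
  omega

/-- the cell of the foot -/
lemma foot_cell (hw : w ∈ csq q L) (h1 : 1 ≤ q.1) (h2 : 1 ≤ q.2) (d : Fin 4) :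
    ∃ i : ℕ × ℕ, ((arm w d (armLen q L w d)).1 / 2, (arm w d (armLen q L w d)).2 / 2) = i ∧
      i ∉ rect q.1 q.2 L L ∧ q.1 ≤ i.1 + 1 ∧ i.1 ≤ q.1 + L ∧ q.2 ≤ i.2 + 1 ∧ i.2 ≤ q.2 + L := by
  refine ⟨_, rfl, ?_⟩
  rw [mem_csq'] at hw
  rw [mem_rect]
  rcases fin4_cases d with rfl | rfl | rfl | rfl
  · rw [armLen_0, arm_0]; dsimp only; omega
  · rw [armLen_1, arm_1]; dsimp only; omega
  · rw [armLen_2, arm_2]; dsimp only; omega
  · rw [armLen_3, arm_3]; dsimp only; omega

end arm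

/-- the directions of the tripod -/
def dirs (e : Fin 4) (j : Fin 3) : Fin 4 := if j = 0 then 0 else if j = 1 then 1 else e

lemma dirs_ne {e : Fin 4} (he : e = 2 ∨ e = 3) {j j' : Fin 3} (h : j ≠ j') :
    dirs e j ≠ dirs e j' := by
  rcases he with rfl | rfl <;> fin_cases j <;> fin_cases j' <;> simp [dirs] at h ⊢

lemma dirs_mem {e : Fin 4} (j : Fin 3) : dirs e j = 0 ∨ dirs e j = 1 ∨ dirs e j = e := by
  fin_cases j <;> simp [dirs]

section gad

variable {α : Type*} {M : Matroid α} {C T B : Set α} {ends : α → Sym2 (ℕ × ℕ)} {N F : ℕ}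
  {X : ℕ × ℕ} {n L δ m : ℕ} {c : Fin m → α} {A : Fin m → Finset (ℕ × ℕ)} {p : Fin m → ℕ × ℕ}
  {P R : Finset (ℕ × ℕ)}

/-- the interior of the block -/
structure Intr (X : ℕ × ℕ) (n L δ : ℕ) (q : ℕ × ℕ) : Prop where
  a : X.1 + δ ≤ q.1
  b : X.2 + δ ≤ q.2
  c : q.1 + L + δ ≤ X.1 + n
  d : q.2 + L + δ ≤ X.2 + n

/-- the foot of an arm lies in the block and outside of all squares -/
lemma foot_mem (h : Base M C T B ends N F X n L δ m c A (fun t => {p t}) P R) (hδ : 3 ≤ δ)
    {t : Fin m} (hi : Intr X n L δ (p t)) {w : ℕ × ℕ} (hw : w ∈ csq (p t) L) (d : Fin 4) :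
    arm w d (armLen (p t) L w d) ∈ cv (QC X n L R) := by
  have hi1 := hi.a
  have hi2 := hi.b
  have hi3 := hi.c
  have hi4 := hi.d
  obtain ⟨i, hi5, h1, h2, h3, h4, h5⟩ := foot_cell hw (by omega) (by omega) d
  rw [mem_cv, hi5, mem_QC]
  refine ⟨by rw [mem_rect]; omega, fun q hq hiq => ?_⟩
  by_cases hqp : q = p t
  · subst hqp
    exact h1 hiq
  · have h6 := h.far q hq (p t) (h.HR t (p t) (Finset.mem_singleton_self _)) hqp
    rw [mem_rect] at hiq
    unfold Far at h6
    omega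

/-- the gadget of one conflict -/
lemma exists_gad [M.Finite] (h : Base M C T B ends N F X n L δ m c A (fun t => {p t}) P R)
    (hδ : 3 ≤ δ) {t : Fin m} (hi : Intr X n L δ (p t)) {w : ℕ × ℕ} (hw : w ∈ csq (p t) L)
    {e : Fin 4} (he : e = 2 ∨ e = 3)
    (hv : ∀ d d' : Fin 4, d ≠ d' → (d = 0 ∨ d = 1 ∨ d = e) → (d' = 0 ∨ d' = 1 ∨ d' = e) →
        Vis M C B (ins T ends (pun N (A t)) ∪ (pthE T ends (arm w d) (armLen (p t) L w d) ∪
          pthE T ends (arm w d') (armLen (p t) L w d'))) (c t)) :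
    ∃ f, Gad M C T B ends (cv (QC X n L R) ∪ blks P) (blks P) (c t)
      (⋃ j, pthE T ends (arm w (dirs e j)) (armLen (p t) L w (dirs e j))) f
      (⋃ j, arm w (dirs e j) '' Iio (armLen (p t) L w (dirs e j)))
      {arm w (dirs e 0) (armLen (p t) L w (dirs e 0)),
        arm w (dirs e 1) (armLen (p t) L w (dirs e 1)),
        arm w (dirs e 2) (armLen (p t) L w (dirs e 2))} := by
  have hi1 := hi.a
  have hi2 := hi.b
  have hi3 := hi.c
  have hi4 := hi.d
  have hX1 := h.X1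
  have hX2 := h.X2
  have k1 : 1 ≤ (p t).1 := by omega
  have k2 : 1 ≤ (p t).2 := by omega
  have hcell : ∀ i : ℕ × ℕ, i ∈ rect (p t).1 (p t).2 L L → i ∈ A t := fun i hi' =>
    h.HA t (p t) (Finset.mem_singleton_self _) i hi'
  have hadj : ∀ j : Fin 3, ∀ i < armLen (p t) L w (dirs e j), ∃ e' ∈ T,
      ends e' = s(arm w (dirs e j) i, arm w (dirs e j) (i + 1)) := by
    intro j i hij
    have hin : ∀ i ≤ armLen (p t) L w (dirs e j),
        arm w (dirs e j) i ∈ rect 0 0 (2 * N) (2 * N) := by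
      intro i hij
      rcases Nat.lt_or_ge i (armLen (p t) L w (dirs e j)) with h1 | h1
      · have h2 := arm_in hw h1
        rw [mem_csq'] at h2
        rw [mem_rect]
        omega
      · have h2 : i = armLen (p t) L w (dirs e j) := le_antisymm hij h1
        rw [h2]
        obtain ⟨i', hi5, h3, h4, h5, h6, h7⟩ := foot_cell hw k1 k2 (dirs e j)
        have h8 := congrArg Prod.fst hi5
        have h9 := congrArg Prod.snd hi5
        dsimp only at h8 h9
        rw [mem_rect]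
        omega
    exact h.ctx.grd.surj _ _ (arm_adj hw k1 k2 hij) (hin i hij.le) (hin (i + 1) hij)
  have pt : ∀ j : Fin 3, PT T ends (arm w (dirs e j)) (armLen (p t) L w (dirs e j)) := fun j =>
    ⟨armLen_pos hw _, arm_inj hw k1 k2 _, hadj j⟩
  have dE : ∀ j j' : Fin 3, j ≠ j' →
      Disjoint (pthE T ends (arm w (dirs e j)) (armLen (p t) L w (dirs e j)))
        (pthE T ends (arm w (dirs e j')) (armLen (p t) L w (dirs e j'))) := fun j j' hjj =>
    (pt j).disj (fun i hin hi0 i' hi' => arm_disj hw k1 k2 (dirs_ne he hjj) hi0 hin.le hi')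
      (fun i' hi' => arm_disj hw k1 k2 (dirs_ne he hjj) (armLen_pos hw _) le_rfl hi')
  have hmid : ∀ j : Fin 3, ∀ i < armLen (p t) L w (dirs e j),
      arm w (dirs e j) i ∉ cv (QC X n L R) ∪ blks P := by
    intro j i hij hU
    have h1 := h.sub_pun t hU
    have h2 := arm_in hw hij
    rw [pun_eq_cv] at h1
    rw [csq_eq_cv] at h2
    exact h1.2 (hcell _ h2)
  refine Gad.tri h.ctx.grd.inj (w := w) (fun j => arm_start w _) (fun j => armLen_pos hw _)
    (fun j => arm_inj hw k1 k2 _) ?_ hadj ?_ hmid ?_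
  · intro j j' hjj i hi0 hin i' hi'
    exact arm_disj hw k1 k2 (dirs_ne he hjj) hi0 hin hi'
  · intro j
    rw [h.sdiff_eq]
    exact foot_mem h hδ hi hw _
  · intro j j' hjj
    refine h.pers t (tri_pth (v := fun j => arm w (dirs e j))
      (n := fun j => armLen (p t) L w (dirs e j)) h.ctx.grd.inj pt (w := w)
      (fun j => arm_start w _) (dE j j' hjj)) ?_ ?_
      (hv _ _ (dirs_ne he hjj) (dirs_mem j) (dirs_mem j'))
    · rintro _ (⟨i, hi', rfl⟩ | ⟨i, hi', rfl⟩)
      · exact ⟨p t, Finset.mem_singleton_self _, arm_in hw hi'⟩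
      · exact ⟨p t, Finset.mem_singleton_self _, arm_in hw hi'⟩
    · rintro _ (rfl | rfl)
      · exact foot_mem h hδ hi hw _
      · exact foot_mem h hδ hi hw _

end gad

lemma pthE_sub' {α : Type*} {T : Set α} {ends : α → Sym2 (ℕ × ℕ)} {v : ℕ → ℕ × ℕ} {n : ℕ}
    {V : Set (ℕ × ℕ)} (h : ∀ i ≤ n, v i ∈ V) : pthE T ends v n ⊆ ins T ends V := by
  rintro e ⟨he, i, hi, hei⟩
  refine ⟨he, fun w hw => ?_⟩
  rw [hei] at hw
  rcases Sym2.mem_iff.1 hw with rfl | rfl
  · exact h i hi.le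
  · exact h (i + 1) hi

/-- **Row CERT-B.** -/
theorem certB {k : ℕ} (hk : GlNearH.{u} k) : CertB.{u} k := by
  classical
  intro κ L b hL
  obtain ⟨m₀, δ₀, hGL⟩ := hk (2 * L) (by omega)
  obtain ⟨F, hF⟩ := exists_base.{u} (κ := κ) (L := L) (b := b) (δ := max δ₀ 3) (m := m₀ + 1) hL
    (by omega)
  refine ⟨F, m₀ + 1, max δ₀ 3, ?_⟩
  intro α M _ C T B ends N hctx hκ X n hX1 hX2 c A p hc hA hAp hfar hint htri
  have hi : ∀ t, Intr X n L (max δ₀ 3) (p t) := fun t =>
    ⟨(hint t).1, (hint t).2.1, (hint t).2.2.1, (hint t).2.2.2⟩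
  have hn : 2 ≤ n := by
    have := hi 0
    have h1 := this.a
    have h2 := this.c
    omega
  have hin : ∀ t, ∀ i ∈ rect (p t).1 (p t).2 L L, i ∈ rect X.1 X.2 n n := by
    intro t i hi'
    have h1 := (hi t).a
    have h2 := (hi t).b
    have h3 := (hi t).c
    have h4 := (hi t).d
    rw [mem_rect] at hi' ⊢
    omega
  have hpinj : Function.Injective p := by
    intro t t' htt
    by_contra hne
    have h1 := hfar t t' hne
    rw [htt] at h1
    unfold Far at h1
    omega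
  obtain ⟨P, R, hb⟩ := hF M C T B ends N hctx hκ X n hX1 hX2 hn c A (fun t => {p t}) hc hA
    (fun t i hi' hi2 => ⟨p t, Finset.mem_singleton_self _, (hAp t i hi2).1 hi'⟩)
    (fun t q hq i hi' => by
      rw [Finset.mem_singleton] at hq
      subst hq
      exact (hAp t i (hin t i hi')).2 hi')
    (fun t t' q hq q' hq' hne => by
      rw [Finset.mem_singleton] at hq hq'
      subst hq
      subst hq'
      refine hfar t t' ?_
      rcases hne with h | h
      · exact h
      · exact fun h' => h (by rw [h']))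
  choose w hw e he hv using htri
  choose f hf using fun t => exists_gad hb (by omega) (hi t) (hw t) (he t) (hv t)
  have : NeZero (m₀ + 1) := ⟨by omega⟩
  have hsub : ∀ t, (⋃ j, arm (w t) (dirs (e t) j) '' Iio (armLen (p t) L (w t) (dirs (e t) j))) ⊆
      csq (p t) L := by
    intro t x hx
    obtain ⟨j, i, hij, rfl⟩ := mem_iUnion.1 hx
    exact arm_in (hw t) hij
  have hfootsq : ∀ t (d : Fin 4), ∀ t', t ≠ t' → ∀ d' : Fin 4,
      arm (w t) d (armLen (p t) L (w t) d) ≠ arm (w t') d' (armLen (p t') L (w t') d') := by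
    intro t d t' htt d' heq
    have k1 := (hi t).a
    have k2 := (hi t).b
    have k3 := (hi t').a
    have k4 := (hi t').b
    obtain ⟨i, hi5, h1, h2, h3, h4, h5⟩ := foot_cell (hw t) (by omega) (by omega) d
    obtain ⟨i', hi5', h1', h2', h3', h4', h5'⟩ := foot_cell (hw t') (by omega) (by omega) d'
    rw [heq, hi5'] at hi5
    subst hi5
    have h6 := hfar t t' htt
    unfold Far at h6
    omega
  have hfoot : ∀ t (d : Fin 4), arm (w t) d (armLen (p t) L (w t) d) ∈ cv (QC X n L R) :=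
    fun t d => foot_mem hb (by omega) (hi t) (hw t) d
  obtain ⟨P', hP1, hP2, hP3, hP4⟩ := hb.cert hf (by
    intro t t' htt
    refine Disjoint.mono (hsub t) (hsub t') ?_
    rw [Set.disjoint_left]
    intro v hv1 hv2
    rw [mem_csq'] at hv1 hv2
    have h6 := hfar t t' htt
    unfold Far at h6
    omega) (by
    intro t t' htt
    rw [Set.disjoint_left]
    rintro x hx hx'
    simp only [mem_insert_iff, mem_singleton_iff] at hx hx'
    rcases hx with hx | hx | hx <;> rcases hx' with hx' | hx' | hx' <;>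
      exact hfootsq t _ t' htt _ (hx.symm.trans hx')) (by
    intro t t' htt
    refine iUnion_subset fun j => ?_
    refine pthE_sub' fun i hil => ?_
    rcases Nat.lt_or_ge i (armLen (p t') L (w t') (dirs (e t') j)) with h2 | h2
    · refine hb.inv_sq htt (fun q hq q' hq' h => ?_) (Finset.mem_singleton_self (p t')) ?_
        (arm_in (hw t') h2)
      · rw [Finset.mem_singleton] at hq hq'
        subst hq
        subst hq'
        exact htt (hpinj h)
      · have k1 := (hi t').a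
        have k2 := (hi t').b
        have k3 := (hi t').c
        have k4 := (hi t').d
        omega
    · have h3 : i = armLen (p t') L (w t') (dirs (e t') j) := le_antisymm hil h2
      rw [h3]
      exact hb.sub_pun t (Or.inl (hfoot t' _)))
  -- the gadget lemma
  have hPk : HasUniformMinor P' k := by
    have hgrd : GrdU (ins T ends (cv (QC X n L R))) ends
        (rect (dbl X).1 (dbl X).2 (2 * n) (2 * n) \
          ⋃ q ∈ R.image dbl, rect q.1 q.2 (2 * L) (2 * L)) := by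
      rw [← csq_sdiff_eq, ← cv_QC]
      refine grdU_ins hctx.grd ?_
      have := cv_mono hb.QC_sub
      refine this.trans ?_
      intro w hw
      rw [mem_cv, mem_rect] at hw
      rw [mem_rect]
      simp only at hw
      omega
    refine hGL P' (ins T ends (cv (QC X n L R))) ends (dbl X) (2 * n) (R.image dbl) hP3 hgrd ?_
      (fun t => f t.castSucc) (fun t => dbl (p t.castSucc)) ?_ ?_ ?_ ?_ ?_
    · intro q hq q' hq' hne'
      obtain ⟨r, hr, rfl⟩ := Finset.mem_image.1 hq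
      obtain ⟨r', hr', rfl⟩ := Finset.mem_image.1 hq'
      exact (hb.far r hr r' hr' fun h => hne' (by rw [h])).dbl.mono (by omega)
    · intro t
      exact Finset.mem_image_of_mem _ (hb.HR _ _ (Finset.mem_singleton_self _))
    · intro t t' h
      exact Fin.castSucc_injective _ (hpinj (dbl_inj h))
    · intro t
      have k1 := (hi t.castSucc).a
      have k2 := (hi t.castSucc).b
      have k3 := (hi t.castSucc).c
      have k4 := (hi t.castSucc).d
      simp only [dbl]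
      omega
    · intro t
      exact ⟨(hP4 t.castSucc).1, (hP4 t.castSucc).2.1⟩
    · intro t
      have k1 := (hi t.castSucc).a
      have k2 := (hi t.castSucc).b
      have hw' := hw t.castSucc
      have hwc := hw'
      rw [mem_csq'] at hwc
      refine ⟨e t.castSucc, he t.castSucc, (w t.castSucc).2 - 2 * (p t.castSucc).2, by omega,
        (w t.castSucc).1 - 2 * (p t.castSucc).1, by omega, ?_⟩
      rw [(hP4 t.castSucc).2.2]
      have d0 : dirs (e t.castSucc) 0 = 0 := rfl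
      have d1 : dirs (e t.castSucc) 1 = 1 := rfl
      have d2 : dirs (e t.castSucc) 2 = e t.castSucc := rfl
      rw [d0, d1, d2, arm_foot_0 hw' (by omega), arm_foot_1 hw']
      rcases he t.castSucc with h2 | h2
      · rw [h2, arm_foot_2 hw']
      · rw [h2, arm_foot_3 hw' (by omega)]
  obtain ⟨N', h1, h2⟩ := hPk
  exact ⟨N', h1.trans hP1, h2⟩

end CWL

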