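import Pool.Agent.CW.Cells
import Pool.Agent.CW.Sim

/-!
# Theorem CW: common part of the certificate rows (helper53)

`U = cv (QC X n L (Hs ∪ P)) ∪ blks P`, `Sv = blks P`.
-/

open Set BIC BICS
open scoped Matroid

namespace CWL

universe u

/-- the cells of the block without the squares with corners in `R` -/
def QC (X : ℕ × ℕ) (n L : ℕ) (R : Finset (ℕ × ℕ)) : Set (ℕ × ℕ) :=
  rect X.1 X.2 n n \ ⋃ q ∈ R, rect q.1 q.2 L L

lemma mem_rect {x y a b : ℕ} {v : ℕ × ℕ} :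
    v ∈ rect x y a b ↔ x ≤ v.1 ∧ v.1 < x + a ∧ y ≤ v.2 ∧ v.2 < y + b := Iff.rfl

lemma mem_QC {X : ℕ × ℕ} {n L : ℕ} {R : Finset (ℕ × ℕ)} {i : ℕ × ℕ} :
    i ∈ QC X n L R ↔ i ∈ rect X.1 X.2 n n ∧ ∀ q ∈ R, i ∉ rect q.1 q.2 L L := by
  simp only [QC, mem_sdiff, mem_iUnion, not_exists, exists_prop, not_and]

lemma cv_QC (X : ℕ × ℕ) (n L : ℕ) (R : Finset (ℕ × ℕ)) :
    cv (QC X n L R) = csq X n \ ⋃ q ∈ R, csq q L := by
  rw [QC, cv_sdiff, csq_eq_cv, cv_iUnion]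
  congr 1
  refine iUnion_congr fun q => ?_
  rw [cv_iUnion]
  exact iUnion_congr fun _ => (csq_eq_cv q L).symm

/-- every cell which is left has a neighbour -/
lemma QC_nbr {X : ℕ × ℕ} {n L δ : ℕ} {R : Finset (ℕ × ℕ)} (hn : 2 ≤ n) (hδ : 1 ≤ δ)
    (hR : ∀ q ∈ R, ∀ q' ∈ R, q ≠ q' → Far δ q L q' L) :
    ∀ i ∈ QC X n L R, ∃ j ∈ QC X n L R, adj i j := by
  intro i hi
  rw [mem_QC] at hi
  obtain ⟨hi1, hi2⟩ := hi
  rw [mem_rect] at hi1
  -- a horizontal and a vertical neighbour in the block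
  obtain ⟨a, ha1, ha2, ha3⟩ : ∃ a, X.1 ≤ a ∧ a < X.1 + n ∧ (i.1 + 1 = a ∨ a + 1 = i.1) := by
    by_cases h : i.1 + 1 < X.1 + n
    · exact ⟨i.1 + 1, by omega, by omega, Or.inl rfl⟩
    · exact ⟨i.1 - 1, by omega, by omega, Or.inr (by omega)⟩
  obtain ⟨b, hb1, hb2, hb3⟩ : ∃ b, X.2 ≤ b ∧ b < X.2 + n ∧ (i.2 + 1 = b ∨ b + 1 = i.2) := by
    by_cases h : i.2 + 1 < X.2 + n
    · exact ⟨i.2 + 1, by omega, by omega, Or.inl rfl⟩
    · exact ⟨i.2 - 1, by omega, by omega, Or.inr (by omega)⟩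
  by_contra hcon
  push Not at hcon
  have h1 : ((a, i.2) : ℕ × ℕ) ∉ QC X n L R := fun h => hcon _ h (Or.inr ⟨rfl, ha3⟩)
  have h2 : ((i.1, b) : ℕ × ℕ) ∉ QC X n L R := fun h => hcon _ h (Or.inl ⟨rfl, hb3⟩)
  rw [mem_QC] at h1 h2
  push Not at h1 h2
  obtain ⟨q, hq, hq'⟩ := h1 (by rw [mem_rect]; simp only; omega)
  obtain ⟨r, hr, hr'⟩ := h2 (by rw [mem_rect]; simp only; omega)
  rw [mem_rect] at hq' hr'
  simp only at hq' hr'
  by_cases hqr : q = r
  · subst hqr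
    apply hi2 q hq
    rw [mem_rect]
    omega
  · have := hR q hq r hr hqr
    unfold Far at this
    omega

section base

variable {α : Type*} {M : Matroid α} {C T B : Set α} {ends : α → Sym2 (ℕ × ℕ)} {N F : ℕ}
  {X : ℕ × ℕ} {n L δ m : ℕ} {c : Fin m → α} {A H : Fin m → Finset (ℕ × ℕ)}
  {P R : Finset (ℕ × ℕ)}

/-- the situation of the certificate rows: `R` is the set of the corners of all squares -/
structure Base (M : Matroid α) (C T B : Set α) (ends : α → Sym2 (ℕ × ℕ)) (N F : ℕ)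
    (X : ℕ × ℕ) (n L δ m : ℕ) (c : Fin m → α) (A H : Fin m → Finset (ℕ × ℕ))
    (P R : Finset (ℕ × ℕ)) : Prop where
  ctx : Ctx M C T B ends N F
  L2 : 2 ≤ L
  n2 : 2 ≤ n
  δ1 : 1 ≤ δ
  X1 : X.1 + n ≤ N
  X2 : X.2 + n ≤ N
  cC : ∀ t, c t ∈ C \ B
  inv : ∀ t, ¬ Vis M C B (ins T ends (pun N (A t))) (c t)
  AH : ∀ t, ∀ i ∈ A t, i ∈ rect X.1 X.2 n n → ∃ q ∈ H t, i ∈ rect q.1 q.2 L L
  HA : ∀ t, ∀ q ∈ H t, ∀ i ∈ rect q.1 q.2 L L, i ∈ A t
  HR : ∀ t, ∀ q ∈ H t, q ∈ R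
  PR : ∀ q ∈ P, q ∈ R
  far : ∀ q ∈ R, ∀ q' ∈ R, q ≠ q' → Far δ q L q' L
  PN : ∀ p ∈ P, p.1 + 2 ≤ N ∧ p.2 + 2 ≤ N
  PA : ∀ p ∈ P, ∀ t, ∀ i ∈ A t, i ∉ rect p.1 p.2 2 2
  rob : Rob M C B (ins T ends (blks P))

namespace Base

lemma blk_eq (P : Finset (ℕ × ℕ)) : blks P = cv (⋃ p ∈ P, rect p.1 p.2 2 2) := blks_eq_cv P

lemma QC_sub (h : Base M C T B ends N F X n L δ m c A H P R) :
    QC X n L R ⊆ rect 0 0 N N := by
  intro i hi
  rw [mem_QC] at hi
  have := hi.1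
  have h1 := h.X1
  have h2 := h.X2
  rw [mem_rect] at this ⊢
  omega

lemma P_sub (h : Base M C T B ends N F X n L δ m c A H P R) :
    (⋃ p ∈ P, rect p.1 p.2 2 2) ⊆ rect 0 0 N N := by
  intro i hi
  obtain ⟨p, hp, hi⟩ := mem_iUnion₂.1 hi
  have := h.PN p hp
  rw [mem_rect] at hi ⊢
  omega

lemma disj (h : Base M C T B ends N F X n L δ m c A H P R) :
    Disjoint (cv (QC X n L R)) (blks P) := by
  rw [Set.disjoint_left]
  intro v hv hv'
  rw [blks_eq_cv] at hv'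
  obtain ⟨p, hp, hi⟩ := mem_iUnion₂.1 (show _ ∈ ⋃ p ∈ P, rect p.1 p.2 2 2 from hv')
  have h1 := (mem_QC.1 hv).2 p (h.PR p hp)
  apply h1
  have h2 := h.L2
  rw [mem_rect] at hi ⊢
  omega

lemma sdiff_eq (h : Base M C T B ends N F X n L δ m c A H P R) :
    (cv (QC X n L R) ∪ blks P) \ blks P = cv (QC X n L R) := by
  rw [union_sdiff_right]
  exact sdiff_eq_left.2 h.disj

/-- the vertex set avoids `A t` -/
lemma sub_pun (h : Base M C T B ends N F X n L δ m c A H P R) (t : Fin m) :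
    cv (QC X n L R) ∪ blks P ⊆ pun N (A t) := by
  rw [pun_eq_cv]
  apply union_subset
  · refine cv_mono fun i hi => ⟨h.QC_sub hi, fun hA => ?_⟩
    rw [mem_QC] at hi
    obtain ⟨q, hq, hq'⟩ := h.AH t i hA hi.1
    exact hi.2 q (h.HR t q hq) hq'
  · rw [blks_eq_cv]
    refine cv_mono fun i hi => ⟨h.P_sub hi, fun hA => ?_⟩
    obtain ⟨p, hp, hi⟩ := mem_iUnion₂.1 hi
    exact h.PA p hp t i hA hi

lemma full_U [M.Finite] (h : Base M C T B ends N F X n L δ m c A H P R) :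
    (cv (QC X n L R) ∪ blks P).ncard ≤ rk (M ／ C) (ins T ends (cv (QC X n L R) ∪ blks P)) := by
  have hf1 := BQ.fin_contract (M := M) C
  rw [blks_eq_cv, ← cv_union]
  exact full_cv h.ctx.bic h.ctx.grd (union_subset h.QC_sub h.P_sub)

/-- **The standing assumptions hold.** -/
theorem std [M.Finite] (h : Base M C T B ends N F X n L δ m c A H P R) :
    Std M C T B ends (cv (QC X n L R) ∪ blks P) (blks P) where
  ind := h.ctx.ind
  sub := h.ctx.sub
  bic := h.ctx.bic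
  BC := h.ctx.BC
  fin := by
    rw [blks_eq_cv, ← cv_union]
    exact cv_finite ((rect_finite 0 0 N N).subset (union_subset h.QC_sub h.P_sub))
  SU := subset_union_right
  full := fun v => by
    have hf1 := BQ.fin_contract (M := M) C
    rw [h.sdiff_eq]
    exact full_cv' h.ctx.bic h.ctx.grd h.QC_sub (QC_nbr h.n2 h.δ1 h.far) v
  full' := by
    have hf1 := BQ.fin_contract (M := M) C
    rw [h.sdiff_eq]
    exact full_cv h.ctx.bic h.ctx.grd h.QC_sub
  Sfull := by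
    have hf1 := BQ.fin_contract (M := M) C
    rw [blks_eq_cv]
    exact full_cv h.ctx.bic h.ctx.grd h.P_sub
  rob := h.rob

lemma inv_U (h : Base M C T B ends N F X n L δ m c A H P R) (t : Fin m) :
    ¬ Vis M C B (ins T ends (cv (QC X n L R) ∪ blks P)) (c t) := fun hv =>
  h.inv t (Vis.mono (ins_mono (h.sub_pun t)) hv)

/-- a square of another conflict is invisible, too -/
lemma inv_sq (h : Base M C T B ends N F X n L δ m c A H P R) {t t' : Fin m} (htt : t ≠ t')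
    (hH : ∀ q ∈ H t, ∀ q' ∈ H t', q ≠ q') {q : ℕ × ℕ} (hq : q ∈ H t')
    (hqX : X.1 ≤ q.1 ∧ X.2 ≤ q.2 ∧ q.1 + L ≤ X.1 + n ∧ q.2 + L ≤ X.2 + n) :
    csq q L ⊆ pun N (A t) := by
  rw [csq_eq_cv, pun_eq_cv]
  have h1 := h.X1
  have h2 := h.X2
  refine cv_mono fun i hi => ⟨?_, fun hA => ?_⟩
  · rw [mem_rect] at hi ⊢
    omega
  · obtain ⟨r, hr, hr'⟩ := h.AH t i hA (by
      rw [mem_rect] at hi ⊢
      omega)
    have h3 := h.far r (h.HR t r hr) q (h.HR t' q hq) (hH r hr q hq)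
    rw [mem_rect] at hi hr'
    unfold Far at h3
    omega

/-- persistence for the certificates -/
theorem pers [M.Finite] (h : Base M C T B ends N F X n L δ m c A H P R) (t : Fin m)
    {Q : Set α} {W E : Set (ℕ × ℕ)} (hQ : Pth T ends Q W E)
    (hW : ∀ w ∈ W, ∃ q ∈ H t, w ∈ csq q L) (hE : E ⊆ cv (QC X n L R))
    (hv : Vis M C B (ins T ends (pun N (A t)) ∪ Q) (c t)) :
    Vis M C B (ins T ends (cv (QC X n L R) ∪ blks P) ∪ Q) (c t) := by
  have hf1 := BQ.fin_contract (M := M) C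
  refine persist h.ctx.ind h.ctx.sub h.ctx.bic h.ctx.BC (h.cC t)
    (U := pun N (A t)) (O := ins T ends (pun N (A t))) (U' := cv (QC X n L R) ∪ blks P) ?_
    subset_rfl ?_ (ins_mono (h.sub_pun t)) subset_rfl (h.sub_pun t) h.full_U ?_ hQ ?_
    (hE.trans subset_union_left) (h.inv t) hv
  · rw [pun_eq_cv]
    exact cv_finite ((rect_finite 0 0 N N).subset sdiff_subset)
  · rw [pun_eq_cv]
    exact full_cv h.ctx.bic h.ctx.grd sdiff_subset
  · exact h.rob.mono h.ctx.ind h.ctx.BC (ins_mono subset_union_right)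
      (fun e he => h.ctx.sub he.1)
  · rw [Set.disjoint_left]
    intro w hw hw'
    obtain ⟨q, hq, hwq⟩ := hW w hw
    rw [pun_eq_cv] at hw'
    rw [csq_eq_cv] at hwq
    exact hw'.2 (h.HA t q hq _ hwq)

/-- **The minor of the certificates.** -/
theorem cert [M.Finite] [NeZero m] (h : Base M C T B ends N F X n L δ m c A H P R)
    {Y : Fin m → Set α} {f : Fin m → α} {W E : Fin m → Set (ℕ × ℕ)}
    (hG : ∀ t, Gad M C T B ends (cv (QC X n L R) ∪ blks P) (blks P) (c t) (Y t) (f t) (W t) (E t))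
    (hW : ∀ t t', t ≠ t' → Disjoint (W t) (W t')) (hE : ∀ t t', t ≠ t' → Disjoint (E t) (E t'))
    (hY : ∀ t t', t ≠ t' → Y t' ⊆ ins T ends (pun N (A t))) :
    ∃ P' : Matroid α, P' ≤m M ∧ P'.Finite ∧ Bic P' (ins T ends (cv (QC X n L R))) ends ∧
      ∀ t, f t ∈ P'.closure (ins T ends (cv (QC X n L R))) ∧
        f t ∉ ins T ends (cv (QC X n L R)) ∧
        Loc P' (ins T ends (cv (QC X n L R))) ends (f t) = E t := by
  classical
  have hx : ∀ t t', t ≠ t' →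
      ¬ Vis M C B (ins T ends (cv (QC X n L R) ∪ blks P) ∪ Y t') (c t) := by
    intro t t' htt hv
    exact h.inv t (Vis.mono (union_subset (ins_mono (h.sub_pun t)) (hY t t' htt)) hv)
  -- the conflicts are different
  have hinj : Function.Injective c := by
    intro t t' htt
    by_contra hne
    obtain ⟨Q, W', E', h1, h2, h3, h4, h5⟩ := (hG t').vis
    refine hx t t' hne ?_
    rw [htt]
    exact Vis.mono (union_subset_union_right _ (h1.trans sdiff_subset)) h5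
  have hcf : (range c).Finite := finite_range c
  set K : Finset α := hcf.toFinset with hK
  have hKm : ∀ a ∈ K, ∃ t, c t = a := by
    intro a ha
    rw [hK, Set.Finite.mem_toFinset] at ha
    exact ha
  set τ : α → Fin m := Function.invFun c with hτ
  have hτc : ∀ t, τ (c t) = t := Function.leftInverse_invFun hinj
  have hcτ : ∀ a ∈ K, c (τ a) = a := by
    intro a ha
    obtain ⟨t, rfl⟩ := hKm a ha
    rw [hτc]
  have hτne : ∀ a ∈ K, ∀ b ∈ K, a ≠ b → τ a ≠ τ b := by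
    intro a ha b hb hab h1
    apply hab
    rw [← hcτ a ha, ← hcτ b hb, h1]
  obtain ⟨h1, h2, h3⟩ := sim h.std (K := K) (Y := fun a => Y (τ a)) (f := fun a => f (τ a))
    (W := fun a => W (τ a)) (E := fun a => E (τ a)) (by
      intro a ha
      obtain ⟨t, rfl⟩ := hKm a ha
      exact h.cC t) (by
      intro a ha
      have := hG (τ a)
      rw [hcτ a ha] at this
      exact this)
    (fun a ha b hb hab => hW _ _ (hτne a ha b hb hab))
    (fun a ha b hb hab => hE _ _ (hτne a ha b hb hab)) (by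
      intro a ha
      obtain ⟨t, rfl⟩ := hKm a ha
      exact h.inv_U t) (by
      intro a ha b hb hba
      have := hx (τ b) (τ a) (hτne b hb a ha hba)
      rw [hcτ b hb] at this
      exact this)
  rw [h.sdiff_eq] at h2 h3
  refine ⟨_, h1, ?_, h2, ?_⟩
  · unfold simM
    infer_instance
  · intro t
    have ht : c t ∈ K := by
      rw [hK, Set.Finite.mem_toFinset]
      exact mem_range_self t
    have h4 := h3 (c t) ht
    simp only [hτc] at h4
    exact h4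

end Base

end base

/-- the group for the certificates -/
theorem exists_base {κ L b δ m : ℕ} (hL : 2 ≤ L) (hδ : 1 ≤ δ) : ∃ F : ℕ, ∀ {α : Type u}
    (M : Matroid α) [M.Finite] (C T B : Set α) (ends : α → Sym2 (ℕ × ℕ)) (N : ℕ),
    Ctx M C T B ends N F → B.ncard ≤ κ → ∀ (X : ℕ × ℕ) (n : ℕ), X.1 + n ≤ N → X.2 + n ≤ N →
    2 ≤ n → ∀ (c : Fin m → α) (A H : Fin m → Finset (ℕ × ℕ)),
    (∀ t, c t ∈ C \ B) →
    (∀ t, (A t).card ≤ b ∧ ¬ Vis M C B (ins T ends (pun N (A t))) (c t)) →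
    (∀ t, ∀ i ∈ A t, i ∈ rect X.1 X.2 n n → ∃ q ∈ H t, i ∈ rect q.1 q.2 L L) →
    (∀ t, ∀ q ∈ H t, ∀ i ∈ rect q.1 q.2 L L, i ∈ A t) →
    (∀ t t', ∀ q ∈ H t, ∀ q' ∈ H t', (t ≠ t' ∨ q ≠ q') → Far δ q L q' L) →
    ∃ P R : Finset (ℕ × ℕ), Base M C T B ends N F X n L δ m c A H P R := by
  classical
  obtain ⟨γ, hγ⟩ := groupStmt.{u} κ (δ + L)
  refine ⟨γ * (m * b + 1), ?_⟩
  intro α M _ C T B ends N hctx hκ X n hX1 hX2 hn c A H hc hA hAH hHA hfar
  set A₀ : Finset (ℕ × ℕ) := Finset.univ.biUnion A with hA₀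
  have hA₀c : A₀.card ≤ m * b := by
    have := Finset.card_biUnion_le_card_mul Finset.univ A b fun t _ => (hA t).1
    rwa [Finset.card_univ, Fintype.card_fin] at this
  obtain ⟨P, hP1, hP2, hP3, hP4⟩ := hγ (m * b) M C T B ends N hctx hκ A₀ hA₀c
  have hmA : ∀ t, ∀ i ∈ A t, i ∈ A₀ := fun t i hi =>
    Finset.mem_biUnion.2 ⟨t, Finset.mem_univ _, hi⟩
  have hPH : ∀ p ∈ P, ∀ t, ∀ q ∈ H t, Far δ p L q L := by
    intro p hp t q hq
    -- the nearest cell of the square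
    have h1 := (hP2 p hp).2.2 (max q.1 (min p.1 (q.1 + L - 1)), max q.2 (min p.2 (q.2 + L - 1)))
      (hmA t _ (hHA t q hq _ (by
        rw [mem_rect]
        simp only
        omega)))
    unfold Far at h1 ⊢
    simp only at h1
    omega
  refine ⟨P, Finset.univ.biUnion H ∪ P, ⟨hctx, hL, hn, hδ, hX1, hX2, hc, fun t => (hA t).2, hAH,
    hHA, ?_, ?_, ?_, ?_, ?_, ?_⟩⟩
  · intro t q hq
    exact Finset.mem_union_left _ (Finset.mem_biUnion.2 ⟨t, Finset.mem_univ _, hq⟩)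
  · intro q hq
    exact Finset.mem_union_right _ hq
  · intro q hq q' hq' hne
    rcases Finset.mem_union.1 hq with hq | hq <;> rcases Finset.mem_union.1 hq' with hq' | hq'
    · obtain ⟨t, _, hq⟩ := Finset.mem_biUnion.1 hq
      obtain ⟨t', _, hq'⟩ := Finset.mem_biUnion.1 hq'
      exact hfar t t' q hq q' hq' (Or.inr hne)
    · obtain ⟨t, _, hq⟩ := Finset.mem_biUnion.1 hq
      exact (hPH q' hq' t q hq).symm
    · obtain ⟨t', _, hq'⟩ := Finset.mem_biUnion.1 hq'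
      exact hPH q hq t' q' hq'
    · have := hP3 q hq q' hq' hne
      unfold Far at this ⊢
      omega
  · exact fun p hp => ⟨(hP2 p hp).1, (hP2 p hp).2.1⟩
  · intro p hp t i hi hip
    have h1 := (hP2 p hp).2.2 i (hmA t i hi)
    rw [mem_rect] at hip
    unfold Far at h1
    omega
  · exact hP4

end CWL
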