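import Pool.Agent.CW.CertBase

/-!
# Theorem CW, row CERT-C: two unbalanced crossing paths (helper53)
-/

open Set BIC BICS
open scoped Matroid

namespace CWL

universe u

lemma CrossPath.region {q : ℕ × ℕ} {L : ℕ} {v : ℕ → ℕ × ℕ} {n : ℕ} (h : CrossPath q L v n)
    {i : ℕ} (hi : i ≤ n) : 2 * q.1 ≤ (v i).1 + 1 ∧ (v i).1 ≤ 2 * q.1 + 2 * L ∧
      2 * q.2 ≤ (v i).2 ∧ (v i).2 < 2 * q.2 + 2 * L := by
  obtain ⟨a, ha, h0⟩ := h.left
  obtain ⟨b, hb, hn⟩ := h.right
  rcases Nat.eq_zero_or_pos i with rfl | h1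
  · rw [h0]
    simp only
    omega
  · rcases Nat.lt_or_ge i n with h2 | h2
    · have := h.mid i h1 h2
      rw [mem_csq] at this
      omega
    · have : i = n := by omega
      subst this
      rw [hn]
      simp only
      omega

lemma pthE_sub {α : Type*} {T : Set α} {ends : α → Sym2 (ℕ × ℕ)} {v : ℕ → ℕ × ℕ} {n : ℕ}
    {V : Set (ℕ × ℕ)} (h : ∀ i ≤ n, v i ∈ V) : pthE T ends v n ⊆ ins T ends V := by
  rintro e ⟨he, i, hi, hei⟩
  refine ⟨he, fun w hw => ?_⟩
  rw [hei] at hw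
  rcases Sym2.mem_iff.1 hw with rfl | rfl
  · exact h i hi.le
  · exact h (i + 1) hi

/-- cells next to a square are left -/
lemma Base.foot_mem {α : Type*} {M : Matroid α} {C T B : Set α} {ends : α → Sym2 (ℕ × ℕ)}
    {N F : ℕ} {X : ℕ × ℕ} {n L δ m : ℕ} {c : Fin m → α} {A H : Fin m → Finset (ℕ × ℕ)}
    {P R : Finset (ℕ × ℕ)} (h : Base M C T B ends N F X n L δ m c A H P R) {q : ℕ × ℕ}
    (hq : q ∈ R) (hqX : X.1 + 1 ≤ q.1 ∧ X.2 + 1 ≤ q.2 ∧ q.1 + L + 1 ≤ X.1 + n ∧
      q.2 + L + 1 ≤ X.2 + n) {v : ℕ × ℕ}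
    (hv : (2 * q.1 ≤ v.1 + 1 ∧ v.1 ≤ 2 * q.1 + 2 * L ∧ 2 * q.2 ≤ v.2 + 1 ∧
      v.2 ≤ 2 * q.2 + 2 * L) ∧
      ((2 * q.1 ≤ v.1 ∧ v.1 < 2 * q.1 + 2 * L) ∨ (2 * q.2 ≤ v.2 ∧ v.2 < 2 * q.2 + 2 * L)))
    (hv' : v ∉ csq q L) : v ∈ cv (QC X n L R) := by
  rw [mem_csq] at hv'
  rw [mem_cv, mem_QC]
  refine ⟨by rw [mem_rect]; simp only; omega, fun r hr hr' => ?_⟩
  rw [mem_rect] at hr'
  simp only at hr'
  by_cases hqr : q = r
  · subst hqr
    omega
  · have h1 := h.far q hq r hr hqr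
    have h2 := h.δ1
    unfold Far at h1
    omega

/-- **Row CERT-C.** -/
theorem certC_of {k : ℕ} (hGl : GlMixH.{u} k) : CertC.{u} k := by
  classical
  intro κ L b hL
  obtain ⟨m₀, δ₀, hGl⟩ := hGl (2 * L) (by omega)
  obtain ⟨F, hF⟩ := exists_base.{u} (κ := κ) (L := L) (b := b) (δ := δ₀ + 3) (m := m₀ + 1) hL
    (by omega)
  refine ⟨F, m₀ + 1, δ₀ + 3, ?_⟩
  intro α M _ C T B ends N hctx hκ X n hX1 hX2 c A H p hc hA hAH hHA hfar hpH hpinj hpX hv
  have hn : 2 ≤ n := by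
    have := hpX (0, 0)
    omega
  obtain ⟨P, R, hb⟩ := hF M C T B ends N hctx hκ X n hX1 hX2 hn c A H hc
    (fun t => ⟨(hA t).1, (hA t).2.2⟩) hAH hHA hfar
  have hi : InjOn ends T := hctx.grd.inj
  choose v l hcp hvis using hv
  set U : Set (ℕ × ℕ) := cv (QC X n L R) ∪ blks P with hU
  have hpR : ∀ s, p s ∈ R := fun s => hb.HR s.1 _ (hpH s)
  -- the squares are outside `U`
  have hsq : ∀ s : Fin (m₀ + 1) × Fin 2, ∀ w ∈ csq (p s) L, w ∉ U := by
    intro s w hw hwU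
    have h1 := hb.sub_pun s.1 hwU
    rw [pun_eq_cv] at h1
    rw [csq_eq_cv] at hw
    exact h1.2 (hb.HA s.1 _ (hpH s) _ hw)
  -- the feet
  have hfoot : ∀ s, v s 0 ∈ cv (QC X n L R) ∧ v s (l s) ∈ cv (QC X n L R) := by
    intro s
    obtain ⟨a, ha, h0⟩ := (hcp s).left
    obtain ⟨a', ha', hn'⟩ := (hcp s).right
    have hpx := hpX s
    constructor
    · rw [h0]
      refine hb.foot_mem (hpR s) (by omega) ?_ ?_
      · simp only
        omega
      · rw [mem_csq]
        simp only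
        omega
    · rw [hn']
      refine hb.foot_mem (hpR s) (by omega) ?_ ?_
      · simp only
        omega
      · rw [mem_csq]
        simp only
        omega
  have hmid : ∀ s, ∀ i, 0 < i → i < l s → v s i ∉ U := fun s i h1 h2 =>
    hsq s _ ((hcp s).mid i h1 h2)
  have hop : ∀ s, OP T ends U (blks P) (v s) (l s) := by
    intro s
    have hpx := hpX s
    refine ⟨(hcp s).two, (hcp s).inj, ?_, ?_, ?_, hmid s⟩
    · intro i hil
      have h1 := (hcp s).region hil.le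
      have h2 := (hcp s).region (show i + 1 ≤ l s from hil)
      refine hctx.grd.surj _ _ ((hcp s).adj i hil) ?_ ?_
      · rw [mem_rect]; omega
      · rw [mem_rect]; omega
    · rw [hU, hb.sdiff_eq]; exact (hfoot s).1
    · rw [hU, hb.sdiff_eq]; exact (hfoot s).2
  -- different squares are disjoint
  have hne : ∀ s s', s ≠ s' → ∀ i ≤ l s, ∀ j ≤ l s', v s i ≠ v s' j := by
    intro s s' hss i hil j hjl h
    have h1 := (hcp s).region hil
    have h2 := (hcp s').region hjl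
    rw [h] at h1
    have h3 := hb.far _ (hpR s) _ (hpR s') fun h => hss (hpinj h)
    unfold Far at h3
    omega
  have hvis' : ∀ s, Vis M C B (ins T ends U ∪ pthE T ends (v s) (l s)) (c s.1) := by
    intro s
    refine hb.pers s.1 ((hop s).pth hi) ?_ ?_ (hvis s)
    · rintro _ ⟨i, hi', rfl⟩
      exact ⟨p s, hpH s, (hcp s).mid i hi'.1 hi'.2⟩
    · rintro w (rfl | rfl)
      · exact (hfoot s).1
      · exact (hfoot s).2
  have hgad : ∀ t : Fin (m₀ + 1), ∃ f, Gad M C T B ends U (blks P) (c t)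
      (pthE T ends (v (t, 0)) (l (t, 0)) ∪ pthE T ends (v (t, 1)) (l (t, 1))) f
      (v (t, 0) '' Ioo 0 (l (t, 0)) ∪ v (t, 1) '' Ioo 0 (l (t, 1)))
      {v (t, 0) 0, v (t, 0) (l (t, 0)), v (t, 1) 0, v (t, 1) (l (t, 1))} := by
    intro t
    refine Gad.two hi (hop (t, 0)) (hop (t, 1)) (hne _ _ ?_) (hvis' (t, 0)) (hvis' (t, 1))
    intro h
    rw [Prod.mk.injEq] at h
    exact absurd h.2 (by decide)
  choose f hf using hgad
  -- all vertices of the paths of `t`
  have hst : ∀ {t t' : Fin (m₀ + 1)} (j j' : Fin 2), t ≠ t' → ((t, j) : _ × _) ≠ (t', j') := by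
    intro t t' j j' h h'
    rw [Prod.mk.injEq] at h'
    exact h h'.1
  obtain ⟨P', hP'M, hP'f, hP'B, hP'⟩ := hb.cert (W := fun t =>
      v (t, 0) '' Ioo 0 (l (t, 0)) ∪ v (t, 1) '' Ioo 0 (l (t, 1)))
    (E := fun t => {v (t, 0) 0, v (t, 0) (l (t, 0)), v (t, 1) 0, v (t, 1) (l (t, 1))}) hf (by
      intro t t' htt
      rw [Set.disjoint_left]
      rintro w (⟨i, hi1, rfl⟩ | ⟨i, hi1, rfl⟩) (⟨j, hj1, hj2⟩ | ⟨j, hj1, hj2⟩)
      · exact hne _ _ (hst 0 0 htt) i hi1.2.le j hj1.2.le hj2.symm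
      · exact hne _ _ (hst 0 1 htt) i hi1.2.le j hj1.2.le hj2.symm
      · exact hne _ _ (hst 1 0 htt) i hi1.2.le j hj1.2.le hj2.symm
      · exact hne _ _ (hst 1 1 htt) i hi1.2.le j hj1.2.le hj2.symm) (by
      intro t t' htt
      rw [Set.disjoint_left]
      have key : ∀ (t : Fin (m₀ + 1)) (w : ℕ × ℕ), w ∈ ({v (t, 0) 0, v (t, 0) (l (t, 0)),
          v (t, 1) 0, v (t, 1) (l (t, 1))} : Set (ℕ × ℕ)) →
          ∃ j : Fin 2, ∃ i ≤ l (t, j), w = v (t, j) i := by
        rintro t w (rfl | rfl | rfl | rfl)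
        · exact ⟨0, 0, Nat.zero_le _, rfl⟩
        · exact ⟨0, _, le_rfl, rfl⟩
        · exact ⟨1, 0, Nat.zero_le _, rfl⟩
        · exact ⟨1, _, le_rfl, rfl⟩
      intro w hw hw'
      obtain ⟨j, i, hil, rfl⟩ := key t w hw
      obtain ⟨j', i', hil', h⟩ := key t' _ hw'
      exact hne _ _ (hst j j' htt) i hil i' hil' h) (by
      intro t t' htt
      have hmem : ∀ s : Fin (m₀ + 1) × Fin 2, s.1 = t' →
          pthE T ends (v s) (l s) ⊆ ins T ends (pun N (A t)) := by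
        intro s hs
        subst hs
        have hpx := hpX s
        refine pthE_sub fun i hil => ?_
        rcases Nat.eq_zero_or_pos i with rfl | h1
        · exact hb.sub_pun t (Or.inl (hfoot s).1)
        · rcases Nat.lt_or_ge i (l s) with h2 | h2
          · refine hb.inv_sq htt (fun q hq q' hq' h => ?_) (hpH s) (by omega)
              ((hcp s).mid i h1 h2)
            have h3 := hfar t s.1 q hq q' hq' (Or.inl htt)
            rw [h] at h3
            unfold Far at h3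
            omega
          · have : i = l s := by omega
            subst this
            exact hb.sub_pun t (Or.inl (hfoot s).2)
      exact union_subset (hmem (t', 0) rfl) (hmem (t', 1) rfl))
  -- the gadget lemma
  have hPk : HasUniformMinor P' k := by
    have hgrd : GrdU (ins T ends (cv (QC X n L R))) ends
        (rect (dbl X).1 (dbl X).2 (2 * n) (2 * n) \
          ⋃ q ∈ R.image dbl, rect q.1 q.2 (2 * L) (2 * L)) := by
      rw [← csq_sdiff_eq, ← cv_QC]
      refine grdU_ins hctx.grd ?_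
      have := cv_mono hb.QC_sub
      refine this.trans ?_
      intro w hw
      rw [mem_cv, mem_rect] at hw
      rw [mem_rect]
      simp only at hw
      omega
    refine hGl P' (ins T ends (cv (QC X n L R))) ends (dbl X) (2 * n) (R.image dbl) hP'B hgrd ?_
      (fun t => f t.castSucc) (fun s => dbl (p (s.1.castSucc, s.2))) ?_ ?_ ?_ ?_ ?_
    · intro q hq q' hq' hne'
      obtain ⟨r, hr, rfl⟩ := Finset.mem_image.1 hq
      obtain ⟨r', hr', rfl⟩ := Finset.mem_image.1 hq'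
      exact (hb.far r hr r' hr' fun h => hne' (by rw [h])).dbl.mono (by omega)
    · intro s
      exact Finset.mem_image_of_mem _ (hpR _)
    · rintro ⟨t, j⟩ ⟨t', j'⟩ h
      have h1 := hpinj (dbl_inj h)
      rw [Prod.mk.injEq] at h1 ⊢
      exact ⟨Fin.castSucc_injective _ h1.1, h1.2⟩
    · intro s
      have hpx := hpX (s.1.castSucc, s.2)
      simp only [dbl]
      omega
    · intro t
      exact ⟨(hP' t.castSucc).1, (hP' t.castSucc).2.1⟩
    · intro t
      obtain ⟨a, ha, h0⟩ := (hcp (t.castSucc, 0)).left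
      obtain ⟨a', ha', h1⟩ := (hcp (t.castSucc, 0)).right
      obtain ⟨d, hd, h2⟩ := (hcp (t.castSucc, 1)).left
      obtain ⟨d', hd', h3⟩ := (hcp (t.castSucc, 1)).right
      refine ⟨a, ha, a', ha', d, hd, d', hd', ?_⟩
      rw [(hP' t.castSucc).2.2]
      simp only [h0, h1, h2, h3, foot, dbl, if_true, one_ne_zero, if_false]
  obtain ⟨N', h1, h2⟩ := hPk
  exact ⟨N', h1.trans hP'M, h2⟩

end CWL
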