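import Pool.Agent.CW.Defs

/-!
# Row K of Theorem CW: clusters
-/

open Set BIC BICS
open scoped Matroid

namespace CWL

/-- the scales -/
def scl (g : ℕ → ℕ) : ℕ → ℕ
  | 0 => 1
  | j + 1 => 2 * scl g j + g (scl g j)

lemma one_le_scl (g : ℕ → ℕ) (j : ℕ) : 1 ≤ scl g j := by
  induction j with
  | zero => exact le_refl 1
  | succ j ih => rw [scl]; omega

/-- two squares that are not far are contained in a square of the next scale -/
lemma exists_merge {δ s : ℕ} {p q : ℕ × ℕ} (h : ¬ Far δ p s q s) :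
    ∃ r : ℕ × ℕ, ∀ i : ℕ × ℕ, (i ∈ rect p.1 p.2 s s ∨ i ∈ rect q.1 q.2 s s) →
      i ∈ rect r.1 r.2 (2 * s + δ) (2 * s + δ) := by
  unfold Far at h
  push Not at h
  obtain ⟨h1, h2, h3, h4⟩ := h
  refine ⟨(min p.1 q.1, min p.2 q.2), fun i hi => ?_⟩
  simp only [rect, mem_ofPred_eq] at hi ⊢
  rcases hi with hi | hi <;> refine ⟨?_, ?_, ?_, ?_⟩ <;> omega

lemma rect_mono {q : ℕ × ℕ} {s t : ℕ} (h : s ≤ t) {i : ℕ × ℕ} (hi : i ∈ rect q.1 q.2 s s) :
    i ∈ rect q.1 q.2 t t := by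
  simp only [rect, mem_ofPred_eq] at hi ⊢
  omega

lemma cluster_aux (g : ℕ → ℕ) (A : Finset (ℕ × ℕ)) : ∀ (d j : ℕ) (Q : Finset (ℕ × ℕ)),
    Q.card ≤ d → (∀ i ∈ A, ∃ q ∈ Q, i ∈ rect q.1 q.2 (scl g j) (scl g j)) →
    ∃ j' ≤ j + d, ∃ Q' : Finset (ℕ × ℕ), Q'.card ≤ Q.card ∧
      (∀ q ∈ Q', ∀ r ∈ Q', q ≠ r → Far (g (scl g j')) q (scl g j') r (scl g j')) ∧
      ∀ i ∈ A, ∃ q ∈ Q', i ∈ rect q.1 q.2 (scl g j') (scl g j') := by
  classical
  intro d
  induction d with
  | zero =>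
    intro j Q hQ hA
    have hQ' : Q = ∅ := Finset.card_eq_zero.1 (by omega)
    exact ⟨j, le_refl _, Q, le_refl _, by simp [hQ'], hA⟩
  | succ d ih =>
    intro j Q hQ hA
    by_cases hfar : ∀ q ∈ Q, ∀ r ∈ Q, q ≠ r → Far (g (scl g j)) q (scl g j) r (scl g j)
    · exact ⟨j, by omega, Q, le_refl _, hfar, hA⟩
    · push Not at hfar
      obtain ⟨p, hp, q, hq, hpq, hn⟩ := hfar
      obtain ⟨r, hr⟩ := exists_merge hn
      have hc : (insert r ((Q.erase p).erase q)).card + 1 ≤ Q.card := by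
        have h1 := Finset.card_insert_le r ((Q.erase p).erase q)
        have h2 : q ∈ Q.erase p := Finset.mem_erase.2 ⟨hpq.symm, hq⟩
        have h3 := Finset.card_erase_add_one h2
        have h4 := Finset.card_erase_add_one hp
        omega
      obtain ⟨j', hj', Q', hQ', hfar', hA'⟩ := ih (j + 1) (insert r ((Q.erase p).erase q))
        (by omega) (by
          intro i hi
          obtain ⟨t, ht, hit⟩ := hA i hi
          by_cases htp : t = p
          · exact ⟨r, Finset.mem_insert_self _ _, hr i (Or.inl (htp ▸ hit))⟩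
          by_cases htq : t = q
          · exact ⟨r, Finset.mem_insert_self _ _, hr i (Or.inr (htq ▸ hit))⟩
          refine ⟨t, Finset.mem_insert_of_mem (Finset.mem_erase.2 ⟨htq,
            Finset.mem_erase.2 ⟨htp, ht⟩⟩), rect_mono ?_ hit⟩
          rw [scl]
          omega)
      exact ⟨j', by omega, Q', by omega, hfar', hA'⟩

/-- **Row K.** -/
theorem cluster : ClusterStmt := by
  intro b g
  refine ⟨scl g, one_le_scl g, fun A hA => ?_⟩
  obtain ⟨j, hj, Q, hQ, hfar, hcov⟩ := cluster_aux g A A.card 0 A (le_refl _) (by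
    intro i hi
    refine ⟨i, hi, ?_⟩
    simp only [rect, mem_ofPred_eq, scl]
    omega)
  exact ⟨j, by omega, Q, by omega, hfar, hcov⟩

end CWL
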