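import Pool.Agent.CW.Defs3
import Pool.Agent.GL.Loc

/-!
# Theorem CW, row W: the coarse wall (helper34)
-/

open Set BIC BICS
open scoped Matroid

namespace CWL

namespace Co

universe u

variable {α : Type*} {M : Matroid α} {C T B : Set α} {ends : α → Sym2 (ℕ × ℕ)}

lemma mono' {X Y : Set α} {c : α} (h : X ⊆ Y) (hv : Vis M C B X c) : Vis M C B Y c :=
  M.closure_subset_closure (union_subset_union_left _ h) hv

/-- A pendant element does not change visibility. -/
lemma pend (hT : T ⊆ M.E \ C) (hB : Bic (M ／ C) T ends) (hBC : B ⊆ C) {c : α} (hc : c ∈ C \ B)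
    {X : Set α} {e : α} (he : e ∈ T) {v : ℕ × ℕ} (hv : v ∈ ends e) (hX : X ⊆ T)
    (hXv : ∀ f ∈ X, v ∉ ends f) (h : Vis M C B (insert e X) c) : Vis M C B X c := by
  by_contra hn
  unfold Vis at h hn
  rw [insert_union] at h
  have h1 := (M.closure_exchange ⟨h, hn⟩).1
  have h2 : insert c (X ∪ (C \ insert c B)) ⊆ X ∪ C := by
    rintro x (rfl | hx | hx)
    · exact Or.inr hc.1
    · exact Or.inl hx
    · exact Or.inr hx.1
  have h3 := M.closure_subset_closure h2 h1
  refine Gad.not_mem_Hx' hB he hv ?_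
  unfold Gad.Hx
  rw [Matroid.contract_closure_eq]
  refine ⟨M.closure_subset_closure (union_subset_union_left _ ?_) h3, (hT he).2⟩
  intro f hf
  refine ⟨hX hf, fun w hw hwv => ?_⟩
  rw [mem_singleton_iff] at hwv
  rw [hwv] at hw
  exact hXv f hf hw

/-- Peel a dangling path. -/
lemma peel (hT : T ⊆ M.E \ C) (hB : Bic (M ／ C) T ends) (hBC : B ⊆ C) {c : α} (hc : c ∈ C \ B)
    (hi : InjOn ends T) {Y : Set α} (hY : Y ⊆ T) {v : ℕ → ℕ × ℕ} :
    ∀ n, InjOn v (Iic n) → (∀ f ∈ Y, ∀ i, 0 < i → i ≤ n → v i ∉ ends f) →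
      Vis M C B (Y ∪ pthE T ends v n) c → Vis M C B Y c := by
  intro n
  induction n with
  | zero =>
    intro _ _ h
    refine mono' ?_ h
    rintro e (he | ⟨_, i, hi, _⟩)
    · exact he
    · omega
  | succ n ih =>
    intro hinj hav h
    refine ih (hinj.mono (Iic_subset_Iic.2 (by omega))) (fun f hf i h1 h2 => hav f hf i h1 (by omega)) ?_
    by_cases hex : ∃ e ∈ T, ends e = s(v n, v (n + 1))
    · obtain ⟨e, heT, he⟩ := hex
      refine pend hT hB hBC hc heT (v := v (n + 1)) (by rw [he]; simp) ?_ ?_ (mono' ?_ h)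
      · exact union_subset hY fun f hf => hf.1
      · rintro f (hf | ⟨_, i, hi, hfe⟩) hmem
        · exact hav f hf (n + 1) (by omega) le_rfl hmem
        · rw [hfe, Sym2.mem_iff] at hmem
          rcases hmem with h1 | h1
          · have := hinj (mem_Iic.2 le_rfl) (mem_Iic.2 (by omega)) h1
            omega
          · have := hinj (mem_Iic.2 le_rfl) (mem_Iic.2 (by omega)) h1
            omega
      · rintro f (hf | ⟨hfT, i, hin, hfe⟩)
        · exact Or.inr (Or.inl hf)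
        · rcases Nat.lt_succ_iff_lt_or_eq.1 hin with h1 | h1
          · exact Or.inr (Or.inr ⟨hfT, i, h1, hfe⟩)
          · subst h1
            exact Or.inl (hi hfT heT (hfe.trans he.symm))
    · refine mono' ?_ h
      rintro f (hf | ⟨hfT, i, hin, hfe⟩)
      · exact Or.inl hf
      · rcases Nat.lt_succ_iff_lt_or_eq.1 hin with h1 | h1
        · exact Or.inr ⟨hfT, i, h1, hfe⟩
        · subst h1
          exact absurd ⟨f, hfT, hfe⟩ hex

/-- Peel a path without one edge. -/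
lemma peel2 (hT : T ⊆ M.E \ C) (hB : Bic (M ／ C) T ends) (hBC : B ⊆ C) {c : α} (hc : c ∈ C \ B)
    (hi : InjOn ends T) {Y : Set α} (hY : Y ⊆ T) {v : ℕ → ℕ × ℕ} {n : ℕ} (hinj : InjOn v (Iic n))
    (hav : ∀ f ∈ Y, ∀ i, 0 < i → i < n → v i ∉ ends f) {r : α} (hrT : r ∈ T) {a : ℕ} (ha : a < n)
    (hr : ends r = s(v a, v (a + 1))) (h : Vis M C B (Y ∪ (pthE T ends v n \ {r})) c) :
    Vis M C B Y c := by
  have h1 : Vis M C B ((Y ∪ pthE T ends v a) ∪ pthE T ends (fun i => v (n - i)) (n - a - 1)) c := by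
    refine mono' ?_ h
    rintro f (hf | ⟨⟨hfT, i, hin, hfe⟩, hfr⟩)
    · exact Or.inl (Or.inl hf)
    · rcases lt_trichotomy i a with h2 | h2 | h2
      · exact Or.inl (Or.inr ⟨hfT, i, h2, hfe⟩)
      · subst h2
        exact absurd (hi hfT hrT (hfe.trans hr.symm)) hfr
      · refine Or.inr ⟨hfT, n - 1 - i, by omega, ?_⟩
        simp only
        rw [show n - (n - 1 - i) = i + 1 by omega, show n - (n - 1 - i + 1) = i by omega, hfe,
          Sym2.eq_swap]
  have h2 : Vis M C B (Y ∪ pthE T ends v a) c := by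
    refine peel hT hB hBC hc hi (union_subset hY fun f hf => hf.1) (n - a - 1) ?_ ?_ h1
    · intro i hi1 j hj1 hij
      have hi2 := mem_Iic.1 hi1
      have hj2 := mem_Iic.1 hj1
      have := hinj (mem_Iic.2 (Nat.sub_le n i)) (mem_Iic.2 (Nat.sub_le n j)) hij
      omega
    · rintro f (hf | ⟨_, i, hia, hfe⟩) j hj1 hj2
      · exact hav f hf _ (by omega) (by omega)
      · intro hmem
        rw [hfe, Sym2.mem_iff] at hmem
        rcases hmem with h3 | h3
        · have := hinj (mem_Iic.2 (Nat.sub_le n j)) (mem_Iic.2 (by omega)) h3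
          omega
        · have := hinj (mem_Iic.2 (Nat.sub_le n j)) (mem_Iic.2 (by omega)) h3
          omega
  exact peel hT hB hBC hc hi hY a (hinj.mono (Iic_subset_Iic.2 ha.le))
    (fun f hf i h3 h4 => hav f hf i h3 (by omega)) h2

/-! ### The wall -/

/-- the vertices of a segment -/
def sv (Z : ℕ × ℕ) (l : ℕ) (s : Bool × ℕ × ℕ) (i : ℕ) : ℕ × ℕ :=
  if s.1 = true then (Z.1 + s.2.1 * l + i, Z.2 + s.2.2 * l)
  else (Z.1 + s.2.1 * l, Z.2 + s.2.2 * l + i)

lemma sv_t (Z : ℕ × ℕ) (l a b i : ℕ) : sv Z l (true, a, b) i = (Z.1 + a * l + i, Z.2 + b * l) := rfl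

lemma sv_f (Z : ℕ × ℕ) (l a b i : ℕ) : sv Z l (false, a, b) i = (Z.1 + a * l, Z.2 + b * l + i) :=
  rfl

lemma segE_eq (Z : ℕ × ℕ) (l : ℕ) (s : Bool × ℕ × ℕ) :
    segE T ends Z l s = pthE T ends (sv Z l s) l := by
  obtain ⟨o, a, b⟩ := s
  ext e
  unfold segE pthE
  simp only [mem_ofPred_eq]
  cases o
  · simp only [sv_f]
    constructor
    · rintro ⟨h1, t, h2, (⟨h3, _⟩ | ⟨_, h3⟩)⟩
      · simp at h3
      · exact ⟨h1, t, h2, h3⟩
    · rintro ⟨h1, t, h2, h3⟩
      exact ⟨h1, t, h2, Or.inr ⟨trivial, h3⟩⟩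
  · simp only [sv_t]
    constructor
    · rintro ⟨h1, t, h2, (⟨_, h3⟩ | ⟨h3, _⟩)⟩
      · exact ⟨h1, t, h2, h3⟩
      · simp at h3
    · rintro ⟨h1, t, h2, h3⟩
      exact ⟨h1, t, h2, Or.inl ⟨trivial, h3⟩⟩

lemma sv_inj (Z : ℕ × ℕ) (l n : ℕ) (s : Bool × ℕ × ℕ) : InjOn (sv Z l s) (Iic n) := by
  obtain ⟨o, a, b⟩ := s
  intro i _ j _ hij
  cases o
  · rw [sv_f, sv_f, Prod.mk.injEq] at hij
    omega
  · rw [sv_t, sv_t, Prod.mk.injEq] at hij
    omega

lemma mul_uniq {l a a' i i' : ℕ} (hi0 : 0 < i) (hi : i < l) (hi' : i' ≤ l)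
    (h : a * l + i = a' * l + i') : a = a' ∧ i = i' := by
  rcases lt_trichotomy a a' with h1 | h1 | h1
  · have h2 : (a + 1) * l ≤ a' * l := Nat.mul_le_mul_right _ h1
    rw [add_mul, one_mul] at h2
    omega
  · subst h1
    exact ⟨rfl, by omega⟩
  · have h2 : (a' + 1) * l ≤ a * l := Nat.mul_le_mul_right _ h1
    rw [add_mul, one_mul] at h2
    omega

lemma sv_uniq {Z : ℕ × ℕ} {l : ℕ} {s s' : Bool × ℕ × ℕ} {i i' : ℕ} (hi0 : 0 < i) (hi : i < l)
    (hi' : i' ≤ l) (h : sv Z l s i = sv Z l s' i') : s = s' ∧ i = i' := by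
  have hl : 0 < l := by omega
  obtain ⟨o, a, b⟩ := s
  obtain ⟨o', a', b'⟩ := s'
  have hz : ∀ {x x' : ℕ}, x * l = x' * l → x = x' := fun {x x'} hx =>
    Nat.eq_of_mul_eq_mul_right hl hx
  have hz2 : ∀ {x x' : ℕ}, x * l + i ≠ x' * l := by
    intro x x' hx
    have := mul_uniq hi0 hi (Nat.zero_le l) (a := x) (a' := x') (i' := 0) (by omega)
    omega
  cases o <;> cases o'
  · rw [sv_f, sv_f, Prod.mk.injEq] at h
    obtain ⟨h1, h2⟩ := mul_uniq (a := b) (a' := b') hi0 hi hi' (by omega)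
    have h3 := hz (x := a) (x' := a') (by omega)
    subst h1 h2 h3
    exact ⟨rfl, rfl⟩
  · rw [sv_f, sv_t, Prod.mk.injEq] at h
    exact absurd (show b * l + i = b' * l by omega) hz2
  · rw [sv_t, sv_f, Prod.mk.injEq] at h
    exact absurd (show a * l + i = a' * l by omega) hz2
  · rw [sv_t, sv_t, Prod.mk.injEq] at h
    obtain ⟨h1, h2⟩ := mul_uniq (a := a) (a' := a') hi0 hi hi' (by omega)
    have h3 := hz (x := b) (x' := b') (by omega)
    subst h1 h2 h3
    exact ⟨rfl, rfl⟩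

lemma wall_iff {Z : ℕ × ℕ} {l y : ℕ} {e : α} : e ∈ wallE T ends Z l y ↔
    ∃ s ∈ Seg y, e ∈ T ∧ ∃ i < l, ends e = s(sv Z l s i, sv Z l s (i + 1)) := by
  unfold wallE
  simp only [mem_iUnion, exists_prop]
  constructor
  · rintro ⟨s, hs, h⟩
    rw [segE_eq] at h
    exact ⟨s, hs, h⟩
  · rintro ⟨s, hs, h⟩
    refine ⟨s, hs, ?_⟩
    rw [segE_eq]
    exact h

lemma wall_T {Z : ℕ × ℕ} {l y : ℕ} : wallE T ends Z l y ⊆ T := by
  intro e he
  obtain ⟨_, _, h, _⟩ := wall_iff.1 he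
  exact h

/-- A violating element is visible without any segment. -/
lemma vis_sdiff (hT : T ⊆ M.E \ C) (hB : Bic (M ／ C) T ends) (hBC : B ⊆ C) {c : α}
    (hc : c ∈ C \ B) (hi : InjOn ends T) {Z : ℕ × ℕ} {l y : ℕ} {s : Bool × ℕ × ℕ}
    (hs : s ∈ Seg y) {r : α} (hr : r ∈ segE T ends Z l s)
    (h : Vis M C B (wallE T ends Z l y \ {r}) c) :
    Vis M C B (wallE T ends Z l y \ segE T ends Z l s) c := by
  rw [segE_eq] at hr ⊢
  obtain ⟨hrT, a, ha, hre⟩ := hr
  refine peel2 hT hB hBC hc hi (sdiff_subset.trans wall_T) (sv_inj Z l l s) ?_ hrT ha hre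
    (mono' ?_ h)
  · rintro f ⟨hf, hfs⟩ i h1 h2 hmem
    obtain ⟨s', hs', hfT, j, hj, hfe⟩ := wall_iff.1 hf
    rw [hfe, Sym2.mem_iff] at hmem
    rcases hmem with h3 | h3
    · obtain ⟨rfl, _⟩ := sv_uniq h1 h2 (by omega) h3
      exact hfs ⟨hfT, j, hj, hfe⟩
    · obtain ⟨rfl, _⟩ := sv_uniq h1 h2 (by omega) h3
      exact hfs ⟨hfT, j, hj, hfe⟩
  · rintro f ⟨hf, hfr⟩
    by_cases hfs : f ∈ pthE T ends (sv Z l s) l
    · exact Or.inr ⟨hfs, hfr⟩
    · exact Or.inl ⟨hf, hfs⟩

/-! ### The hole and the wall -/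

lemma mem_csq' {q w : ℕ × ℕ} {L : ℕ} : w ∈ csq q L ↔ 2 * q.1 ≤ w.1 ∧ w.1 < 2 * q.1 + 2 * L ∧
    2 * q.2 ≤ w.2 ∧ w.2 < 2 * q.2 + 2 * L := Iff.rfl

lemma mem_cl2' {i w : ℕ × ℕ} : w ∈ cl2 i ↔ 2 * i.1 ≤ w.1 ∧ w.1 < 2 * i.1 + 2 ∧
    2 * i.2 ≤ w.2 ∧ w.2 < 2 * i.2 + 2 := Iff.rfl

/-- the node `(i, j)` -/
def nd (Z : ℕ × ℕ) (l i j : ℕ) : ℕ × ℕ := (Z.1 + i * l, Z.2 + j * l)

/-- the segments at the node `(i, j)`: left, right, up, down -/
def sg (i j : ℕ) (d : Fin 4) : Bool × ℕ × ℕ :=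
  if d = 0 then (true, i - 1, j) else if d = 1 then (true, i, j) else
    if d = 2 then (false, i, j) else (false, i, j - 1)

lemma near {l x x' D L t : ℕ} (hl : 2 * L < l) (h1 : D ≤ x * l) (h2 : x * l < D + 2 * L)
    (h3 : D ≤ x' * l + t) (h4 : x' * l + t < D + 2 * L) (ht : t ≤ l) : x' = x ∨ x' + 1 = x := by
  rcases lt_trichotomy x' x with h5 | h5 | h5
  · rcases Nat.lt_or_ge (x' + 1) x with h6 | h6
    · have h7 : (x' + 2) * l ≤ x * l := Nat.mul_le_mul_right _ h6
      rw [add_mul] at h7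
      omega
    · exact Or.inr (by omega)
  · exact Or.inl h5
  · have h7 : (x + 1) * l ≤ x' * l := Nat.mul_le_mul_right _ h5
    rw [add_mul, one_mul] at h7
    omega

lemma near0 {l x x' D L : ℕ} (hl : 2 * L < l) (h1 : D ≤ x * l) (h2 : x * l < D + 2 * L)
    (h3 : D ≤ x' * l) (h4 : x' * l < D + 2 * L) : x' = x := by
  rcases lt_trichotomy x' x with h5 | h5 | h5
  · have h7 : (x' + 1) * l ≤ x * l := Nat.mul_le_mul_right _ h5
    rw [add_mul, one_mul] at h7
    omega
  · exact h5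
  · have h7 : (x + 1) * l ≤ x' * l := Nat.mul_le_mul_right _ h5
    rw [add_mul, one_mul] at h7
    omega

/-- If a small square contains a node then only segments at the node meet it. -/
lemma at_node {Z q : ℕ × ℕ} {l L y i j : ℕ} (hl : 2 * L < l) (hw : nd Z l i j ∈ csq q L)
    {s : Bool × ℕ × ℕ} (hs : s ∈ Seg y) {t : ℕ} (ht : t ≤ l) (hst : sv Z l s t ∈ csq q L) :
    (s = (true, i, j) ∧ i < y ∧ j ≤ y) ∨ (s = (true, i - 1, j) ∧ 0 < i ∧ i ≤ y ∧ j ≤ y) ∨
    (s = (false, i, j) ∧ (i + j) % 2 = 0 ∧ i ≤ y ∧ j < y) ∨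
    (s = (false, i, j - 1) ∧ 0 < j ∧ (i + j) % 2 = 1 ∧ i ≤ y ∧ j ≤ y) := by
  obtain ⟨o, a, b⟩ := s
  unfold nd at hw
  rw [mem_csq'] at hw hst
  simp only at hw
  cases o
  · rw [sv_f] at hst
    simp only at hst
    rcases hs with ⟨h1, _⟩ | ⟨_, h1, h2, h3⟩
    · simp at h1
    simp only at h1 h2 h3
    have h4 : a = i := near0 (D := 2 * q.1 - Z.1) (L := L) hl (by omega) (by omega) (by omega)
      (by omega)
    subst h4
    rcases near (D := 2 * q.2 - Z.2) (L := L) (x := j) (x' := b) (t := t) hl (by omega) (by omega)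
      (by omega) (by omega) ht with h5 | h5
    · subst h5
      exact Or.inr (Or.inr (Or.inl ⟨rfl, h3, h1, h2⟩))
    · subst h5
      exact Or.inr (Or.inr (Or.inr ⟨by simp, by omega, by omega, by omega, by omega⟩))
  · rw [sv_t] at hst
    simp only at hst
    rcases hs with ⟨_, h1, h2⟩ | ⟨h1, _⟩
    swap
    · simp at h1
    simp only at h1 h2
    have h4 : b = j := near0 (D := 2 * q.2 - Z.2) (L := L) hl (by omega) (by omega) (by omega)
      (by omega)
    subst h4
    rcases near (D := 2 * q.1 - Z.1) (L := L) (x := i) (x' := a) (t := t) hl (by omega) (by omega)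
      (by omega) (by omega) ht with h5 | h5
    · subst h5
      exact Or.inl ⟨rfl, h1, h2⟩
    · subst h5
      exact Or.inr (Or.inl ⟨by simp, by omega, by omega, by omega⟩)

/-- If a small square contains no node then at most one segment meets it. -/
lemma no_node {Z q : ℕ × ℕ} {l L y : ℕ} (hl : 2 * L < l)
    (hno : ∀ i ≤ y, ∀ j ≤ y, nd Z l i j ∉ csq q L) {s s' : Bool × ℕ × ℕ} (hs : s ∈ Seg y)
    (hs' : s' ∈ Seg y) {t t' : ℕ} (ht : t ≤ l) (ht' : t' ≤ l) (h : sv Z l s t ∈ csq q L)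
    (h' : sv Z l s' t' ∈ csq q L) : s = s' := by
  -- the statement for horizontal segments and for vertical segments
  have key : ∀ {x x' D t t' : ℕ}, t ≤ l → t' ≤ l → D ≤ x * l + t → x' * l + t' < D + 2 * L →
      x < x' → D ≤ x' * l ∧ x' * l < D + 2 * L := by
    intro x x' D t t' ht ht' h1 h2 h3
    have h4 : (x + 1) * l ≤ x' * l := Nat.mul_le_mul_right _ h3
    rw [add_mul, one_mul] at h4
    omega
  obtain ⟨o, a, b⟩ := s
  obtain ⟨o', a', b'⟩ := s'
  rw [mem_csq'] at h h'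
  cases o <;> cases o'
  · rw [sv_f] at h h'
    simp only at h h'
    rcases hs with ⟨h1, _⟩ | ⟨_, h1, h2, h3⟩
    · simp at h1
    rcases hs' with ⟨h1', _⟩ | ⟨_, h1', h2', h3'⟩
    · simp at h1'
    simp only at h1 h2 h3 h1' h2' h3'
    have h4 : a = a' := near0 (D := 2 * q.1 - Z.1) (L := L) hl (by omega) (by omega) (by omega)
      (by omega)
    subst h4
    rcases lt_trichotomy b b' with h5 | h5 | h5
    · have h6 := key (D := 2 * q.2 - Z.2) ht ht' (by omega) (by omega) h5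
      refine absurd ?_ (hno a h1 b' (by omega))
      unfold nd
      rw [mem_csq']
      simp only
      omega
    · rw [h5]
    · have h6 := key (D := 2 * q.2 - Z.2) ht' ht (by omega) (by omega) h5
      refine absurd ?_ (hno a h1 b (by omega))
      unfold nd
      rw [mem_csq']
      simp only
      omega
  · rw [sv_f] at h
    rw [sv_t] at h'
    simp only at h h'
    rcases hs with ⟨h1, _⟩ | ⟨_, h1, h2, h3⟩
    · simp at h1
    rcases hs' with ⟨_, h1', h2'⟩ | ⟨h1', _⟩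
    swap
    · simp at h1'
    simp only at h1 h2 h3 h1' h2'
    refine absurd ?_ (hno a h1 b' h2')
    unfold nd
    rw [mem_csq']
    simp only
    omega
  · rw [sv_t] at h
    rw [sv_f] at h'
    simp only at h h'
    rcases hs' with ⟨h1', _⟩ | ⟨_, h1', h2', h3'⟩
    · simp at h1'
    rcases hs with ⟨_, h1, h2⟩ | ⟨h1, _⟩
    swap
    · simp at h1
    simp only at h1 h2 h1' h2' h3'
    refine absurd ?_ (hno a' h1' b h2)
    unfold nd
    rw [mem_csq']
    simp only
    omega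
  · rw [sv_t] at h h'
    simp only at h h'
    rcases hs with ⟨_, h1, h2⟩ | ⟨h1, _⟩
    swap
    · simp at h1
    rcases hs' with ⟨_, h1', h2'⟩ | ⟨h1', _⟩
    swap
    · simp at h1'
    simp only at h1 h2 h1' h2'
    have h4 : b = b' := near0 (D := 2 * q.2 - Z.2) (L := L) hl (by omega) (by omega) (by omega)
      (by omega)
    subst h4
    rcases lt_trichotomy a a' with h5 | h5 | h5
    · have h6 := key (D := 2 * q.1 - Z.1) ht ht' (by omega) (by omega) h5
      refine absurd ?_ (hno a' (by omega) b h2)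
      unfold nd
      rw [mem_csq']
      simp only
      omega
    · rw [h5]
    · have h6 := key (D := 2 * q.1 - Z.1) ht' ht (by omega) (by omega) h5
      refine absurd ?_ (hno a (by omega) b h2)
      unfold nd
      rw [mem_csq']
      simp only
      omega

/-- The ends of a wall element. -/
lemma wall_end {Z : ℕ × ℕ} {l y : ℕ} {f : α} (hf : f ∈ wallE T ends Z l y) {v : ℕ × ℕ}
    (hv : v ∈ ends f) : ∃ s ∈ Seg y, f ∈ segE T ends Z l s ∧ ∃ t ≤ l, v = sv Z l s t := by
  obtain ⟨s, hs, hfT, i, hi, hfe⟩ := wall_iff.1 hf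
  refine ⟨s, hs, ?_, ?_⟩
  · rw [segE_eq]
    exact ⟨hfT, i, hi, hfe⟩
  · rw [hfe, Sym2.mem_iff] at hv
    rcases hv with rfl | rfl
    · exact ⟨i, hi.le, rfl⟩
    · exact ⟨i + 1, hi, rfl⟩

section viol

variable {c : α} {Z q : ℕ × ℕ} {l L y : ℕ}

/-- At most two segments meet the hole, they are in series: contradiction. -/
lemma pair (hT : T ⊆ M.E \ C) (hB : Bic (M ／ C) T ends) (hBC : B ⊆ C) (hc : c ∈ C \ B)
    (hi : InjOn ends T) (hV0 : Vis M C B (wallE T ends Z l y) c)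
    (hV : ∀ s ∈ Seg y, Vis M C B (wallE T ends Z l y \ segE T ends Z l s) c)
    (hH : ∀ Y ⊆ wallE T ends Z l y, (∀ f ∈ Y, ∀ v ∈ ends f, v ∉ csq q L) → ¬ Vis M C B Y c)
    (s s' : Bool × ℕ × ℕ)
    (hcov : ∀ s'' ∈ Seg y, ∀ t ≤ l, sv Z l s'' t ∈ csq q L → s'' = s ∨ s'' = s')
    (hw : s' ∈ Seg y → s ∈ Seg y → sv Z l s' 0 ∈ csq q L ∨ sv Z l s' l ∈ csq q L) : False := by
  by_cases hs : s ∈ Seg y
  · by_cases hs' : s' ∈ Seg y
    · have hav : ∀ f ∈ wallE T ends Z l y \ (segE T ends Z l s ∪ segE T ends Z l s'),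
          ∀ v ∈ ends f, v ∉ csq q L := by
        rintro f ⟨hf, hfs⟩ v hv hvD
        obtain ⟨s'', hs'', hfs'', t, ht, rfl⟩ := wall_end hf hv
        rcases hcov s'' hs'' t ht hvD with rfl | rfl
        · exact hfs (Or.inl hfs'')
        · exact hfs (Or.inr hfs'')
      have hint : ∀ f ∈ wallE T ends Z l y \ (segE T ends Z l s ∪ segE T ends Z l s'),
          ∀ i, 0 < i → i < l → sv Z l s' i ∉ ends f := by
        rintro f ⟨hf, hfs⟩ i h1 h2 hmem
        obtain ⟨s'', hs'', hfs'', t, ht, hvt⟩ := wall_end hf hmem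
        obtain ⟨rfl, _⟩ := sv_uniq h1 h2 ht hvt
        exact hfs (Or.inr hfs'')
      refine hH _ sdiff_subset hav ?_
      have hsub : ∀ P : Set α, segE T ends Z l s' ⊆ P →
          wallE T ends Z l y \ segE T ends Z l s ⊆
          (wallE T ends Z l y \ (segE T ends Z l s ∪ segE T ends Z l s')) ∪ P := by
        rintro P hP f ⟨hf, hfs⟩
        by_cases hfs' : f ∈ segE T ends Z l s'
        · exact Or.inr (hP hfs')
        · refine Or.inl ⟨hf, ?_⟩
          rintro (h | h)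
          · exact hfs h
          · exact hfs' h
      rcases hw hs' hs with h1 | h1
      · -- the path from the far end
        refine peel hT hB hBC hc hi (sdiff_subset.trans wall_T) (v := fun t => sv Z l s' (l - t)) l
          ?_ ?_ (mono' (hsub _ ?_) (hV s hs))
        · intro i hi1 j hj1 hij
          have hi2 := mem_Iic.1 hi1
          have hj2 := mem_Iic.1 hj1
          have := sv_inj Z l l s' (mem_Iic.2 (Nat.sub_le l i)) (mem_Iic.2 (Nat.sub_le l j)) hij
          omega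
        · intro f hf i h2 h3 hmem
          rcases Nat.lt_or_ge i l with h4 | h4
          · exact hint f hf (l - i) (by omega) (by omega) hmem
          · have h5 : l - i = 0 := by omega
            simp only [h5] at hmem
            exact hav f hf _ hmem h1
        · rw [segE_eq]
          rintro f ⟨hfT, i, hil, hfe⟩
          refine ⟨hfT, l - 1 - i, by omega, ?_⟩
          simp only
          rw [show l - (l - 1 - i) = i + 1 by omega, show l - (l - 1 - i + 1) = i by omega, hfe,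
            Sym2.eq_swap]
      · refine peel hT hB hBC hc hi (sdiff_subset.trans wall_T) (v := sv Z l s') l
          (sv_inj Z l l s') ?_ (mono' (hsub _ ?_) (hV s hs))
        · intro f hf i h2 h3 hmem
          rcases Nat.lt_or_ge i l with h4 | h4
          · exact hint f hf i h2 h4 hmem
          · have h5 : i = l := by omega
            subst h5
            exact hav f hf _ hmem h1
        · rw [segE_eq]
    · refine hH _ sdiff_subset ?_ (hV s hs)
      rintro f ⟨hf, hfs⟩ v hv hvD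
      obtain ⟨s'', hs'', hfs'', t, ht, rfl⟩ := wall_end hf hv
      rcases hcov s'' hs'' t ht hvD with rfl | rfl
      · exact hfs hfs''
      · exact hs' hs''
  · by_cases hs' : s' ∈ Seg y
    · refine hH _ sdiff_subset ?_ (hV s' hs')
      rintro f ⟨hf, hfs⟩ v hv hvD
      obtain ⟨s'', hs'', hfs'', t, ht, rfl⟩ := wall_end hf hv
      rcases hcov s'' hs'' t ht hvD with rfl | rfl
      · exact hs hs''
      · exact hfs hfs''
    · refine hH _ subset_rfl ?_ hV0
      rintro f hf v hv hvD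
      obtain ⟨s'', hs'', hfs'', t, ht, rfl⟩ := wall_end hf hv
      rcases hcov s'' hs'' t ht hvD with rfl | rfl
      · exact hs hs''
      · exact hs' hs''

/-- The hole of a violating element contains a node of degree three. -/
lemma deg3 (hT : T ⊆ M.E \ C) (hB : Bic (M ／ C) T ends) (hBC : B ⊆ C) (hc : c ∈ C \ B)
    (hi : InjOn ends T) (hl : 2 * L < l) (hV0 : Vis M C B (wallE T ends Z l y) c)
    (hV : ∀ s ∈ Seg y, Vis M C B (wallE T ends Z l y \ segE T ends Z l s) c)
    (hH : ∀ Y ⊆ wallE T ends Z l y, (∀ f ∈ Y, ∀ v ∈ ends f, v ∉ csq q L) → ¬ Vis M C B Y c) :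
    ∃ i j, 0 < i ∧ i < y ∧ nd Z l i j ∈ csq q L ∧
      (((i + j) % 2 = 0 ∧ j < y) ∨ ((i + j) % 2 = 1 ∧ 0 < j ∧ j ≤ y)) := by
  by_cases hnode : ∃ i ≤ y, ∃ j ≤ y, nd Z l i j ∈ csq q L
  · obtain ⟨i, hi1, j, hj1, hw⟩ := hnode
    have hpair := pair hT hB hBC hc hi hV0 hV hH
    have hat := fun (s : Bool × ℕ × ℕ) (hs : s ∈ Seg y) (t : ℕ) (ht : t ≤ l)
      (h : sv Z l s t ∈ csq q L) => at_node hl hw hs ht h
    have hdn : 0 < j → sv Z l (false, i, j - 1) l = nd Z l i j := by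
      intro hj
      rw [sv_f]
      unfold nd
      obtain ⟨j', rfl⟩ : ∃ j', j = j' + 1 := ⟨j - 1, by omega⟩
      rw [Nat.add_sub_cancel, add_mul, one_mul, Prod.mk.injEq]
      exact ⟨rfl, by omega⟩
    have hup : sv Z l (false, i, j) 0 = nd Z l i j := rfl
    have hrt : sv Z l (true, i, j) 0 = nd Z l i j := rfl
    rcases Nat.eq_zero_or_pos i with h0 | h0
    · exfalso
      rcases Nat.mod_two_eq_zero_or_one (i + j) with hp | hp
      · refine hpair (true, i, j) (false, i, j) ?_ (fun _ _ => Or.inl (by rw [hup]; exact hw))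
        intro s hs t ht h
        rcases hat s hs t ht h with ⟨h1, _⟩ | ⟨_, h1, _⟩ | ⟨h1, _⟩ | ⟨_, _, h1, _⟩
        · exact Or.inl h1
        · omega
        · exact Or.inr h1
        · omega
      · refine hpair (true, i, j) (false, i, j - 1) ?_ (fun _ _ => Or.inr ?_)
        · intro s hs t ht h
          rcases hat s hs t ht h with ⟨h1, _⟩ | ⟨_, h1, _⟩ | ⟨_, h1, _⟩ | ⟨h1, _⟩
          · exact Or.inl h1
          · omega
          · omega
          · exact Or.inr h1
        · rw [hdn (by omega)]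
          exact hw
    · rcases Nat.lt_or_ge i y with h1 | h1
      · rcases Nat.mod_two_eq_zero_or_one (i + j) with hp | hp
        · rcases Nat.lt_or_ge j y with h2 | h2
          · exact ⟨i, j, h0, h1, hw, Or.inl ⟨hp, h2⟩⟩
          · exfalso
            refine hpair (true, i - 1, j) (true, i, j) ?_
              (fun _ _ => Or.inl (by rw [hrt]; exact hw))
            intro s hs t ht h
            rcases hat s hs t ht h with ⟨h3, _⟩ | ⟨h3, _⟩ | ⟨_, _, _, h3⟩ | ⟨_, _, h3, _⟩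
            · exact Or.inr h3
            · exact Or.inl h3
            · omega
            · omega
        · rcases Nat.eq_zero_or_pos j with h2 | h2
          · exfalso
            refine hpair (true, i - 1, j) (true, i, j) ?_
              (fun _ _ => Or.inl (by rw [hrt]; exact hw))
            intro s hs t ht h
            rcases hat s hs t ht h with ⟨h3, _⟩ | ⟨h3, _⟩ | ⟨_, h3, _⟩ | ⟨_, h3, _⟩
            · exact Or.inr h3
            · exact Or.inl h3
            · omega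
            · omega
          · exact ⟨i, j, h0, h1, hw, Or.inr ⟨hp, h2, hj1⟩⟩
      · exfalso
        rcases Nat.mod_two_eq_zero_or_one (i + j) with hp | hp
        · refine hpair (true, i - 1, j) (false, i, j) ?_
            (fun _ _ => Or.inl (by rw [hup]; exact hw))
          intro s hs t ht h
          rcases hat s hs t ht h with ⟨_, h3, _⟩ | ⟨h3, _⟩ | ⟨h3, _⟩ | ⟨_, _, h3, _⟩
          · omega
          · exact Or.inl h3
          · exact Or.inr h3
          · omega
        · rcases Nat.eq_zero_or_pos j with h2 | h2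
          · refine hpair (true, i - 1, j) (true, i - 1, j) ?_ ?_
            · intro s hs t ht h
              rcases hat s hs t ht h with ⟨_, h3, _⟩ | ⟨h3, _⟩ | ⟨_, h3, _⟩ | ⟨_, h3, _⟩
              · omega
              · exact Or.inl h3
              · omega
              · omega
            · intro _ _
              right
              rw [sv_t]
              unfold nd at hw
              obtain ⟨i', rfl⟩ : ∃ i', i = i' + 1 := ⟨i - 1, by omega⟩
              rw [Nat.add_sub_cancel]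
              rw [add_mul, one_mul, ← Nat.add_assoc] at hw
              exact hw
          · refine hpair (true, i - 1, j) (false, i, j - 1) ?_ (fun _ _ => Or.inr ?_)
            · intro s hs t ht h
              rcases hat s hs t ht h with ⟨_, h3, _⟩ | ⟨h3, _⟩ | ⟨_, h3, _⟩ | ⟨h3, _⟩
              · omega
              · exact Or.inl h3
              · omega
              · exact Or.inr h3
            · rw [hdn h2]
              exact hw
  · exfalso
    have hno : ∀ i ≤ y, ∀ j ≤ y, nd Z l i j ∉ csq q L := by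
      intro i h1 j h2 h3
      exact hnode ⟨i, h1, j, h2, h3⟩
    by_cases hex : ∃ s ∈ Seg y, ∃ t ≤ l, sv Z l s t ∈ csq q L
    · obtain ⟨s, hs, t, ht, hst⟩ := hex
      refine hH _ sdiff_subset ?_ (hV s hs)
      rintro f ⟨hf, hfs⟩ v hv hvD
      obtain ⟨s'', hs'', hfs'', t', ht', rfl⟩ := wall_end hf hv
      have h5 := no_node hl hno hs hs'' ht ht' hst hvD
      subst h5
      exact hfs hfs''
    · refine hH _ subset_rfl ?_ hV0
      intro f hf v hv hvD
      obtain ⟨s'', hs'', hfs'', t', ht', rfl⟩ := wall_end hf hv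
      exact hex ⟨s'', hs'', t', ht', hvD⟩

end viol

/-- Elements near a node lie on the arms. -/
lemma armE {Z p : ℕ × ℕ} {l L i j : ℕ} {f : α} (hfT : f ∈ T) {t : ℕ} (ht : t < l) {d : Fin 4}
    (hfe : ends f = s(sv Z l (sg i j d) t, sv Z l (sg i j d) (t + 1)))
    (hor : sv Z l (sg i j d) t ∈ csq p L ∨ sv Z l (sg i j d) (t + 1) ∈ csq p L)
    (h0 : d = 0 → 0 < i) (h3 : d = 3 → 0 < j) (hw : nd Z l i j ∈ csq p L) :
    f ∈ pthE T ends (arm (nd Z l i j) d) (armLen p L (nd Z l i j) d) := by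
  unfold nd at hw ⊢
  rw [mem_csq', mem_csq'] at hor
  rw [mem_csq'] at hw
  simp only at hw
  fin_cases d
  · have hi := h0 rfl
    obtain ⟨i', rfl⟩ : ∃ i', i = i' + 1 := ⟨i - 1, by omega⟩
    have e1 : sg (i' + 1) j ⟨0, by norm_num⟩ = (true, i', j) := rfl
    simp only at hfe hor
    rw [e1, sv_t, sv_t] at hfe hor
    simp only [add_mul, one_mul] at hw hor hfe ⊢
    refine ⟨hfT, l - 1 - t, ?_, ?_⟩
    · change l - 1 - t < Z.1 + (i' * l + l) + 1 - 2 * p.1
      omega
    · change ends f = s((Z.1 + (i' * l + l) - (l - 1 - t), Z.2 + j * l),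
        (Z.1 + (i' * l + l) - (l - 1 - t + 1), Z.2 + j * l))
      rw [hfe, Sym2.eq_swap, show Z.1 + (i' * l + l) - (l - 1 - t) = Z.1 + i' * l + (t + 1) by omega,
        show Z.1 + (i' * l + l) - (l - 1 - t + 1) = Z.1 + i' * l + t by omega]
  · have e1 : sg i j ⟨1, by norm_num⟩ = (true, i, j) := rfl
    simp only at hfe hor
    rw [e1, sv_t, sv_t] at hfe hor
    simp only at hor
    refine ⟨hfT, t, ?_, ?_⟩
    · change t < 2 * p.1 + 2 * L - (Z.1 + i * l)
      omega
    · change ends f = s((Z.1 + i * l + t, Z.2 + j * l), (Z.1 + i * l + (t + 1), Z.2 + j * l))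
      exact hfe
  · have e1 : sg i j ⟨2, by norm_num⟩ = (false, i, j) := rfl
    simp only at hfe hor
    rw [e1, sv_f, sv_f] at hfe hor
    simp only at hor
    refine ⟨hfT, t, ?_, ?_⟩
    · change t < 2 * p.2 + 2 * L - (Z.2 + j * l)
      omega
    · change ends f = s((Z.1 + i * l, Z.2 + j * l + t), (Z.1 + i * l, Z.2 + j * l + (t + 1)))
      exact hfe
  · have hj := h3 rfl
    obtain ⟨j', rfl⟩ : ∃ j', j = j' + 1 := ⟨j - 1, by omega⟩
    have e1 : sg i (j' + 1) ⟨3, by norm_num⟩ = (false, i, j') := rfl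
    simp only at hfe hor
    rw [e1, sv_f, sv_f] at hfe hor
    simp only [add_mul, one_mul] at hw hor hfe ⊢
    refine ⟨hfT, l - 1 - t, ?_, ?_⟩
    · change l - 1 - t < Z.2 + (j' * l + l) + 1 - 2 * p.2
      omega
    · change ends f = s((Z.1 + i * l, Z.2 + (j' * l + l) - (l - 1 - t)),
        (Z.1 + i * l, Z.2 + (j' * l + l) - (l - 1 - t + 1)))
      rw [hfe, Sym2.eq_swap, show Z.2 + (j' * l + l) - (l - 1 - t) = Z.2 + j' * l + (t + 1) by omega,
        show Z.2 + (j' * l + l) - (l - 1 - t + 1) = Z.2 + j' * l + t by omega]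

lemma third : ∀ e d d' : Fin 4, (e = 2 ∨ e = 3) → d ≠ d' → (d = 0 ∨ d = 1 ∨ d = e) →
    (d' = 0 ∨ d' = 1 ∨ d' = e) → ∃ d'' : Fin 4, (d'' = 0 ∨ d'' = 1 ∨ d'' = e) ∧
      ∀ x : Fin 4, (x = 0 ∨ x = 1 ∨ x = e) → x = d'' ∨ x = d ∨ x = d' := by
  decide

/-- A violating element at a node of degree three: the three pairs of arms. -/
lemma arms {c : α} {Z p X : ℕ × ℕ} {l L y n N i j : ℕ} (A A' : Finset (ℕ × ℕ))
    (hl : 2 * L < l) (hV : ∀ s ∈ Seg y, Vis M C B (wallE T ends Z l y \ segE T ends Z l s) c)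
    (hXN : ∀ v ∈ csq X n, v.1 < 2 * N ∧ v.2 < 2 * N)
    (hwall : ∀ s ∈ Seg y, ∀ t ≤ l, sv Z l s t ∈ csq X n)
    (hA : ∀ i ∈ A, Disjoint (cl2 i) (csq X n))
    (hA' : ∀ i, i ∈ A' ↔ i ∈ A ∨ i ∈ rect p.1 p.2 L L)
    (hi0 : 0 < i) (hiy : i < y) (hw : nd Z l i j ∈ csq p L)
    (hpar : ((i + j) % 2 = 0 ∧ j < y) ∨ ((i + j) % 2 = 1 ∧ 0 < j ∧ j ≤ y)) :
    ∃ e : Fin 4, (e = 2 ∨ e = 3) ∧ ∀ d d' : Fin 4, d ≠ d' → (d = 0 ∨ d = 1 ∨ d = e) →
      (d' = 0 ∨ d' = 1 ∨ d' = e) → Vis M C B (ins T ends (pun N A') ∪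
        (pthE T ends (arm (nd Z l i j) d) (armLen p L (nd Z l i j) d) ∪
          pthE T ends (arm (nd Z l i j) d') (armLen p L (nd Z l i j) d'))) c := by
  classical
  obtain ⟨e, he, hce⟩ : ∃ e : Fin 4, (e = 2 ∨ e = 3) ∧ ((e = 2 ∧ (i + j) % 2 = 0 ∧ j < y) ∨
      (e = 3 ∧ (i + j) % 2 = 1 ∧ 0 < j ∧ j ≤ y)) := by
    rcases hpar with h | h
    · exact ⟨2, Or.inl rfl, Or.inl ⟨rfl, h⟩⟩
    · exact ⟨3, Or.inr rfl, Or.inr ⟨rfl, h⟩⟩
  refine ⟨e, he, ?_⟩
  intro d d' hdd hd hd'
  obtain ⟨d'', hd'', hall⟩ := third e d d' he hdd hd hd'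
  have hseg : ∀ x : Fin 4, (x = 0 ∨ x = 1 ∨ x = e) → sg i j x ∈ Seg y := by
    rintro x (rfl | rfl | rfl)
    · refine Or.inl ⟨rfl, ?_, ?_⟩
      · change i - 1 < y
        omega
      · change j ≤ y
        omega
    · refine Or.inl ⟨rfl, ?_, ?_⟩
      · change i < y
        omega
      · change j ≤ y
        omega
    · rcases hce with ⟨rfl, h1, h2⟩ | ⟨rfl, h1, h2, h3⟩
      · refine Or.inr ⟨rfl, ?_, ?_, ?_⟩
        · change i ≤ y
          omega
        · change j < y
          omega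
        · exact h1
      · refine Or.inr ⟨rfl, ?_, ?_, ?_⟩
        · change i ≤ y
          omega
        · change j - 1 < y
          omega
        · change (i + (j - 1)) % 2 = 0
          omega
  refine mono' ?_ (hV _ (hseg d'' hd''))
  rintro f ⟨hf, hfs⟩
  obtain ⟨s, hs, hfT, t, ht, hfe⟩ := wall_iff.1 hf
  by_cases hor : sv Z l s t ∈ csq p L ∨ sv Z l s (t + 1) ∈ csq p L
  · -- on an arm
    have hx : ∃ x : Fin 4, (x = 0 ∨ x = 1 ∨ x = e) ∧ s = sg i j x := by
      have h5 : ∃ t' ≤ l, sv Z l s t' ∈ csq p L := by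
        rcases hor with h | h
        · exact ⟨t, ht.le, h⟩
        · exact ⟨t + 1, ht, h⟩
      obtain ⟨t', ht', h6⟩ := h5
      rcases at_node hl hw hs ht' h6 with ⟨rfl, _⟩ | ⟨rfl, _⟩ | ⟨rfl, h7, _⟩ | ⟨rfl, _, h7, _⟩
      · exact ⟨1, Or.inr (Or.inl rfl), rfl⟩
      · exact ⟨0, Or.inl rfl, rfl⟩
      · rcases hce with ⟨rfl, _⟩ | ⟨_, h8, _⟩
        · exact ⟨2, Or.inr (Or.inr rfl), rfl⟩
        · omega
      · rcases hce with ⟨_, h8, _⟩ | ⟨rfl, _⟩
        · omega
        · exact ⟨3, Or.inr (Or.inr rfl), rfl⟩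
    obtain ⟨x, hx1, rfl⟩ := hx
    have hmem : f ∈ pthE T ends (arm (nd Z l i j) x) (armLen p L (nd Z l i j) x) := by
      refine armE hfT ht hfe hor (fun _ => hi0) ?_ hw
      intro h3
      rcases hx1 with h | h | h
      · rw [h] at h3
        exact absurd h3 (by decide)
      · rw [h] at h3
        exact absurd h3 (by decide)
      · rw [h3] at h
        rcases hce with ⟨h4, _⟩ | ⟨_, _, h4, _⟩
        · rw [h4] at h
          exact absurd h (by decide)
        · exact h4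
    rcases hall x hx1 with rfl | rfl | rfl
    · exact absurd (by rw [segE_eq]; exact ⟨hfT, t, ht, hfe⟩) hfs
    · exact Or.inr (Or.inl hmem)
    · exact Or.inr (Or.inr hmem)
  · refine Or.inl ⟨hfT, ?_⟩
    intro v hv
    have hv1 : v ∈ csq X n ∧ v ∉ csq p L := by
      rw [hfe, Sym2.mem_iff] at hv
      rcases hv with rfl | rfl
      · exact ⟨hwall s hs t ht.le, fun h => hor (Or.inl h)⟩
      · exact ⟨hwall s hs (t + 1) ht, fun h => hor (Or.inr h)⟩
    obtain ⟨h1, h2⟩ := hv1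
    have h3 := hXN v h1
    unfold pun
    refine ⟨?_, ?_⟩
    · rw [mem_csq']
      simp only
      omega
    · simp only [mem_iUnion, not_exists]
      intro i' hi' hvi
      rcases (hA' i').1 hi' with h4 | h4
      · exact Set.disjoint_left.1 (hA i' h4) hvi h1
      · apply h2
        rw [mem_cl2'] at hvi
        rw [mem_csq']
        obtain ⟨h5, h6, h7, h8⟩ := h4
        omega

end Co

open Co

universe u

/-- **ROW W.** The coarse wall. -/
theorem coarseStar_of {k : ℕ} (hCB : CertB.{u} k) : CoarseStar.{u} k := by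
  classical
  intro κ L b
  obtain ⟨L', hL'⟩ : ∃ L' : ℕ, L' = 2 * L + 2 := ⟨_, rfl⟩
  obtain ⟨F, m, δ, hmain⟩ := hCB κ L' (b + L' * L') (by omega)
  obtain ⟨l', hl'⟩ : ∃ l' : ℕ, l' = 2 * L' + 1 := ⟨_, rfl⟩
  obtain ⟨l, hl⟩ : ∃ l : ℕ, l = 2 * l' := ⟨_, rfl⟩
  obtain ⟨m0, hm0⟩ : ∃ m0 : ℕ, m0 = δ + L' + 2 := ⟨_, rfl⟩
  refine ⟨F, l, fun y => 2 * m0 + (m + 1) * (l' * y + L' + L + δ + 2),
    ⟨2 * m0 + (m + 1) * (l' + L' + L + δ + 2), fun y => ?_⟩, by omega, fun y => ?_⟩
  · have h1 : (m + 1) * (l' * y + L' + L + δ + 2) ≤ (m + 1) * (l' + L' + L + δ + 2) * (y + 1) := by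
      rw [mul_assoc]
      refine Nat.mul_le_mul_left _ ?_
      nlinarith [Nat.zero_le y, Nat.zero_le ((L' + L + δ + 2) * y), Nat.zero_le l']
    have h2 : 2 * m0 ≤ 2 * m0 * (y + 1) := Nat.le_mul_of_pos_right _ (by omega)
    rw [add_mul]
    exact Nat.add_le_add h2 h1
  obtain ⟨W, hW⟩ : ∃ W : ℕ, W = l' * y + L' + L + δ + 2 := ⟨_, rfl⟩
  simp only [← hW]
  obtain ⟨n, hn⟩ : ∃ n : ℕ, n = 2 * m0 + (m + 1) * W := ⟨_, rfl⟩
  rw [← hn]
  intro α M _ C T B ends N hctx hBκ X hX1 hX2 hhole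
  by_contra hcon
  push Not at hcon
  obtain ⟨hU, hZ⟩ := hcon
  have hn' : n = 2 * m0 + m * W + W := by rw [hn]; ring
  have hly : l * y = 2 * (l' * y) := by rw [hl]; ring
  have hXN : ∀ v ∈ csq X n, v.1 < 2 * N ∧ v.2 < 2 * N := by
    intro v hv
    rw [mem_csq'] at hv
    omega
  -- the data of one tile
  have hdata : ∀ t : Fin m, ∃ (c : α) (A' : Finset (ℕ × ℕ)) (p : ℕ × ℕ), c ∈ C \ B ∧
      (A'.card ≤ b + L' * L' ∧ ¬ Vis M C B (ins T ends (pun N A')) c) ∧
      (∀ i ∈ rect X.1 X.2 n n, i ∈ A' ↔ i ∈ rect p.1 p.2 L' L') ∧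
      (X.1 + m0 + t * W ≤ p.1 + L ∧ p.1 ≤ X.1 + m0 + t * W + l' * y ∧
        X.2 + m0 ≤ p.2 + L ∧ p.2 ≤ X.2 + m0 + l' * y) ∧
      ∃ w ∈ csq p L', ∃ e : Fin 4, (e = 2 ∨ e = 3) ∧ ∀ d d' : Fin 4, d ≠ d' →
        (d = 0 ∨ d = 1 ∨ d = e) → (d' = 0 ∨ d' = 1 ∨ d' = e) →
        Vis M C B (ins T ends (pun N A') ∪ (pthE T ends (arm w d) (armLen p L' w d) ∪
          pthE T ends (arm w d') (armLen p L' w d'))) c := by
    intro t
    have htm : t * W + W ≤ m * W := by
      have h1 : (t.1 + 1) * W ≤ m * W := Nat.mul_le_mul_right _ t.2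
      rw [add_mul, one_mul] at h1
      exact h1
    obtain ⟨Z, hZd⟩ : ∃ Z : ℕ × ℕ, Z = (2 * (X.1 + m0 + t * W), 2 * (X.2 + m0)) := ⟨_, rfl⟩
    have hZ1 : Z.1 = 2 * (X.1 + m0 + t * W) := by rw [hZd]
    have hZ2 : Z.2 = 2 * (X.2 + m0) := by rw [hZd]
    have hbad := hZ Z (by omega) (by omega)
    unfold Cw at hbad
    push Not at hbad
    obtain ⟨c, hc, hV0, hVr⟩ := hbad
    obtain ⟨q, A, hAb, hAd, hAv⟩ := hhole c hc
    have hwall : ∀ s ∈ Seg y, ∀ i ≤ l, sv Z l s i ∈ csq X n := by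
      rintro ⟨o, a, b'⟩ hs i hi
      have hmul : ∀ {x : ℕ}, x ≤ y → x * l ≤ l * y := by
        intro x hx
        rw [Nat.mul_comm l y]
        exact Nat.mul_le_mul_right _ hx
      have hmul' : ∀ {x : ℕ}, x < y → x * l + l ≤ l * y := by
        intro x hx
        have h1 : (x + 1) * l ≤ y * l := Nat.mul_le_mul_right _ hx
        rw [add_mul, one_mul] at h1
        rw [Nat.mul_comm l y]
        exact h1
      rw [mem_csq']
      cases o
      · rcases hs with ⟨h1, _⟩ | ⟨_, h1, h2, _⟩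
        · simp at h1
        simp only at h1 h2
        have h3 := hmul h1
        have h4 := hmul' h2
        rw [sv_f]
        simp only
        omega
      · rcases hs with ⟨_, h1, h2⟩ | ⟨h1, _⟩
        swap
        · simp at h1
        simp only at h1 h2
        have h3 := hmul h2
        have h4 := hmul' h1
        rw [sv_t]
        simp only
        omega
    have hV : ∀ s ∈ Seg y, Vis M C B (wallE T ends Z l y \ segE T ends Z l s) c := by
      intro s hs
      obtain ⟨r, hr, hvr⟩ := hVr s hs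
      exact vis_sdiff hctx.sub hctx.bic hctx.BC hc hctx.grd.inj hs hr hvr
    have hH : ∀ Y ⊆ wallE T ends Z l y, (∀ f ∈ Y, ∀ v ∈ ends f, v ∉ csq q L) →
        ¬ Vis M C B Y c := by
      intro Y hY hYq hvis
      refine hAv (mono' ?_ hvis)
      intro f hf
      refine ⟨wall_T (hY hf), fun v hv => ⟨⟨?_, ?_⟩, hYq f hf v hv⟩⟩
      · obtain ⟨s, hs, _, i, hi, rfl⟩ := wall_end (hY hf) hv
        have h1 := hXN _ (hwall s hs i hi)
        rw [mem_csq']
        simp only
        omega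
      · obtain ⟨s, hs, _, i, hi, rfl⟩ := wall_end (hY hf) hv
        simp only [mem_iUnion, not_exists]
        intro i' hi' hvi
        exact Set.disjoint_left.1 (hAd i' hi') hvi (hwall s hs i hi)
    obtain ⟨i, j, hi0, hiy, hnd, hpar⟩ := deg3 hctx.sub hctx.bic hctx.BC hc hctx.grd.inj
      (show 2 * L < l by omega) hV0 hV hH
    have hjy : j ≤ y := by omega
    obtain ⟨p, hp⟩ : ∃ p : ℕ × ℕ, p = (X.1 + m0 + t * W + i * l' - L, X.2 + m0 + j * l' - L) :=
      ⟨_, rfl⟩
    have hp1 : p.1 + L = X.1 + m0 + t * W + i * l' := by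
      rw [hp]
      simp only
      omega
    have hp2 : p.2 + L = X.2 + m0 + j * l' := by
      rw [hp]
      simp only
      omega
    have hil : i * l = 2 * (i * l') := by rw [hl]; ring
    have hjl : j * l = 2 * (j * l') := by rw [hl]; ring
    have hil' : i * l' ≤ l' * y := by
      rw [Nat.mul_comm l' y]
      exact Nat.mul_le_mul_right _ hiy.le
    have hjl' : j * l' ≤ l' * y := by
      rw [Nat.mul_comm l' y]
      exact Nat.mul_le_mul_right _ hjy
    have hnd' := hnd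
    unfold nd at hnd'
    rw [mem_csq'] at hnd'
    simp only at hnd'
    have hndp : nd Z l i j ∈ csq p L' := by
      unfold nd
      rw [mem_csq']
      simp only
      omega
    have hqp : ∀ v ∈ csq q L, v ∈ csq p L' := by
      intro v hv
      rw [mem_csq'] at hv ⊢
      omega
    obtain ⟨A', hA'⟩ : ∃ A' : Finset (ℕ × ℕ), A' = A ∪
      (Finset.Ico p.1 (p.1 + L') ×ˢ Finset.Ico p.2 (p.2 + L')) := ⟨_, rfl⟩
    have hmA' : ∀ i, i ∈ A' ↔ i ∈ A ∨ i ∈ rect p.1 p.2 L' L' := by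
      intro i
      rw [hA', Finset.mem_union, Finset.mem_product, Finset.mem_Ico, Finset.mem_Ico]
      unfold rect
      rw [mem_ofPred_eq]
      tauto
    refine ⟨c, A', p, hc, ⟨?_, ?_⟩, ?_, ⟨by omega, by omega, by omega, by omega⟩,
      nd Z l i j, hndp, ?_⟩
    · rw [hA']
      refine (Finset.card_union_le _ _).trans ?_
      rw [Finset.card_product, Nat.card_Ico, Nat.card_Ico, Nat.add_sub_cancel_left,
        Nat.add_sub_cancel_left]
      omega
    · intro hvis
      refine hAv (mono' (ins_mono ?_) hvis)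
      rintro v ⟨hv1, hv2⟩
      simp only [mem_iUnion, not_exists] at hv2
      have hcl : ∀ i' : ℕ × ℕ, v ∈ cl2 i' → i' ∈ A' → False := fun i' h1 h2 => hv2 i' h2 h1
      refine ⟨⟨hv1, ?_⟩, ?_⟩
      · simp only [mem_iUnion, not_exists]
        intro i' hi' hvi
        exact hcl i' hvi ((hmA' i').2 (Or.inl hi'))
      · intro hvq
        have h1 := hqp v hvq
        rw [mem_csq'] at h1
        refine hcl (v.1 / 2, v.2 / 2) ?_ ((hmA' _).2 (Or.inr ?_))
        · rw [mem_cl2']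
          simp only
          omega
        · unfold rect
          rw [mem_ofPred_eq]
          simp only
          omega
    · intro i' hi'
      rw [hmA']
      constructor
      · rintro (h | h)
        · exfalso
          have h9 : ((2 * i'.1, 2 * i'.2) : ℕ × ℕ) ∈ cl2 i' := by
            rw [mem_cl2']
            simp only
            omega
          have h10 : ((2 * i'.1, 2 * i'.2) : ℕ × ℕ) ∈ csq X n := by
            rw [mem_csq']
            obtain ⟨h1, h2, h3, h4⟩ := hi'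
            simp only
            omega
          exact Set.disjoint_left.1 (hAd i' h) h9 h10
        · exact h
      · exact Or.inr
    · exact arms A A' (show 2 * L' < l by omega) hV hXN hwall hAd hmA' hi0 hiy hndp hpar
  choose c A' p h1 h2 h3 h4 h5 using hdata
  refine hU (hmain M C T B ends N hctx hBκ X n hX1 hX2 c A' p h1 h2 h3 ?_ ?_ h5)
  · have hlt : ∀ t t' : Fin m, t < t' → Far δ (p t) L' (p t') L' := by
      intro t t' htt
      have h6 : (t.1 + 1) * W ≤ t'.1 * W := Nat.mul_le_mul_right _ htt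
      rw [add_mul, one_mul] at h6
      have h7 := h4 t
      have h8 := h4 t'
      unfold Far
      omega
    intro t t' htt
    rcases lt_or_gt_of_ne htt with h | h
    · exact hlt t t' h
    · have h9 := hlt t' t h
      unfold Far at h9 ⊢
      omega
  · intro t
    have h6 := h4 t
    have htm : t * W + W ≤ m * W := by
      have h1 : (t.1 + 1) * W ≤ m * W := Nat.mul_le_mul_right _ t.2
      rw [add_mul, one_mul] at h1
      exact h1
    omega

/-- **Row W.** -/
theorem coarse_of {k : ℕ} (hCB : CertB.{u} k) : CoarseStmt.{u} k := by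
  intro κ L b
  obtain ⟨F, l, n, -, hl, h⟩ := coarseStar_of hCB κ L b
  exact ⟨F, fun y => ⟨l, n y, hl, fun {α} => h y⟩⟩

end CWL
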