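import Pool.Agent.CW.WPath

/-!
# Routing a coarse brick wall through prescribed rows (pure combinatorics)
-/

open Set

namespace CWL

namespace Rt

/-- vertical segments exist at even vertices only -/
def VS (σ : Bool × ℕ × ℕ) : Prop := σ.1 = false → (σ.2.1 + σ.2.2) % 2 = 0

/-- a path in the brick wall inside `A` through the segments `H` -/
def RP (p p' : ℕ × ℕ) (A : ℕ × ℕ → Prop) (H : Bool × ℕ × ℕ → Prop) : Prop :=
  ∃ (ls : List (Bool × ℕ × ℕ)) (U : Set (ℕ × ℕ)), WPath sgE p p' ls U ∧ (∀ v ∈ U, A v) ∧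
    (∀ σ ∈ ls, VS σ) ∧ ∀ σ, H σ → σ ∈ ls

/-- the same, the last segment is used forwards -/
def RPF (p p' : ℕ × ℕ) (A : ℕ × ℕ → Prop) (H : Bool × ℕ × ℕ → Prop) : Prop :=
  ∃ (ls : List (Bool × ℕ × ℕ)) (U : Set (ℕ × ℕ)), WPath sgE p p' ls U ∧ (∀ v ∈ U, A v) ∧
    (∀ σ ∈ ls, VS σ) ∧ (∀ σ, H σ → σ ∈ ls) ∧ ∃ z, ls.getLast? = some z ∧ segFar z = p'

variable {p p' p'' : ℕ × ℕ} {A B A' : ℕ × ℕ → Prop} {H H' : Bool × ℕ × ℕ → Prop}

lemma RPF.rp (h : RPF p p' A H) : RP p p' A H := by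
  obtain ⟨ls, U, h1, h2, h3, h4, -⟩ := h
  exact ⟨ls, U, h1, h2, h3, h4⟩

lemma RP.mono (h : RP p p' A H) (hA : ∀ v, A v → A' v) : RP p p' A' H := by
  obtain ⟨ls, U, h1, h2, h3, h4⟩ := h
  exact ⟨ls, U, h1, fun v hv => hA v (h2 v hv), h3, h4⟩

lemma RPF.mono (h : RPF p p' A H) (hA : ∀ v, A v → A' v) : RPF p p' A' H := by
  obtain ⟨ls, U, h1, h2, h3, h4, h5⟩ := h
  exact ⟨ls, U, h1, fun v hv => hA v (h2 v hv), h3, h4, h5⟩

lemma RP.monoH (h : RP p p' A H) (hH : ∀ σ, H' σ → H σ) : RP p p' A H' := by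
  obtain ⟨ls, U, h1, h2, h3, h4⟩ := h
  exact ⟨ls, U, h1, h2, h3, fun σ hσ => h4 σ (hH σ hσ)⟩

lemma RP.rev (h : RP p p' A H) : RP p' p A H := by
  obtain ⟨ls, U, h1, h2, h3, h4⟩ := h
  exact ⟨ls.reverse, U, h1.reverse, h2, fun σ hσ => h3 σ (List.mem_reverse.1 hσ),
    fun σ hσ => List.mem_reverse.2 (h4 σ hσ)⟩

lemma RP.append (h : RP p p' A H) (h' : RP p' p'' B H') (hd : ∀ v, A v → B v → v = p') :
    RP p p'' (fun v => A v ∨ B v) (fun σ => H σ ∨ H' σ) := by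
  obtain ⟨ls, U, h1, h2, h3, h4⟩ := h
  obtain ⟨ls', U', k1, k2, k3, k4⟩ := h'
  refine ⟨ls ++ ls', U ∪ U', h1.append k1 fun z hz hz' => hd z (h2 z hz) (k2 z hz'), ?_, ?_, ?_⟩
  · rintro v (hv | hv)
    · exact Or.inl (h2 v hv)
    · exact Or.inr (k2 v hv)
  · intro σ hσ
    rcases List.mem_append.1 hσ with h | h
    · exact h3 σ h
    · exact k3 σ h
  · rintro σ (hσ | hσ)
    · exact List.mem_append.2 (Or.inl (h4 σ hσ))
    · exact List.mem_append.2 (Or.inr (k4 σ hσ))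

lemma RP.appendF (h : RP p p' A H) (h' : RPF p' p'' B H') (hd : ∀ v, A v → B v → v = p') :
    RPF p p'' (fun v => A v ∨ B v) (fun σ => H σ ∨ H' σ) := by
  obtain ⟨ls, U, h1, h2, h3, h4⟩ := h
  obtain ⟨ls', U', k1, k2, k3, k4, z, k5, k6⟩ := h'
  refine ⟨ls ++ ls', U ∪ U', h1.append k1 fun z hz hz' => hd z (h2 z hz) (k2 z hz'), ?_, ?_, ?_,
    z, ?_, k6⟩
  · rintro v (hv | hv)
    · exact Or.inl (h2 v hv)
    · exact Or.inr (k2 v hv)
  · intro σ hσ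
    rcases List.mem_append.1 hσ with h | h
    · exact h3 σ h
    · exact k3 σ h
  · rintro σ (hσ | hσ)
    · exact List.mem_append.2 (Or.inl (h4 σ hσ))
    · exact List.mem_append.2 (Or.inr (k4 σ hσ))
  · rw [List.getLast?_append_of_ne_nil _ (fun h => by rw [h] at k5; simp at k5)]
    exact k5

/-- one horizontal segment -/
lemma hor1 (x z : ℕ) : RPF (x, z) (x + 1, z) (fun v => v = (x, z) ∨ v = (x + 1, z))
    (fun σ => σ = (true, x, z)) := by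
  refine ⟨[(true, x, z)], _, WPath.single (f := sgE) (x := (true, x, z)) (by simp [sgE, segNear, segFar])
    (by simp), ?_, ?_, ?_, (true, x, z), by simp, by simp [segFar]⟩
  · rintro v (rfl | rfl)
    · exact Or.inl rfl
    · exact Or.inr rfl
  · intro σ hσ
    rw [List.mem_singleton.1 hσ]
    intro h
    simp at h
  · rintro σ rfl
    simp

/-- one vertical segment -/
lemma ver1 (x z : ℕ) (h : (x + z) % 2 = 0) :
    RPF (x, z) (x, z + 1) (fun v => v = (x, z) ∨ v = (x, z + 1))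
    (fun σ => σ = (false, x, z)) := by
  refine ⟨[(false, x, z)], _, WPath.single (f := sgE) (x := (false, x, z))
    (by simp [sgE, segNear, segFar]) (by simp), ?_, ?_, ?_, (false, x, z), by simp,
    by simp [segFar]⟩
  · rintro v (rfl | rfl)
    · exact Or.inl rfl
    · exact Or.inr rfl
  · intro σ hσ
    rw [List.mem_singleton.1 hσ]
    exact fun _ => h
  · rintro σ rfl
    simp

/-- a row -/
lemma row (x z : ℕ) : ∀ n, RPF (x, z) (x + (n + 1), z)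
    (fun v => v.2 = z ∧ x ≤ v.1 ∧ v.1 ≤ x + (n + 1))
    (fun σ => σ.1 = true ∧ σ.2.2 = z ∧ x ≤ σ.2.1 ∧ σ.2.1 < x + (n + 1)) := by
  intro n
  induction n with
  | zero =>
    obtain ⟨ls, U, h1, h2, h3, h4, h5⟩ := hor1 x z
    refine ⟨ls, U, h1, ?_, h3, ?_, h5⟩
    · intro v hv
      rcases h2 v hv with rfl | rfl <;> simp
    · rintro ⟨b, c, d⟩ ⟨g1, g2, g3, g4⟩
      refine h4 _ ?_
      simp only at g1 g2 g3 g4
      subst g1 g2
      have : c = x := by omega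
      rw [this]
  | succ n ih =>
    have h := ih.rp.appendF (hor1 (x + (n + 1)) z) (by
      rintro ⟨a, b⟩ ⟨g1, g2, g3⟩ (g4 | g4)
      · exact g4
      · rw [Prod.mk.injEq] at g4
        simp only at g3
        omega)
    obtain ⟨ls, U, h1, h2, h3, h4, h5⟩ := h
    refine ⟨ls, U, h1, ?_, h3, ?_, h5⟩
    · intro v hv
      rcases h2 v hv with ⟨g1, g2, g3⟩ | g | g
      · exact ⟨g1, g2, by omega⟩
      · rw [g]
        exact ⟨rfl, by simp only; omega, by simp only; omega⟩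
      · rw [g]
        exact ⟨rfl, by simp only; omega, by simp only; omega⟩
    · rintro ⟨b, c, d⟩ ⟨g1, g2, g3, g4⟩
      refine h4 _ ?_
      simp only at g1 g2 g3 g4 ⊢
      subst g1 g2
      rcases Nat.lt_or_ge c (x + (n + 1)) with h6 | h6
      · exact Or.inl ⟨rfl, rfl, g3, h6⟩
      · right
        have : c = x + (n + 1) := by omega
        rw [this]

/-- a zigzag upwards -/
lemma zig (x z : ℕ) (h : (x + z) % 2 = 0) : ∀ m, RPF (x, z) (x + (m + 2) % 2, z + (m + 1))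
    (fun v => x ≤ v.1 ∧ v.1 ≤ x + 1 ∧ z ≤ v.2 ∧ v.2 ≤ z + (m + 1) ∧ (v.2 = z → v.1 = x) ∧
      (v.2 = z + (m + 1) → v.1 = x + (m + 2) % 2)) (fun _ => False) := by
  intro m
  induction m with
  | zero =>
    obtain ⟨ls, U, h1, h2, h3, h4, h5⟩ := ver1 x z h
    refine ⟨ls, U, h1, ?_, h3, fun _ h => h.elim, h5⟩
    intro v hv
    rcases h2 v hv with rfl | rfl <;> simp
  | succ m ih =>
    -- the horizontal move
    have hmove : RP (x + (m + 2) % 2, z + (m + 1)) (x + (m + 3) % 2, z + (m + 1))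
        (fun v => v.2 = z + (m + 1) ∧ x ≤ v.1 ∧ v.1 ≤ x + 1) (fun _ => False) := by
      rcases Nat.mod_two_eq_zero_or_one m with hm | hm
      · have e1 : (m + 2) % 2 = 0 := by omega
        have e2 : (m + 3) % 2 = 1 := by omega
        rw [e1, e2]
        refine ((hor1 x (z + (m + 1))).rp.mono ?_).monoH (fun _ h => h.elim)
        rintro v (rfl | rfl) <;> simp
      · have e1 : (m + 2) % 2 = 1 := by omega
        have e2 : (m + 3) % 2 = 0 := by omega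
        rw [e1, e2]
        refine ((hor1 x (z + (m + 1))).rp.rev.mono ?_).monoH (fun _ h => h.elim)
        rintro v (rfl | rfl) <;> simp
    have h6 := ih.rp.append hmove (by
      rintro ⟨a, b⟩ ⟨g1, g2, g3, g4, g5, g6⟩ ⟨g7, g8, g9⟩
      simp only at g7
      rw [Prod.mk.injEq]
      exact ⟨g6 g7, g7⟩)
    have h7 := h6.appendF (ver1 (x + (m + 3) % 2) (z + (m + 1)) (by omega)) (by
      rintro ⟨a, b⟩ g (g1 | g1)
      · exact g1
      · rw [Prod.mk.injEq] at g1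
        exfalso
        rcases g with ⟨-, -, -, g4, -⟩ | ⟨g4, -⟩ <;> simp only at g4 <;> omega)
    obtain ⟨ls, U, h1, h2, h3, h4, h5⟩ := h7
    refine ⟨ls, U, ?_, ?_, h3, fun _ h => h.elim, ?_⟩
    · exact h1
    · rintro ⟨a, b⟩ hv
      rcases h2 (a, b) hv with (⟨g1, g2, g3, g4, g5, g6⟩ | ⟨g1, g2, g3⟩) | g | g
      · simp only at g1 g2 g3 g4 g5 g6 ⊢
        omega
      · simp only at g1 g2 g3 ⊢
        omega
      · rw [Prod.mk.injEq] at g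
        simp only
        omega
      · rw [Prod.mk.injEq] at g
        simp only
        omega
    · exact h5

/-- **Detour** through a prescribed segment of the block with corner `(a + 2, b + 2)`. -/
lemma det {a b ρ : ℕ} (hab : (a + b) % 2 = 0) (hρ : ρ % 2 = 0) {h : Bool × ℕ × ℕ}
    (hh : h ∈ shS (a + 2) (b + 2) '' Seg ρ) :
    RP (a, b) (a + (ρ + 4), b) (fun v => a ≤ v.1 ∧ v.1 ≤ a + (ρ + 5) ∧ b ≤ v.2 ∧
      v.2 ≤ b + (ρ + 3) ∧ (v.2 = b → v.1 = a ∨ v.1 = a + (ρ + 4))) (fun σ => σ = h) := by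
  obtain ⟨⟨t, c, z⟩, hσ, rfl⟩ := hh
  rcases hσ with ⟨g1, g2, g3⟩ | ⟨g1, g2, g3, g4⟩
  · -- horizontal
    simp only at g1 g2 g3
    subst g1
    have p1 := (zig a b hab (z + 1)).rp
    have p2 := (row (a + (z + 3) % 2) (b + (z + 2)) (ρ + 3)).rp
    have p3 := (zig (a + (ρ + 4)) b (by omega) (z + 1)).rp.rev
    have e1 : a + (z + 3) % 2 + (ρ + 3 + 1) = a + (ρ + 4) + (z + 3) % 2 := by omega
    rw [e1] at p2
    have q1 := p1.append p2 (by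
      rintro ⟨x, y⟩ ⟨k1, k2, k3, k4, k5, k6⟩ ⟨k7, k8, k9⟩
      simp only at k7
      rw [Prod.mk.injEq]
      exact ⟨k6 k7, k7⟩)
    have q2 := q1.append p3 (by
      rintro ⟨x, y⟩ (⟨k1, k2, k3, k4, k5, k6⟩ | ⟨k7, k8, k9⟩) ⟨l1, l2, l3, l4, l5, l6⟩
      · simp only at k1 k2 l1
        omega
      · simp only at k7
        rw [Prod.mk.injEq]
        exact ⟨l6 k7, k7⟩)
    refine (q2.mono ?_).monoH ?_
    · rintro ⟨x, y⟩ ((⟨k1, k2, k3, k4, k5, k6⟩ | ⟨k7, k8, k9⟩) | ⟨l1, l2, l3, l4, l5, l6⟩)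
      · simp only at k1 k2 k3 k4 k5 k6 ⊢
        omega
      · simp only at k7 k8 k9 ⊢
        omega
      · simp only at l1 l2 l3 l4 l5 l6 ⊢
        omega
    · rintro σ rfl
      refine Or.inl (Or.inr ⟨rfl, ?_, ?_, ?_⟩)
      · simp only [shS]
        omega
      · simp only [shS]
        omega
      · simp only [shS]
        omega
  · -- vertical
    simp only at g1 g2 g3 g4
    subst g1
    have p1 := (zig a b hab (z + 1)).rp
    -- the row to the segment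
    obtain ⟨n, hn⟩ : ∃ n, a + (z + 3) % 2 + (n + 1) = a + 2 + c :=
      ⟨a + 2 + c - (a + (z + 3) % 2) - 1, by omega⟩
    have p2 := (row (a + (z + 3) % 2) (b + (z + 2)) n).rp
    rw [hn] at p2
    have p3 := (ver1 (a + 2 + c) (b + (z + 2)) (by omega)).rp
    obtain ⟨n', hn'⟩ : ∃ n', a + 2 + c + (n' + 1) = a + (ρ + 4) + (z + 4) % 2 :=
      ⟨a + (ρ + 4) + (z + 4) % 2 - (a + 2 + c) - 1, by omega⟩
    have p4 := (row (a + 2 + c) (b + (z + 2) + 1) n').rp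
    rw [hn'] at p4
    have p5 := (zig (a + (ρ + 4)) b (by omega) (z + 2)).rp.rev
    have q1 := p1.append p2 (by
      rintro ⟨x, y⟩ ⟨k1, k2, k3, k4, k5, k6⟩ ⟨k7, k8, k9⟩
      simp only at k7
      rw [Prod.mk.injEq]
      exact ⟨k6 k7, k7⟩)
    have q2 := q1.append p3 (by
      rintro ⟨x, y⟩ (⟨k1, k2, k3, k4, k5, k6⟩ | ⟨k7, k8, k9⟩) (l | l)
      · exact l
      · rw [Prod.mk.injEq] at l
        simp only at k4
        omega
      · exact l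
      · rw [Prod.mk.injEq] at l
        simp only at k7
        omega)
    have q3 := q2.append p4 (by
      rintro ⟨x, y⟩ ((⟨k1, k2, k3, k4, k5, k6⟩ | ⟨k7, k8, k9⟩) | (l | l)) ⟨m1, m2, m3⟩
      · simp only at k4 m1
        omega
      · simp only at k7 m1
        omega
      · rw [Prod.mk.injEq] at l
        simp only at m1
        omega
      · exact l)
    have q4 := q3.append p5 (by
      rintro ⟨x, y⟩ (((⟨k1, k2, k3, k4, k5, k6⟩ | ⟨k7, k8, k9⟩) | (l | l)) | ⟨m1, m2, m3⟩)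
        ⟨n1, n2, n3, n4, n5, n6⟩
      · simp only at k1 k2 n1
        omega
      · simp only at k7 k8 k9 n1
        omega
      · rw [Prod.mk.injEq] at l
        simp only at n1
        omega
      · rw [Prod.mk.injEq] at l
        simp only at n1
        omega
      · simp only at m1 n6
        rw [Prod.mk.injEq]
        have e2 : y = b + (z + 2 + 1) := by omega
        exact ⟨n6 e2, by omega⟩)
    refine (q4.mono ?_).monoH ?_
    · rintro ⟨x, y⟩ ((((⟨k1, k2, k3, k4, k5, k6⟩ | ⟨k7, k8, k9⟩) | (l | l)) | ⟨m1, m2, m3⟩) |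
        ⟨n1, n2, n3, n4, n5, n6⟩)
      · simp only at k1 k2 k3 k4 k5 k6 ⊢
        omega
      · simp only at k7 k8 k9 ⊢
        omega
      · rw [Prod.mk.injEq] at l
        simp only
        omega
      · rw [Prod.mk.injEq] at l
        simp only
        omega
      · simp only at m1 m2 m3 ⊢
        omega
      · simp only at n1 n2 n3 n4 n5 n6 ⊢
        omega
    · rintro σ rfl
      refine Or.inl (Or.inl (Or.inr ?_))
      simp only [shS, Prod.mk.injEq, true_and]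
      omega

/-- the region of a horizontal coarse segment, in coordinates relative to the corner -/
def RegH (ρ ℓ ε ε' : ℕ) (r t : ℕ) : Prop :=
  (t = 0 ∧ ε ≤ r ∧ r ≤ ℓ + ε') ∨ (4 ≤ r ∧ r ≤ ρ + 9 ∧ 0 < t ∧ t ≤ ρ + 3)

/-- the region of a vertical coarse segment -/
def RegV (ρ ℓ : ℕ) (r t : ℕ) : Prop :=
  r ≤ ρ + 13 ∧ t ≤ ℓ ∧ (t = 0 → r = 0) ∧ (t = ℓ → r = 1) ∧ (t < ρ + 6 → r ≤ 1)

/-- a horizontal coarse segment -/
lemma horC {x z ρ ε ε' : ℕ} (hx : x % 2 = 0) (hz : z % 2 = 0) (hρ : ρ % 2 = 0) (hε : ε ≤ 1)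
    (hε' : ε' ≤ 1) {h : Bool × ℕ × ℕ} (hh : h ∈ shS (x + 6) (z + 2) '' Seg ρ) :
    RPF (x + ε, z) (x + (2 * ρ + 40) + ε', z)
      (fun v => ∃ r t, v = (x + r, z + t) ∧ RegH ρ (2 * ρ + 40) ε ε' r t) (fun σ => σ = h) := by
  obtain ⟨n, hn⟩ : ∃ n, x + ε + (n + 1) = x + 4 := ⟨3 - ε, by omega⟩
  have p1 := (row (x + ε) z n).rp
  rw [hn] at p1
  have p2 := det (a := x + 4) (b := z) (ρ := ρ) (by omega) hρ (h := h) (by
    rw [show x + 4 + 2 = x + 6 from rfl]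
    exact hh)
  obtain ⟨n', hn'⟩ : ∃ n', x + 4 + (ρ + 4) + (n' + 1) = x + (2 * ρ + 40) + ε' :=
    ⟨x + (2 * ρ + 40) + ε' - (x + 4 + (ρ + 4)) - 1, by omega⟩
  have p3 := row (x + 4 + (ρ + 4)) z n'
  rw [hn'] at p3
  have q1 := p1.append p2 (by
    rintro ⟨a, b⟩ ⟨k1, k2, k3⟩ ⟨l1, l2, l3, l4, l5⟩
    simp only at k1 k2 k3 l1
    rw [Prod.mk.injEq]
    omega)
  have q2 := q1.appendF p3 (by
    rintro ⟨a, b⟩ (⟨k1, k2, k3⟩ | ⟨l1, l2, l3, l4, l5⟩) ⟨m1, m2, m3⟩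
    · simp only at k3 m2
      omega
    · simp only at l5 m1 m2
      rw [Prod.mk.injEq]
      omega)
  obtain ⟨ls, U, h1, h2, h3, h4, h5⟩ := q2
  refine ⟨ls, U, h1, ?_, h3, ?_, h5⟩
  · rintro ⟨a, b⟩ hv
    unfold RegH
    rcases h2 _ hv with (⟨k1, k2, k3⟩ | ⟨l1, l2, l3, l4, l5⟩) | ⟨m1, m2, m3⟩
    · simp only at k1 k2 k3
      exact ⟨a - x, b - z, by rw [Prod.mk.injEq]; omega, by omega⟩
    · simp only at l1 l2 l3 l4 l5
      exact ⟨a - x, b - z, by rw [Prod.mk.injEq]; omega, by omega⟩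
    · simp only at m1 m2 m3
      exact ⟨a - x, b - z, by rw [Prod.mk.injEq]; omega, by omega⟩
  · rintro σ rfl
    exact h4 _ (Or.inl (Or.inr rfl))

/-- a vertical coarse segment -/
lemma verC {x z ρ : ℕ} (hx : x % 2 = 0) (hz : z % 2 = 0) (hρ : ρ % 2 = 0)
    {h : Bool × ℕ × ℕ} (hh : h ∈ shS (x + 6) (z + (ρ + 8)) '' Seg ρ) :
    RPF (x, z) (x + 1, z + (2 * ρ + 40))
      (fun v => ∃ r t, v = (x + r, z + t) ∧ RegV ρ (2 * ρ + 40) r t) (fun σ => σ = h) := by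
  have p1 := (zig x z (by omega) (ρ + 5)).rp
  have e1 : x + (ρ + 5 + 2) % 2 = x + 1 := by omega
  have e2 : z + (ρ + 5 + 1) = z + (ρ + 6) := by omega
  rw [e1, e2] at p1
  have p2 := (row (x + 1) (z + (ρ + 6)) 2).rp
  have e3 : x + 1 + (2 + 1) = x + 4 := by omega
  rw [e3] at p2
  have p3 := det (a := x + 4) (b := z + (ρ + 6)) (ρ := ρ) (by omega) hρ (h := h) (by
    rw [show x + 4 + 2 = x + 6 from rfl, show z + (ρ + 6) + 2 = z + (ρ + 8) from rfl]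
    exact hh)
  have e4 : x + 4 + (ρ + 4) = x + (ρ + 8) := by omega
  rw [e4] at p3
  have p4 := (row (x + (ρ + 8)) (z + (ρ + 6)) 3).rp
  have e5 : x + (ρ + 8) + (3 + 1) = x + (ρ + 12) := by omega
  rw [e5] at p4
  have p5 := (zig (x + (ρ + 12)) (z + (ρ + 6)) (by omega) (ρ + 5)).rp
  have e6 : x + (ρ + 12) + (ρ + 5 + 2) % 2 = x + (ρ + 13) := by omega
  have e7 : z + (ρ + 6) + (ρ + 5 + 1) = z + (2 * ρ + 12) := by omega
  rw [e6, e7] at p5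
  have p6 := (row x (z + (2 * ρ + 12)) (ρ + 12)).rp.rev
  have e8 : x + (ρ + 12 + 1) = x + (ρ + 13) := by omega
  rw [e8] at p6
  have p7 := zig x (z + (2 * ρ + 12)) (by omega) 27
  have e9 : x + (27 + 2) % 2 = x + 1 := by omega
  have e10 : z + (2 * ρ + 12) + (27 + 1) = z + (2 * ρ + 40) := by omega
  rw [e9, e10] at p7
  have q1 := p1.append p2 (by
    rintro ⟨a, b⟩ ⟨k1, k2, k3, k4, k5, k6⟩ ⟨l1, l2, l3⟩
    simp only at k6 l1
    rw [Prod.mk.injEq]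
    omega)
  have q2 := q1.append p3 (by
    rintro ⟨a, b⟩ (⟨k1, k2, k3, k4, k5, k6⟩ | ⟨l1, l2, l3⟩) ⟨m1, m2, m3, m4, m5⟩
    · simp only at k2 m1
      omega
    · simp only at l1 l2 l3 m1
      rw [Prod.mk.injEq]
      omega)
  have q3 := q2.append p4 (by
    rintro ⟨a, b⟩ ((⟨k1, k2, k3, k4, k5, k6⟩ | ⟨l1, l2, l3⟩) | ⟨m1, m2, m3, m4, m5⟩) ⟨n1, n2, n3⟩
    · simp only at k2 n2
      omega
    · simp only at l3 n2
      omega
    · simp only at m5 n1 n2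
      rw [Prod.mk.injEq]
      omega)
  have q4 := q3.append p5 (by
    rintro ⟨a, b⟩ (((⟨k1, k2, k3, k4, k5, k6⟩ | ⟨l1, l2, l3⟩) | ⟨m1, m2, m3, m4, m5⟩) |
      ⟨n1, n2, n3⟩) ⟨o1, o2, o3, o4, o5, o6⟩
    · simp only at k2 o1
      omega
    · simp only at l3 o1
      omega
    · simp only at m2 o1
      omega
    · simp only at n1 n2 n3 o1
      rw [Prod.mk.injEq]
      omega)
  have q5 := q4.append p6 (by
    rintro ⟨a, b⟩ ((((⟨k1, k2, k3, k4, k5, k6⟩ | ⟨l1, l2, l3⟩) | ⟨m1, m2, m3, m4, m5⟩) |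
      ⟨n1, n2, n3⟩) | ⟨o1, o2, o3, o4, o5, o6⟩) ⟨s1, s2, s3⟩
    · simp only at k4 s1
      omega
    · simp only at l1 s1
      omega
    · simp only at m4 s1
      omega
    · simp only at n1 s1
      omega
    · simp only at o6 s1
      rw [Prod.mk.injEq]
      omega)
  have q6 := q5.appendF p7 (by
    rintro ⟨a, b⟩ (((((⟨k1, k2, k3, k4, k5, k6⟩ | ⟨l1, l2, l3⟩) | ⟨m1, m2, m3, m4, m5⟩) |
      ⟨n1, n2, n3⟩) | ⟨o1, o2, o3, o4, o5, o6⟩) | ⟨s1, s2, s3⟩) ⟨w1, w2, w3, w4, w5, w6⟩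
    · simp only at k4 w3
      omega
    · simp only at l1 w3
      omega
    · simp only at m4 w3
      omega
    · simp only at n1 w3
      omega
    · simp only at o1 w2
      omega
    · simp only at s1 w5
      rw [Prod.mk.injEq]
      omega)
  obtain ⟨ls, U, h1, h2, h3, h4, h5⟩ := q6
  refine ⟨ls, U, h1, ?_, h3, ?_, h5⟩
  · rintro ⟨a, b⟩ hv
    unfold RegV
    rcases h2 _ hv with (((((⟨k1, k2, k3, k4, k5, k6⟩ | ⟨l1, l2, l3⟩) | ⟨m1, m2, m3, m4, m5⟩) |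
      ⟨n1, n2, n3⟩) | ⟨o1, o2, o3, o4, o5, o6⟩) | ⟨s1, s2, s3⟩) | ⟨w1, w2, w3, w4, w5, w6⟩
    · simp only at k1 k2 k3 k4 k5 k6
      exact ⟨a - x, b - z, by rw [Prod.mk.injEq]; omega, by omega⟩
    · simp only at l1 l2 l3
      exact ⟨a - x, b - z, by rw [Prod.mk.injEq]; omega, by omega⟩
    · simp only at m1 m2 m3 m4 m5
      exact ⟨a - x, b - z, by rw [Prod.mk.injEq]; omega, by omega⟩
    · simp only at n1 n2 n3
      exact ⟨a - x, b - z, by rw [Prod.mk.injEq]; omega, by omega⟩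
    · simp only at o1 o2 o3 o4 o5 o6
      exact ⟨a - x, b - z, by rw [Prod.mk.injEq]; omega, by omega⟩
    · simp only at s1 s2 s3
      exact ⟨a - x, b - z, by rw [Prod.mk.injEq]; omega, by omega⟩
    · simp only at w1 w2 w3 w4 w5 w6
      exact ⟨a - x, b - z, by rw [Prod.mk.injEq]; omega, by omega⟩
  · rintro σ rfl
    exact h4 _ (Or.inl (Or.inl (Or.inl (Or.inl (Or.inr rfl)))))

/-- the position of a coarse vertex -/
def bt (ρ : ℕ) (p : ℕ × ℕ) : ℕ × ℕ := ((2 * ρ + 40) * p.1 + (p.1 + p.2) % 2, (2 * ρ + 40) * p.2)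

/-- the corner of the block of a coarse segment -/
def hb (ρ : ℕ) (S : Bool × ℕ × ℕ) : ℕ × ℕ :=
  if S.1 = true then ((2 * ρ + 40) * S.2.1 + 6, (2 * ρ + 40) * S.2.2 + 2) else
    ((2 * ρ + 40) * S.2.1 + 6, (2 * ρ + 40) * S.2.2 + (ρ + 8))

lemma cmp {ℓ X X' r r' : ℕ} (hℓ : 2 ≤ ℓ) (h : ℓ * X + r = ℓ * X' + r') (hr : r ≤ ℓ + 1)
    (hr' : r' ≤ ℓ + 1) :
    (X = X' ∧ r = r') ∨ (X' = X + 1 ∧ r = r' + ℓ) ∨ (X = X' + 1 ∧ r' = r + ℓ) := by
  rcases Nat.lt_trichotomy X X' with h1 | h1 | h1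
  · obtain ⟨d, rfl⟩ : ∃ d, X' = X + 1 + d := ⟨X' - (X + 1), by omega⟩
    rcases Nat.eq_zero_or_pos d with rfl | hd
    · have e1 : ℓ * (X + 1 + 0) = ℓ * X + ℓ := by ring
      rw [e1] at h
      exact Or.inr (Or.inl ⟨by omega, by omega⟩)
    · exfalso
      have e1 : ℓ * (X + 1 + d) = ℓ * X + ℓ + ℓ * d := by ring
      have e2 : ℓ * 1 ≤ ℓ * d := Nat.mul_le_mul_left _ hd
      omega
  · subst h1
    exact Or.inl ⟨rfl, by omega⟩
  · obtain ⟨d, rfl⟩ : ∃ d, X = X' + 1 + d := ⟨X - (X' + 1), by omega⟩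
    rcases Nat.eq_zero_or_pos d with rfl | hd
    · have e1 : ℓ * (X' + 1 + 0) = ℓ * X' + ℓ := by ring
      rw [e1] at h
      exact Or.inr (Or.inr ⟨by omega, by omega⟩)
    · exfalso
      have e1 : ℓ * (X' + 1 + d) = ℓ * X' + ℓ + ℓ * d := by ring
      have e2 : ℓ * 1 ≤ ℓ * d := Nat.mul_le_mul_left _ hd
      omega

lemma bt_inj {ρ : ℕ} {p p' : ℕ × ℕ} (h : bt ρ p = bt ρ p') : p = p' := by
  obtain ⟨X, Z⟩ := p
  obtain ⟨X', Z'⟩ := p'
  simp only [bt, Prod.mk.injEq] at h ⊢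
  obtain ⟨h1, h2⟩ := h
  have h3 : Z = Z' := Nat.eq_of_mul_eq_mul_left (by omega) h2
  rcases cmp (by omega) h1 (by omega) (by omega) with h4 | h4 | h4 <;> omega

/-- the region of a coarse segment -/
def Reg (ρ : ℕ) (S : Bool × ℕ × ℕ) (v : ℕ × ℕ) : Prop :=
  ∃ r t, v = ((2 * ρ + 40) * S.2.1 + r, (2 * ρ + 40) * S.2.2 + t) ∧
    ((S.1 = true ∧ RegH ρ (2 * ρ + 40) ((S.2.1 + S.2.2) % 2) ((S.2.1 + 1 + S.2.2) % 2) r t) ∨
      (S.1 = false ∧ RegV ρ (2 * ρ + 40) r t))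

/-- the two ends in the coordinates of the region -/
lemma ends_reg {ρ X Z r t : ℕ} {b : Bool} (h : (b = true ∧ ((t = 0 ∧ r = (X + Z) % 2) ∨
      (t = 0 ∧ r = 2 * ρ + 40 + (X + 1 + Z) % 2))) ∨
      (b = false ∧ (X + Z) % 2 = 0 ∧ ((t = 0 ∧ r = 0) ∨ (t = 2 * ρ + 40 ∧ r = 1)))) :
    ∃ p ∈ sgE (b, X, Z), ((2 * ρ + 40) * X + r, (2 * ρ + 40) * Z + t) = bt ρ p := by
  rcases h with ⟨rfl, h | h⟩ | ⟨rfl, h0, h | h⟩
  · refine ⟨(X, Z), Sym2.mem_mk_left _ _, ?_⟩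
    simp only [bt, Prod.mk.injEq]
    omega
  · refine ⟨(X + 1, Z), Sym2.mem_mk_right _ _, ?_⟩
    have e1 : (2 * ρ + 40) * (X + 1) = (2 * ρ + 40) * X + (2 * ρ + 40) := by ring
    simp only [bt, Prod.mk.injEq]
    rw [e1]
    omega
  · refine ⟨(X, Z), Sym2.mem_mk_left _ _, ?_⟩
    simp only [bt, Prod.mk.injEq]
    omega
  · refine ⟨(X, Z + 1), Sym2.mem_mk_right _ _, ?_⟩
    have e1 : (2 * ρ + 40) * (Z + 1) = (2 * ρ + 40) * Z + (2 * ρ + 40) := by ring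
    simp only [bt, Prod.mk.injEq]
    rw [e1]
    omega

lemma reg_arith {ρ X Z r t X' Z' r' t' : ℕ} {b b' : Bool} (hne : b ≠ b' ∨ X ≠ X' ∨ Z ≠ Z')
    (hpar : b = false → (X + Z) % 2 = 0) (hpar' : b' = false → (X' + Z') % 2 = 0)
    (hr : (b = true ∧ (t = 0 ∧ (X + Z) % 2 ≤ r ∧ r ≤ 2 * ρ + 40 + (X + 1 + Z) % 2 ∨
      4 ≤ r ∧ r ≤ ρ + 9 ∧ 0 < t ∧ t ≤ ρ + 3)) ∨ (b = false ∧ r ≤ ρ + 13 ∧ t ≤ 2 * ρ + 40 ∧
      (t = 0 → r = 0) ∧ (t = 2 * ρ + 40 → r = 1) ∧ (t < ρ + 6 → r ≤ 1)))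
    (hr' : (b' = true ∧ (t' = 0 ∧ (X' + Z') % 2 ≤ r' ∧ r' ≤ 2 * ρ + 40 + (X' + 1 + Z') % 2 ∨
      4 ≤ r' ∧ r' ≤ ρ + 9 ∧ 0 < t' ∧ t' ≤ ρ + 3)) ∨ (b' = false ∧ r' ≤ ρ + 13 ∧
      t' ≤ 2 * ρ + 40 ∧ (t' = 0 → r' = 0) ∧ (t' = 2 * ρ + 40 → r' = 1) ∧ (t' < ρ + 6 → r' ≤ 1)))
    (c1 : X = X' ∧ r = r' ∨ X' = X + 1 ∧ r = r' + (2 * ρ + 40) ∨
      X = X' + 1 ∧ r' = r + (2 * ρ + 40))
    (c2 : Z = Z' ∧ t = t' ∨ Z' = Z + 1 ∧ t = t' + (2 * ρ + 40) ∨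
      Z = Z' + 1 ∧ t' = t + (2 * ρ + 40)) :
    ((b = true ∧ ((t = 0 ∧ r = (X + Z) % 2) ∨ (t = 0 ∧ r = 2 * ρ + 40 + (X + 1 + Z) % 2))) ∨
      (b = false ∧ (X + Z) % 2 = 0 ∧ ((t = 0 ∧ r = 0) ∨ (t = 2 * ρ + 40 ∧ r = 1)))) ∧
    ((b' = true ∧ ((t' = 0 ∧ r' = (X' + Z') % 2) ∨
      (t' = 0 ∧ r' = 2 * ρ + 40 + (X' + 1 + Z') % 2))) ∨
      (b' = false ∧ (X' + Z') % 2 = 0 ∧ ((t' = 0 ∧ r' = 0) ∨ (t' = 2 * ρ + 40 ∧ r' = 1)))) := by
  rcases c1 with ⟨rfl, rfl⟩ | ⟨rfl, rfl⟩ | ⟨rfl, rfl⟩ <;>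
    rcases c2 with ⟨rfl, rfl⟩ | ⟨rfl, rfl⟩ | ⟨rfl, rfl⟩ <;> cases b <;> cases b' <;>
    simp only [reduceCtorEq, false_and, false_or, or_false, true_and, ne_eq, not_true_eq_false,
      not_false_eq_true, true_or, forall_const, IsEmpty.forall_iff] at hr hr' hne hpar hpar' ⊢ <;>
    omega

lemma reg_disj {ρ w : ℕ} {S S' : Bool × ℕ × ℕ} (hS : S ∈ Seg w) (hS' : S' ∈ Seg w) (hne : S ≠ S')
    {v : ℕ × ℕ} (h : Reg ρ S v) (h' : Reg ρ S' v) :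
    (∃ p ∈ sgE S, v = bt ρ p) ∧ ∃ p ∈ sgE S', v = bt ρ p := by
  obtain ⟨b, X, Z⟩ := S
  obtain ⟨b', X', Z'⟩ := S'
  obtain ⟨r, t, rfl, hr⟩ := h
  obtain ⟨r', t', hv, hr'⟩ := h'
  have hpar : b = false → (X + Z) % 2 = 0 := by
    intro hb
    rcases hS with ⟨g1, g2, g3⟩ | ⟨g1, g2, g3, g4⟩
    · simp only at g1
      rw [hb] at g1
      simp at g1
    · exact g4
  have hpar' : b' = false → (X' + Z') % 2 = 0 := by
    intro hb
    rcases hS' with ⟨g1, g2, g3⟩ | ⟨g1, g2, g3, g4⟩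
    · simp only at g1
      rw [hb] at g1
      simp at g1
    · exact g4
  simp only at hr hr' hv
  rw [Prod.mk.injEq] at hv
  have hbr : r ≤ 2 * ρ + 40 + 1 ∧ t ≤ 2 * ρ + 40 + 1 := by
    unfold RegH RegV at hr
    rcases hr with ⟨-, hr⟩ | ⟨-, hr⟩ <;> omega
  have hbr' : r' ≤ 2 * ρ + 40 + 1 ∧ t' ≤ 2 * ρ + 40 + 1 := by
    unfold RegH RegV at hr'
    rcases hr' with ⟨-, hr'⟩ | ⟨-, hr'⟩ <;> omega
  have c1 := cmp (by omega) hv.1 hbr.1 hbr'.1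
  have c2 := cmp (by omega) hv.2 hbr.2 hbr'.2
  have hv' : ((2 * ρ + 40) * X + r, (2 * ρ + 40) * Z + t) =
      ((2 * ρ + 40) * X' + r', (2 * ρ + 40) * Z' + t') := by
    rw [Prod.mk.injEq]
    exact hv
  have hne' : b ≠ b' ∨ X ≠ X' ∨ Z ≠ Z' := by
    by_contra h4
    push Not at h4
    exact hne (by rw [h4.1, h4.2.1, h4.2.2])
  unfold RegH RegV at hr hr'
  have hfin := reg_arith hne' hpar hpar' hr hr' c1 c2
  constructor
  · exact ends_reg hfin.1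
  · rw [hv']
    exact ends_reg hfin.2

/-- **Routing.** -/
theorem route {ρ w' w : ℕ} (hρ : ρ % 2 = 0) (hw : (2 * ρ + 40) * (w' + 1) ≤ w)
    {h : Bool × ℕ × ℕ → Bool × ℕ × ℕ}
    (hh : ∀ S ∈ Seg w', h S ∈ shS (hb ρ S).1 (hb ρ S).2 '' Seg ρ) :
    ∃ (P : Bool × ℕ × ℕ → List (Bool × ℕ × ℕ)) (U : Bool × ℕ × ℕ → Set (ℕ × ℕ))
      (z : Bool × ℕ × ℕ → Bool × ℕ × ℕ),
      (∀ S ∈ Seg w', WPath sgE (bt ρ (segNear S)) (bt ρ (segFar S)) (P S) (U S)) ∧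
      (∀ S ∈ Seg w', ∀ t ∈ P S, t ∈ Seg w) ∧
      (∀ S ∈ Seg w', (P S).getLast? = some (z S) ∧ segFar (z S) = bt ρ (segFar S)) ∧
      (∀ S ∈ Seg w', ∀ S' ∈ Seg w', S ≠ S' → ∀ v ∈ U S, v ∈ U S' →
        (∃ p ∈ sgE S, v = bt ρ p) ∧ ∃ p ∈ sgE S', v = bt ρ p) ∧
      (∀ S ∈ Seg w', h S ∈ P S) ∧
      ∀ S ∈ Seg w', ∀ t ∈ P S, (2 * ρ + 40) * S.2.1 ≤ t.2.1 ∧
        t.2.1 ≤ (2 * ρ + 40) * S.2.1 + (2 * ρ + 41) ∧ (2 * ρ + 40) * S.2.2 ≤ t.2.2 ∧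
        t.2.2 ≤ (2 * ρ + 40) * S.2.2 + (2 * ρ + 40) := by
  have key : ∀ S ∈ Seg w', RPF (bt ρ (segNear S)) (bt ρ (segFar S)) (Reg ρ S)
      (fun σ => σ = h S) := by
    rintro ⟨b, X, Z⟩ hS
    have h1 := hh _ hS
    rcases hS with ⟨g1, g2, g3⟩ | ⟨g1, g2, g3, g4⟩
    · simp only at g1 g2 g3
      subst g1
      simp only [hb, if_true] at h1
      have h2 := horC (x := (2 * ρ + 40) * X) (z := (2 * ρ + 40) * Z) (ρ := ρ)
        (ε := (X + Z) % 2) (ε' := (X + 1 + Z) % 2)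
        (by rw [Nat.mul_mod]; simp [Nat.add_mod])
        (by rw [Nat.mul_mod]; simp [Nat.add_mod]) hρ (by omega) (by omega) h1
      have e1 : (2 * ρ + 40) * (X + 1) = (2 * ρ + 40) * X + (2 * ρ + 40) := by ring
      have e2 : bt ρ (segNear (true, X, Z)) = ((2 * ρ + 40) * X + (X + Z) % 2,
          (2 * ρ + 40) * Z) := rfl
      have e3 : bt ρ (segFar (true, X, Z)) = ((2 * ρ + 40) * X + (2 * ρ + 40) + (X + 1 + Z) % 2,
          (2 * ρ + 40) * Z) := by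
        simp only [bt, segFar, if_true, e1]
      rw [e2, e3]
      refine h2.mono ?_
      rintro v ⟨r, t, hv, hr⟩
      exact ⟨r, t, hv, Or.inl ⟨rfl, hr⟩⟩
    · simp only at g1 g2 g3 g4
      subst g1
      simp only [hb, Bool.false_eq_true, if_false] at h1
      have h2 := verC (x := (2 * ρ + 40) * X) (z := (2 * ρ + 40) * Z) (ρ := ρ)
        (by rw [Nat.mul_mod]; simp [Nat.add_mod])
        (by rw [Nat.mul_mod]; simp [Nat.add_mod]) hρ h1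
      have e1 : (2 * ρ + 40) * (Z + 1) = (2 * ρ + 40) * Z + (2 * ρ + 40) := by ring
      have e2 : bt ρ (segNear (false, X, Z)) = ((2 * ρ + 40) * X, (2 * ρ + 40) * Z) := by
        simp only [bt, segNear, g4, add_zero]
      have e3 : bt ρ (segFar (false, X, Z)) = ((2 * ρ + 40) * X + 1,
          (2 * ρ + 40) * Z + (2 * ρ + 40)) := by
        have e4 : (X + (Z + 1)) % 2 = 1 := by omega
        simp only [bt, segFar, Bool.false_eq_true, if_false, e1, e4]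
      rw [e2, e3]
      refine h2.mono ?_
      rintro v ⟨r, t, hv, hr⟩
      exact ⟨r, t, hv, Or.inr ⟨rfl, hr⟩⟩
  unfold RPF at key
  choose! P U h1 h2 h3 h4 z h5 h6 using key
  -- the coordinates of a segment of a path
  have hbox : ∀ S ∈ Seg w', ∀ v, Reg ρ S v → (2 * ρ + 40) * S.2.1 ≤ v.1 ∧
      v.1 ≤ (2 * ρ + 40) * S.2.1 + (2 * ρ + 41) ∧ (2 * ρ + 40) * S.2.2 ≤ v.2 ∧
      v.2 ≤ (2 * ρ + 40) * S.2.2 + (2 * ρ + 40) := by
    rintro ⟨b, X, Z⟩ hS v ⟨r, t, rfl, hr⟩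
    unfold RegH RegV at hr
    simp only at hr ⊢
    omega
  have hwall : ∀ S ∈ Seg w', ∀ v, Reg ρ S v → v.1 ≤ w ∧ v.2 ≤ w := by
    rintro ⟨b, X, Z⟩ hS v ⟨r, t, rfl, hr⟩
    have e0 : (2 * ρ + 40) * (w' + 1) = (2 * ρ + 40) * w' + (2 * ρ + 40) := by ring
    unfold RegH RegV at hr
    rcases hS with ⟨g1, g2, g3⟩ | ⟨g1, g2, g3, g4⟩
    · simp only at g1 g2 g3 hr
      subst g1
      have e1 : (2 * ρ + 40) * (X + 1) ≤ (2 * ρ + 40) * w' := Nat.mul_le_mul_left _ g2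
      have e2 : (2 * ρ + 40) * (X + 1) = (2 * ρ + 40) * X + (2 * ρ + 40) := by ring
      have e3 : (2 * ρ + 40) * Z ≤ (2 * ρ + 40) * w' := Nat.mul_le_mul_left _ g3
      simp only
      simp only [true_and, reduceCtorEq, false_and, or_false] at hr
      omega
    · simp only at g1 g2 g3 hr
      subst g1
      have e1 : (2 * ρ + 40) * (Z + 1) ≤ (2 * ρ + 40) * w' := Nat.mul_le_mul_left _ g3
      have e2 : (2 * ρ + 40) * (Z + 1) = (2 * ρ + 40) * Z + (2 * ρ + 40) := by ring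
      have e3 : (2 * ρ + 40) * X ≤ (2 * ρ + 40) * w' := Nat.mul_le_mul_left _ g2
      simp only
      simp only [true_and, reduceCtorEq, false_and, false_or] at hr
      omega
  refine ⟨P, U, z, h1, ?_, fun S hS => ⟨h5 S hS, h6 S hS⟩, ?_, fun S hS => h4 S hS _ rfl, ?_⟩
  · intro S hS t ht
    have k1 := hwall S hS _ (h2 S hS _ ((h1 S hS).ends_mem t ht _ (Sym2.mem_mk_left _ _)))
    have k2 := hwall S hS _ (h2 S hS _ ((h1 S hS).ends_mem t ht _ (Sym2.mem_mk_right _ _)))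
    have k3 := h3 S hS t ht
    obtain ⟨b, x, y⟩ := t
    unfold VS at k3
    simp only [segNear, segFar] at k1 k2 k3
    cases b
    · simp only [Bool.false_eq_true, if_false, forall_const] at k2 k3
      exact Or.inr ⟨rfl, k1.1, by simp only; omega, k3⟩
    · simp only [if_true] at k2
      exact Or.inl ⟨rfl, by simp only; omega, k1.2⟩
  · intro S hS S' hS' hne v hv hv'
    exact reg_disj hS hS' hne (h2 S hS v hv) (h2 S' hS' v hv')
  · intro S hS t ht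
    exact hbox S hS _ (h2 S hS _ ((h1 S hS).ends_mem t ht _ (Sym2.mem_mk_left _ _)))

end Rt

end CWL
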