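import Pool.Agent.CW.Hot
import Pool.Agent.CW.Route

/-!
# The clean pair in which every row crosses every tile
-/

open Set BIC BICS
open scoped Matroid

namespace CWL

universe u

section

variable {α : Type u} {M : Matroid α}
  {L₁ L₂ : Bool × ℕ × ℕ → List α} {f₁ f₂ : α → Sym2 ((ℕ × ℕ) ⊕ α)} {e₁ e₂ : Bool × ℕ × ℕ → α}
  {u₁ u₂ : ℕ}

/-- **Cleaning a pair**; the conflicts stay. -/
theorem Pair.clean [M.Finite] {w s : ℕ} {𝒯 : Finset (ℕ × ℕ)}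
    (h : Pair M (Seg w) L₁ f₁ e₁ u₁ (tiles s 𝒯) L₂ f₂ e₂ u₂) :
    ∃ (M₀ : Matroid α) (L₁' : Bool × ℕ × ℕ → List α) (f₁' : α → Sym2 ((ℕ × ℕ) ⊕ α))
      (L₂' : Bool × ℕ × ℕ → List α) (f₂' : α → Sym2 ((ℕ × ℕ) ⊕ α)), M₀ ≤m M ∧
      World M₀ w s 𝒯 L₁' f₁' e₁ u₁ L₂' f₂' e₂ u₂ ∧
      (∀ r ∈ Seg w, ∀ x ∈ L₁' r, x ∈ L₁ r) ∧ (∀ σ ∈ tiles s 𝒯, ∀ x ∈ L₂' σ, x ∈ L₂ σ) ∧
      ∀ r ∈ Seg w, ∀ σ ∈ tiles s 𝒯, ∀ x ∈ L₁ r, x ∈ L₂ σ → x ∈ L₁' r ∧ x ∈ L₂' σ := by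
  obtain ⟨Z₃, g₃, hZ₃, p₃⟩ := h.cleanRows
  have hf3 : (M ／ Z₃).Finite := BQ.fin_contract _
  obtain ⟨Z₄, g₄, hZ₄, p₄⟩ := p₃.cleanCols
  have hf4 : (M ／ Z₃ ＼ Z₄).Finite := BQ.fin_delete _
  obtain ⟨Z₅, hZ₅, hr₅, hmax⟩ := exists_maxskew (M := M ／ Z₃ ＼ Z₄)
    (S := crr (lrem L₁ Z₃) (Seg w)) (crr (lrem L₂ Z₄) (tiles s 𝒯))
  have p₅ := p₄.skew hZ₅ hr₅
  have hf5 : (M ／ Z₃ ＼ Z₄ ／ Z₅).Finite := BQ.fin_contract _
  refine ⟨_, _, g₃, _, g₄, ?_, ⟨p₅, ?_, ?_, ?_, ?_⟩, ?_, ?_, ?_⟩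
  · exact (con_minor _ _).trans ((del_minor _ _).trans (con_minor _ _))
  · intro x hx
    rw [crr_lrem] at hx
    rw [crr_lrem]
    by_cases h1 : x ∈ e₁ '' Seg w
    · exact Or.inl h1
    · right
      by_cases h2 : x ∈ crr L₂ (tiles s 𝒯)
      · refine ⟨h2, fun h3 => ?_⟩
        rw [hZ₄] at h3
        refine h3.1.2 ?_
        rw [crr_lrem]
        exact hx
      · exfalso
        apply hx.2
        rw [hZ₃]
        exact ⟨⟨hx.1, h2⟩, h1⟩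
  · intro x hx
    rw [crr_lrem] at hx
    by_contra h1
    push Not at h1
    apply hx.2
    rw [hZ₄]
    exact ⟨⟨hx.1, h1.2⟩, h1.1⟩
  · intro x hx h1 h2
    refine hmax x ⟨hx.1, ?_⟩
    rintro ((h3 | h3) | h3)
    · exact h1 h3
    · exact h2 h3
    · exact hx.2 h3
  · intro Q hQ
    refine le_trans (rk_mono _ ?_) (p₅.gain (Q := Q) (fun x hx => (hQ hx).2)
      fun x hx => (hQ hx).1)
    exact subset_union_left
  · intro r _ x hx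
    exact (mem_lrem.1 hx).1
  · intro σ _ x hx
    exact (mem_lrem.1 hx).1
  · intro r hr σ hσ x hx hx2
    have h1 : x ∉ Z₃ := by
      rw [hZ₃]
      exact fun h2 => h2.1.2 ⟨σ, hσ, hx2⟩
    refine ⟨mem_lrem.2 ⟨hx, h1⟩, mem_lrem.2 ⟨hx2, ?_⟩⟩
    rw [hZ₄]
    exact fun h2 => h2.1.2 ⟨r, hr, mem_lrem.2 ⟨hx, h1⟩⟩

end

/-- refining a family for finitely many questions -/
lemma pigeon {ι β γ : Type*} [DecidableEq ι] (A : Finset ι) (R : Finset γ) (hR : R.Nonempty)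
    (hot : ι → γ → β → Prop) (T : Finset β) (h : ∀ a ∈ A, ∀ b ∈ T, ∃ r ∈ R, hot a r b) :
    ∃ T' ⊆ T, T.card ≤ R.card ^ A.card * T'.card ∧ ∀ a ∈ A, ∃ r ∈ R, ∀ b ∈ T', hot a r b := by
  classical
  induction A using Finset.induction_on with
  | empty => exact ⟨T, Finset.Subset.refl _, by simp, by simp⟩
  | insert a A ha ih =>
    obtain ⟨T₁, h1, h2, h3⟩ := ih fun a' ha' => h a' (Finset.mem_insert_of_mem ha')
    have h4 : ∀ b ∈ T₁, ∃ r ∈ R, hot a r b := fun b hb => h a (Finset.mem_insert_self _ _) b (h1 hb)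
    have : Nonempty γ := ⟨hR.choose⟩
    choose! g hg1 hg2 using h4
    obtain ⟨r, hr, hrc⟩ : ∃ r ∈ R, T₁.card ≤ R.card * (T₁.filter fun b => g b = r).card := by
      by_contra hno
      push Not at hno
      have h5 : ∑ r ∈ R, R.card * (T₁.filter fun b => g b = r).card < ∑ _r ∈ R, T₁.card :=
        Finset.sum_lt_sum_of_nonempty hR hno
      rw [← Finset.mul_sum, ← Finset.card_eq_sum_card_fiberwise (f := g) (t := R)
        (fun b hb => hg1 b hb), Finset.sum_const, smul_eq_mul] at h5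
      exact lt_irrefl _ h5
    refine ⟨T₁.filter fun b => g b = r, (Finset.filter_subset _ _).trans h1, ?_, ?_⟩
    · rw [Finset.card_insert_of_notMem ha, pow_succ]
      calc T.card ≤ R.card ^ A.card * T₁.card := h2
        _ ≤ R.card ^ A.card * (R.card * (T₁.filter fun b => g b = r).card) :=
            Nat.mul_le_mul_left _ hrc
        _ = _ := by ring
    · intro a' ha'
      rcases Finset.mem_insert.1 ha' with rfl | ha'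
      · refine ⟨r, hr, fun b hb => ?_⟩
        rw [Finset.mem_filter] at hb
        rw [← hb.2]
        exact hg2 b hb.1
      · obtain ⟨r', hr', h6⟩ := h3 a' ha'
        exact ⟨r', hr', fun b hb => h6 b (Finset.filter_subset _ _ hb)⟩

/-- the coarse row of `S` may use the rows of this box -/
def Box (ρ : ℕ) (S t : Bool × ℕ × ℕ) : Prop :=
  (2 * ρ + 40) * S.2.1 ≤ t.2.1 ∧ t.2.1 ≤ (2 * ρ + 40) * S.2.1 + (2 * ρ + 41) ∧
    (2 * ρ + 40) * S.2.2 ≤ t.2.2 ∧ t.2.2 ≤ (2 * ρ + 40) * S.2.2 + (2 * ρ + 40)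

/-- **Covering.** -/
theorem World.cover {α : Type u} {M : Matroid α} [M.Finite] {w s : ℕ} {𝒯 : Finset (ℕ × ℕ)}
    {L₁ L₂ : Bool × ℕ × ℕ → List α} {f₁ f₂ : α → Sym2 ((ℕ × ℕ) ⊕ α)} {e₁ e₂ : Bool × ℕ × ℕ → α}
    {u₁ u₂ : ℕ} (h : World M w s 𝒯 L₁ f₁ e₁ u₁ L₂ f₂ e₂ u₂) {ρ w' : ℕ} (hρ0 : 1 ≤ ρ)
    (hρ : ρ % 2 = 0) (hw : (2 * ρ + 40) * (w' + 1) ≤ w)
    (hot : ∀ i j, shS i j '' Seg ρ ⊆ Seg w → ∀ b ∈ 𝒯, ∃ r ∈ shS i j '' Seg ρ, ∃ x ∈ L₁ r,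
      x ∈ crr L₂ (shS b.1 b.2 '' Seg s)) :
    ∃ 𝒯' ⊆ 𝒯, 𝒯.card ≤ (Seg ρ).ncard ^ (Seg w').ncard * 𝒯'.card ∧
      ∃ (M₀ : Matroid α) (L₁' : Bool × ℕ × ℕ → List α) (f₁' : α → Sym2 ((ℕ × ℕ) ⊕ α))
        (e₁' : Bool × ℕ × ℕ → α) (L₂' : Bool × ℕ × ℕ → List α)
        (f₂' : α → Sym2 ((ℕ × ℕ) ⊕ α)), M₀ ≤m M ∧
        World M₀ w' s 𝒯' L₁' f₁' e₁' u₁ L₂' f₂' e₂ u₂ ∧
        e₁' '' Seg w' ⊆ e₁ '' Seg w ∧
        (∀ b ∈ 𝒯', ∀ r ∈ Seg w', ∃ x ∈ L₁' r, x ∈ crr L₂' (shS b.1 b.2 '' Seg s)) ∧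
        (∀ r ∈ Seg w', ∀ x ∈ L₁' r, ∃ t ∈ Seg w, Box ρ r t ∧ x ∈ L₁ t) ∧
        ∀ σ ∈ tiles s 𝒯', ∀ x ∈ L₂' σ, x ∈ L₂ σ := by
  classical
  have hblk : ∀ S ∈ Seg w', shS (Rt.hb ρ S).1 (Rt.hb ρ S).2 '' Seg ρ ⊆ Seg w := by
    rintro ⟨b, X, Z⟩ hS
    have e0 : (2 * ρ + 40) * (w' + 1) = (2 * ρ + 40) * w' + (2 * ρ + 40) := by ring
    have hX : X ≤ w' ∧ Z ≤ w' := by
      rcases hS with ⟨g1, g2, g3⟩ | ⟨g1, g2, g3, g4⟩
      · exact ⟨g2.le, g3⟩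
      · exact ⟨g2, g3.le⟩
    have e1 : (2 * ρ + 40) * X ≤ (2 * ρ + 40) * w' := Nat.mul_le_mul_left _ hX.1
    have e2 : (2 * ρ + 40) * Z ≤ (2 * ρ + 40) * w' := Nat.mul_le_mul_left _ hX.2
    have e3 : (2 * ρ + 40) * X = 2 * ((ρ + 20) * X) := by ring
    have e4 : (2 * ρ + 40) * Z = 2 * ((ρ + 20) * Z) := by ring
    cases b
    · simp only [Rt.hb, Bool.false_eq_true, if_false]
      exact shS_sub (by omega) (by omega) (by omega)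
    · simp only [Rt.hb, if_true]
      exact shS_sub (by omega) (by omega) (by omega)
  -- the pattern
  have hSf : (Seg w').Finite := seg_finite w'
  have hRf : (Seg ρ).Finite := seg_finite ρ
  have hRne : hRf.toFinset.Nonempty := by
    refine ⟨(true, 0, 0), ?_⟩
    rw [Set.Finite.mem_toFinset]
    exact Or.inl ⟨rfl, by simp only; omega, Nat.zero_le _⟩
  obtain ⟨𝒯', h1, h2, h3⟩ := pigeon hSf.toFinset hRf.toFinset hRne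
    (fun S r b => ∃ x ∈ L₁ (shS (Rt.hb ρ S).1 (Rt.hb ρ S).2 r),
      x ∈ crr L₂ (shS b.1 b.2 '' Seg s)) 𝒯 (by
      intro S hS b hb
      rw [Set.Finite.mem_toFinset] at hS
      obtain ⟨_, ⟨r, hr, rfl⟩, x, hx, hx2⟩ := hot _ _ (hblk S hS) b hb
      exact ⟨r, by rw [Set.Finite.mem_toFinset]; exact hr, x, hx, hx2⟩)
  have h3' : ∀ S ∈ Seg w', ∃ r ∈ Seg ρ, ∀ b ∈ 𝒯', ∃ x ∈ L₁ (shS (Rt.hb ρ S).1 (Rt.hb ρ S).2 r),
      x ∈ crr L₂ (shS b.1 b.2 '' Seg s) := by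
    intro S hS
    obtain ⟨r, hr, h4⟩ := h3 S (by rw [Set.Finite.mem_toFinset]; exact hS)
    rw [Set.Finite.mem_toFinset] at hr
    exact ⟨r, hr, h4⟩
  choose! r hr1 hr2 using h3'
  rw [← Set.ncard_eq_toFinset_card _ hSf, ← Set.ncard_eq_toFinset_card _ hRf] at h2
  refine ⟨𝒯', h1, h2, ?_⟩
  -- the routes
  obtain ⟨P, U, z, k1, k2, k3, k4, k5, k6⟩ := Rt.route (ρ := ρ) (w' := w') (w := w) hρ hw
    (h := fun S => shS (Rt.hb ρ S).1 (Rt.hb ρ S).2 (r S)) fun S hS => ⟨r S, hr1 S hS, rfl⟩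
  obtain ⟨L', f', hg, hmem⟩ := h.pair.s₁.coarse (S' := Seg w') (β := Rt.bt ρ) (P := P) (U := U)
    (z := z) k1 k2 k3 (fun _ _ _ _ p _ p' _ hpp => Rt.bt_inj hpp) k4
  have htl : tiles s 𝒯' ⊆ tiles s 𝒯 := fun σ ⟨t, ht, hσ⟩ => ⟨t, h1 ht, hσ⟩
  have hzS : ∀ S ∈ Seg w', z S ∈ Seg w := fun S hS =>
    k2 S hS _ (List.mem_of_getLast? (k3 S hS).1)
  have he : (fun S => e₁ (z S)) '' Seg w' ⊆ e₁ '' Seg w := by
    rintro _ ⟨S, hS, rfl⟩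
    exact ⟨_, hzS S hS, rfl⟩
  have hp : Pair M (Seg w') L' f' (fun S => e₁ (z S)) u₁ (tiles s 𝒯') L₂ f₂ e₂ u₂ :=
    ⟨hg, h.pair.s₂.subset htl, h.pair.dj.mono he (image_mono htl)⟩
  obtain ⟨M₀, L₁', f₁', L₂', f₂', m1, m2, m3, m4, m5⟩ := hp.clean
  refine ⟨M₀, L₁', f₁', _, L₂', f₂', m1, m2, he, ?_, ?_, m4⟩
  · intro b hb S hS
    obtain ⟨x, hx, σ, hσ, hxσ⟩ := hr2 S hS b hb
    have h5 : x ∈ L' S := (hmem S hS x).2 ⟨_, k5 S hS, hx⟩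
    obtain ⟨h6, h7⟩ := m5 S hS σ ⟨b, hb, hσ⟩ x h5 hxσ
    exact ⟨x, h6, σ, hσ, h7⟩
  · intro S hS x hx
    obtain ⟨t, ht, hxt⟩ := (hmem S hS x).1 (m3 S hS x hx)
    exact ⟨t, k2 S hS t ht, k6 S hS t ht, hxt⟩

/-- the number of rows in a box -/
def nB (ρ : ℕ) : ℕ := 2 * ((2 * ρ + 42) * (2 * ρ + 41))

/-- the rows in a box -/
def boxF (ρ : ℕ) (S : Bool × ℕ × ℕ) : Finset (Bool × ℕ × ℕ) :=
  (Finset.univ : Finset Bool) ×ˢ
    (Finset.Icc ((2 * ρ + 40) * S.2.1) ((2 * ρ + 40) * S.2.1 + (2 * ρ + 41)) ×ˢ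
      Finset.Icc ((2 * ρ + 40) * S.2.2) ((2 * ρ + 40) * S.2.2 + (2 * ρ + 40)))

lemma mem_boxF {ρ : ℕ} {S t : Bool × ℕ × ℕ} (h : Box ρ S t) : t ∈ boxF ρ S := by
  obtain ⟨h1, h2, h3, h4⟩ := h
  simp only [boxF, Finset.mem_product, Finset.mem_univ, Finset.mem_Icc, true_and]
  exact ⟨⟨h1, h2⟩, h3, h4⟩

lemma boxF_card (ρ : ℕ) (S : Bool × ℕ × ℕ) : (boxF ρ S).card = nB ρ := by
  simp only [boxF, Finset.card_product, Finset.card_univ, Fintype.card_bool, Nat.card_Icc, nB]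
  congr 2 <;> omega

/-- counting along a coarse row -/
lemma box_count {α : Type u} {ρ c B : ℕ} {S : Bool × ℕ × ℕ} {A : Set α} (hA : A.Finite)
    {P : Bool × ℕ × ℕ → Prop} {G : Bool × ℕ × ℕ → Set α}
    (h1 : ∀ x ∈ A, ∃ t, P t ∧ Box ρ S t ∧ x ∈ G t)
    (h2 : ∀ t, P t → c * (G t ∩ A).ncard ≤ B) : c * A.ncard ≤ nB ρ * B := by
  classical
  have hsub : A ⊆ ⋃ t ∈ (boxF ρ S).filter P, (G t ∩ A) := by
    intro x hx
    obtain ⟨t, ht1, ht2, ht3⟩ := h1 x hx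
    simp only [mem_iUnion, Finset.mem_filter]
    exact ⟨t, ⟨mem_boxF ht2, ht1⟩, ht3, hx⟩
  have h3 : ∀ I : Finset (Bool × ℕ × ℕ), (∀ t ∈ I, P t) →
      c * (⋃ t ∈ I, (G t ∩ A)).ncard ≤ I.card * B := by
    intro I
    induction I using Finset.induction_on with
    | empty => simp
    | insert t I ht ih =>
      intro hI
      have h4 := ih fun t' ht' => hI t' (Finset.mem_insert_of_mem ht')
      have h5 := h2 t (hI t (Finset.mem_insert_self _ _))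
      rw [Finset.set_biUnion_insert, Finset.card_insert_of_notMem ht]
      have h6 := Set.ncard_union_le (G t ∩ A) (⋃ t' ∈ I, (G t' ∩ A))
      calc c * ((G t ∩ A) ∪ ⋃ t' ∈ I, (G t' ∩ A)).ncard
          ≤ c * ((G t ∩ A).ncard + (⋃ t' ∈ I, (G t' ∩ A)).ncard) := Nat.mul_le_mul_left _ h6
        _ = c * (G t ∩ A).ncard + c * (⋃ t' ∈ I, (G t' ∩ A)).ncard := by ring
        _ ≤ B + I.card * B := Nat.add_le_add h5 h4
        _ = (I.card + 1) * B := by ring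
  have h4 := h3 ((boxF ρ S).filter P) (fun t ht => (Finset.mem_filter.1 ht).2)
  have h5 : ((boxF ρ S).filter P).card ≤ nB ρ := by
    rw [← boxF_card ρ S]
    exact Finset.card_filter_le _ _
  have hfin : (⋃ t ∈ (boxF ρ S).filter P, (G t ∩ A)).Finite := by
    refine hA.subset ?_
    intro x hx
    simp only [mem_iUnion] at hx
    obtain ⟨t, _, _, hx⟩ := hx
    exact hx
  calc c * A.ncard ≤ c * (⋃ t ∈ (boxF ρ S).filter P, (G t ∩ A)).ncard :=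
        Nat.mul_le_mul_left _ (Set.ncard_le_ncard hsub hfin)
    _ ≤ _ := h4
    _ ≤ _ := Nat.mul_le_mul_right _ h5

/-- **Heavy coarse rows.** -/
lemma heavy_count {α : Type u} {ρ w w' L : ℕ} {L₁ L₁' : Bool × ℕ × ℕ → List α} {T T' : Set α}
    (hT : T' ⊆ T) (hfin : (crr L₁ (Seg w) ∩ T).Finite)
    (hbox : ∀ r ∈ Seg w', ∀ x ∈ L₁' r, ∃ t ∈ Seg w, Box ρ r t ∧ x ∈ L₁ t)
    (huniq : ∀ r ∈ Seg w', ∀ r' ∈ Seg w', ∀ x, x ∈ L₁' r → x ∈ L₁' r' → r = r') :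
    (crr L₁' {r | r ∈ Seg w' ∧ 2 * nB ρ * L < ({x | x ∈ L₁' r} ∩ T').ncard} ∩ T').ncard ≤
      2 * (crr L₁ {t | t ∈ Seg w ∧ L < ({x | x ∈ L₁ t} ∩ T).ncard} ∩ T).ncard := by
  classical
  set Hv : Set (Bool × ℕ × ℕ) := {r | r ∈ Seg w' ∧ 2 * nB ρ * L < ({x | x ∈ L₁' r} ∩ T').ncard}
    with hHv
  set Q : Set α := crr L₁ {t | t ∈ Seg w ∧ L < ({x | x ∈ L₁ t} ∩ T).ncard} ∩ T with hQ
  have hQf : Q.Finite := hfin.subset fun x ⟨⟨t, ht, hx⟩, hxT⟩ => ⟨⟨t, ht.1, hx⟩, hxT⟩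
  have hrf : ∀ r ∈ Seg w', ({x | x ∈ L₁' r} ∩ T').Finite := by
    rintro r hr
    refine hfin.subset ?_
    rintro x ⟨hx, hxT⟩
    obtain ⟨t, ht, _, hxt⟩ := hbox r hr x hx
    exact ⟨⟨t, ht, hxt⟩, hT hxT⟩
  -- one heavy row
  have hone : ∀ r ∈ Hv, ({x | x ∈ L₁' r} ∩ T').ncard ≤ 2 * ({x | x ∈ L₁' r} ∩ T' ∩ Q).ncard := by
    rintro r ⟨hr, hr2⟩
    have h1 := box_count (c := 1) (B := L) (ρ := ρ) (S := r)
      (A := ({x | x ∈ L₁' r} ∩ T') \ Q) ((hrf r hr).subset sdiff_subset)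
      (P := fun t => t ∈ Seg w ∧ ({x | x ∈ L₁ t} ∩ T).ncard ≤ L) (G := fun t => {x | x ∈ L₁ t}) (by
        rintro x ⟨⟨hx, hxT⟩, hxQ⟩
        obtain ⟨t, ht, htb, hxt⟩ := hbox r hr x hx
        refine ⟨t, ⟨ht, ?_⟩, htb, hxt⟩
        by_contra hno
        push Not at hno
        exact hxQ ⟨⟨t, ⟨ht, hno⟩, hxt⟩, hT hxT⟩) (by
        rintro t ⟨ht, ht2⟩
        rw [one_mul]
        refine le_trans (Set.ncard_le_ncard ?_ (hfin.subset ?_)) ht2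
        · rintro x ⟨hx, ⟨_, hxT⟩, _⟩
          exact ⟨hx, hT hxT⟩
        · rintro x ⟨hx, hxT⟩
          exact ⟨⟨t, ht, hx⟩, hxT⟩)
    rw [one_mul] at h1
    have h2 := Set.ncard_inter_add_ncard_sdiff_eq_ncard ({x | x ∈ L₁' r} ∩ T') Q (hrf r hr)
    have h3 : 2 * nB ρ * L = 2 * (nB ρ * L) := by ring
    rw [h3] at hr2
    omega
  -- summation
  have key : ∀ I : Finset (Bool × ℕ × ℕ), (∀ r ∈ I, r ∈ Hv) →
      (⋃ r ∈ I, ({x | x ∈ L₁' r} ∩ T')).ncard ≤ 2 * (⋃ r ∈ I, ({x | x ∈ L₁' r} ∩ T' ∩ Q)).ncard := by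
    intro I
    induction I using Finset.induction_on with
    | empty => simp
    | insert r I hrI ih =>
      intro hI
      have h4 := ih fun t' ht' => hI t' (Finset.mem_insert_of_mem ht')
      have hrH := hI r (Finset.mem_insert_self _ _)
      have h5 := hone r hrH
      rw [Finset.set_biUnion_insert, Finset.set_biUnion_insert]
      have h6 := Set.ncard_union_le ({x | x ∈ L₁' r} ∩ T') (⋃ t' ∈ I, ({x | x ∈ L₁' t'} ∩ T'))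
      have hf1 : ({x | x ∈ L₁' r} ∩ T' ∩ Q).Finite := hQf.subset inter_subset_right
      have hf2 : (⋃ t' ∈ I, ({x | x ∈ L₁' t'} ∩ T' ∩ Q)).Finite := by
        refine hQf.subset ?_
        intro x hx
        simp only [mem_iUnion] at hx
        obtain ⟨_, _, _, hx⟩ := hx
        exact hx
      have h7 : (({x | x ∈ L₁' r} ∩ T' ∩ Q) ∪ ⋃ t' ∈ I, ({x | x ∈ L₁' t'} ∩ T' ∩ Q)).ncard =
          ({x | x ∈ L₁' r} ∩ T' ∩ Q).ncard + (⋃ t' ∈ I, ({x | x ∈ L₁' t'} ∩ T' ∩ Q)).ncard := by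
        refine Set.ncard_union_eq ?_ hf1 hf2
        rw [Set.disjoint_left]
        rintro x ⟨⟨hx, _⟩, _⟩ hx2
        simp only [mem_iUnion] at hx2
        obtain ⟨t', ht', ⟨⟨hx', _⟩, _⟩⟩ := hx2
        have := huniq r hrH.1 t' (hI t' (Finset.mem_insert_of_mem ht')).1 x hx hx'
        subst this
        exact hrI ht'
      omega
  have hHf : Hv.Finite := (seg_finite w').subset fun r hr => hr.1
  have h8 := key hHf.toFinset fun r hr => hHf.mem_toFinset.1 hr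
  have h9 : (crr L₁' Hv ∩ T').ncard ≤ (⋃ r ∈ hHf.toFinset, ({x | x ∈ L₁' r} ∩ T')).ncard := by
    refine Set.ncard_le_ncard ?_ ?_
    · rintro x ⟨⟨r, hr, hx⟩, hxT⟩
      simp only [mem_iUnion]
      exact ⟨r, hHf.mem_toFinset.2 hr, hx, hxT⟩
    · refine Set.Finite.subset hfin ?_
      intro x hx
      simp only [mem_iUnion] at hx
      obtain ⟨r, hr, hx, hxT⟩ := hx
      obtain ⟨t, ht, _, hxt⟩ := hbox r (hHf.mem_toFinset.1 hr).1 x hx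
      exact ⟨⟨t, ht, hxt⟩, hT hxT⟩
  have h10 : (⋃ r ∈ hHf.toFinset, ({x | x ∈ L₁' r} ∩ T' ∩ Q)).ncard ≤ Q.ncard := by
    refine Set.ncard_le_ncard ?_ hQf
    intro x hx
    simp only [mem_iUnion] at hx
    obtain ⟨_, _, _, hx⟩ := hx
    exact hx
  omega

lemma seg_mono {y y' : ℕ} (h : y ≤ y') : Seg y ⊆ Seg y' := by
  rintro ⟨b, m, z⟩ hs
  simp only [Seg, mem_ofPred_eq] at hs ⊢
  rcases hs with ⟨h1, h2, h3⟩ | ⟨h1, h2, h3, h4⟩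
  · exact Or.inl ⟨h1, by omega, by omega⟩
  · exact Or.inr ⟨h1, by omega, by omega, h4⟩

/-- **A1 + A2 + COVERING.**  As `worldExists`; the tiles have side `≥ s₁ t`, and every row of the
block has a conflict with every tile. -/
theorem coverExists (k K : ℕ) (hk : 1 ≤ k) : ∃ (κ : ℕ) (s₀ s₁ : ℕ → ℕ) (Cb : ℕ → ℕ → ℕ),
    ∀ t G : ℕ, 2 ∣ G → ∀ (Df : ℕ → ℕ) (h K₀ w₁ s : ℕ), s₁ t ≤ s → s < G → ∃ wmax : ℕ,
    ∀ m : ℕ, ∃ N : ℕ, ∀ n ≥ N,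
    ∀ {α : Type u} (M : Matroid α) [M.Finite] (C₁ D₁ C₂ D₂ : Set α),
    C₁ ⊆ M.E → C₂ ⊆ M.E → D₂ ⊆ M.E →
    Disjoint (M.E \ (C₁ ∪ D₁)) (M.E \ (C₂ ∪ D₂)) →
    IsBicircular (M ／ C₁ ＼ D₁) (GPlus n) → IsBicircular (M✶ ／ D₂ ＼ C₂) (GPlus n) →
    ((C₁ ∩ D₂).ncard ≤ K * n ^ 4 ∨ (D₁ ∩ C₂).ncard ≤ K * n ^ 4) →
    KGe M (M.E \ (C₁ ∪ D₁)) (M.E \ (C₂ ∪ D₂)) N → HasUniformMinor M k ∨
    ∃ (M₀ : Matroid α) (w L : ℕ) (𝒯 : Finset (ℕ × ℕ)) (L₁ : Bool × ℕ × ℕ → List α)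
      (f₁ : α → Sym2 ((ℕ × ℕ) ⊕ α)) (e₁ : Bool × ℕ × ℕ → α) (u₁ : ℕ)
      (L₂ : Bool × ℕ × ℕ → List α) (f₂ : α → Sym2 ((ℕ × ℕ) ⊕ α)) (e₂ : Bool × ℕ × ℕ → α) (u₂ : ℕ),
      M₀ ≤m M ∧ w₁ ≤ w ∧ w ≤ wmax ∧ L ≤ wmax ∧ u₁ ≤ κ ∧ u₂ ≤ κ ∧ m ≤ 𝒯.card ∧
      (∀ b ∈ 𝒯, G ∣ b.1 ∧ G ∣ b.2) ∧
      World M₀ w s 𝒯 L₁ f₁ e₁ u₁ L₂ f₂ e₂ u₂ ∧
      Linked M₀ t (s₀ t) (e₁ '' Seg w) (e₂ '' tiles s 𝒯) ∧
      ∀ b ∈ 𝒯,
        -- covering: every row crosses the tile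
        (∀ r ∈ Seg w, ∃ x ∈ L₁ r, x ∈ crr L₂ (shS b.1 b.2 '' Seg s)) ∧
        -- (a) no row is heavy in the tile
        (∀ r ∈ Seg w, Df L * ({x | x ∈ L₁ r} ∩ crr L₂ (shS b.1 b.2 '' Seg s)).ncard < w ^ 2) ∧
        -- (b) total
        (crr L₁ (Seg w) ∩ crr L₂ (shS b.1 b.2 '' Seg s)).ncard ≤ Cb t G * w ^ 2 ∧
        -- (c) boundary layer
        Df L * (crr L₁ (layer w K₀) ∩ crr L₂ (shS b.1 b.2 '' Seg s)).ncard ≤ w ^ 2 ∧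
        -- (d) rows with more than `L` conflicts in the tile carry little together
        h * (crr L₁ {r | r ∈ Seg w ∧
              L < ({x | x ∈ L₁ r} ∩ crr L₂ (shS b.1 b.2 '' Seg s)).ncard} ∩
            crr L₂ (shS b.1 b.2 '' Seg s)).ncard ≤ w ^ 2 := by
  classical
  obtain ⟨κ, s₀, Cb, hW⟩ := worldExists.{u} k K hk
  obtain ⟨t₀, hH⟩ := hotBlock.{u} k hk
  have hH' := fun t : ℕ => hH κ (s₀ (max t t₀))
  choose ρ' hρ' using hH'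
  refine ⟨κ, fun t => s₀ (max t t₀), ρ', fun t G => 9 * (2 * (2 * (ρ' t + 1)) + 40) ^ 2 * Cb G, ?_⟩
  intro t G hG Df h K₀ w₁ s hs hsG
  obtain ⟨ρ, hρ⟩ : ∃ ρ, ρ = 2 * (ρ' t + 1) := ⟨_, rfl⟩
  obtain ⟨ℓ, hℓ⟩ : ∃ ℓ, ℓ = 2 * ρ + 40 := ⟨_, rfl⟩
  obtain ⟨wmax, hwm⟩ := hW (max t t₀) G hG
    (fun L => nB ρ * (9 * ℓ ^ 2) * (Df (2 * nB ρ * L) + 1)) (18 * ℓ ^ 2 * h) (ℓ * (K₀ + 3))
    (ℓ * (w₁ + 3)) s hsG
  refine ⟨wmax + 2 * nB ρ * wmax, fun m => ?_⟩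
  obtain ⟨N, hN⟩ := hwm (((Seg ρ).ncard + 1) ^ (2 * (wmax + 1) ^ 2) * m)
  refine ⟨N, fun n hn {α} M _ C₁ D₁ C₂ D₂ hC₁ hC₂ hD₂ hdis hb₁ hb₂ hcnt hKGe => ?_⟩
  rcases hN n hn M C₁ D₁ C₂ D₂ hC₁ hC₂ hD₂ hdis hb₁ hb₂ hcnt hKGe with hU | hU
  · exact Or.inl hU
  obtain ⟨M₀, w, L, 𝒯, L₁, f₁, e₁, u₁, L₂, f₂, e₂, u₂, g1, g2, g3, g4, g5, g6, g7, g8, g9, g10,
    g11⟩ := hU
  have hfM₀ : M₀.Finite := ⟨M.ground_finite.subset g1.subset⟩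
  rcases hρ' t (max t t₀) (le_max_right _ _) M₀ (Seg w) L₁ f₁ e₁ u₁ (tiles s 𝒯) L₂ f₂ e₂ u₂
    g9.pair g5 g6 g10 with hU | hhot
  · exact Or.inl (HasUniformMinor_mono hU g1)
  right
  -- the coarse side
  obtain ⟨w', hw'⟩ : ∃ w', w' = w / ℓ - 1 := ⟨_, rfl⟩
  have hℓ0 : 0 < ℓ := by omega
  have hwℓ : w₁ + 3 ≤ w / ℓ := by
    rw [Nat.le_div_iff_mul_le hℓ0, mul_comm]
    exact g2
  have hwℓ1 : w' + 1 = w / ℓ := by omega
  have hd1 : ℓ * (w' + 1) ≤ w := by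
    rw [hwℓ1, mul_comm]
    exact Nat.div_mul_le_self w ℓ
  have hd2 : w < ℓ * (w' + 2) := by
    have := Nat.lt_mul_div_succ w hℓ0
    rw [show w' + 2 = w / ℓ + 1 by omega]
    exact this
  have hw'1 : 1 ≤ w' ∧ w₁ ≤ w' ∧ w' ≤ w := by
    refine ⟨by omega, by omega, ?_⟩
    have : w' + 1 ≤ ℓ * (w' + 1) := Nat.le_mul_of_pos_left _ hℓ0
    omega
  have hwsq : w ^ 2 ≤ 9 * ℓ ^ 2 * w' ^ 2 := by
    have h1 : w ≤ 3 * ℓ * w' := by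
      have h2 : ℓ * (w' + 2) ≤ ℓ * (3 * w') := Nat.mul_le_mul_left _ (by omega)
      have h3 : ℓ * (3 * w') = 3 * ℓ * w' := by ring
      omega
    calc w ^ 2 ≤ (3 * ℓ * w') ^ 2 := Nat.pow_le_pow_left h1 2
      _ = 9 * ℓ ^ 2 * w' ^ 2 := by ring
  obtain ⟨𝒯', p1, p2, M₁, L₁', f₁', e₁', L₂', f₂', p3, p4, p5, p6, p7, p8⟩ :=
    g9.cover (ρ := ρ) (w' := w') (by omega) (by omega) (by rw [← hℓ]; exact hd1) (by
      intro i j hij b hb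
      have h1 : Seg (ρ' t) ⊆ Seg ρ := seg_mono (by omega)
      have h2 : Seg (ρ' t) ⊆ Seg s := seg_mono hs
      obtain ⟨r, ⟨r', hr', hrr⟩, x, hx, hx2⟩ := hhot i j b.1 b.2
        ((image_mono h1).trans hij) (fun σ hσ => ⟨b, hb, image_mono h2 hσ⟩)
      exact ⟨r, ⟨r', h1 hr', hrr⟩, x, hx, crr_mono (image_mono h2) hx2⟩)
  have hfM₁ : M₁.Finite := ⟨M₀.ground_finite.subset p3.subset⟩
  refine ⟨M₁, w', 2 * nB ρ * L, 𝒯', L₁', f₁', e₁', u₁, L₂', f₂', e₂, u₂, p3.trans g1, hw'1.2.1,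
    by omega, ?_, g5, g6, ?_, fun b hb => g8 b (p1 hb), p4, ?_, ?_⟩
  · have := Nat.mul_le_mul_left (2 * nB ρ) g4
    omega
  · -- the number of the tiles
    have h1 : (Seg ρ).ncard ^ (Seg w').ncard ≤ ((Seg ρ).ncard + 1) ^ (2 * (wmax + 1) ^ 2) := by
      refine (Nat.pow_le_pow_left (Nat.le_succ _) _).trans (Nat.pow_le_pow_right (by omega) ?_)
      refine (seg_ncard w').trans (Nat.mul_le_mul_left _ (Nat.pow_le_pow_left (by omega) 2))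
    have h2 := g7.trans (p2.trans (Nat.mul_le_mul_right _ h1))
    exact Nat.le_of_mul_le_mul_left h2 (by positivity)
  · have hl : Linked M₀ t (s₀ (max t t₀)) (e₁ '' Seg w) (e₂ '' tiles s 𝒯) := by
      intro X hX R hR Q hQ C D a ha b hb c1 c2 c3 c4 c5 c6
      exact BQ.KGe.mono_n (g10 X hX R hR Q hQ C D a ha b hb c1 c2 c3 c4 c5 c6) (le_max_left _ _)
    exact hl.mono p3 p5 (image_mono fun σ ⟨b, hb, hσ⟩ => ⟨b, p1 hb, hσ⟩)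
  · intro b hb
    obtain ⟨q1, q2, q3, q4⟩ := g11 b (p1 hb)
    -- comparison of the tile
    have hT : crr L₂' (shS b.1 b.2 '' Seg s) ⊆ crr L₂ (shS b.1 b.2 '' Seg s) := by
      rintro x ⟨σ, hσ, hx⟩
      exact ⟨σ, hσ, p8 σ ⟨b, hb, hσ⟩ x hx⟩
    have hfin : (crr L₁ (Seg w) ∩ crr L₂ (shS b.1 b.2 '' Seg s)).Finite :=
      M₀.ground_finite.subset (inter_subset_left.trans g9.pair.s₁.sub_ground)
    have hrf : ∀ r ∈ Seg w', ({x | x ∈ L₁' r} ∩ crr L₂' (shS b.1 b.2 '' Seg s)).Finite := by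
      intro r hr
      refine M₁.ground_finite.subset (fun x hx => p4.pair.s₁.sub_ground ⟨r, hr, hx.1⟩)
    refine ⟨p6 b hb, ?_, ?_, ?_, ?_⟩
    · intro r hr
      have h1 := box_count (c := nB ρ * (9 * ℓ ^ 2) * (Df (2 * nB ρ * L) + 1)) (B := w ^ 2)
        (ρ := ρ) (S := r) (hrf r hr) (P := fun t => t ∈ Seg w) (G := fun t => {x | x ∈ L₁ t}) (by
          rintro x ⟨hx, hxT⟩
          obtain ⟨t, ht, htb, hxt⟩ := p7 r hr x hx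
          exact ⟨t, ht, htb, hxt⟩) (by
          intro t ht
          refine (Nat.mul_le_mul_left _ (Set.ncard_le_ncard ?_ (hfin.subset ?_))).trans
            (q1 t ht).le
          · rintro x ⟨hx, _, hxT⟩
            exact ⟨hx, hT hxT⟩
          · rintro x ⟨hx, hxT⟩
            exact ⟨⟨t, ht, hx⟩, hxT⟩)
      set c := ({x | x ∈ L₁' r} ∩ crr L₂' (shS b.1 b.2 '' Seg s)).ncard with hc
      have hn0 : 0 < nB ρ := by unfold nB; positivity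
      have h2 : nB ρ * (9 * ℓ ^ 2) * ((Df (2 * nB ρ * L) + 1) * c) ≤
          nB ρ * (9 * ℓ ^ 2) * w' ^ 2 := by
        calc nB ρ * (9 * ℓ ^ 2) * ((Df (2 * nB ρ * L) + 1) * c)
            = nB ρ * (9 * ℓ ^ 2) * (Df (2 * nB ρ * L) + 1) * c := by ring
          _ ≤ nB ρ * w ^ 2 := h1
          _ ≤ nB ρ * (9 * ℓ ^ 2 * w' ^ 2) := Nat.mul_le_mul_left _ hwsq
          _ = _ := by ring
      have h3 := Nat.le_of_mul_le_mul_left h2 (by positivity)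
      have h4 : (Df (2 * nB ρ * L) + 1) * c = Df (2 * nB ρ * L) * c + c := by ring
      have h5 : 1 ≤ w' ^ 2 := Nat.one_le_pow _ _ hw'1.1
      rcases Nat.eq_zero_or_pos c with h6 | h6
      · rw [h6, mul_zero]
        omega
      · omega
    · refine (Set.ncard_le_ncard ?_ hfin).trans (q2.trans ?_)
      · rintro x ⟨⟨r, hr, hx⟩, hxT⟩
        obtain ⟨t, ht, _, hxt⟩ := p7 r hr x hx
        exact ⟨⟨t, ht, hxt⟩, hT hxT⟩
      · calc Cb G * w ^ 2 ≤ Cb G * (9 * ℓ ^ 2 * w' ^ 2) := Nat.mul_le_mul_left _ hwsq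
          _ = 9 * (2 * (2 * (ρ' t + 1)) + 40) ^ 2 * Cb G * w' ^ 2 := by
              rw [hℓ, hρ]
              ring
    · have h1 : (crr L₁' (layer w' K₀) ∩ crr L₂' (shS b.1 b.2 '' Seg s)).ncard ≤
          (crr L₁ (layer w (ℓ * (K₀ + 3))) ∩ crr L₂ (shS b.1 b.2 '' Seg s)).ncard := by
        refine Set.ncard_le_ncard ?_ (hfin.subset ?_)
        · rintro x ⟨⟨r, ⟨hr, hr2⟩, hx⟩, hxT⟩
          obtain ⟨t, ht, htb, hxt⟩ := p7 r hr x hx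
          refine ⟨⟨t, ⟨ht, ?_⟩, hxt⟩, hT hxT⟩
          obtain ⟨b1, b2, b3, b4⟩ := htb
          rw [← hℓ] at b1 b2 b3 b4
          have e1 : ℓ * (K₀ + 3) = ℓ * K₀ + 3 * ℓ := by ring
          have e2 : ℓ * (w' + 2) = ℓ * w' + 2 * ℓ := by ring
          rcases hr2 with h2 | h2 | h2 | h2
          · have := Nat.mul_le_mul_left ℓ h2
            left
            omega
          · have := Nat.mul_le_mul_left ℓ h2
            right; left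
            omega
          · have := Nat.mul_le_mul_left ℓ h2
            have e3 : ℓ * (r.2.1 + K₀) = ℓ * r.2.1 + ℓ * K₀ := by ring
            right; right; left
            omega
          · have := Nat.mul_le_mul_left ℓ h2
            have e3 : ℓ * (r.2.2 + K₀) = ℓ * r.2.2 + ℓ * K₀ := by ring
            right; right; right
            omega
        · rintro x ⟨⟨r, hr, hx⟩, hxT⟩
          exact ⟨⟨r, hr.1, hx⟩, hxT⟩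
      have hn0 : 1 ≤ nB ρ := by unfold nB; exact Nat.one_le_iff_ne_zero.2 (by positivity)
      have h2 : 9 * ℓ ^ 2 * (Df (2 * nB ρ * L) * (crr L₁' (layer w' K₀) ∩
          crr L₂' (shS b.1 b.2 '' Seg s)).ncard) ≤ 9 * ℓ ^ 2 * w' ^ 2 := by
        calc 9 * ℓ ^ 2 * (Df (2 * nB ρ * L) * (crr L₁' (layer w' K₀) ∩
              crr L₂' (shS b.1 b.2 '' Seg s)).ncard)
            ≤ 9 * ℓ ^ 2 * ((Df (2 * nB ρ * L) + 1) * (crr L₁ (layer w (ℓ * (K₀ + 3))) ∩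
                crr L₂ (shS b.1 b.2 '' Seg s)).ncard) :=
              Nat.mul_le_mul_left _ (Nat.mul_le_mul (Nat.le_succ _) h1)
          _ = 1 * (9 * ℓ ^ 2 * ((Df (2 * nB ρ * L) + 1) * (crr L₁ (layer w (ℓ * (K₀ + 3))) ∩
                crr L₂ (shS b.1 b.2 '' Seg s)).ncard)) := by ring
          _ ≤ nB ρ * (9 * ℓ ^ 2 * ((Df (2 * nB ρ * L) + 1) *
                (crr L₁ (layer w (ℓ * (K₀ + 3))) ∩
                crr L₂ (shS b.1 b.2 '' Seg s)).ncard)) := Nat.mul_le_mul_right _ hn0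
          _ = nB ρ * (9 * ℓ ^ 2) * (Df (2 * nB ρ * L) + 1) *
                (crr L₁ (layer w (ℓ * (K₀ + 3))) ∩
                crr L₂ (shS b.1 b.2 '' Seg s)).ncard := by ring
          _ ≤ w ^ 2 := q3
          _ ≤ _ := hwsq
      exact Nat.le_of_mul_le_mul_left h2 (by positivity)
    · have h1 := heavy_count (ρ := ρ) (w := w) (w' := w') (L := L) (L₁ := L₁) (L₁' := L₁') hT hfin
        (fun r hr x hx => p7 r hr x hx) (fun r hr r' hr' x hx hx' => p4.pair.s₁.uniq hr hr' hx hx')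
      have h2 : 9 * ℓ ^ 2 * (h * (crr L₁' {r | r ∈ Seg w' ∧ 2 * nB ρ * L <
          ({x | x ∈ L₁' r} ∩ crr L₂' (shS b.1 b.2 '' Seg s)).ncard} ∩
          crr L₂' (shS b.1 b.2 '' Seg s)).ncard) ≤ 9 * ℓ ^ 2 * w' ^ 2 := by
        calc 9 * ℓ ^ 2 * (h * (crr L₁' {r | r ∈ Seg w' ∧ 2 * nB ρ * L <
              ({x | x ∈ L₁' r} ∩ crr L₂' (shS b.1 b.2 '' Seg s)).ncard} ∩
              crr L₂' (shS b.1 b.2 '' Seg s)).ncard)
            ≤ 9 * ℓ ^ 2 * (h * (2 * (crr L₁ {t | t ∈ Seg w ∧ L < ({x | x ∈ L₁ t} ∩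
                crr L₂ (shS b.1 b.2 '' Seg s)).ncard} ∩
                crr L₂ (shS b.1 b.2 '' Seg s)).ncard)) :=
              Nat.mul_le_mul_left _ (Nat.mul_le_mul_left _ h1)
          _ = 18 * ℓ ^ 2 * h * (crr L₁ {t | t ∈ Seg w ∧ L < ({x | x ∈ L₁ t} ∩
                crr L₂ (shS b.1 b.2 '' Seg s)).ncard} ∩
                crr L₂ (shS b.1 b.2 '' Seg s)).ncard := by ring
          _ ≤ w ^ 2 := q4
          _ ≤ _ := hwsq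
      exact Nat.le_of_mul_le_mul_left h2 (by positivity)

end CWL
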