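import Pool.Agent.CW.Scale2

/-!
# Multi-scale choice of a block, with two thresholds (helper34)

As `CWL.scale2`, with two thresholds `L ≤ L'`: the rows with more than `L` elements carry at most
`w ^ 2 / h` elements and the rows with more than `L'` elements carry at most `w ^ 2 / h' L`.
The densities (rows, boundary layer) depend on the larger threshold `L'`.
-/

open Set
open scoped Classical

namespace CWL

namespace Scl

variable {ι β : Type*}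

/-- the block at position `P` is good, two thresholds -/
def Good3 (d hl h h' K₀ C w L L' : ℕ) (B : Finset β) (p : β → Bool × ℕ × ℕ) (P : ℕ × ℕ) : Prop :=
  Good2 d hl h K₀ C w L B p P ∧
  h' * (B.filter fun x => p x ∈ shS (2 * P.1) (2 * P.2) '' Seg w ∧ L' < cnt B p (p x)).card ≤ w ^ 2

/-- **One tile, two thresholds.** -/
lemma tile5 (K₁ d h h' K₀ w₁ y lam w₀ L L' M S S' : ℕ) (hK : 1 ≤ K₁) (hd : 1 ≤ d)
    (hlam : lam = 1024 * (d + 1) * K₁)
    (hw₀ : w₀ = w₁ + 1024 * (d + 1) * (K₀ + 1) * K₁) (B : Finset β) (p : β → Bool × ℕ × ℕ)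
    (hB : B.card ≤ K₁ * y ^ 2) (hy : 2 * (w₀ * lam ^ lam) ≤ y)
    (hS : S * (B.filter fun x => L < cnt B p (p x) ∧ cnt B p (p x) < M).card ≤ B.card)
    (hS1 : 1024 * (h + 1) * K₁ ≤ S)
    (hS' : S' * (B.filter fun x => L' < cnt B p (p x) ∧ cnt B p (p x) < M).card ≤ B.card)
    (hS1' : 1024 * (h' + 1) * K₁ ≤ S')
    (hM : 1024 * K₁ * (w₀ * lam ^ lam) ^ 2 ≤ M) :
    ∃ σ < lam, (Pos y (w₀ * lam ^ σ)).card ≤ 3 * ((Pos y (w₀ * lam ^ σ)).filter
        fun P => Good3 d d h h' K₀ (512 * K₁) (w₀ * lam ^ σ) L L' B p P).card := by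
  obtain ⟨σ, hσ, hg⟩ := tile3 K₁ d d h K₀ w₁ y lam w₀ L M S hK hlam hw₀ B p hB hy hS hS1 hM
  refine ⟨σ, hσ, ?_⟩
  have hlam1 : 1 ≤ lam := by
    rw [hlam]
    exact Nat.one_le_iff_ne_zero.2 (by positivity)
  have hw₀1 : 1 ≤ w₀ := by
    have : 1 ≤ 1024 * (d + 1) * (K₀ + 1) * K₁ := Nat.one_le_iff_ne_zero.2 (by positivity)
    omega
  set w := w₀ * lam ^ σ with hw
  have hw1 : 1 ≤ w := Nat.one_le_iff_ne_zero.2 (by
    rw [hw]
    positivity)
  have hwtop : w ≤ w₀ * lam ^ lam :=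
    Nat.mul_le_mul_left _ (Nat.pow_le_pow_right hlam1 hσ.le)
  have hwy : 2 * w ≤ y := (Nat.mul_le_mul_left 2 hwtop).trans hy
  set N := (Pos y w).card with hN
  have hyN : y ^ 2 ≤ 16 * N := pos_card hwy
  have hBN : B.card ≤ 16 * K₁ * N := by
    calc B.card ≤ K₁ * y ^ 2 := hB
      _ ≤ K₁ * (16 * N) := Nat.mul_le_mul_left _ hyN
      _ = 16 * K₁ * N := by ring
  have hw4 : (w + 1) ^ 2 ≤ 4 * w ^ 2 := by nlinarith
  have hwM : w ^ 2 ≤ M := by
    refine le_trans ?_ hM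
    calc w ^ 2 ≤ (w₀ * lam ^ lam) ^ 2 := Nat.pow_le_pow_left hwtop 2
      _ ≤ 1024 * K₁ * (w₀ * lam ^ lam) ^ 2 := Nat.le_mul_of_pos_left _ (by positivity)
  set B' := B.filter fun x => L' < cnt B p (p x) ∧ cnt B p (p x) < M with hB'
  set bD := (Pos y w).filter fun P => w ^ 2 <
    h' * (B'.filter fun x => p x ∈ shS (2 * P.1) (2 * P.2) '' Seg w).card with hbD
  have hD : 16 * bD.card ≤ N := by
    have h1 := markov (Pos y w) B' (fun P x => p x ∈ shS (2 * P.1) (2 * P.2) '' Seg w)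
      ((w + 1) ^ 2) (w ^ 2) h' (fun x _ => cov y w (p x))
    have h2 : bD.card * w ^ 2 ≤ h' * ((w + 1) ^ 2 * B'.card) := h1
    have h3 : w ^ 2 * (S' * bD.card) ≤ w ^ 2 * (64 * h' * K₁ * N) := by
      calc w ^ 2 * (S' * bD.card) = S' * (bD.card * w ^ 2) := by ring
        _ ≤ S' * (h' * ((w + 1) ^ 2 * B'.card)) := Nat.mul_le_mul_left _ h2
        _ = h' * (w + 1) ^ 2 * (S' * B'.card) := by ring
        _ ≤ h' * (4 * w ^ 2) * (16 * K₁ * N) :=
            Nat.mul_le_mul (Nat.mul_le_mul_left _ hw4) (hS'.trans hBN)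
        _ = w ^ 2 * (64 * h' * K₁ * N) := by ring
    have h4 : S' * bD.card ≤ 64 * h' * K₁ * N := Nat.le_of_mul_le_mul_left h3 (by positivity)
    have h7 : (64 * K₁) * ((h' + 1) * (16 * bD.card)) ≤ (64 * K₁) * (h' * N) := by
      calc (64 * K₁) * ((h' + 1) * (16 * bD.card)) = 1024 * (h' + 1) * K₁ * bD.card := by ring
        _ ≤ S' * bD.card := Nat.mul_le_mul_right _ hS1'
        _ ≤ 64 * h' * K₁ * N := h4
        _ = (64 * K₁) * (h' * N) := by ring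
    have h8 : (h' + 1) * (16 * bD.card) ≤ h' * N := Nat.le_of_mul_le_mul_left h7 (by positivity)
    have h9 : (h' + 1) * (16 * bD.card) ≤ (h' + 1) * N := by nlinarith
    exact Nat.le_of_mul_le_mul_left h9 (by omega)
  have hall : ((Pos y w).filter fun P => Good2 d d h K₀ (512 * K₁) w L B p P) ⊆
      ((Pos y w).filter fun P => Good3 d d h h' K₀ (512 * K₁) w L L' B p P) ∪ bD := by
    intro P hP
    by_cases h5 : P ∈ bD
    · exact Finset.mem_union_right _ h5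
    rw [Finset.mem_filter] at hP
    refine Finset.mem_union_left _ (Finset.mem_filter.2 ⟨hP.1, hP.2, ?_⟩)
    by_contra hcon
    refine h5 (Finset.mem_filter.2 ⟨hP.1, ?_⟩)
    have h6 : (B'.filter fun x => p x ∈ shS (2 * P.1) (2 * P.2) '' Seg w) =
        B.filter fun x => p x ∈ shS (2 * P.1) (2 * P.2) '' Seg w ∧ L' < cnt B p (p x) := by
      ext x
      simp only [hB', Finset.mem_filter]
      constructor
      · rintro ⟨⟨e1, e2, e3⟩, e4⟩
        exact ⟨e1, e4, e2⟩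
      · rintro ⟨e1, e4, e2⟩
        refine ⟨⟨e1, e2, ?_⟩, e4⟩
        obtain ⟨r, hr, hpr⟩ := e4
        have h7 := hP.2.1 r hr
        have h8 : cnt B p (p x) = (B.filter fun x => p x = shS (2 * P.1) (2 * P.2) r).card := by
          rw [hpr]
          rfl
        rw [h8]
        have h9 : (B.filter fun x => p x = shS (2 * P.1) (2 * P.2) r).card ≤
            d * (B.filter fun x => p x = shS (2 * P.1) (2 * P.2) r).card :=
          Nat.le_mul_of_pos_left _ hd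
        omega
    rw [h6]
    exact not_le.1 hcon
  have h1 := (Finset.card_le_card hall).trans (Finset.card_union_le _ _)
  omega

/-- the next fine threshold -/
def nx (K₁ K₀ w₁ : ℕ) (D : ℕ → ℕ) (x : ℕ) : ℕ :=
  1024 * K₁ * (wz K₁ K₀ w₁ (D x) * (1024 * (D x + 1) * K₁) ^ (1024 * (D x + 1) * K₁)) ^ 2 + x

/-- the coarse thresholds -/
def crs (K₁ K₀ w₁ : ℕ) (D h' : ℕ → ℕ) : ℕ → ℕ
  | 0 => 0
  | a + 1 => (nx K₁ K₀ w₁ D)^[1024 * (h' (crs K₁ K₀ w₁ D h' a) + 1) * K₁]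
      (crs K₁ K₀ w₁ D h' a)

lemma nx_top {K₁ : ℕ} (K₀ w₁ : ℕ) (D : ℕ → ℕ) (hK : 1 ≤ K₁) (x : ℕ) :
    wz K₁ K₀ w₁ (D x) * (1024 * (D x + 1) * K₁) ^ (1024 * (D x + 1) * K₁) + x ≤
      nx K₁ K₀ w₁ D x := by
  have hw := wz_pos hK K₀ w₁ (D x)
  rw [nx]
  set u := wz K₁ K₀ w₁ (D x) * (1024 * (D x + 1) * K₁) ^ (1024 * (D x + 1) * K₁) with hu
  have h1 : u ≤ u ^ 2 := by
    rw [pow_two]
    exact Nat.le_mul_self u
  have h2 : u ^ 2 ≤ 1024 * K₁ * u ^ 2 :=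
    Nat.le_mul_of_pos_left _ (by positivity)
  omega

lemma nx_lam {K₁ : ℕ} (K₀ w₁ : ℕ) (D : ℕ → ℕ) (hK : 1 ≤ K₁) (x : ℕ) :
    1024 * (D x + 1) * K₁ + x ≤ nx K₁ K₀ w₁ D x := by
  refine le_trans ?_ (nx_top K₀ w₁ D hK x)
  have hw := wz_pos hK K₀ w₁ (D x)
  set l := 1024 * (D x + 1) * K₁ with hl
  have hl1 : 1 < l := by
    have : 1 ≤ (D x + 1) * K₁ := Nat.one_le_iff_ne_zero.2 (by positivity)
    rw [hl, mul_assoc]
    omega
  have h1 : l ≤ l ^ l := (Nat.lt_pow_self hl1).le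
  have h2 := h1.trans (Nat.le_mul_of_pos_left (l ^ l) hw)
  omega

lemma nx_lt {K₁ : ℕ} (K₀ w₁ : ℕ) (D : ℕ → ℕ) (hK : 1 ≤ K₁) (x : ℕ) : x < nx K₁ K₀ w₁ D x := by
  have h1 := nx_lam K₀ w₁ D hK x
  have h2 : 1 ≤ 1024 * (D x + 1) * K₁ := Nat.one_le_iff_ne_zero.2 (by positivity)
  omega

lemma nx_iter_mono {K₁ : ℕ} (K₀ w₁ : ℕ) (D : ℕ → ℕ) (hK : 1 ≤ K₁) (x : ℕ) :
    Monotone fun j => (nx K₁ K₀ w₁ D)^[j] x :=
  monotone_nat_of_le_succ fun j => by
    rw [Function.iterate_succ_apply']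
    exact (nx_lt K₀ w₁ D hK _).le

lemma nx_iter_le {K₁ : ℕ} (K₀ w₁ : ℕ) (D : ℕ → ℕ) (hK : 1 ≤ K₁) (x j : ℕ) :
    j + x ≤ (nx K₁ K₀ w₁ D)^[j] x := by
  induction j with
  | zero => simp
  | succ j ih =>
    rw [Function.iterate_succ_apply']
    have := nx_lt K₀ w₁ D hK ((nx K₁ K₀ w₁ D)^[j] x)
    omega

lemma crs_mono {K₁ : ℕ} (K₀ w₁ : ℕ) (D h' : ℕ → ℕ) (hK : 1 ≤ K₁) :
    Monotone (crs K₁ K₀ w₁ D h') :=
  monotone_nat_of_le_succ fun a => by
    rw [crs]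
    have := nx_iter_le K₀ w₁ D hK (crs K₁ K₀ w₁ D h' a)
      (1024 * (h' (crs K₁ K₀ w₁ D h' a) + 1) * K₁)
    omega

/-- disjoint parts of `B`, one of them is small -/
lemma small_part (B : Finset β) (S : ℕ) (hS : 1 ≤ S) (R : ℕ → Finset β) (hR : ∀ i, R i ⊆ B)
    (hdis : ∀ i j, i < j → Disjoint (R i) (R j)) : ∃ i < S, S * (R i).card ≤ B.card := by
  have hsum : ∑ i ∈ Finset.range S, (R i).card ≤ B.card := by
    have hd : (↑(Finset.range S) : Set ℕ).PairwiseDisjoint R := by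
      intro a _ b _ hab
      rcases lt_or_gt_of_ne hab with h' | h'
      · exact hdis a b h'
      · exact (hdis b a h').symm
    rw [← Finset.card_biUnion hd]
    exact Finset.card_le_card (Finset.biUnion_subset.2 fun i _ => hR i)
  by_contra hcon
  push Not at hcon
  have h1 : ∑ i ∈ Finset.range S, S * (R i).card ≤ S * B.card := by
    rw [← Finset.mul_sum]
    exact Nat.mul_le_mul_left _ hsum
  have h2 : ∑ i ∈ Finset.range S, B.card < ∑ i ∈ Finset.range S, S * (R i).card :=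
    Finset.sum_lt_sum_of_nonempty ⟨0, Finset.mem_range.2 (by omega)⟩
      fun i hi => hcon i (Finset.mem_range.1 hi)
  rw [Finset.sum_const, Finset.card_range, smul_eq_mul] at h2
  omega

/-- **One tile, with the thresholds.** -/
lemma tile6 (K₁ h K₀ w₁ y S : ℕ) (D h' : ℕ → ℕ) (hD : ∀ x, 1 ≤ D x) (hK : 1 ≤ K₁)
    (hS1 : S = 1024 * (h + 1) * K₁)
    (B : Finset β) (p : β → Bool × ℕ × ℕ) (hB : B.card ≤ K₁ * y ^ 2)
    (hy : 2 * crs K₁ K₀ w₁ D h' S ≤ y) :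
    ∃ a < S, ∃ j < 1024 * (h' (crs K₁ K₀ w₁ D h' a) + 1) * K₁, ∃ L',
      L' = (nx K₁ K₀ w₁ D)^[j] (crs K₁ K₀ w₁ D h' a) ∧
      ∃ σ < 1024 * (D L' + 1) * K₁,
      (Pos y (wz K₁ K₀ w₁ (D L') * (1024 * (D L' + 1) * K₁) ^ σ)).card ≤
      3 * ((Pos y (wz K₁ K₀ w₁ (D L') * (1024 * (D L' + 1) * K₁) ^ σ)).filter
        fun P => Good3 (D L') (D L') h (h' (crs K₁ K₀ w₁ D h' a)) K₀ (512 * K₁)
          (wz K₁ K₀ w₁ (D L') * (1024 * (D L' + 1) * K₁) ^ σ)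
          (crs K₁ K₀ w₁ D h' a) L' B p P).card := by
  have hS0 : 1 ≤ S := by
    rw [hS1]
    exact Nat.one_le_iff_ne_zero.2 (by positivity)
  obtain ⟨U, hU⟩ : ∃ U, U = crs K₁ K₀ w₁ D h' := ⟨_, rfl⟩
  have hUm : Monotone U := by
    rw [hU]
    exact crs_mono K₀ w₁ D h' hK
  obtain ⟨a, ha, haR⟩ := small_part B S hS0
    (fun a => B.filter fun x => U a < cnt B p (p x) ∧ cnt B p (p x) < U (a + 1))
    (fun i => Finset.filter_subset _ _) (fun i j hij => by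
      rw [Finset.disjoint_left]
      intro x hxa hxb
      rw [Finset.mem_filter] at hxa hxb
      have := hUm (show i + 1 ≤ j from hij)
      omega)
  obtain ⟨S', hS'⟩ : ∃ S', S' = 1024 * (h' (U a) + 1) * K₁ := ⟨_, rfl⟩
  have hS'0 : 1 ≤ S' := by
    rw [hS']
    exact Nat.one_le_iff_ne_zero.2 (by positivity)
  obtain ⟨F, hF⟩ : ∃ F : ℕ → ℕ, F = fun j => (nx K₁ K₀ w₁ D)^[j] (U a) := ⟨_, rfl⟩
  have hFm : Monotone F := by
    rw [hF]
    exact nx_iter_mono K₀ w₁ D hK (U a)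
  have hF0 : F 0 = U a := by rw [hF]; rfl
  have hFS : F S' = U (a + 1) := by
    rw [hF, hU, hS', crs, hU]
  have hFs : ∀ j, F (j + 1) = nx K₁ K₀ w₁ D (F j) := fun j => by
    rw [hF]
    exact Function.iterate_succ_apply' _ _ _
  obtain ⟨j, hj, hjR⟩ := small_part B S' hS'0
    (fun j => B.filter fun x => F j < cnt B p (p x) ∧ cnt B p (p x) < F (j + 1))
    (fun i => Finset.filter_subset _ _) (fun i j hij => by
      rw [Finset.disjoint_left]
      intro x hxa hxb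
      rw [Finset.mem_filter] at hxa hxb
      have := hFm (show i + 1 ≤ j from hij)
      omega)
  obtain ⟨L', hL'⟩ : ∃ L', L' = F j := ⟨_, rfl⟩
  have hFj1 : F (j + 1) ≤ U (a + 1) := by
    rw [← hFS]
    exact hFm hj
  have hM : 1024 * K₁ * (wz K₁ K₀ w₁ (D L') * (1024 * (D L' + 1) * K₁) ^
      (1024 * (D L' + 1) * K₁)) ^ 2 ≤ F (j + 1) := by
    rw [hFs, ← hL', nx]
    exact Nat.le_add_right _ _
  have htop : wz K₁ K₀ w₁ (D L') * (1024 * (D L' + 1) * K₁) ^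
      (1024 * (D L' + 1) * K₁) ≤ U S := by
    have h1 := nx_top K₀ w₁ D hK L'
    have h2 : nx K₁ K₀ w₁ D L' = F (j + 1) := by rw [hFs, ← hL']
    have h3 := hUm (show a + 1 ≤ S from ha)
    omega
  have hcoarse : S * (B.filter fun x => U a < cnt B p (p x) ∧ cnt B p (p x) < F (j + 1)).card ≤
      B.card := by
    refine le_trans (Nat.mul_le_mul_left _ (Finset.card_le_card fun x hx => ?_)) haR
    rw [Finset.mem_filter] at hx ⊢
    exact ⟨hx.1, hx.2.1, hx.2.2.trans_le hFj1⟩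
  have hfine : S' * (B.filter fun x => L' < cnt B p (p x) ∧ cnt B p (p x) < F (j + 1)).card ≤
      B.card := by
    rw [hL']
    exact hjR
  obtain ⟨σ, hσ, hσ2⟩ := tile5 K₁ (D L') h (h' (U a)) K₀ w₁ y _
    (wz K₁ K₀ w₁ (D L')) (U a) L' (F (j + 1)) S S' hK (hD L') rfl rfl B p hB
    ((Nat.mul_le_mul_left 2 htop).trans (by rw [hU]; exact hy)) hcoarse hS1.ge hfine hS'.ge hM
  rw [← hU]
  exact ⟨a, ha, j, by rw [← hS']; exact hj, L', by rw [hL', hF], σ, hσ, hσ2⟩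

end Scl

open Scl in
/-- **The multi-scale choice of the block, two thresholds.** `D L'` is the inverse of the density
`δ` which is allowed to depend on the threshold `L'`, `h` is the inverse of `η`, `h' L` is the
inverse of the density of the rows with more than `L'` elements.
(a) no row of the block is heavy, (b) total, (c) boundary layer: at most `w ^ 2 / D L'`, (d) rows
with more than `L` elements carry little together, (e) rows with more than `L'` elements carry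
very little together. -/
theorem scale3 (K G : ℕ) : ∃ C : ℕ, ∀ (D h' : ℕ → ℕ) (h K₀ w₁ s : ℕ), s < G → 2 ∣ G →
    ∃ wmax c : ℕ, ∀ y₁ y₂ : ℕ, 2 * wmax ≤ y₁ → 2 * s ≤ y₂ → ∀ {α : Type*} (Q : Finset α)
      (p q : α → Bool × ℕ × ℕ), Q.card ≤ K * y₁ ^ 2 * y₂ ^ 2 →
      ∃ w L L', 1 ≤ w ∧ w₁ ≤ w ∧ w ≤ wmax ∧ L ≤ L' ∧ L' ≤ wmax ∧
        ∃ i j : ℕ, i % 2 = 0 ∧ j % 2 = 0 ∧
        i + w ≤ y₁ ∧ j + w ≤ y₁ ∧ ∃ 𝒯 : Finset (ℕ × ℕ), y₂ ^ 2 ≤ c * 𝒯.card ∧
        (∀ t ∈ 𝒯, G ∣ t.1 ∧ G ∣ t.2 ∧ t.1 + s ≤ y₂ ∧ t.2 + s ≤ y₂) ∧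
        ∀ t ∈ 𝒯,
          (∀ r ∈ Seg w, D L' * (Q.filter fun x => p x = shS i j r ∧
            q x ∈ shS t.1 t.2 '' Seg s).card < w ^ 2) ∧
          (Q.filter fun x => p x ∈ shS i j '' Seg w ∧
            q x ∈ shS t.1 t.2 '' Seg s).card ≤ C * w ^ 2 ∧
          D L' * (Q.filter fun x => p x ∈ shS i j '' layer w K₀ ∧
            q x ∈ shS t.1 t.2 '' Seg s).card ≤ w ^ 2 ∧
          h * (Q.filter fun x => (p x ∈ shS i j '' Seg w ∧ q x ∈ shS t.1 t.2 '' Seg s) ∧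
            L < (Q.filter fun x' => p x' = p x ∧ q x' ∈ shS t.1 t.2 '' Seg s).card).card
              ≤ w ^ 2 ∧
          h' L * (Q.filter fun x => (p x ∈ shS i j '' Seg w ∧ q x ∈ shS t.1 t.2 '' Seg s) ∧
            L' < (Q.filter fun x' => p x' = p x ∧ q x' ∈ shS t.1 t.2 '' Seg s).card).card
              ≤ w ^ 2 := by
  obtain ⟨K₁, hK₁⟩ : ∃ K₁, K₁ = 8 * K * G ^ 2 + 1 := ⟨_, rfl⟩
  refine ⟨512 * K₁, fun D₀ h' h K₀ w₁ s hsG h2G => ?_⟩
  obtain ⟨D, hDef⟩ : ∃ D : ℕ → ℕ, D = fun x => D₀ x + 1 := ⟨_, rfl⟩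
  have hD1 : ∀ x, 1 ≤ D x := fun x => by
    rw [hDef]
    exact Nat.le_add_left _ _
  have hD0 : ∀ x, D₀ x ≤ D x := fun x => by
    rw [hDef]
    exact Nat.le_succ _
  obtain ⟨S, hS⟩ : ∃ S, S = 1024 * (h + 1) * K₁ := ⟨_, rfl⟩
  have hK1 : 1 ≤ K₁ := by rw [hK₁]; exact Nat.succ_le_succ (Nat.zero_le _)
  have hS0 : 1 ≤ S := by
    rw [hS]
    exact Nat.one_le_iff_ne_zero.2 (by positivity)
  have hG1 : 1 ≤ G := by omega
  let U := crs K₁ K₀ w₁ D h'
  let F : ℕ × ℕ → ℕ := fun e => (nx K₁ K₀ w₁ D)^[e.2] (U e.1)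
  let w₀ : ℕ × ℕ → ℕ := fun e => wz K₁ K₀ w₁ (D (F e))
  let lm : ℕ × ℕ → ℕ := fun e => 1024 * (D (F e) + 1) * K₁
  let wf : (ℕ × ℕ) × ℕ → ℕ := fun e => w₀ e.1 * (lm e.1) ^ e.2
  let sp : ℕ → ℕ := fun a => 1024 * (h' (U a) + 1) * K₁
  have hUm : Monotone U := crs_mono K₀ w₁ D h' hK1
  have hlm1 : ∀ e, 1 ≤ lm e := fun e => Nat.one_le_iff_ne_zero.2 (by
    change 1024 * (D (F e) + 1) * K₁ ≠ 0
    positivity)
  have hFU : ∀ a j, j < sp a → nx K₁ K₀ w₁ D (F (a, j)) ≤ U (a + 1) := by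
    intro a j hj
    have h1 : nx K₁ K₀ w₁ D (F (a, j)) = (nx K₁ K₀ w₁ D)^[j + 1] (U a) :=
      (Function.iterate_succ_apply' _ _ _).symm
    rw [h1]
    exact nx_iter_mono K₀ w₁ D hK1 (U a) (show j + 1 ≤ sp a from hj)
  have hTop : ∀ e : ℕ × ℕ, e.1 < S → e.2 < sp e.1 → w₀ e * lm e ^ lm e ≤ U S := by
    intro e he1 he2
    have h1 := nx_top K₀ w₁ D hK1 (F e)
    have h2 : nx K₁ K₀ w₁ D (F e) ≤ U (e.1 + 1) := hFU e.1 e.2 he2
    have h3 := hUm (show e.1 + 1 ≤ S from he1)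
    change wz K₁ K₀ w₁ (D (F e)) * (1024 * (D (F e) + 1) * K₁) ^
      (1024 * (D (F e) + 1) * K₁) ≤ U S
    omega
  have hTlam : ∀ e : ℕ × ℕ, e.1 < S → e.2 < sp e.1 → lm e + F e ≤ U S := by
    intro e he1 he2
    have h1 := nx_lam K₀ w₁ D hK1 (F e)
    have h2 : nx K₁ K₀ w₁ D (F e) ≤ U (e.1 + 1) := hFU e.1 e.2 he2
    have h3 := hUm (show e.1 + 1 ≤ S from he1)
    change 1024 * (D (F e) + 1) * K₁ + F e ≤ U S
    omega
  have hsp1 : ∀ a, 1 ≤ sp a := fun a => Nat.one_le_iff_ne_zero.2 (by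
    change 1024 * (h' (U a) + 1) * K₁ ≠ 0
    positivity)
  have hspU : ∀ a < S, sp a ≤ U S := by
    intro a ha
    have h1 := nx_iter_le K₀ w₁ D hK1 (U a) (sp a)
    have h2 : (nx K₁ K₀ w₁ D)^[sp a] (U a) = U (a + 1) := rfl
    have h3 := hUm (show a + 1 ≤ S from ha)
    omega
  refine ⟨U S, 24 * G ^ 2 * (S * U S * U S), fun y₁ y₂ hy₁ hy₂ {α} Q p q hQ => ?_⟩
  have hTS1 : 1 ≤ U S := le_trans (hsp1 0) (hspU 0 hS0)
  set m := (y₂ - s) / G + 1 with hm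
  have hm2 : y₂ ≤ 2 * G * m := by
    have h1 : y₂ - s < G * ((y₂ - s) / G + 1) := by
      have := Nat.lt_mul_div_succ (y₂ - s) (show 0 < G from hG1)
      simpa [Nat.succ_eq_add_one] using this
    have h2 : 2 * (y₂ - s) ≤ 2 * (G * m) := Nat.mul_le_mul_left 2 h1.le
    have h3 : 2 * G * m = 2 * (G * m) := by ring
    omega
  have hmsq : y₂ ^ 2 ≤ 4 * G ^ 2 * m ^ 2 := by
    calc y₂ ^ 2 ≤ (2 * G * m) ^ 2 := Nat.pow_le_pow_left hm2 2
      _ = 4 * G ^ 2 * m ^ 2 := by ring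
  have hy1 : 1 ≤ y₁ := by omega
  let Lt : Finset (ℕ × ℕ) := Finset.range m ×ˢ Finset.range m
  let B : ℕ × ℕ → Finset α := fun t => Q.filter fun x => q x ∈ shS (G * t.1) (G * t.2) '' Seg s
  let Gd : Finset (ℕ × ℕ) := Lt.filter fun t => (B t).card ≤ K₁ * y₁ ^ 2
  have hGd : m ^ 2 ≤ 2 * Gd.card := by
    have hLt : Lt.card = m ^ 2 := by
      simp only [Lt, Finset.card_product, Finset.card_range]
      ring
    have h1 := markov Lt Q (fun t x => q x ∈ shS (G * t.1) (G * t.2) '' Seg s) 1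
      (K₁ * y₁ ^ 2) 1 (fun x _ => by
        refine Finset.card_le_one.2 fun a ha b hb => ?_
        obtain ⟨e1, e2⟩ := tile_uniq hsG (Finset.mem_filter.1 ha).2 (Finset.mem_filter.1 hb).2
        exact Prod.ext e1 e2)
    set bd := Lt.filter fun t => K₁ * y₁ ^ 2 <
      1 * (Q.filter fun x => q x ∈ shS (G * t.1) (G * t.2) '' Seg s).card with hbd
    have h2 : bd.card * (K₁ * y₁ ^ 2) ≤ K * y₁ ^ 2 * y₂ ^ 2 := by
      refine h1.trans ?_
      rw [one_mul, one_mul]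
      exact hQ
    have h3 : y₁ ^ 2 * (bd.card * K₁) ≤ y₁ ^ 2 * (4 * K * G ^ 2 * m ^ 2) := by
      calc y₁ ^ 2 * (bd.card * K₁) = bd.card * (K₁ * y₁ ^ 2) := by ring
        _ ≤ K * y₁ ^ 2 * y₂ ^ 2 := h2
        _ ≤ K * y₁ ^ 2 * (4 * G ^ 2 * m ^ 2) := Nat.mul_le_mul_left _ hmsq
        _ = y₁ ^ 2 * (4 * K * G ^ 2 * m ^ 2) := by ring
    have h4 : bd.card * K₁ ≤ 4 * K * G ^ 2 * m ^ 2 :=
      Nat.le_of_mul_le_mul_left h3 (by positivity)
    have h5 : 2 * bd.card ≤ m ^ 2 := by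
      rcases Nat.eq_zero_or_pos (K * G ^ 2) with h0 | h0
      · have : 4 * K * G ^ 2 * m ^ 2 = 0 := by
          have : 4 * K * G ^ 2 = 4 * (K * G ^ 2) := by ring
          rw [this, h0]
          ring
        rw [this] at h4
        have : bd.card * 1 ≤ bd.card * K₁ := Nat.mul_le_mul_left _ hK1
        omega
      · have h6 : (4 * (K * G ^ 2)) * (2 * bd.card) ≤ (4 * (K * G ^ 2)) * m ^ 2 := by
          calc (4 * (K * G ^ 2)) * (2 * bd.card) ≤ bd.card * K₁ := by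
                rw [hK₁]
                nlinarith
            _ ≤ 4 * K * G ^ 2 * m ^ 2 := h4
            _ = (4 * (K * G ^ 2)) * m ^ 2 := by ring
        exact Nat.le_of_mul_le_mul_left h6 (by positivity)
    have h7 : Lt ⊆ Gd ∪ bd := by
      intro t ht
      by_cases hc : (B t).card ≤ K₁ * y₁ ^ 2
      · exact Finset.mem_union_left _ (Finset.mem_filter.2 ⟨ht, hc⟩)
      · refine Finset.mem_union_right _ (Finset.mem_filter.2 ⟨ht, ?_⟩)
        rw [one_mul]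
        exact not_le.1 hc
    have h8 := (Finset.card_le_card h7).trans (Finset.card_union_le _ _)
    omega
  -- the scale of a tile
  have hsc : ∀ t : ℕ × ℕ, ∃ e : (ℕ × ℕ) × ℕ, t ∈ Gd → e.1.1 < S ∧ e.1.2 < sp e.1.1 ∧
      e.2 < lm e.1 ∧
      (Pos y₁ (wf e)).card ≤ 3 * ((Pos y₁ (wf e)).filter fun P =>
        Good3 (D (F e.1)) (D (F e.1)) h (h' (U e.1.1)) K₀ (512 * K₁) (wf e) (U e.1.1) (F e.1)
          (B t) p P).card := by
    intro t
    by_cases ht : t ∈ Gd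
    · obtain ⟨a, ha, j, hj, L', hL', σ, h1, h2⟩ := tile6 K₁ h K₀ w₁ y₁ S D h' hD1 hK1 hS (B t) p
        (Finset.mem_filter.1 ht).2 hy₁
      subst hL'
      exact ⟨((a, j), σ), fun _ => ⟨ha, hj, h1, h2⟩⟩
    · exact ⟨((0, 0), 0), fun h => absurd h ht⟩
  choose σf hσf using hsc
  set Pr : Finset ((ℕ × ℕ) × ℕ) :=
    (Finset.range S ×ˢ Finset.range (U S)) ×ˢ Finset.range (U S) with hPr
  have hPrc : Pr.card = S * U S * U S := by
    rw [hPr, Finset.card_product, Finset.card_product, Finset.card_range, Finset.card_range]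
  have hmaps : ∀ t ∈ Gd, σf t ∈ Pr := by
    intro t ht
    obtain ⟨h1, h2, h3, -⟩ := hσf t ht
    rw [hPr, Finset.mem_product, Finset.mem_product, Finset.mem_range, Finset.mem_range,
      Finset.mem_range]
    have h4 := hTlam _ h1 h2
    exact ⟨⟨h1, h2.trans_le (hspU _ h1)⟩, by omega⟩
  obtain ⟨e, he, hec⟩ : ∃ e ∈ Pr, Gd.card ≤
      (S * U S * U S) * (Gd.filter fun t => σf t = e).card := by
    by_contra hcon
    push Not at hcon
    have h1 : Gd.card = ∑ e ∈ Pr, (Gd.filter fun t => σf t = e).card :=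
      Finset.card_eq_sum_card_fiberwise fun t ht => Finset.mem_coe.2 (hmaps t ht)
    have hne : Pr.Nonempty := Finset.card_pos.1 (by rw [hPrc]; positivity)
    have h2 : ∑ e ∈ Pr, (S * U S * U S) * (Gd.filter fun t => σf t = e).card <
        ∑ e ∈ Pr, Gd.card :=
      Finset.sum_lt_sum_of_nonempty hne fun e he => hcon e he
    rw [← Finset.mul_sum, ← h1, Finset.sum_const, hPrc, smul_eq_mul] at h2
    omega
  obtain ⟨Gs, hGs⟩ : ∃ Gs, Gs = Gd.filter fun t => σf t = e := ⟨_, rfl⟩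
  rw [← hGs] at hec
  rcases Gs.eq_empty_or_nonempty with hGe | hGne
  · -- no tile at all: then `y₂ = 0`
    rw [hGe] at hec
    simp only [Finset.card_empty, mul_zero, Nat.le_zero] at hec
    rw [hec] at hGd
    have hm0 : m ^ 2 = 0 := by omega
    have : 0 < m ^ 2 := by positivity
    omega
  obtain ⟨t₀, ht₀⟩ := hGne
  rw [hGs, Finset.mem_filter] at ht₀
  obtain ⟨he1, he2, he3, -⟩ := hσf t₀ ht₀.1
  rw [ht₀.2] at he1 he2 he3
  obtain ⟨w, hw⟩ : ∃ w, w = wf e := ⟨_, rfl⟩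
  obtain ⟨L, hL⟩ : ∃ L, L = U e.1.1 := ⟨_, rfl⟩
  obtain ⟨L', hL'⟩ : ∃ L', L' = F e.1 := ⟨_, rfl⟩
  have hLL : L ≤ L' := by
    rw [hL, hL']
    have := nx_iter_le K₀ w₁ D hK1 (U e.1.1) e.1.2
    change U e.1.1 ≤ (nx K₁ K₀ w₁ D)^[e.1.2] (U e.1.1)
    omega
  have hgood : ∀ t ∈ Gs, (Pos y₁ w).card ≤ 3 * ((Pos y₁ w).filter fun P =>
      Good3 (D L') (D L') h (h' L) K₀ (512 * K₁) w L L' (B t) p P).card := by
    intro t ht
    rw [hGs, Finset.mem_filter] at ht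
    have := (hσf t ht.1).2.2.2
    rw [ht.2, ← hw, ← hL, ← hL'] at this
    exact this
  -- the position
  obtain ⟨P, hP, hPc⟩ : ∃ P ∈ Pos y₁ w, Gs.card ≤
      3 * (Gs.filter fun t =>
        Good3 (D L') (D L') h (h' L) K₀ (512 * K₁) w L L' (B t) p P).card := by
    by_contra hcon
    push Not at hcon
    have h1 : ∑ P ∈ Pos y₁ w, (Gs.filter fun t =>
        Good3 (D L') (D L') h (h' L) K₀ (512 * K₁) w L L' (B t) p P).card =
        ∑ t ∈ Gs, ((Pos y₁ w).filter fun P =>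
          Good3 (D L') (D L') h (h' L) K₀ (512 * K₁) w L L' (B t) p P).card := by
      simpa [Finset.bipartiteAbove, Finset.bipartiteBelow] using
        Finset.sum_card_bipartiteAbove_eq_sum_card_bipartiteBelow (s := Pos y₁ w) (t := Gs)
          (fun P t => Good3 (D L') (D L') h (h' L) K₀ (512 * K₁) w L L' (B t) p P)
    have h2 : Gs.card * (Pos y₁ w).card ≤ 3 * ∑ t ∈ Gs, ((Pos y₁ w).filter fun P =>
        Good3 (D L') (D L') h (h' L) K₀ (512 * K₁) w L L' (B t) p P).card := by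
      rw [Finset.mul_sum, ← smul_eq_mul (a := Gs.card)]
      exact Finset.card_nsmul_le_sum _ _ _ hgood
    have hne : (Pos y₁ w).Nonempty := ⟨(0, 0), by simp [Pos]⟩
    have h3 : ∑ P ∈ Pos y₁ w, 3 * (Gs.filter fun t =>
        Good3 (D L') (D L') h (h' L) K₀ (512 * K₁) w L L' (B t) p P).card <
        ∑ P ∈ Pos y₁ w, Gs.card :=
      Finset.sum_lt_sum_of_nonempty hne fun P hP => hcon P hP
    rw [← Finset.mul_sum, h1, Finset.sum_const, smul_eq_mul, mul_comm (Pos y₁ w).card] at h3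
    omega
  obtain ⟨Gf, hGf⟩ : ∃ Gf, Gf = Gs.filter fun t =>
    Good3 (D L') (D L') h (h' L) K₀ (512 * K₁) w L L' (B t) p P := ⟨_, rfl⟩
  rw [← hGf] at hPc
  have hinj : Set.InjOn (fun t : ℕ × ℕ => (G * t.1, G * t.2)) (Gf : Set (ℕ × ℕ)) := by
    rintro ⟨a, b⟩ _ ⟨a', b'⟩ _ he
    simp only [Prod.mk.injEq] at he
    exact Prod.ext (Nat.eq_of_mul_eq_mul_left hG1 he.1) (Nat.eq_of_mul_eq_mul_left hG1 he.2)
  have hwmax : w ≤ U S := by
    rw [hw]
    exact (Nat.mul_le_mul_left _ (Nat.pow_le_pow_right (hlm1 _) he3.le)).trans (hTop _ he1 he2)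
  have hw0w : w₀ e.1 ≤ w := by
    rw [hw]
    have : w₀ e.1 * 1 ≤ w₀ e.1 * lm e.1 ^ e.2 :=
      Nat.mul_le_mul_left _ (Nat.one_le_pow _ _ (hlm1 _))
    simpa using this
  have hw0e : w₁ + 1 ≤ w₀ e.1 := by
    have : 1 ≤ 1024 * (D (F e.1) + 1) * (K₀ + 1) * K₁ :=
      Nat.one_le_iff_ne_zero.2 (by positivity)
    change w₁ + 1 ≤ w₁ + 1024 * (D (F e.1) + 1) * (K₀ + 1) * K₁
    omega
  have hLmax : L' ≤ U S := by
    rw [hL']
    have := hTlam _ he1 he2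
    omega
  rw [Pos, Finset.mem_product, Finset.mem_range, Finset.mem_range] at hP
  refine ⟨w, L, L', by omega, by omega, hwmax, hLL, hLmax, 2 * P.1, 2 * P.2, by omega, by omega,
    by omega, by omega, Gf.image fun t => (G * t.1, G * t.2), ?_, ?_, ?_⟩
  · rw [Finset.card_image_of_injOn hinj]
    calc y₂ ^ 2 ≤ 4 * G ^ 2 * m ^ 2 := hmsq
      _ ≤ 4 * G ^ 2 * (2 * Gd.card) := Nat.mul_le_mul_left _ hGd
      _ ≤ 4 * G ^ 2 * (2 * ((S * U S * U S) * Gs.card)) := by gcongr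
      _ ≤ 4 * G ^ 2 * (2 * ((S * U S * U S) * (3 * Gf.card))) := by gcongr
      _ = 24 * G ^ 2 * (S * U S * U S) * Gf.card := by ring
  · intro t ht
    rw [Finset.mem_image] at ht
    obtain ⟨⟨a, b⟩, hab, rfl⟩ := ht
    rw [hGf, Finset.mem_filter, hGs, Finset.mem_filter, Finset.mem_filter, Finset.mem_product,
      Finset.mem_range, Finset.mem_range] at hab
    obtain ⟨⟨⟨⟨h1, h2⟩, -⟩, -⟩, -⟩ := hab
    have key : ∀ a : ℕ, a < m → G * a + s ≤ y₂ := by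
      intro a ha
      have h3 : G * a ≤ G * ((y₂ - s) / G) := Nat.mul_le_mul_left _ (by omega)
      have h4 := Nat.mul_div_le (y₂ - s) G
      omega
    exact ⟨Dvd.intro _ rfl, Dvd.intro _ rfl, key a h1, key b h2⟩
  · intro t ht
    rw [Finset.mem_image] at ht
    obtain ⟨⟨a, b⟩, hab, rfl⟩ := ht
    rw [hGf, Finset.mem_filter] at hab
    obtain ⟨⟨g1, g2, g3, g4⟩, g5⟩ := hab.2
    have hfil : ∀ f : α → Prop, ((B (a, b)).filter fun x => f x) =
        Q.filter fun x => f x ∧ q x ∈ shS (G * a) (G * b) '' Seg s := by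
      intro f
      ext x
      simp only [B, Finset.mem_filter]
      constructor
      · rintro ⟨⟨h1, h2⟩, h3⟩
        exact ⟨h1, h3, h2⟩
      · rintro ⟨h1, h3, h2⟩
        exact ⟨⟨h1, h2⟩, h3⟩
    have hrow : ∀ r : Bool × ℕ × ℕ, (Q.filter fun x => p x = r ∧
        q x ∈ shS (G * a) (G * b) '' Seg s).card = cnt (B (a, b)) p r := by
      intro r
      rw [cnt]
      congr 1
      ext x
      simp only [B, Finset.mem_filter]
      constructor
      · rintro ⟨h1, h3, h2⟩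
        exact ⟨⟨h1, h2⟩, h3⟩
      · rintro ⟨⟨h1, h2⟩, h3⟩
        exact ⟨h1, h3, h2⟩
    have h5 : ∀ l : ℕ, (Q.filter fun x => (p x ∈ shS (2 * P.1) (2 * P.2) '' Seg w ∧
        q x ∈ shS (G * a) (G * b) '' Seg s) ∧
        l < (Q.filter fun x' => p x' = p x ∧ q x' ∈ shS (G * a) (G * b) '' Seg s).card).card =
        ((B (a, b)).filter fun x => p x ∈ shS (2 * P.1) (2 * P.2) '' Seg w ∧
          l < cnt (B (a, b)) p (p x)).card := by
      intro l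
      congr 1
      ext x
      simp only [B, Finset.mem_filter, hrow]
      constructor
      · rintro ⟨h1, ⟨h2, h3⟩, h4⟩
        exact ⟨⟨h1, h3⟩, h2, h4⟩
      · rintro ⟨⟨h1, h3⟩, h2, h4⟩
        exact ⟨h1, ⟨h2, h3⟩, h4⟩
    rw [hfil] at g2 g3
    refine ⟨fun r hr => ?_, g2, (Nat.mul_le_mul_right _ (hD0 L')).trans g3, ?_, ?_⟩
    · simp only
      rw [hrow]
      exact (Nat.mul_le_mul_right _ (hD0 L')).trans_lt (g1 r hr)
    · simp only
      rw [h5]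
      exact g4
    · simp only
      rw [h5]
      exact g5

end CWL
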