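import Pool.Agent.CW.CoverE
import Pool.Agent.CW.Scale3

/-!
# Covering of the small tiles, two thresholds (helper34)

As `CoverE`, with two thresholds `L ≤ L'`: the density function `Df` is evaluated at `L'`; the rows
with more than `L'` conflicts carry at most `w ^ 2 / h' L` conflicts.
-/

open Set BIC BICS
open scoped Matroid

namespace CWL

universe u

/-- **A1 + A2** for plain grids.  `κ` bounds the lifts.  `G` is the distance of the tiles, `Cb G` the density, `t`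
the linkage with its threshold `s₀ t`.  Given the density function `Df` (`Df L` = inverse of the
density allowed for the threshold `L`), `h`, the width `K₀` of the boundary layer, the least side
`w₁` of the block and the side `s` of the tiles there is `wmax`; then the number `m` of the tiles can
be chosen. -/
theorem worldExistsF (k K : ℕ) (hk : 1 ≤ k) : ∃ (κ : ℕ) (s₀ Cb : ℕ → ℕ), ∀ t G : ℕ, 2 ∣ G →
    ∀ (Df h' : ℕ → ℕ) (h K₀ w₁ s : ℕ), s < G → ∃ wmax : ℕ, ∀ m : ℕ, ∃ N : ℕ, ∀ n ≥ N,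
    ∀ {α : Type u} (M : Matroid α) [M.Finite] (S₁ S₂ C₁ D₂ : Set α)
    (g₁ g₂ : α → Sym2 (ℕ × ℕ)), Dat M S₁ S₂ C₁ D₂ g₁ g₂ n →
    ((C₁ ∩ D₂).ncard ≤ K * n ^ 4 ∨ (M.E \ (S₁ ∪ S₂ ∪ C₁ ∪ D₂)).ncard ≤ K * n ^ 4) →
    KGe M S₁ S₂ N → HasUniformMinor M k ∨
    ∃ (M₀ : Matroid α) (w L L' : ℕ) (𝒯 : Finset (ℕ × ℕ)) (L₁ : Bool × ℕ × ℕ → List α)
      (f₁ : α → Sym2 ((ℕ × ℕ) ⊕ α)) (e₁ : Bool × ℕ × ℕ → α) (u₁ : ℕ)
      (L₂ : Bool × ℕ × ℕ → List α) (f₂ : α → Sym2 ((ℕ × ℕ) ⊕ α)) (e₂ : Bool × ℕ × ℕ → α) (u₂ : ℕ),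
      M₀ ≤m M ∧ w₁ ≤ w ∧ w ≤ wmax ∧ L ≤ L' ∧ L' ≤ wmax ∧ u₁ ≤ κ ∧ u₂ ≤ κ ∧ m ≤ 𝒯.card ∧
      (∀ b ∈ 𝒯, G ∣ b.1 ∧ G ∣ b.2) ∧
      World M₀ w s 𝒯 L₁ f₁ e₁ u₁ L₂ f₂ e₂ u₂ ∧
      Linked M₀ t (s₀ t) (e₁ '' Seg w) (e₂ '' tiles s 𝒯) ∧
      ∀ b ∈ 𝒯,
        -- (a) no row is heavy in the tile
        (∀ r ∈ Seg w, Df L' * ({x | x ∈ L₁ r} ∩ crr L₂ (shS b.1 b.2 '' Seg s)).ncard < w ^ 2) ∧
        -- (b) total
        (crr L₁ (Seg w) ∩ crr L₂ (shS b.1 b.2 '' Seg s)).ncard ≤ Cb G * w ^ 2 ∧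
        -- (c) boundary layer
        Df L' * (crr L₁ (layer w K₀) ∩ crr L₂ (shS b.1 b.2 '' Seg s)).ncard ≤ w ^ 2 ∧
        -- (d) rows with more than `L` conflicts in the tile carry little together
        h * (crr L₁ {r | r ∈ Seg w ∧
              L < ({x | x ∈ L₁ r} ∩ crr L₂ (shS b.1 b.2 '' Seg s)).ncard} ∩
            crr L₂ (shS b.1 b.2 '' Seg s)).ncard ≤ w ^ 2 ∧
        -- (e) rows with more than `L'` conflicts in the tile carry very little together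
        h' L * (crr L₁ {r | r ∈ Seg w ∧
              L' < ({x | x ∈ L₁ r} ∩ crr L₂ (shS b.1 b.2 '' Seg s)).ncard} ∩
            crr L₂ (shS b.1 b.2 '' Seg s)).ncard ≤ w ^ 2 := by
  classical
  obtain ⟨κ, K', hpair⟩ := pairExistsD.{u} k K hk
  choose s₀ hs₀ using hpair
  have hsc := fun G => scale3.{u} K' G
  choose Cb hsc using hsc
  refine ⟨κ, s₀, Cb, fun t G hG Df h' h K₀ w₁ s hsG => ?_⟩
  obtain ⟨wmax, c, hw⟩ := hsc G Df h' h K₀ w₁ s hsG hG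
  refine ⟨wmax, fun m => ?_⟩
  obtain ⟨N, hN⟩ := hs₀ t (2 * wmax + 2 * s + c * m + 1)
  refine ⟨N, fun n hn {α} M _ S₁ S₂ C₁ D₂ g₁ g₂ hdat hcnt hKGe => ?_⟩
  rcases hN n hn M S₁ S₂ C₁ D₂ g₁ g₂ hdat hcnt hKGe with hU | hU
  · exact Or.inl hU
  right
  obtain ⟨M', y₁, u₁, L₁, f₁, e₁, y₂, u₂, L₂, f₂, e₂, h1, h2, h3, h4, h5, h6, h7, h8⟩ := hU
  have hfM : M'.Finite := ⟨M.ground_finite.subset h1.subset⟩
  have hQf : (crr L₁ (Seg y₁) ∩ crr L₂ (Seg y₂)).Finite :=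
    M'.ground_finite.subset (inter_subset_left.trans h6.s₁.sub_ground)
  -- the row and the column of a conflict
  have hrow : ∀ x ∈ crr L₁ (Seg y₁), ∃ r ∈ Seg y₁, x ∈ L₁ r := fun x hx => hx
  have hcol : ∀ x ∈ crr L₂ (Seg y₂), ∃ r ∈ Seg y₂, x ∈ L₂ r := fun x hx => hx
  choose! p hp1 hp2 using hrow
  choose! q hq1 hq2 using hcol
  have hpu : ∀ r ∈ Seg y₁, ∀ x ∈ L₁ r, p x = r := fun r hr x hx =>
    h6.s₁.uniq (hp1 x ⟨r, hr, hx⟩) hr (hp2 x ⟨r, hr, hx⟩) hx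
  have hqu : ∀ r ∈ Seg y₂, ∀ x ∈ L₂ r, q x = r := fun r hr x hx =>
    h6.s₂.uniq (hq1 x ⟨r, hr, hx⟩) hr (hq2 x ⟨r, hr, hx⟩) hx
  obtain ⟨w, L, L', hw1, hww, hwm, hLL, hLm, i, j, hi, hj, hiw, hjw, 𝒯, h𝒯c, h𝒯, hfin⟩ :=
    hw y₁ y₂ (by omega) (by omega) hQf.toFinset p q (by
      rw [← Set.ncard_eq_toFinset_card _ hQf]
      exact h8)
  have hev : ∀ b ∈ 𝒯, b.1 % 2 = 0 ∧ b.2 % 2 = 0 ∧ b.1 + s ≤ y₂ ∧ b.2 + s ≤ y₂ := by
    intro b hb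
    obtain ⟨g1, g2, g3, g4⟩ := h𝒯 b hb
    have g5 := hG.trans g1
    have g6 := hG.trans g2
    exact ⟨by omega, by omega, g3, g4⟩
  obtain ⟨M₀, L₁', f₁', L₂', f₂', k1, k2, k3, k4⟩ := h6.world hi hj hiw hjw hev
  have hfM₀ : M₀.Finite := ⟨M'.ground_finite.subset k1.subset⟩
  have hS₁ : ∀ r ∈ Seg w, shS i j r ∈ Seg y₁ := fun r hr => shS_mem (by omega) hiw hjw hr
  have hS₂ : tiles s 𝒯 ⊆ Seg y₂ := by
    rintro σ ⟨b, hb, hσ⟩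
    obtain ⟨g1, g2, g3, g4⟩ := hev b hb
    exact shS_sub (by omega) g3 g4 hσ
  have htile : ∀ b ∈ 𝒯, shS b.1 b.2 '' Seg s ⊆ tiles s 𝒯 := fun b hb σ hσ => ⟨b, hb, hσ⟩
  -- transport of the conflicts
  have htr : ∀ b ∈ 𝒯, ∀ r ∈ Seg w, ∀ x ∈ L₁' r, x ∈ crr L₂' (shS b.1 b.2 '' Seg s) →
      x ∈ hQf.toFinset ∧ p x = shS i j r ∧ q x ∈ shS b.1 b.2 '' Seg s := by
    rintro b hb r hr x hx ⟨σ, hσ, hxσ⟩
    have g1 := k3 r hr x hx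
    have g2 := k4 σ (htile b hb hσ) x hxσ
    have g3 : σ ∈ Seg y₂ := hS₂ (htile b hb hσ)
    refine ⟨hQf.mem_toFinset.2 ⟨⟨_, hS₁ r hr, g1⟩, ⟨_, g3, g2⟩⟩, hpu _ (hS₁ r hr) x g1, ?_⟩
    rw [hqu σ g3 x g2]
    exact hσ
  have hle : ∀ (A : Set α) (F : Finset α), (∀ x ∈ A, x ∈ F) → A.ncard ≤ F.card := by
    intro A F hAF
    have := Set.ncard_le_ncard (s := A) (t := (F : Set α)) (fun x hx => by
      exact Finset.mem_coe.2 (hAF x hx)) F.finite_toSet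
    rwa [Set.ncard_coe_finset] at this
  refine ⟨M₀, w, L, L', 𝒯, L₁', f₁', _, u₁, L₂', f₂', e₂, u₂, k1.trans h1, hww, hwm, hLL, hLm, h4, h5, ?_,
    fun b hb => ⟨(h𝒯 b hb).1, (h𝒯 b hb).2.1⟩, k2, ?_, ?_⟩
  · -- the number of the tiles
    by_contra hlt
    push Not at hlt
    have g1 : c * 𝒯.card ≤ c * m := Nat.mul_le_mul_left _ hlt.le
    have g2 : y₂ ≤ y₂ ^ 2 := Nat.le_self_pow (by norm_num) _
    omega
  · refine h7.mono k1 ?_ (image_mono hS₂)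
    rintro _ ⟨r, hr, rfl⟩
    exact ⟨_, hS₁ r hr, rfl⟩
  · intro b hb
    obtain ⟨g1, g2, g3, g4, g4'⟩ := hfin b hb
    refine ⟨fun r hr => lt_of_le_of_lt (Nat.mul_le_mul_left _ (hle _ _ ?_)) (g1 r hr),
      (hle _ _ ?_).trans g2, (Nat.mul_le_mul_left _ (hle _ _ ?_)).trans g3,
      (Nat.mul_le_mul_left _ (hle _ _ ?_)).trans g4,
      (Nat.mul_le_mul_left _ (hle _ _ ?_)).trans g4'⟩
    · rintro x ⟨hx1, hx2⟩
      obtain ⟨g5, g6, g7⟩ := htr b hb r hr x hx1 hx2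
      exact Finset.mem_filter.2 ⟨g5, g6, g7⟩
    · rintro x ⟨⟨r, hr, hx1⟩, hx2⟩
      obtain ⟨g5, g6, g7⟩ := htr b hb r hr x hx1 hx2
      exact Finset.mem_filter.2 ⟨g5, by rw [g6]; exact ⟨r, hr, rfl⟩, g7⟩
    · rintro x ⟨⟨r, hr, hx1⟩, hx2⟩
      obtain ⟨g5, g6, g7⟩ := htr b hb r hr.1 x hx1 hx2
      exact Finset.mem_filter.2 ⟨g5, by rw [g6]; exact ⟨r, hr, rfl⟩, g7⟩
    all_goals
      rintro x ⟨⟨r, ⟨hr, hL⟩, hx1⟩, hx2⟩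
      obtain ⟨g5, g6, g7⟩ := htr b hb r hr x hx1 hx2
      refine Finset.mem_filter.2 ⟨g5, ⟨by rw [g6]; exact ⟨r, hr, rfl⟩, g7⟩, ?_⟩
      refine lt_of_lt_of_le hL (hle _ _ ?_)
      rintro z ⟨hz1, hz2⟩
      obtain ⟨g8, g9, g10⟩ := htr b hb r hr z hz1 hz2
      exact Finset.mem_filter.2 ⟨g8, by rw [g9, g6], g10⟩

/-- **A1 + A2 + COVERING** of the parts of side `s₁ t` of the tiles. -/
theorem coverExistsF (k K : ℕ) (hk : 1 ≤ k) : ∃ (κ : ℕ) (s₀ s₁ : ℕ → ℕ) (Cb : ℕ → ℕ → ℕ),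
    ∀ t G : ℕ, 2 ∣ G → ∀ (Df h' : ℕ → ℕ) (h K₀ w₁ s : ℕ), s₁ t ≤ s → s < G → ∃ wmax : ℕ,
    ∀ m : ℕ, ∃ N : ℕ, ∀ n ≥ N,
    ∀ {α : Type u} (M : Matroid α) [M.Finite] (S₁ S₂ C₁ D₂ : Set α)
    (g₁ g₂ : α → Sym2 (ℕ × ℕ)), Dat M S₁ S₂ C₁ D₂ g₁ g₂ n →
    ((C₁ ∩ D₂).ncard ≤ K * n ^ 4 ∨ (M.E \ (S₁ ∪ S₂ ∪ C₁ ∪ D₂)).ncard ≤ K * n ^ 4) →
    KGe M S₁ S₂ N → HasUniformMinor M k ∨
    ∃ (M₀ : Matroid α) (w L L' : ℕ) (𝒯 : Finset (ℕ × ℕ)) (L₁ : Bool × ℕ × ℕ → List α)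
      (f₁ : α → Sym2 ((ℕ × ℕ) ⊕ α)) (e₁ : Bool × ℕ × ℕ → α) (u₁ : ℕ)
      (L₂ : Bool × ℕ × ℕ → List α) (f₂ : α → Sym2 ((ℕ × ℕ) ⊕ α)) (e₂ : Bool × ℕ × ℕ → α) (u₂ : ℕ),
      M₀ ≤m M ∧ w₁ ≤ w ∧ w ≤ wmax ∧ L ≤ L' ∧ L' ≤ wmax ∧ u₁ ≤ κ ∧ u₂ ≤ κ ∧ m ≤ 𝒯.card ∧
      (∀ b ∈ 𝒯, G ∣ b.1 ∧ G ∣ b.2) ∧
      World M₀ w s 𝒯 L₁ f₁ e₁ u₁ L₂ f₂ e₂ u₂ ∧
      Linked M₀ t (s₀ t) (e₁ '' Seg w) (e₂ '' tiles s 𝒯) ∧
      ∀ b ∈ 𝒯,
        -- covering: every row crosses the tile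
        (∀ r ∈ Seg w, ∃ x ∈ L₁ r, x ∈ crr L₂ (shS b.1 b.2 '' Seg (s₁ t))) ∧
        -- (a) no row is heavy in the tile
        (∀ r ∈ Seg w, Df L' * ({x | x ∈ L₁ r} ∩ crr L₂ (shS b.1 b.2 '' Seg s)).ncard < w ^ 2) ∧
        -- (b) total
        (crr L₁ (Seg w) ∩ crr L₂ (shS b.1 b.2 '' Seg s)).ncard ≤ Cb t G * w ^ 2 ∧
        -- (c) boundary layer
        Df L' * (crr L₁ (layer w K₀) ∩ crr L₂ (shS b.1 b.2 '' Seg s)).ncard ≤ w ^ 2 ∧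
        -- (d) rows with more than `L` conflicts in the tile carry little together
        h * (crr L₁ {r | r ∈ Seg w ∧
              L < ({x | x ∈ L₁ r} ∩ crr L₂ (shS b.1 b.2 '' Seg s)).ncard} ∩
            crr L₂ (shS b.1 b.2 '' Seg s)).ncard ≤ w ^ 2 ∧
        -- (e) rows with more than `L'` conflicts in the tile carry very little together
        h' L * (crr L₁ {r | r ∈ Seg w ∧
              L' < ({x | x ∈ L₁ r} ∩ crr L₂ (shS b.1 b.2 '' Seg s)).ncard} ∩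
            crr L₂ (shS b.1 b.2 '' Seg s)).ncard ≤ w ^ 2 := by
  classical
  obtain ⟨κ, s₀, Cb, hW⟩ := worldExistsF.{u} k K hk
  obtain ⟨t₀, hH⟩ := hotBlock.{u} k hk
  have hH' := fun t : ℕ => hH κ (s₀ (max t t₀))
  choose ρ' hρ' using hH'
  refine ⟨κ, fun t => s₀ (max t t₀), ρ', fun t G => 9 * (2 * (2 * (ρ' t + 1)) + 40) ^ 2 * Cb G, ?_⟩
  intro t G hG Df h' h K₀ w₁ s hs hsG
  obtain ⟨ρ, hρ⟩ : ∃ ρ, ρ = 2 * (ρ' t + 1) := ⟨_, rfl⟩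
  obtain ⟨ℓ, hℓ⟩ : ∃ ℓ, ℓ = 2 * ρ + 40 := ⟨_, rfl⟩
  obtain ⟨wmax, hwm⟩ := hW (max t t₀) G hG
    (fun L => nB ρ * (9 * ℓ ^ 2) * (Df (2 * nB ρ * L) + 1))
    (fun L => 18 * ℓ ^ 2 * h' (2 * nB ρ * L)) (18 * ℓ ^ 2 * h) (ℓ * (K₀ + 3))
    (ℓ * (w₁ + 3)) s hsG
  refine ⟨wmax + 2 * nB ρ * wmax, fun m => ?_⟩
  obtain ⟨N, hN⟩ := hwm (((Seg ρ).ncard + 1) ^ (2 * (wmax + 1) ^ 2) * m)
  refine ⟨N, fun n hn {α} M _ S₁ S₂ C₁ D₂ g₁ g₂ hdat hcnt hKGe => ?_⟩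
  rcases hN n hn M S₁ S₂ C₁ D₂ g₁ g₂ hdat hcnt hKGe with hU | hU
  · exact Or.inl hU
  obtain ⟨M₀, w, L, L', 𝒯, L₁, f₁, e₁, u₁, L₂, f₂, e₂, u₂, g1, g2, g3, g4', g4, g5, g6, g7, g8, g9, g10,
    g11⟩ := hU
  have hfM₀ : M₀.Finite := ⟨M.ground_finite.subset g1.subset⟩
  rcases hρ' t (max t t₀) (le_max_right _ _) M₀ (Seg w) L₁ f₁ e₁ u₁ (tiles s 𝒯) L₂ f₂ e₂ u₂
    g9.pair g5 g6 g10 with hU | hhot
  · exact Or.inl (HasUniformMinor_mono hU g1)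
  right
  -- the coarse side
  obtain ⟨w', hw'⟩ : ∃ w', w' = w / ℓ - 1 := ⟨_, rfl⟩
  have hℓ0 : 0 < ℓ := by omega
  have hwℓ : w₁ + 3 ≤ w / ℓ := by
    rw [Nat.le_div_iff_mul_le hℓ0, mul_comm]
    exact g2
  have hwℓ1 : w' + 1 = w / ℓ := by omega
  have hd1 : ℓ * (w' + 1) ≤ w := by
    rw [hwℓ1, mul_comm]
    exact Nat.div_mul_le_self w ℓ
  have hd2 : w < ℓ * (w' + 2) := by
    have := Nat.lt_mul_div_succ w hℓ0
    rw [show w' + 2 = w / ℓ + 1 by omega]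
    exact this
  have hw'1 : 1 ≤ w' ∧ w₁ ≤ w' ∧ w' ≤ w := by
    refine ⟨by omega, by omega, ?_⟩
    have : w' + 1 ≤ ℓ * (w' + 1) := Nat.le_mul_of_pos_left _ hℓ0
    omega
  have hwsq : w ^ 2 ≤ 9 * ℓ ^ 2 * w' ^ 2 := by
    have h1 : w ≤ 3 * ℓ * w' := by
      have h2 : ℓ * (w' + 2) ≤ ℓ * (3 * w') := Nat.mul_le_mul_left _ (by omega)
      have h3 : ℓ * (3 * w') = 3 * ℓ * w' := by ring
      omega
    calc w ^ 2 ≤ (3 * ℓ * w') ^ 2 := Nat.pow_le_pow_left h1 2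
      _ = 9 * ℓ ^ 2 * w' ^ 2 := by ring
  obtain ⟨𝒯', p1, p2, M₁, L₁', f₁', e₁', L₂', f₂', p3, p4, p5, p6, p7, p8⟩ :=
    g9.coverE (ρ := ρ) (w' := w') hs (by omega) (by omega) (by rw [← hℓ]; exact hd1) (by
      intro i j hij b hb
      have h1 : Seg (ρ' t) ⊆ Seg ρ := seg_mono (by omega)
      have h2 : Seg (ρ' t) ⊆ Seg s := seg_mono hs
      obtain ⟨r, ⟨r', hr', hrr⟩, x, hx, hx2⟩ := hhot i j b.1 b.2
        ((image_mono h1).trans hij) (fun σ hσ => ⟨b, hb, image_mono h2 hσ⟩)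
      exact ⟨r, ⟨r', h1 hr', hrr⟩, x, hx, hx2⟩)
  have hfM₁ : M₁.Finite := ⟨M₀.ground_finite.subset p3.subset⟩
  refine ⟨M₁, w', 2 * nB ρ * L, 2 * nB ρ * L', 𝒯', L₁', f₁', e₁', u₁, L₂', f₂', e₂, u₂,
    p3.trans g1, hw'1.2.1, by omega, Nat.mul_le_mul_left _ g4', ?_, g5, g6, ?_, fun b hb => g8 b (p1 hb), p4, ?_, ?_⟩
  · have := Nat.mul_le_mul_left (2 * nB ρ) g4
    omega
  · -- the number of the tiles
    have h1 : (Seg ρ).ncard ^ (Seg w').ncard ≤ ((Seg ρ).ncard + 1) ^ (2 * (wmax + 1) ^ 2) := by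
      refine (Nat.pow_le_pow_left (Nat.le_succ _) _).trans (Nat.pow_le_pow_right (by omega) ?_)
      refine (seg_ncard w').trans (Nat.mul_le_mul_left _ (Nat.pow_le_pow_left (by omega) 2))
    have h2 := g7.trans (p2.trans (Nat.mul_le_mul_right _ h1))
    exact Nat.le_of_mul_le_mul_left h2 (by positivity)
  · have hl : Linked M₀ t (s₀ (max t t₀)) (e₁ '' Seg w) (e₂ '' tiles s 𝒯) := by
      intro X hX R hR Q hQ C D a ha b hb c1 c2 c3 c4 c5 c6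
      exact BQ.KGe.mono_n (g10 X hX R hR Q hQ C D a ha b hb c1 c2 c3 c4 c5 c6) (le_max_left _ _)
    exact hl.mono p3 p5 (image_mono fun σ ⟨b, hb, hσ⟩ => ⟨b, p1 hb, hσ⟩)
  · intro b hb
    obtain ⟨q1, q2, q3, q4, q5⟩ := g11 b (p1 hb)
    -- comparison of the tile
    have hT : crr L₂' (shS b.1 b.2 '' Seg s) ⊆ crr L₂ (shS b.1 b.2 '' Seg s) := by
      rintro x ⟨σ, hσ, hx⟩
      exact ⟨σ, hσ, p8 σ ⟨b, hb, hσ⟩ x hx⟩
    have hfin : (crr L₁ (Seg w) ∩ crr L₂ (shS b.1 b.2 '' Seg s)).Finite :=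
      M₀.ground_finite.subset (inter_subset_left.trans g9.pair.s₁.sub_ground)
    have hrf : ∀ r ∈ Seg w', ({x | x ∈ L₁' r} ∩ crr L₂' (shS b.1 b.2 '' Seg s)).Finite := by
      intro r hr
      refine M₁.ground_finite.subset (fun x hx => p4.pair.s₁.sub_ground ⟨r, hr, hx.1⟩)
    refine ⟨p6 b hb, ?_, ?_, ?_, ?_, ?_⟩
    · intro r hr
      have h1 := box_count (c := nB ρ * (9 * ℓ ^ 2) * (Df (2 * nB ρ * L') + 1)) (B := w ^ 2)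
        (ρ := ρ) (S := r) (hrf r hr) (P := fun t => t ∈ Seg w) (G := fun t => {x | x ∈ L₁ t}) (by
          rintro x ⟨hx, hxT⟩
          obtain ⟨t, ht, htb, hxt⟩ := p7 r hr x hx
          exact ⟨t, ht, htb, hxt⟩) (by
          intro t ht
          refine (Nat.mul_le_mul_left _ (Set.ncard_le_ncard ?_ (hfin.subset ?_))).trans
            (q1 t ht).le
          · rintro x ⟨hx, _, hxT⟩
            exact ⟨hx, hT hxT⟩
          · rintro x ⟨hx, hxT⟩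
            exact ⟨⟨t, ht, hx⟩, hxT⟩)
      set c := ({x | x ∈ L₁' r} ∩ crr L₂' (shS b.1 b.2 '' Seg s)).ncard with hc
      have hn0 : 0 < nB ρ := by unfold nB; positivity
      have h2 : nB ρ * (9 * ℓ ^ 2) * ((Df (2 * nB ρ * L') + 1) * c) ≤
          nB ρ * (9 * ℓ ^ 2) * w' ^ 2 := by
        calc nB ρ * (9 * ℓ ^ 2) * ((Df (2 * nB ρ * L') + 1) * c)
            = nB ρ * (9 * ℓ ^ 2) * (Df (2 * nB ρ * L') + 1) * c := by ring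
          _ ≤ nB ρ * w ^ 2 := h1
          _ ≤ nB ρ * (9 * ℓ ^ 2 * w' ^ 2) := Nat.mul_le_mul_left _ hwsq
          _ = _ := by ring
      have h3 := Nat.le_of_mul_le_mul_left h2 (by positivity)
      have h4 : (Df (2 * nB ρ * L') + 1) * c = Df (2 * nB ρ * L') * c + c := by ring
      have h5 : 1 ≤ w' ^ 2 := Nat.one_le_pow _ _ hw'1.1
      rcases Nat.eq_zero_or_pos c with h6 | h6
      · rw [h6, mul_zero]
        omega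
      · omega
    · refine (Set.ncard_le_ncard ?_ hfin).trans (q2.trans ?_)
      · rintro x ⟨⟨r, hr, hx⟩, hxT⟩
        obtain ⟨t, ht, _, hxt⟩ := p7 r hr x hx
        exact ⟨⟨t, ht, hxt⟩, hT hxT⟩
      · calc Cb G * w ^ 2 ≤ Cb G * (9 * ℓ ^ 2 * w' ^ 2) := Nat.mul_le_mul_left _ hwsq
          _ = 9 * (2 * (2 * (ρ' t + 1)) + 40) ^ 2 * Cb G * w' ^ 2 := by
              rw [hℓ, hρ]
              ring
    · have h1 : (crr L₁' (layer w' K₀) ∩ crr L₂' (shS b.1 b.2 '' Seg s)).ncard ≤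
          (crr L₁ (layer w (ℓ * (K₀ + 3))) ∩ crr L₂ (shS b.1 b.2 '' Seg s)).ncard := by
        refine Set.ncard_le_ncard ?_ (hfin.subset ?_)
        · rintro x ⟨⟨r, ⟨hr, hr2⟩, hx⟩, hxT⟩
          obtain ⟨t, ht, htb, hxt⟩ := p7 r hr x hx
          refine ⟨⟨t, ⟨ht, ?_⟩, hxt⟩, hT hxT⟩
          obtain ⟨b1, b2, b3, b4⟩ := htb
          rw [← hℓ] at b1 b2 b3 b4
          have e1 : ℓ * (K₀ + 3) = ℓ * K₀ + 3 * ℓ := by ring
          have e2 : ℓ * (w' + 2) = ℓ * w' + 2 * ℓ := by ring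
          rcases hr2 with h2 | h2 | h2 | h2
          · have := Nat.mul_le_mul_left ℓ h2
            left
            omega
          · have := Nat.mul_le_mul_left ℓ h2
            right; left
            omega
          · have := Nat.mul_le_mul_left ℓ h2
            have e3 : ℓ * (r.2.1 + K₀) = ℓ * r.2.1 + ℓ * K₀ := by ring
            right; right; left
            omega
          · have := Nat.mul_le_mul_left ℓ h2
            have e3 : ℓ * (r.2.2 + K₀) = ℓ * r.2.2 + ℓ * K₀ := by ring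
            right; right; right
            omega
        · rintro x ⟨⟨r, hr, hx⟩, hxT⟩
          exact ⟨⟨r, hr.1, hx⟩, hxT⟩
      have hn0 : 1 ≤ nB ρ := by unfold nB; exact Nat.one_le_iff_ne_zero.2 (by positivity)
      have h2 : 9 * ℓ ^ 2 * (Df (2 * nB ρ * L') * (crr L₁' (layer w' K₀) ∩
          crr L₂' (shS b.1 b.2 '' Seg s)).ncard) ≤ 9 * ℓ ^ 2 * w' ^ 2 := by
        calc 9 * ℓ ^ 2 * (Df (2 * nB ρ * L') * (crr L₁' (layer w' K₀) ∩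
              crr L₂' (shS b.1 b.2 '' Seg s)).ncard)
            ≤ 9 * ℓ ^ 2 * ((Df (2 * nB ρ * L') + 1) * (crr L₁ (layer w (ℓ * (K₀ + 3))) ∩
                crr L₂ (shS b.1 b.2 '' Seg s)).ncard) :=
              Nat.mul_le_mul_left _ (Nat.mul_le_mul (Nat.le_succ _) h1)
          _ = 1 * (9 * ℓ ^ 2 * ((Df (2 * nB ρ * L') + 1) * (crr L₁ (layer w (ℓ * (K₀ + 3))) ∩
                crr L₂ (shS b.1 b.2 '' Seg s)).ncard)) := by ring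
          _ ≤ nB ρ * (9 * ℓ ^ 2 * ((Df (2 * nB ρ * L') + 1) *
                (crr L₁ (layer w (ℓ * (K₀ + 3))) ∩
                crr L₂ (shS b.1 b.2 '' Seg s)).ncard)) := Nat.mul_le_mul_right _ hn0
          _ = nB ρ * (9 * ℓ ^ 2) * (Df (2 * nB ρ * L') + 1) *
                (crr L₁ (layer w (ℓ * (K₀ + 3))) ∩
                crr L₂ (shS b.1 b.2 '' Seg s)).ncard := by ring
          _ ≤ w ^ 2 := q3
          _ ≤ _ := hwsq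
      exact Nat.le_of_mul_le_mul_left h2 (by positivity)
    · have h1 := heavy_count (ρ := ρ) (w := w) (w' := w') (L := L) (L₁ := L₁) (L₁' := L₁') hT hfin
        (fun r hr x hx => p7 r hr x hx) (fun r hr r' hr' x hx hx' => p4.pair.s₁.uniq hr hr' hx hx')
      have h2 : 9 * ℓ ^ 2 * (h * (crr L₁' {r | r ∈ Seg w' ∧ 2 * nB ρ * L <
          ({x | x ∈ L₁' r} ∩ crr L₂' (shS b.1 b.2 '' Seg s)).ncard} ∩
          crr L₂' (shS b.1 b.2 '' Seg s)).ncard) ≤ 9 * ℓ ^ 2 * w' ^ 2 := by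
        calc 9 * ℓ ^ 2 * (h * (crr L₁' {r | r ∈ Seg w' ∧ 2 * nB ρ * L <
              ({x | x ∈ L₁' r} ∩ crr L₂' (shS b.1 b.2 '' Seg s)).ncard} ∩
              crr L₂' (shS b.1 b.2 '' Seg s)).ncard)
            ≤ 9 * ℓ ^ 2 * (h * (2 * (crr L₁ {t | t ∈ Seg w ∧ L < ({x | x ∈ L₁ t} ∩
                crr L₂ (shS b.1 b.2 '' Seg s)).ncard} ∩
                crr L₂ (shS b.1 b.2 '' Seg s)).ncard)) :=
              Nat.mul_le_mul_left _ (Nat.mul_le_mul_left _ h1)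
          _ = 18 * ℓ ^ 2 * h * (crr L₁ {t | t ∈ Seg w ∧ L < ({x | x ∈ L₁ t} ∩
                crr L₂ (shS b.1 b.2 '' Seg s)).ncard} ∩
                crr L₂ (shS b.1 b.2 '' Seg s)).ncard := by ring
          _ ≤ w ^ 2 := q4
          _ ≤ _ := hwsq
      exact Nat.le_of_mul_le_mul_left h2 (by positivity)
    · have h1 := heavy_count (ρ := ρ) (w := w) (w' := w') (L := L') (L₁ := L₁) (L₁' := L₁') hT hfin
        (fun r hr x hx => p7 r hr x hx) (fun r hr r' hr' x hx hx' => p4.pair.s₁.uniq hr hr' hx hx')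
      have h2 : 9 * ℓ ^ 2 * (h' (2 * nB ρ * L) * (crr L₁' {r | r ∈ Seg w' ∧ 2 * nB ρ * L' <
          ({x | x ∈ L₁' r} ∩ crr L₂' (shS b.1 b.2 '' Seg s)).ncard} ∩
          crr L₂' (shS b.1 b.2 '' Seg s)).ncard) ≤ 9 * ℓ ^ 2 * w' ^ 2 := by
        calc 9 * ℓ ^ 2 * (h' (2 * nB ρ * L) * (crr L₁' {r | r ∈ Seg w' ∧ 2 * nB ρ * L' <
              ({x | x ∈ L₁' r} ∩ crr L₂' (shS b.1 b.2 '' Seg s)).ncard} ∩
              crr L₂' (shS b.1 b.2 '' Seg s)).ncard)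
            ≤ 9 * ℓ ^ 2 * (h' (2 * nB ρ * L) * (2 * (crr L₁ {t | t ∈ Seg w ∧ L' < ({x | x ∈ L₁ t} ∩
                crr L₂ (shS b.1 b.2 '' Seg s)).ncard} ∩
                crr L₂ (shS b.1 b.2 '' Seg s)).ncard)) :=
              Nat.mul_le_mul_left _ (Nat.mul_le_mul_left _ h1)
          _ = 18 * ℓ ^ 2 * h' (2 * nB ρ * L) * (crr L₁ {t | t ∈ Seg w ∧ L' < ({x | x ∈ L₁ t} ∩
                crr L₂ (shS b.1 b.2 '' Seg s)).ncard} ∩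
                crr L₂ (shS b.1 b.2 '' Seg s)).ncard := by ring
          _ ≤ w ^ 2 := q5
          _ ≤ _ := hwsq
      exact Nat.le_of_mul_le_mul_left h2 (by positivity)

end CWL
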