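import Pool.Agent.CW.Sim

/-!
# Row Q of Theorem CW: crossing paths
-/

open Set BIC BICS
open scoped Matroid

namespace CWL.Cr

variable {α : Type*}

section att

variable {V : Type*} {T : Set α} {ends : α → Sym2 V}

lemma att_rk {N : Matroid α} [N.Finite] (hB : Bic N T ends) {Z : Set α} {W : Set V}
    (hZ : Z ⊆ T) (hW : W.Finite) (ha : Att ends Z W) : W.ncard ≤ rk N Z := by
  obtain ⟨g, hg, hgw⟩ := ha
  rcases W.eq_empty_or_nonempty with rfl | ⟨w0, hw0⟩
  · simp
  have : Nonempty V := ⟨w0⟩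
  have hF : g '' W ⊆ T := by
    rintro _ ⟨w, hw, rfl⟩
    exact hZ (hgw w hw).1
  have hinv : ∀ w ∈ W, Function.invFunOn g W (g w) = w := fun w hw =>
    hg.leftInvOn_invFunOn hw
  have hI : N.Indep (g '' W) := by
    refine hB.ind _ (Function.invFunOn g W) hF ?_ ?_
    · rintro _ ⟨w, hw, rfl⟩ _ ⟨w', hw', rfl⟩ h
      rw [hinv w hw, hinv w' hw'] at h
      rw [h]
    · rintro _ ⟨w, hw, rfl⟩
      rw [hinv w hw]
      exact (hgw w hw).2
  have h1 : rk N (g '' W) = (g '' W).ncard := rk_indep hI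
  have h2 : (g '' W).ncard = W.ncard := hg.ncard_image
  have h3 : rk N (g '' W) ≤ rk N Z := rk_mono N (by
    rintro _ ⟨w, hw, rfl⟩
    exact (hgw w hw).1)
  omega

lemma att_of_nbr [Nonempty α] {Z : Set α} {W : Set V} (f : V → V)
    (h : ∀ w ∈ W, ∃ e ∈ Z, ends e = s(w, f w))
    (hi : ∀ w ∈ W, ∀ w' ∈ W, f w = w' → f w' = w → w = w') : Att ends Z W := by
  classical
  have h' : ∀ w, ∃ e, w ∈ W → e ∈ Z ∧ ends e = s(w, f w) := by
    intro w
    by_cases hw : w ∈ W
    · obtain ⟨e, he⟩ := h w hw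
      exact ⟨e, fun _ => he⟩
    · exact ⟨Classical.arbitrary α, fun h => absurd h hw⟩
  choose g hg using h'
  refine ⟨g, ?_, fun w hw => ⟨(hg w hw).1, ?_⟩⟩
  · intro w hw w' hw' hww
    have h1 := (hg w hw).2
    have h2 := (hg w' hw').2
    rw [hww, h2, Sym2.eq_iff] at h1
    rcases h1 with ⟨h1, -⟩ | ⟨h1, h3⟩
    · exact h1.symm
    · exact hi w hw w' hw' h1.symm h3
  · rw [(hg w hw).2]
    exact Sym2.mem_mk_left _ _

lemma mem_ins_mk {S : Set α} {W : Set V} {e : α} {p q : V} (he : ends e = s(p, q)) :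
    e ∈ ins S ends W ↔ e ∈ S ∧ p ∈ W ∧ q ∈ W := by
  constructor
  · rintro ⟨h1, h2⟩
    rw [he] at h2
    exact ⟨h1, h2 p (Sym2.mem_mk_left _ _), h2 q (Sym2.mem_mk_right _ _)⟩
  · rintro ⟨h1, h2, h3⟩
    refine ⟨h1, fun v hv => ?_⟩
    rw [he, Sym2.mem_iff] at hv
    rcases hv with rfl | rfl <;> assumption

end att

/-- the next vertex in the `2 × 2` cell -/
def nb (w : ℕ × ℕ) : ℕ × ℕ :=
  if w.1 % 2 = 0 then (if w.2 % 2 = 0 then (w.1 + 1, w.2) else (w.1, w.2 - 1))
  else (if w.2 % 2 = 0 then (w.1, w.2 + 1) else (w.1 - 1, w.2))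

lemma nb_div (w : ℕ × ℕ) : (nb w).1 / 2 = w.1 / 2 ∧ (nb w).2 / 2 = w.2 / 2 := by
  obtain ⟨a, b⟩ := w
  simp only [nb]
  split_ifs with h1 h2 h2 <;> (constructor <;> dsimp only <;> omega)

lemma nb_adj (w : ℕ × ℕ) : adj w (nb w) := by
  obtain ⟨a, b⟩ := w
  simp only [nb, adj]
  split_ifs with h1 h2 h2 <;> dsimp only <;> omega

lemma nb_nb {w : ℕ × ℕ} : nb (nb w) ≠ w := by
  obtain ⟨a, b⟩ := w
  intro h
  rw [Prod.ext_iff] at h
  obtain ⟨h1, h2⟩ := h
  simp only [nb] at h1 h2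
  split_ifs at h1 h2 <;> dsimp only at * <;> omega

lemma mem_cl2 {v i : ℕ × ℕ} : v ∈ cl2 i ↔ v.1 / 2 = i.1 ∧ v.2 / 2 = i.2 := by
  unfold cl2 rect
  rw [mem_ofPred_eq]
  omega

lemma mem_csq {v q : ℕ × ℕ} {s : ℕ} : v ∈ csq q s ↔
    q.1 ≤ v.1 / 2 ∧ v.1 / 2 < q.1 + s ∧ q.2 ≤ v.2 / 2 ∧ v.2 / 2 < q.2 + s := by
  unfold csq rect
  rw [mem_ofPred_eq]
  omega

lemma mem_pun {N : ℕ} {A : Finset (ℕ × ℕ)} {v : ℕ × ℕ} :
    v ∈ pun N A ↔ v.1 / 2 < N ∧ v.2 / 2 < N ∧ (v.1 / 2, v.2 / 2) ∉ A := by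
  unfold pun
  rw [mem_sdiff, mem_csq]
  simp only [mem_iUnion, mem_cl2, exists_prop, not_exists, not_and]
  constructor
  · rintro ⟨h1, h2⟩
    refine ⟨by omega, by omega, fun h => ?_⟩
    exact h2 _ h rfl rfl
  · rintro ⟨h1, h2, h3⟩
    refine ⟨by omega, fun i hi h4 h5 => h3 ?_⟩
    rw [h4, h5]
    exact hi

lemma nb_pun {N : ℕ} {A : Finset (ℕ × ℕ)} {v : ℕ × ℕ} (h : v ∈ pun N A) : nb v ∈ pun N A := by
  rw [mem_pun] at h ⊢
  rw [(nb_div v).1, (nb_div v).2]
  exact h

section cross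

variable {M : Matroid α} {C T B : Set α} {ends : α → Sym2 (ℕ × ℕ)} {N F L : ℕ} {q : ℕ × ℕ}
  {A : Finset (ℕ × ℕ)} {c : α}

/-- horizontal elements of the row `y` between the columns `a` and `b` -/
def hor (T : Set α) (ends : α → Sym2 (ℕ × ℕ)) (y a b : ℕ) : Set α :=
  {e | e ∈ T ∧ ∃ t, a ≤ t ∧ t < b ∧ ends e = s((t, y), (t + 1, y))}

/-- horizontal elements of the rows `y`, .., `y'` -/
def hors (T : Set α) (ends : α → Sym2 (ℕ × ℕ)) (y y' a b : ℕ) : Set α :=
  {e | e ∈ T ∧ ∃ t z, a ≤ t ∧ t < b ∧ y ≤ z ∧ z < y' ∧ ends e = s((t, z), (t + 1, z))}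

/-- vertical elements -/
def ver (T : Set α) (ends : α → Sym2 (ℕ × ℕ)) (p : ℕ × ℕ) : Set α :=
  {e | e ∈ T ∧ ends e = s((p.1, p.2), (p.1, p.2 + 1))}

lemma att_pun [Nonempty α] (hG : Grd T ends 0 0 (2 * N) (2 * N)) (A : Finset (ℕ × ℕ)) :
    ∀ w ∈ pun N A, ∃ e ∈ ins T ends (pun N A), ends e = s(w, nb w) := by
  intro w hw
  have hw' := nb_pun hw
  have h1 := mem_pun.1 hw
  have h2 := mem_pun.1 hw'
  obtain ⟨e, he, hee⟩ := hG.surj w (nb w) (nb_adj w) (by simp only [rect, mem_ofPred_eq]; omega)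
    (by simp only [rect, mem_ofPred_eq]; omega)
  exact ⟨e, (mem_ins_mk hee).2 ⟨he, hw, hw'⟩, hee⟩

/-- attachment with horizontal edges -/
lemma att_hor [Nonempty α] (hG : Grd T ends 0 0 (2 * N) (2 * N)) {A : Finset (ℕ × ℕ)}
    {Z : Set α} {W : Set (ℕ × ℕ)} (r : ℕ → Prop) (hZ : ins T ends (pun N A) ⊆ Z)
    (hl : ∀ w ∈ W, w ∉ pun N A → ¬ r w.2 → ∃ e ∈ Z, ends e = s(w, (w.1 - 1, w.2)) ∧ 1 ≤ w.1)
    (hr : ∀ w ∈ W, w ∉ pun N A → r w.2 → ∃ e ∈ Z, ends e = s(w, (w.1 + 1, w.2))) :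
    Att ends Z W := by
  classical
  apply att_of_nbr (fun w => if w ∈ pun N A then nb w else if r w.2 then (w.1 + 1, w.2)
    else (w.1 - 1, w.2))
  · intro w hw
    by_cases h1 : w ∈ pun N A
    · obtain ⟨e, he, hee⟩ := att_pun hG A w h1
      exact ⟨e, hZ he, by rw [if_pos h1]; exact hee⟩
    · by_cases h2 : r w.2
      · obtain ⟨e, he, hee⟩ := hr w hw h1 h2
        exact ⟨e, he, by rw [if_neg h1, if_pos h2]; exact hee⟩
      · obtain ⟨e, he, hee, -⟩ := hl w hw h1 h2
        exact ⟨e, he, by rw [if_neg h1, if_neg h2]; exact hee⟩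
  · intro w hw w' hw' h1 h2
    by_cases h3 : w ∈ pun N A
    · rw [if_pos h3] at h1
      have h4 : w' ∈ pun N A := by rw [← h1]; exact nb_pun h3
      rw [if_pos h4] at h2
      rw [← h1] at h2
      exact absurd h2 nb_nb
    · by_cases h4 : w' ∈ pun N A
      · rw [if_pos h4] at h2
        exact absurd (by rw [← h2]; exact nb_pun h4) h3
      rw [if_neg h3] at h1
      rw [if_neg h4] at h2
      by_cases h5 : r w.2
      · rw [if_pos h5] at h1
        have h6 : w'.2 = w.2 := by rw [← h1]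
        have h7 : w'.1 = w.1 + 1 := by rw [← h1]
        rw [h6, if_pos h5] at h2
        have h8 : w'.1 + 1 = w.1 := by rw [← h2]
        omega
      · rw [if_neg h5] at h1
        obtain ⟨-, -, -, h10⟩ := hl w hw h3 h5
        have h6 : w'.2 = w.2 := by rw [← h1]
        have h7 : w'.1 = w.1 - 1 := by rw [← h1]
        rw [h6, if_neg h5] at h2
        have h8 : w'.1 - 1 = w.1 := by rw [← h2]
        omega

lemma rect_fin (a b c d : ℕ) : (rect a b c d).Finite := by
  refine ((Set.finite_Iic (a + c)).prod (Set.finite_Iic (b + d))).subset ?_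
  rintro p ⟨h1, h2, h3, h4⟩
  exact ⟨by simp only [mem_Iic]; omega, by simp only [mem_Iic]; omega⟩

lemma pun_fin (N : ℕ) (A : Finset (ℕ × ℕ)) : (pun N A).Finite :=
  (rect_fin _ _ _ _).subset sdiff_subset

/-- the surroundings of the removed square are not removed -/
structure Sit (N L : ℕ) (q : ℕ × ℕ) (A : Finset (ℕ × ℕ)) : Prop where
  q1 : 2 ≤ q.1
  q2 : 2 ≤ q.2
  h1 : q.1 + L + 2 ≤ N
  h2 : q.2 + L + 2 ≤ N
  hA : ∀ i ∈ rect (q.1 - 1) (q.2 - 1) (L + 2) (L + 2), i ∈ A ↔ i ∈ rect q.1 q.2 L L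

lemma Sit.ring (h : Sit N L q A) {v : ℕ × ℕ} (h1 : 2 * q.1 ≤ v.1 + 2)
    (h2 : v.1 < 2 * q.1 + 2 * L + 2) (h3 : 2 * q.2 ≤ v.2 + 2) (h4 : v.2 < 2 * q.2 + 2 * L + 2)
    (h5 : ¬ (2 * q.1 ≤ v.1 ∧ v.1 < 2 * q.1 + 2 * L ∧ 2 * q.2 ≤ v.2 ∧ v.2 < 2 * q.2 + 2 * L)) :
    v ∈ pun N A := by
  have := h.q1
  have := h.q2
  have := h.h1
  have := h.h2
  rw [mem_pun]
  refine ⟨by omega, by omega, fun hv => ?_⟩
  have h6 := (h.hA (v.1 / 2, v.2 / 2) (by simp only [rect, mem_ofPred_eq]; omega)).1 hv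
  simp only [rect, mem_ofPred_eq] at h6
  exact h5 (by omega)

/-- a straight crossing path -/
def vr (q : ℕ × ℕ) (y i : ℕ) : ℕ × ℕ := (2 * (q.1 - 1) - 1 + i, y)

/-- a crossing path with one vertical step in the column `x` -/
def vs (q : ℕ × ℕ) (x y i : ℕ) : ℕ × ℕ :=
  if 2 * (q.1 - 1) - 1 + i ≤ x then (2 * (q.1 - 1) - 1 + i, y)
  else (2 * (q.1 - 1) - 1 + i - 1, y + 1)

lemma crossPath_vr (h : Sit N L q A) {y : ℕ} (h1 : 2 * q.2 ≤ y) (h2 : y < 2 * q.2 + 2 * L) :
    CrossPath (q.1 - 1, q.2 - 1) (L + 2) (vr q y) (2 * L + 5) := by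
  have := h.q1
  have := h.q2
  refine ⟨by omega, ?_, ?_, ?_, ?_, ?_⟩
  · intro i _ j _ hij
    have := congrArg Prod.fst hij
    simp only [vr] at this
    omega
  · intro i _
    exact Or.inr ⟨rfl, Or.inl (by dsimp only [vr]; omega)⟩
  · refine ⟨y - 2 * (q.2 - 1), by omega, ?_⟩
    simp only [vr, Prod.mk.injEq]
    omega
  · refine ⟨y - 2 * (q.2 - 1), by omega, ?_⟩
    simp only [vr, Prod.mk.injEq]
    omega
  · intro i h3 h4
    have h5 : 2 * (q.1 - 1) ≤ 2 * (q.1 - 1) - 1 + i := by omega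
    have h6 : 2 * (q.1 - 1) - 1 + i < 2 * (q.1 - 1) + 2 * (L + 2) := by omega
    exact ⟨h5, h6, by dsimp only [vr]; omega, by dsimp only [vr]; omega⟩

lemma crossPath_vs (h : Sit N L q A) {x y : ℕ} (h0 : 2 * q.1 ≤ x) (h0' : x < 2 * q.1 + 2 * L)
    (h1 : 2 * q.2 ≤ y + 1) (h2 : y < 2 * q.2 + 2 * L) :
    CrossPath (q.1 - 1, q.2 - 1) (L + 2) (vs q x y) (2 * L + 6) := by
  have := h.q1
  have := h.q2
  refine ⟨by omega, ?_, ?_, ?_, ?_, ?_⟩
  · intro i _ j _ hij
    have h3 := congrArg Prod.fst hij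
    have h4 := congrArg Prod.snd hij
    simp only [vs] at h3 h4
    split_ifs at h3 h4 <;> dsimp only at h3 h4 <;> omega
  · intro i _
    simp only [adj, vs]
    split_ifs <;> dsimp only <;> omega
  · refine ⟨y - 2 * (q.2 - 1), by omega, ?_⟩
    simp only [vs]
    rw [if_pos (by omega), Prod.mk.injEq]
    omega
  · refine ⟨y + 1 - 2 * (q.2 - 1), by omega, ?_⟩
    simp only [vs]
    rw [if_neg (by omega), Prod.mk.injEq]
    omega
  · intro i h3 h4
    simp only [csq, vs, rect, mem_ofPred_eq]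
    split_ifs <;> dsimp only <;> omega

lemma hor_sub_vr (h : Sit N L q A) (y : ℕ) :
    hor T ends y (2 * q.1 - 1) (2 * q.1 + 2 * L) ⊆ pthE T ends (vr q y) (2 * L + 5) := by
  have := h.q1
  rintro e ⟨he, t, h1, h2, hee⟩
  refine ⟨he, t - (2 * (q.1 - 1) - 1), by omega, ?_⟩
  rw [hee]
  simp only [vr]
  congr 2 <;> omega

lemma hor_sub_vs_left (h : Sit N L q A) {x y : ℕ} (h0' : x < 2 * q.1 + 2 * L) :
    hor T ends y (2 * q.1 - 1) x ⊆ pthE T ends (vs q x y) (2 * L + 6) := by
  have := h.q1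
  rintro e ⟨he, t, h1, h2, hee⟩
  refine ⟨he, t - (2 * (q.1 - 1) - 1), by omega, ?_⟩
  rw [hee]
  simp only [vs]
  rw [if_pos (by omega), if_pos (by omega)]
  congr 2 <;> omega

lemma hor_sub_vs_right (h : Sit N L q A) {x y : ℕ} (h0 : 2 * q.1 ≤ x) :
    hor T ends (y + 1) x (2 * q.1 + 2 * L) ⊆ pthE T ends (vs q x y) (2 * L + 6) := by
  have := h.q1
  rintro e ⟨he, t, h1, h2, hee⟩
  refine ⟨he, t - (2 * (q.1 - 1) - 1) + 1, by omega, ?_⟩
  rw [hee]
  simp only [vs]
  rw [if_neg (by omega), if_neg (by omega)]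
  congr 2 <;> omega

lemma ver_sub_vs (h : Sit N L q A) {x y : ℕ} (h0 : 2 * q.1 ≤ x)
    (h0' : x < 2 * q.1 + 2 * L) :
    ver T ends (x, y) ⊆ pthE T ends (vs q x y) (2 * L + 6) := by
  have := h.q1
  rintro e ⟨he, hee⟩
  refine ⟨he, x - (2 * (q.1 - 1) - 1), by omega, ?_⟩
  rw [hee]
  simp only [vs]
  rw [if_pos (by omega), if_neg (by omega)]
  congr 2 <;> omega

/-- glueing of the rows -/
lemma step_rows [M.Finite] (hctx : Ctx M C T B ends N F) (hAF : A.card ≤ F) (h : Sit N L q A)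
    (hc : c ∈ C \ B) (h0 : ¬ Vis M C B (ins T ends (pun N A)) c)
    (hrow : ∀ y, 2 * q.2 ≤ y → y < 2 * q.2 + 2 * L → ¬ Vis M C B (ins T ends (pun N A) ∪
      hor T ends y (2 * q.1 - 1) (2 * q.1 + 2 * L)) c) :
    ∀ m ≤ 2 * L, ¬ Vis M C B (ins T ends (pun N A) ∪
      hors T ends (2 * q.2) (2 * q.2 + m) (2 * q.1 - 1) (2 * q.1 + 2 * L)) c := by
  have : Nonempty α := ⟨c⟩
  have hT := hctx.sub
  have hG := hctx.grd
  have h1 := h.q1
  have h2 := h.q2
  have h3 := h.h1
  have h4 := h.h2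
  intro m
  induction m with
  | zero =>
    intro _
    have h5 : hors T ends (2 * q.2) (2 * q.2 + 0) (2 * q.1 - 1) (2 * q.1 + 2 * L) = ∅ := by
      ext e
      simp only [hors, mem_ofPred_eq, mem_empty_iff_false, iff_false]
      rintro ⟨-, t, z, -, -, h6, h7, -⟩
      omega
    rw [h5, union_empty]
    exact h0
  | succ m ih =>
    intro hm hv
    have hi := ih (by omega)
    have hr := hrow (2 * q.2 + m) (by omega) (by omega)
    have hsub : ins T ends (pun N A) ∪
        hors T ends (2 * q.2) (2 * q.2 + (m + 1)) (2 * q.1 - 1) (2 * q.1 + 2 * L) ⊆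
        (ins T ends (pun N A) ∪
          hors T ends (2 * q.2) (2 * q.2 + m) (2 * q.1 - 1) (2 * q.1 + 2 * L)) ∪
        (ins T ends (pun N A) ∪ hor T ends (2 * q.2 + m) (2 * q.1 - 1) (2 * q.1 + 2 * L)) := by
      rintro e (he | ⟨he, t, z, h5, h6, h7, h8, h9⟩)
      · exact Or.inl (Or.inl he)
      · by_cases h10 : z = 2 * q.2 + m
        · subst h10
          exact Or.inr (Or.inr ⟨he, t, h5, h6, h9⟩)
        · exact Or.inl (Or.inr ⟨he, t, z, h5, h6, h7, by omega, h9⟩)
    refine glue hctx.ind hT hctx.bic hctx.BC hc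
      (V₁ := pun N A ∪ rect (2 * q.1) (2 * q.2) (2 * L) m)
      (V₂ := pun N A ∪ rect (2 * q.1) (2 * q.2 + m) (2 * L) 1)
      ((pun_fin N A).union (rect_fin _ _ _ _)) ((pun_fin N A).union (rect_fin _ _ _ _))
      ?_ ?_ ?_ ?_ ?_ hi hr (Vis.mono hsub hv)
    · rintro e (he | ⟨he, t, z, h5, h6, h7, h8, h9⟩)
      · exact ins_mono subset_union_left he
      · rw [mem_ins_mk h9]
        refine ⟨he, ?_, ?_⟩
        · by_cases h10 : 2 * q.1 ≤ t
          · exact Or.inr ⟨h10, by dsimp only; omega, h7, h8⟩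
          · exact Or.inl (h.ring (by dsimp only; omega) (by dsimp only; omega)
              (by dsimp only; omega) (by dsimp only; omega) (by dsimp only; omega))
        · by_cases h10 : t + 1 < 2 * q.1 + 2 * L
          · exact Or.inr ⟨by dsimp only; omega, h10, h7, h8⟩
          · exact Or.inl (h.ring (by dsimp only; omega) (by dsimp only; omega)
              (by dsimp only; omega) (by dsimp only; omega) (by dsimp only; omega))
    · rintro e (he | ⟨he, t, h5, h6, h9⟩)
      · exact ins_mono subset_union_left he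
      · rw [mem_ins_mk h9]
        refine ⟨he, ?_, ?_⟩
        · by_cases h10 : 2 * q.1 ≤ t
          · exact Or.inr ⟨h10, by dsimp only; omega, by dsimp only; omega,
              by dsimp only; omega⟩
          · exact Or.inl (h.ring (by dsimp only; omega) (by dsimp only; omega)
              (by dsimp only; omega) (by dsimp only; omega) (by dsimp only; omega))
        · by_cases h10 : t + 1 < 2 * q.1 + 2 * L
          · exact Or.inr ⟨by dsimp only; omega, h10, by dsimp only; omega,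
              by dsimp only; omega⟩
          · exact Or.inl (h.ring (by dsimp only; omega) (by dsimp only; omega)
              (by dsimp only; omega) (by dsimp only; omega) (by dsimp only; omega))
    · refine Rob.mono hctx.ind hctx.BC (X := ins T ends (pun N A))
        (subset_inter subset_union_left subset_union_left) ?_ (hctx.rob A hAF)
      rintro e ⟨he | he, -⟩
      · exact hT he.1
      · exact hT he.1
    · have h5 : (pun N A ∪ rect (2 * q.1) (2 * q.2) (2 * L) m) ∩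
          (pun N A ∪ rect (2 * q.1) (2 * q.2 + m) (2 * L) 1) = pun N A := by
        rw [← union_inter_distrib_left]
        have h6 : rect (2 * q.1) (2 * q.2) (2 * L) m ∩ rect (2 * q.1) (2 * q.2 + m) (2 * L) 1 =
            ∅ := by
          ext v
          simp only [rect, mem_inter_iff, mem_ofPred_eq, mem_empty_iff_false, iff_false]
          omega
        rw [h6, union_empty]
      rw [h5]
      refine att_rk hctx.bic ?_ (pun_fin N A) (att_hor hG (A := A) (fun _ => False)
        (subset_inter subset_union_left subset_union_left) (fun w hw hw' => absurd hw hw')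
        (fun w hw hw' => absurd hw hw'))
      rintro e ⟨he | he, -⟩
      · exact he.1
      · exact he.1
    · refine att_rk hctx.bic ?_ (((pun_fin N A).union (rect_fin _ _ _ _)).union
        ((pun_fin N A).union (rect_fin _ _ _ _))) (att_hor hG (A := A) (fun _ => False)
        (subset_union_left.trans subset_union_left) ?_ (fun _ _ _ h => absurd h (by simp)))
      · rintro e ((he | he) | (he | he)) <;> exact he.1
      · intro w hw hw' _
        have h5 : 2 * q.1 ≤ w.1 ∧ w.1 < 2 * q.1 + 2 * L ∧ 2 * q.2 ≤ w.2 ∧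
            w.2 < 2 * q.2 + m + 1 := by
          rcases hw with (hw | hw) | (hw | hw)
          · exact absurd hw hw'
          · simp only [rect, mem_ofPred_eq] at hw
            omega
          · exact absurd hw hw'
          · simp only [rect, mem_ofPred_eq] at hw
            omega
        obtain ⟨e, he, hee⟩ := hG.surj (w.1 - 1, w.2) w
          (Or.inr ⟨rfl, Or.inl (by dsimp only; omega)⟩)
          (by simp only [rect, mem_ofPred_eq]; omega) (by simp only [rect, mem_ofPred_eq]; omega)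
        refine ⟨e, ?_, by rw [hee, Sym2.eq_swap], by omega⟩
        have h6 : ends e = s((w.1 - 1, w.2), (w.1 - 1 + 1, w.2)) := by
          rw [hee]
          congr 1
          exact Prod.ext (by dsimp only; omega) rfl
        by_cases h10 : w.2 = 2 * q.2 + m
        · exact Or.inr (Or.inr ⟨he, w.1 - 1, by omega, by omega, by rw [← h10]; exact h6⟩)
        · exact Or.inl (Or.inr ⟨he, w.1 - 1, w.2, by omega, by omega, by omega, by omega, h6⟩)

/-- glueing of the vertical elements -/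
lemma step_ver [M.Finite] (hctx : Ctx M C T B ends N F) (hAF : A.card ≤ F) (h : Sit N L q A)
    (hc : c ∈ C \ B) (h0 : ¬ Vis M C B (ins T ends (pun N A) ∪
      hors T ends (2 * q.2) (2 * q.2 + 2 * L) (2 * q.1 - 1) (2 * q.1 + 2 * L)) c)
    (hver : ∀ x y, 2 * q.1 ≤ x → x < 2 * q.1 + 2 * L → 2 * q.2 ≤ y + 1 →
      y < 2 * q.2 + 2 * L → ¬ Vis M C B (ins T ends (pun N A) ∪
      (hor T ends y (2 * q.1 - 1) x ∪ hor T ends (y + 1) x (2 * q.1 + 2 * L) ∪
        ver T ends (x, y))) c) :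
    ∀ D : Finset (ℕ × ℕ), (∀ p ∈ D, 2 * q.1 ≤ p.1 ∧ p.1 < 2 * q.1 + 2 * L ∧
      2 * q.2 ≤ p.2 + 1 ∧ p.2 < 2 * q.2 + 2 * L) → ¬ Vis M C B (ins T ends (pun N A) ∪
      (hors T ends (2 * q.2) (2 * q.2 + 2 * L) (2 * q.1 - 1) (2 * q.1 + 2 * L) ∪
        ⋃ p ∈ D, ver T ends p)) c := by
  classical
  have : Nonempty α := ⟨c⟩
  have hT := hctx.sub
  have hG := hctx.grd
  have h1 := h.q1
  have h2 := h.q2
  have h3 := h.h1
  have h4 := h.h2
  -- all vertices of the square and of `pun N A`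
  set V₁ : Set (ℕ × ℕ) := pun N A ∪ rect (2 * q.1) (2 * q.2) (2 * L) (2 * L) with hV₁
  have hin : ∀ v : ℕ × ℕ, 2 * q.1 ≤ v.1 + 2 → v.1 < 2 * q.1 + 2 * L + 2 → 2 * q.2 ≤ v.2 + 2 →
      v.2 < 2 * q.2 + 2 * L + 2 → v ∈ V₁ := by
    intro v h5 h6 h7 h8
    by_cases h9 : 2 * q.1 ≤ v.1 ∧ v.1 < 2 * q.1 + 2 * L ∧ 2 * q.2 ≤ v.2 ∧
        v.2 < 2 * q.2 + 2 * L
    · exact Or.inr ⟨h9.1, h9.2.1, h9.2.2.1, h9.2.2.2⟩
    · exact Or.inl (h.ring h5 h6 h7 h8 h9)
  have hfin : V₁.Finite := (pun_fin N A).union (rect_fin _ _ _ _)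
  intro D
  induction D using Finset.induction with
  | empty =>
    intro _ hv
    apply h0
    refine Vis.mono ?_ hv
    simp
  | insert p D hp ih =>
    intro hD hv
    have hi := ih fun p' hp' => hD p' (Finset.mem_insert_of_mem hp')
    have hpD := hD p (Finset.mem_insert_self _ _)
    obtain ⟨x, y⟩ := p
    obtain ⟨k1, k2, k3, k4⟩ := hpD
    dsimp only at k1 k2 k3 k4
    have hr := hver x y k1 k2 k3 k4
    have hsub : ins T ends (pun N A) ∪
        (hors T ends (2 * q.2) (2 * q.2 + 2 * L) (2 * q.1 - 1) (2 * q.1 + 2 * L) ∪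
          ⋃ p ∈ insert (x, y) D, ver T ends p) ⊆
        (ins T ends (pun N A) ∪
        (hors T ends (2 * q.2) (2 * q.2 + 2 * L) (2 * q.1 - 1) (2 * q.1 + 2 * L) ∪
          ⋃ p ∈ D, ver T ends p)) ∪
        (ins T ends (pun N A) ∪
        (hor T ends y (2 * q.1 - 1) x ∪ hor T ends (y + 1) x (2 * q.1 + 2 * L) ∪
          ver T ends (x, y))) := by
      rintro e (he | he | he)
      · exact Or.inl (Or.inl he)
      · exact Or.inl (Or.inr (Or.inl he))
      · simp only [mem_iUnion, exists_prop] at he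
        obtain ⟨p', hp', he⟩ := he
        rcases Finset.mem_insert.1 hp' with rfl | hp'
        · exact Or.inr (Or.inr (Or.inr he))
        · refine Or.inl (Or.inr (Or.inr ?_))
          simp only [mem_iUnion, exists_prop]
          exact ⟨p', hp', he⟩
    set V₂ : Set (ℕ × ℕ) := pun N A ∪ ({v | v.2 = y ∧ 2 * q.1 ≤ v.1 ∧ v.1 ≤ x} ∪
      {v | v.2 = y + 1 ∧ x ≤ v.1 ∧ v.1 < 2 * q.1 + 2 * L}) with hV₂
    have hV : V₂ ⊆ V₁ := by
      rintro v (hv | ⟨h5, h6, h7⟩ | ⟨h5, h6, h7⟩)
      · exact Or.inl hv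
      · exact hin v (by omega) (by omega) (by omega) (by omega)
      · exact hin v (by omega) (by omega) (by omega) (by omega)
    refine glue hctx.ind hT hctx.bic hctx.BC hc (V₁ := V₁) (V₂ := V₂) hfin (hfin.subset hV)
      ?_ ?_ ?_ ?_ ?_ hi hr (Vis.mono hsub hv)
    · rintro e (he | ⟨he, t, z, h5, h6, h7, h8, h9⟩ | he)
      · exact ins_mono subset_union_left he
      · rw [mem_ins_mk h9]
        exact ⟨he, hin _ (by dsimp only; omega) (by dsimp only; omega) (by dsimp only; omega)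
          (by dsimp only; omega), hin _ (by dsimp only; omega) (by dsimp only; omega)
          (by dsimp only; omega) (by dsimp only; omega)⟩
      · simp only [mem_iUnion, exists_prop] at he
        obtain ⟨p', hp', he, h9⟩ := he
        obtain ⟨k5, k6, k7, k8⟩ := hD p' (Finset.mem_insert_of_mem hp')
        rw [mem_ins_mk h9]
        exact ⟨he, hin _ (by dsimp only; omega) (by dsimp only; omega) (by dsimp only; omega)
          (by dsimp only; omega), hin _ (by dsimp only; omega) (by dsimp only; omega)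
          (by dsimp only; omega) (by dsimp only; omega)⟩
    · rintro e (he | (⟨he, t, h5, h6, h9⟩ | ⟨he, t, h5, h6, h9⟩) | ⟨he, h9⟩)
      · exact ins_mono subset_union_left he
      · rw [mem_ins_mk h9]
        refine ⟨he, ?_, ?_⟩
        · by_cases h10 : 2 * q.1 ≤ t
          · exact Or.inr (Or.inl ⟨rfl, h10, by dsimp only; omega⟩)
          · exact Or.inl (h.ring (by dsimp only; omega) (by dsimp only; omega)
              (by dsimp only; omega) (by dsimp only; omega) (by dsimp only; omega))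
        · exact Or.inr (Or.inl ⟨rfl, by dsimp only; omega, by dsimp only; omega⟩)
      · rw [mem_ins_mk h9]
        refine ⟨he, ?_, ?_⟩
        · exact Or.inr (Or.inr ⟨rfl, by dsimp only; omega, by dsimp only; omega⟩)
        · by_cases h10 : t + 1 < 2 * q.1 + 2 * L
          · exact Or.inr (Or.inr ⟨rfl, by dsimp only; omega, h10⟩)
          · exact Or.inl (h.ring (by dsimp only; omega) (by dsimp only; omega)
              (by dsimp only; omega) (by dsimp only; omega) (by dsimp only; omega))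
      · rw [mem_ins_mk h9]
        exact ⟨he, Or.inr (Or.inl ⟨rfl, k1, le_refl x⟩), Or.inr (Or.inr ⟨rfl, le_refl x, k2⟩)⟩
    · refine Rob.mono hctx.ind hctx.BC (X := ins T ends (pun N A))
        (subset_inter subset_union_left subset_union_left) ?_ (hctx.rob A hAF)
      rintro e ⟨-, he | (he | he) | he⟩
      · exact hT he.1
      · exact hT he.1
      · exact hT he.1
      · exact hT he.1
    · rw [inter_eq_self_of_subset_right hV]
      refine att_rk hctx.bic ?_ (hfin.subset hV) (att_hor hG (A := A) (fun z => z = y + 1)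
        (subset_inter subset_union_left subset_union_left) ?_ ?_)
      · rintro e ⟨-, he | (he | he) | he⟩ <;> exact he.1
      · rintro w (hw | ⟨h5, h6, h7⟩ | ⟨h5, h6, h7⟩) hw' hr'
        · exact absurd hw hw'
        · have h10 : 2 * q.2 ≤ w.2 := by
            by_contra h11
            exact hw' (h.ring (by omega) (by omega) (by omega) (by omega) (by omega))
          obtain ⟨e, he, hee⟩ := hG.surj (w.1 - 1, w.2) w
            (Or.inr ⟨rfl, Or.inl (by dsimp only; omega)⟩)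
            (by simp only [rect, mem_ofPred_eq]; omega)
            (by simp only [rect, mem_ofPred_eq]; omega)
          have h12 : ends e = s((w.1 - 1, w.2), (w.1 - 1 + 1, w.2)) := by
            rw [hee]
            congr 1
            exact Prod.ext (by dsimp only; omega) rfl
          refine ⟨e, ⟨Or.inr (Or.inl ⟨he, w.1 - 1, w.2, by omega, by omega, by omega, by omega,
            h12⟩), Or.inr (Or.inl (Or.inl ⟨he, w.1 - 1, by omega, by omega, ?_⟩))⟩,
            by rw [hee, Sym2.eq_swap], by omega⟩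
          rw [← h5]
          exact h12
        · exact absurd h5 hr'
      · rintro w (hw | ⟨h5, h6, h7⟩ | ⟨h5, h6, h7⟩) hw' hr'
        · exact absurd hw hw'
        · exact absurd (h5.symm.trans hr') (by omega)
        · have h10 : w.2 < 2 * q.2 + 2 * L := by
            by_contra h11
            exact hw' (h.ring (by omega) (by omega) (by omega) (by omega) (by omega))
          obtain ⟨e, he, hee⟩ := hG.surj w (w.1 + 1, w.2)
            (Or.inr ⟨rfl, Or.inl (by dsimp only)⟩)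
            (by simp only [rect, mem_ofPred_eq]; omega)
            (by simp only [rect, mem_ofPred_eq]; omega)
          refine ⟨e, ⟨Or.inr (Or.inl ⟨he, w.1, w.2, by omega, by omega, by omega, by omega,
            hee⟩), Or.inr (Or.inl (Or.inr ⟨he, w.1, by omega, by omega, ?_⟩))⟩, hee⟩
          rw [← h5]
          exact hee
    · rw [union_eq_self_of_subset_right hV]
      refine att_rk hctx.bic ?_ hfin (att_hor hG (A := A) (fun _ => False)
        (subset_union_left.trans subset_union_left) ?_ (fun _ _ _ h => absurd h (by simp)))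
      · rintro e ((he | he | he) | (he | (he | he) | he))
        · exact he.1
        · exact he.1
        · simp only [mem_iUnion, exists_prop] at he
          obtain ⟨p', hp', he, h9⟩ := he
          exact he
        · exact he.1
        · exact he.1
        · exact he.1
        · exact he.1
      · intro w hw hw' _
        have h5 : 2 * q.1 ≤ w.1 ∧ w.1 < 2 * q.1 + 2 * L ∧ 2 * q.2 ≤ w.2 ∧
            w.2 < 2 * q.2 + 2 * L := by
          rcases hw with hw | hw
          · exact absurd hw hw'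
          · exact hw
        obtain ⟨e, he, hee⟩ := hG.surj (w.1 - 1, w.2) w
          (Or.inr ⟨rfl, Or.inl (by dsimp only; omega)⟩)
          (by simp only [rect, mem_ofPred_eq]; omega) (by simp only [rect, mem_ofPred_eq]; omega)
        refine ⟨e, ?_, by rw [hee, Sym2.eq_swap], by omega⟩
        have h6 : ends e = s((w.1 - 1, w.2), (w.1 - 1 + 1, w.2)) := by
          rw [hee]
          congr 1
          exact Prod.ext (by dsimp only; omega) rfl
        exact Or.inl (Or.inr (Or.inl ⟨he, w.1 - 1, w.2, by omega, by omega, by omega, by omega,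
          h6⟩))

/-- every element inside is horizontal or vertical -/
lemma final_step [M.Finite] (hctx : Ctx M C T B ends N F) (hAF : A.card ≤ F) (h : Sit N L q A)
    (hc : c ∈ C \ B) (h0 : ¬ Vis M C B (ins T ends (pun N A) ∪
      hors T ends (2 * q.2) (2 * q.2 + 2 * L) (2 * q.1 - 1) (2 * q.1 + 2 * L)) c)
    (hver : ∀ x y, 2 * q.1 ≤ x → x < 2 * q.1 + 2 * L → 2 * q.2 ≤ y + 1 →
      y < 2 * q.2 + 2 * L → ¬ Vis M C B (ins T ends (pun N A) ∪
      (hor T ends y (2 * q.1 - 1) x ∪ hor T ends (y + 1) x (2 * q.1 + 2 * L) ∪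
        ver T ends (x, y))) c) :
    ¬ Vis M C B (ins T ends (pun N A ∪ csq q L)) c := by
  intro h1
  have hall := step_ver hctx hAF h hc h0 hver
    ((Finset.range (2 * q.1 + 2 * L) ×ˢ Finset.range (2 * q.2 + 2 * L)).filter
      fun p => 2 * q.1 ≤ p.1 ∧ 2 * q.2 ≤ p.2 + 1) (by
      intro p hp
      simp only [Finset.mem_filter, Finset.mem_product, Finset.mem_range] at hp
      omega)
  apply hall
  refine Vis.mono ?_ h1
  intro e he
  obtain ⟨p, p', hpp, hadj, -, -⟩ := hctx.grd.mem e he.1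
  rw [mem_ins_mk hpp] at he
  obtain ⟨heT, hp, hp'⟩ := he
  by_cases hO : p ∈ pun N A ∧ p' ∈ pun N A
  · exact Or.inl ((mem_ins_mk hpp).2 ⟨heT, hO.1, hO.2⟩)
  right
  have hsq : (2 * q.1 ≤ p.1 ∧ p.1 < 2 * q.1 + 2 * L ∧ 2 * q.2 ≤ p.2 ∧
      p.2 < 2 * q.2 + 2 * L) ∨ (2 * q.1 ≤ p'.1 ∧ p'.1 < 2 * q.1 + 2 * L ∧ 2 * q.2 ≤ p'.2 ∧
      p'.2 < 2 * q.2 + 2 * L) := by
    by_contra hn
    push Not at hn
    apply hO
    constructor
    · rcases hp with hp | ⟨k1, k2, k3, k4⟩
      · exact hp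
      · exact absurd k4 (not_lt.2 (hn.1 k1 k2 k3))
    · rcases hp' with hp | ⟨k1, k2, k3, k4⟩
      · exact hp
      · exact absurd k4 (not_lt.2 (hn.2 k1 k2 k3))
  rcases hadj with ⟨h2, h3⟩ | ⟨h2, h3⟩
  · right
    simp only [mem_iUnion, exists_prop]
    rcases h3 with h3 | h3
    · refine ⟨p, ?_, heT, ?_⟩
      · simp only [Finset.mem_filter, Finset.mem_product, Finset.mem_range]
        omega
      · rw [hpp]
        congr 1
        exact Prod.ext h2.symm h3.symm
    · refine ⟨p', ?_, heT, ?_⟩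
      · simp only [Finset.mem_filter, Finset.mem_product, Finset.mem_range]
        omega
      · rw [hpp, Sym2.eq_swap]
        congr 1
        exact Prod.ext h2 h3.symm
  · left
    rcases h3 with h3 | h3
    · refine ⟨heT, p.1, p.2, by omega, by omega, by omega, by omega, ?_⟩
      rw [hpp]
      congr 1
      exact Prod.ext h3.symm h2.symm
    · refine ⟨heT, p'.1, p'.2, by omega, by omega, by omega, by omega, ?_⟩
      rw [hpp, Sym2.eq_swap]
      congr 1
      exact Prod.ext h3.symm h2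

/-- **Row Q (corrected form).** -/
theorem cross [M.Finite] (hctx : Ctx M C T B ends N F) (hAF : A.card ≤ F) (h : Sit N L q A)
    (hc : c ∈ C \ B) (h0 : ¬ Vis M C B (ins T ends (pun N A)) c)
    (h1 : Vis M C B (ins T ends (pun N A ∪ csq q L)) c) :
    ∃ (v : ℕ → ℕ × ℕ) (n : ℕ), CrossPath (q.1 - 1, q.2 - 1) (L + 2) v n ∧
      Vis M C B (ins T ends (pun N A) ∪ pthE T ends v n) c := by
  by_contra hcon
  push Not at hcon
  have hrows := step_rows hctx hAF h hc h0 (by
    intro y h2 h3 hv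
    exact hcon _ _ (crossPath_vr h h2 h3)
      (Vis.mono (union_subset_union_right _ (hor_sub_vr h y)) hv)) (2 * L) (le_refl _)
  exact final_step hctx hAF h hc hrows (by
    intro x y h2 h3 h4 h5 hv
    exact hcon _ _ (crossPath_vs h h2 h3 h4 h5) (Vis.mono (union_subset_union_right _
      (union_subset (union_subset (hor_sub_vs_left h h3) (hor_sub_vs_right h h2))
        (ver_sub_vs h h2 h3))) hv)) h1

end cross

end CWL.Cr
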