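import Pool.Agent.CW.Cross
import Pool.Agent.CW.Defs2

/-!
# Row Q of Theorem CW, final form: the path is unbalanced over the grid without the ring
-/

open Set BIC BICS
open scoped Matroid

namespace CWL.Cr

variable {α : Type*} {M : Matroid α} {C T B : Set α} {ends : α → Sym2 (ℕ × ℕ)} {N F L : ℕ}
  {q : ℕ × ℕ} {A A' : Finset (ℕ × ℕ)} {c : α}

/-- attachment with horizontal edges, the direction depends on the vertex -/
lemma att_dir [Nonempty α] (hG : Grd T ends 0 0 (2 * N) (2 * N)) {A : Finset (ℕ × ℕ)}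
    {Z : Set α} {W : Set (ℕ × ℕ)} (r : ℕ × ℕ → Prop) (hZ : ins T ends (pun N A) ⊆ Z)
    (hl : ∀ w ∈ W, w ∉ pun N A → ¬ r w → ∃ e ∈ Z, ends e = s(w, (w.1 - 1, w.2)) ∧ 1 ≤ w.1)
    (hr : ∀ w ∈ W, w ∉ pun N A → r w → ∃ e ∈ Z, ends e = s(w, (w.1 + 1, w.2)))
    (hcr : ∀ w ∈ W, w ∉ pun N A → ∀ w' ∈ W, w' ∉ pun N A → ¬ r w → r w' → w.2 = w'.2 →
      w.1 ≠ w'.1 + 1) : Att ends Z W := by
  classical
  apply att_of_nbr (fun w => if w ∈ pun N A then nb w else if r w then (w.1 + 1, w.2)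
    else (w.1 - 1, w.2))
  · intro w hw
    by_cases h1 : w ∈ pun N A
    · obtain ⟨e, he, hee⟩ := att_pun hG A w h1
      exact ⟨e, hZ he, by rw [if_pos h1]; exact hee⟩
    · by_cases h2 : r w
      · obtain ⟨e, he, hee⟩ := hr w hw h1 h2
        exact ⟨e, he, by rw [if_neg h1, if_pos h2]; exact hee⟩
      · obtain ⟨e, he, hee, -⟩ := hl w hw h1 h2
        exact ⟨e, he, by rw [if_neg h1, if_neg h2]; exact hee⟩
  · intro w hw w' hw' h1 h2
    by_cases h3 : w ∈ pun N A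
    · rw [if_pos h3] at h1
      have h4 : w' ∈ pun N A := by rw [← h1]; exact nb_pun h3
      rw [if_pos h4] at h2
      rw [← h1] at h2
      exact absurd h2 nb_nb
    · by_cases h4 : w' ∈ pun N A
      · rw [if_pos h4] at h2
        exact absurd (by rw [← h2]; exact nb_pun h4) h3
      rw [if_neg h3] at h1
      rw [if_neg h4] at h2
      by_cases h5 : r w
      · rw [if_pos h5] at h1
        have h6 : w'.2 = w.2 := by rw [← h1]
        have h7 : w'.1 = w.1 + 1 := by rw [← h1]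
        by_cases h9 : r w'
        · rw [if_pos h9] at h2
          have h8 : w'.1 + 1 = w.1 := by rw [← h2]
          omega
        · exact absurd h7 (hcr w' hw' h4 w hw h3 h9 h5 h6)
      · rw [if_neg h5] at h1
        obtain ⟨-, -, -, h10⟩ := hl w hw h3 h5
        have h6 : w'.2 = w.2 := by rw [← h1]
        have h7 : w'.1 = w.1 - 1 := by rw [← h1]
        by_cases h9 : r w'
        · exact absurd (by omega) (hcr w hw h3 w' hw' h4 h5 h9 h6.symm)
        · rw [if_neg h9] at h2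
          have h8 : w'.1 - 1 = w.1 := by rw [← h2]
          omega

/-- a path whose vertices in the ring form two end segments -/
lemma pers [M.Finite] (hctx : Ctx M C T B ends N F) (hAF : A'.card ≤ F)
    (hsub : pun N A' ⊆ pun N A) (hc : c ∈ C \ B) {P : Set α} {W : Set (ℕ × ℕ)} (hW : W.Finite)
    (hP : P ⊆ ins T ends (pun N A' ∪ W)) (r : ℕ × ℕ → Prop)
    (hl : ∀ w ∈ W, ¬ r w → ∃ e ∈ P, ends e = s(w, (w.1 - 1, w.2)) ∧ 1 ≤ w.1 ∧
      (w ∈ pun N A → (w.1 - 1, w.2) ∈ pun N A))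
    (hr : ∀ w ∈ W, r w → ∃ e ∈ P, ends e = s(w, (w.1 + 1, w.2)) ∧
      (w ∈ pun N A → (w.1 + 1, w.2) ∈ pun N A))
    (hcr : ∀ w ∈ W, ∀ w' ∈ W, ¬ r w → r w' → w.2 = w'.2 → w.1 ≠ w'.1 + 1)
    (h0 : ¬ Vis M C B (ins T ends (pun N A)) c)
    (h1 : ¬ Vis M C B (ins T ends (pun N A') ∪ P) c) :
    ¬ Vis M C B (ins T ends (pun N A) ∪ P) c := by
  have : Nonempty α := ⟨c⟩
  have hT := hctx.sub
  have hG := hctx.grd
  have hins : ins T ends (pun N A') ⊆ ins T ends (pun N A) := ins_mono hsub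
  intro hv
  refine glue hctx.ind hT hctx.bic hctx.BC hc (V₁ := pun N A' ∪ W) (V₂ := pun N A)
    ((pun_fin N A').union hW) (pun_fin N A) ?_ subset_rfl ?_ ?_ ?_ h1 h0
    (Vis.mono (union_subset subset_union_right (subset_union_right.trans subset_union_left)) hv)
  · exact union_subset (ins_mono subset_union_left) hP
  · refine Rob.mono hctx.ind hctx.BC (X := ins T ends (pun N A'))
      (subset_inter subset_union_left hins) ?_ (hctx.rob A' hAF)
    rintro e ⟨-, he⟩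
    exact hT he.1
  · refine att_rk hctx.bic (fun e he => he.2.1) ((pun_fin N A).subset inter_subset_right) ?_
    refine att_dir hG (A := A') r (subset_inter subset_union_left hins) ?_ ?_ ?_
    · rintro w ⟨hw | hw, hw2⟩ hw3 hw4
      · exact absurd hw hw3
      · obtain ⟨e, he, hee, h5, h6⟩ := hl w hw hw4
        exact ⟨e, ⟨Or.inr he, (mem_ins_mk hee).2 ⟨(hP he).1, hw2, h6 hw2⟩⟩, hee, h5⟩
    · rintro w ⟨hw | hw, hw2⟩ hw3 hw4
      · exact absurd hw hw3
      · obtain ⟨e, he, hee, h6⟩ := hr w hw hw4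
        exact ⟨e, ⟨Or.inr he, (mem_ins_mk hee).2 ⟨(hP he).1, hw2, h6 hw2⟩⟩, hee⟩
    · rintro w ⟨hw | hw, hw2⟩ hw3 w' ⟨hw' | hw', hw2'⟩ hw3'
      · exact absurd hw hw3
      · exact absurd hw hw3
      · exact absurd hw' hw3'
      · exact hcr w hw w' hw'
  · refine att_rk hctx.bic ?_ (((pun_fin N A').union hW).union (pun_fin N A)) ?_
    · rintro e ((he | he) | he)
      · exact he.1
      · exact (hP he).1
      · exact he.1
    · refine att_dir hG (A := A) r subset_union_right ?_ ?_ ?_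
      · rintro w ((hw | hw) | hw) hw3 hw4
        · exact absurd (hsub hw) hw3
        · obtain ⟨e, he, hee, h5, -⟩ := hl w hw hw4
          exact ⟨e, Or.inl (Or.inr he), hee, h5⟩
        · exact absurd hw hw3
      · rintro w ((hw | hw) | hw) hw3 hw4
        · exact absurd (hsub hw) hw3
        · obtain ⟨e, he, hee, -⟩ := hr w hw hw4
          exact ⟨e, Or.inl (Or.inr he), hee⟩
        · exact absurd hw hw3
      · rintro w ((hw | hw) | hw) hw3 w' ((hw' | hw') | hw') hw3'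
        · exact absurd (hsub hw) hw3
        · exact absurd (hsub hw) hw3
        · exact absurd (hsub hw) hw3
        · exact absurd (hsub hw') hw3'
        · exact hcr w hw w' hw'
        · exact absurd hw' hw3'
        · exact absurd hw hw3
        · exact absurd hw hw3
        · exact absurd hw hw3

/-- two rings around the square are not removed; `A'` is `A` and the first ring -/
structure Sit2 (N L : ℕ) (q : ℕ × ℕ) (A A' : Finset (ℕ × ℕ)) : Prop where
  q1 : 2 ≤ q.1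
  q2 : 2 ≤ q.2
  h1 : q.1 + L + 2 ≤ N
  h2 : q.2 + L + 2 ≤ N
  hA : ∀ i ∈ rect (q.1 - 2) (q.2 - 2) (L + 4) (L + 4), i ∈ A ↔ i ∈ rect q.1 q.2 L L
  hA' : ∀ i, i ∈ A' ↔ i ∈ A ∨ i ∈ rect (q.1 - 1) (q.2 - 1) (L + 2) (L + 2)

lemma Sit2.sit (h : Sit2 N L q A A') : Sit N L q A := by
  refine ⟨h.q1, h.q2, h.h1, h.h2, fun i hi => h.hA i ?_⟩
  have := h.q1
  have := h.q2
  simp only [rect, mem_ofPred_eq] at hi ⊢
  omega

lemma Sit2.sub (h : Sit2 N L q A A') : pun N A' ⊆ pun N A := by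
  intro v hv
  rw [mem_pun] at hv ⊢
  refine ⟨hv.1, hv.2.1, fun h1 => hv.2.2 ?_⟩
  rw [h.hA']
  exact Or.inl h1

lemma Sit2.ring (h : Sit2 N L q A A') {v : ℕ × ℕ} (h1 : 2 * q.1 ≤ v.1 + 4)
    (h2 : v.1 < 2 * q.1 + 2 * L + 4) (h3 : 2 * q.2 ≤ v.2 + 4) (h4 : v.2 < 2 * q.2 + 2 * L + 4)
    (h5 : ¬ (2 * q.1 ≤ v.1 ∧ v.1 < 2 * q.1 + 2 * L ∧ 2 * q.2 ≤ v.2 ∧ v.2 < 2 * q.2 + 2 * L)) :
    v ∈ pun N A := by
  have := h.q1
  have := h.q2
  have := h.h1
  have := h.h2
  rw [mem_pun]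
  refine ⟨by omega, by omega, fun hv => ?_⟩
  have h6 := (h.hA (v.1 / 2, v.2 / 2) (by simp only [rect, mem_ofPred_eq]; omega)).1 hv
  simp only [rect, mem_ofPred_eq] at h6
  exact h5 (by omega)

lemma Sit2.ring' (h : Sit2 N L q A A') {v : ℕ × ℕ} (h1 : 2 * q.1 ≤ v.1 + 4)
    (h2 : v.1 < 2 * q.1 + 2 * L + 4) (h3 : 2 * q.2 ≤ v.2 + 4) (h4 : v.2 < 2 * q.2 + 2 * L + 4)
    (h5 : ¬ (2 * q.1 ≤ v.1 + 2 ∧ v.1 < 2 * q.1 + 2 * L + 2 ∧ 2 * q.2 ≤ v.2 + 2 ∧
      v.2 < 2 * q.2 + 2 * L + 2)) : v ∈ pun N A' := by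
  have := h.q1
  have := h.q2
  have := h.h1
  have := h.h2
  have h7 := mem_pun.1 (h.ring h1 h2 h3 h4 (by omega))
  rw [mem_pun, h.hA']
  refine ⟨h7.1, h7.2.1, ?_⟩
  rintro (h8 | h8)
  · exact h7.2.2 h8
  · simp only [rect, mem_ofPred_eq] at h8
    exact h5 (by omega)

lemma Sit2.not_sq (h : Sit2 N L q A A') {v : ℕ × ℕ} (hv : v ∈ pun N A) :
    ¬ (2 * q.1 ≤ v.1 ∧ v.1 < 2 * q.1 + 2 * L ∧ 2 * q.2 ≤ v.2 ∧ v.2 < 2 * q.2 + 2 * L) := by
  intro h1
  have := h.q1
  have := h.q2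
  apply (mem_pun.1 hv).2.2
  rw [h.hA _ (by simp only [rect, mem_ofPred_eq]; omega)]
  simp only [rect, mem_ofPred_eq]
  omega

/-- rows -/
lemma pers_row [M.Finite] (hctx : Ctx M C T B ends N F) (hAF : A'.card ≤ F)
    (h : Sit2 N L q A A') (hc : c ∈ C \ B) {y : ℕ} (h2 : 2 * q.2 ≤ y)
    (h3 : y < 2 * q.2 + 2 * L) (h0 : ¬ Vis M C B (ins T ends (pun N A)) c)
    (h1 : ¬ Vis M C B (ins T ends (pun N A') ∪ hor T ends y (2 * q.1 - 3)
      (2 * q.1 + 2 * L + 2)) c) :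
    ¬ Vis M C B (ins T ends (pun N A) ∪ hor T ends y (2 * q.1 - 3) (2 * q.1 + 2 * L + 2)) c := by
  have hG := hctx.grd
  have k1 := h.q1
  have k2 := h.q2
  have k3 := h.h1
  have k4 := h.h2
  refine pers hctx hAF h.sub hc (W := {v | v.2 = y ∧ 2 * q.1 ≤ v.1 + 2 ∧
    v.1 < 2 * q.1 + 2 * L + 2}) ?_ ?_ (fun v => 2 * q.1 + 2 * L ≤ v.1) ?_ ?_ ?_ h0 h1
  · refine (rect_fin 0 0 (2 * q.1 + 2 * L + 2) (y + 1)).subset ?_
    rintro v ⟨h5, h6, h7⟩
    exact ⟨by omega, by omega, by omega, by omega⟩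
  · rintro e ⟨he, t, h5, h6, h9⟩
    rw [mem_ins_mk h9]
    refine ⟨he, ?_, ?_⟩
    · by_cases h10 : 2 * q.1 ≤ t + 2
      · exact Or.inr ⟨rfl, h10, by dsimp only; omega⟩
      · exact Or.inl (h.ring' (by dsimp only; omega) (by dsimp only; omega)
          (by dsimp only; omega) (by dsimp only; omega) (by dsimp only; omega))
    · by_cases h10 : t + 1 < 2 * q.1 + 2 * L + 2
      · exact Or.inr ⟨rfl, by dsimp only; omega, h10⟩
      · exact Or.inl (h.ring' (by dsimp only; omega) (by dsimp only; omega)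
          (by dsimp only; omega) (by dsimp only; omega) (by dsimp only; omega))
  · rintro w ⟨h5, h6, h7⟩ h8
    obtain ⟨e, he, hee⟩ := hG.surj (w.1 - 1, w.2) w
      (Or.inr ⟨rfl, Or.inl (by dsimp only; omega)⟩)
      (by simp only [rect, mem_ofPred_eq]; omega) (by simp only [rect, mem_ofPred_eq]; omega)
    refine ⟨e, ⟨he, w.1 - 1, by omega, by omega, ?_⟩, by rw [hee, Sym2.eq_swap], by omega, ?_⟩
    · rw [hee, ← h5]
      congr 1
      exact Prod.ext (by dsimp only; omega) rfl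
    · intro h9
      have h10 := h.not_sq h9
      exact h.ring (by dsimp only; omega) (by dsimp only; omega)
        (by dsimp only; omega) (by dsimp only; omega) (by dsimp only; omega)
  · rintro w ⟨h5, h6, h7⟩ h8
    obtain ⟨e, he, hee⟩ := hG.surj w (w.1 + 1, w.2)
      (Or.inr ⟨rfl, Or.inl (by dsimp only)⟩)
      (by simp only [rect, mem_ofPred_eq]; omega) (by simp only [rect, mem_ofPred_eq]; omega)
    refine ⟨e, ⟨he, w.1, by omega, by omega, ?_⟩, hee, ?_⟩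
    · rw [hee, ← h5]
    · intro h9
      exact h.ring (by dsimp only; omega) (by dsimp only; omega)
        (by dsimp only; omega) (by dsimp only; omega) (by dsimp only; omega)
  · rintro w ⟨h5, h6, h7⟩ w' ⟨h5', h6', h7'⟩ h8 h9 h10
    omega

/-- half row, vertical element, half row -/
lemma pers_step [M.Finite] (hctx : Ctx M C T B ends N F) (hAF : A'.card ≤ F)
    (h : Sit2 N L q A A') (hc : c ∈ C \ B) {x y : ℕ} (h2 : 2 * q.1 ≤ x)
    (h3 : x < 2 * q.1 + 2 * L) (h4 : 2 * q.2 ≤ y + 1)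
    (h5 : y < 2 * q.2 + 2 * L) (h0 : ¬ Vis M C B (ins T ends (pun N A)) c)
    (h1 : ¬ Vis M C B (ins T ends (pun N A') ∪ (hor T ends y (2 * q.1 - 3) x ∪
      hor T ends (y + 1) x (2 * q.1 + 2 * L + 2) ∪ ver T ends (x, y))) c) :
    ¬ Vis M C B (ins T ends (pun N A) ∪ (hor T ends y (2 * q.1 - 3) x ∪
      hor T ends (y + 1) x (2 * q.1 + 2 * L + 2) ∪ ver T ends (x, y))) c := by
  have hG := hctx.grd
  have k1 := h.q1
  have k2 := h.q2
  have k3 := h.h1
  have k4 := h.h2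
  refine pers hctx hAF h.sub hc (W := {v | (v.2 = y ∧ 2 * q.1 ≤ v.1 + 2 ∧ v.1 ≤ x) ∨
    (v.2 = y + 1 ∧ x ≤ v.1 ∧ v.1 < 2 * q.1 + 2 * L + 2)}) ?_ ?_ (fun v => v.2 = y + 1)
    ?_ ?_ ?_ h0 h1
  · refine (rect_fin 0 0 (2 * q.1 + 2 * L + 2) (y + 2)).subset ?_
    rintro v (⟨h5, h6, h7⟩ | ⟨h5, h6, h7⟩)
    · exact ⟨by omega, by omega, by omega, by omega⟩
    · exact ⟨by omega, by omega, by omega, by omega⟩
  · rintro e ((⟨he, t, h5, h6, h9⟩ | ⟨he, t, h5, h6, h9⟩) | ⟨he, h9⟩)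
    · rw [mem_ins_mk h9]
      refine ⟨he, ?_, ?_⟩
      · by_cases h10 : 2 * q.1 ≤ t + 2
        · exact Or.inr (Or.inl ⟨rfl, h10, by dsimp only; omega⟩)
        · exact Or.inl (h.ring' (by dsimp only; omega) (by dsimp only; omega)
            (by dsimp only; omega) (by dsimp only; omega) (by dsimp only; omega))
      · exact Or.inr (Or.inl ⟨rfl, by dsimp only; omega, by dsimp only; omega⟩)
    · rw [mem_ins_mk h9]
      refine ⟨he, Or.inr (Or.inr ⟨rfl, by dsimp only; omega, by dsimp only; omega⟩), ?_⟩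
      by_cases h10 : t + 1 < 2 * q.1 + 2 * L + 2
      · exact Or.inr (Or.inr ⟨rfl, by dsimp only; omega, h10⟩)
      · exact Or.inl (h.ring' (by dsimp only; omega) (by dsimp only; omega)
          (by dsimp only; omega) (by dsimp only; omega) (by dsimp only; omega))
    · rw [mem_ins_mk h9]
      exact ⟨he, Or.inr (Or.inl ⟨rfl, by dsimp only; omega, le_refl x⟩),
        Or.inr (Or.inr ⟨rfl, le_refl x, by dsimp only; omega⟩)⟩
  · rintro w (⟨h5, h6, h7⟩ | ⟨h5, h6, h7⟩) h8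
    · obtain ⟨e, he, hee⟩ := hG.surj (w.1 - 1, w.2) w
        (Or.inr ⟨rfl, Or.inl (by dsimp only; omega)⟩)
        (by simp only [rect, mem_ofPred_eq]; omega) (by simp only [rect, mem_ofPred_eq]; omega)
      refine ⟨e, Or.inl (Or.inl ⟨he, w.1 - 1, by omega, by omega, ?_⟩),
        by rw [hee, Sym2.eq_swap], by omega, ?_⟩
      · rw [hee, ← h5]
        congr 1
        exact Prod.ext (by dsimp only; omega) rfl
      · intro h9
        have h10 := h.not_sq h9
        exact h.ring (by dsimp only; omega) (by dsimp only; omega)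
          (by dsimp only; omega) (by dsimp only; omega) (by dsimp only; omega)
    · exact absurd h5 h8
  · rintro w (⟨h5, h6, h7⟩ | ⟨h5, h6, h7⟩) h8
    · omega
    · obtain ⟨e, he, hee⟩ := hG.surj w (w.1 + 1, w.2)
        (Or.inr ⟨rfl, Or.inl (by dsimp only)⟩)
        (by simp only [rect, mem_ofPred_eq]; omega) (by simp only [rect, mem_ofPred_eq]; omega)
      refine ⟨e, Or.inl (Or.inr ⟨he, w.1, by omega, by omega, ?_⟩), hee, ?_⟩
      · rw [hee, ← h5]
      · intro h9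
        have h10 := h.not_sq h9
        exact h.ring (by dsimp only; omega) (by dsimp only; omega)
          (by dsimp only; omega) (by dsimp only; omega) (by dsimp only; omega)
  · rintro w _ w' _ h8 h9 h10
    omega

lemma hor_sub_vr2 (h : Sit N L q A) (y : ℕ) :
    hor T ends y (2 * q.1 - 3) (2 * q.1 + 2 * L + 2) ⊆ pthE T ends (vr q y) (2 * L + 5) := by
  have := h.q1
  rintro e ⟨he, t, h1, h2, hee⟩
  refine ⟨he, t - (2 * (q.1 - 1) - 1), by omega, ?_⟩
  rw [hee]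
  simp only [vr]
  congr 2 <;> omega

lemma hor_sub_vs_left2 (h : Sit N L q A) {x y : ℕ} (h0' : x < 2 * q.1 + 2 * L) :
    hor T ends y (2 * q.1 - 3) x ⊆ pthE T ends (vs q x y) (2 * L + 6) := by
  have := h.q1
  rintro e ⟨he, t, h1, h2, hee⟩
  refine ⟨he, t - (2 * (q.1 - 1) - 1), by omega, ?_⟩
  rw [hee]
  simp only [vs]
  rw [if_pos (by omega), if_pos (by omega)]
  congr 2 <;> omega

lemma hor_sub_vs_right2 (h : Sit N L q A) {x y : ℕ} (h0 : 2 * q.1 ≤ x) :
    hor T ends (y + 1) x (2 * q.1 + 2 * L + 2) ⊆ pthE T ends (vs q x y) (2 * L + 6) := by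
  have := h.q1
  rintro e ⟨he, t, h1, h2, hee⟩
  refine ⟨he, t - (2 * (q.1 - 1) - 1) + 1, by omega, ?_⟩
  rw [hee]
  simp only [vs]
  rw [if_neg (by omega), if_neg (by omega)]
  congr 2 <;> omega

lemma hor_mono {y a b a' b' : ℕ} (h : a' ≤ a) (h' : b ≤ b') :
    hor T ends y a b ⊆ hor T ends y a' b' := by
  rintro e ⟨he, t, h1, h2, hee⟩
  exact ⟨he, t, by omega, by omega, hee⟩

/-- **Row Q**: the unbalanced path over the grid without the ring. -/
theorem cross2 [M.Finite] (hctx : Ctx M C T B ends N F) (hAF : A.card ≤ F) (hAF' : A'.card ≤ F)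
    (h : Sit2 N L q A A') (hc : c ∈ C \ B) (h0 : ¬ Vis M C B (ins T ends (pun N A)) c)
    (h1 : Vis M C B (ins T ends (pun N A ∪ csq q L)) c) :
    ∃ (v : ℕ → ℕ × ℕ) (n : ℕ), CrossPath (q.1 - 1, q.2 - 1) (L + 2) v n ∧
      Vis M C B (ins T ends (pun N A') ∪ pthE T ends v n) c := by
  by_contra hcon
  push Not at hcon
  have hs := h.sit
  have hrow : ∀ y, 2 * q.2 ≤ y → y < 2 * q.2 + 2 * L → ¬ Vis M C B (ins T ends (pun N A) ∪
      hor T ends y (2 * q.1 - 3) (2 * q.1 + 2 * L + 2)) c := by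
    intro y h2 h3
    refine pers_row hctx hAF' h hc h2 h3 h0 fun hv => ?_
    exact hcon _ _ (crossPath_vr hs h2 h3)
      (Vis.mono (union_subset_union_right _ (hor_sub_vr2 hs y)) hv)
  have hstep : ∀ x y, 2 * q.1 ≤ x → x < 2 * q.1 + 2 * L → 2 * q.2 ≤ y + 1 →
      y < 2 * q.2 + 2 * L → ¬ Vis M C B (ins T ends (pun N A) ∪
      (hor T ends y (2 * q.1 - 3) x ∪ hor T ends (y + 1) x (2 * q.1 + 2 * L + 2) ∪
        ver T ends (x, y))) c := by
    intro x y h2 h3 h4 h5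
    refine pers_step hctx hAF' h hc h2 h3 h4 h5 h0 fun hv => ?_
    exact hcon _ _ (crossPath_vs hs h2 h3 h4 h5) (Vis.mono (union_subset_union_right _
      (union_subset (union_subset (hor_sub_vs_left2 hs h3) (hor_sub_vs_right2 hs h2))
        (ver_sub_vs hs h2 h3))) hv)
  have hrows := step_rows hctx hAF hs hc h0 (by
    intro y h2 h3 hv
    exact hrow y h2 h3 (Vis.mono (union_subset_union_right _
      (hor_mono (by omega) (by omega))) hv)) (2 * L) (le_refl _)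
  exact final_step hctx hAF hs hc hrows (by
    intro x y h2 h3 h4 h5 hv
    exact hstep x y h2 h3 h4 h5 (Vis.mono (union_subset_union_right _
      (union_subset_union_left _ (union_subset_union (hor_mono (by omega) (by omega))
        (hor_mono (by omega) (by omega))))) hv)) h1

theorem crossStmt2 : CrossStmt2 := by
  intro α M _ C T B ends N F L q A A' c hctx hAF' _ hq1 hq2 hN1 hN2 hA hA' hc h0 h1
  have hsub : A ⊆ A' := fun i hi => (hA' i).2 (Or.inl hi)
  exact cross2 hctx ((Finset.card_le_card hsub).trans hAF') hAF' ⟨hq1, hq2, hN1, hN2, hA, hA'⟩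
    hc h0 h1

end CWL.Cr
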