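import Pool.Agent.Helper47.DS.Defs

/-!
# Theorem CW (clean subdivided wall) for MP_5165fa (Geelen): definitions and statements of the rows

Page MP_5165fa_co_CW_h53.md.  `C` is independent, `(M ／ C) | T` is the bicircular matroid of a big
plain grid; `B ⊆ C` is deleted, the rest of `C` is contracted.
-/

open Set BIC BICS
open scoped Matroid

namespace CWL

universe u

variable {α : Type*}

/-- `c` is seen by `X` when `B` is deleted and the rest of `C` is contracted. -/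
def Vis (M : Matroid α) (C B X : Set α) (c : α) : Prop :=
  c ∈ M.closure (X ∪ (C \ insert c B))

/-- the locations of `z` over `S` -/
def Loc {V : Type*} (P : Matroid α) (S : Set α) (ends : α → Sym2 V) (z : α) : Set V :=
  {v | z ∉ P.closure (ins S ends {v}ᶜ)}

/-- the `2 × 2` cell number `i` -/
def cl2 (i : ℕ × ℕ) : Set (ℕ × ℕ) := rect (2 * i.1) (2 * i.2) 2 2

/-- the square of `s × s` cells with corner cell `q` -/
def csq (q : ℕ × ℕ) (s : ℕ) : Set (ℕ × ℕ) := rect (2 * q.1) (2 * q.2) (2 * s) (2 * s)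

/-- the grid with `N × N` cells without the cells of `A` -/
def pun (N : ℕ) (A : Finset (ℕ × ℕ)) : Set (ℕ × ℕ) := csq (0, 0) N \ ⋃ i ∈ A, cl2 i

/-- the standing assumptions; `B` is seen completely by everything that contains all but `F`
cells -/
structure Ctx (M : Matroid α) (C T B : Set α) (ends : α → Sym2 (ℕ × ℕ)) (N F : ℕ) : Prop where
  ind : M.Indep C
  sub : T ⊆ M.E \ C
  bic : Bic (M ／ C) T ends
  grd : Grd T ends 0 0 (2 * N) (2 * N)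
  BC : B ⊆ C
  rob : ∀ A : Finset (ℕ × ℕ), A.card ≤ F →
    rk (M ／ C) (ins T ends (pun N A)) + B.ncard ≤ rk (M ／ (C \ B)) (ins T ends (pun N A))

/-- squares with corners `p`, `q` and sides `s`, `t` are at distance at least `δ` -/
def Far (δ : ℕ) (p : ℕ × ℕ) (s : ℕ) (q : ℕ × ℕ) (t : ℕ) : Prop :=
  p.1 + s + δ ≤ q.1 ∨ q.1 + t + δ ≤ p.1 ∨ p.2 + s + δ ≤ q.2 ∨ q.2 + t + δ ≤ p.2

/-- ROW A (helper53). Essentially independent sets over punctured grids. -/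
def EssPun (k : ℕ) : Prop :=
  ∃ κ : ℕ, ∀ f : ℕ → ℕ, ∃ β N₀ : ℕ, ∀ N ≥ N₀, ∀ {α : Type u} (M : Matroid α) [M.Finite]
    (C T : Set α) (ends : α → Sym2 (ℕ × ℕ)), M.Indep C → T ⊆ M.E \ C → Bic (M ／ C) T ends →
    Grd T ends 0 0 (2 * N) (2 * N) →
    HasUniformMinor M k ∨ ∃ B ⊆ C, B.ncard ≤ κ ∧ ∃ b ≤ β, Ctx M C T B ends N (f b) ∧
      ∀ c ∈ C \ B, ∃ A : Finset (ℕ × ℕ), A.card ≤ b ∧ ¬ Vis M C B (ins T ends (pun N A)) c

/-- the vertices of the `4 × 4` blocks with corner cells in `P` -/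
def blks (P : Finset (ℕ × ℕ)) : Set (ℕ × ℕ) := ⋃ p ∈ P, csq p 2

/-- ROW G (helper53). A bounded group of far apart blocks which sees all of `B`, away from `A₀`. -/
def GroupStmt : Prop :=
  ∀ κ δ : ℕ, ∃ γ : ℕ, ∀ F : ℕ, ∀ {α : Type u} (M : Matroid α) [M.Finite] (C T B : Set α)
    (ends : α → Sym2 (ℕ × ℕ)) (N : ℕ), Ctx M C T B ends N (γ * (F + 1)) → B.ncard ≤ κ →
    ∀ A₀ : Finset (ℕ × ℕ), A₀.card ≤ F → ∃ P : Finset (ℕ × ℕ), P.card ≤ κ ∧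
      (∀ p ∈ P, p.1 + 2 ≤ N ∧ p.2 + 2 ≤ N ∧ ∀ i ∈ A₀, Far δ p 2 i 1) ∧
      (∀ p ∈ P, ∀ q ∈ P, p ≠ q → Far δ p 2 q 2) ∧
      rk (M ／ C) (ins T ends (blks P)) + B.ncard ≤ rk (M ／ (C \ B)) (ins T ends (blks P))

/-- ROW K. Clusters: one of `b + 1` scales fits. -/
def ClusterStmt : Prop :=
  ∀ (b : ℕ) (g : ℕ → ℕ), ∃ sc : ℕ → ℕ, (∀ j, 1 ≤ sc j) ∧ ∀ A : Finset (ℕ × ℕ), A.card ≤ b →
    ∃ j ≤ b, ∃ Q : Finset (ℕ × ℕ), Q.card ≤ b ∧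
      (∀ q ∈ Q, ∀ r ∈ Q, q ≠ r → Far (g (sc j)) q (sc j) r (sc j)) ∧
      ∀ i ∈ A, ∃ q ∈ Q, i ∈ rect q.1 q.2 (sc j) (sc j)

/-- the elements of `T` between consecutive vertices of a path -/
def pthE (T : Set α) (ends : α → Sym2 (ℕ × ℕ)) (v : ℕ → ℕ × ℕ) (n : ℕ) : Set α :=
  {e | e ∈ T ∧ ∃ i < n, ends e = s(v i, v (i + 1))}

/-- `v` is a path of length `n` through the square `csq q L` from its left to its right side -/
structure CrossPath (q : ℕ × ℕ) (L : ℕ) (v : ℕ → ℕ × ℕ) (n : ℕ) : Prop where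
  two : 2 ≤ n
  inj : InjOn v (Iic n)
  adj : ∀ i < n, adj (v i) (v (i + 1))
  left : ∃ a < 2 * L, v 0 = (2 * q.1 - 1, 2 * q.2 + a)
  right : ∃ a < 2 * L, v n = (2 * q.1 + 2 * L, 2 * q.2 + a)
  mid : ∀ i, 0 < i → i < n → v i ∈ csq q L

/-- ROW Q. A removed square (its surroundings are not removed) which makes `c` visible contains an
unbalanced path from its left to its right side (rows, and two half rows joined by one vertical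
edge, are enough). -/
def CrossStmt : Prop :=
  ∀ {α : Type u} (M : Matroid α) [M.Finite] (C T B : Set α) (ends : α → Sym2 (ℕ × ℕ))
    (N F L : ℕ) (q : ℕ × ℕ) (A : Finset (ℕ × ℕ)) (c : α), Ctx M C T B ends N F → A.card ≤ F →
    1 ≤ L → 1 ≤ q.1 → 1 ≤ q.2 → q.1 + L + 1 ≤ N → q.2 + L + 1 ≤ N →
    (∀ i ∈ rect (q.1 - 1) (q.2 - 1) (L + 2) (L + 2), i ∈ A ↔ i ∈ rect q.1 q.2 L L) →
    c ∈ C \ B → ¬ Vis M C B (ins T ends (pun N A)) c →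
    Vis M C B (ins T ends (pun N A ∪ csq q L)) c →
    ∃ (v : ℕ → ℕ × ℕ) (n : ℕ), CrossPath q L v n ∧
      Vis M C B (ins T ends (pun N A) ∪ pthE T ends v n) c

/-- `c` has at most one hole in the block of `n × n` cells with corner cell `X`; outside of the
block it is not seen outside of `b` cells. -/
def Hole (M : Matroid α) (C T B : Set α) (ends : α → Sym2 (ℕ × ℕ)) (N : ℕ) (X : ℕ × ℕ)
    (n L b : ℕ) (c : α) : Prop :=
  ∃ (q : ℕ × ℕ) (A : Finset (ℕ × ℕ)), A.card ≤ b ∧ (∀ i ∈ A, Disjoint (cl2 i) (csq X n)) ∧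
    ¬ Vis M C B (ins T ends (pun N A \ csq q L)) c

/-- ROW F. In a big block every `c` has at most one hole. -/
def FineStmt (k : ℕ) : Prop :=
  ∀ κ b : ℕ, ∃ F L b' : ℕ, ∀ n : ℕ, ∃ N₀ : ℕ, ∀ N ≥ N₀, ∀ {α : Type u} (M : Matroid α)
    [M.Finite] (C T B : Set α) (ends : α → Sym2 (ℕ × ℕ)), Ctx M C T B ends N F → B.ncard ≤ κ →
    (∀ c ∈ C \ B, ∃ A : Finset (ℕ × ℕ), A.card ≤ b ∧ ¬ Vis M C B (ins T ends (pun N A)) c) →
    HasUniformMinor M k ∨ ∃ X : ℕ × ℕ, X.1 + n ≤ N ∧ X.2 + n ≤ N ∧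
      ∀ c ∈ C \ B, Hole M C T B ends N X n L b' c

/-- the segments of the brick wall: `(true, i, j)` horizontal, `(false, i, j)` vertical -/
def Seg (y : ℕ) : Set (Bool × ℕ × ℕ) :=
  {s | (s.1 = true ∧ s.2.1 < y ∧ s.2.2 ≤ y) ∨
    (s.1 = false ∧ s.2.1 ≤ y ∧ s.2.2 < y ∧ (s.2.1 + s.2.2) % 2 = 0)}

/-- the elements of a segment of the brick wall with corner `X` and scale `l` -/
def segE (T : Set α) (ends : α → Sym2 (ℕ × ℕ)) (X : ℕ × ℕ) (l : ℕ) (s : Bool × ℕ × ℕ) : Set α :=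
  {e | e ∈ T ∧ ∃ t < l, (s.1 = true ∧ ends e = s((X.1 + s.2.1 * l + t, X.2 + s.2.2 * l),
      (X.1 + s.2.1 * l + t + 1, X.2 + s.2.2 * l))) ∨
    (s.1 = false ∧ ends e = s((X.1 + s.2.1 * l, X.2 + s.2.2 * l + t),
      (X.1 + s.2.1 * l, X.2 + s.2.2 * l + t + 1)))}

/-- the brick wall -/
def wallE (T : Set α) (ends : α → Sym2 (ℕ × ℕ)) (X : ℕ × ℕ) (l y : ℕ) : Set α :=
  ⋃ s ∈ Seg y, segE T ends X l s

/-- the conclusion of CW -/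
def Cw (M : Matroid α) (C T B : Set α) (ends : α → Sym2 (ℕ × ℕ)) (X : ℕ × ℕ) (l y : ℕ) : Prop :=
  ∀ c ∈ C \ B, ¬ Vis M C B (wallE T ends X l y) c ∨
    ∃ s ∈ Seg y, ∀ r ∈ segE T ends X l s, ¬ Vis M C B (wallE T ends X l y \ {r}) c

/-- ROW W. The coarse wall. -/
def CoarseStmt (k : ℕ) : Prop :=
  ∀ κ L b : ℕ, ∃ F : ℕ, ∀ y : ℕ, ∃ l n : ℕ, 1 ≤ l ∧ ∀ {α : Type u} (M : Matroid α) [M.Finite]
    (C T B : Set α) (ends : α → Sym2 (ℕ × ℕ)) (N : ℕ), Ctx M C T B ends N F → B.ncard ≤ κ →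
    ∀ X : ℕ × ℕ, X.1 + n ≤ N → X.2 + n ≤ N → (∀ c ∈ C \ B, Hole M C T B ends N X n L b c) →
    HasUniformMinor M k ∨ ∃ Z : ℕ × ℕ, Z.1 + l * y < 2 * N ∧ Z.2 + l * y < 2 * N ∧
      Cw M C T B ends Z l y

/-- THEOREM CW. -/
def CwStmt (k : ℕ) : Prop :=
  ∃ κ : ℕ, ∀ y : ℕ, ∃ N₀ : ℕ, ∀ N ≥ N₀, ∀ {α : Type u} (M : Matroid α) [M.Finite]
    (C T : Set α) (ends : α → Sym2 (ℕ × ℕ)), M.Indep C → T ⊆ M.E \ C → Bic (M ／ C) T ends →
    Grd T ends 0 0 (2 * N) (2 * N) →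
    HasUniformMinor M k ∨ ∃ B ⊆ C, B.ncard ≤ κ ∧ ∃ (Z : ℕ × ℕ) (l : ℕ), 1 ≤ l ∧
      Z.1 + l * y < 2 * N ∧ Z.2 + l * y < 2 * N ∧ Cw M C T B ends Z l y

/-! ### Gadgets over a grid with holes -/

/-- `S` carries exactly the edges of the grid on the vertex set `U`. -/
structure GrdU (S : Set α) (ends : α → Sym2 (ℕ × ℕ)) (U : Set (ℕ × ℕ)) : Prop where
  inj : InjOn ends S
  mem : ∀ e ∈ S, ∃ p q, ends e = s(p, q) ∧ adj p q ∧ p ∈ U ∧ q ∈ U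
  surj : ∀ p q, adj p q → p ∈ U → q ∈ U → ∃ e ∈ S, ends e = s(p, q)

/-- the foot of the hole with corner `q` and side `L`: `d = 0` left, `1` right, `2` above,
`3` below -/
def foot (L : ℕ) (q : ℕ × ℕ) (d : Fin 4) (a : ℕ) : ℕ × ℕ :=
  if d = 0 then (q.1 - 1, q.2 + a) else if d = 1 then (q.1 + L, q.2 + a) else
    if d = 2 then (q.1 + a, q.2 + L) else (q.1 + a, q.2 - 1)

/-- ROW GLB0 (helper29, helper77, helper34). Full plain grid, three locations at three corners of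
a unit face, the faces are far apart. -/
def GlNear (k : ℕ) : Prop :=
  ∃ m δ : ℕ, ∀ {α : Type u} (P : Matroid α) [P.Finite] (S : Set α) (ends : α → Sym2 (ℕ × ℕ))
    (n : ℕ), Bic P S ends → Grd S ends 0 0 n n → ∀ (z : Fin m → α) (p : Fin m → ℕ × ℕ),
    (∀ t, z t ∈ P.closure S ∧ z t ∉ S) →
    (∀ t, δ ≤ (p t).1 ∧ δ ≤ (p t).2 ∧ (p t).1 + δ ≤ n ∧ (p t).2 + δ ≤ n) →
    (∀ t t', t ≠ t' → Far δ (p t) 2 (p t') 2) →
    (∀ t, Loc P S ends (z t) = {p t, ((p t).1 + 1, (p t).2), ((p t).1, (p t).2 + 1)}) →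
    HasUniformMinor P k

/-- ROW GLC0. Full plain grid, two neighbouring locations at `p t` and two at `q t`, everything
far apart. -/
def GlMix (k : ℕ) : Prop :=
  ∃ m δ : ℕ, ∀ {α : Type u} (P : Matroid α) [P.Finite] (S : Set α) (ends : α → Sym2 (ℕ × ℕ))
    (n : ℕ), Bic P S ends → Grd S ends 0 0 n n → ∀ (z : Fin m → α) (p : Fin m × Fin 2 → ℕ × ℕ),
    (∀ t, z t ∈ P.closure S ∧ z t ∉ S) →
    (∀ t, δ ≤ (p t).1 ∧ δ ≤ (p t).2 ∧ (p t).1 + δ ≤ n ∧ (p t).2 + δ ≤ n) →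
    (∀ t t', t ≠ t' → Far δ (p t) 2 (p t') 2) →
    (∀ t, Loc P S ends (z t) = {p (t, 0), ((p (t, 0)).1 + 1, (p (t, 0)).2), p (t, 1),
      ((p (t, 1)).1 + 1, (p (t, 1)).2)}) →
    HasUniformMinor P k

/-- ROW RED-B. Grid with holes of side `L`, three feet at three sides of the hole `p t`; the
other holes (finite set `H` of corners) have no feet. -/
def GlNearH (k : ℕ) : Prop :=
  ∀ L : ℕ, 1 ≤ L → ∃ m δ : ℕ, ∀ {α : Type u} (P : Matroid α) [P.Finite] (S : Set α)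
    (ends : α → Sym2 (ℕ × ℕ)) (X : ℕ × ℕ) (n : ℕ) (H : Finset (ℕ × ℕ)), Bic P S ends →
    GrdU S ends (rect X.1 X.2 n n \ ⋃ q ∈ H, rect q.1 q.2 L L) →
    (∀ q ∈ H, ∀ q' ∈ H, q ≠ q' → Far δ q L q' L) →
    ∀ (z : Fin m → α) (p : Fin m → ℕ × ℕ), (∀ t, p t ∈ H) → Function.Injective p →
    (∀ t, X.1 + δ ≤ (p t).1 ∧ X.2 + δ ≤ (p t).2 ∧ (p t).1 + δ ≤ X.1 + n ∧
      (p t).2 + δ ≤ X.2 + n) →
    (∀ t, z t ∈ P.closure S ∧ z t ∉ S) →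
    (∀ t, ∃ d : Fin 4, (d = 2 ∨ d = 3) ∧ ∃ a < L, ∃ b < L,
      Loc P S ends (z t) = {foot L (p t) 0 a, foot L (p t) 1 a, foot L (p t) d b}) →
    HasUniformMinor P k

/-- ROW RED-C. The same for two pairs of feet (left and right) at two holes. -/
def GlMixH (k : ℕ) : Prop :=
  ∀ L : ℕ, 1 ≤ L → ∃ m δ : ℕ, ∀ {α : Type u} (P : Matroid α) [P.Finite] (S : Set α)
    (ends : α → Sym2 (ℕ × ℕ)) (X : ℕ × ℕ) (n : ℕ) (H : Finset (ℕ × ℕ)), Bic P S ends →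
    GrdU S ends (rect X.1 X.2 n n \ ⋃ q ∈ H, rect q.1 q.2 L L) →
    (∀ q ∈ H, ∀ q' ∈ H, q ≠ q' → Far δ q L q' L) →
    ∀ (z : Fin m → α) (p : Fin m × Fin 2 → ℕ × ℕ), (∀ t, p t ∈ H) → Function.Injective p →
    (∀ t, X.1 + δ ≤ (p t).1 ∧ X.2 + δ ≤ (p t).2 ∧ (p t).1 + δ ≤ X.1 + n ∧
      (p t).2 + δ ≤ X.2 + n) →
    (∀ t, z t ∈ P.closure S ∧ z t ∉ S) →
    (∀ t, ∃ a < L, ∃ a' < L, ∃ b < L, ∃ b' < L, Loc P S ends (z t) =
      {foot L (p (t, 0)) 0 a, foot L (p (t, 0)) 1 a', foot L (p (t, 1)) 0 b,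
        foot L (p (t, 1)) 1 b'}) →
    HasUniformMinor P k

end CWL
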