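import Pool.Agent.CW.Defs2

/-!
# Theorem CW: linear versions of the rows (scale bounded, side of the grid linear in `y`)
-/

open Set BIC BICS
open scoped Matroid

namespace CWL

universe u

/-- ROW F with a linear bound. -/
def FineStar (k : ℕ) : Prop :=
  ∀ κ b : ℕ, ∃ F L b' A : ℕ, ∀ n : ℕ, ∀ N ≥ A * (n + 1), ∀ {α : Type u} (M : Matroid α)
    [M.Finite] (C T B : Set α) (ends : α → Sym2 (ℕ × ℕ)), Ctx M C T B ends N F → B.ncard ≤ κ →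
    (∀ c ∈ C \ B, ∃ A : Finset (ℕ × ℕ), A.card ≤ b ∧ ¬ Vis M C B (ins T ends (pun N A)) c) →
    HasUniformMinor M k ∨ ∃ X : ℕ × ℕ, X.1 + n ≤ N ∧ X.2 + n ≤ N ∧
      ∀ c ∈ C \ B, Hole M C T B ends N X n L b' c

/-- ROW W with a linear bound and one scale. -/
def CoarseStar (k : ℕ) : Prop :=
  ∀ κ L b : ℕ, ∃ (F l : ℕ) (n : ℕ → ℕ), (∃ A, ∀ y, n y ≤ A * (y + 1)) ∧ 1 ≤ l ∧ ∀ y : ℕ,
    ∀ {α : Type u} (M : Matroid α) [M.Finite]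
    (C T B : Set α) (ends : α → Sym2 (ℕ × ℕ)) (N : ℕ), Ctx M C T B ends N F → B.ncard ≤ κ →
    ∀ X : ℕ × ℕ, X.1 + n y ≤ N → X.2 + n y ≤ N → (∀ c ∈ C \ B, Hole M C T B ends N X (n y) L b c) →
    HasUniformMinor M k ∨ ∃ Z : ℕ × ℕ, Z.1 + l * y < 2 * N ∧ Z.2 + l * y < 2 * N ∧
      Cw M C T B ends Z l y

/-- **THEOREM CW\*.** As `CwStmt`; the scale is bounded and the side of the grid is linear. -/
def CwStar (k : ℕ) : Prop :=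
  ∃ κ lm A : ℕ, ∀ y : ℕ, ∀ N ≥ A * (y + 1), ∀ {α : Type u} (M : Matroid α) [M.Finite]
    (C T : Set α) (ends : α → Sym2 (ℕ × ℕ)), M.Indep C → T ⊆ M.E \ C → Bic (M ／ C) T ends →
    Grd T ends 0 0 (2 * N) (2 * N) →
    HasUniformMinor M k ∨ ∃ B ⊆ C, B.ncard ≤ κ ∧ ∃ (Z : ℕ × ℕ) (l : ℕ), 1 ≤ l ∧ l ≤ lm ∧
      Z.1 + l * y < 2 * N ∧ Z.2 + l * y < 2 * N ∧ Cw M C T B ends Z l y

end CWL
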