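import Pool.Agent.CW.Cells
import Pool.Agent.Helper34.DS.Scat
import Pool.Agent.Helper53.DS.Ess
import Pool.Agent.BICS.PGrid

/-!
# Theorem CW, row A: essentially independent sets over punctured grids (helper53)
-/

open Set BIC BICS
open scoped Matroid

namespace CWL

universe u

/-! ### passing to the interior of a grid -/

/-- shift of a vertex -/
def shf (m : ℕ) (v : ℕ × ℕ) : ℕ × ℕ := (v.1 - m, v.2 - m)

/-- shifted ends -/
def shE {α : Type*} (m : ℕ) (ends : α → Sym2 (ℕ × ℕ)) : α → Sym2 (ℕ × ℕ) :=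
  fun e => (ends e).map (shf m)

section shift

variable {α : Type*} {N : Matroid α} {S : Set α} {ends : α → Sym2 (ℕ × ℕ)} {m a b : ℕ}

lemma shf_inj {m a b : ℕ} : InjOn (shf m) (rect m m a b) := by
  rintro ⟨x, y⟩ ⟨h1, h2, h3, h4⟩ ⟨x', y'⟩ ⟨h5, h6, h7, h8⟩ h
  simp only [shf, Prod.mk.injEq] at h h1 h2 h3 h4 h5 h6 h7 h8 ⊢
  omega

theorem ins_shift (V : Set (ℕ × ℕ)) :
    ins (ins S ends (rect m m a b)) (shE m ends) V =
      ins S ends (rect m m a b ∩ shf m ⁻¹' V) := by
  ext e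
  constructor
  · rintro ⟨⟨h1, h2⟩, h3⟩
    exact ⟨h1, fun v hv => ⟨h2 v hv, h3 _ (Sym2.mem_map.2 ⟨v, hv, rfl⟩)⟩⟩
  · rintro ⟨h1, h2⟩
    refine ⟨⟨h1, fun v hv => (h2 v hv).1⟩, ?_⟩
    intro w hw
    obtain ⟨v, hv, rfl⟩ := Sym2.mem_map.1 hw
    exact (h2 v hv).2

theorem bic_shift (hB : Bic N S ends) : Bic N (ins S ends (rect m m a b)) (shE m ends) := by
  refine Bic_map (Bic_sub hB fun e he => he.1) (shf m) ?_
  rintro v ⟨e, he, hv⟩ w ⟨e', he', hw⟩ h
  exact shf_inj (he.2 v hv) (he'.2 w hw) h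

theorem grd_shift {x y a' b' : ℕ} (hG : Grd S ends x y a' b')
    (h : rect m m a b ⊆ rect x y a' b') :
    Grd (ins S ends (rect m m a b)) (shE m ends) 0 0 a b where
  inj := by
    rintro e ⟨he, he2⟩ e' ⟨he', he2'⟩ h
    apply hG.inj he he'
    obtain ⟨p, q, h1, _, _, _⟩ := hG.mem e he
    obtain ⟨p', q', h1', _, _, _⟩ := hG.mem e' he'
    have hp := he2 p (by rw [h1]; simp)
    have hq := he2 q (by rw [h1]; simp)
    have hp' := he2' p' (by rw [h1']; simp)
    have hq' := he2' q' (by rw [h1']; simp)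
    simp only [shE, h1, h1', Sym2.map_mk, Sym2.eq_iff] at h
    rw [h1, h1', Sym2.eq_iff]
    rcases h with ⟨h2, h3⟩ | ⟨h2, h3⟩
    · exact Or.inl ⟨shf_inj hp hp' h2, shf_inj hq hq' h3⟩
    · exact Or.inr ⟨shf_inj hp hq' h2, shf_inj hq hp' h3⟩
  mem := by
    rintro e ⟨he, he2⟩
    obtain ⟨p, q, h1, h2, _, _⟩ := hG.mem e he
    obtain ⟨p1, p2, p3, p4⟩ := he2 p (by rw [h1]; simp)
    obtain ⟨q1, q2, q3, q4⟩ := he2 q (by rw [h1]; simp)
    refine ⟨shf m p, shf m q, by simp only [shE, h1, Sym2.map_mk], ?_, ?_, ?_⟩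
    · unfold BICS.adj at h2 ⊢
      simp only [shf]
      omega
    · simp only [shf, rect, mem_ofPred_eq]
      omega
    · simp only [shf, rect, mem_ofPred_eq]
      omega
  surj := by
    rintro p q hpq ⟨p1, p2, p3, p4⟩ ⟨q1, q2, q3, q4⟩
    have hp : ((p.1 + m, p.2 + m) : ℕ × ℕ) ∈ rect m m a b := by
      simp only [rect, mem_ofPred_eq]; omega
    have hq : ((q.1 + m, q.2 + m) : ℕ × ℕ) ∈ rect m m a b := by
      simp only [rect, mem_ofPred_eq]; omega
    obtain ⟨e, he, he'⟩ := hG.surj (p.1 + m, p.2 + m) (q.1 + m, q.2 + m) (by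
      unfold BICS.adj at hpq ⊢
      simp only
      omega) (h hp) (h hq)
    refine ⟨e, ⟨he, ?_⟩, ?_⟩
    · intro v hv
      rw [he'] at hv
      rcases Sym2.mem_iff.1 hv with rfl | rfl <;> assumption
    · simp only [shE, he', Sym2.map_mk, shf, Nat.add_sub_cancel]

end shift

/-! ### choosing `k` conflicts -/

section choice

variable {α : Type*} {M : Matroid α} {C : Set α}

lemma rk_conf_sub [M.Finite] (hC : M.Indep C) {K K' X : Set α} (hK : K ⊆ C) (hK' : K' ⊆ K)
    (hX : X ⊆ M.E \ C) (h : rk (M ／ C) X + K.ncard ≤ rk (M ／ (C \ K)) X) :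
    rk (M ／ C) X + K'.ncard ≤ rk (M ／ (C \ K')) X := by
  have h1 := ess_rk hC hX hK
  have h2 := ess_rk hC hX (hK'.trans hK)
  have h3 := ess_rk hC hX (Z := ∅) (empty_subset _)
  rw [sdiff_empty, ncard_empty] at h3
  have h4 : rk M (X ∪ (C \ K)) ≤ rk M (X ∪ (C \ K')) :=
    rk_mono M (union_subset_union_right _ (sdiff_subset_sdiff_right hK'))
  omega

theorem choose_sub [M.Finite] (hC : M.Indep C) {K X : Set α} (hK : K ⊆ C) (hX : X ⊆ M.E \ C)
    {k : ℕ} (h : rk (M ／ C) X + k ≤ rk (M ／ (C \ K)) X) :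
    ∃ K' ⊆ K, K'.ncard = k ∧ rk (M ／ C) X + k ≤ rk (M ／ (C \ K')) X := by
  classical
  have hCf : C.Finite := M.ground_finite.subset hC.subset_ground
  have hKf : K.Finite := hCf.subset hK
  -- independent sets of conflicts of every size `≤ k`
  have hall : ∀ j ≤ k, ∃ K' ⊆ K, K'.ncard = j ∧ rk (M ／ C) X + j ≤ rk (M ／ (C \ K')) X := by
    intro j
    induction j with
    | zero =>
      intro _
      exact ⟨∅, empty_subset _, by simp, by simp⟩
    | succ j ih =>
      intro hj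
      obtain ⟨K₁, hK₁, hc, hd⟩ := ih (by omega)
      by_contra hno
      push Not at hno
      have hK₁f := hKf.subset hK₁
      have e0 := ess_rk hC hX (Z := ∅) (empty_subset _)
      have e1 := ess_rk hC hX (hK₁.trans hK)
      have e2 := ess_rk hC hX hK
      rw [sdiff_empty, ncard_empty] at e0
      have h1 := ess_coloops (M := M) (W := X ∪ (C \ K₁)) (hKf.subset
          (sdiff_subset : K \ K₁ ⊆ K)).toFinset (by
        intro c hcm
        rw [Set.Finite.mem_toFinset] at hcm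
        have h2 : insert c K₁ ⊆ K := insert_subset hcm.1 hK₁
        have h3 := hno (insert c K₁) h2 (by rw [Set.ncard_insert_of_notMem hcm.2 hK₁f, hc])
        have h4 := ess_rk hC hX (h2.trans hK)
        rw [Set.ncard_insert_of_notMem hcm.2 hK₁f] at h4
        have h5 : (X ∪ (C \ K₁)) \ {c} ⊆ X ∪ (C \ insert c K₁) := by
          rintro x ⟨hx | hx, hxc⟩
          · exact Or.inl hx
          · refine Or.inr ⟨hx.1, ?_⟩
            rintro (h | h)
            · exact hxc h
            · exact hx.2 h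
        have h6 := rk_mono M h5
        omega)
      rw [← Set.ncard_eq_toFinset_card _ (hKf.subset sdiff_subset),
        Set.Finite.coe_toFinset] at h1
      have h2 : rk M (X ∪ (C \ K)) ≤ rk M ((X ∪ (C \ K₁)) \ (K \ K₁)) := by
        refine rk_mono M ?_
        rintro x (hx | ⟨hx, hxK⟩)
        · exact ⟨Or.inl hx, fun h => (hX hx).2 (hK h.1)⟩
        · exact ⟨Or.inr ⟨hx, fun h => hxK (hK₁ h)⟩, fun h => hxK h.1⟩
      have h3 := Set.ncard_sdiff_add_ncard_of_subset hK₁ hKf
      have h4 : rk M (X ∪ (C \ K₁)) ≤ rk M (X ∪ C) :=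
        rk_mono M (union_subset_union_right _ sdiff_subset)
      omega
  exact hall k le_rfl

lemma rk_conf_le [M.Finite] (hC : M.Indep C) {K X : Set α} (hK : K ⊆ C) (hX : X ⊆ M.E \ C) :
    rk (M ／ (C \ K)) X ≤ rk (M ／ C) X + K.ncard := by
  have h1 := ess_rk hC hX hK
  have h3 := ess_rk hC hX (Z := ∅) (empty_subset _)
  rw [sdiff_empty, ncard_empty] at h3
  have h4 : rk M (X ∪ (C \ K)) ≤ rk M (X ∪ C) :=
    rk_mono M (union_subset_union_right _ sdiff_subset)
  omega

end choice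

/-! ### subadditivity -/

section subadd

variable {α : Type*} {L N : Matroid α} {S : Set α} {ends : α → Sym2 (ℕ × ℕ)}

theorem sub_add [L.Finite] [N.Finite] (hB : Bic N S ends) {ι : Type*} (Φ : Finset ι)
    (V : ι → Set (ℕ × ℕ)) (hV : ∀ i ∈ Φ, ∀ j ∈ Φ, i ≠ j → Disjoint (V i) (V j)) (t : ℕ)
    (h : ∀ i ∈ Φ, rk L (ins S ends (V i)) ≤ rk N (ins S ends (V i)) + t) :
    rk L (⋃ i ∈ Φ, ins S ends (V i)) ≤ rk N (⋃ i ∈ Φ, ins S ends (V i)) + Φ.card * t := by
  classical
  induction Φ using Finset.induction_on with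
  | empty => simp [CW.rk_emp]
  | insert i Φ hi ih =>
    have h1 := ih (fun j hj k hk => hV j (Finset.mem_insert_of_mem hj) k
      (Finset.mem_insert_of_mem hk)) fun j hj => h j (Finset.mem_insert_of_mem hj)
    have h2 := h i (Finset.mem_insert_self _ _)
    rw [Finset.set_biUnion_insert, Finset.card_insert_of_notMem hi]
    have hd : Disjoint (V i) (⋃ j ∈ Φ, V j) := by
      rw [Set.disjoint_iUnion₂_right]
      intro j hj
      exact hV i (Finset.mem_insert_self _ _) j (Finset.mem_insert_of_mem hj)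
        fun h => hi (h ▸ hj)
    have h3 : rk N (ins S ends (V i) ∪ ⋃ j ∈ Φ, ins S ends (V j)) =
        rk N (ins S ends (V i)) + rk N (⋃ j ∈ Φ, ins S ends (V j)) :=
      rk_skew hB hd (Subset.refl _) (iUnion₂_subset fun j hj =>
        ins_mono (subset_biUnion_of_mem (u := V) hj))
    have h4 := rk_submod L (ins S ends (V i)) (⋃ j ∈ Φ, ins S ends (V j))
    have h5 : (Φ.card + 1) * t = Φ.card * t + t := by ring
    omega

end subadd

lemma hum_of_contract {α : Type*} {M : Matroid α} {k : ℕ} {D : Set α}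
    (h : HasUniformMinor (M ／ D) k) : HasUniformMinor M k := by
  obtain ⟨N, h1, h2⟩ := h
  exact ⟨N, h1.trans (by simpa using M.contract_delete_isMinor D ∅), h2⟩

/-- far apart blocks do not touch -/
lemma ins_blks {α : Type*} {S : Set α} {ends : α → Sym2 (ℕ × ℕ)} {x y a b : ℕ}
    (hG : Grd S ends x y a b) (P : Finset (ℕ × ℕ))
    (hP : ∀ p ∈ P, ∀ q ∈ P, p ≠ q → Far 1 p 2 q 2) {e : α}
    (he : e ∈ ins S ends (blks P)) : ∃ p ∈ P, e ∈ ins S ends (csq p 2) := by
  obtain ⟨heS, he'⟩ := he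
  obtain ⟨v, w, h1, h2, _, _⟩ := hG.mem e heS
  have hv := he' v (by rw [h1]; simp)
  have hw := he' w (by rw [h1]; simp)
  obtain ⟨p, hp, hvp⟩ := mem_iUnion₂.1 hv
  obtain ⟨q, hq, hwq⟩ := mem_iUnion₂.1 hw
  have hpq : p = q := by
    by_contra hne
    have h3 := hP p hp q hq hne
    rw [mem_csq] at hvp hwq
    unfold Far at h3
    unfold BICS.adj at h2
    omega
  subst hpq
  refine ⟨p, hp, heS, fun u hu => ?_⟩
  rw [h1] at hu
  rcases Sym2.mem_iff.1 hu with rfl | rfl <;> assumption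

/-- the offset of the board of a block -/
def famO (w o o' : ℕ) (p : ℕ × ℕ) : ℕ × ℕ :=
  ((4 * w + 2 * p.1 - o) % w, (4 * w + 2 * p.2 - o') % w)

/-- the cell of the board in which a block is a tile -/
def famC (w o o' : ℕ) (p : ℕ × ℕ) : ℕ × ℕ :=
  ((4 * w + 2 * p.1 - o) / w, (4 * w + 2 * p.2 - o') / w)

lemma fam_eq {w o o' : ℕ} (ho : o ≤ 4 * w) (ho' : o' ≤ 4 * w) (p : ℕ × ℕ) :
    (famO w o o' p).1 + (famC w o o' p).1 * w + o = 4 * w + 2 * p.1 ∧
    (famO w o o' p).2 + (famC w o o' p).2 * w + o' = 4 * w + 2 * p.2 := by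
  simp only [famO, famC]
  have h1 := Nat.mod_add_div (4 * w + 2 * p.1 - o) w
  have h2 := Nat.mod_add_div (4 * w + 2 * p.2 - o') w
  rw [mul_comm w] at h1 h2
  omega

/-- **SCAT′.** -/
theorem scat' (k : ℕ) (hk : 1 ≤ k) : ∃ κ μ g : ℕ, ∀ (N : ℕ) {α : Type u} (M : Matroid α)
    [M.Finite] (C T₀ : Set α) (ends₀ : α → Sym2 (ℕ × ℕ)) (K : Set α), M.Indep C →
    T₀ ⊆ M.E \ C → Bic (M ／ C) T₀ ends₀ →
    Grd T₀ ends₀ 0 0 (2 * N + 2 * μ) (2 * N + 2 * μ) → K ⊆ C → K.ncard = κ + 1 →
    (∀ A : Finset (ℕ × ℕ), A.card ≤ g →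
      rk (M ／ C) (ins (ins T₀ ends₀ (rect μ μ (2 * N) (2 * N))) (shE μ ends₀) (pun N A)) +
        (κ + 1) ≤ rk (M ／ (C \ K))
        (ins (ins T₀ ends₀ (rect μ μ (2 * N) (2 * N))) (shE μ ends₀) (pun N A))) →
    HasUniformMinor M k := by
  classical
  obtain ⟨w, o, o', βs, hsw, ho, ho', hSc⟩ := scatStmt.{u} k 4 hk (by norm_num)
  set κ := w * w * (k - 1) with hκ
  set m₀ := w * w * 2 ^ (κ + 1) * βs + 1 with hm₀
  refine ⟨κ, 4 * w, 121 * ((m₀ + 1) * (κ + 1)), ?_⟩
  intro N α M _ C T₀ ends₀ K hC hT₀ hB₀ hG₀ hK hKc hrob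
  have hf1 := BQ.fin_contract (M := M) C
  have hfK := BQ.fin_contract (M := M) (C \ K)
  have hCf : C.Finite := M.ground_finite.subset hC.subset_ground
  have hKf : K.Finite := hCf.subset hK
  set T : Set α := ins T₀ ends₀ (rect (4 * w) (4 * w) (2 * N) (2 * N)) with hT
  set ends := shE (4 * w) ends₀ with hends
  have hTT₀ : T ⊆ T₀ := fun e he => he.1
  have hTE : T ⊆ M.E \ C := hTT₀.trans hT₀
  have hB : Bic (M ／ C) T ends := bic_shift hB₀
  have hG : Grd T ends 0 0 (2 * N) (2 * N) := grd_shift hG₀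
    (rect_sub (by omega) (by omega) (by omega) (by omega))
  have hQK : Quo (M ／ (C \ K)) (M ／ C) T := quo_conf hC hTE
  have hEK : ∀ K' : Set α, ∀ Y ⊆ T₀, Y ⊆ (M ／ (C \ K')).E := by
    intro K' Y hY
    rw [Matroid.contract_ground]
    exact (hY.trans hT₀).trans (sdiff_subset_sdiff_right sdiff_subset)
  -- the groups
  let GG : Finset (ℕ × ℕ) → Prop := fun P => P.card ≤ κ + 1 ∧
    (∀ p ∈ P, p.1 + 2 ≤ N ∧ p.2 + 2 ≤ N) ∧ (∀ p ∈ P, ∀ q ∈ P, p ≠ q → Far 1 p 2 q 2) ∧
    rk (M ／ C) (ins T ends (blks P)) + (κ + 1) ≤ rk (M ／ (C \ K)) (ins T ends (blks P))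
  have hgroups : ∀ m ≤ m₀, ∃ G : ℕ → Finset (ℕ × ℕ), (∀ i < m, GG (G i)) ∧
      ∀ i < m, ∀ j < m, i ≠ j → Disjoint (G i) (G j) := by
    intro m
    induction m with
    | zero =>
      intro _
      exact ⟨fun _ => ∅, fun i hi => absurd hi (Nat.not_lt_zero _),
        fun i hi => absurd hi (Nat.not_lt_zero _)⟩
    | succ m ih =>
      intro hm
      obtain ⟨G, hG1, hG2⟩ := ih (by omega)
      set A₀ := (Finset.range m).biUnion G with hA₀
      have hA₀c : A₀.card ≤ m * (κ + 1) := by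
        have := Finset.card_biUnion_le_card_mul (Finset.range m) G (κ + 1)
          fun i hi => (hG1 i (Finset.mem_range.1 hi)).1
        rwa [Finset.card_range] at this
      obtain ⟨P, h1, h2, h3, h4⟩ := group_of (L := M ／ (C \ K)) (N := M ／ C) hB hG hQK
        (hEK K T hTT₀) 1 (κ + 1) A₀ (fun A hA => hrob A (hA.trans (by
          have : A₀.card + (κ + 1) ≤ (m₀ + 1) * (κ + 1) := by nlinarith
          calc (2 * 1 + 9) ^ 2 * (A₀.card + (κ + 1)) = 121 * (A₀.card + (κ + 1)) := by norm_num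
            _ ≤ _ := Nat.mul_le_mul_left _ this)))
      refine ⟨Function.update G m P, ?_, ?_⟩
      · intro i hi
        rcases Nat.lt_succ_iff_lt_or_eq.1 hi with hi | rfl
        · rw [Function.update_of_ne hi.ne]
          exact hG1 i hi
        · rw [Function.update_self]
          exact ⟨h1, fun p hp => ⟨(h2 p hp).1, (h2 p hp).2.1⟩, h3, h4⟩
      · have key : ∀ i < m, Disjoint P (G i) := by
          intro i hi
          rw [Finset.disjoint_left]
          intro p hp hp'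
          have h5 := (h2 p hp).2.2 p (Finset.mem_biUnion.2 ⟨i, Finset.mem_range.2 hi, hp'⟩)
          unfold Far at h5
          omega
        intro i hi j hj hij
        rcases Nat.lt_succ_iff_lt_or_eq.1 hi with hi | rfl <;>
          rcases Nat.lt_succ_iff_lt_or_eq.1 hj with hj | rfl
        · rw [Function.update_of_ne hi.ne, Function.update_of_ne hj.ne]
          exact hG2 i hi j hj hij
        · rw [Function.update_self, Function.update_of_ne hi.ne]
          exact (key i hi).symm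
        · rw [Function.update_self, Function.update_of_ne hj.ne]
          exact key j hj
        · exact absurd rfl hij
  obtain ⟨G, hG1, hG2⟩ := hgroups m₀ le_rfl
  -- a family
  have hfam : ∀ i < m₀, ∃ φ ∈ Finset.range w ×ˢ Finset.range w, ∃ K' ⊆ K, K'.ncard = k ∧
      rk (M ／ C) (ins T ends (blks ((G i).filter fun p => famO w o o' p = φ))) + k ≤
        rk (M ／ (C \ K')) (ins T ends (blks ((G i).filter fun p => famO w o o' p = φ))) := by
    intro i hi
    obtain ⟨g1, g2, g3, g4⟩ := hG1 i hi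
    have hex : ∃ φ ∈ Finset.range w ×ˢ Finset.range w,
        rk (M ／ C) (ins T ends (blks ((G i).filter fun p => famO w o o' p = φ))) + k ≤
        rk (M ／ (C \ K)) (ins T ends (blks ((G i).filter fun p => famO w o o' p = φ))) := by
      by_contra hno
      push Not at hno
      have h1 := sub_add (L := M ／ (C \ K)) (N := M ／ C) hB (Finset.range w ×ˢ Finset.range w)
        (fun φ => blks ((G i).filter fun p => famO w o o' p = φ)) (by
          intro φ _ ψ _ hne
          rw [Set.disjoint_left]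
          intro v hv hv'
          obtain ⟨p, hp, hvp⟩ := mem_iUnion₂.1 hv
          obtain ⟨q, hq, hvq⟩ := mem_iUnion₂.1 hv'
          rw [Finset.mem_filter] at hp hq
          have hpq : p = q := by
            by_contra hne
            have h3 := g3 p hp.1 q hq.1 hne
            rw [mem_csq] at hvp hvq
            unfold Far at h3
            omega
          subst hpq
          exact hne (hp.2.symm.trans hq.2)) (k - 1) (by
          intro φ hφ
          have := hno φ hφ
          omega)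
      rw [Finset.card_product, Finset.card_range] at h1
      have h2 : ins T ends (blks (G i)) ⊆ ⋃ φ ∈ Finset.range w ×ˢ Finset.range w,
          ins T ends (blks ((G i).filter fun p => famO w o o' p = φ)) := by
        intro e he
        obtain ⟨p, hp, hep⟩ := ins_blks hG (G i) g3 he
        refine mem_iUnion₂.2 ⟨famO w o o' p, ?_, ?_⟩
        · rw [Finset.mem_product, Finset.mem_range, Finset.mem_range]
          exact ⟨Nat.mod_lt _ (by omega), Nat.mod_lt _ (by omega)⟩
        · refine ins_mono (fun v hv => ?_) hep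
          exact mem_iUnion₂.2 ⟨p, Finset.mem_filter.2 ⟨hp, rfl⟩, hv⟩
      have h3 := hQK _ _ h2 (iUnion₂_subset fun φ _ e he => he.1)
      omega
    obtain ⟨φ, hφ, h1⟩ := hex
    obtain ⟨K', h2, h3, h4⟩ := choose_sub hC hK (X := ins T ends (blks ((G i).filter
      fun p => famO w o o' p = φ))) (fun e he => hTE he.1) h1
    exact ⟨φ, hφ, K', h2, h3, h4⟩
  choose! φ hφ K' hK'1 hK'2 hK'3 using hfam
  -- pigeonhole
  obtain ⟨y, hy, hycard⟩ := Finset.exists_lt_card_fiber_of_mul_lt_card_of_maps_to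
    (s := Finset.range m₀)
    (t := (Finset.range w ×ˢ Finset.range w) ×ˢ Finset.image (fun s : Finset α => (s : Set α)) hKf.toFinset.powerset)
    (f := fun i => (φ i, K' i)) (n := βs) (by
      intro i hi
      have hi' := Finset.mem_range.1 hi
      rw [Finset.mem_product]
      refine ⟨hφ i hi', ?_⟩
      rw [Finset.mem_image]
      have hf := hKf.subset (hK'1 i hi')
      refine ⟨hf.toFinset, ?_, hf.coe_toFinset⟩
      rw [Finset.mem_powerset, Set.Finite.toFinset_subset_toFinset]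
      exact hK'1 i hi') (by
      rw [Finset.card_product, Finset.card_product, Finset.card_range, Finset.card_range]
      have h1 : (Finset.image (fun s : Finset α => (s : Set α)) hKf.toFinset.powerset).card ≤ 2 ^ (κ + 1) := by
        refine Finset.card_image_le.trans ?_
        rw [Finset.card_powerset, ← Set.ncard_eq_toFinset_card _ hKf, hKc]
      have h2 := Nat.mul_le_mul_right βs (Nat.mul_le_mul_left (w * w) h1)
      omega)
  obtain ⟨⟨r₁, r₂⟩, Ks⟩ := y
  rw [Finset.mem_product, Finset.mem_product, Finset.mem_range, Finset.mem_range] at hy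
  obtain ⟨⟨hr₁, hr₂⟩, -⟩ := hy
  simp only at hr₁ hr₂
  set I := (Finset.range m₀).filter fun i => (φ i, K' i) = ((r₁, r₂), Ks) with hI
  have hIm : ∀ i ∈ I, i < m₀ ∧ φ i = (r₁, r₂) ∧ K' i = Ks := by
    intro i hi
    rw [hI, Finset.mem_filter, Finset.mem_range, Prod.mk.injEq] at hi
    exact hi
  have hIne : I.Nonempty := Finset.card_pos.1 (by omega)
  obtain ⟨i₀, hi₀⟩ := hIne
  obtain ⟨hi₀m, hi₀φ, hi₀K⟩ := hIm i₀ hi₀
  have hKsK : Ks ⊆ K := hi₀K ▸ hK'1 i₀ hi₀m
  have hKsc : Ks.ncard = k := hi₀K ▸ hK'2 i₀ hi₀m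
  have hfs := BQ.fin_contract (M := M) (C \ Ks)
  -- the board
  set m := 2 * N + 7 * w with hm
  set Tb := 2 * N / w + 6 with hTb
  have hTbw : (Tb + 1) * w ≤ m := by
    have h1 := Nat.div_mul_le_self (2 * N) w
    have h2 : (Tb + 1) * w = 2 * N / w * w + 7 * w := by rw [hTb]; ring
    omega
  set S' : Set α := ins T₀ ends₀ (rect r₁ r₂ m m) with hS'
  have hS'T₀ : S' ⊆ T₀ := fun e he => he.1
  refine hum_of_contract (hSc (M ／ (C \ Ks)) (M ／ C) S' ends₀ r₁ r₂ m Tb
    (hEK Ks S' hS'T₀) (Bic_sub hB₀ hS'T₀)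
    (Grd_sub hG₀ (rect_sub (by omega) (by omega) (by omega) (by omega)))
    (quo_conf hC (hS'T₀.trans hT₀)) hTbw (by
      rw [← hKsc]
      exact rk_conf_le hC (hKsK.trans hK) (hS'T₀.trans hT₀)) ?_)
  intro A hA hAc
  -- a group which avoids `A`
  have hav : ∃ i ∈ I, ∀ p ∈ G i, famO w o o' p = (r₁, r₂) → famC w o o' p ∉ A := by
    by_contra hno
    push Not at hno
    choose! p hp1 hp2 hp3 using hno
    have h1 : I.card ≤ A.card := by
      refine Finset.card_le_card_of_injOn (fun i => famC w o o' (p i)) (fun i hi => hp3 i hi) ?_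
      intro i hi j hj hij
      by_contra hne
      simp only at hij
      have e1 := fam_eq (w := w) (o := o) (o' := o') (by omega) (by omega) (p i)
      have e2 := fam_eq (w := w) (o := o) (o' := o') (by omega) (by omega) (p j)
      rw [hp2 i hi, hij] at e1
      rw [hp2 j hj] at e2
      have h2 : p i = p j := Prod.ext (by omega) (by omega)
      have h3 := hG2 i (hIm i hi).1 j (hIm j hj).1 hne
      exact Finset.disjoint_left.1 h3 (hp1 i hi) (h2 ▸ hp1 j hj)
    omega
  obtain ⟨i, hi, hiA⟩ := hav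
  obtain ⟨him, hiφ, hiK⟩ := hIm i hi
  have h1 := hK'3 i him
  rw [hiφ, hiK] at h1
  obtain ⟨g1, g2, g3, g4⟩ := hG1 i him
  have h2 : ins T ends (blks ((G i).filter fun p => famO w o o' p = (r₁, r₂))) ⊆
      ⋃ c ∈ cells Tb \ A, ins S' ends₀ (tl r₁ r₂ w o o' 4 c) := by
    intro e he
    obtain ⟨p, hp, hep⟩ := ins_blks hG _ (fun p hp q hq hpq =>
      g3 p (Finset.mem_filter.1 hp).1 q (Finset.mem_filter.1 hq).1 hpq) he
    rw [Finset.mem_filter] at hp
    have e1 := fam_eq (w := w) (o := o) (o' := o') (by omega) (by omega) p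
    obtain ⟨g5, g6⟩ := g2 p hp.1
    rw [hp.2] at e1
    simp only at e1
    have hb : ∀ x y : ℕ, x * w ≤ 4 * w + 2 * N → x < Tb := by
      intro x _ hx
      have h3 : x * w < (2 * N / w + 5) * w := by
        have h4 := Nat.lt_div_mul_add (a := 2 * N) (b := w) (by omega)
        have h5 : (2 * N / w + 5) * w = 2 * N / w * w + w + 4 * w := by ring
        omega
      have h4 := lt_of_mul_lt_mul_right h3 (Nat.zero_le _)
      omega
    refine mem_iUnion₂.2 ⟨famC w o o' p, ?_, ?_⟩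
    · rw [Finset.mem_sdiff]
      refine ⟨?_, hiA p hp.1 hp.2⟩
      rw [cells, Finset.mem_product, Finset.mem_range, Finset.mem_range]
      exact ⟨hb _ 0 (by omega), hb _ 0 (by omega)⟩
    · rw [hT, hends, ins_shift] at hep
      obtain ⟨h3, h4⟩ := hep
      have h5 : ∀ v ∈ ends₀ e, v ∈ tl r₁ r₂ w o o' 4 (famC w o o' p) := by
        intro v hv
        obtain ⟨⟨v1, v2, v3, v4⟩, h6⟩ := h4 v hv
        have h7 : shf (4 * w) v ∈ csq p 2 := h6
        rw [mem_csq] at h7
        simp only [shf] at h7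
        simp only [tl, rect, mem_ofPred_eq]
        omega
      refine ⟨⟨h3, fun v hv => ?_⟩, h5⟩
      have h6 := h5 v hv
      simp only [tl, rect, mem_ofPred_eq] at h6
      simp only [rect, mem_ofPred_eq]
      omega
  have h3 := quo_conf (B := Ks) hC (hS'T₀.trans hT₀) _ _ h2
    (iUnion₂_subset fun c _ e he => he.1)
  omega

/-- ROW A with a margin: `T` is the interior of a slightly bigger grid. -/
def EssMar (k : ℕ) : Prop :=
  ∃ κ μ : ℕ, ∀ f : ℕ → ℕ, ∃ β : ℕ, ∀ (N : ℕ) {α : Type u} (M : Matroid α) [M.Finite]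
    (C T₀ : Set α) (ends₀ : α → Sym2 (ℕ × ℕ)), M.Indep C → T₀ ⊆ M.E \ C →
    Bic (M ／ C) T₀ ends₀ → Grd T₀ ends₀ 0 0 (2 * N + 2 * μ) (2 * N + 2 * μ) →
    HasUniformMinor M k ∨ ∃ B ⊆ C, B.ncard ≤ κ ∧ ∃ b ≤ β,
      Ctx M C (ins T₀ ends₀ (rect μ μ (2 * N) (2 * N))) B (shE μ ends₀) N (f b) ∧
      ∀ c ∈ C \ B, ∃ A : Finset (ℕ × ℕ), A.card ≤ b ∧
        ¬ Vis M C B (ins (ins T₀ ends₀ (rect μ μ (2 * N) (2 * N))) (shE μ ends₀) (pun N A)) c

lemma hum_zero {α : Type*} (M : Matroid α) : HasUniformMinor M 0 := by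
  refine ⟨M ＼ M.E, by simpa using Matroid.contract_delete_isMinor M ∅ M.E, ?_, ?_⟩
  · simp
  · intro B
    have hE : (M ＼ M.E).E = ∅ := by simp
    constructor
    · intro h
      have := h.subset_ground
      rw [hE] at this ⊢
      have hB : B = ∅ := subset_empty_iff.1 this
      simp [hB]
    · rintro ⟨h, -⟩
      rw [hE] at h
      have hB : B = ∅ := subset_empty_iff.1 h
      subst hB
      obtain ⟨B', hB'⟩ := (M ＼ M.E).exists_isBase
      have := hB'.subset_ground
      rw [hE] at this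
      have h2 : B' = ∅ := subset_empty_iff.1 this
      exact h2 ▸ hB'

/-- thresholds -/
def thr (f : ℕ → ℕ) (g : ℕ) : ℕ → ℕ
  | 0 => g
  | n + 1 => max (f (thr f g n)) (thr f g n)

lemma thr_mono (f : ℕ → ℕ) (g : ℕ) : Monotone (thr f g) :=
  monotone_nat_of_le_succ fun _ => le_max_right _ _

/-- **Row A.** -/
theorem essMar (k : ℕ) : EssMar.{u} k := by
  classical
  rcases Nat.eq_zero_or_pos k with rfl | hk
  · exact ⟨0, 0, fun f => ⟨0, fun N α M _ C T₀ ends₀ _ _ _ _ => Or.inl (hum_zero M)⟩⟩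
  obtain ⟨κ, μ, g, hSc⟩ := scat'.{u} k hk
  refine ⟨κ, μ, fun f => ⟨thr f g κ, ?_⟩⟩
  intro N α M _ C T₀ ends₀ hC hT₀ hB₀ hG₀
  have hCf : C.Finite := M.ground_finite.subset hC.subset_ground
  have hf1 := BQ.fin_contract (M := M) C
  set T : Set α := ins T₀ ends₀ (rect μ μ (2 * N) (2 * N)) with hT
  set ends := shE μ ends₀ with hends
  have hTT₀ : T ⊆ T₀ := fun e he => he.1
  have hTE : T ⊆ M.E \ C := hTT₀.trans hT₀
  let Es : Set α → Prop := fun B => B ⊆ C ∧ ∀ A : Finset (ℕ × ℕ),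
    A.card ≤ thr f g (κ + 1 - B.ncard) →
    rk (M ／ C) (ins T ends (pun N A)) + B.ncard ≤ rk (M ／ (C \ B)) (ins T ends (pun N A))
  have h0 : Es ∅ := by
    refine ⟨empty_subset _, fun A _ => ?_⟩
    rw [ncard_empty, sdiff_empty]
    exact le_rfl
  by_cases hbig : ∀ B, Es B → B.ncard ≤ κ → ∃ c ∈ C \ B, Es (insert c B)
  · left
    have hall : ∀ j ≤ κ + 1, ∃ B, Es B ∧ B.ncard = j := by
      intro j
      induction j with
      | zero => exact fun _ => ⟨∅, h0, by simp⟩
      | succ j ih =>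
        intro hj
        obtain ⟨B, hB, hBj⟩ := ih (by omega)
        obtain ⟨c, hc, hE⟩ := hbig B hB (by omega)
        exact ⟨_, hE, by rw [Set.ncard_insert_of_notMem hc.2 (hCf.subset hB.1), hBj]⟩
    obtain ⟨K, ⟨hK, hKr⟩, hKc⟩ := hall (κ + 1) le_rfl
    refine hSc N M C T₀ ends₀ K hC hT₀ hB₀ hG₀ hK hKc fun A hA => ?_
    rw [← hKc]
    exact hKr A (by rw [hKc, Nat.sub_self]; exact hA)
  · right
    push Not at hbig
    obtain ⟨B, hB, hBκ, hmax⟩ := hbig
    obtain ⟨hBC, hBr⟩ := hB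
    have hsucc : κ + 1 - B.ncard = (κ - B.ncard) + 1 := by omega
    refine ⟨B, hBC, hBκ, thr f g (κ - B.ncard), thr_mono f g (Nat.sub_le _ _), ?_, ?_⟩
    · refine ⟨hC, hTE, bic_shift hB₀, grd_shift hG₀
        (rect_sub (by omega) (by omega) (by omega) (by omega)), hBC, fun A hA => ?_⟩
      refine hBr A (hA.trans ?_)
      rw [hsucc]
      exact le_max_left _ _
    · intro c hc
      have h1 := hmax c hc
      simp only [Es] at h1
      push Not at h1
      obtain ⟨A, hA, hlt⟩ := h1 (insert_subset hc.1 hBC)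
      rw [Set.ncard_insert_of_notMem hc.2 (hCf.subset hBC)] at hA hlt
      have h2 : κ + 1 - (B.ncard + 1) = κ - B.ncard := by omega
      rw [h2] at hA
      refine ⟨A, hA, fun hv => ?_⟩
      have h3 := CW.rk_vis hC hc.1 hc.2 (X := ins T ends (pun N A))
        (fun e he => hTE he.1) hv
      have h4 := hBr A (hA.trans (by rw [hsucc]; exact le_max_right _ _))
      omega

end CWL
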