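import Pool.Agent.CW.FineD
import Pool.Agent.CW.CertC
import Pool.Agent.CW.CertB
import Pool.Agent.CW.Coarse
import Pool.Agent.GL.MixH
import Pool.Agent.GL.NearH

/-!
# Theorem CW, unconditional
-/

namespace CWL

universe u

/-- **Theorem CW** (clean wall), for all finite matroids. -/
theorem cwStmt (k : ℕ) : CwStmt.{u} k :=
  cw_of' (fineStmt_of_certC (certC_of (Gad.glMixH k))) (coarse_of (certB (Gad.glNearH k)))

end CWL
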