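import Pool.Agent.CW.Sim
import Pool.Agent.CW.Cells

/-!
# Row F of Theorem CW, part A: glueing of far apart squares, sub-blocks far from few cells
-/

open Set BIC BICS
open scoped Matroid

namespace CWL

variable {α : Type*} {M : Matroid α} {C T B : Set α} {ends : α → Sym2 (ℕ × ℕ)} {N F : ℕ} {c : α}

/-- glueing of two unions of cells without edges between the private parts -/
theorem glue_cv [M.Finite] (h : Ctx M C T B ends N F) (hc : c ∈ C \ B) {P Q : Set (ℕ × ℕ)}
    (hP : P ⊆ rect 0 0 N N) (hQ : Q ⊆ rect 0 0 N N) {A : Finset (ℕ × ℕ)} (hA : A.card ≤ F)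
    (hPA : pun N A ⊆ cv P) (hQA : pun N A ⊆ cv Q)
    (hn : ∀ i ∈ P, ∀ j ∈ Q, i ∉ Q → j ∉ P → ¬ adj i j)
    (h1 : ¬ Vis M C B (ins T ends (cv P)) c) (h2 : ¬ Vis M C B (ins T ends (cv Q)) c) :
    ¬ Vis M C B (ins T ends (cv (P ∪ Q))) c := by
  rw [cv_union, ins_union_cv h.grd hn]
  have hfP : (cv P).Finite := cv_finite ((rect_finite _ _ _ _).subset hP)
  have hfQ : (cv Q).Finite := cv_finite ((rect_finite _ _ _ _).subset hQ)
  have hi : ins T ends (cv P) ∩ ins T ends (cv Q) = ins T ends (cv (P ∩ Q)) := by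
    ext e
    constructor
    · rintro ⟨⟨h3, h4⟩, -, h5⟩
      exact ⟨h3, fun v hv => ⟨h4 v hv, h5 v hv⟩⟩
    · rintro ⟨h3, h4⟩
      exact ⟨⟨h3, fun v hv => (h4 v hv).1⟩, h3, fun v hv => (h4 v hv).2⟩
  refine glue h.ind h.sub h.bic h.BC hc hfP hfQ subset_rfl subset_rfl ?_ ?_ ?_ h1 h2
  · rw [hi]
    exact h.rob_of hA (ins_mono fun v hv => ⟨hPA hv, hQA hv⟩) fun e he => he.1
  · rw [hi, ← cv_inter]
    exact full_cv h.bic h.grd (inter_subset_left.trans hP)
  · rw [← ins_union_cv h.grd hn, ← cv_union]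
    exact full_cv h.bic h.grd (union_subset hP hQ)

/-- L1: non critical squares which are pairwise far and far from the other removed cells -/
theorem glue_squares [M.Finite] (h : Ctx M C T B ends N F) (hc : c ∈ C \ B) {s : ℕ}
    {A : Finset (ℕ × ℕ)} (hA : A.card ≤ F) {Q : Finset (ℕ × ℕ)}
    (hQN : ∀ q ∈ Q, q.1 + s ≤ N ∧ q.2 + s ≤ N)
    (hfar : ∀ q ∈ Q, ∀ r ∈ Q, q ≠ r → Far 1 q s r s)
    (h0 : ¬ Vis M C B (ins T ends (pun N A)) c)
    (h1 : ∀ q ∈ Q, ¬ Vis M C B (ins T ends (pun N A ∪ csq q s)) c) :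
    ¬ Vis M C B (ins T ends (pun N A ∪ ⋃ q ∈ Q, csq q s)) c := by
  classical
  have hrect : ∀ q ∈ Q, rect q.1 q.2 s s ⊆ rect 0 0 N N := by
    rintro q hq v ⟨h3, h4, h5, h6⟩
    obtain ⟨h7, h8⟩ := hQN q hq
    exact ⟨by omega, by omega, by omega, by omega⟩
  have key : ∀ R ⊆ Q, ¬ Vis M C B (ins T ends (pun N A ∪ ⋃ q ∈ R, csq q s)) c := by
    intro R
    induction R using Finset.induction_on with
    | empty =>
      intro _
      simpa using h0
    | insert q R hq ih =>
      intro hR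
      have hR' : R ⊆ Q := (Finset.subset_insert _ _).trans hR
      have hqQ : q ∈ Q := hR (Finset.mem_insert_self _ _)
      have ih' := ih hR'
      have e1 : pun N A ∪ ⋃ r ∈ R, csq r s =
          cv ((rect 0 0 N N \ A) ∪ ⋃ r ∈ R, rect r.1 r.2 s s) := by
        rw [cv_union, ← pun_eq_cv, cv_iUnion]
        congr 1
        refine iUnion_congr fun r => ?_
        rw [cv_iUnion]
        exact iUnion_congr fun _ => csq_eq_cv r s
      have e2 : pun N A ∪ csq q s = cv ((rect 0 0 N N \ A) ∪ rect q.1 q.2 s s) := by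
        rw [cv_union, ← pun_eq_cv, csq_eq_cv]
      have e3 : pun N A ∪ ⋃ r ∈ insert q R, csq r s =
          cv (((rect 0 0 N N \ A) ∪ ⋃ r ∈ R, rect r.1 r.2 s s) ∪
            ((rect 0 0 N N \ A) ∪ rect q.1 q.2 s s)) := by
        rw [cv_union, ← e1, ← e2, Finset.set_biUnion_insert]
        ext v
        simp only [mem_union]
        tauto
      rw [e3]
      rw [e1] at ih'
      have h4 := h1 q hqQ
      rw [e2] at h4
      refine glue_cv h hc ?_ ?_ hA ?_ ?_ ?_ ih' h4
      · refine union_subset sdiff_subset ?_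
        intro v hv
        simp only [mem_iUnion, exists_prop] at hv
        obtain ⟨r, hr, hv⟩ := hv
        exact hrect r (hR' hr) hv
      · exact union_subset sdiff_subset (hrect q hqQ)
      · rw [pun_eq_cv]
        exact cv_mono subset_union_left
      · rw [pun_eq_cv]
        exact cv_mono subset_union_left
      · rintro i hi j hj hi' hj' hij
        have hj2 : j ∈ rect q.1 q.2 s s := by
          rcases hj with hj | hj
          · exact absurd (Or.inl hj) hj'
          · exact hj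
        have hi2 : i ∈ ⋃ r ∈ R, rect r.1 r.2 s s := by
          rcases hi with hi | hi
          · exact absurd (Or.inl hi) hi'
          · exact hi
        simp only [mem_iUnion, exists_prop] at hi2
        obtain ⟨r, hr, hi2⟩ := hi2
        have hne : q ≠ r := by
          rintro rfl
          exact hq hr
        have h5 := hfar q hqQ r (hR' hr) hne
        obtain ⟨k1, k2, k3, k4⟩ := hj2
        obtain ⟨l1, l2, l3, l4⟩ := hi2
        unfold Far at h5
        unfold adj at hij
        omega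
  exact key Q (Finset.Subset.refl _)

/-- L4: a sub-block far from few cells -/
theorem exists_subblock (n D K : ℕ) (X : ℕ × ℕ) (Z : Finset (ℕ × ℕ)) (hZ : Z.card ≤ K) :
    ∃ X' : ℕ × ℕ, X.1 ≤ X'.1 ∧ X'.1 + n ≤ X.1 + (K + 1) * (n + 2 * D) ∧ X'.2 = X.2 ∧
      ∀ i ∈ Z, Far D i 1 X' n := by
  classical
  by_contra hcon
  push Not at hcon
  have h1 : ∀ j ∈ Finset.range (K + 1), ∃ i ∈ Z,
      ¬ Far D i 1 (X.1 + j * (n + 2 * D), X.2) n := by
    intro j hj
    rw [Finset.mem_range] at hj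
    refine hcon (X.1 + j * (n + 2 * D), X.2) (by simp only; omega) ?_ rfl
    have h2 : (j + 1) * (n + 2 * D) ≤ (K + 1) * (n + 2 * D) := Nat.mul_le_mul_right _ (by omega)
    have h3 : (j + 1) * (n + 2 * D) = j * (n + 2 * D) + (n + 2 * D) := by ring
    simp only
    omega
  choose! f hf hf' using h1
  have h2 : Z.card < (Finset.range (K + 1)).card := by
    rw [Finset.card_range]
    omega
  obtain ⟨j, hj, j', hj', hne, hff⟩ := Finset.exists_ne_map_eq_of_card_lt_of_maps_to h2
    (fun j hj => hf j hj)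
  have h3 := hf' j hj
  have h4 := hf' j' hj'
  rw [← hff] at h4
  unfold Far at h3 h4
  push Not at h3 h4
  simp only at h3 h4
  obtain ⟨a1, a2, -, -⟩ := h3
  obtain ⟨b1, b2, -, -⟩ := h4
  rcases lt_or_gt_of_ne hne with h5 | h5
  · have h6 : (j + 1) * (n + 2 * D) ≤ j' * (n + 2 * D) := Nat.mul_le_mul_right _ (by omega)
    have h7 : (j + 1) * (n + 2 * D) = j * (n + 2 * D) + (n + 2 * D) := by ring
    omega
  · have h6 : (j' + 1) * (n + 2 * D) ≤ j * (n + 2 * D) := Nat.mul_le_mul_right _ (by omega)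
    have h7 : (j' + 1) * (n + 2 * D) = j' * (n + 2 * D) + (n + 2 * D) := by ring
    omega

end CWL
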