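import Pool.Agent.CW.FineA
import Pool.Agent.CW.Cluster

/-!
# Theorem CW, row F: two critical squares
-/

open Set BIC BICS
open scoped Matroid

namespace CWL

universe u

/-- the cells of the square with corner `q` and side `s` -/
abbrev sq (q : ℕ × ℕ) (s : ℕ) : Set (ℕ × ℕ) := rect q.1 q.2 s s

/-- the cells of a square, as a finite set -/
def sqF (q : ℕ × ℕ) (s : ℕ) : Finset (ℕ × ℕ) :=
  Finset.Ico q.1 (q.1 + s) ×ˢ Finset.Ico q.2 (q.2 + s)

lemma mem_sqF {q i : ℕ × ℕ} {s : ℕ} : i ∈ sqF q s ↔ i ∈ sq q s := by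
  simp only [sqF, Finset.mem_product, Finset.mem_Ico, rect, mem_ofPred_eq]
  tauto

lemma sqF_card (q : ℕ × ℕ) (s : ℕ) : (sqF q s).card = s ^ 2 := by
  rw [sqF, Finset.card_product, Nat.card_Ico, Nat.card_Ico, pow_two]
  congr 1 <;> omega

/-- the corner of the square enlarged by one cell in every direction -/
def encl (q : ℕ × ℕ) : ℕ × ℕ := (q.1 - 1, q.2 - 1)

section two

variable {α : Type u} {M : Matroid α} {C T B : Set α} {ends : α → Sym2 (ℕ × ℕ)} {N F : ℕ}

/-- **L2.** One element without hole, at one scale: two critical squares deep inside. -/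
theorem two_crit (hcr : CrossStmt2.{u}) [M.Finite] (h : Ctx M C T B ends N F) {c : α}
    (hc : c ∈ C \ B) {A Q : Finset (ℕ × ℕ)} {b b' s L L' δ D n : ℕ} {X : ℕ × ℕ}
    (hAb : A.card ≤ b) (hQb : Q.card ≤ b) (hs : 1 ≤ s) (hL : L = s + 2) (hδ : 1 ≤ δ)
    (hD : 2 * L + δ ≤ D) (hF : b + b * L ^ 2 + L ^ 2 ≤ F) (hb' : b + b * L ^ 2 ≤ b')
    (hL' : L ≤ L') (hinv : ¬ Vis M C B (ins T ends (pun N A)) c)
    (hfar : ∀ q ∈ Q, ∀ r ∈ Q, q ≠ r → Far (δ + 4) q s r s)
    (hcov : ∀ i ∈ A, ∃ q ∈ Q, i ∈ rect q.1 q.2 s s) (hX1 : X.1 + n ≤ N) (hX2 : X.2 + n ≤ N)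
    (hbad : ¬ Hole M C T B ends N (X.1 + D, X.2 + D) (n - 2 * D) L' b' c) :
    ∃ (A' H : Finset (ℕ × ℕ)) (p : Fin 2 → ℕ × ℕ), A'.card ≤ b + b * L ^ 2 ∧ H.card ≤ b ∧
      ¬ Vis M C B (ins T ends (pun N A')) c ∧
      (∀ i ∈ A', i ∈ rect (X.1 + L) (X.2 + L) (n - 2 * L) (n - 2 * L) →
        ∃ q ∈ H, i ∈ rect q.1 q.2 L L) ∧
      (∀ q ∈ H, ∀ i ∈ rect q.1 q.2 L L, i ∈ A') ∧
      (∀ q ∈ H, ∀ q' ∈ H, q ≠ q' → Far δ q L q' L) ∧
      (∀ q ∈ H, ∃ i ∈ A, i ∈ rect X.1 X.2 n n ∧ i ∈ rect q.1 q.2 L L) ∧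
      p 0 ≠ p 1 ∧ ∀ j, p j ∈ H ∧
        (X.1 + L + δ ≤ (p j).1 ∧ X.2 + L + δ ≤ (p j).2 ∧
          (p j).1 + L + δ ≤ X.1 + L + (n - 2 * L) ∧ (p j).2 + L + δ ≤ X.2 + L + (n - 2 * L)) ∧
        ∃ (v : ℕ → ℕ × ℕ) (l : ℕ), CrossPath (p j) L v l ∧
          Vis M C B (ins T ends (pun N A') ∪ pthE T ends v l) c := by
  classical
  -- the enlarged squares which meet the inner block
  let I1 : Set (ℕ × ℕ) := rect (X.1 + L) (X.2 + L) (n - 2 * L) (n - 2 * L)
  let I2 : Set (ℕ × ℕ) := rect (X.1 + D) (X.2 + D) (n - 2 * D) (n - 2 * D)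
  let H : Finset (ℕ × ℕ) := (Q.filter fun q => (∃ i ∈ A, i ∈ sq q s) ∧
    ∃ i ∈ sq (encl q) L, i ∈ I1).image encl
  let A' : Finset (ℕ × ℕ) := A ∪ H.biUnion fun p => sqF p L
  have hH : ∀ p ∈ H, ∃ q ∈ Q, p = encl q ∧ (∃ i ∈ A, i ∈ sq q s) ∧
      ∃ i ∈ sq (encl q) L, i ∈ I1 := by
    intro p hp
    obtain ⟨q, hq, rfl⟩ := Finset.mem_image.1 hp
    obtain ⟨h1, h2, h3⟩ := Finset.mem_filter.1 hq
    exact ⟨q, h1, rfl, h2, h3⟩
  have hin : ∀ p ∈ H, ∃ q ∈ Q, p.1 + 1 = q.1 ∧ p.2 + 1 = q.2 ∧ (∃ i ∈ A, i ∈ sq q s) ∧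
      X.1 < p.1 ∧ X.2 < p.2 ∧ p.1 + L < X.1 + n ∧ p.2 + L < X.2 + n := by
    intro p hp
    obtain ⟨q, hq, rfl, h1, i, h2, h3⟩ := hH p hp
    refine ⟨q, hq, ?_⟩
    simp only [rect, mem_ofPred_eq, I1, encl] at h2 h3
    refine ⟨by simp only [encl]; omega, by simp only [encl]; omega, h1, ?_⟩
    simp only [encl]
    omega
  have hcardH : H.card ≤ b := Finset.card_image_le.trans ((Finset.card_filter_le _ _).trans hQb)
  have hcardA : A'.card ≤ b + b * L ^ 2 := by
    refine (Finset.card_union_le _ _).trans (Nat.add_le_add hAb ?_)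
    refine (Finset.card_biUnion_le_card_mul _ _ (L ^ 2) fun p _ => (sqF_card p L).le).trans ?_
    exact Nat.mul_le_mul hcardH le_rfl
  have hmemA' : ∀ i, i ∈ A' ↔ i ∈ A ∨ ∃ p ∈ H, i ∈ sq p L := by
    intro i
    simp only [A', Finset.mem_union, Finset.mem_biUnion, mem_sqF]
  have hHA' : ∀ q ∈ H, ∀ i ∈ rect q.1 q.2 L L, i ∈ A' := fun q hq i hi =>
    (hmemA' i).2 (Or.inr ⟨q, hq, hi⟩)
  have hfarH : ∀ q ∈ H, ∀ q' ∈ H, q ≠ q' → Far δ q L q' L := by
    intro p hp p' hp' hne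
    obtain ⟨q, hq, h1, h2, -⟩ := hin p hp
    obtain ⟨q', hq', h1', h2', -⟩ := hin p' hp'
    have hqq : q ≠ q' := by
      rintro rfl
      exact hne (Prod.ext (by omega) (by omega))
    have := hfar q hq q' hq' hqq
    unfold Far at this ⊢
    omega
  have hcovH : ∀ i ∈ A, i ∈ I1 → ∃ q ∈ Q, i ∈ sq q s ∧ encl q ∈ H := by
    intro i hi hi1
    obtain ⟨q, hq, hiq⟩ := hcov i hi
    refine ⟨q, hq, hiq, Finset.mem_image.2 ⟨q, Finset.mem_filter.2 ⟨hq, ⟨i, hi, hiq⟩, i, ?_,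
      hi1⟩, rfl⟩⟩
    simp only [rect, mem_ofPred_eq, encl] at hiq ⊢
    omega
  have hsub : ∀ {q i : ℕ × ℕ}, i ∈ sq q s → i ∈ sq (encl q) L := by
    intro q i hi
    simp only [rect, mem_ofPred_eq, encl] at hi ⊢
    omega
  have hcov1 : ∀ i ∈ A', i ∈ I1 → ∃ q ∈ H, i ∈ rect q.1 q.2 L L := by
    intro i hi hi1
    rcases (hmemA' i).1 hi with hi | hi
    · obtain ⟨q, hq, hiq, hqH⟩ := hcovH i hi hi1
      exact ⟨encl q, hqH, hsub hiq⟩
    · exact hi
  have hI : I2 ⊆ I1 := by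
    intro i hi
    simp only [rect, mem_ofPred_eq, I1, I2] at hi ⊢
    omega
  have hinv' : ¬ Vis M C B (ins T ends (pun N A')) c := by
    intro hv
    refine hinv (Vis.mono (ins_mono ?_) hv)
    rw [pun_eq_cv, pun_eq_cv]
    refine cv_mono (sdiff_subset_sdiff_right ?_)
    intro i hi
    exact Finset.mem_coe.2 ((hmemA' i).2 (Or.inl hi))
  have hnear : ∀ q ∈ H, ∃ i ∈ A, i ∈ rect X.1 X.2 n n ∧ i ∈ rect q.1 q.2 L L := by
    intro p hp
    obtain ⟨q, hq, h1, h2, ⟨i, hi, hiq⟩, h3, h4, h5, h6⟩ := hin p hp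
    simp only [rect, mem_ofPred_eq] at hiq ⊢
    exact ⟨i, hi, by omega, by omega⟩
  -- critical squares
  let Cr : ℕ × ℕ → Prop := fun p =>
    Vis M C B (ins T ends (cv (rect 0 0 N N \ (A' : Set (ℕ × ℕ)) ∪ sq p L))) c
  let H2 : Finset (ℕ × ℕ) := H.filter fun p => ∃ i ∈ sq p L, i ∈ I2
  have htwo : ∃ p ∈ H2, ∃ p' ∈ H2, p ≠ p' ∧ Cr p ∧ Cr p' := by
    by_contra hcon
    push Not at hcon
    apply hbad
    -- the critical square
    obtain ⟨q₀, hq₀⟩ : ∃ q₀ : ℕ × ℕ, ∀ p ∈ H2, Cr p → p = q₀ := by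
      by_cases hex : ∃ p ∈ H2, Cr p
      · obtain ⟨p, hp, hpc⟩ := hex
        refine ⟨p, fun p' hp' hpc' => ?_⟩
        by_contra hne
        exact hcon p' hp' p hp hne hpc' hpc
      · push Not at hex
        exact ⟨(0, 0), fun p hp hpc => absurd hpc (hex p hp)⟩
    have hgl := glue_squares (s := L) h hc (A := A')
      (hcardA.trans (by omega)) (Q := H2.filter fun p => ¬ Cr p)
      (by
        intro p hp
        obtain ⟨q, -, -, -, -, h3, h4, h5, h6⟩ :=
          hin p (Finset.mem_filter.1 (Finset.mem_filter.1 hp).1).1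
        omega)
      (by
        intro p hp p' hp' hne
        exact (hfarH p (Finset.mem_filter.1 (Finset.mem_filter.1 hp).1).1 p'
          (Finset.mem_filter.1 (Finset.mem_filter.1 hp').1).1 hne).mono hδ)
      hinv'
      (fun p hp => by
        have h1 := (Finset.mem_filter.1 hp).2
        rw [pun_eq_cv, csq_eq_cv, ← cv_union]
        exact h1)
    refine ⟨q₀, A'.filter fun i => ∀ p ∈ H2, i ∉ sq p L,
      (Finset.card_filter_le _ _).trans (hcardA.trans hb'), ?_, ?_⟩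
    · intro i hi
      obtain ⟨h1, h2⟩ := Finset.mem_filter.1 hi
      rw [csq_eq_cv, cl2_eq_cv, Set.disjoint_left]
      intro v hv hv'
      rw [mem_cv, mem_singleton_iff] at hv
      rw [mem_cv, hv] at hv'
      have hi2 : i ∈ I2 := hv'
      obtain ⟨p, hp, hip⟩ := hcov1 i h1 (hI hi2)
      exact h2 p (Finset.mem_filter.2 ⟨hp, i, hip, hi2⟩) hip
    · intro hv
      refine hgl (Vis.mono (ins_mono ?_) hv)
      have e1 : pun N A' ∪ ⋃ p ∈ H2.filter (fun p => ¬ Cr p), csq p L =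
          cv ((rect 0 0 N N \ (A' : Set (ℕ × ℕ))) ∪ ⋃ p ∈ H2.filter (fun p => ¬ Cr p), sq p L) := by
        rw [cv_union, ← pun_eq_cv, cv_iUnion]
        congr 1
        refine iUnion_congr fun r => ?_
        rw [cv_iUnion]
        exact iUnion_congr fun _ => csq_eq_cv r L
      rw [e1, pun_eq_cv, csq_eq_cv, ← cv_sdiff]
      refine cv_mono ?_
      rintro i ⟨⟨h1, h2⟩, h3⟩
      by_cases hi : i ∈ A'
      · right
        have h4 : ∃ p ∈ H2, i ∈ sq p L := by
          by_contra h4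
          push Not at h4
          exact h2 (Finset.mem_coe.2 (Finset.mem_filter.2 ⟨hi, h4⟩))
        obtain ⟨p, hp, hip⟩ := h4
        refine mem_iUnion₂.2 ⟨p, Finset.mem_filter.2 ⟨hp, fun hpc => ?_⟩, hip⟩
        rw [hq₀ p hp hpc] at hip
        apply h3
        simp only [rect, mem_ofPred_eq] at hip ⊢
        omega
      · exact Or.inl ⟨h1, fun h4 => hi (Finset.mem_coe.1 h4)⟩
  -- the paths
  have hpath : ∀ p ∈ H2, Cr p → (X.1 + L + δ ≤ p.1 ∧ X.2 + L + δ ≤ p.2 ∧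
      p.1 + L + δ ≤ X.1 + L + (n - 2 * L) ∧ p.2 + L + δ ≤ X.2 + L + (n - 2 * L)) ∧
      ∃ (v : ℕ → ℕ × ℕ) (l : ℕ), CrossPath p L v l ∧
        Vis M C B (ins T ends (pun N A') ∪ pthE T ends v l) c := by
    intro p hp hpc
    obtain ⟨hpH, i₀, hi₀, hi₀'⟩ := Finset.mem_filter.1 hp
    obtain ⟨q, hq, hq1, hq2, -, hX3, hX4, hX5, hX6⟩ := hin p hpH
    have hmar : X.1 + L + δ ≤ p.1 ∧ X.2 + L + δ ≤ p.2 ∧
        p.1 + L + δ ≤ X.1 + L + (n - 2 * L) ∧ p.2 + L + δ ≤ X.2 + L + (n - 2 * L) := by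
      simp only [rect, mem_ofPred_eq, I2] at hi₀ hi₀'
      omega
    refine ⟨hmar, ?_⟩
    have hsqp : ∀ i, i ∈ sq q s → i ∈ sq p L := by
      intro i hi
      simp only [rect, mem_ofPred_eq] at hi ⊢
      omega
    let A0 : Finset (ℕ × ℕ) := (A' \ sqF p L) ∪ sqF q s
    have hmemA0 : ∀ i, i ∈ A0 ↔ (i ∈ A' ∧ i ∉ sq p L) ∨ i ∈ sq q s := by
      intro i
      simp only [A0, Finset.mem_union, Finset.mem_sdiff, mem_sqF]
    have hA0A' : A0 ⊆ A' := by
      intro i hi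
      rcases (hmemA0 i).1 hi with hi | hi
      · exact hi.1
      · exact hHA' p hpH i (hsqp i hi)
    have hAA0 : A ⊆ A0 := by
      intro i hi
      rw [hmemA0]
      by_cases hip : i ∈ sq p L
      · right
        obtain ⟨q', hq', hiq'⟩ := hcov i hi
        by_cases hqq : q = q'
        · rw [hqq]
          exact hiq'
        · exfalso
          have := hfar q hq q' hq' hqq
          simp only [rect, mem_ofPred_eq] at hip hiq'
          unfold Far at this
          omega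
      · exact Or.inl ⟨(hmemA' i).2 (Or.inl hi), hip⟩
    have hcross := hcr M C T B ends N F s q A0 A' c h (hcardA.trans (by omega)) hs (by omega)
      (by omega) (by omega) (by omega) (by
        intro i hi
        constructor
        · intro hiA
          rcases (hmemA0 i).1 hiA with ⟨h1, h2⟩ | h1
          · exfalso
            rcases (hmemA' i).1 h1 with h1 | ⟨p', hp', hip'⟩
            · obtain ⟨q', hq', hiq'⟩ := hcov i h1
              by_cases hqq : q = q'
              · subst hqq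
                exact h2 (hsqp i hiq')
              · have := hfar q hq q' hq' hqq
                simp only [rect, mem_ofPred_eq] at hi hiq'
                unfold Far at this
                omega
            · have hpp : p ≠ p' := by
                rintro rfl
                exact h2 hip'
              have := hfarH p hpH p' hp' hpp
              simp only [rect, mem_ofPred_eq] at hi hip'
              unfold Far at this
              omega
          · exact h1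
        · intro hi'
          exact (hmemA0 i).2 (Or.inr hi')) (by
        intro i
        have e2 : i ∈ rect (q.1 - 1) (q.2 - 1) (s + 2) (s + 2) ↔ i ∈ sq p L := by
          simp only [rect, mem_ofPred_eq]
          omega
        rw [e2, hmemA0]
        constructor
        · intro hi
          by_cases hip : i ∈ sq p L
          · exact Or.inr hip
          · exact Or.inl (Or.inl ⟨hi, hip⟩)
        · rintro ((hi | hi) | hi)
          · exact hi.1
          · exact hHA' p hpH i (hsqp i hi)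
          · exact hHA' p hpH i hi) hc (by
        intro hv
        refine hinv (Vis.mono (ins_mono ?_) hv)
        rw [pun_eq_cv, pun_eq_cv]
        exact cv_mono (sdiff_subset_sdiff_right (Finset.coe_subset.2 hAA0))) (by
        refine Vis.mono (ins_mono ?_) hpc
        rw [pun_eq_cv, csq_eq_cv, ← cv_union]
        refine cv_mono ?_
        rintro i (⟨h1, h2⟩ | h1)
        · exact Or.inl ⟨h1, fun h3 => h2 (Finset.coe_subset.2 hA0A' h3)⟩
        · by_cases hiq : i ∈ sq q s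
          · exact Or.inr hiq
          · refine Or.inl ⟨?_, fun h3 => ?_⟩
            · simp only [rect, mem_ofPred_eq] at h1 ⊢
              omega
            · rcases (hmemA0 i).1 (Finset.mem_coe.1 h3) with h4 | h4
              · exact h4.2 h1
              · exact hiq h4)
    obtain ⟨v, l, hv, hvis⟩ := hcross
    have hpq : ((q.1 - 1, q.2 - 1) : ℕ × ℕ) = p := Prod.ext (by simp; omega) (by simp; omega)
    rw [hpq, ← hL] at hv
    exact ⟨v, l, hv, hvis⟩
  obtain ⟨p, hp, p', hp', hne, hpc, hpc'⟩ := htwo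
  refine ⟨A', H, ![p, p'], hcardA, hcardH, hinv', hcov1, hHA', hfarH, hnear, hne, ?_⟩
  intro j
  fin_cases j
  · exact ⟨(Finset.mem_filter.1 hp).1, hpath p hp hpc⟩
  · exact ⟨(Finset.mem_filter.1 hp').1, hpath p' hp' hpc'⟩

end two

end CWL
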