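import Pool.Agent.CW.Ess

/-!
# Theorem CW: assembly from the rows
-/

open Set BIC BICS
open scoped Matroid

namespace CWL

universe u

lemma Ctx.mono {α : Type*} {M : Matroid α} {C T B : Set α} {ends : α → Sym2 (ℕ × ℕ)}
    {N F F' : ℕ} (h : Ctx M C T B ends N F) (hF : F' ≤ F) : Ctx M C T B ends N F' :=
  ⟨h.ind, h.sub, h.bic, h.grd, h.BC, fun A hA => h.rob A (hA.trans hF)⟩

/-- **Assembly of Theorem CW.** -/
theorem cw_of {k : ℕ} (hA : EssPun.{u} k) (hF : FineStmt.{u} k) (hW : CoarseStmt.{u} k) :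
    CwStmt.{u} k := by
  obtain ⟨κ, hA⟩ := hA
  choose Ff Lf bf hF using hF κ
  choose Fc hW using hW κ
  obtain ⟨β, N₀, hA⟩ := hA fun b => max (Ff b) (Fc (Lf b) (bf b))
  refine ⟨κ, fun y => ?_⟩
  choose l n hl hW using fun L b => hW L b y
  choose N₁ hF using fun b => hF b (n (Lf b) (bf b))
  refine ⟨max N₀ ((Finset.range (β + 1)).sup N₁), fun N hN α M _ C T ends hC hT hB hG => ?_⟩
  rcases hA N ((le_max_left _ _).trans hN) M C T ends hC hT hB hG with h | ⟨B, hBC, hBκ, b, hb,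
    hctx, hloc⟩
  · exact Or.inl h
  have hN1 : N₁ b ≤ N :=
    (Finset.le_sup (f := N₁) (Finset.mem_range.2 (Nat.lt_succ_of_le hb))).trans
      ((le_max_right _ _).trans hN)
  rcases hF b N hN1 M C T B ends (hctx.mono (le_max_left _ _)) hBκ hloc with h | ⟨X, hX1, hX2,
    hhole⟩
  · exact Or.inl h
  rcases hW (Lf b) (bf b) M C T B ends N (hctx.mono (le_max_right _ _)) hBκ X hX1 hX2 hhole
    with h | ⟨Z, hZ1, hZ2, h⟩
  · exact Or.inl h
  exact Or.inr ⟨B, hBC, hBκ, Z, l (Lf b) (bf b), hl _ _, hZ1, hZ2, h⟩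

/-- segments of a brick wall in the interior of the grid -/
lemma segE_shift {α : Type*} {T₀ : Set α} {ends₀ : α → Sym2 (ℕ × ℕ)} {x y a b : ℕ}
    (hG : Grd T₀ ends₀ x y a b) {μ N l h : ℕ} {X : ℕ × ℕ} (h1 : X.1 + l * h < 2 * N)
    (h2 : X.2 + l * h < 2 * N) {s : Bool × ℕ × ℕ} (hs : s ∈ Seg h) :
    segE T₀ ends₀ (X.1 + μ, X.2 + μ) l s =
      segE (ins T₀ ends₀ (rect μ μ (2 * N) (2 * N))) (shE μ ends₀) X l s := by
  have key : (s.1 = true → (s.2.1 + 1) * l ≤ l * h) ∧ (s.1 = false → (s.2.2 + 1) * l ≤ l * h) ∧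
      s.2.1 * l ≤ l * h ∧ s.2.2 * l ≤ l * h := by
    rw [mul_comm l h]
    rcases hs with ⟨e1, e2, e3⟩ | ⟨e1, e2, e3, _⟩
    · refine ⟨fun _ => Nat.mul_le_mul_right _ e2, fun h => ?_, Nat.mul_le_mul_right _ e2.le,
        Nat.mul_le_mul_right _ e3⟩
      rw [h] at e1
      exact absurd e1 (by decide)
    · refine ⟨fun h => ?_, fun _ => Nat.mul_le_mul_right _ e3, Nat.mul_le_mul_right _ e2,
        Nat.mul_le_mul_right _ e3.le⟩
      rw [h] at e1
      exact absurd e1 (by decide)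
  obtain ⟨k1, k2, k3, k4⟩ := key
  have e5 : (s.2.1 + 1) * l = s.2.1 * l + l := by ring
  have e6 : (s.2.2 + 1) * l = s.2.2 * l + l := by ring
  rw [e5] at k1
  rw [e6] at k2
  ext e
  constructor
  · rintro ⟨he, t, ht, hcase⟩
    have hT : ∀ p q : ℕ × ℕ, ends₀ e = s((p.1 + μ, p.2 + μ), (q.1 + μ, q.2 + μ)) →
        p.1 < 2 * N → p.2 < 2 * N → q.1 < 2 * N → q.2 < 2 * N →
        e ∈ ins T₀ ends₀ (rect μ μ (2 * N) (2 * N)) ∧ shE μ ends₀ e = s(p, q) := by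
      intro p q hpq p1 p2 q1 q2
      refine ⟨⟨he, fun v hv => ?_⟩, ?_⟩
      · rw [hpq] at hv
        rcases Sym2.mem_iff.1 hv with rfl | rfl
        · simp only [rect, mem_ofPred_eq]; omega
        · simp only [rect, mem_ofPred_eq]; omega
      · simp only [shE, hpq, Sym2.map_mk, shf, Nat.add_sub_cancel]
    rcases hcase with ⟨hb, hE⟩ | ⟨hb, hE⟩
    · have k5 := k1 hb
      obtain ⟨h3, h4⟩ := hT (X.1 + s.2.1 * l + t, X.2 + s.2.2 * l)
        (X.1 + s.2.1 * l + t + 1, X.2 + s.2.2 * l) (by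
          rw [hE]
          congr 2 <;> simp only [Prod.mk.injEq] <;> omega) (by simp only; omega) (by simp only; omega)
          (by simp only; omega) (by simp only; omega)
      exact ⟨h3, t, ht, Or.inl ⟨hb, h4⟩⟩
    · have k5 := k2 hb
      obtain ⟨h3, h4⟩ := hT (X.1 + s.2.1 * l, X.2 + s.2.2 * l + t)
        (X.1 + s.2.1 * l, X.2 + s.2.2 * l + t + 1) (by
          rw [hE]
          congr 2 <;> simp only [Prod.mk.injEq] <;> omega) (by simp only; omega) (by simp only; omega)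
          (by simp only; omega) (by simp only; omega)
      exact ⟨h3, t, ht, Or.inr ⟨hb, h4⟩⟩
  · rintro ⟨⟨he, he2⟩, t, ht, hcase⟩
    refine ⟨he, t, ht, ?_⟩
    obtain ⟨p, q, hpq, _, _, _⟩ := hG.mem e he
    obtain ⟨p1, p2, p3, p4⟩ := he2 p (by rw [hpq]; simp)
    obtain ⟨q1, q2, q3, q4⟩ := he2 q (by rw [hpq]; simp)
    rcases hcase with ⟨hb, hE⟩ | ⟨hb, hE⟩
    · refine Or.inl ⟨hb, ?_⟩
      simp only [shE, hpq, Sym2.map_mk, Sym2.eq_iff, shf, Prod.mk.injEq] at hE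
      rw [hpq, Sym2.eq_iff]
      rcases hE with ⟨⟨a1, a2⟩, a3, a4⟩ | ⟨⟨a1, a2⟩, a3, a4⟩
      · exact Or.inl ⟨Prod.ext (by simp only; omega) (by simp only; omega),
          Prod.ext (by simp only; omega) (by simp only; omega)⟩
      · exact Or.inr ⟨Prod.ext (by simp only; omega) (by simp only; omega),
          Prod.ext (by simp only; omega) (by simp only; omega)⟩
    · refine Or.inr ⟨hb, ?_⟩
      simp only [shE, hpq, Sym2.map_mk, Sym2.eq_iff, shf, Prod.mk.injEq] at hE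
      rw [hpq, Sym2.eq_iff]
      rcases hE with ⟨⟨a1, a2⟩, a3, a4⟩ | ⟨⟨a1, a2⟩, a3, a4⟩
      · exact Or.inl ⟨Prod.ext (by simp only; omega) (by simp only; omega),
          Prod.ext (by simp only; omega) (by simp only; omega)⟩
      · exact Or.inr ⟨Prod.ext (by simp only; omega) (by simp only; omega),
          Prod.ext (by simp only; omega) (by simp only; omega)⟩

/-- **Assembly of Theorem CW** from the two open rows. -/
theorem cw_of' {k : ℕ} (hF : FineStmt.{u} k) (hW : CoarseStmt.{u} k) : CwStmt.{u} k := by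
  obtain ⟨κ, μ, hA⟩ := essMar.{u} k
  choose Ff Lf bf hF using hF κ
  choose Fc hW using hW κ
  obtain ⟨β, hA⟩ := hA fun b => max (Ff b) (Fc (Lf b) (bf b))
  refine ⟨κ, fun y => ?_⟩
  choose l n hl hW using fun L b => hW L b y
  choose N₁ hF using fun b => hF b (n (Lf b) (bf b))
  refine ⟨(Finset.range (β + 1)).sup N₁ + μ, fun N' hN' α M _ C T₀ ends₀ hC hT₀ hB₀ hG₀ => ?_⟩
  obtain ⟨N, rfl⟩ : ∃ N, N' = N + μ := ⟨N' - μ, by omega⟩
  have hG₁ : Grd T₀ ends₀ 0 0 (2 * N + 2 * μ) (2 * N + 2 * μ) := by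
    rw [← mul_add]; exact hG₀
  rcases hA N M C T₀ ends₀ hC hT₀ hB₀ hG₁ with h | ⟨B, hBC, hBκ, b, hb, hctx, hloc⟩
  · exact Or.inl h
  have hN1 : N₁ b ≤ N :=
    (Finset.le_sup (f := N₁) (Finset.mem_range.2 (Nat.lt_add_one_iff.2 hb))).trans (by omega)
  rcases hF b N hN1 M C _ B _ (hctx.mono (le_max_left _ _)) hBκ hloc with h | ⟨X, hX1, hX2,
    hhole⟩
  · exact Or.inl h
  rcases hW (Lf b) (bf b) M C _ B _ N (hctx.mono (le_max_right _ _)) hBκ X hX1 hX2 hhole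
    with h | ⟨Z, hZ1, hZ2, h⟩
  · exact Or.inl h
  refine Or.inr ⟨B, hBC, hBκ, (Z.1 + μ, Z.2 + μ), l (Lf b) (bf b), hl _ _, ?_, ?_, ?_⟩
  · simp only; omega
  · simp only; omega
  · have hseg := fun {s : Bool × ℕ × ℕ} (hs : s ∈ Seg y) =>
      segE_shift (μ := μ) (N := N) hG₁ hZ1 hZ2 hs
    have hwall : wallE T₀ ends₀ (Z.1 + μ, Z.2 + μ) (l (Lf b) (bf b)) y =
        wallE (ins T₀ ends₀ (rect μ μ (2 * N) (2 * N))) (shE μ ends₀) Z (l (Lf b) (bf b)) y := by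
      unfold wallE
      exact iUnion₂_congr fun s hs => hseg hs
    intro c hc
    rw [hwall]
    rcases h c hc with h1 | ⟨s, hs, h1⟩
    · exact Or.inl h1
    · refine Or.inr ⟨s, hs, fun r hr => h1 r ?_⟩
      rw [← hseg hs]
      exact hr

end CWL
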