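import Pool.Agent.CW.FineB
import Pool.Agent.CW.Main

/-!
# Theorem CW, row F: many far apart elements without hole
-/

open Set BIC BICS
open scoped Matroid

namespace CWL

universe u

/-- **L3.** Many elements without hole, whose cells in the block are far apart, give the uniform
minor. -/
theorem far_family (k : ℕ) (hC : CertC.{u} k) (hK : ClusterStmt) (hcr : CrossStmt2.{u})
    (κ b : ℕ) : ∃ F L b' m Δ D : ℕ, b ≤ b' ∧ ∀ {α : Type u} (M : Matroid α) [M.Finite]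
    (C T B : Set α) (ends : α → Sym2 (ℕ × ℕ)) (N : ℕ), Ctx M C T B ends N F → B.ncard ≤ κ →
    ∀ (X : ℕ × ℕ) (n : ℕ), X.1 + n ≤ N → X.2 + n ≤ N →
    ∀ (c : Fin m → α) (A : Fin m → Finset (ℕ × ℕ)), (∀ t, c t ∈ C \ B) →
    (∀ t, (A t).card ≤ b ∧ ¬ Vis M C B (ins T ends (pun N (A t))) (c t)) →
    (∀ t t', t ≠ t' → ∀ i ∈ A t, ∀ j ∈ A t', i ∈ rect X.1 X.2 n n → j ∈ rect X.1 X.2 n n →
      Far Δ i 1 j 1) →
    (∀ t, ¬ Hole M C T B ends N (X.1 + D, X.2 + D) (n - 2 * D) L b' (c t)) →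
    HasUniformMinor M k := by
  classical
  -- the constants of the certificates
  have hC' : ∀ s : ℕ, ∃ F m δ : ℕ, 1 ≤ δ ∧ ∀ {α : Type u} (M : Matroid α) [M.Finite]
      (C T B : Set α) (ends : α → Sym2 (ℕ × ℕ)) (N : ℕ), Ctx M C T B ends N F → B.ncard ≤ κ →
      ∀ (X : ℕ × ℕ) (n : ℕ), X.1 + n ≤ N → X.2 + n ≤ N →
      ∀ (c : Fin m → α) (A H : Fin m → Finset (ℕ × ℕ)) (p : Fin m × Fin 2 → ℕ × ℕ),
      (∀ t, c t ∈ C \ B) →
      (∀ t, (A t).card ≤ b + b * (s + 2) ^ 2 ∧ (H t).card ≤ b + b * (s + 2) ^ 2 ∧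
        ¬ Vis M C B (ins T ends (pun N (A t))) (c t)) →
      (∀ t, ∀ i ∈ A t, i ∈ rect X.1 X.2 n n → ∃ q ∈ H t, i ∈ rect q.1 q.2 (s + 2) (s + 2)) →
      (∀ t, ∀ q ∈ H t, ∀ i ∈ rect q.1 q.2 (s + 2) (s + 2), i ∈ A t) →
      (∀ t t', ∀ q ∈ H t, ∀ q' ∈ H t', (t ≠ t' ∨ q ≠ q') → Far δ q (s + 2) q' (s + 2)) →
      (∀ t, p t ∈ H t.1) → Function.Injective p →
      (∀ t, X.1 + δ ≤ (p t).1 ∧ X.2 + δ ≤ (p t).2 ∧ (p t).1 + (s + 2) + δ ≤ X.1 + n ∧
        (p t).2 + (s + 2) + δ ≤ X.2 + n) →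
      (∀ t, ∃ (v : ℕ → ℕ × ℕ) (l : ℕ), CrossPath (p t) (s + 2) v l ∧
        Vis M C B (ins T ends (pun N (A t.1)) ∪ pthE T ends v l) (c t.1)) →
      HasUniformMinor M k := by
    intro s
    obtain ⟨F, m, δ, h⟩ := hC κ (s + 2) (b + b * (s + 2) ^ 2) (by omega)
    refine ⟨F, m, δ + 1, by omega, ?_⟩
    intro α M _ C T B ends N hctx hB X n hX1 hX2 c A H p h1 h2 h3 h4 h5 h6 h7 h8 h9
    refine h M C T B ends N hctx hB X n hX1 hX2 c A H p h1 h2 h3 h4 ?_ h6 h7 ?_ h9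
    · intro t t' q hq q' hq' hne
      exact (h5 t t' q hq q' hq' hne).mono (by omega)
    · intro t
      have := h8 t
      omega
  choose Fc mc δc hδc hcert using hC'
  obtain ⟨sc, hsc, hclu⟩ := hK b fun s => δc s + 4
  -- the maxima over the scales
  have hsup : ∀ f : ℕ → ℕ, ∃ K : ℕ, ∀ j ≤ b, f j ≤ K := fun f =>
    ⟨(Finset.range (b + 1)).sup f, fun j hj =>
      Finset.le_sup (f := f) (Finset.mem_range.2 (Nat.lt_succ_of_le hj))⟩
  obtain ⟨Lm, hLm⟩ := hsup fun j => sc j + 2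
  obtain ⟨δm, hδm⟩ := hsup fun j => δc (sc j)
  obtain ⟨mm, hmm⟩ := hsup fun j => mc (sc j)
  obtain ⟨Fm, hFm⟩ := hsup fun j => Fc (sc j)
  have hL2 : ∀ j ≤ b, (sc j + 2) ^ 2 ≤ Lm ^ 2 := fun j hj => Nat.pow_le_pow_left (hLm j hj) 2
  have hbL2 : ∀ j ≤ b, b * (sc j + 2) ^ 2 ≤ b * Lm ^ 2 := fun j hj =>
    Nat.mul_le_mul_left b (hL2 j hj)
  refine ⟨max Fm (b + b * Lm ^ 2 + Lm ^ 2), Lm, b + b * Lm ^ 2, (b + 1) * mm, 2 * Lm + δm,
    2 * Lm + δm, by omega, ?_⟩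
  intro α M _ C T B ends N hctx hB X n hX1 hX2 c A hc hA hfar hbad
  -- the scale of every element
  have hscale : ∀ t, ∃ j ≤ b, ∃ Q : Finset (ℕ × ℕ), Q.card ≤ b ∧
      (∀ q ∈ Q, ∀ r ∈ Q, q ≠ r → Far (δc (sc j) + 4) q (sc j) r (sc j)) ∧
      ∀ i ∈ A t, ∃ q ∈ Q, i ∈ rect q.1 q.2 (sc j) (sc j) := fun t => hclu (A t) (hA t).1
  choose jt hjt Q hQ hQfar hQcov using hscale
  -- pigeonhole
  obtain ⟨j, hj, hfib⟩ : ∃ j ∈ Finset.range (b + 1),
      mm ≤ (Finset.univ.filter fun t => jt t = j).card := by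
    refine Finset.exists_le_card_fiber_of_mul_le_card_of_maps_to
      (fun t _ => Finset.mem_range.2 (Nat.lt_succ_of_le (hjt t))) ⟨0, Finset.mem_range.2 (by omega)⟩
      ?_
    rw [Finset.card_range, Finset.card_univ, Fintype.card_fin]
  have hjb : j ≤ b := Nat.lt_succ_iff.1 (Finset.mem_range.1 hj)
  have hm : mc (sc j) ≤ (Finset.univ.filter fun t => jt t = j).card := (hmm j hjb).trans hfib
  obtain ⟨S, hS, hScard⟩ := Finset.exists_subset_card_eq hm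
  let e : Fin (mc (sc j)) ≃ S := (Finset.equivFinOfCardEq hScard).symm
  let σ : Fin (mc (sc j)) → Fin ((b + 1) * mm) := fun t => (e t : Fin ((b + 1) * mm))
  have hσ : Function.Injective σ := fun a a' h => e.injective (Subtype.ext h)
  have hσj : ∀ t, jt (σ t) = j := fun t => (Finset.mem_filter.1 (hS (e t).2)).2
  have hδm' := hδm j hjb
  have hLm' := hLm j hjb
  have hbL2' := hbL2 j hjb
  have hL2' := hL2 j hjb
  -- the squares
  have hstep : ∀ t, ∃ (A' H : Finset (ℕ × ℕ)) (p : Fin 2 → ℕ × ℕ),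
      A'.card ≤ b + b * (sc j + 2) ^ 2 ∧ H.card ≤ b ∧
      ¬ Vis M C B (ins T ends (pun N A')) (c (σ t)) ∧
      (∀ i ∈ A', i ∈ rect (X.1 + (sc j + 2)) (X.2 + (sc j + 2)) (n - 2 * (sc j + 2))
        (n - 2 * (sc j + 2)) → ∃ q ∈ H, i ∈ rect q.1 q.2 (sc j + 2) (sc j + 2)) ∧
      (∀ q ∈ H, ∀ i ∈ rect q.1 q.2 (sc j + 2) (sc j + 2), i ∈ A') ∧
      (∀ q ∈ H, ∀ q' ∈ H, q ≠ q' → Far (δc (sc j)) q (sc j + 2) q' (sc j + 2)) ∧
      (∀ q ∈ H, ∃ i ∈ A (σ t), i ∈ rect X.1 X.2 n n ∧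
        i ∈ rect q.1 q.2 (sc j + 2) (sc j + 2)) ∧
      p 0 ≠ p 1 ∧ ∀ a, p a ∈ H ∧
        (X.1 + (sc j + 2) + δc (sc j) ≤ (p a).1 ∧ X.2 + (sc j + 2) + δc (sc j) ≤ (p a).2 ∧
          (p a).1 + (sc j + 2) + δc (sc j) ≤ X.1 + (sc j + 2) + (n - 2 * (sc j + 2)) ∧
          (p a).2 + (sc j + 2) + δc (sc j) ≤ X.2 + (sc j + 2) + (n - 2 * (sc j + 2))) ∧
        ∃ (v : ℕ → ℕ × ℕ) (l : ℕ), CrossPath (p a) (sc j + 2) v l ∧
          Vis M C B (ins T ends (pun N A') ∪ pthE T ends v l) (c (σ t)) := by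
    intro t
    have hq1 := hQfar (σ t)
    have hq2 := hQcov (σ t)
    rw [hσj t] at hq1 hq2
    exact two_crit hcr hctx (hc (σ t)) (hA (σ t)).1 (hQ (σ t)) (hsc j) rfl (hδc (sc j))
      (by omega) (by omega) (by omega) hLm' (hA (σ t)).2 hq1 hq2 hX1 hX2 (hbad (σ t))
  choose A' H p hA'card hHcard hinv hcov hHA hfarH hnear hne hp using hstep
  have hn : 0 < mc (sc j) → 2 * (sc j + 2) ≤ n := by
    intro h0
    have := (hp ⟨0, h0⟩ 0).2.1
    omega
  have hfar2 : ∀ t t', t ≠ t' → ∀ q ∈ H t, ∀ q' ∈ H t',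
      Far (δc (sc j)) q (sc j + 2) q' (sc j + 2) := by
    intro t t' htt q hq q' hq'
    obtain ⟨i, hi, hiX, hiq⟩ := hnear t q hq
    obtain ⟨i', hi', hiX', hiq'⟩ := hnear t' q' hq'
    have := hfar (σ t) (σ t') (fun h => htt (hσ h)) i hi i' hi' hiX hiX'
    simp only [rect, mem_ofPred_eq] at hiq hiq'
    unfold Far at this ⊢
    omega
  by_cases h0 : 0 < mc (sc j)
  swap
  · have h0' : mc (sc j) = 0 := by omega
    have hem : IsEmpty (Fin (mc (sc j))) := by rw [h0']; infer_instance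
    refine hcert (sc j) M C T B ends N (hctx.mono ((hFm j hjb).trans (le_max_left _ _))) hB X n
      hX1 hX2 (fun t => (hem.false t).elim) (fun t => (hem.false t).elim)
      (fun t => (hem.false t).elim) (fun t => (hem.false t.1).elim) ?_ ?_ ?_ ?_ ?_ ?_ ?_ ?_ ?_
    · exact fun t => (hem.false t).elim
    · exact fun t => (hem.false t).elim
    · exact fun t => (hem.false t).elim
    · exact fun t => (hem.false t).elim
    · exact fun t => (hem.false t).elim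
    · exact fun t => (hem.false t.1).elim
    · exact fun t => (hem.false t.1).elim
    · exact fun t => (hem.false t.1).elim
    · exact fun t => (hem.false t.1).elim
  have hn' := hn h0
  refine hcert (sc j) M C T B ends N (hctx.mono ((hFm j hjb).trans (le_max_left _ _))) hB
    (X.1 + (sc j + 2), X.2 + (sc j + 2)) (n - 2 * (sc j + 2)) (by simp only; omega)
    (by simp only; omega) (fun t => c (σ t)) A' H (fun t => p t.1 t.2) (fun t => hc (σ t))
    (fun t => ⟨hA'card t, (hHcard t).trans (by omega), hinv t⟩) hcov hHA ?_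
    (fun t => (hp t.1 t.2).1) ?_ ?_ (fun t => (hp t.1 t.2).2.2)
  · intro t t' q hq q' hq' hor
    by_cases htt : t = t'
    · subst htt
      refine hfarH t q hq q' hq' ?_
      rcases hor with h1 | h1
      · exact absurd rfl h1
      · exact h1
    · exact hfar2 t t' htt q hq q' hq'
  · rintro ⟨t, a⟩ ⟨t', a'⟩ h1
    simp only at h1
    have htt : t = t' := by
      by_contra htt
      have := hfar2 t t' htt _ (hp t a).1 _ (hp t' a').1
      rw [h1] at this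
      unfold Far at this
      omega
    subst htt
    have haa : a = a' := by
      by_contra haa
      apply hne t
      fin_cases a <;> fin_cases a'
      · exact absurd rfl haa
      · exact h1
      · exact h1.symm
      · exact absurd rfl haa
    rw [haa]
  · intro t
    have := (hp t.1 t.2).2.1
    simp only
    omega

end CWL
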