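import Pool.Agent.CW.FineC
import Pool.Agent.CW.Cross2
import Pool.Agent.CW.Defs3

/-!
# Theorem CW, row F: the rounds
-/

open Set BIC BICS
open scoped Matroid

namespace CWL

universe u

section rounds

variable {α : Type u} {M : Matroid α} {C T B : Set α} {ends : α → Sym2 (ℕ × ℕ)} {N : ℕ}

lemma Hole.mono_block {X X' : ℕ × ℕ} {n n' L b : ℕ} {c : α} (hsub : csq X' n' ⊆ csq X n)
    (h : Hole M C T B ends N X n L b c) : Hole M C T B ends N X' n' L b c := by
  obtain ⟨q, A, h1, h2, h3⟩ := h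
  exact ⟨q, A, h1, fun i hi => (h2 i hi).mono_right hsub, h3⟩

/-- the cells of `A` in a block -/
noncomputable def inB (A : Finset (ℕ × ℕ)) (X : ℕ × ℕ) (n : ℕ) : Finset (ℕ × ℕ) := by
  classical
  exact A.filter fun i => i ∈ rect X.1 X.2 n n

lemma mem_inB {A : Finset (ℕ × ℕ)} {X : ℕ × ℕ} {n : ℕ} {i : ℕ × ℕ} :
    i ∈ inB A X n ↔ i ∈ A ∧ i ∈ rect X.1 X.2 n n := by
  classical
  rw [inB, Finset.mem_filter]

/-- the sides of the blocks -/
def sds (n m b Δ D : ℕ) : ℕ → ℕ
  | 0 => n + 2 * D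
  | s + 1 => (m * b + 1) * (sds n m b Δ D s + 2 * (Δ + 1))

lemma sds_le (n m b Δ D s : ℕ) : sds n m b Δ D s ≤ sds n m b Δ D (s + 1) := by
  rw [sds]
  calc sds n m b Δ D s ≤ sds n m b Δ D s + 2 * (Δ + 1) := Nat.le_add_right _ _
    _ = 1 * (sds n m b Δ D s + 2 * (Δ + 1)) := (one_mul _).symm
    _ ≤ (m * b + 1) * (sds n m b Δ D s + 2 * (Δ + 1)) := Nat.mul_le_mul_right _ (by omega)

lemma le_sds (n m b Δ D s : ℕ) : n + 2 * D ≤ sds n m b Δ D s := by
  induction s with
  | zero => exact le_refl _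
  | succ s ih => exact ih.trans (sds_le n m b Δ D s)

/-- **L5.** The rounds. -/
theorem rounds [M.Finite] {k n m b b' L Δ D : ℕ} (hbb : b ≤ b') (A : α → Finset (ℕ × ℕ))
    (hA : ∀ c ∈ C \ B, (A c).card ≤ b ∧ ¬ Vis M C B (ins T ends (pun N (A c))) c)
    (hfam : ∀ (X : ℕ × ℕ) (n : ℕ), X.1 + n ≤ N → X.2 + n ≤ N → ∀ (c : Fin m → α),
      (∀ t, c t ∈ C \ B) → (∀ t t', t ≠ t' → ∀ i ∈ A (c t), ∀ j ∈ A (c t'),
        i ∈ rect X.1 X.2 n n → j ∈ rect X.1 X.2 n n → Far Δ i 1 j 1) →
      (∀ t, ¬ Hole M C T B ends N (X.1 + D, X.2 + D) (n - 2 * D) L b' (c t)) →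
      HasUniformMinor M k) :
    ∀ (s : ℕ) (X : ℕ × ℕ), X.1 + sds n m b Δ D s ≤ N → X.2 + sds n m b Δ D s ≤ N →
      (∀ c ∈ C \ B, ¬ Hole M C T B ends N (X.1 + D, X.2 + D) (sds n m b Δ D s - 2 * D) L b' c →
        (inB (A c) X (sds n m b Δ D s)).card ≤ s) →
      HasUniformMinor M k ∨ ∃ X' : ℕ × ℕ, X'.1 + n ≤ N ∧ X'.2 + n ≤ N ∧
        ∀ c ∈ C \ B, Hole M C T B ends N X' n L b' c := by
  classical
  intro s
  induction s with
  | zero =>
    intro X hX1 hX2 hc
    right
    refine ⟨(X.1 + D, X.2 + D), ?_, ?_, ?_⟩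
    · rw [sds] at hX1
      simp only
      omega
    · rw [sds] at hX2
      simp only
      omega
    · intro c hcC
      by_contra hno
      have hsz : sds n m b Δ D 0 - 2 * D = n := by rw [sds]; omega
      have h1 := hc c hcC (by rw [hsz]; exact hno)
      have h2 : inB (A c) X (sds n m b Δ D 0) = ∅ := Finset.card_eq_zero.1 (by omega)
      apply hno
      refine ⟨(0, 0), A c, (hA c hcC).1.trans hbb, ?_, ?_⟩
      · intro i hi
        rw [csq_eq_cv, cl2_eq_cv, Set.disjoint_left]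
        intro v hv hv'
        rw [mem_cv, mem_singleton_iff] at hv
        rw [mem_cv, hv] at hv'
        have h3 : i ∈ inB (A c) X (sds n m b Δ D 0) := by
          rw [mem_inB]
          refine ⟨hi, ?_⟩
          simp only [rect, mem_ofPred_eq, sds] at hv' ⊢
          omega
        rw [h2] at h3
        exact absurd h3 (Finset.notMem_empty _)
      · intro hv
        exact (hA c hcC).2 (Vis.mono (ins_mono sdiff_subset) hv)
  | succ s ih =>
    intro X hX1 hX2 hc
    set n1 := sds n m b Δ D (s + 1) with hn1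
    set n0 := sds n m b Δ D s with hn0
    -- families
    let Fam : ℕ → Prop := fun t => ∃ c : Fin t → α, (∀ a, c a ∈ C \ B) ∧
      (∀ a a', a ≠ a' → ∀ i ∈ A (c a), ∀ j ∈ A (c a'),
        i ∈ rect X.1 X.2 n1 n1 → j ∈ rect X.1 X.2 n1 n1 → Far Δ i 1 j 1) ∧
      ∀ a, ¬ Hole M C T B ends N (X.1 + D, X.2 + D) (n1 - 2 * D) L b' (c a)
    by_cases hm : Fam m
    · obtain ⟨c, h1, h2, h3⟩ := hm
      exact Or.inl (hfam X n1 hX1 hX2 c h1 h2 h3)
    -- a maximal family
    obtain ⟨t, ht, hFt, hFt1⟩ : ∃ t < m, Fam t ∧ ¬ Fam (t + 1) := by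
      by_contra hcon
      push Not at hcon
      have h0 : Fam 0 := ⟨fun a => a.elim0, fun a => a.elim0, fun a => a.elim0, fun a => a.elim0⟩
      have h1 : ∀ t ≤ m, Fam t := by
        intro t
        induction t with
        | zero => intro _; exact h0
        | succ t iht => intro ht; exact hcon t (by omega) (iht (by omega))
      exact hm (h1 m le_rfl)
    obtain ⟨c, h1, h2, h3⟩ := hFt
    -- every element without hole has a cell near the family
    have hnear : ∀ c' ∈ C \ B,
        ¬ Hole M C T B ends N (X.1 + D, X.2 + D) (n1 - 2 * D) L b' c' →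
        ∃ a, ∃ i ∈ inB (A c') X n1, ∃ j ∈ inB (A (c a)) X n1, ¬ Far Δ i 1 j 1 := by
      intro c' hc' hno
      by_contra hcon
      push Not at hcon
      apply hFt1
      refine ⟨Fin.snoc c c', ?_, ?_, ?_⟩
      · intro a
        refine Fin.lastCases ?_ (fun a => ?_) a
        · rw [Fin.snoc_last]
          exact hc'
        · rw [Fin.snoc_castSucc]
          exact h1 a
      · intro a a'
        refine Fin.lastCases ?_ (fun a => ?_) a
        · refine Fin.lastCases ?_ (fun a' => ?_) a'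
          · intro h
            exact absurd rfl h
          · intro _
            rw [Fin.snoc_last, Fin.snoc_castSucc]
            intro i hi j hj hiX hjX
            exact hcon a' i (mem_inB.2 ⟨hi, hiX⟩) j (mem_inB.2 ⟨hj, hjX⟩)
        · refine Fin.lastCases ?_ (fun a' => ?_) a'
          · intro _
            rw [Fin.snoc_last, Fin.snoc_castSucc]
            intro i hi j hj hiX hjX
            exact (hcon a j (mem_inB.2 ⟨hj, hjX⟩) i (mem_inB.2 ⟨hi, hiX⟩)).symm
          · intro hne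
            rw [Fin.snoc_castSucc, Fin.snoc_castSucc]
            exact h2 a a' (fun h => hne (by rw [h]))
      · intro a
        refine Fin.lastCases ?_ (fun a => ?_) a
        · rw [Fin.snoc_last]
          exact hno
        · rw [Fin.snoc_castSucc]
          exact h3 a
    -- the cells of the family
    let Z : Finset (ℕ × ℕ) := Finset.univ.biUnion fun a => inB (A (c a)) X n1
    have hZ : Z.card ≤ m * b := by
      refine (Finset.card_biUnion_le_card_mul _ _ b fun a _ => ?_).trans ?_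
      · rw [inB]
        exact (Finset.card_filter_le _ _).trans (hA _ (h1 a)).1
      · rw [Finset.card_univ, Fintype.card_fin]
        exact Nat.mul_le_mul_right _ ht.le
    obtain ⟨X', hX'1, hX'2, hX'3, hX'4⟩ := exists_subblock n0 (Δ + 1) (m * b) X Z hZ
    have hn10 : n1 = (m * b + 1) * (n0 + 2 * (Δ + 1)) := rfl
    have hn01 : n0 ≤ n1 := sds_le n m b Δ D s
    have hnD : n + 2 * D ≤ n0 := le_sds n m b Δ D s
    have hX'5 : X'.1 + n0 ≤ X.1 + n1 := by rw [hn10]; exact hX'2
    refine ih X' (by omega) (by omega) ?_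
    intro c' hc' hno
    have hno1 : ¬ Hole M C T B ends N (X.1 + D, X.2 + D) (n1 - 2 * D) L b' c' := by
      intro hh
      refine hno (hh.mono_block ?_)
      intro v hv
      rw [mem_csq] at hv ⊢
      simp only at hv ⊢
      omega
    obtain ⟨a, i, hi, j, hj, hfar⟩ := hnear c' hc' hno1
    have h5 := hX'4 j (Finset.mem_biUnion.2 ⟨a, Finset.mem_univ _, hj⟩)
    have h6 : i ∉ inB (A c') X' n0 := by
      intro hi'
      have hi2 := (mem_inB.1 hi').2
      apply hfar
      simp only [rect, mem_ofPred_eq] at hi2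
      unfold Far at h5 ⊢
      omega
    have h7 : inB (A c') X' n0 ⊆ (inB (A c') X n1).erase i := by
      intro l hl
      refine Finset.mem_erase.2 ⟨fun h => h6 (h ▸ hl), ?_⟩
      obtain ⟨hl1, hl2⟩ := mem_inB.1 hl
      refine mem_inB.2 ⟨hl1, ?_⟩
      simp only [rect, mem_ofPred_eq] at hl2 ⊢
      omega
    have h8 := Finset.card_le_card h7
    have h9 := hc c' hc' hno1
    rw [Finset.card_erase_of_mem hi] at h8
    have h10 : 0 < (inB (A c') X n1).card := Finset.card_pos.2 ⟨i, hi⟩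
    omega

end rounds

/-- the sides are linear -/
lemma sds_linear (m b Δ D s : ℕ) : ∃ A, ∀ n, sds n m b Δ D s ≤ A * (n + 1) := by
  induction s with
  | zero =>
    refine ⟨1 + 2 * D, fun n => ?_⟩
    rw [sds]
    nlinarith [Nat.zero_le n, Nat.zero_le (D * n)]
  | succ s ih =>
    obtain ⟨A, hA⟩ := ih
    refine ⟨(m * b + 1) * (A + 2 * (Δ + 1)), fun n => ?_⟩
    rw [sds, mul_assoc]
    refine Nat.mul_le_mul_left _ ?_
    have h1 := hA n
    nlinarith [Nat.zero_le n, Nat.zero_le (Δ * n)]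

/-- **Row F.** -/
theorem fineStar_ofK {k : ℕ} (hC : CertC.{u} k) (hK : ClusterStmt) (hcr : CrossStmt2.{u}) :
    FineStar.{u} k := by
  intro κ b
  obtain ⟨F, L, b', m, Δ, D, hbb, hfam⟩ := far_family k hC hK hcr κ b
  obtain ⟨AA, hAA⟩ := sds_linear m b Δ D b
  refine ⟨F, L, b', AA, fun n => ?_⟩
  intro N hN' α M _ C T B ends hctx hB hloc
  have hN : sds n m b Δ D b ≤ N := (hAA n).trans hN'
  classical
  have hex : ∃ A : α → Finset (ℕ × ℕ), ∀ c ∈ C \ B,
      (A c).card ≤ b ∧ ¬ Vis M C B (ins T ends (pun N (A c))) c := by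
    choose! A hA using hloc
    exact ⟨A, hA⟩
  obtain ⟨A, hA⟩ := hex
  refine rounds hbb A hA ?_ b (0, 0) (by simpa using hN) (by simpa using hN) ?_
  · intro X n' hX1 hX2 c hc hfar hno
    exact hfam M C T B ends N hctx hB X n' hX1 hX2 c (fun t => A (c t)) hc
      (fun t => hA _ (hc t)) hfar hno
  · intro c hc _
    rw [inB]
    exact (Finset.card_filter_le _ _).trans (hA c hc).1

/-- **Row F.** -/
theorem fine_of {k : ℕ} (hC : CertC.{u} k) (hK : ClusterStmt) (hcr : CrossStmt2.{u}) :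
    FineStmt.{u} k := by
  intro κ b
  obtain ⟨F, L, b', A, h⟩ := fineStar_ofK hC hK hcr κ b
  exact ⟨F, L, b', fun n => ⟨A * (n + 1), h n⟩⟩

/-- **Row F, over the certificates.** -/
theorem fineStar_of_certC {k : ℕ} (hC : CertC.{u} k) : FineStar.{u} k :=
  fineStar_ofK hC cluster Cr.crossStmt2

/-- **Row F, over the certificates.** -/
theorem fineStmt_of_certC {k : ℕ} (hC : CertC.{u} k) : FineStmt.{u} k :=
  fine_of hC cluster Cr.crossStmt2

end CWL
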