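import Pool.Agent.CW.Side

/-!
# Sides on arbitrary sets of segments: restriction, deletion, contraction of conflicts, shift
-/

open Set BIC BICS
open scoped Matroid

namespace CWL

universe u

/-- A clean side on a set `S` of segments of the brick wall: `M` carries on `crr L S` the
subdivided graph, up to a lift of dimension `≤ u`; `e s` is the last element of `s`. -/
structure GSide {α : Type*} (M : Matroid α) (S : Set (Bool × ℕ × ℕ)) (L : Bool × ℕ × ℕ → List α)
    (f : α → Sym2 ((ℕ × ℕ) ⊕ α)) (e : Bool × ℕ × ℕ → α) (u : ℕ) : Prop where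
  nodup : ∀ s ∈ S, (L s).Nodup
  disj : ∀ s ∈ S, ∀ s' ∈ S, s ≠ s' → (L s).Disjoint (L s')
  end_eq : ∀ s ∈ S, ∀ (i : ℕ) (h : i < (L s).length),
    f ((L s)[i]) = s(node s (L s) i, node s (L s) (i + 1))
  lift : Lift M (crr L S) f u
  last : ∀ s ∈ S, (L s).getLast? = some (e s)

section

variable {α : Type*} {M N : Matroid α} {S S' : Set (Bool × ℕ × ℕ)} {L : Bool × ℕ × ℕ → List α}
  {f : α → Sym2 ((ℕ × ℕ) ⊕ α)} {e : Bool × ℕ × ℕ → α} {u y : ℕ}

lemma crr_mono (h : S' ⊆ S) : crr L S' ⊆ crr L S := by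
  rintro x ⟨s, hs, hx⟩
  exact ⟨s, h hs, hx⟩

lemma SubWall.crr {R : Set α} (h : SubWall R f L y) : crr L (Seg y) = R := by
  ext x
  exact (h.mem x).symm

lemma Side.gside {R : Set α} (h : Side M R L f e y u) : GSide M (Seg y) L f e u :=
  ⟨h.sw.nodup, h.sw.disj, h.sw.end_eq, by rw [h.sw.crr]; exact h.lift, h.last⟩

lemma GSide.bic [M.Finite] (h : GSide M S L f e u) : BicU M (crr L S) f u := h.lift.bicU

lemma GSide.star [M.Finite] (h : GSide M S L f e u) : StarR M (crr L S) f := h.lift.star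

lemma GSide.side (h : GSide M (Seg y) L f e u) : Side M (crr L (Seg y)) L f e y u :=
  ⟨⟨fun s hs hn => by have := h.last s hs; rw [hn] at this; simp at this, h.nodup, h.disj,
    fun _ => Iff.rfl, h.end_eq⟩, h.lift, h.last⟩

lemma GSide.subset (h : GSide M S L f e u) (hS : S' ⊆ S) : GSide M S' L f e u :=
  ⟨fun s hs => h.nodup s (hS hs), fun s hs s' hs' => h.disj s (hS hs) s' (hS hs'),
    fun s hs => h.end_eq s (hS hs), h.lift.subset (crr_mono hS), fun s hs => h.last s (hS hs)⟩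

lemma GSide.mono (h : GSide M S L f e u) {u' : ℕ} (hu : u ≤ u') : GSide M S L f e u' :=
  ⟨h.nodup, h.disj, h.end_eq, h.lift.mono hu, h.last⟩

lemma GSide.of_rk (h : GSide N S L f e u) (hS : crr L S ⊆ M.E)
    (hr : ∀ X ⊆ crr L S, BIC.rk M X = BIC.rk N X) : GSide M S L f e u :=
  ⟨h.nodup, h.disj, h.end_eq, h.lift.of_rk hS hr, h.last⟩

lemma GSide.mem_last (h : GSide M S L f e u) {s : Bool × ℕ × ℕ} (hs : s ∈ S) : e s ∈ L s :=
  List.mem_of_getLast? (h.last s hs)

lemma GSide.e_sub (h : GSide M S L f e u) : e '' S ⊆ crr L S := by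
  rintro _ ⟨s, hs, rfl⟩
  exact ⟨s, hs, h.mem_last hs⟩

lemma GSide.sub_ground (h : GSide M S L f e u) : crr L S ⊆ M.E := h.lift.sub

/-- an element of the side lies on one segment only -/
lemma GSide.uniq (h : GSide M S L f e u) {s s' : Bool × ℕ × ℕ} (hs : s ∈ S) (hs' : s' ∈ S)
    {x : α} (hx : x ∈ L s) (hx' : x ∈ L s') : s = s' := by
  by_contra hne
  exact h.disj s hs s' hs' hne hx hx'

lemma GSide.e_inj (h : GSide M S L f e u) : InjOn e S := by
  intro s hs s' hs' hss
  refine h.uniq hs hs' (h.mem_last hs) ?_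
  rw [hss]
  exact h.mem_last hs'

lemma GSide.delete [M.Finite] (h : GSide M S L f e u) {Z : Set α} (hZ : Disjoint (crr L S) Z) :
    GSide (M ＼ Z) S L f e u := by
  have hf : (M ＼ Z).Finite := BQ.fin_delete Z
  refine h.of_rk ?_ fun X hX => ?_
  · rw [Matroid.delete_ground]
    exact fun x hx => ⟨h.sub_ground hx, fun hz => Set.disjoint_left.1 hZ hx hz⟩
  · exact rk_delete fun x hx => ⟨h.sub_ground (hX hx), fun hz => Set.disjoint_left.1 hZ (hX hx) hz⟩

/-! ### nodes of lists -/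

lemma node_shift (s : Bool × ℕ × ℕ) (l t : List α) (c : α) {j : ℕ} (hj : 0 < j)
    (hjt : j ≤ t.length) : node s (l ++ c :: t) (l.length + 1 + j) =
      node s (l ++ t) (l.length + j) := by
  rcases hjt.lt_or_eq with h1 | h1
  · rw [node_mid s (by omega) (by simp only [List.length_append, List.length_cons]; omega),
      node_mid s (by omega) (by simp only [List.length_append]; omega)]
    congr 1
    rw [List.getElem_append_right (by omega), List.getElem_append_right (by omega)]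
    have h2 : l.length + 1 + j - 1 - l.length = (l.length + j - 1 - l.length) + 1 := by omega
    simp only [h2, List.getElem_cons_succ]
  · subst h1
    have h2 : t ≠ [] := fun h => by rw [h] at hj; simp at hj
    have h3 : l.length + 1 + t.length = (l ++ c :: t).length := by
      simp only [List.length_append, List.length_cons]; omega
    have h4 : l.length + t.length = (l ++ t).length := by simp
    rw [h3, h4, node_last s (by simp), node_last s (by simp [h2])]

/-- **Contraction of one conflict** (not the last element of its segment). -/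
theorem GSide.contract1 [M.Finite] [DecidableEq α] (h : GSide M S L f e u) {s₀ : Bool × ℕ × ℕ}
    (hs₀ : s₀ ∈ S) {c : α} (hc : c ∈ L s₀) (hce : c ≠ e s₀) :
    ∃ f', GSide (M ／ {c}) S (fun s => (L s).filter (· ≠ c)) f' e u := by
  classical
  obtain ⟨l, t, hlt⟩ := List.append_of_mem hc
  have ht : t ≠ [] := by
    rintro rfl
    have := h.last s₀ hs₀
    rw [hlt] at this
    simp at this
    exact hce this
  have hnd := h.nodup s₀ hs₀
  rw [hlt] at hnd
  have hcl : c ∉ l := by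
    intro h'
    have := (List.nodup_append.1 hnd).2.2 c h' c (by simp)
    exact this rfl
  have hct : c ∉ t := (List.nodup_cons.1 (List.nodup_append.1 hnd).2.1).1
  have hfil : (L s₀).filter (· ≠ c) = l ++ t := by
    rw [hlt, List.filter_append, List.filter_cons]
    have h1 : l.filter (· ≠ c) = l := by
      rw [List.filter_eq_self]
      intro a ha
      simp only [decide_eq_true_eq]
      rintro rfl
      exact hcl ha
    have h2 : t.filter (· ≠ c) = t := by
      rw [List.filter_eq_self]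
      intro a ha
      simp only [decide_eq_true_eq]
      rintro rfl
      exact hct ha
    rw [h1, h2]
    simp
  have hcs : ∀ s ∈ S, s ≠ s₀ → c ∉ L s := fun s hs hne hcs => hne (h.uniq hs hs₀ hcs hc)
  have hfil' : ∀ s ∈ S, s ≠ s₀ → (L s).filter (· ≠ c) = L s := by
    intro s hs hne
    rw [List.filter_eq_self]
    intro a ha
    simp only [decide_eq_true_eq]
    rintro rfl
    exact hcs s hs hne ha
  -- the ends of `c`
  set x := node s₀ (l ++ t) l.length with hx
  have hxL : node s₀ (L s₀) l.length = x := by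
    rw [hlt, hx]
    exact node_append s₀ le_rfl (by simp) ht
  have hlen : l.length < (L s₀).length := by
    rw [hlt]; simp
  have hfc : f c = s(x, Sum.inr c) := by
    have h1 := h.end_eq s₀ hs₀ l.length hlen
    have h2 : (L s₀)[l.length] = c := by simp [hlt]
    rw [h2, hxL] at h1
    rw [h1]
    have h3 : node s₀ (L s₀) (l.length + 1) = Sum.inr c := by
      have h4 : l.length + 1 < (L s₀).length := by
        have := List.length_pos_iff.2 ht
        rw [hlt]
        simp only [List.length_append, List.length_cons]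
        omega
      rw [node_mid s₀ (by omega) h4]
      simp only [Nat.add_sub_cancel]
      rw [h2]
    rw [h3]
  have hne0 : l ++ t ≠ [] := by simp [ht]
  have hnode' : ∀ j ≤ (l ++ t).length, node s₀ (l ++ t) j ≠ Sum.inr c := by
    intro j hj
    rcases node_cases s₀ hne0 hj with h1 | h1 | ⟨d, hd, h1⟩
    · rw [h1]; simp
    · rw [h1]; simp
    · rw [h1]
      intro h2
      simp only [Sum.inr.injEq] at h2
      subst h2
      rcases List.mem_append.1 hd with h3 | h3
      · exact hcl h3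
      · exact hct h3
  have hxc : x ≠ Sum.inr c := hnode' l.length (by simp)
  have hcR : c ∈ crr L S := ⟨s₀, hs₀, hc⟩
  set m : (ℕ × ℕ) ⊕ α → (ℕ × ℕ) ⊕ α := fun v => if v = Sum.inr c then x else v with hm
  have hmo : ∀ v, v ≠ Sum.inr c → m v = v := fun v hv => by simp only [hm, if_neg hv]
  have hmc : m (Sum.inr c) = x := by simp [hm]
  have hlift := h.lift.contract (e := c) hcR hxc hfc
  have hLc : (L s₀)[l.length] = c := by simp [hlt]
  have hcrr : crr (fun s => (L s).filter (· ≠ c)) S = crr L S \ {c} := by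
    ext a
    constructor
    · rintro ⟨s, hs, ha⟩
      simp only [List.mem_filter, decide_eq_true_eq] at ha
      exact ⟨⟨s, hs, ha.1⟩, ha.2⟩
    · rintro ⟨⟨s, hs, ha⟩, hac⟩
      refine ⟨s, hs, ?_⟩
      simp only [List.mem_filter, decide_eq_true_eq]
      exact ⟨ha, hac⟩
  refine ⟨fun a => (f a).map m, ?_, ?_, ?_, ?_, ?_⟩
  · intro s hs
    exact (h.nodup s hs).filter _
  · intro s hs s' hs' hne a ha ha'
    exact h.disj s hs s' hs' hne (List.mem_filter.1 ha).1 (List.mem_filter.1 ha').1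
  · intro s hs i hi
    by_cases hss : s = s₀
    · subst hss
      simp only [hfil] at hi ⊢
      rcases Nat.lt_or_ge i l.length with h1 | h1
      · -- before `c`
        have e1 : (l ++ t)[i] = (L s)[i]'(by omega) := by
          simp only [hlt]
          rw [List.getElem_append_left h1, List.getElem_append_left h1]
        rw [e1, h.end_eq s hs i (by omega), Sym2.map_mk]
        have e2 : node s (L s) i = node s (l ++ t) i := by
          rw [hlt]; exact node_append s h1.le (by simp) ht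
        have e3 : node s (L s) (i + 1) = node s (l ++ t) (i + 1) := by
          rw [hlt]; exact node_append s h1 (by simp) ht
        rw [e2, e3, hmo _ (hnode' i hi.le), hmo _ (hnode' (i + 1) hi)]
      · obtain ⟨j, rfl⟩ := Nat.exists_eq_add_of_le h1
        rw [List.length_append] at hi
        have hj : j < t.length := by omega
        have hLl : (L s).length = l.length + t.length + 1 := by
          rw [hlt]; simp only [List.length_append, List.length_cons]; omega
        have e1 : (l ++ t)[l.length + j]'(by rw [List.length_append]; omega) =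
            (L s)[l.length + 1 + j]'(by omega) := by
          simp only [hlt]
          rw [List.getElem_append_right (by omega), List.getElem_append_right (by omega)]
          have h2 : l.length + 1 + j - l.length = (l.length + j - l.length) + 1 := by omega
          simp only [h2, List.getElem_cons_succ]
        rw [e1, h.end_eq s hs _ (by omega), Sym2.map_mk]
        have e3 : node s (L s) (l.length + 1 + j + 1) = node s (l ++ t) (l.length + (j + 1)) := by
          rw [hlt, add_assoc (l.length + 1)]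
          exact node_shift s l t c (by omega) (by omega)
        have e4 : m (node s (L s) (l.length + 1 + j)) = node s (l ++ t) (l.length + j) := by
          rcases Nat.eq_zero_or_pos j with rfl | hj0
          · have h3 : node s (L s) (l.length + 1 + 0) = Sum.inr c := by
              rw [add_zero, node_mid s (by omega) (by omega)]
              simp only [Nat.add_sub_cancel, hLc]
            rw [h3, hmc, hx, add_zero]
          · have h3 : node s (L s) (l.length + 1 + j) = node s (l ++ t) (l.length + j) := by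
              rw [hlt]
              exact node_shift s l t c hj0 hj.le
            rw [h3]
            exact hmo _ (hnode' _ (by rw [List.length_append]; omega))
        rw [e4, e3, hmo _ (hnode' _ (by rw [List.length_append]; omega)), add_assoc]
    · simp only [hfil' s hs hss] at hi ⊢
      rw [h.end_eq s hs i hi, Sym2.map_mk]
      have hne : L s ≠ [] := fun h0 => by rw [h0] at hi; simp at hi
      have key : ∀ j ≤ (L s).length, node s (L s) j ≠ Sum.inr c := by
        intro j hj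
        rcases node_cases s hne hj with h1 | h1 | ⟨d, hd, h1⟩
        · rw [h1]; simp
        · rw [h1]; simp
        · rw [h1]
          intro h2
          simp only [Sum.inr.injEq] at h2
          subst h2
          exact hcs s hs hss hd
      rw [hmo _ (key i hi.le), hmo _ (key (i + 1) hi)]
  · rw [hcrr]
    exact hlift
  · intro s hs
    by_cases hss : s = s₀
    · subst hss
      simp only [hfil]
      have h1 := h.last s hs
      rw [hlt] at h1
      rw [List.getLast?_append_of_ne_nil _ (by simp)] at h1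
      rw [List.getLast?_append_of_ne_nil _ ht]
      rw [List.getLast?_cons] at h1
      rw [List.getLast?_eq_some_getLast ht] at h1 ⊢
      simpa using h1
    · simp only [hfil' s hs hss]
      exact h.last s hs

/-- the lists without the elements of `Z` -/
noncomputable def lrem (L : Bool × ℕ × ℕ → List α) (Z : Set α) (s : Bool × ℕ × ℕ) : List α :=
  open Classical in (L s).filter (fun a => a ∉ Z)

lemma mem_lrem {Z : Set α} {s : Bool × ℕ × ℕ} {a : α} : a ∈ lrem L Z s ↔ a ∈ L s ∧ a ∉ Z := by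
  classical
  unfold lrem
  simp [List.mem_filter]

lemma lrem_empty : lrem L ∅ = L := by
  classical
  funext s
  unfold lrem
  simp

lemma lrem_congr {Z Z' : Set α} {s : Bool × ℕ × ℕ} (h : ∀ a ∈ L s, a ∈ Z ↔ a ∈ Z') :
    lrem L Z s = lrem L Z' s := by
  classical
  unfold lrem
  refine List.filter_congr fun a ha => ?_
  simp [h a ha]

lemma lrem_insert [DecidableEq α] {Z : Set α} {c : α} :
    lrem L (insert c Z) = fun s => (lrem L Z s).filter (· ≠ c) := by
  classical
  funext s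
  unfold lrem
  rw [List.filter_filter]
  refine List.filter_congr fun a _ => ?_
  simp only [mem_insert_iff, not_or]
  by_cases h1 : a = c <;> by_cases h2 : a ∈ Z <;> simp [h1, h2]

lemma crr_lrem {Z : Set α} : crr (lrem L Z) S = crr L S \ Z := by
  ext a
  constructor
  · rintro ⟨s, hs, ha⟩
    rw [mem_lrem] at ha
    exact ⟨⟨s, hs, ha.1⟩, ha.2⟩
  · rintro ⟨⟨s, hs, ha⟩, haZ⟩
    exact ⟨s, hs, mem_lrem.2 ⟨ha, haZ⟩⟩

/-- **Contraction of conflicts** (not the last elements of the segments). -/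
theorem GSide.contract [M.Finite] (h : GSide M S L f e u) {Z : Set α} (hZ : Z ⊆ crr L S)
    (hZe : ∀ s ∈ S, e s ∉ Z) : ∃ f', GSide (M ／ Z) S (lrem L Z) f' e u := by
  classical
  have hZf : Z.Finite := M.ground_finite.subset (hZ.trans h.sub_ground)
  induction Z, hZf using Set.Finite.induction_on with
  | empty =>
    rw [lrem_empty, Matroid.contract_empty]
    exact ⟨f, h⟩
  | @insert c Z hcZ hZf ih =>
    obtain ⟨f₁, h₁⟩ := ih ((subset_insert _ _).trans hZ) fun s hs hz => hZe s hs (Or.inr hz)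
    have hf : (M ／ Z).Finite := BQ.fin_contract Z
    obtain ⟨s₀, hs₀, hc⟩ := hZ (Or.inl rfl)
    obtain ⟨f₂, h₂⟩ := h₁.contract1 (c := c) hs₀ (mem_lrem.2 ⟨hc, hcZ⟩)
      fun he => hZe s₀ hs₀ (Or.inl he.symm)
    refine ⟨f₂, ?_⟩
    rw [lrem_insert, show insert c Z = Z ∪ {c} from by rw [union_singleton],
      ← Matroid.contract_contract]
    exact h₂

lemma crr_shift {i j : ℕ} : crr (fun s => L (shS i j s)) S' = crr L (shS i j '' S') := by
  ext x
  constructor
  · rintro ⟨s, hs, hx⟩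
    exact ⟨_, ⟨s, hs, rfl⟩, hx⟩
  · rintro ⟨_, ⟨s, hs, rfl⟩, hx⟩
    exact ⟨s, hs, hx⟩

/-- **Shifted parts.** -/
theorem GSide.shift (h : GSide M S L f e u) {i j : ℕ} (hS : shS i j '' S' ⊆ S) :
    ∃ f', GSide M S' (fun s => L (shS i j s)) f' (fun s => e (shS i j s)) u := by
  classical
  set g : (ℕ × ℕ) ⊕ α → (ℕ × ℕ) ⊕ α := Sum.map (fun v => (v.1 - i, v.2 - j)) id with hg
  have hS' : ∀ s ∈ S', shS i j s ∈ S := fun s hs => hS ⟨s, hs, rfl⟩
  have hnode : ∀ s ∈ S', ∀ k ≤ (L (shS i j s)).length,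
      g (node (shS i j s) (L (shS i j s)) k) = node s (L (shS i j s)) k := by
    intro s hs k hk
    rcases node_cases' (shS i j s) hk rfl with ⟨h1, h2⟩ | ⟨h1, h2⟩ | ⟨h1, h2, h3⟩
    · rw [h2, h1, node_zero, segNear_shS]
      simp [hg]
    · have h3 : L (shS i j s) ≠ [] := List.ne_nil_of_mem (h.mem_last (hS' s hs))
      rw [h2, h1, node_last s h3, segFar_shS]
      simp [hg]
    · rw [h3, node_mid s h1 h2]
      simp [hg]
  refine ⟨fun x => (f x).map g, fun s hs => h.nodup _ (hS' s hs), ?_, ?_, ?_,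
    fun s hs => h.last _ (hS' s hs)⟩
  · intro s hs s' hs' hne
    exact h.disj _ (hS' s hs) _ (hS' s' hs') fun h' => hne (shS_inj i j h')
  · intro s hs k hk
    rw [h.end_eq _ (hS' s hs) k hk, Sym2.map_mk]
    rw [hnode s hs k (Nat.le_of_lt hk), hnode s hs (k + 1) hk]
  · rw [crr_shift]
    refine (h.lift.subset (crr_mono hS)).map g ?_
    have hv : ∀ v ∈ {v | ∃ x ∈ crr L (shS i j '' S'), v ∈ f x},
        (∃ p : ℕ × ℕ, v = Sum.inl (p.1 + i, p.2 + j)) ∨ ∃ c, v = Sum.inr c := by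
      rintro v ⟨x, ⟨_, ⟨s, hs, rfl⟩, hx⟩, hvx⟩
      obtain ⟨k, hk, rfl⟩ := List.mem_iff_getElem.1 hx
      rw [h.end_eq _ (hS' s hs) k hk, Sym2.mem_iff] at hvx
      have key : ∀ k ≤ (L (shS i j s)).length, v = node (shS i j s) (L (shS i j s)) k →
          (∃ p : ℕ × ℕ, v = Sum.inl (p.1 + i, p.2 + j)) ∨ ∃ c, v = Sum.inr c := by
        intro k hk hvk
        rcases node_cases' (shS i j s) hk hvk with ⟨h1, h2⟩ | ⟨h1, h2⟩ | ⟨h1, h2, h3⟩
        · rw [segNear_shS] at h2
          exact Or.inl ⟨segNear s, h2⟩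
        · rw [segFar_shS] at h2
          exact Or.inl ⟨segFar s, h2⟩
        · exact Or.inr ⟨_, h3⟩
      rcases hvx with h1 | h1
      · exact key k hk.le h1
      · exact key (k + 1) hk h1
    intro v hv1 v' hv2 hvv
    rcases hv v hv1 with ⟨p, rfl⟩ | ⟨c, rfl⟩ <;> rcases hv v' hv2 with ⟨p', rfl⟩ | ⟨c', rfl⟩
    · simp only [hg, Sum.map_inl, Sum.inl.injEq, Prod.mk.injEq] at hvv ⊢
      omega
    · simp [hg] at hvv
    · simp [hg] at hvv
    · simpa [hg] using hvv

end

/-! ### Pairs -/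

/-- **A clean pair** (on arbitrary sets of segments). -/
structure Pair {α : Type*} (M : Matroid α) (S₁ : Set (Bool × ℕ × ℕ))
    (L₁ : Bool × ℕ × ℕ → List α) (f₁ : α → Sym2 ((ℕ × ℕ) ⊕ α)) (e₁ : Bool × ℕ × ℕ → α) (u₁ : ℕ)
    (S₂ : Set (Bool × ℕ × ℕ)) (L₂ : Bool × ℕ × ℕ → List α) (f₂ : α → Sym2 ((ℕ × ℕ) ⊕ α))
    (e₂ : Bool × ℕ × ℕ → α) (u₂ : ℕ) : Prop where
  s₁ : GSide M S₁ L₁ f₁ e₁ u₁
  s₂ : GSide M✶ S₂ L₂ f₂ e₂ u₂
  dj : Disjoint (e₁ '' S₁) (e₂ '' S₂)

section

variable {α : Type*} {M : Matroid α} {S₁ S₂ S' : Set (Bool × ℕ × ℕ)}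
  {L₁ L₂ : Bool × ℕ × ℕ → List α} {f₁ f₂ : α → Sym2 ((ℕ × ℕ) ⊕ α)} {e₁ e₂ : Bool × ℕ × ℕ → α}
  {u₁ u₂ : ℕ}

lemma Pair.dual (h : Pair M S₁ L₁ f₁ e₁ u₁ S₂ L₂ f₂ e₂ u₂) :
    Pair M✶ S₂ L₂ f₂ e₂ u₂ S₁ L₁ f₁ e₁ u₁ :=
  ⟨h.s₂, by rw [Matroid.dual_dual]; exact h.s₁, h.dj.symm⟩

lemma Pair.subset₁ (h : Pair M S₁ L₁ f₁ e₁ u₁ S₂ L₂ f₂ e₂ u₂) (hS : S' ⊆ S₁) :
    Pair M S' L₁ f₁ e₁ u₁ S₂ L₂ f₂ e₂ u₂ :=
  ⟨h.s₁.subset hS, h.s₂, h.dj.mono_left (image_mono hS)⟩

lemma Pair.subset₂ (h : Pair M S₁ L₁ f₁ e₁ u₁ S₂ L₂ f₂ e₂ u₂) (hS : S' ⊆ S₂) :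
    Pair M S₁ L₁ f₁ e₁ u₁ S' L₂ f₂ e₂ u₂ :=
  ⟨h.s₁, h.s₂.subset hS, h.dj.mono_right (image_mono hS)⟩

/-- Deletion of elements of the columns which are on no row: the columns get shorter. -/
theorem Pair.delete [M.Finite] (h : Pair M S₁ L₁ f₁ e₁ u₁ S₂ L₂ f₂ e₂ u₂) {Z : Set α}
    (hZ : Z ⊆ crr L₂ S₂) (hZ₁ : Disjoint (crr L₁ S₁) Z) (hZe : ∀ s ∈ S₂, e₂ s ∉ Z) :
    ∃ f₂', Pair (M ＼ Z) S₁ L₁ f₁ e₁ u₁ S₂ (lrem L₂ Z) f₂' e₂ u₂ := by
  have hf : M✶.Finite := inferInstance
  obtain ⟨f₂', h₂⟩ := h.s₂.contract hZ hZe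
  refine ⟨f₂', h.s₁.delete hZ₁, ?_, h.dj⟩
  rw [Matroid.dual_delete]
  exact h₂

/-- Contraction of elements of the rows which are on no column: the rows get shorter. -/
theorem Pair.contract [M.Finite] (h : Pair M S₁ L₁ f₁ e₁ u₁ S₂ L₂ f₂ e₂ u₂) {Z : Set α}
    (hZ : Z ⊆ crr L₁ S₁) (hZ₂ : Disjoint (crr L₂ S₂) Z) (hZe : ∀ s ∈ S₁, e₁ s ∉ Z) :
    ∃ f₁', Pair (M ／ Z) S₁ (lrem L₁ Z) f₁' e₁ u₁ S₂ L₂ f₂ e₂ u₂ := by
  have hf : M✶.Finite := inferInstance
  obtain ⟨f', h'⟩ := h.dual.delete hZ hZ₂ hZe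
  refine ⟨f', ?_⟩
  have h2 := h'.dual
  rwa [Matroid.dual_delete, Matroid.dual_dual] at h2

/-- **Dropping rows.** Delete the conflicts on the rows outside of `S'`. -/
theorem Pair.dropRows [M.Finite] (h : Pair M S₁ L₁ f₁ e₁ u₁ S₂ L₂ f₂ e₂ u₂) (hS : S' ⊆ S₁) :
    ∃ (Z : Set α) (f₂' : α → Sym2 ((ℕ × ℕ) ⊕ α)),
      Z = (crr L₁ (S₁ \ S') ∩ crr L₂ S₂) \ e₂ '' S₂ ∧
      Pair (M ＼ Z) S' L₁ f₁ e₁ u₁ S₂ (lrem L₂ Z) f₂' e₂ u₂ := by
  have h1 : Disjoint (crr L₁ S') ((crr L₁ (S₁ \ S') ∩ crr L₂ S₂) \ e₂ '' S₂) := by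
    rw [Set.disjoint_left]
    rintro x ⟨s, hs, hx⟩ ⟨⟨⟨s', hs', hx'⟩, -⟩, -⟩
    have := h.s₁.uniq (hS hs) hs'.1 hx hx'
    subst this
    exact hs'.2 hs
  obtain ⟨f₂', h2⟩ := (h.subset₁ hS).delete
    (Z := (crr L₁ (S₁ \ S') ∩ crr L₂ S₂) \ e₂ '' S₂) (fun x hx => hx.1.2) h1
    fun s hs hz => hz.2 ⟨s, hs, rfl⟩
  exact ⟨_, f₂', rfl, h2⟩

/-- **Dropping columns.** -/
theorem Pair.dropCols [M.Finite] (h : Pair M S₁ L₁ f₁ e₁ u₁ S₂ L₂ f₂ e₂ u₂) (hS : S' ⊆ S₂) :
    ∃ (Z : Set α) (f₁' : α → Sym2 ((ℕ × ℕ) ⊕ α)),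
      Z = (crr L₂ (S₂ \ S') ∩ crr L₁ S₁) \ e₁ '' S₁ ∧
      Pair (M ／ Z) S₁ (lrem L₁ Z) f₁' e₁ u₁ S' L₂ f₂ e₂ u₂ := by
  have hf : M✶.Finite := inferInstance
  obtain ⟨Z, f', hZ, h'⟩ := h.dual.dropRows hS
  refine ⟨Z, f', hZ, ?_⟩
  have h2 := h'.dual
  rwa [Matroid.dual_delete, Matroid.dual_dual] at h2

end

end CWL
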