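import Pool.Agent.CW.Defs
import Pool.Agent.Helper21.CW.Opath
import Pool.Agent.BICS.RkRect
import Pool.Agent.Helper53.BQ.Rk

/-!
# Theorem CW: groups of blocks (helper53)
-/

open Set BIC BICS
open scoped Matroid

namespace CWL

universe u

section grp

variable {α : Type*} {M L N : Matroid α} {C T B S Z : Set α} {ends : α → Sym2 (ℕ × ℕ)}

lemma quo_conf [M.Finite] (hC : M.Indep C) (hT : T ⊆ M.E \ C) :
    Quo (M ／ (C \ B)) (M ／ C) T := by
  intro X Y hXY hY
  have h1 := CW.rk_conf hC (Z := B) ((hXY.trans hY).trans hT)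
  have h2 := CW.rk_conf hC (Z := B) (hY.trans hT)
  have h3 := CW.rk_conf hC (Z := ∅) ((hXY.trans hY).trans hT)
  have h4 := CW.rk_conf hC (Z := ∅) (hY.trans hT)
  rw [sdiff_empty] at h3 h4
  have h5 := rk_submod M (Y ∪ (C \ B)) (X ∪ C)
  have h6 : rk M (Y ∪ C) ≤ rk M ((Y ∪ (C \ B)) ∪ (X ∪ C)) := by
    refine rk_mono M ?_
    rintro e (he | he)
    · exact Or.inl (Or.inl he)
    · exact Or.inr (Or.inr he)
  have h7 : rk M (X ∪ (C \ B)) ≤ rk M ((Y ∪ (C \ B)) ∩ (X ∪ C)) := by
    refine rk_mono M ?_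
    rintro e (he | he)
    · exact ⟨Or.inl (hXY he), Or.inl he⟩
    · exact ⟨Or.inr he, Or.inr he.1⟩
  omega

lemma rect_cl2 (i : ℕ × ℕ) : cl2 i = rect (2 * i.1) (2 * i.2) 2 2 := rfl

lemma cl2_disj {i j : ℕ × ℕ} (h : i ≠ j) : Disjoint (cl2 i) (cl2 j) := by
  rw [Set.disjoint_left]
  rintro v ⟨h1, h2, h3, h4⟩ ⟨h5, h6, h7, h8⟩
  apply h
  ext <;> omega

lemma cl2_sub {i : ℕ × ℕ} {n : ℕ} (hi : i.1 < n ∧ i.2 < n) :
    cl2 i ⊆ rect 0 0 (2 * n) (2 * n) :=
  rect_sub (by omega) (by omega) (by omega) (by omega)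

lemma rk_cl2 [N.Finite] (hB : Bic N S ends) {n : ℕ} (hG : Grd S ends 0 0 (2 * n) (2 * n))
    {i : ℕ × ℕ} (hi : i.1 < n ∧ i.2 < n) : rk N (ins S ends (cl2 i)) = 4 :=
  rk_rect (Bic_sub hB (fun e he => he.1)) (Grd_sub hG (cl2_sub hi)) (by omega) (by omega)

/-- the union of the sets of elements of the cells -/
def cellsE (S : Set α) (ends : α → Sym2 (ℕ × ℕ)) (U : Finset (ℕ × ℕ)) : Set α :=
  ⋃ i ∈ U, ins S ends (cl2 i)

lemma cellsE_sub (U : Finset (ℕ × ℕ)) :
    cellsE S ends U ⊆ ins S ends (⋃ i ∈ U, cl2 i) :=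
  iUnion₂_subset fun i hi => ins_mono (subset_biUnion_of_mem (u := cl2) hi)

lemma cellsE_insert [DecidableEq (ℕ × ℕ)] (i : ℕ × ℕ) (U : Finset (ℕ × ℕ)) :
    cellsE S ends (insert i U) = ins S ends (cl2 i) ∪ cellsE S ends U := by
  unfold cellsE
  rw [Finset.set_biUnion_insert]

lemma rk_cellsE [N.Finite] (hB : Bic N S ends) {n : ℕ} (hG : Grd S ends 0 0 (2 * n) (2 * n))
    (U : Finset (ℕ × ℕ)) (hU : ∀ i ∈ U, i.1 < n ∧ i.2 < n) :
    4 * U.card ≤ rk N (cellsE S ends U) := by
  classical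
  induction U using Finset.induction_on with
  | empty => simp
  | insert i U hi ih =>
    have h1 := ih fun j hj => hU j (Finset.mem_insert_of_mem hj)
    have h2 := rk_cl2 hB hG (hU i (Finset.mem_insert_self _ _))
    have hd : Disjoint (cl2 i) (⋃ j ∈ U, cl2 j) := by
      rw [Set.disjoint_iUnion₂_right]
      exact fun j hj => cl2_disj fun h => hi (h ▸ hj)
    rw [cellsE_insert, rk_skew hB hd (Subset.refl _) (cellsE_sub U),
      Finset.card_insert_of_notMem hi]
    omega

lemma mem_cl_of_rk {L : Matroid α} [L.Finite] {X Y : Set α} (hXY : X ⊆ Y) (hY : Y ⊆ L.E)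
    (h : rk L Y ≤ rk L X) : Y ⊆ L.closure X := by
  intro f hf
  refine CW.mem_closure_of_rk (hY hf) ((rk_mono L ?_).trans h)
  exact insert_subset hf hXY

/-- an edge inside a union of cells lies in a cell or in a domino -/
lemma ins_cells {n : ℕ} (hG : Grd S ends 0 0 (2 * n) (2 * n)) (U : Finset (ℕ × ℕ)) {e : α}
    (he : e ∈ ins S ends (⋃ i ∈ U, cl2 i)) : (∃ i ∈ U, e ∈ ins S ends (cl2 i)) ∨
      ∃ i ∈ U, ∃ j ∈ U, adj i j ∧ e ∈ ins S ends (cl2 i ∪ cl2 j) := by
  obtain ⟨heS, he'⟩ := he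
  obtain ⟨p, q, h1, h2, _, _⟩ := hG.mem e heS
  have hp := he' p (by rw [h1]; simp)
  have hq := he' q (by rw [h1]; simp)
  obtain ⟨i, hi, hpi⟩ := mem_iUnion₂.1 hp
  obtain ⟨j, hj, hqj⟩ := mem_iUnion₂.1 hq
  by_cases hij : i = j
  · subst hij
    refine Or.inl ⟨i, hi, heS, fun v hv => ?_⟩
    rw [h1] at hv
    rcases Sym2.mem_iff.1 hv with rfl | rfl <;> assumption
  · refine Or.inr ⟨i, hi, j, hj, ?_, heS, fun v hv => ?_⟩
    · obtain ⟨p1, p2, p3, p4⟩ := hpi
      obtain ⟨q1, q2, q3, q4⟩ := hqj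
      have h3 : i.1 ≠ j.1 ∨ i.2 ≠ j.2 := by
        by_contra hc
        push Not at hc
        exact hij (Prod.ext hc.1 hc.2)
      unfold BICS.adj at h2 ⊢
      omega
    · rw [h1] at hv
      rcases Sym2.mem_iff.1 hv with rfl | rfl
      · exact Or.inl hpi
      · exact Or.inr hqj

/-- **Gluing of cells.** -/
theorem glue_cells [L.Finite] [N.Finite] (hB : Bic N S ends) {n : ℕ}
    (hG : Grd S ends 0 0 (2 * n) (2 * n)) (hQ : Quo L N S) (hSL : S ⊆ L.E) {W : Set (ℕ × ℕ)}
    (hZ : Z ⊆ ins S ends W) (U : Finset (ℕ × ℕ)) (hU : ∀ i ∈ U, i.1 < n ∧ i.2 < n)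
    (hUW : ∀ i ∈ U, Disjoint W (cl2 i))
    (h1 : ∀ i ∈ U, rk L (Z ∪ ins S ends (cl2 i)) ≤ rk L Z + 4)
    (h2 : ∀ i ∈ U, ∀ j ∈ U, adj i j → rk L (Z ∪ ins S ends (cl2 i ∪ cl2 j)) ≤ rk L Z + 8) :
    rk L (Z ∪ ins S ends (⋃ i ∈ U, cl2 i)) + rk N Z ≤
      rk L Z + rk N (Z ∪ ins S ends (⋃ i ∈ U, cl2 i)) := by
  classical
  have hZS : Z ⊆ S := hZ.trans fun e he => he.1
  have hWU : Disjoint W (⋃ i ∈ U, cl2 i) := by
    rw [Set.disjoint_iUnion₂_right]
    exact hUW
  have hcS : ∀ V : Finset (ℕ × ℕ), cellsE S ends V ⊆ S := fun V =>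
    (cellsE_sub V).trans fun e he => he.1
  -- upper bound for the cells
  have hup : ∀ V ⊆ U, rk L (Z ∪ cellsE S ends V) ≤ rk L Z + 4 * V.card := by
    intro V
    induction V using Finset.induction_on with
    | empty => intro _; simp [cellsE]
    | insert i V hi ih =>
      intro hV
      have h3 := ih ((Finset.subset_insert _ _).trans hV)
      have h4 := h1 i (hV (Finset.mem_insert_self _ _))
      have h5 := rk_submod L (Z ∪ cellsE S ends V) (Z ∪ ins S ends (cl2 i))
      have h6 : rk L Z ≤ rk L ((Z ∪ cellsE S ends V) ∩ (Z ∪ ins S ends (cl2 i))) :=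
        rk_mono L (subset_inter subset_union_left subset_union_left)
      have h7 : rk L (Z ∪ cellsE S ends (insert i V)) ≤
          rk L ((Z ∪ cellsE S ends V) ∪ (Z ∪ ins S ends (cl2 i))) := by
        refine rk_mono L ?_
        rw [cellsE_insert]
        rintro e (he | he | he)
        · exact Or.inl (Or.inl he)
        · exact Or.inr (Or.inr he)
        · exact Or.inl (Or.inr he)
      rw [Finset.card_insert_of_notMem hi]
      omega
  -- lower bound
  have hlow : ∀ V ⊆ U, rk L Z + 4 * V.card ≤ rk L (Z ∪ cellsE S ends V) := by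
    intro V hV
    have h3 := hQ Z (Z ∪ cellsE S ends V) subset_union_left (union_subset hZS (hcS V))
    have h4 : rk N (Z ∪ cellsE S ends V) = rk N Z + rk N (cellsE S ends V) :=
      rk_skew hB hWU hZ ((cellsE_sub V).trans
        (ins_mono (biUnion_subset_biUnion_left (fun i hi => hV hi))))
    have h5 := rk_cellsE hB hG V (fun i hi => hU i (hV hi))
    omega
  -- closure
  have hcl : ins S ends (⋃ i ∈ U, cl2 i) ⊆ L.closure (Z ∪ cellsE S ends U) := by
    intro e he
    have hsub : Z ∪ cellsE S ends U ⊆ L.E := (union_subset hZS (hcS U)).trans hSL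
    rcases ins_cells hG U he with ⟨i, hi, he⟩ | ⟨i, hi, j, hj, hij, he⟩
    · exact L.subset_closure _ hsub (Or.inr (mem_iUnion₂.2 ⟨i, hi, he⟩))
    · have hne : i ≠ j := by
        rintro rfl
        rcases hij with ⟨_, h | h⟩ | ⟨_, h | h⟩ <;> omega
      have h3 := hlow {i, j} (by
        intro k hk
        rcases Finset.mem_insert.1 hk with rfl | hk
        · exact hi
        · rw [Finset.mem_singleton.1 hk]; exact hj)
      rw [Finset.card_pair hne] at h3
      have h4 := h2 i hi j hj hij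
      have h5 : Z ∪ cellsE S ends {i, j} ⊆ Z ∪ ins S ends (cl2 i ∪ cl2 j) := by
        refine union_subset_union_right _ (iUnion₂_subset fun k hk => ?_)
        rcases Finset.mem_insert.1 hk with rfl | hk
        · exact ins_mono subset_union_left
        · rw [Finset.mem_singleton.1 hk]; exact ins_mono subset_union_right
      have h6 := mem_cl_of_rk h5 (union_subset (hZS.trans hSL) (fun e he => hSL he.1))
        (by omega) (Or.inr he)
      refine L.closure_subset_closure ?_ h6
      refine union_subset_union_right _ (biUnion_subset_biUnion_left ?_)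
      intro k hk
      have hk' : k ∈ ({i, j} : Finset (ℕ × ℕ)) := hk
      rcases Finset.mem_insert.1 hk' with rfl | hk'
      · exact hi
      · rw [Finset.mem_singleton.1 hk']; exact hj
  have h3 : rk L (Z ∪ ins S ends (⋃ i ∈ U, cl2 i)) ≤ rk L (Z ∪ cellsE S ends U) := by
    rw [← rk_closure (Z ∪ cellsE S ends U)]
    refine rk_mono L (union_subset ?_ hcl)
    exact subset_union_left.trans
      (L.subset_closure _ ((union_subset hZS (hcS U)).trans hSL))
  have h4 := hup U (Finset.Subset.refl _)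
  have h5 : rk N (Z ∪ ins S ends (⋃ i ∈ U, cl2 i)) =
      rk N Z + rk N (ins S ends (⋃ i ∈ U, cl2 i)) := rk_skew hB hWU hZ (Subset.refl _)
  have h6 := rk_cellsE hB hG U hU
  have h7 := rk_mono N (cellsE_sub (S := S) (ends := ends) U)
  omega

lemma mem_csq {q v : ℕ × ℕ} {s : ℕ} : v ∈ csq q s ↔
    2 * q.1 ≤ v.1 ∧ v.1 < 2 * q.1 + 2 * s ∧ 2 * q.2 ≤ v.2 ∧ v.2 < 2 * q.2 + 2 * s := Iff.rfl

lemma mem_cl2 {i v : ℕ × ℕ} : v ∈ cl2 i ↔
    2 * i.1 ≤ v.1 ∧ v.1 < 2 * i.1 + 2 ∧ 2 * i.2 ≤ v.2 ∧ v.2 < 2 * i.2 + 2 := Iff.rfl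

lemma pun_eq (n : ℕ) (A : Finset (ℕ × ℕ)) [DecidableEq (ℕ × ℕ)] :
    pun n A = ⋃ i ∈ (Finset.range n ×ˢ Finset.range n) \ A, cl2 i := by
  ext v
  simp only [pun, mem_sdiff, mem_iUnion, Finset.mem_sdiff, Finset.mem_product, Finset.mem_range,
    mem_csq, mem_cl2, exists_prop, not_exists, not_and, not_lt]
  constructor
  · rintro ⟨⟨h1, h2, h3, h4⟩, h5⟩
    refine ⟨(v.1 / 2, v.2 / 2), ⟨⟨by omega, by omega⟩, fun h => ?_⟩, by omega, by omega, by omega,
      by omega⟩
    have := h5 _ h (by omega) (by omega) (by omega)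
    simp only at this
    omega
  · rintro ⟨i, ⟨⟨h1, h2⟩, h3⟩, h4, h5, h6, h7⟩
    refine ⟨⟨by omega, by omega, by omega, by omega⟩, fun j hj h8 h9 h10 => ?_⟩
    by_contra h11
    apply h3
    have : i = j := Prod.ext (by omega) (by omega)
    rw [this]
    exact hj

/-- the cells around `a` -/
def box (r : ℕ) (a : ℕ × ℕ) : Finset (ℕ × ℕ) :=
  Finset.Icc (a.1 - r) (a.1 + r) ×ˢ Finset.Icc (a.2 - r) (a.2 + r)

lemma mem_box {r : ℕ} {a i : ℕ × ℕ} : i ∈ box r a ↔
    (a.1 ≤ i.1 + r ∧ i.1 ≤ a.1 + r) ∧ a.2 ≤ i.2 + r ∧ i.2 ≤ a.2 + r := by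
  simp only [box, Finset.mem_product, Finset.mem_Icc]
  omega

lemma box_card (r : ℕ) (a : ℕ × ℕ) : (box r a).card ≤ (2 * r + 1) ^ 2 := by
  rw [box, Finset.card_product, Nat.card_Icc, Nat.card_Icc, pow_two]
  exact Nat.mul_le_mul (by omega) (by omega)

lemma ins_empty {V : Type*} {ends : α → Sym2 V} : ins S ends ∅ = ∅ := by
  rw [Set.eq_empty_iff_forall_notMem]
  rintro e ⟨_, h⟩
  induction' h' : ends e using Sym2.ind with x y
  exact h x (by rw [h']; simp)

lemma blks_insert [DecidableEq (ℕ × ℕ)] (p : ℕ × ℕ) (P : Finset (ℕ × ℕ)) :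
    blks (insert p P) = csq p 2 ∪ blks P := by
  unfold blks
  rw [Finset.set_biUnion_insert]

/-- **Groups.** -/
theorem group_of [L.Finite] [N.Finite] (hB : Bic N S ends) {n : ℕ}
    (hG : Grd S ends 0 0 (2 * n) (2 * n)) (hQ : Quo L N S) (hSL : S ⊆ L.E) (δ u : ℕ)
    (A₀ : Finset (ℕ × ℕ))
    (hrob : ∀ A : Finset (ℕ × ℕ), A.card ≤ (2 * δ + 9) ^ 2 * (A₀.card + u) →
      rk N (ins S ends (pun n A)) + u ≤ rk L (ins S ends (pun n A))) :
    ∃ P : Finset (ℕ × ℕ), P.card ≤ u ∧
      (∀ p ∈ P, p.1 + 2 ≤ n ∧ p.2 + 2 ≤ n ∧ ∀ i ∈ A₀, Far δ p 2 i 1) ∧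
      (∀ p ∈ P, ∀ q ∈ P, p ≠ q → Far δ p 2 q 2) ∧
      rk N (ins S ends (blks P)) + u ≤ rk L (ins S ends (blks P)) := by
  classical
  -- the good sets of blocks
  let Good : Finset (ℕ × ℕ) → Prop := fun P =>
    (∀ p ∈ P, p.1 + 2 ≤ n ∧ p.2 + 2 ≤ n ∧ ∀ i ∈ A₀, Far δ p 2 i 1) ∧
      (∀ p ∈ P, ∀ q ∈ P, p ≠ q → Far δ p 2 q 2) ∧
      rk N (ins S ends (blks P)) + P.card ≤ rk L (ins S ends (blks P))
  have h0 : Good ∅ := by
    refine ⟨by simp, by simp, ?_⟩
    have h1 : blks (∅ : Finset (ℕ × ℕ)) = ∅ := by simp [blks]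
    rw [h1, ins_empty, CW.rk_emp, CW.rk_emp]
    simp
  by_contra hcon
  push Not at hcon
  have hlt : ∀ P, Good P → P.card ≤ u →
      rk L (ins S ends (blks P)) < rk N (ins S ends (blks P)) + u := by
    intro P hP hc
    exact hcon P hc hP.1 hP.2.1
  have hu : u ≠ 0 := by
    rintro rfl
    have h1 := hlt ∅ h0 (by simp)
    have h2 := h0.2.2
    omega
  have hn : 2 ≤ n := by
    by_contra hn
    have h1 := hrob {(0, 0)} (by
      rw [Finset.card_singleton]
      have h2 : 1 ≤ (2 * δ + 9) ^ 2 := Nat.one_le_pow _ _ (by omega)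
      calc 1 = 1 * 1 := rfl
        _ ≤ (2 * δ + 9) ^ 2 * (A₀.card + u) := Nat.mul_le_mul h2 (by omega))
    have h2 : pun n {(0, 0)} = ∅ := by
      rw [Set.eq_empty_iff_forall_notMem]
      rintro v ⟨h3, h4⟩
      apply h4
      rw [mem_csq] at h3
      simp only [Finset.mem_singleton, iUnion_iUnion_eq_left]
      rw [mem_cl2]
      simp only at h3 ⊢
      omega
    rw [h2, ins_empty, CW.rk_emp, CW.rk_emp] at h1
    omega
  -- larger and larger good sets
  have hall : ∀ m ≤ u, ∃ P, Good P ∧ P.card = m := by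
    intro m
    induction m with
    | zero => exact fun _ => ⟨∅, h0, rfl⟩
    | succ m ih =>
      intro hm
      obtain ⟨P, hP, hPm⟩ := ih (by omega)
      by_contra hno
      push Not at hno
      have hPu := hlt P hP (by omega)
      obtain ⟨hP1, hP2, hP3⟩ := hP
      set Z := ins S ends (blks P) with hZ
      set A' : Finset (ℕ × ℕ) := A₀.biUnion (box (δ + 4)) ∪ P.biUnion (box (δ + 4)) with hA'
      have hA'c : A'.card ≤ (2 * δ + 9) ^ 2 * (A₀.card + u) := by
        have e1 : (A₀.biUnion (box (δ + 4))).card ≤ A₀.card * (2 * δ + 9) ^ 2 :=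
          Finset.card_biUnion_le_card_mul _ _ _ fun a _ => box_card _ a
        have e2 : (P.biUnion (box (δ + 4))).card ≤ P.card * (2 * δ + 9) ^ 2 :=
          Finset.card_biUnion_le_card_mul _ _ _ fun a _ => box_card _ a
        have e3 := Finset.card_union_le (A₀.biUnion (box (δ + 4))) (P.biUnion (box (δ + 4)))
        have e4 : P.card * (2 * δ + 9) ^ 2 ≤ u * (2 * δ + 9) ^ 2 :=
          Nat.mul_le_mul_right _ (by omega)
        rw [← hA'] at e3
        nlinarith
      set U := (Finset.range n ×ˢ Finset.range n) \ A' with hU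
      have hmU : ∀ i, i ∈ U ↔ (i.1 < n ∧ i.2 < n) ∧ (∀ a ∈ A₀, i ∉ box (δ + 4) a) ∧
          ∀ a ∈ P, i ∉ box (δ + 4) a := by
        intro i
        simp only [hU, hA', Finset.mem_sdiff, Finset.mem_product, Finset.mem_range,
          Finset.mem_union, Finset.mem_biUnion, not_or, not_exists, not_and]
      have hZS : Z ⊆ S := fun e he => he.1
      have hUW : ∀ i ∈ U, ∀ j, (j.1 = i.1 ∨ j.1 + 1 = i.1) → (j.2 = i.2 ∨ j.2 + 1 = i.2) →
          Disjoint (blks P) (csq j 2) := by
        intro i hi j hj1 hj2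
        have h1 := ((hmU i).1 hi).2.2
        rw [blks, Set.disjoint_iUnion₂_left]
        intro q hq
        have h2 := h1 q hq
        rw [mem_box] at h2
        rw [Set.disjoint_left]
        intro v hv hv'
        rw [mem_csq] at hv hv'
        omega
      -- the blocks around good cells are exact
      have hex : ∀ i ∈ U, ∀ j : ℕ × ℕ, (j.1 = i.1 ∨ j.1 + 1 = i.1) →
          (j.2 = i.2 ∨ j.2 + 1 = i.2) → j.1 + 2 ≤ n → j.2 + 2 ≤ n →
          ∀ V : Set (ℕ × ℕ), V ⊆ csq j 2 → ∀ t : ℕ, V.encard ≤ t →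
          rk L (Z ∪ ins S ends V) ≤ rk L Z + t := by
        intro i hi j hj1 hj2 hj3 hj4 V hV t ht
        obtain ⟨hi1, hi2, hi3⟩ := (hmU i).1 hi
        have hjP : j ∉ P := by
          intro h
          have := hi3 j h
          rw [mem_box] at this
          omega
        have hdis := hUW i hi j hj1 hj2
        have hg : ¬ Good (insert j P) := fun h => hno _ h (by
          rw [Finset.card_insert_of_notMem hjP, hPm])
        have hfar1 : ∀ a ∈ A₀, Far δ j 2 a 1 := by
          intro a ha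
          have := hi2 a ha
          rw [mem_box] at this
          unfold Far
          omega
        have hfar2 : ∀ a ∈ P, Far δ j 2 a 2 := by
          intro a ha
          have := hi3 a ha
          rw [mem_box] at this
          unfold Far
          omega
        have h1 : rk L (ins S ends (blks (insert j P))) <
            rk N (ins S ends (blks (insert j P))) + (insert j P).card := by
          by_contra h1
          apply hg
          refine ⟨?_, ?_, not_lt.1 h1⟩
          · intro p hp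
            rcases Finset.mem_insert.1 hp with rfl | hp
            · exact ⟨hj3, hj4, hfar1⟩
            · exact hP1 p hp
          · intro p hp q hq hpq
            rcases Finset.mem_insert.1 hp with hp' | hp' <;>
              rcases Finset.mem_insert.1 hq with hq' | hq'
            · exact absurd (hp'.trans hq'.symm) hpq
            · rw [hp']; exact hfar2 q hq'
            · have := hfar2 p hp'
              rw [hq']
              unfold Far at this ⊢
              omega
            · exact hP2 p hp' q hq' hpq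
        rw [Finset.card_insert_of_notMem hjP] at h1
        have h2 : Z ∪ ins S ends V ⊆ ins S ends (blks (insert j P)) := by
          rw [blks_insert]
          refine union_subset (ins_mono subset_union_right) (ins_mono (hV.trans subset_union_left))
        have h3 := hQ _ _ h2 (fun e he => he.1)
        have h4 := rk_submod N Z (ins S ends V)
        have h5 : rk N (ins S ends V) ≤ t := by
          have h6 := hB.rk V
          rw [← cast_rk] at h6
          exact_mod_cast h6.trans ht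
        omega
      have hcard2 : ∀ i, (cl2 i).encard ≤ 4 := by
        intro i
        have h1 : cl2 i ⊆ ((Finset.Ico (2 * i.1) (2 * i.1 + 2) ×ˢ
            Finset.Ico (2 * i.2) (2 * i.2 + 2) : Finset (ℕ × ℕ)) : Set (ℕ × ℕ)) := by
          intro v hv
          rw [mem_cl2] at hv
          simp only [Finset.mem_coe, Finset.mem_product, Finset.mem_Ico]
          omega
        refine (Set.encard_le_encard h1).trans ?_
        rw [Set.encard_coe_eq_coe_finsetCard, Finset.card_product, Nat.card_Ico, Nat.card_Ico]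
        have : (2 * i.1 + 2 - 2 * i.1) * (2 * i.2 + 2 - 2 * i.2) = 4 := by
          rw [Nat.add_sub_cancel_left, Nat.add_sub_cancel_left]
        rw [this]
        rfl
      have hglue := glue_cells hB hG hQ hSL (W := blks P) (Z := Z) (Subset.refl _) U
        (fun i hi => ((hmU i).1 hi).1)
        (fun i hi => (hUW i hi i (Or.inl rfl) (Or.inl rfl)).mono_right (by
          intro v hv
          rw [mem_cl2] at hv
          rw [mem_csq]
          omega))
        (by
          intro i hi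
          have hi' := ((hmU i).1 hi).1
          refine hex i hi (min i.1 (n - 2), min i.2 (n - 2)) (by simp only; omega)
            (by simp only; omega) (by simp only; omega) (by simp only; omega) _ ?_ 4 (hcard2 i)
          intro v hv
          rw [mem_cl2] at hv
          rw [mem_csq]
          simp only
          omega)
        (by
          intro i hi j hj hij
          have hi' := ((hmU i).1 hi).1
          have hj' := ((hmU j).1 hj).1
          have hc : (cl2 i ∪ cl2 j).encard ≤ 8 := by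
            refine (Set.encard_union_le _ _).trans ?_
            calc (cl2 i).encard + (cl2 j).encard ≤ 4 + 4 := add_le_add (hcard2 i) (hcard2 j)
              _ = 8 := by norm_num
          have hcase : (j.1 = i.1 ∨ j.1 = i.1 + 1 ∨ i.1 = j.1 + 1) ∧
              (j.2 = i.2 ∨ j.2 = i.2 + 1 ∨ i.2 = j.2 + 1) ∧ (j.1 = i.1 ∨ j.2 = i.2) := by
            rcases hij with ⟨h, h' | h'⟩ | ⟨h, h' | h'⟩ <;> omega
          refine hex i hi (min (min i.1 j.1) (n - 2), min (min i.2 j.2) (n - 2))
            (by simp only; omega)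
            (by simp only; omega) (by simp only; omega) (by simp only; omega) _ ?_ 8 hc
          rintro v (hv | hv)
          · rw [mem_cl2] at hv
            rw [mem_csq]
            simp only
            omega
          · rw [mem_cl2] at hv
            rw [mem_csq]
            simp only
            omega)
      rw [hU, ← pun_eq] at hglue
      have h1 := hrob A' hA'c
      have h2 := hQ (ins S ends (pun n A')) (Z ∪ ins S ends (pun n A')) subset_union_right
        (union_subset hZS (fun e he => he.1))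
      omega
  obtain ⟨P, hP, hPu⟩ := hall u le_rfl
  have h1 := hlt P hP hPu.le
  have h2 := hP.2.2
  omega

end grp

/-- **Row G.** -/
theorem groupStmt : GroupStmt.{u} := by
  intro κ δ
  refine ⟨(2 * δ + 9) ^ 2 * (κ + 1), ?_⟩
  intro F α M _ C T B ends N hctx hκ A₀ hA₀
  have hf1 := BQ.fin_contract (M := M) C
  have hf2 := BQ.fin_contract (M := M) (C \ B)
  obtain ⟨P, h1, h2, h3, h4⟩ := group_of (L := M ／ (C \ B)) (N := M ／ C) hctx.bic hctx.grd
    (quo_conf hctx.ind hctx.sub)
    (hctx.sub.trans (by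
      rw [Matroid.contract_ground]
      exact sdiff_subset_sdiff_right sdiff_subset)) δ B.ncard A₀
    (fun A hA => hctx.rob A (hA.trans (by
      have : A₀.card + B.ncard ≤ (κ + 1) * (F + 1) := by nlinarith
      calc (2 * δ + 9) ^ 2 * (A₀.card + B.ncard) ≤ (2 * δ + 9) ^ 2 * ((κ + 1) * (F + 1)) :=
            Nat.mul_le_mul_left _ this
        _ = _ := by ring)))
  exact ⟨P, h1.trans hκ, h2, h3, h4⟩

end CWL
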