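import Pool.Agent.CW.AlphaH
import Pool.Agent.DA.WQA

/-!
# A lift of the brick wall is exact outside of few windows
-/

open Set BIC BICS
open scoped Matroid

namespace CWL

universe u

/-! ### Rectangles of the wall -/

/-- the segments with both ends in a rectangle -/
def Rg (x₀ x₁ y₀ y₁ : ℕ) : Set (Bool × ℕ × ℕ) :=
  {s | (s.1 = true ∧ x₀ ≤ s.2.1 ∧ s.2.1 < x₁ ∧ y₀ ≤ s.2.2 ∧ s.2.2 ≤ y₁) ∨
    (s.1 = false ∧ x₀ ≤ s.2.1 ∧ s.2.1 ≤ x₁ ∧ y₀ ≤ s.2.2 ∧ s.2.2 < y₁ ∧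
      (s.2.1 + s.2.2) % 2 = 0)}

/-- the ends of a set of segments -/
def VS (S : Set (Bool × ℕ × ℕ)) : Set (ℕ × ℕ) := {v | ∃ s ∈ S, v = segNear s ∨ v = segFar s}

/-- a function to a neighbour without 2-cycles -/
def NB (S : Set (Bool × ℕ × ℕ)) (U : Set (ℕ × ℕ)) : Prop :=
  ∃ nb : ℕ × ℕ → ℕ × ℕ, ∀ v ∈ U, nb v ∈ U ∧ (∃ s ∈ S, s(segNear s, segFar s) = s(v, nb v)) ∧
    nb (nb v) ≠ v

lemma rg_full (w : ℕ) : Rg 0 w 0 w = Seg w := by
  ext ⟨t, i, j⟩
  cases t <;> simp [Rg, Seg]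

lemma vs_union (S S' : Set (Bool × ℕ × ℕ)) : VS (S ∪ S') = VS S ∪ VS S' := by
  ext v
  simp only [VS, mem_ofPred_eq, mem_union]
  constructor
  · rintro ⟨s, hs | hs, h⟩
    · exact Or.inl ⟨s, hs, h⟩
    · exact Or.inr ⟨s, hs, h⟩
  · rintro (⟨s, hs, h⟩ | ⟨s, hs, h⟩)
    · exact ⟨s, Or.inl hs, h⟩
    · exact ⟨s, Or.inr hs, h⟩

lemma vs_empty : VS (∅ : Set (Bool × ℕ × ℕ)) = ∅ := by
  ext v
  simp [VS]

lemma vs_rg {x₀ x₁ y₀ y₁ : ℕ} (hx : x₀ < x₁) :
    VS (Rg x₀ x₁ y₀ y₁) = {v | x₀ ≤ v.1 ∧ v.1 ≤ x₁ ∧ y₀ ≤ v.2 ∧ v.2 ≤ y₁} := by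
  ext ⟨a, b⟩
  simp only [VS, mem_ofPred_eq]
  constructor
  · rintro ⟨⟨t, i, j⟩, hs, h⟩
    cases t <;> simp only [Rg, mem_ofPred_eq, segNear, segFar, Prod.mk.injEq, if_true,
      Bool.false_eq_true, if_false, false_and, true_and, or_false, false_or, reduceCtorEq] at hs h <;>
      omega
  · rintro ⟨h1, h2, h3, h4⟩
    by_cases h5 : a < x₁
    · refine ⟨(true, a, b), ?_, Or.inl ?_⟩
      · simp only [Rg, mem_ofPred_eq]
        left
        exact ⟨trivial, h1, h5, h3, h4⟩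
      · simp [segNear]
    · refine ⟨(true, a - 1, b), ?_, Or.inr ?_⟩
      · simp only [Rg, mem_ofPred_eq]
        left
        exact ⟨trivial, by omega, by omega, h3, h4⟩
      · simp only [segFar, if_true, Prod.mk.injEq, and_true]
        omega

lemma vs_finite {S : Set (Bool × ℕ × ℕ)} (h : S.Finite) : (VS S).Finite := by
  refine ((h.image segNear).union (h.image segFar)).subset ?_
  rintro v ⟨s, hs, h1 | h1⟩
  · exact Or.inl ⟨s, hs, h1.symm⟩
  · exact Or.inr ⟨s, hs, h1.symm⟩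

lemma NB.mono {S S' : Set (Bool × ℕ × ℕ)} {U : Set (ℕ × ℕ)} (h : NB S U) (hS : S ⊆ S') :
    NB S' U := by
  obtain ⟨nb, h1⟩ := h
  refine ⟨nb, fun v hv => ⟨(h1 v hv).1, ?_, (h1 v hv).2.2⟩⟩
  obtain ⟨s, hs, h2⟩ := (h1 v hv).2.1
  exact ⟨s, hS hs, h2⟩

lemma NB.union {S : Set (Bool × ℕ × ℕ)} {U U' : Set (ℕ × ℕ)} (h : NB S U) (h' : NB S U') :
    NB S (U ∪ U') := by
  classical
  obtain ⟨nb, h1⟩ := h
  obtain ⟨nb', h2⟩ := h'
  refine ⟨fun v => if v ∈ U then nb v else nb' v, fun v hv => ?_⟩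
  by_cases hvU : v ∈ U
  · simp only [if_pos hvU, if_pos (h1 v hvU).1]
    exact ⟨Or.inl (h1 v hvU).1, (h1 v hvU).2.1, (h1 v hvU).2.2⟩
  · have hvU' : v ∈ U' := hv.resolve_left hvU
    simp only [if_neg hvU]
    refine ⟨Or.inr (h2 v hvU').1, (h2 v hvU').2.1, ?_⟩
    by_cases h3 : nb' v ∈ U
    · rw [if_pos h3]
      intro h4
      exact hvU (h4 ▸ (h1 _ h3).1)
    · rw [if_neg h3]
      exact (h2 v hvU').2.2

lemma nb_empty (S : Set (Bool × ℕ × ℕ)) : NB S ∅ := ⟨id, by simp⟩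

/-- **Rectangles are full.** -/
lemma nb_rg {x₀ x₁ y₀ y₁ : ℕ} (hx : x₀ + 3 ≤ x₁) (hy : y₀ + 1 ≤ y₁) :
    NB (Rg x₀ x₁ y₀ y₁) (VS (Rg x₀ x₁ y₀ y₁)) := by
  rw [vs_rg (by omega)]
  -- the column of the vertical row of the line `y`
  obtain ⟨c, hc⟩ : ∃ c : ℕ → ℕ, ∀ y, c y = if y < y₁ then x₀ + (x₀ + y) % 2 else
      x₀ + (x₀ + y₁ - 1) % 2 + 2 := ⟨_, fun _ => rfl⟩
  obtain ⟨nb, hnb⟩ : ∃ nb : ℕ × ℕ → ℕ × ℕ, ∀ x y, nb (x, y) =
      if x < c y then (x + 1, y) else if c y < x then (x - 1, y) else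
        if y < y₁ then (x, y + 1) else (x, y - 1) :=
    ⟨fun v => if v.1 < c v.2 then (v.1 + 1, v.2) else if c v.2 < v.1 then (v.1 - 1, v.2) else
        if v.2 < y₁ then (v.1, v.2 + 1) else (v.1, v.2 - 1), fun x y => rfl⟩
  refine ⟨nb, ?_⟩
  rintro ⟨x, y⟩ ⟨h1, h2, h3, h4⟩
  simp only at h1 h2 h3 h4
  have hcy := hc y
  have hcy1 := hc (y + 1)
  have hcy2 := hc (y - 1)
  rcases lt_trichotomy x (c y) with h5 | h5 | h5
  · have e1 : nb (x, y) = (x + 1, y) := by rw [hnb, if_pos h5]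
    refine ⟨?_, ⟨(true, x, y), ?_, ?_⟩, ?_⟩
    · rw [e1]
      simp only [mem_ofPred_eq]
      refine ⟨by omega, ?_, h3, h4⟩
      split_ifs at hcy <;> omega
    · simp only [Rg, mem_ofPred_eq]
      left
      refine ⟨by trivial, h1, ?_, h3, h4⟩
      split_ifs at hcy <;> omega
    · rw [e1]
      simp [segNear, segFar]
    · rw [e1, hnb]
      split_ifs <;> simp only [ne_eq, Prod.mk.injEq, not_and] <;> omega
  · by_cases h6 : y < y₁
    · have e1 : nb (x, y) = (x, y + 1) := by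
        rw [hnb, if_neg (by omega), if_neg (by omega), if_pos h6]
      rw [if_pos h6] at hcy
      refine ⟨?_, ⟨(false, x, y), ?_, ?_⟩, ?_⟩
      · rw [e1]
        simp only [mem_ofPred_eq]
        omega
      · simp only [Rg, mem_ofPred_eq]
        right
        refine ⟨by trivial, h1, h2, h3, h6, by omega⟩
      · rw [e1]
        simp [segNear, segFar]
      · rw [e1, hnb]
        have h7 : c (y + 1) ≠ x := by
          rw [hcy1]
          split_ifs <;> omega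
        split_ifs <;> simp only [ne_eq, Prod.mk.injEq, not_and] <;> omega
    · have h7 : y = y₁ := by omega
      have e1 : nb (x, y) = (x, y - 1) := by
        rw [hnb, if_neg (by omega), if_neg (by omega), if_neg h6]
      rw [if_neg h6] at hcy
      refine ⟨?_, ⟨(false, x, y - 1), ?_, ?_⟩, ?_⟩
      · rw [e1]
        simp only [mem_ofPred_eq]
        omega
      · simp only [Rg, mem_ofPred_eq]
        right
        refine ⟨by trivial, h1, h2, by omega, by omega, by omega⟩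
      · rw [e1]
        simp only [segNear, segFar, Bool.false_eq_true, if_false]
        rw [show y - 1 + 1 = y by omega]
        exact Sym2.eq_swap
      · rw [e1, hnb]
        have h8 : c (y - 1) ≠ x := by
          rw [hcy2]
          split_ifs <;> omega
        split_ifs <;> simp only [ne_eq, Prod.mk.injEq, not_and] <;> omega
  · have e1 : nb (x, y) = (x - 1, y) := by rw [hnb, if_neg (by omega), if_pos h5]
    refine ⟨?_, ⟨(true, x - 1, y), ?_, ?_⟩, ?_⟩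
    · rw [e1]
      simp only [mem_ofPred_eq]
      refine ⟨?_, by omega, h3, h4⟩
      split_ifs at hcy <;> omega
    · simp only [Rg, mem_ofPred_eq]
      left
      refine ⟨by trivial, ?_, by omega, h3, h4⟩
      split_ifs at hcy <;> omega
    · rw [e1]
      simp only [segNear, segFar, if_true]
      rw [show x - 1 + 1 = x by omega]
      exact Sym2.eq_swap
    · rw [e1, hnb]
      split_ifs <;> simp only [ne_eq, Prod.mk.injEq, not_and] <;> omega

/-! ### Gluing exact sets -/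

section glue

variable {α : Type*} {M N : Matroid α} [M.Finite] {R B X Y : Set α}

lemma glue_exact (hQ : Quo M N R) (hX : X ⊆ R) (hB : B ⊆ R)
    (h1 : rk M (X ∪ B) + rk N B ≤ rk M B + rk N (X ∪ B))
    (h2 : rk M (Y ∪ B) + rk N B ≤ rk M B + rk N (Y ∪ B))
    (hmod : rk N (X ∪ B) + rk N (Y ∪ B) ≤ rk N (X ∪ Y ∪ B) + rk N ((X ∩ Y) ∪ B)) :
    rk M (X ∪ Y ∪ B) + rk N B ≤ rk M B + rk N (X ∪ Y ∪ B) := by
  have h3 := rk_submod (M := M) (X ∪ B) (Y ∪ B)
  have h4 := hQ B ((X ∩ Y) ∪ B) subset_union_right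
    (union_subset (inter_subset_left.trans hX) hB)
  have e1 : (X ∪ B) ∪ (Y ∪ B) = X ∪ Y ∪ B := by
    ext x
    simp only [mem_union]
    tauto
  have e2 : (X ∪ B) ∩ (Y ∪ B) = (X ∩ Y) ∪ B := by
    ext x
    simp only [mem_union, mem_inter_iff]
    tauto
  rw [e1, e2] at h3
  omega

end glue

section

variable {α : Type u} {M N : Matroid α} {L : Bool × ℕ × ℕ → List α}
  {f : α → Sym2 ((ℕ × ℕ) ⊕ α)} {e : Bool × ℕ × ℕ → α} {u w : ℕ}

lemma crr_union (S S' : Set (Bool × ℕ × ℕ)) : crr L (S ∪ S') = crr L S ∪ crr L S' := by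
  ext x
  simp only [crr, mem_ofPred_eq, mem_union]
  constructor
  · rintro ⟨s, hs | hs, h⟩
    · exact Or.inl ⟨s, hs, h⟩
    · exact Or.inr ⟨s, hs, h⟩
  · rintro (⟨s, hs, h⟩ | ⟨s, hs, h⟩)
    · exact ⟨s, Or.inl hs, h⟩
    · exact ⟨s, Or.inr hs, h⟩

lemma GSide.crr_inter (h : GSide M (Seg w) L f e u) {S S' : Set (Bool × ℕ × ℕ)}
    (hS : S ⊆ Seg w) (hS' : S' ⊆ Seg w) : crr L (S ∩ S') = crr L S ∩ crr L S' := by
  ext x
  simp only [crr, mem_ofPred_eq, mem_inter_iff]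
  constructor
  · rintro ⟨s, hs, hx⟩
    exact ⟨⟨s, hs.1, hx⟩, ⟨s, hs.2, hx⟩⟩
  · rintro ⟨⟨s, hs, hx⟩, ⟨s', hs', hx'⟩⟩
    have h1 := h.uniq (hS hs) (hS' hs') hx hx'
    subst h1
    exact ⟨s, ⟨hs, hs'⟩, hx⟩

/-- **The rank of a full set of rows**, with the set `Z` of all elements of the rows but one of
every row. -/
theorem GSide.rk_full' [M.Finite] [N.Finite] (h : GSide M (Seg w) L f e u)
    (hN : Bic N (crr L (Seg w)) f) : ∃ Z : Set α,
      (∀ s ∈ Seg w, ∃ a ∈ L s, ∀ x ∈ L s, x ∈ Z ↔ x ≠ a) ∧ ∀ S ⊆ Seg w, NB S (VS S) →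
      rk N (crr L S) = (VS S).ncard + (Z ∩ crr L S).ncard := by
  classical
  have hlen : ∀ s ∈ Seg w, 0 < (L s).length := by
    intro s hs
    exact List.length_pos_iff.2 (h.side.sw.ne s hs)
  have hne : Nonempty α ∨ IsEmpty α := by
    rcases isEmpty_or_nonempty α with h' | h'
    · exact Or.inr h'
    · exact Or.inl h'
  rcases hne with hne | hne
  swap
  · refine ⟨∅, fun s hs => (hne.false ((L s)[0]'(hlen s hs))).elim, fun S hS hnb => ?_⟩
    obtain ⟨nb, hnb⟩ := hnb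
    have h1 : S = ∅ := by
      rw [eq_empty_iff_forall_notMem]
      intro s hs
      have := hlen s (hS hs)
      exact hne.false ((L s)[0])
    subst h1
    have h2 : crr L ∅ = ∅ := by
      ext x
      exact (hne.false x).elim
    rw [h2, vs_empty, rk_empty]
    simp
  obtain ⟨r, hr⟩ : ∃ r : Bool × ℕ × ℕ → α, ∀ s, ∀ hs : 0 < (L s).length, r s = (L s)[0] := by
    have h1 : ∀ s, ∃ a : α, ∀ hs : 0 < (L s).length, a = (L s)[0] := by
      intro s
      by_cases hs : 0 < (L s).length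
      · exact ⟨(L s)[0], fun _ => rfl⟩
      · exact ⟨hne.some, fun h' => absurd h' hs⟩
    choose r hr using h1
    exact ⟨r, hr⟩
  have hrL : ∀ s ∈ Seg w, r s ∈ L s := by
    intro s hs
    rw [hr s (hlen s hs)]
    exact List.getElem_mem _
  obtain ⟨R, hR⟩ : ∃ R : Set α, R = crr L (Seg w) := ⟨_, rfl⟩
  obtain ⟨Z, hZ⟩ : ∃ Z : Set α, Z = R \ r '' Seg w := ⟨_, rfl⟩
  have hRE : R ⊆ N.E := by
    rw [hR]
    exact hN.sub
  have hrR : ∀ s ∈ Seg w, r s ∈ R := by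
    intro s hs
    rw [hR]
    exact ⟨s, hs, hrL s hs⟩
  obtain ⟨ends', hB', hends'⟩ := TST.con_reps (M := N) h.side.sw (bicU_zero hN) hrL
  rw [← hR, ← hZ] at hB'
  have hfZ : (N ／ Z).Finite := BQ.fin_contract Z
  have hZE : Z ⊆ N.E := by
    rw [hZ]
    exact sdiff_subset.trans hRE
  -- dropping the elements of `Z` on the rows outside of `S`
  have drop : ∀ S ⊆ Seg w, rk N (crr L S) + (Z \ crr L S).ncard = rk N (r '' S ∪ Z) := by
    intro S hS
    have hGf : (Z \ crr L S).Finite := (N.ground_finite.subset hZE).subset sdiff_subset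
    have e1 : (r '' S ∪ Z) \ (Z \ crr L S) = crr L S := by
      ext x
      constructor
      · rintro ⟨h1 | h1, h2⟩
        · obtain ⟨s, hs, rfl⟩ := h1
          exact ⟨s, hs, hrL s (hS hs)⟩
        · by_contra h3
          exact h2 ⟨h1, h3⟩
      · intro h1
        refine ⟨?_, fun h2 => h2.2 h1⟩
        by_cases h2 : x ∈ r '' Seg w
        · left
          obtain ⟨s, hs, rfl⟩ := h2
          obtain ⟨s', hs', hx⟩ := h1
          have h3 := h.uniq hs (hS hs') (hrL s hs) hx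
          subst h3
          exact ⟨s, hs', rfl⟩
        · right
          rw [hZ, hR]
          obtain ⟨s', hs', hx⟩ := h1
          exact ⟨⟨s', hS hs', hx⟩, h2⟩
    have h1 := ess_coloops (M := N) (W := r '' S ∪ Z) hGf.toFinset (by
      intro c hc
      rw [Set.Finite.mem_toFinset] at hc
      obtain ⟨hcZ, hcS⟩ := hc
      rw [hZ, hR] at hcZ
      obtain ⟨⟨s, hs, hcs⟩, hcr⟩ := hcZ
      obtain ⟨i, hi, rfl⟩ := List.mem_iff_getElem.1 hcs
      have hi0 : 0 < i := by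
        rcases Nat.eq_zero_or_pos i with h2 | h2
        · exfalso
          apply hcr
          subst h2
          exact ⟨s, hs, hr s hi⟩
        · exact h2
      have h2 := h.coloop hN hs hi0 hi
      have hcW : (L s)[i] ∈ r '' S ∪ Z := by
        right
        rw [hZ, hR]
        exact ⟨⟨s, hs, hcs⟩, hcr⟩
      have h3 : (L s)[i] ∉ N.closure ((r '' S ∪ Z) \ {(L s)[i]}) := by
        intro hcl
        refine h2 (N.closure_subset_closure ?_ hcl)
        rintro z ⟨hz1, hz2⟩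
        refine ⟨?_, ?_⟩
        · rcases hz1 with hz1 | hz1
          · obtain ⟨s', hs', rfl⟩ := hz1
            rw [← hR]
            exact hrR s' (hS hs')
          · rw [hZ, hR] at hz1
            exact hz1.1
        · rintro (hz4 | hz4)
          · exact hz2 hz4
          · rw [mem_singleton_iff] at hz4
            have hz5 : z = r s := by rw [hz4, hr s (by omega)]
            rcases hz1 with hz1 | hz1
            · obtain ⟨s', hs', rfl⟩ := hz1
              have h6 := h.uniq (hS hs') hs (hrL s' (hS hs')) (hz5 ▸ hrL s hs)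
              subst h6
              exact hcS ⟨s', hs', hcs⟩
            · rw [hZ] at hz1
              exact hz1.2 ⟨s, hs, hz5.symm⟩
      have h4 := rk_insert_ge (hRE (by rw [hR]; exact ⟨s, hs, hcs⟩)) h3
      rwa [insert_sdiff_self_of_mem hcW] at h4)
    rw [Set.Finite.coe_toFinset, ← Set.ncard_eq_toFinset_card _ hGf, e1] at h1
    have h2 : rk N (r '' S ∪ Z) ≤ rk N (crr L S) + (Z \ crr L S).ncard := by
      have h3 := rk_union_le N (X := crr L S) (Y := Z \ crr L S) hGf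
      refine le_trans (rk_mono N ?_) h3
      intro x hx
      by_cases h4 : x ∈ Z \ crr L S
      · exact Or.inr h4
      · left
        rw [← e1]
        exact ⟨hx, h4⟩
    omega
  have hZind : rk N Z = Z.ncard := by
    have h1 := drop ∅ (empty_subset _)
    have e1 : crr L (∅ : Set (Bool × ℕ × ℕ)) = ∅ := by
      ext x
      simp [crr]
    rw [e1, rk_empty, image_empty, empty_union, sdiff_empty, zero_add] at h1
    exact h1.symm
  refine ⟨Z, ?_, fun S hS hnb => ?_⟩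
  · intro s hs
    refine ⟨r s, hrL s hs, fun x hx => ?_⟩
    rw [hZ, hR]
    constructor
    · rintro ⟨-, h1⟩ rfl
      exact h1 ⟨s, hs, rfl⟩
    · intro h1
      refine ⟨⟨s, hs, hx⟩, ?_⟩
      rintro ⟨s', hs', rfl⟩
      have h2 := h.uniq hs' hs (hrL s' hs') hx
      subst h2
      exact h1 rfl
  have hVf : (VS S).Finite := vs_finite ((seg_finite w).subset hS)
  -- the rank of the representatives
  have key : rk (N ／ Z) (r '' S) = (VS S).ncard := by
    obtain ⟨nb, hnb⟩ := hnb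
    have hrS : r '' S ⊆ r '' Seg w := image_mono hS
    have hBS : Bic (N ／ Z) (r '' S) ends' := Bic_sub hB'.bic hrS
    obtain ⟨F, hF⟩ := DA.full_of_nb (S := r '' S) (ends := ends')
      (U := (Sum.inl '' VS S : Set ((ℕ × ℕ) ⊕ α))) (fun v => Sum.map nb id v) (by
        rintro _ ⟨v, hv, rfl⟩
        obtain ⟨h1, ⟨s, hs, h2⟩, h3⟩ := hnb v hv
        refine ⟨⟨nb v, h1, rfl⟩, r s, ⟨s, hs, rfl⟩, ?_⟩
        rw [hends' s (hS hs)]
        have h4 := congrArg (Sym2.map (Sum.inl : ℕ × ℕ → (ℕ × ℕ) ⊕ α)) h2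
        simpa using h4) (by
        rintro _ ⟨v, hv, rfl⟩
        intro h1
        exact (hnb v hv).2.2 (by simpa using h1))
    have hUf : (Sum.inl '' VS S : Set ((ℕ × ℕ) ⊕ α)).Finite := hVf.image _
    have h1 := hF.basis hBS hUf
    have h2 := hF.encard
    have h3 : ins (r '' S) ends' (Sum.inl '' VS S) = r '' S := by
      ext x
      constructor
      · exact fun hx => hx.1
      · rintro ⟨s, hs, rfl⟩
        refine ⟨⟨s, hs, rfl⟩, fun v hv => ?_⟩
        rw [hends' s (hS hs), Sym2.mem_iff] at hv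
        rcases hv with rfl | rfl
        · exact ⟨_, ⟨s, hs, Or.inl rfl⟩, rfl⟩
        · exact ⟨_, ⟨s, hs, Or.inr rfl⟩, rfl⟩
    rw [h3] at h1
    have h4 : rk (N ／ Z) (r '' S) = (F.encard).toNat := by
      unfold BIC.rk
      rw [← h1.encard_eq_eRk]
    rw [h4, h2, Function.Injective.encard_image Sum.inl_injective]
    rfl
  have hsub : r '' S ⊆ N.E \ Z := by
    rintro _ ⟨s, hs, rfl⟩
    refine ⟨hRE (hrR s (hS hs)), ?_⟩
    rw [hZ]
    exact fun h1 => h1.2 ⟨s, hS hs, rfl⟩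
  have h1 := rk_contract_set (M := N) (C := Z) (X := r '' S) hZE hsub
  have h2 := drop S hS
  have hZf : Z.Finite := N.ground_finite.subset hZE
  have h3 : (Z ∩ crr L S).ncard + (Z \ crr L S).ncard = Z.ncard :=
    Set.ncard_inter_add_ncard_sdiff_eq_ncard Z (crr L S) hZf
  omega

/-- **The rank of a full set of rows.** -/
theorem GSide.rk_full [M.Finite] [N.Finite] (h : GSide M (Seg w) L f e u)
    (hN : Bic N (crr L (Seg w)) f) : ∃ Z : Set α, ∀ S ⊆ Seg w, NB S (VS S) →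
      rk N (crr L S) = (VS S).ncard + (Z ∩ crr L S).ncard := by
  obtain ⟨Z, -, h1⟩ := h.rk_full' hN
  exact ⟨Z, h1⟩

/-- **The rank of a full set of rows is the number of its nodes** (branch vertices and inner
vertices of the rows). -/
theorem GSide.rk_nodes [M.Finite] [N.Finite] (h : GSide M (Seg w) L f e u)
    (hN : Bic N (crr L (Seg w)) f) {S : Set (Bool × ℕ × ℕ)} (hS : S ⊆ Seg w)
    (hnb : NB S (VS S)) : rk N (crr L S) = {v | ∃ x ∈ crr L S, v ∈ f x}.ncard := by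
  classical
  obtain ⟨Z, hZ, hr⟩ := h.rk_full' hN
  have h1 := hr S hS hnb
  have hSf : S.Finite := (seg_finite w).subset hS
  have hRf : (crr L S).Finite := N.ground_finite.subset ((crr_mono hS).trans hN.sub)
  obtain ⟨V, hV⟩ : ∃ V : Set ((ℕ × ℕ) ⊕ α), V = {v | ∃ x ∈ crr L S, v ∈ f x} := ⟨_, rfl⟩
  rw [← hV]
  -- the nodes
  have hVsub : V ⊆ Sum.inl '' VS S ∪ Sum.inr '' (crr L S \ e '' S) := by
    rw [hV]
    rintro v ⟨x, ⟨s, hs, hx⟩, hv⟩
    obtain ⟨i, hi, rfl⟩ := List.mem_iff_getElem.1 hx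
    have hnode : ∀ k, k ≤ (L s).length →
        node s (L s) k ∈ Sum.inl '' VS S ∪ Sum.inr '' (crr L S \ e '' S) := by
      intro k hk
      by_cases k0 : k = 0
      · subst k0
        rw [TST.node_zero]
        exact Or.inl ⟨_, ⟨s, hs, Or.inl rfl⟩, rfl⟩
      · by_cases k1 : k = (L s).length
        · subst k1
          rw [TST.node_len s (List.ne_nil_of_mem hx)]
          exact Or.inl ⟨_, ⟨s, hs, Or.inr rfl⟩, rfl⟩
        · have hk2 : k - 1 < (L s).length := by omega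
          rw [node_mid s (by omega) (by omega)]
          refine Or.inr ⟨_, ⟨⟨s, hs, List.getElem_mem hk2⟩, ?_⟩, rfl⟩
          rintro ⟨s', hs', h2⟩
          have h3 := h.uniq (hS hs') (hS hs) (h.mem_last (hS hs')) (h2 ▸ List.getElem_mem hk2)
          subst h3
          have h4 := h.last s' (hS hs)
          rw [List.getLast?_eq_getElem?, List.getElem?_eq_getElem (by omega)] at h4
          simp only [Option.some.injEq] at h4
          rw [← h4] at h2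
          have h5 := (h.nodup s' (hS hs)).getElem_inj_iff.1 h2
          omega
    rw [h.end_eq s (hS hs) i hi, Sym2.mem_iff] at hv
    rcases hv with rfl | rfl
    · exact hnode i (by omega)
    · exact hnode (i + 1) (by omega)
  have hVSf : (VS S).Finite := vs_finite hSf
  have hVf : (Sum.inl '' VS S ∪ Sum.inr '' (crr L S \ e '' S) : Set ((ℕ × ℕ) ⊕ α)).Finite :=
    (hVSf.image _).union ((hRf.subset sdiff_subset).image _)
  have u1 : V.ncard ≤ (VS S).ncard + (crr L S \ e '' S).ncard := by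
    refine (Set.ncard_le_ncard hVsub hVf).trans ((Set.ncard_union_le _ _).trans ?_)
    rw [Set.ncard_image_of_injective _ Sum.inl_injective,
      Set.ncard_image_of_injective _ Sum.inr_injective]
  -- all but one element of every row
  have hZ' : ∀ s : Bool × ℕ × ℕ, ∃ a : α, s ∈ Seg w → a ∈ L s ∧ ∀ x ∈ L s, x ∈ Z ↔ x ≠ a := by
    intro s
    by_cases hs : s ∈ Seg w
    · obtain ⟨a, h2, h3⟩ := hZ s hs
      exact ⟨a, fun _ => ⟨h2, h3⟩⟩
    · exact ⟨e s, fun h2 => absurd h2 hs⟩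
  choose a ha using hZ'
  have hai : InjOn a S := by
    intro s hs s' hs' hss
    refine h.uniq (hS hs) (hS hs') (ha s (hS hs)).1 ?_
    rw [hss]
    exact (ha s' (hS hs')).1
  have eZ : Z ∩ crr L S = crr L S \ a '' S := by
    ext x
    constructor
    · rintro ⟨h2, s, hs, hx⟩
      refine ⟨⟨s, hs, hx⟩, ?_⟩
      rintro ⟨s', hs', rfl⟩
      have h3 := h.uniq (hS hs') (hS hs) (ha s' (hS hs')).1 hx
      subst h3
      exact ((ha s' (hS hs)).2 _ hx).1 h2 rfl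
    · rintro ⟨⟨s, hs, hx⟩, h2⟩
      refine ⟨((ha s (hS hs)).2 x hx).2 ?_, s, hs, hx⟩
      rintro rfl
      exact h2 ⟨s, hs, rfl⟩
  have haS : a '' S ⊆ crr L S := by
    rintro _ ⟨s, hs, rfl⟩
    exact ⟨s, hs, (ha s (hS hs)).1⟩
  have heS : e '' S ⊆ crr L S := by
    rintro _ ⟨s, hs, rfl⟩
    exact ⟨s, hs, h.mem_last (hS hs)⟩
  have n1 := Set.ncard_sdiff_add_ncard_of_subset haS hRf
  have n2 := Set.ncard_sdiff_add_ncard_of_subset heS hRf
  rw [hai.ncard_image] at n1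
  rw [(h.e_inj.mono hS).ncard_image] at n2
  rw [eZ] at h1
  -- the upper bound
  have hVf' : V.Finite := hVf.subset hVsub
  have up : rk N (crr L S) ≤ V.ncard := by
    have h2 : crr L S ⊆ ins (crr L (Seg w)) f V := by
      intro x hx
      refine ⟨crr_mono hS hx, fun v hv => ?_⟩
      rw [hV]
      exact ⟨x, hx, hv⟩
    have h3 := (N.eRk_mono h2).trans (hN.rk V)
    rw [← hVf'.cast_ncard_eq, ← cast_rk] at h3
    exact_mod_cast h3
  omega

/-- modularity of the rank for three full sets of rows -/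
theorem GSide.modular [M.Finite] [N.Finite] (h : GSide M (Seg w) L f e u)
    (hN : Bic N (crr L (Seg w)) f) {S₀ S₁ S₂ : Set (Bool × ℕ × ℕ)} (h₀ : S₀ ⊆ Seg w)
    (h₁ : S₁ ⊆ Seg w) (h₂ : S₂ ⊆ Seg w) (n₀ : NB S₀ (VS S₀)) (n₁ : NB S₁ (VS S₁))
    (n₂ : NB S₂ (VS S₂)) (n₃ : NB (S₁ ∩ S₂) (VS (S₁ ∩ S₂)))
    (hV : VS S₁ ∩ VS S₂ ⊆ VS (S₁ ∩ S₂)) :
    rk N (crr L S₁ ∪ crr L S₀) + rk N (crr L S₂ ∪ crr L S₀) =
      rk N (crr L S₁ ∪ crr L S₂ ∪ crr L S₀) + rk N ((crr L S₁ ∩ crr L S₂) ∪ crr L S₀) := by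
  obtain ⟨Z, hZ⟩ := h.rk_full hN
  have hun : ∀ {S S' : Set (Bool × ℕ × ℕ)}, NB S (VS S) → NB S' (VS S') →
      NB (S ∪ S') (VS (S ∪ S')) := by
    intro S S' hS hS'
    rw [vs_union]
    exact (hS.mono subset_union_left).union (hS'.mono subset_union_right)
  have h12 : S₁ ∩ S₂ ⊆ Seg w := inter_subset_left.trans h₁
  rw [← h.crr_inter h₁ h₂, ← crr_union, ← crr_union, ← crr_union, ← crr_union, ← crr_union,
    hZ _ (union_subset h₁ h₀) (hun n₁ n₀), hZ _ (union_subset h₂ h₀) (hun n₂ n₀),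
    hZ _ (union_subset (union_subset h₁ h₂) h₀) (hun (hun n₁ n₂) n₀),
    hZ _ (union_subset h12 h₀) (hun n₃ n₀)]
  have hf : ∀ {S : Set (Bool × ℕ × ℕ)}, S ⊆ Seg w → (VS S).Finite := fun hS =>
    vs_finite ((seg_finite w).subset hS)
  have hR : ∀ {S : Set (Bool × ℕ × ℕ)}, S ⊆ Seg w → (Z ∩ crr L S).Finite := fun hS =>
    (M.ground_finite.subset ((crr_mono hS).trans h.sub_ground)).subset inter_subset_right
  have a1 := Set.ncard_union_add_ncard_inter (VS (S₁ ∪ S₀)) (VS (S₂ ∪ S₀))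
    (hf (union_subset h₁ h₀)) (hf (union_subset h₂ h₀))
  have a2 := Set.ncard_union_add_ncard_inter (Z ∩ crr L (S₁ ∪ S₀)) (Z ∩ crr L (S₂ ∪ S₀))
    (hR (union_subset h₁ h₀)) (hR (union_subset h₂ h₀))
  have e1 : VS (S₁ ∪ S₀) ∪ VS (S₂ ∪ S₀) = VS (S₁ ∪ S₂ ∪ S₀) := by
    simp only [vs_union]
    ext x
    simp only [mem_union]
    tauto
  have e2 : VS (S₁ ∪ S₀) ∩ VS (S₂ ∪ S₀) = VS (S₁ ∩ S₂ ∪ S₀) := by
    simp only [vs_union]
    have h3 : VS (S₁ ∩ S₂) ⊆ VS S₁ ∩ VS S₂ := by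
      rintro v ⟨s, hs, h4⟩
      exact ⟨⟨s, hs.1, h4⟩, ⟨s, hs.2, h4⟩⟩
    rw [h3.antisymm hV]
    ext x
    simp only [mem_union, mem_inter_iff]
    tauto
  have e3 : Z ∩ crr L (S₁ ∪ S₀) ∪ Z ∩ crr L (S₂ ∪ S₀) = Z ∩ crr L (S₁ ∪ S₂ ∪ S₀) := by
    simp only [crr_union]
    ext x
    simp only [mem_union, mem_inter_iff]
    tauto
  have e4 : Z ∩ crr L (S₁ ∪ S₀) ∩ (Z ∩ crr L (S₂ ∪ S₀)) = Z ∩ crr L (S₁ ∩ S₂ ∪ S₀) := by
    rw [crr_union (S := S₁ ∩ S₂), h.crr_inter h₁ h₂]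
    simp only [crr_union]
    ext x
    simp only [mem_union, mem_inter_iff]
    tauto
  rw [e1, e2] at a1
  rw [e3, e4] at a2
  omega

lemma rg_sub {x₀ x₁ y₀ y₁ : ℕ} (hx : x₁ ≤ w) (hy : y₁ ≤ w) : Rg x₀ x₁ y₀ y₁ ⊆ Seg w := by
  rintro ⟨t, i, j⟩ hs
  cases t <;> simp only [Rg, Seg, mem_ofPred_eq, Bool.false_eq_true, false_and, true_and,
    or_false, false_or, reduceCtorEq] at hs ⊢ <;> omega

/-- the union of the windows of side 4 at the positions of `J` -/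
def Wn (J : Finset (ℕ × ℕ)) : Set (Bool × ℕ × ℕ) := {s | ∃ j ∈ J, s ∈ Rg j.1 (j.1 + 4) j.2 (j.2 + 4)}

lemma nb_wn (J : Finset (ℕ × ℕ)) : NB (Wn J) (VS (Wn J)) := by
  classical
  induction J using Finset.induction_on with
  | empty =>
    have e1 : Wn (∅ : Finset (ℕ × ℕ)) = ∅ := by
      ext s
      simp [Wn]
    rw [e1, vs_empty]
    exact nb_empty _
  | insert j J hj ih =>
    have e1 : Wn (insert j J) = Rg j.1 (j.1 + 4) j.2 (j.2 + 4) ∪ Wn J := by
      ext s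
      simp [Wn]
    rw [e1, vs_union]
    exact ((nb_rg (by omega) (by omega)).mono subset_union_left).union
      (ih.mono subset_union_right)

lemma wn_insert [DecidableEq (ℕ × ℕ)] (j : ℕ × ℕ) (J : Finset (ℕ × ℕ)) :
    Wn (insert j J) = Wn J ∪ Rg j.1 (j.1 + 4) j.2 (j.2 + 4) := by
  ext s
  simp only [Wn, mem_ofPred_eq, Finset.mem_insert, exists_eq_or_imp, mem_union]
  exact or_comm

/-- gluing two rectangles with a big intersection -/
lemma GSide.glue [M.Finite] [N.Finite] (h : GSide M (Seg w) L f e u)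
    (hN : Bic N (crr L (Seg w)) f) (hQ : Quo M N (crr L (Seg w))) {S₀ : Set (Bool × ℕ × ℕ)}
    (h₀ : S₀ ⊆ Seg w) (n₀ : NB S₀ (VS S₀)) {a₀ a₁ a₂ a₃ b₀ b₁ b₂ b₃ : ℕ}
    (hab : (b₀ = b₁ ∧ b₂ = b₃ ∧ a₀ ≤ a₁ ∧ a₁ + 3 ≤ a₂ ∧ a₂ ≤ a₃ ∧ b₀ + 1 ≤ b₂) ∨
      (a₀ = a₁ ∧ a₂ = a₃ ∧ b₀ ≤ b₁ ∧ b₁ + 1 ≤ b₂ ∧ b₂ ≤ b₃ ∧ a₀ + 3 ≤ a₂)) (ha : a₃ ≤ w)
    (hb : b₃ ≤ w)
    (h1 : rk M (crr L (Rg a₀ a₂ b₀ b₂) ∪ crr L S₀) + rk N (crr L S₀) ≤
      rk M (crr L S₀) + rk N (crr L (Rg a₀ a₂ b₀ b₂) ∪ crr L S₀))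
    (h2 : rk M (crr L (Rg a₁ a₃ b₁ b₃) ∪ crr L S₀) + rk N (crr L S₀) ≤
      rk M (crr L S₀) + rk N (crr L (Rg a₁ a₃ b₁ b₃) ∪ crr L S₀)) :
    rk M (crr L (Rg a₀ a₃ b₀ b₃) ∪ crr L S₀) + rk N (crr L S₀) ≤
      rk M (crr L S₀) + rk N (crr L (Rg a₀ a₃ b₀ b₃) ∪ crr L S₀) := by
  have s1 : Rg a₀ a₂ b₀ b₂ ⊆ Seg w := rg_sub (by omega) (by omega)
  have s2 : Rg a₁ a₃ b₁ b₃ ⊆ Seg w := rg_sub (by omega) (by omega)
  have eI : Rg a₀ a₂ b₀ b₂ ∩ Rg a₁ a₃ b₁ b₃ = Rg a₁ a₂ b₁ b₂ := by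
    ext ⟨t, i, j⟩
    cases t <;> simp only [Rg, mem_inter_iff, mem_ofPred_eq, Bool.false_eq_true, false_and,
      true_and, or_false, false_or, reduceCtorEq] <;> omega
  have eU : Rg a₀ a₂ b₀ b₂ ∪ Rg a₁ a₃ b₁ b₃ = Rg a₀ a₃ b₀ b₃ := by
    ext ⟨t, i, j⟩
    cases t <;> simp only [Rg, mem_union, mem_ofPred_eq, Bool.false_eq_true, false_and,
      true_and, or_false, false_or, reduceCtorEq] <;> omega
  have hmod := h.modular hN h₀ s1 s2 n₀ (nb_rg (by omega) (by omega)) (nb_rg (by omega) (by omega))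
    (by rw [eI]; exact nb_rg (by omega) (by omega)) (by
      rw [eI, vs_rg (by omega), vs_rg (by omega), vs_rg (by omega)]
      rintro v ⟨hv1, hv2⟩
      simp only [mem_ofPred_eq] at hv1 hv2 ⊢
      omega)
  have h3 := glue_exact hQ (crr_mono s1) (crr_mono h₀) h1 h2 hmod.le
  rw [← crr_union (S := Rg a₀ a₂ b₀ b₂), eU] at h3
  exact h3

/-- **KILL.**  A lift of rank `u` of a subdivided brick wall is exact outside of at most `u` windows
of side 4: after the contraction of the windows (or of any larger set of rows `B`) the rows carry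
the bicircular matroid of the wall. -/
theorem GSide.kill [M.Finite] (h : GSide M (Seg w) L f e u) (hw : 4 ≤ w) :
    ∃ (N : Matroid α) (J : Finset (ℕ × ℕ)), N.Finite ∧ Bic N (crr L (Seg w)) f ∧
      Quo M N (crr L (Seg w)) ∧ J.card ≤ u ∧ (∀ j ∈ J, j.1 + 4 ≤ w ∧ j.2 + 4 ≤ w) ∧
      ∀ B, crr L (Wn J) ⊆ B → B ⊆ crr L (Seg w) → ∀ X ⊆ crr L (Seg w),
        rk M (X ∪ B) + rk N B = rk N (X ∪ B) + rk M B := by
  classical
  obtain ⟨h0, N, hNf, hN, hQ, hup⟩ := h.lift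
  have hquo0 : ∀ X ⊆ crr L (Seg w), rk N X ≤ rk M X := by
    intro X hX
    have h1 := hQ ∅ X (empty_subset _) hX
    rw [rk_empty, rk_empty] at h1
    omega
  -- the greedy choice
  obtain ⟨P, hP⟩ : ∃ P : Finset (ℕ × ℕ) → Prop, ∀ J, P J ↔ (∀ j ∈ J, j.1 + 4 ≤ w ∧ j.2 + 4 ≤ w) ∧
      rk N (crr L (Wn J)) + J.card ≤ rk M (crr L (Wn J)) := ⟨_, fun _ => Iff.rfl⟩
  have hWsub : ∀ J : Finset (ℕ × ℕ), (∀ j ∈ J, j.1 + 4 ≤ w ∧ j.2 + 4 ≤ w) → Wn J ⊆ Seg w := by
    rintro J hJ s ⟨j, hj, hs⟩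
    exact rg_sub (hJ j hj).1 (hJ j hj).2 hs
  have hPu : ∀ J, P J → J.card ≤ u := by
    intro J hJ
    obtain ⟨h1, h2⟩ := (hP J).1 hJ
    have h3 := hup (crr L (Wn J)) (crr_mono (hWsub J h1))
    omega
  have hP0 : P ∅ := by
    rw [hP]
    refine ⟨by simp, ?_⟩
    have e1 : Wn (∅ : Finset (ℕ × ℕ)) = ∅ := by
      ext s
      simp [Wn]
    rw [e1]
    have e2 : crr L (∅ : Set (Bool × ℕ × ℕ)) = ∅ := by
      ext s
      simp [crr]
    rw [e2, rk_empty, rk_empty]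
    simp
  obtain ⟨J, hJ, hJm⟩ : ∃ J, P J ∧ ∀ J', P J' → J'.card ≤ J.card := by
    have h1 : ∃ n, ∃ J, P J ∧ J.card = n := ⟨0, ∅, hP0, rfl⟩
    obtain ⟨J, hJ, h2⟩ := Nat.findGreatest_spec (P := fun n => ∃ J, P J ∧ J.card = n) (n := u)
      (m := 0) (Nat.zero_le _) ⟨∅, hP0, rfl⟩
    refine ⟨J, hJ, fun J' hJ' => ?_⟩
    rw [h2]
    exact Nat.le_findGreatest (hPu J' hJ') ⟨J', hJ', rfl⟩
  obtain ⟨hJ1, hJ2⟩ := (hP J).1 hJ
  obtain ⟨B₀, hB₀⟩ : ∃ B₀, B₀ = crr L (Wn J) := ⟨_, rfl⟩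
  have hsW := hWsub J hJ1
  -- the windows are exact
  have hwin : ∀ x y, x + 4 ≤ w → y + 4 ≤ w →
      rk M (crr L (Rg x (x + 4) y (y + 4)) ∪ crr L (Wn J)) + rk N (crr L (Wn J)) ≤
        rk M (crr L (Wn J)) + rk N (crr L (Rg x (x + 4) y (y + 4)) ∪ crr L (Wn J)) := by
    intro x y hx hy
    by_cases hxJ : (x, y) ∈ J
    · have h1 : crr L (Rg x (x + 4) y (y + 4)) ⊆ crr L (Wn J) :=
        crr_mono fun s hs => ⟨(x, y), hxJ, hs⟩
      rw [union_eq_self_of_subset_left h1]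
    · by_contra hlt
      push Not at hlt
      have h1 : ¬ P (insert (x, y) J) := by
        intro h2
        have h3 := hJm _ h2
        rw [Finset.card_insert_of_notMem hxJ] at h3
        omega
      apply h1
      rw [hP]
      refine ⟨?_, ?_⟩
      · intro j hj
        rcases Finset.mem_insert.1 hj with rfl | hj
        · exact ⟨hx, hy⟩
        · exact hJ1 j hj
      · rw [Finset.card_insert_of_notMem hxJ, wn_insert, crr_union, union_comm]
        show rk N (crr L (Rg x (x + 4) y (y + 4)) ∪ crr L (Wn J)) + (J.card + 1) ≤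
          rk M (crr L (Rg x (x + 4) y (y + 4)) ∪ crr L (Wn J))
        omega
  -- strips
  have hstrip : ∀ a, 4 ≤ a → a ≤ w → ∀ y, y + 4 ≤ w →
      rk M (crr L (Rg 0 a y (y + 4)) ∪ crr L (Wn J)) + rk N (crr L (Wn J)) ≤
        rk M (crr L (Wn J)) + rk N (crr L (Rg 0 a y (y + 4)) ∪ crr L (Wn J)) := by
    intro a ha
    induction a, ha using Nat.le_induction with
    | base =>
      intro haw y hy
      exact hwin 0 y (by omega) hy
    | succ a ha ih =>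
      intro haw y hy
      have h1 := hwin (a - 3) y (by omega) hy
      rw [show a - 3 + 4 = a + 1 by omega] at h1
      exact h.glue hN hQ hsW (nb_wn J) (a₀ := 0) (a₁ := a - 3) (a₂ := a) (a₃ := a + 1) (b₀ := y)
        (b₁ := y) (b₂ := y + 4) (b₃ := y + 4) (Or.inl (by omega)) haw hy (ih (by omega) y hy) h1
  -- the wall
  have hwall : ∀ b, 4 ≤ b → b ≤ w →
      rk M (crr L (Rg 0 w 0 b) ∪ crr L (Wn J)) + rk N (crr L (Wn J)) ≤
        rk M (crr L (Wn J)) + rk N (crr L (Rg 0 w 0 b) ∪ crr L (Wn J)) := by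
    intro b hb
    induction b, hb using Nat.le_induction with
    | base =>
      intro hbw
      exact hstrip w hw le_rfl 0 (by omega)
    | succ b hb ih =>
      intro hbw
      have h1 := hstrip w hw le_rfl (b - 3) (by omega)
      rw [show b - 3 + 4 = b + 1 by omega] at h1
      exact h.glue hN hQ hsW (nb_wn J) (a₀ := 0) (a₁ := 0) (a₂ := w) (a₃ := w) (b₀ := 0)
        (b₁ := b - 3) (b₂ := b) (b₃ := b + 1) (Or.inr (by omega)) le_rfl hbw (ih (by omega)) h1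
  have hall := hwall w hw le_rfl
  rw [rg_full, ← crr_union, union_eq_self_of_subset_right hsW] at hall
  refine ⟨N, J, hNf, hN, hQ, hPu J hJ, hJ1, fun B hB1 hB2 X hX => ?_⟩
  have h1 := hQ (crr L (Wn J)) B hB1 hB2
  have h2 := hQ B (X ∪ B) subset_union_right (union_subset hX hB2)
  have h3 := hQ (X ∪ B) (crr L (Seg w)) (union_subset hX hB2) (Subset.refl _)
  omega

/-- the windows of `kill`: their rank in the lift is the number of their nodes -/
theorem GSide.rk_wn [M.Finite] [N.Finite] (h : GSide M (Seg w) L f e u)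
    (hN : Bic N (crr L (Seg w)) f) {J : Finset (ℕ × ℕ)}
    (hJ : ∀ j ∈ J, j.1 + 4 ≤ w ∧ j.2 + 4 ≤ w) :
    rk N (crr L (Wn J)) = {v | ∃ x ∈ crr L (Wn J), v ∈ f x}.ncard := by
  refine h.rk_nodes hN ?_ (nb_wn J)
  rintro s ⟨j, hj, hs⟩
  exact rg_sub (hJ j hj).1 (hJ j hj).2 hs

end

end CWL
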