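import Pool.Agent.CW.Kill
import Pool.Agent.CW.AlphaZ

/-!
# A lift of a brick wall with holes is exact outside of few windows

`GSide.killH`: the rows `R₀` of the wall which avoid squares around few points; annuli around the
squares and windows of side 4 are contracted.
-/

open Set BIC BICS
open scoped Matroid

namespace CWL

universe u

section

variable {α : Type u} {M N : Matroid α} {L : Bool × ℕ × ℕ → List α}
  {f : α → Sym2 ((ℕ × ℕ) ⊕ α)} {e : Bool × ℕ × ℕ → α} {u w : ℕ} {R₀ : Set (Bool × ℕ × ℕ)}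

lemma GSide.crr_interS (h : GSide M R₀ L f e u) {S S' : Set (Bool × ℕ × ℕ)}
    (hS : S ⊆ R₀) (hS' : S' ⊆ R₀) : crr L (S ∩ S') = crr L S ∩ crr L S' := by
  ext x
  simp only [crr, mem_ofPred_eq, mem_inter_iff]
  constructor
  · rintro ⟨s, hs, hx⟩
    exact ⟨⟨s, hs.1, hx⟩, ⟨s, hs.2, hx⟩⟩
  · rintro ⟨⟨s, hs, hx⟩, ⟨s', hs', hx'⟩⟩
    have h1 := h.uniq (hS hs) (hS' hs') hx hx'
    subst h1
    exact ⟨s, ⟨hs, hs'⟩, hx⟩

/-- **The rank of a full set of rows**, with the set `Z` of all elements of the rows but one of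
every row. -/
theorem GSide.rk_fullS' [M.Finite] [N.Finite] (hR₀ : R₀.Finite) (h : GSide M R₀ L f e u)
    (hN : Bic N (crr L R₀) f) : ∃ Z : Set α,
      (∀ s ∈ R₀, ∃ a ∈ L s, ∀ x ∈ L s, x ∈ Z ↔ x ≠ a) ∧ ∀ S ⊆ R₀, NB S (VS S) →
      rk N (crr L S) = (VS S).ncard + (Z ∩ crr L S).ncard := by
  classical
  have hlen : ∀ s ∈ R₀, 0 < (L s).length := by
    intro s hs
    exact List.length_pos_iff.2 (fun hn => by have := h.last s hs; rw [hn] at this; simp at this)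
  have hne : Nonempty α ∨ IsEmpty α := by
    rcases isEmpty_or_nonempty α with h' | h'
    · exact Or.inr h'
    · exact Or.inl h'
  rcases hne with hne | hne
  swap
  · refine ⟨∅, fun s hs => (hne.false ((L s)[0]'(hlen s hs))).elim, fun S hS hnb => ?_⟩
    obtain ⟨nb, hnb⟩ := hnb
    have h1 : S = ∅ := by
      rw [eq_empty_iff_forall_notMem]
      intro s hs
      have := hlen s (hS hs)
      exact hne.false ((L s)[0])
    subst h1
    have h2 : crr L ∅ = ∅ := by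
      ext x
      exact (hne.false x).elim
    rw [h2, vs_empty, rk_empty]
    simp
  obtain ⟨r, hr⟩ : ∃ r : Bool × ℕ × ℕ → α, ∀ s, ∀ hs : 0 < (L s).length, r s = (L s)[0] := by
    have h1 : ∀ s, ∃ a : α, ∀ hs : 0 < (L s).length, a = (L s)[0] := by
      intro s
      by_cases hs : 0 < (L s).length
      · exact ⟨(L s)[0], fun _ => rfl⟩
      · exact ⟨hne.some, fun h' => absurd h' hs⟩
    choose r hr using h1
    exact ⟨r, hr⟩
  have hrL : ∀ s ∈ R₀, r s ∈ L s := by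
    intro s hs
    rw [hr s (hlen s hs)]
    exact List.getElem_mem _
  obtain ⟨R, hR⟩ : ∃ R : Set α, R = crr L R₀ := ⟨_, rfl⟩
  obtain ⟨Z, hZ⟩ : ∃ Z : Set α, Z = R \ r '' R₀ := ⟨_, rfl⟩
  have hRE : R ⊆ N.E := by
    rw [hR]
    exact hN.sub
  have hrR : ∀ s ∈ R₀, r s ∈ R := by
    intro s hs
    rw [hR]
    exact ⟨s, hs, hrL s hs⟩
  obtain ⟨ends', hB', hends'⟩ := con_repsS (M := N) hR₀ h.subW (bicU_zero hN) hrL
  rw [← hR, ← hZ] at hB'
  have hfZ : (N ／ Z).Finite := BQ.fin_contract Z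
  have hZE : Z ⊆ N.E := by
    rw [hZ]
    exact sdiff_subset.trans hRE
  -- dropping the elements of `Z` on the rows outside of `S`
  have drop : ∀ S ⊆ R₀, rk N (crr L S) + (Z \ crr L S).ncard = rk N (r '' S ∪ Z) := by
    intro S hS
    have hGf : (Z \ crr L S).Finite := (N.ground_finite.subset hZE).subset sdiff_subset
    have e1 : (r '' S ∪ Z) \ (Z \ crr L S) = crr L S := by
      ext x
      constructor
      · rintro ⟨h1 | h1, h2⟩
        · obtain ⟨s, hs, rfl⟩ := h1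
          exact ⟨s, hs, hrL s (hS hs)⟩
        · by_contra h3
          exact h2 ⟨h1, h3⟩
      · intro h1
        refine ⟨?_, fun h2 => h2.2 h1⟩
        by_cases h2 : x ∈ r '' R₀
        · left
          obtain ⟨s, hs, rfl⟩ := h2
          obtain ⟨s', hs', hx⟩ := h1
          have h3 := h.uniq hs (hS hs') (hrL s hs) hx
          subst h3
          exact ⟨s, hs', rfl⟩
        · right
          rw [hZ, hR]
          obtain ⟨s', hs', hx⟩ := h1
          exact ⟨⟨s', hS hs', hx⟩, h2⟩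
    have h1 := ess_coloops (M := N) (W := r '' S ∪ Z) hGf.toFinset (by
      intro c hc
      rw [Set.Finite.mem_toFinset] at hc
      obtain ⟨hcZ, hcS⟩ := hc
      rw [hZ, hR] at hcZ
      obtain ⟨⟨s, hs, hcs⟩, hcr⟩ := hcZ
      obtain ⟨i, hi, rfl⟩ := List.mem_iff_getElem.1 hcs
      have hi0 : 0 < i := by
        rcases Nat.eq_zero_or_pos i with h2 | h2
        · exfalso
          apply hcr
          subst h2
          exact ⟨s, hs, hr s hi⟩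
        · exact h2
      have h2 := h.coloop hN hs hi0 hi
      have hcW : (L s)[i] ∈ r '' S ∪ Z := by
        right
        rw [hZ, hR]
        exact ⟨⟨s, hs, hcs⟩, hcr⟩
      have h3 : (L s)[i] ∉ N.closure ((r '' S ∪ Z) \ {(L s)[i]}) := by
        intro hcl
        refine h2 (N.closure_subset_closure ?_ hcl)
        rintro z ⟨hz1, hz2⟩
        refine ⟨?_, ?_⟩
        · rcases hz1 with hz1 | hz1
          · obtain ⟨s', hs', rfl⟩ := hz1
            rw [← hR]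
            exact hrR s' (hS hs')
          · rw [hZ, hR] at hz1
            exact hz1.1
        · rintro (hz4 | hz4)
          · exact hz2 hz4
          · rw [mem_singleton_iff] at hz4
            have hz5 : z = r s := by rw [hz4, hr s (by omega)]
            rcases hz1 with hz1 | hz1
            · obtain ⟨s', hs', rfl⟩ := hz1
              have h6 := h.uniq (hS hs') hs (hrL s' (hS hs')) (hz5 ▸ hrL s hs)
              subst h6
              exact hcS ⟨s', hs', hcs⟩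
            · rw [hZ] at hz1
              exact hz1.2 ⟨s, hs, hz5.symm⟩
      have h4 := rk_insert_ge (hRE (by rw [hR]; exact ⟨s, hs, hcs⟩)) h3
      rwa [insert_sdiff_self_of_mem hcW] at h4)
    rw [Set.Finite.coe_toFinset, ← Set.ncard_eq_toFinset_card _ hGf, e1] at h1
    have h2 : rk N (r '' S ∪ Z) ≤ rk N (crr L S) + (Z \ crr L S).ncard := by
      have h3 := rk_union_le N (X := crr L S) (Y := Z \ crr L S) hGf
      refine le_trans (rk_mono N ?_) h3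
      intro x hx
      by_cases h4 : x ∈ Z \ crr L S
      · exact Or.inr h4
      · left
        rw [← e1]
        exact ⟨hx, h4⟩
    omega
  have hZind : rk N Z = Z.ncard := by
    have h1 := drop ∅ (empty_subset _)
    have e1 : crr L (∅ : Set (Bool × ℕ × ℕ)) = ∅ := by
      ext x
      simp [crr]
    rw [e1, rk_empty, image_empty, empty_union, sdiff_empty, zero_add] at h1
    exact h1.symm
  refine ⟨Z, ?_, fun S hS hnb => ?_⟩
  · intro s hs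
    refine ⟨r s, hrL s hs, fun x hx => ?_⟩
    rw [hZ, hR]
    constructor
    · rintro ⟨-, h1⟩ rfl
      exact h1 ⟨s, hs, rfl⟩
    · intro h1
      refine ⟨⟨s, hs, hx⟩, ?_⟩
      rintro ⟨s', hs', rfl⟩
      have h2 := h.uniq hs' hs (hrL s' hs') hx
      subst h2
      exact h1 rfl
  have hVf : (VS S).Finite := vs_finite ((hR₀).subset hS)
  -- the rank of the representatives
  have key : rk (N ／ Z) (r '' S) = (VS S).ncard := by
    obtain ⟨nb, hnb⟩ := hnb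
    have hrS : r '' S ⊆ r '' R₀ := image_mono hS
    have hBS : Bic (N ／ Z) (r '' S) ends' := Bic_sub hB'.bic hrS
    obtain ⟨F, hF⟩ := DA.full_of_nb (S := r '' S) (ends := ends')
      (U := (Sum.inl '' VS S : Set ((ℕ × ℕ) ⊕ α))) (fun v => Sum.map nb id v) (by
        rintro _ ⟨v, hv, rfl⟩
        obtain ⟨h1, ⟨s, hs, h2⟩, h3⟩ := hnb v hv
        refine ⟨⟨nb v, h1, rfl⟩, r s, ⟨s, hs, rfl⟩, ?_⟩
        rw [hends' s (hS hs)]
        have h4 := congrArg (Sym2.map (Sum.inl : ℕ × ℕ → (ℕ × ℕ) ⊕ α)) h2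
        simpa using h4) (by
        rintro _ ⟨v, hv, rfl⟩
        intro h1
        exact (hnb v hv).2.2 (by simpa using h1))
    have hUf : (Sum.inl '' VS S : Set ((ℕ × ℕ) ⊕ α)).Finite := hVf.image _
    have h1 := hF.basis hBS hUf
    have h2 := hF.encard
    have h3 : ins (r '' S) ends' (Sum.inl '' VS S) = r '' S := by
      ext x
      constructor
      · exact fun hx => hx.1
      · rintro ⟨s, hs, rfl⟩
        refine ⟨⟨s, hs, rfl⟩, fun v hv => ?_⟩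
        rw [hends' s (hS hs), Sym2.mem_iff] at hv
        rcases hv with rfl | rfl
        · exact ⟨_, ⟨s, hs, Or.inl rfl⟩, rfl⟩
        · exact ⟨_, ⟨s, hs, Or.inr rfl⟩, rfl⟩
    rw [h3] at h1
    have h4 : rk (N ／ Z) (r '' S) = (F.encard).toNat := by
      unfold BIC.rk
      rw [← h1.encard_eq_eRk]
    rw [h4, h2, Function.Injective.encard_image Sum.inl_injective]
    rfl
  have hsub : r '' S ⊆ N.E \ Z := by
    rintro _ ⟨s, hs, rfl⟩
    refine ⟨hRE (hrR s (hS hs)), ?_⟩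
    rw [hZ]
    exact fun h1 => h1.2 ⟨s, hS hs, rfl⟩
  have h1 := rk_contract_set (M := N) (C := Z) (X := r '' S) hZE hsub
  have h2 := drop S hS
  have hZf : Z.Finite := N.ground_finite.subset hZE
  have h3 : (Z ∩ crr L S).ncard + (Z \ crr L S).ncard = Z.ncard :=
    Set.ncard_inter_add_ncard_sdiff_eq_ncard Z (crr L S) hZf
  omega

/-- **The rank of a full set of rows.** -/
theorem GSide.rk_fullS [M.Finite] [N.Finite] (hR₀ : R₀.Finite) (h : GSide M R₀ L f e u)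
    (hN : Bic N (crr L R₀) f) : ∃ Z : Set α, ∀ S ⊆ R₀, NB S (VS S) →
      rk N (crr L S) = (VS S).ncard + (Z ∩ crr L S).ncard := by
  obtain ⟨Z, -, h1⟩ := h.rk_fullS' hR₀ hN
  exact ⟨Z, h1⟩

/-- **The rank of a full set of rows is the number of its nodes** (branch vertices and inner
vertices of the rows). -/
theorem GSide.rk_nodesS [M.Finite] [N.Finite] (hR₀ : R₀.Finite) (h : GSide M R₀ L f e u)
    (hN : Bic N (crr L R₀) f) {S : Set (Bool × ℕ × ℕ)} (hS : S ⊆ R₀)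
    (hnb : NB S (VS S)) : rk N (crr L S) = {v | ∃ x ∈ crr L S, v ∈ f x}.ncard := by
  classical
  obtain ⟨Z, hZ, hr⟩ := h.rk_fullS' hR₀ hN
  have h1 := hr S hS hnb
  have hSf : S.Finite := (hR₀).subset hS
  have hRf : (crr L S).Finite := N.ground_finite.subset ((crr_mono hS).trans hN.sub)
  obtain ⟨V, hV⟩ : ∃ V : Set ((ℕ × ℕ) ⊕ α), V = {v | ∃ x ∈ crr L S, v ∈ f x} := ⟨_, rfl⟩
  rw [← hV]
  -- the nodes
  have hVsub : V ⊆ Sum.inl '' VS S ∪ Sum.inr '' (crr L S \ e '' S) := by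
    rw [hV]
    rintro v ⟨x, ⟨s, hs, hx⟩, hv⟩
    obtain ⟨i, hi, rfl⟩ := List.mem_iff_getElem.1 hx
    have hnode : ∀ k, k ≤ (L s).length →
        node s (L s) k ∈ Sum.inl '' VS S ∪ Sum.inr '' (crr L S \ e '' S) := by
      intro k hk
      by_cases k0 : k = 0
      · subst k0
        rw [TST.node_zero]
        exact Or.inl ⟨_, ⟨s, hs, Or.inl rfl⟩, rfl⟩
      · by_cases k1 : k = (L s).length
        · subst k1
          rw [TST.node_len s (List.ne_nil_of_mem hx)]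
          exact Or.inl ⟨_, ⟨s, hs, Or.inr rfl⟩, rfl⟩
        · have hk2 : k - 1 < (L s).length := by omega
          rw [node_mid s (by omega) (by omega)]
          refine Or.inr ⟨_, ⟨⟨s, hs, List.getElem_mem hk2⟩, ?_⟩, rfl⟩
          rintro ⟨s', hs', h2⟩
          have h3 := h.uniq (hS hs') (hS hs) (h.mem_last (hS hs')) (h2 ▸ List.getElem_mem hk2)
          subst h3
          have h4 := h.last s' (hS hs)
          rw [List.getLast?_eq_getElem?, List.getElem?_eq_getElem (by omega)] at h4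
          simp only [Option.some.injEq] at h4
          rw [← h4] at h2
          have h5 := (h.nodup s' (hS hs)).getElem_inj_iff.1 h2
          omega
    rw [h.end_eq s (hS hs) i hi, Sym2.mem_iff] at hv
    rcases hv with rfl | rfl
    · exact hnode i (by omega)
    · exact hnode (i + 1) (by omega)
  have hVSf : (VS S).Finite := vs_finite hSf
  have hVf : (Sum.inl '' VS S ∪ Sum.inr '' (crr L S \ e '' S) : Set ((ℕ × ℕ) ⊕ α)).Finite :=
    (hVSf.image _).union ((hRf.subset sdiff_subset).image _)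
  have u1 : V.ncard ≤ (VS S).ncard + (crr L S \ e '' S).ncard := by
    refine (Set.ncard_le_ncard hVsub hVf).trans ((Set.ncard_union_le _ _).trans ?_)
    rw [Set.ncard_image_of_injective _ Sum.inl_injective,
      Set.ncard_image_of_injective _ Sum.inr_injective]
  -- all but one element of every row
  have hZ' : ∀ s : Bool × ℕ × ℕ, ∃ a : α, s ∈ R₀ → a ∈ L s ∧ ∀ x ∈ L s, x ∈ Z ↔ x ≠ a := by
    intro s
    by_cases hs : s ∈ R₀
    · obtain ⟨a, h2, h3⟩ := hZ s hs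
      exact ⟨a, fun _ => ⟨h2, h3⟩⟩
    · exact ⟨e s, fun h2 => absurd h2 hs⟩
  choose a ha using hZ'
  have hai : InjOn a S := by
    intro s hs s' hs' hss
    refine h.uniq (hS hs) (hS hs') (ha s (hS hs)).1 ?_
    rw [hss]
    exact (ha s' (hS hs')).1
  have eZ : Z ∩ crr L S = crr L S \ a '' S := by
    ext x
    constructor
    · rintro ⟨h2, s, hs, hx⟩
      refine ⟨⟨s, hs, hx⟩, ?_⟩
      rintro ⟨s', hs', rfl⟩
      have h3 := h.uniq (hS hs') (hS hs) (ha s' (hS hs')).1 hx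
      subst h3
      exact ((ha s' (hS hs)).2 _ hx).1 h2 rfl
    · rintro ⟨⟨s, hs, hx⟩, h2⟩
      refine ⟨((ha s (hS hs)).2 x hx).2 ?_, s, hs, hx⟩
      rintro rfl
      exact h2 ⟨s, hs, rfl⟩
  have haS : a '' S ⊆ crr L S := by
    rintro _ ⟨s, hs, rfl⟩
    exact ⟨s, hs, (ha s (hS hs)).1⟩
  have heS : e '' S ⊆ crr L S := by
    rintro _ ⟨s, hs, rfl⟩
    exact ⟨s, hs, h.mem_last (hS hs)⟩
  have n1 := Set.ncard_sdiff_add_ncard_of_subset haS hRf
  have n2 := Set.ncard_sdiff_add_ncard_of_subset heS hRf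
  rw [hai.ncard_image] at n1
  rw [(h.e_inj.mono hS).ncard_image] at n2
  rw [eZ] at h1
  -- the upper bound
  have hVf' : V.Finite := hVf.subset hVsub
  have up : rk N (crr L S) ≤ V.ncard := by
    have h2 : crr L S ⊆ ins (crr L R₀) f V := by
      intro x hx
      refine ⟨crr_mono hS hx, fun v hv => ?_⟩
      rw [hV]
      exact ⟨x, hx, hv⟩
    have h3 := (N.eRk_mono h2).trans (hN.rk V)
    rw [← hVf'.cast_ncard_eq, ← cast_rk] at h3
    exact_mod_cast h3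
  omega

/-- modularity of the rank for three sets of rows which are full together with `S₀` -/
theorem GSide.modularS [M.Finite] [N.Finite] (hR₀ : R₀.Finite) (h : GSide M R₀ L f e u)
    (hN : Bic N (crr L R₀) f) {S₀ S₁ S₂ : Set (Bool × ℕ × ℕ)} (h₀ : S₀ ⊆ R₀)
    (h₁ : S₁ ⊆ R₀) (h₂ : S₂ ⊆ R₀) (n₁ : NB (S₁ ∪ S₀) (VS (S₁ ∪ S₀)))
    (n₂ : NB (S₂ ∪ S₀) (VS (S₂ ∪ S₀))) (n₃ : NB (S₁ ∪ S₂ ∪ S₀) (VS (S₁ ∪ S₂ ∪ S₀)))
    (n₄ : NB ((S₁ ∩ S₂) ∪ S₀) (VS ((S₁ ∩ S₂) ∪ S₀)))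
    (hV : VS S₁ ∩ VS S₂ ⊆ VS (S₁ ∩ S₂) ∪ VS S₀) :
    rk N (crr L S₁ ∪ crr L S₀) + rk N (crr L S₂ ∪ crr L S₀) =
      rk N (crr L S₁ ∪ crr L S₂ ∪ crr L S₀) + rk N ((crr L S₁ ∩ crr L S₂) ∪ crr L S₀) := by
  obtain ⟨Z, hZ⟩ := h.rk_fullS hR₀ hN
  have h12 : S₁ ∩ S₂ ⊆ R₀ := inter_subset_left.trans h₁
  rw [← h.crr_interS h₁ h₂, ← crr_union, ← crr_union, ← crr_union, ← crr_union, ← crr_union,
    hZ _ (union_subset h₁ h₀) n₁, hZ _ (union_subset h₂ h₀) n₂,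
    hZ _ (union_subset (union_subset h₁ h₂) h₀) n₃, hZ _ (union_subset h12 h₀) n₄]
  have hf : ∀ {S : Set (Bool × ℕ × ℕ)}, S ⊆ R₀ → (VS S).Finite := fun hS =>
    vs_finite ((hR₀).subset hS)
  have hR : ∀ {S : Set (Bool × ℕ × ℕ)}, S ⊆ R₀ → (Z ∩ crr L S).Finite := fun hS =>
    (M.ground_finite.subset ((crr_mono hS).trans h.sub_ground)).subset inter_subset_right
  have a1 := Set.ncard_union_add_ncard_inter (VS (S₁ ∪ S₀)) (VS (S₂ ∪ S₀))
    (hf (union_subset h₁ h₀)) (hf (union_subset h₂ h₀))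
  have a2 := Set.ncard_union_add_ncard_inter (Z ∩ crr L (S₁ ∪ S₀)) (Z ∩ crr L (S₂ ∪ S₀))
    (hR (union_subset h₁ h₀)) (hR (union_subset h₂ h₀))
  have e1 : VS (S₁ ∪ S₀) ∪ VS (S₂ ∪ S₀) = VS (S₁ ∪ S₂ ∪ S₀) := by
    simp only [vs_union]
    ext x
    simp only [mem_union]
    tauto
  have e2 : VS (S₁ ∪ S₀) ∩ VS (S₂ ∪ S₀) = VS (S₁ ∩ S₂ ∪ S₀) := by
    simp only [vs_union]
    have h3 : VS (S₁ ∩ S₂) ⊆ VS S₁ ∩ VS S₂ := by
      rintro v ⟨s, hs, h4⟩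
      exact ⟨⟨s, hs.1, h4⟩, ⟨s, hs.2, h4⟩⟩
    ext x
    constructor
    · rintro ⟨hx1 | hx1, hx2 | hx2⟩
      · exact hV ⟨hx1, hx2⟩
      · exact Or.inr hx2
      · exact Or.inr hx1
      · exact Or.inr hx1
    · rintro (hx | hx)
      · exact ⟨Or.inl (h3 hx).1, Or.inl (h3 hx).2⟩
      · exact ⟨Or.inr hx, Or.inr hx⟩
  have e3 : Z ∩ crr L (S₁ ∪ S₀) ∪ Z ∩ crr L (S₂ ∪ S₀) = Z ∩ crr L (S₁ ∪ S₂ ∪ S₀) := by
    simp only [crr_union]
    ext x
    simp only [mem_union, mem_inter_iff]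
    tauto
  have e4 : Z ∩ crr L (S₁ ∪ S₀) ∩ (Z ∩ crr L (S₂ ∪ S₀)) = Z ∩ crr L (S₁ ∩ S₂ ∪ S₀) := by
    rw [crr_union (S := S₁ ∩ S₂), h.crr_interS h₁ h₂]
    simp only [crr_union]
    ext x
    simp only [mem_union, mem_inter_iff]
    tauto
  rw [e1, e2] at a1
  rw [e3, e4] at a2
  omega

/-! ### Rectangles with holes -/

/-- the vertices of `R₀` which are not in `VS A` have all their rows in `R₀` -/
def Sep (w : ℕ) (R₀ A : Set (Bool × ℕ × ℕ)) : Prop :=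
  ∀ v ∈ VS R₀, v ∉ VS A → ∀ s ∈ Seg w, (v = segNear s ∨ v = segFar s) → s ∈ R₀

lemma vs_mono {S S' : Set (Bool × ℕ × ℕ)} (h : S ⊆ S') : VS S ⊆ VS S' := by
  rintro v ⟨s, hs, hv⟩
  exact ⟨s, h hs, hv⟩

/-- **Rectangles with holes are full together with the boundaries of the holes.** -/
lemma nb_hole {S₀ : Set (Bool × ℕ × ℕ)} (n₀ : NB S₀ (VS S₀)) (hsep : Sep w R₀ S₀)
    {x₀ x₁ y₀ y₁ : ℕ} (hx : x₀ + 3 ≤ x₁) (hy : y₀ + 1 ≤ y₁) (hxw : x₁ ≤ w) (hyw : y₁ ≤ w) :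
    NB ((Rg x₀ x₁ y₀ y₁ ∩ R₀) ∪ S₀) (VS ((Rg x₀ x₁ y₀ y₁ ∩ R₀) ∪ S₀)) := by
  classical
  obtain ⟨nb₀, h0⟩ := n₀
  obtain ⟨nb₁, h1⟩ := nb_rg hx hy
  refine ⟨fun v => if v ∈ VS S₀ then nb₀ v else nb₁ v, fun v hv => ?_⟩
  by_cases hv0 : v ∈ VS S₀
  · obtain ⟨k1, ⟨s, hs, k2⟩, k3⟩ := h0 v hv0
    simp only [if_pos hv0, if_pos k1]
    exact ⟨vs_mono subset_union_right k1, ⟨s, Or.inr hs, k2⟩, k3⟩
  · have hvT : v ∈ VS (Rg x₀ x₁ y₀ y₁ ∩ R₀) := by
      rw [vs_union] at hv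
      exact hv.resolve_right hv0
    have hvR : v ∈ VS (Rg x₀ x₁ y₀ y₁) := vs_mono inter_subset_left hvT
    obtain ⟨k1, ⟨s, hs, k2⟩, k3⟩ := h1 v hvR
    have hvs : v = segNear s ∨ v = segFar s := by
      rw [Sym2.eq_iff] at k2
      rcases k2 with ⟨k2, _⟩ | ⟨_, k2⟩
      · exact Or.inl k2.symm
      · exact Or.inr k2.symm
    have hnb : nb₁ v = segNear s ∨ nb₁ v = segFar s := by
      rw [Sym2.eq_iff] at k2
      rcases k2 with ⟨_, k2⟩ | ⟨k2, _⟩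
      · exact Or.inr k2.symm
      · exact Or.inl k2.symm
    have hsR : s ∈ R₀ := hsep v (vs_mono inter_subset_right hvT) hv0 s
      (rg_sub hxw hyw hs) hvs
    simp only [if_neg hv0]
    refine ⟨⟨s, Or.inl ⟨hs, hsR⟩, hnb⟩, ⟨s, Or.inl ⟨hs, hsR⟩, k2⟩, ?_⟩
    by_cases hn0 : nb₁ v ∈ VS S₀
    · rw [if_pos hn0]
      intro h4
      exact hv0 (h4 ▸ (h0 _ hn0).1)
    · rw [if_neg hn0]
      exact k3

/-- gluing two rectangles with a big intersection -/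
lemma GSide.glueS [M.Finite] [N.Finite] (hR₀ : R₀ ⊆ Seg w) (h : GSide M R₀ L f e u)
    (hN : Bic N (crr L R₀) f) (hQ : Quo M N (crr L R₀)) {S₀ : Set (Bool × ℕ × ℕ)}
    (h₀ : S₀ ⊆ R₀) (n₀ : NB S₀ (VS S₀)) (hsep : Sep w R₀ S₀) {a₀ a₁ a₂ a₃ b₀ b₁ b₂ b₃ : ℕ}
    (hab : (b₀ = b₁ ∧ b₂ = b₃ ∧ a₀ ≤ a₁ ∧ a₁ + 3 ≤ a₂ ∧ a₂ ≤ a₃ ∧ b₀ + 1 ≤ b₂) ∨
      (a₀ = a₁ ∧ a₂ = a₃ ∧ b₀ ≤ b₁ ∧ b₁ + 1 ≤ b₂ ∧ b₂ ≤ b₃ ∧ a₀ + 3 ≤ a₂)) (ha : a₃ ≤ w)
    (hb : b₃ ≤ w)
    (h1 : rk M (crr L (Rg a₀ a₂ b₀ b₂ ∩ R₀) ∪ crr L S₀) + rk N (crr L S₀) ≤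
      rk M (crr L S₀) + rk N (crr L (Rg a₀ a₂ b₀ b₂ ∩ R₀) ∪ crr L S₀))
    (h2 : rk M (crr L (Rg a₁ a₃ b₁ b₃ ∩ R₀) ∪ crr L S₀) + rk N (crr L S₀) ≤
      rk M (crr L S₀) + rk N (crr L (Rg a₁ a₃ b₁ b₃ ∩ R₀) ∪ crr L S₀)) :
    rk M (crr L (Rg a₀ a₃ b₀ b₃ ∩ R₀) ∪ crr L S₀) + rk N (crr L S₀) ≤
      rk M (crr L S₀) + rk N (crr L (Rg a₀ a₃ b₀ b₃ ∩ R₀) ∪ crr L S₀) := by
  have hRf : R₀.Finite := (seg_finite w).subset hR₀
  have eI : Rg a₀ a₂ b₀ b₂ ∩ Rg a₁ a₃ b₁ b₃ = Rg a₁ a₂ b₁ b₂ := by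
    ext ⟨t, i, j⟩
    cases t <;> simp only [Rg, mem_inter_iff, mem_ofPred_eq, Bool.false_eq_true, false_and,
      true_and, or_false, false_or, reduceCtorEq] <;> omega
  have eU : Rg a₀ a₂ b₀ b₂ ∪ Rg a₁ a₃ b₁ b₃ = Rg a₀ a₃ b₀ b₃ := by
    ext ⟨t, i, j⟩
    cases t <;> simp only [Rg, mem_union, mem_ofPred_eq, Bool.false_eq_true, false_and,
      true_and, or_false, false_or, reduceCtorEq] <;> omega
  have eI' : (Rg a₀ a₂ b₀ b₂ ∩ R₀) ∩ (Rg a₁ a₃ b₁ b₃ ∩ R₀) = Rg a₁ a₂ b₁ b₂ ∩ R₀ := by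
    rw [← eI]
    ext s
    simp only [mem_inter_iff]
    tauto
  have eU' : (Rg a₀ a₂ b₀ b₂ ∩ R₀) ∪ (Rg a₁ a₃ b₁ b₃ ∩ R₀) = Rg a₀ a₃ b₀ b₃ ∩ R₀ := by
    rw [← eU]
    ext s
    simp only [mem_inter_iff, mem_union]
    tauto
  have hmod := h.modularS hRf hN h₀ (S₁ := Rg a₀ a₂ b₀ b₂ ∩ R₀) (S₂ := Rg a₁ a₃ b₁ b₃ ∩ R₀)
    inter_subset_right inter_subset_right
    (nb_hole n₀ hsep (by omega) (by omega) (by omega) (by omega))
    (nb_hole n₀ hsep (by omega) (by omega) (by omega) (by omega))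
    (by rw [eU']; exact nb_hole n₀ hsep (by omega) (by omega) (by omega) (by omega))
    (by rw [eI']; exact nb_hole n₀ hsep (by omega) (by omega) (by omega) (by omega)) (by
      rintro v ⟨hv1, hv2⟩
      by_cases hv0 : v ∈ VS S₀
      · exact Or.inr hv0
      left
      rw [eI']
      have k1 : v ∈ VS (Rg a₀ a₂ b₀ b₂) := vs_mono inter_subset_left hv1
      have k2 : v ∈ VS (Rg a₁ a₃ b₁ b₃) := vs_mono inter_subset_left hv2
      have k3 : v ∈ VS (Rg a₁ a₂ b₁ b₂) := by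
        rw [vs_rg (by omega)] at k1 k2 ⊢
        simp only [mem_ofPred_eq] at k1 k2 ⊢
        omega
      obtain ⟨s, hs, hvs⟩ := k3
      exact ⟨s, ⟨hs, hsep v (vs_mono inter_subset_right hv1) hv0 s
        (rg_sub (by omega) (by omega) hs) hvs⟩, hvs⟩)
  have h3 := glue_exact hQ (crr_mono inter_subset_right) (crr_mono h₀) h1 h2 hmod.le
  rw [← crr_union (S := Rg a₀ a₂ b₀ b₂ ∩ R₀), eU'] at h3
  exact h3

/-- **KILL for a part of the wall.**  `A` are the boundaries of the holes. -/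
theorem GSide.killS [M.Finite] (hR₀ : R₀ ⊆ Seg w) (h : GSide M R₀ L f e u) (hw : 4 ≤ w)
    {A : Set (Bool × ℕ × ℕ)} (hA : A ⊆ R₀) (nA : NB A (VS A)) (hsep : Sep w R₀ A)
    (hwd : ∀ x y, x + 4 ≤ w → y + 4 ≤ w → Rg x (x + 4) y (y + 4) ⊆ R₀ ∨
      Rg x (x + 4) y (y + 4) ∩ R₀ ⊆ A) :
    ∃ (N : Matroid α) (J : Finset (ℕ × ℕ)), N.Finite ∧ Bic N (crr L R₀) f ∧
      Quo M N (crr L R₀) ∧ J.card ≤ u ∧
      (∀ j ∈ J, j.1 + 4 ≤ w ∧ j.2 + 4 ≤ w ∧ Rg j.1 (j.1 + 4) j.2 (j.2 + 4) ⊆ R₀) ∧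
      ∀ B, crr L (Wn J ∪ A) ⊆ B → B ⊆ crr L R₀ → ∀ X ⊆ crr L R₀,
        rk M (X ∪ B) + rk N B = rk N (X ∪ B) + rk M B := by
  classical
  obtain ⟨h0, N, hNf, hN, hQ, hup⟩ := h.lift
  have hRf : R₀.Finite := (seg_finite w).subset hR₀
  have hquo0 : ∀ X ⊆ crr L R₀, rk N X ≤ rk M X := by
    intro X hX
    have h1 := hQ ∅ X (empty_subset _) hX
    rw [rk_empty, rk_empty] at h1
    omega
  -- the greedy choice
  obtain ⟨P, hP⟩ : ∃ P : Finset (ℕ × ℕ) → Prop, ∀ J, P J ↔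
      (∀ j ∈ J, j.1 + 4 ≤ w ∧ j.2 + 4 ≤ w ∧ Rg j.1 (j.1 + 4) j.2 (j.2 + 4) ⊆ R₀) ∧
      rk N (crr L (Wn J ∪ A)) + J.card ≤ rk M (crr L (Wn J ∪ A)) := ⟨_, fun _ => Iff.rfl⟩
  have hWsub : ∀ J : Finset (ℕ × ℕ),
      (∀ j ∈ J, j.1 + 4 ≤ w ∧ j.2 + 4 ≤ w ∧ Rg j.1 (j.1 + 4) j.2 (j.2 + 4) ⊆ R₀) →
      Wn J ∪ A ⊆ R₀ := by
    rintro J hJ s (⟨j, hj, hs⟩ | hs)
    · exact (hJ j hj).2.2 hs
    · exact hA hs
  have hPu : ∀ J, P J → J.card ≤ u := by
    intro J hJ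
    obtain ⟨h1, h2⟩ := (hP J).1 hJ
    have h3 := hup (crr L (Wn J ∪ A)) (crr_mono (hWsub J h1))
    omega
  have hP0 : P ∅ := by
    rw [hP]
    refine ⟨by simp, ?_⟩
    have h1 := hquo0 (crr L (Wn ∅ ∪ A)) (crr_mono (hWsub ∅ (by simp)))
    rw [Finset.card_empty]
    omega
  obtain ⟨J, hJ, hJm⟩ : ∃ J, P J ∧ ∀ J', P J' → J'.card ≤ J.card := by
    obtain ⟨J, hJ, h2⟩ := Nat.findGreatest_spec (P := fun n => ∃ J, P J ∧ J.card = n) (n := u)
      (m := 0) (Nat.zero_le _) ⟨∅, hP0, rfl⟩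
    refine ⟨J, hJ, fun J' hJ' => ?_⟩
    rw [h2]
    exact Nat.le_findGreatest (hPu J' hJ') ⟨J', hJ', rfl⟩
  obtain ⟨hJ1, hJ2⟩ := (hP J).1 hJ
  obtain ⟨S₀, hS₀⟩ : ∃ S₀, S₀ = Wn J ∪ A := ⟨_, rfl⟩
  have hs0 : S₀ ⊆ R₀ := by
    rw [hS₀]
    exact hWsub J hJ1
  have n0 : NB S₀ (VS S₀) := by
    rw [hS₀, vs_union]
    exact ((nb_wn J).mono subset_union_left).union (nA.mono subset_union_right)
  have hsep0 : Sep w R₀ S₀ := by
    intro v hv hv0 s hs hvs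
    refine hsep v hv (fun h1 => hv0 ?_) s hs hvs
    rw [hS₀, vs_union]
    exact Or.inr h1
  -- the windows are exact
  have hwin : ∀ x y, x + 4 ≤ w → y + 4 ≤ w →
      rk M (crr L (Rg x (x + 4) y (y + 4) ∩ R₀) ∪ crr L S₀) + rk N (crr L S₀) ≤
        rk M (crr L S₀) + rk N (crr L (Rg x (x + 4) y (y + 4) ∩ R₀) ∪ crr L S₀) := by
    intro x y hx hy
    by_cases hsub : Rg x (x + 4) y (y + 4) ∩ R₀ ⊆ S₀
    · rw [union_eq_self_of_subset_left (crr_mono hsub)]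
    · have hR : Rg x (x + 4) y (y + 4) ⊆ R₀ := by
        rcases hwd x y hx hy with h1 | h1
        · exact h1
        · exfalso
          refine hsub (h1.trans ?_)
          rw [hS₀]
          exact subset_union_right
      have hxJ : (x, y) ∉ J := by
        intro hxJ
        refine hsub ?_
        rw [hS₀]
        exact fun s hs => Or.inl ⟨(x, y), hxJ, hs.1⟩
      rw [inter_eq_self_of_subset_left hR]
      by_contra hlt
      push Not at hlt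
      have h1 : ¬ P (insert (x, y) J) := by
        intro h2
        have h3 := hJm _ h2
        rw [Finset.card_insert_of_notMem hxJ] at h3
        omega
      apply h1
      rw [hP]
      refine ⟨?_, ?_⟩
      · intro j hj
        rcases Finset.mem_insert.1 hj with rfl | hj
        · exact ⟨hx, hy, hR⟩
        · exact hJ1 j hj
      · have e1 : Wn (insert (x, y) J) ∪ A = Rg x (x + 4) y (y + 4) ∪ S₀ := by
          rw [wn_insert, hS₀]
          ext s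
          simp only [mem_union]
          tauto
        rw [← hS₀] at hJ2
        rw [Finset.card_insert_of_notMem hxJ, e1, crr_union]
        omega
  -- strips
  have hstrip : ∀ a, 4 ≤ a → a ≤ w → ∀ y, y + 4 ≤ w →
      rk M (crr L (Rg 0 a y (y + 4) ∩ R₀) ∪ crr L S₀) + rk N (crr L S₀) ≤
        rk M (crr L S₀) + rk N (crr L (Rg 0 a y (y + 4) ∩ R₀) ∪ crr L S₀) := by
    intro a ha
    induction a, ha using Nat.le_induction with
    | base =>
      intro haw y hy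
      exact hwin 0 y (by omega) hy
    | succ a ha ih =>
      intro haw y hy
      have h1 := hwin (a - 3) y (by omega) hy
      rw [show a - 3 + 4 = a + 1 by omega] at h1
      exact h.glueS hR₀ hN hQ hs0 n0 hsep0 (a₀ := 0) (a₁ := a - 3) (a₂ := a) (a₃ := a + 1)
        (b₀ := y) (b₁ := y) (b₂ := y + 4) (b₃ := y + 4) (Or.inl (by omega)) haw hy
        (ih (by omega) y hy) h1
  -- the wall
  have hwall : ∀ b, 4 ≤ b → b ≤ w →
      rk M (crr L (Rg 0 w 0 b ∩ R₀) ∪ crr L S₀) + rk N (crr L S₀) ≤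
        rk M (crr L S₀) + rk N (crr L (Rg 0 w 0 b ∩ R₀) ∪ crr L S₀) := by
    intro b hb
    induction b, hb using Nat.le_induction with
    | base =>
      intro hbw
      exact hstrip w hw le_rfl 0 (by omega)
    | succ b hb ih =>
      intro hbw
      have h1 := hstrip w hw le_rfl (b - 3) (by omega)
      rw [show b - 3 + 4 = b + 1 by omega] at h1
      exact h.glueS hR₀ hN hQ hs0 n0 hsep0 (a₀ := 0) (a₁ := 0) (a₂ := w) (a₃ := w) (b₀ := 0)
        (b₁ := b - 3) (b₂ := b) (b₃ := b + 1) (Or.inr (by omega)) le_rfl hbw (ih (by omega)) h1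
  have hall := hwall w hw le_rfl
  rw [rg_full, inter_eq_self_of_subset_right hR₀, ← crr_union,
    union_eq_self_of_subset_right hs0] at hall
  refine ⟨N, J, hNf, hN, hQ, hPu J hJ, hJ1, fun B hB1 hB2 X hX => ?_⟩
  rw [← hS₀] at hB1
  have h1 := hQ (crr L S₀) B hB1 hB2
  have h2 := hQ B (X ∪ B) subset_union_right (union_subset hX hB2)
  have h3 := hQ (X ∪ B) (crr L R₀) (union_subset hX hB2) (Subset.refl _)
  omega

end

/-! ### Squares -/

/-- the squares of radius `r` around the points of `Om` -/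
def Sq (r : ℕ) (Om : Finset (ℕ × ℕ)) : Set (ℕ × ℕ) := {v | ∃ c ∈ Om, DA.sd v c ≤ r}

/-- the rows of the wall which avoid the squares -/
def RH (w r : ℕ) (Om : Finset (ℕ × ℕ)) : Set (Bool × ℕ × ℕ) :=
  {s | s ∈ Seg w ∧ segNear s ∉ Sq r Om ∧ segFar s ∉ Sq r Om}

/-- the rows of the annuli around the squares -/
def AnH (w r : ℕ) (Om : Finset (ℕ × ℕ)) : Set (Bool × ℕ × ℕ) :=
  {s | s ∈ RH w r Om ∧ segNear s ∈ Sq (r + 8) Om ∧ segFar s ∈ Sq (r + 8) Om}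

lemma mem_near {t : Bool} {i j : ℕ} : segNear (t, i, j) = (i, j) := rfl

lemma mem_farT {i j : ℕ} : segFar (true, i, j) = (i + 1, j) := rfl

lemma mem_farF {i j : ℕ} : segFar (false, i, j) = (i, j + 1) := rfl

lemma nb_fin {ι : Type*} (I : Finset ι) (T : ι → Set (Bool × ℕ × ℕ))
    (h : ∀ i ∈ I, NB (T i) (VS (T i))) : NB {s | ∃ i ∈ I, s ∈ T i} (VS {s | ∃ i ∈ I, s ∈ T i}) := by
  classical
  induction I using Finset.induction_on with
  | empty =>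
    have e1 : {s : Bool × ℕ × ℕ | ∃ i ∈ (∅ : Finset ι), s ∈ T i} = ∅ := by
      ext s
      simp
    rw [e1, vs_empty]
    exact nb_empty _
  | insert i I hi ih =>
    have e1 : {s : Bool × ℕ × ℕ | ∃ j ∈ insert i I, s ∈ T j} = T i ∪ {s | ∃ j ∈ I, s ∈ T j} := by
      ext s
      simp
    rw [e1, vs_union]
    exact ((h i (Finset.mem_insert_self _ _)).mono subset_union_left).union
      ((ih fun j hj => h j (Finset.mem_insert_of_mem hj)).mono subset_union_right)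

lemma nb_un {S S' : Set (Bool × ℕ × ℕ)} (h : NB S (VS S)) (h' : NB S' (VS S')) :
    NB (S ∪ S') (VS (S ∪ S')) := by
  rw [vs_union]
  exact (h.mono subset_union_left).union (h'.mono subset_union_right)

/-- the four bands around a square -/
def Bd (r : ℕ) (c : ℕ × ℕ) : Set (Bool × ℕ × ℕ) :=
  (Rg (c.1 - (r + 8)) (c.1 - (r + 1)) (c.2 - (r + 8)) (c.2 + (r + 8)) ∪
    Rg (c.1 + (r + 1)) (c.1 + (r + 8)) (c.2 - (r + 8)) (c.2 + (r + 8))) ∪
  (Rg (c.1 - (r + 8)) (c.1 + (r + 8)) (c.2 - (r + 8)) (c.2 - (r + 1)) ∪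
    Rg (c.1 - (r + 8)) (c.1 + (r + 8)) (c.2 + (r + 1)) (c.2 + (r + 8)))

lemma nb_bd {r : ℕ} {c : ℕ × ℕ} (h : r + 8 ≤ c.1 ∧ r + 8 ≤ c.2) : NB (Bd r c) (VS (Bd r c)) :=
  nb_un (nb_un (nb_rg (by omega) (by omega)) (nb_rg (by omega) (by omega)))
    (nb_un (nb_rg (by omega) (by omega)) (nb_rg (by omega) (by omega)))

lemma anH_eq {w r : ℕ} {Om : Finset (ℕ × ℕ)}
    (hdeep : ∀ c ∈ Om, r + 8 ≤ c.1 ∧ c.1 + r + 8 ≤ w ∧ r + 8 ≤ c.2 ∧ c.2 + r + 8 ≤ w)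
    (hfar : ∀ c ∈ Om, ∀ c' ∈ Om, c ≠ c' → 2 * r + 18 ≤ DA.sd c c') :
    AnH w r Om = {s | ∃ c ∈ Om, s ∈ Bd r c} := by
  have hsd : ∀ {p q : ℕ × ℕ} {k : ℕ}, k ≤ DA.sd p q ↔ p.1 + k ≤ q.1 ∨ q.1 + k ≤ p.1 ∨
      p.2 + k ≤ q.2 ∨ q.2 + k ≤ p.2 := by
    intro p q k
    unfold DA.sd
    omega
  ext ⟨t, i, j⟩
  constructor
  · rintro ⟨⟨hs, h1, h2⟩, ⟨c, hc, h3⟩, ⟨c', hc', h4⟩⟩
    have hcc : c = c' := by
      by_contra hne
      have h5 := hfar c hc c' hc' hne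
      rw [hsd] at h5
      rw [DA.sd_le] at h3 h4
      cases t
      · rw [mem_near] at h3
        rw [mem_farF] at h4
        simp only at h3 h4
        omega
      · rw [mem_near] at h3
        rw [mem_farT] at h4
        simp only at h3 h4
        omega
    subst hcc
    refine ⟨c, hc, ?_⟩
    have h5 : ¬ DA.sd (segNear (t, i, j)) c ≤ r := fun h5 => h1 ⟨c, hc, h5⟩
    have h6 : ¬ DA.sd (segFar (t, i, j)) c ≤ r := fun h6 => h2 ⟨c, hc, h6⟩
    rw [DA.sd_le] at h3 h4 h5 h6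
    have hd := hdeep c hc
    cases t <;> simp only [Bd, Rg, Seg, mem_near, mem_farF, mem_farT, mem_union, mem_ofPred_eq,
      Bool.false_eq_true, false_and, true_and, or_false, false_or, reduceCtorEq] at * <;> omega
  · rintro ⟨c, hc, hs⟩
    have hd := hdeep c hc
    have key : (t, i, j) ∈ Seg w ∧ DA.sd (segNear (t, i, j)) c ≤ r + 8 ∧
        DA.sd (segFar (t, i, j)) c ≤ r + 8 ∧ ¬ DA.sd (segNear (t, i, j)) c ≤ r ∧
        ¬ DA.sd (segFar (t, i, j)) c ≤ r := by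
      rw [DA.sd_le, DA.sd_le, DA.sd_le, DA.sd_le]
      cases t <;> simp only [Bd, Rg, Seg, mem_near, mem_farF, mem_farT, mem_union, mem_ofPred_eq,
        Bool.false_eq_true, false_and, true_and, or_false, false_or, reduceCtorEq] at * <;> omega
    obtain ⟨k1, k2, k3, k4, k5⟩ := key
    have hout : ∀ v, DA.sd v c ≤ r + 8 → ¬ DA.sd v c ≤ r → v ∉ Sq r Om := by
      rintro v hv1 hv2 ⟨c', hc', h3⟩
      by_cases hcc : c = c'
      · subst hcc
        exact hv2 h3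
      · have h5 := hfar c hc c' hc' hcc
        rw [hsd] at h5
        rw [DA.sd_le] at h3 hv1
        omega
    exact ⟨⟨k1, hout _ k2 k4, hout _ k3 k5⟩, ⟨c, hc, k2⟩, ⟨c, hc, k3⟩⟩

lemma seg_near_far {s : Bool × ℕ × ℕ} {v v' c : ℕ × ℕ} {k : ℕ}
    (hv : v = segNear s ∨ v = segFar s) (hv' : v' = segNear s ∨ v' = segFar s)
    (h : DA.sd v c ≤ k) : DA.sd v' c ≤ k + 1 := by
  obtain ⟨t, i, j⟩ := s
  rw [DA.sd_le] at h ⊢
  cases t
  · rw [mem_near, mem_farF] at hv hv'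
    rcases hv with rfl | rfl <;> rcases hv' with rfl | rfl <;> simp only at h ⊢ <;> omega
  · rw [mem_near, mem_farT] at hv hv'
    rcases hv with rfl | rfl <;> rcases hv' with rfl | rfl <;> simp only at h ⊢ <;> omega

lemma sep_sq (w r : ℕ) (Om : Finset (ℕ × ℕ)) : Sep w (RH w r Om) (AnH w r Om) := by
  intro v hv hvA s hs hvs
  obtain ⟨s₀, hs₀, hv₀⟩ := hv
  by_contra hns
  have hvS : v ∉ Sq r Om := by
    rcases hv₀ with rfl | rfl
    · exact hs₀.2.1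
    · exact hs₀.2.2
  -- the other end is in a square
  obtain ⟨v', hv', c, hc, hvc⟩ : ∃ v', (v' = segNear s ∨ v' = segFar s) ∧ v' ∈ Sq r Om := by
    by_contra hcon
    push Not at hcon
    exact hns ⟨hs, hcon _ (Or.inl rfl), hcon _ (Or.inr rfl)⟩
  have h1 := seg_near_far hv' hvs hvc
  refine hvA ⟨s₀, ⟨hs₀, ⟨c, hc, ?_⟩, ⟨c, hc, ?_⟩⟩, hv₀⟩
  · exact (seg_near_far hv₀ (Or.inl rfl) h1).trans (by omega)
  · exact (seg_near_far hv₀ (Or.inr rfl) h1).trans (by omega)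

lemma win_sq {w r : ℕ} {Om : Finset (ℕ × ℕ)} {x y : ℕ} (hx : x + 4 ≤ w) (hy : y + 4 ≤ w) :
    Rg x (x + 4) y (y + 4) ⊆ RH w r Om ∨ Rg x (x + 4) y (y + 4) ∩ RH w r Om ⊆ AnH w r Om := by
  by_cases h : ∃ v ∈ VS (Rg x (x + 4) y (y + 4)), v ∈ Sq r Om
  · right
    obtain ⟨v, hv, c, hc, hvc⟩ := h
    rw [vs_rg (by omega)] at hv
    rintro s ⟨hs, hsR⟩
    have key : ∀ v' ∈ VS (Rg x (x + 4) y (y + 4)), v' ∈ Sq (r + 8) Om := by
      intro v' hv'
      rw [vs_rg (by omega)] at hv'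
      refine ⟨c, hc, ?_⟩
      rw [DA.sd_le] at hvc ⊢
      simp only [mem_ofPred_eq] at hv hv'
      omega
    exact ⟨hsR, key _ ⟨s, hs, Or.inl rfl⟩, key _ ⟨s, hs, Or.inr rfl⟩⟩
  · left
    push Not at h
    intro s hs
    exact ⟨rg_sub hx hy hs, h _ ⟨s, hs, Or.inl rfl⟩, h _ ⟨s, hs, Or.inr rfl⟩⟩

/-- **KILL WITH HOLES.**  `M` carries a lift of rank `u` of the rows of the wall which avoid the
squares of radius `r` around the points of `Om`; after the contraction of the annuli of width 8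
around the squares and of at most `u` windows of side 4 (or of any larger set `B` of rows) the
lift is exact. -/
theorem GSide.killH {α : Type u} {M : Matroid α} [M.Finite] {L : Bool × ℕ × ℕ → List α}
    {f : α → Sym2 ((ℕ × ℕ) ⊕ α)} {e : Bool × ℕ × ℕ → α} {u w r : ℕ} {Om : Finset (ℕ × ℕ)}
    (h : GSide M (RH w r Om) L f e u) (hw : 4 ≤ w)
    (hdeep : ∀ c ∈ Om, r + 8 ≤ c.1 ∧ c.1 + r + 8 ≤ w ∧ r + 8 ≤ c.2 ∧ c.2 + r + 8 ≤ w)
    (hfar : ∀ c ∈ Om, ∀ c' ∈ Om, c ≠ c' → 2 * r + 18 ≤ DA.sd c c') :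
    ∃ (N : Matroid α) (J : Finset (ℕ × ℕ)), N.Finite ∧ Bic N (crr L (RH w r Om)) f ∧
      Quo M N (crr L (RH w r Om)) ∧ J.card ≤ u ∧
      (∀ j ∈ J, j.1 + 4 ≤ w ∧ j.2 + 4 ≤ w ∧ Rg j.1 (j.1 + 4) j.2 (j.2 + 4) ⊆ RH w r Om) ∧
      ∀ B, crr L (Wn J ∪ AnH w r Om) ⊆ B → B ⊆ crr L (RH w r Om) → ∀ X ⊆ crr L (RH w r Om),
        rk M (X ∪ B) + rk N B = rk N (X ∪ B) + rk M B := by
  refine h.killS (fun s hs => hs.1) hw (fun s hs => hs.1) ?_ (sep_sq w r Om)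
    (fun x y hx hy => win_sq hx hy)
  rw [anH_eq hdeep hfar]
  exact nb_fin Om (Bd r) fun c hc => nb_bd ⟨(hdeep c hc).1, (hdeep c hc).2.2.1⟩

end CWL
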