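import Pool.Agent.CW.SerExt
import Pool.Agent.GL.Loc

/-!
# Lifts of bicircular matroids
-/

open Set BIC BICS
open scoped Matroid

namespace CWL

universe u

/-- the star rule -/
def StarR {α V : Type*} (M : Matroid α) (S : Set α) (ends : α → Sym2 V) : Prop :=
  ∀ v, ∀ x ∈ S, v ∈ ends x → x ∉ M.closure (ins S ends {v}ᶜ)

/-- **Lifts.** `M | R` has a quotient `N | R`, bicircular for `f`, whose ranks are smaller by at
most `u`. -/
structure Lift {α V : Type*} (M : Matroid α) (R : Set α) (f : α → Sym2 V) (u : ℕ) : Prop where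
  sub : R ⊆ M.E
  ex : ∃ N : Matroid α, N.Finite ∧ Bic N R f ∧ Quo M N R ∧ ∀ X ⊆ R, rk M X ≤ rk N X + u

section

variable {α V V' : Type*} {M N : Matroid α} {R R' : Set α} {f : α → Sym2 V} {u u' : ℕ}

lemma rk_empty (M : Matroid α) [M.Finite] : rk M ∅ = 0 := by
  have h5 := rk_le_ncard M (X := ∅) (by simp)
  simpa using h5

lemma rk_insert_ge [M.Finite] {X : Set α} {c : α} (hc : c ∈ M.E)
    (h : c ∉ M.closure X) : rk M X + 1 ≤ rk M (insert c X) := by
  have h1 := M.eRk_insert_eq_add_one (X := X) (e := c) ⟨hc, h⟩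
  rw [← cast_rk, ← cast_rk] at h1
  have h2 : rk M (insert c X) = rk M X + 1 := by exact_mod_cast h1
  omega

lemma lift_of_bic [M.Finite] (h : Bic M R f) : Lift M R f 0 :=
  ⟨h.sub, M, inferInstance, h, fun X Y _ _ => by omega, fun X _ => by omega⟩

lemma Lift.mono (h : Lift M R f u) (hu : u ≤ u') : Lift M R f u' := by
  obtain ⟨h0, N, h1, h2, h3, h4⟩ := h
  exact ⟨h0, N, h1, h2, h3, fun X hX => (h4 X hX).trans (by omega)⟩

lemma Lift.subset (h : Lift M R f u) (hR : R' ⊆ R) : Lift M R' f u := by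
  obtain ⟨h0, N, h1, h2, h3, h4⟩ := h
  exact ⟨hR.trans h0, N, h1, Bic_sub h2 hR, fun X Y hXY hY => h3 X Y hXY (hY.trans hR),
    fun X hX => h4 X (hX.trans hR)⟩

lemma Lift.of_rk {M' : Matroid α} (h : Lift M' R f u) (hR : R ⊆ M.E)
    (hr : ∀ X ⊆ R, rk M X = rk M' X) : Lift M R f u := by
  obtain ⟨h0, N, h1, h2, h3, h4⟩ := h
  refine ⟨hR, N, h1, h2, fun X Y hXY hY => ?_, fun X hX => ?_⟩
  · rw [hr X (hXY.trans hY), hr Y hY]
    exact h3 X Y hXY hY
  · rw [hr X hX]
    exact h4 X hX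

lemma Lift.bicU [M.Finite] (h : Lift M R f u) : BicU M R f u := by
  obtain ⟨h0, N, h1, h2, h3, h4⟩ := h
  refine bicU_of_fin h0 ?_ ?_
  · intro F φ hF hφ hφe
    refine indep_of_rk (hF.trans h0) ?_
    have h5 := h3 ∅ F (empty_subset _) hF
    rw [rk_empty, rk_empty] at h5
    have h6 := rk_indep (h2.ind F φ hF hφ hφe)
    omega
  · intro W hW
    have h5 := h2.rk W
    rw [← cast_rk, ← hW.cast_ncard_eq] at h5
    have h6 : rk N (ins R f W) ≤ W.ncard := by exact_mod_cast h5
    exact (h4 _ fun x hx => hx.1).trans (by omega)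

lemma Lift.bic [M.Finite] (h : Lift M R f 0) : Bic M R f := h.bicU.bic

lemma Lift.star [M.Finite] (h : Lift M R f u) : StarR M R f := by
  obtain ⟨h0, N, h1, h2, h3, h4⟩ := h
  intro v x hx hv hcl
  have h5 := Gad.not_mem_Hx' h2 hx hv
  unfold Gad.Hx at h5
  have h6 := rk_insert_ge (h2.sub hx) h5
  have h7 := h3 (ins R f {v}ᶜ) (insert x (ins R f {v}ᶜ)) (subset_insert _ _)
    (insert_subset hx fun z hz => hz.1)
  have h8 : rk M (insert x (ins R f {v}ᶜ)) = rk M (ins R f {v}ᶜ) := by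
    rw [← rk_closure (insert x (ins R f {v}ᶜ)),
      Matroid.closure_insert_eq_of_mem_closure hcl, rk_closure]
  omega

lemma Lift.delete [M.Finite] (h : Lift M R f u) {Z : Set α} (hZ : Disjoint R Z) :
    Lift (M ＼ Z) R f u := by
  refine h.of_rk ?_ fun X hX => ?_
  · rw [Matroid.delete_ground]
    exact fun x hx => ⟨h.sub hx, fun hz => Set.disjoint_left.1 hZ hx hz⟩
  · exact rk_delete fun x hx => ⟨h.sub (hX hx), fun hz => Set.disjoint_left.1 hZ (hX hx) hz⟩

/-- contraction of a link -/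
theorem Lift.contract [M.Finite] [DecidableEq V] (h : Lift M R f u) {e : α} (he : e ∈ R)
    {x y : V} (hxy : x ≠ y) (hends : f e = s(x, y)) :
    Lift (M ／ {e}) (R \ {e}) (fun a => (f a).map (fun v => if v = y then x else v)) u := by
  have hu := h.bicU
  obtain ⟨h0, N, h1, h2, h3, h4⟩ := h
  have hI : M.Indep {e} := by
    refine hu.ind {e} (fun _ => x) (by simpa using he) (by simp) ?_
    intro a ha
    rw [mem_singleton_iff.1 ha, hends]
    exact Sym2.mem_mk_left _ _
  have hIN : N.Indep {e} := by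
    refine h2.ind {e} (fun _ => x) (by simpa using he) (by simp) ?_
    intro a ha
    rw [mem_singleton_iff.1 ha, hends]
    exact Sym2.mem_mk_left _ _
  have hN := ((bicU_zero h2).contract (e := e) he hxy hends).bic
  have r1 : ∀ X ⊆ R \ {e}, rk (M ／ {e}) X + 1 = rk M (X ∪ {e}) := by
    intro X hX
    rw [← rk_contract_set (singleton_subset_iff.2 (h0 he)) (hX.trans
      (sdiff_subset_sdiff_left h0)), rk_indep hI, ncard_singleton]
  have r2 : ∀ X ⊆ R \ {e}, rk (N ／ {e}) X + 1 = rk N (X ∪ {e}) := by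
    intro X hX
    rw [← rk_contract_set (singleton_subset_iff.2 (h2.sub he)) (hX.trans
      (sdiff_subset_sdiff_left h2.sub)), rk_indep hIN, ncard_singleton]
  have hsub : ∀ X ⊆ R \ {e}, X ∪ {e} ⊆ R := fun X hX =>
    union_subset (hX.trans sdiff_subset) (singleton_subset_iff.2 he)
  refine ⟨?_, N ／ {e}, BQ.fin_contract _, hN, fun X Y hXY hY => ?_, fun X hX => ?_⟩
  · rw [Matroid.contract_ground]
    exact sdiff_subset_sdiff_left h0
  · have h5 := h3 (X ∪ {e}) (Y ∪ {e}) (union_subset_union_left _ hXY) (hsub Y hY)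
    rw [← r1 X (hXY.trans hY), ← r1 Y hY, ← r2 X (hXY.trans hY), ← r2 Y hY] at h5
    omega
  · have h5 := h4 (X ∪ {e}) (hsub X hX)
    rw [← r1 X hX, ← r2 X hX] at h5
    omega

/-- relabelling the vertices -/
theorem Lift.map (h : Lift M R f u) (q : V → V')
    (hq : InjOn q {v | ∃ e ∈ R, v ∈ f e}) : Lift M R (fun e => (f e).map q) u := by
  obtain ⟨h0, N, h1, h2, h3, h4⟩ := h
  exact ⟨h0, N, h1, ((bicU_zero h2).map q hq).bic, h3, h4⟩

lemma Lift.congr (h : Lift M R f u) {f' : α → Sym2 V} (hf : ∀ e ∈ R, f' e = f e) :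
    Lift M R f' u := by
  obtain ⟨h0, N, h1, h2, h3, h4⟩ := h
  exact ⟨h0, N, h1, ((bicU_zero h2).congr hf).bic, h3, h4⟩

/-- **Exact away.** Among `u + 1` vertex-disjoint parts one is exact after contraction of the
previous ones. -/
theorem Lift.exact [M.Finite] (h : Lift M R f u) (W : ℕ → Set V)
    (hd : ∀ i ≤ u, ∀ j ≤ u, i ≠ j → Disjoint (W i) (W j)) :
    ∃ i ≤ u, Bic (M ／ (⋃ j ∈ Iio i, ins R f (W j))) (ins R f (W i)) f := by
  classical
  obtain ⟨h0, N, h1, h2, h3, h4⟩ := h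
  set A : ℕ → Set α := fun i => ⋃ j ∈ Iio i, ins R f (W j) with hA
  have hAR : ∀ i, A i ⊆ R := by
    intro i x hx
    simp only [hA, mem_iUnion₂] at hx
    obtain ⟨j, _, hj⟩ := hx
    exact hj.1
  have hAs : ∀ i, A (i + 1) = A i ∪ ins R f (W i) := by
    intro i
    ext x
    simp only [hA, mem_iUnion₂, mem_union, mem_Iio]
    constructor
    · rintro ⟨j, hj, hx⟩
      rcases Nat.lt_succ_iff_lt_or_eq.1 hj with h5 | h5
      · exact Or.inl ⟨j, h5, hx⟩
      · subst h5
        exact Or.inr hx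
    · rintro (⟨j, hj, hx⟩ | hx)
      · exact ⟨j, by omega, hx⟩
      · exact ⟨i, by omega, hx⟩
  -- the defects
  have hmon : ∀ X Y, X ⊆ Y → Y ⊆ R → rk N Y + rk M X ≤ rk M Y + rk N X := h3
  obtain ⟨i, hi, hst⟩ : ∃ i ≤ u, rk M (A (i + 1)) + rk N (A i) ≤ rk N (A (i + 1)) + rk M (A i) := by
    by_contra hno
    push Not at hno
    have key : ∀ i ≤ u + 1, rk N (A i) + i ≤ rk M (A i) := by
      intro i
      induction i with
      | zero =>
        intro _
        have h5 := h3 ∅ (A 0) (empty_subset _) (hAR 0)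
        rw [rk_empty, rk_empty] at h5
        omega
      | succ i ih =>
        intro hi
        have h5 := ih (by omega)
        have h6 := hno i (by omega)
        omega
    have h5 := key (u + 1) le_rfl
    have h6 := h4 (A (u + 1)) (hAR _)
    omega
  refine ⟨i, hi, ?_⟩
  -- the part `i` is skew to the previous ones in `N`
  set U : Set V := ⋃ j ∈ Iio i, W j with hU
  have hAU : A i ⊆ ins R f U := by
    intro x hx
    simp only [hA, mem_iUnion₂] at hx
    obtain ⟨j, hj, hx1, hx2⟩ := hx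
    refine ⟨hx1, fun v hv => ?_⟩
    simp only [hU, mem_iUnion₂]
    exact ⟨j, hj, hx2 v hv⟩
  have hUW : Disjoint (W i) U := by
    rw [Set.disjoint_left]
    intro v hv hvU
    simp only [hU, mem_iUnion₂, mem_Iio] at hvU
    obtain ⟨j, hj, hvj⟩ := hvU
    exact Set.disjoint_left.1 (hd i hi j (by omega) (by omega)) hv hvj
  have hAE : A i ⊆ M.E := (hAR i).trans h0
  have hdis : ∀ X ⊆ ins R f (W i), Disjoint X (A i) := by
    intro X hX
    rw [Set.disjoint_left]
    intro x hx hxA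
    obtain ⟨v, hv⟩ : ∃ v, v ∈ f x := by
      induction f x with
      | _ a b => exact ⟨a, Sym2.mem_mk_left _ _⟩
    exact Set.disjoint_left.1 hUW ((hX hx).2 v hv) ((hAU hxA).2 v hv)
  refine Bic_of_rk (N := N) (Bic_sub h2 fun x hx => hx.1) ?_ ?_
  · rw [Matroid.contract_ground]
    intro x hx
    exact ⟨h0 hx.1, fun hxA => Set.disjoint_left.1 (hdis _ (Subset.refl _)) hx hxA⟩
  · intro X hX
    have hXR : X ⊆ R := fun x hx => (hX hx).1
    have r1 := rk_contract_set (M := M) hAE (X := X)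
      fun x hx => ⟨h0 (hXR hx), fun hxA => Set.disjoint_left.1 (hdis X hX) hx hxA⟩
    have r2 := C1Q.skew (N := N) h2 hUW hX hAU
    have r3 : rk N (X ∪ A i) ≤ rk N X + rk N (A i) := C1Q.rk_union_le' N X (A i)
    have hXA : X ∪ A i ⊆ A (i + 1) := by
      rw [hAs i]
      exact union_subset (hX.trans subset_union_right) subset_union_left
    have r4 := h3 (X ∪ A i) (A (i + 1)) hXA (hAR _)
    have r5 := h3 (A i) (X ∪ A i) subset_union_right (union_subset hXR (hAR i))
    show rk (M ／ A i) X = rk N X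
    omega

end

end CWL
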