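import Pool.Agent.CW.GSide
import Pool.Agent.CW.Link
import Pool.Agent.CW.Iso

/-!
# A plain grid in a clean side, connectivity of minors of a pair
-/

open Set BIC BICS
open scoped Matroid

namespace CWL

universe u

/-- **Contraction of a matching.** -/
theorem bic_matching {α V V' : Type*} {N : Matroid α} [N.Finite] {R Z : Set α}
    {ends : α → Sym2 V} (hB : Bic N R ends) (hZ : Z ⊆ R) {U : Set V}
    (hU : ∀ x ∈ R, ∀ v ∈ ends x, v ∈ U) (q : V → V') (a b : α → V)
    (hab : ∀ z ∈ Z, ends z = s(a z, b z) ∧ a z ≠ b z ∧ q (a z) = q (b z))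
    (hcls : ∀ v ∈ U, ∀ w ∈ U, q v = q w → v ≠ w → ∃ z ∈ Z, ends z = s(v, w))
    (hmat : ∀ z ∈ Z, ∀ z' ∈ Z, z ≠ z' → q (a z) ≠ q (a z')) :
    Bic (N ／ Z) (R \ Z) (fun x => (ends x).map q) := by
  classical
  have hZE : Z ⊆ N.E := hZ.trans hB.sub
  have hZf : Z.Finite := N.ground_finite.subset hZE
  have hfin : (N ／ Z).Finite := BQ.fin_contract Z
  have haz : ∀ z ∈ Z, a z ∈ ends z := fun z hz => by rw [(hab z hz).1]; exact Sym2.mem_mk_left _ _
  have hbz : ∀ z ∈ Z, b z ∈ ends z := fun z hz => by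
    rw [(hab z hz).1]; exact Sym2.mem_mk_right _ _
  have hind : ∀ (F : Set α) (φ : α → V'), F ⊆ R \ Z → InjOn φ F →
      (∀ x ∈ F, φ x ∈ (ends x).map q) → N.Indep (F ∪ Z) := by
    intro F φ hF hφ hφe
    have H : ∀ x ∈ F, ∃ w, w ∈ ends x ∧ q w = φ x := fun x hx => Sym2.mem_map.1 (hφe x hx)
    rcases isEmpty_or_nonempty V with hV | hV
    · have h1 : R = ∅ := by
        rw [eq_empty_iff_forall_notMem]
        intro x hx
        induction hx' : ends x with
        | _ v w => exact hV.elim v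
      have h2 : F ∪ Z = ∅ := by
        rw [eq_empty_iff_forall_notMem]
        rintro x (hx | hx)
        · exact absurd (hF hx).1 (by rw [h1]; simp)
        · exact absurd (hZ hx) (by rw [h1]; simp)
      rw [h2]
      exact N.empty_indep
    choose! w hw1 hw2 using H
    set ψ : α → V := fun x => if x ∈ Z then (if ∃ x' ∈ F, w x' = a x then b x else a x) else w x
      with hψ
    have hψF : ∀ x ∈ F, ψ x = w x := fun x hx => by
      simp only [hψ, if_neg (hF hx).2]
    have hψZ : ∀ z ∈ Z, (ψ z = b z ∧ ∃ x' ∈ F, w x' = a z) ∨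
        (ψ z = a z ∧ ¬ ∃ x' ∈ F, w x' = a z) := by
      intro z hz
      by_cases h : ∃ x' ∈ F, w x' = a z
      · exact Or.inl ⟨by simp only [hψ, if_pos hz, if_pos h], h⟩
      · exact Or.inr ⟨by simp only [hψ, if_pos hz, if_neg h], h⟩
    have hqψ : ∀ z ∈ Z, q (ψ z) = q (a z) := by
      intro z hz
      rcases hψZ z hz with h | h <;> rw [h.1]
      exact (hab z hz).2.2.symm
    have hne : ∀ x ∈ F, ∀ z ∈ Z, ψ x ≠ ψ z := by
      intro x hx z hz h
      rw [hψF x hx] at h
      rcases hψZ z hz with ⟨h1, x', hx', h2⟩ | ⟨h1, h2⟩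
      · have h3 : φ x = φ x' := by
          rw [← hw2 x hx, ← hw2 x' hx', h, h1, h2]
          exact (hab z hz).2.2.symm
        have h4 := hφ hx hx' h3
        subst h4
        exact (hab z hz).2.1 (h2.symm.trans (h.trans h1))
      · exact h2 ⟨x, hx, h.trans h1⟩
    refine hB.ind _ ψ (union_subset (hF.trans sdiff_subset) hZ) ?_ ?_
    · rintro x (hx | hx) y (hy | hy) hxy
      · rw [hψF x hx, hψF y hy] at hxy
        apply hφ hx hy
        rw [← hw2 x hx, ← hw2 y hy, hxy]
      · exact absurd hxy (hne x hx y hy)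
      · exact absurd hxy.symm (hne y hy x hx)
      · by_contra h
        refine hmat x hx y hy h ?_
        rw [← hqψ x hx, ← hqψ y hy, hxy]
    · rintro x (hx | hx)
      · rw [hψF x hx]
        exact hw1 x hx
      · rcases hψZ x hx with h | h <;> rw [h.1]
        · exact hbz x hx
        · exact haz x hx
  have hZI : N.Indep Z := by
    have := hind ∅ (fun x => q (a x)) (empty_subset _) (injOn_empty _) (by simp)
    rwa [empty_union] at this
  refine (bicU_of_fin (u := 0) ?_ ?_ ?_).bic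
  · rw [Matroid.contract_ground]
    exact sdiff_subset_sdiff_left hB.sub
  · intro F φ hF hφ hφe
    rw [hZI.contract_indep_iff]
    refine ⟨?_, hind F φ hF hφ hφe⟩
    rw [Set.disjoint_left]
    exact fun x hx hxZ => (hF hx).2 hxZ
  · intro W hW
    set X := ins (R \ Z) (fun x => (ends x).map q) W with hX
    have hXR : X ⊆ R \ Z := fun x hx => hx.1
    set ZW : Set α := {z | z ∈ Z ∧ q (a z) ∈ W} with hZW
    have hZWs : ZW ⊆ Z := fun z hz => hz.1
    set P : Set V := {v | v ∈ U ∧ q v ∈ W} with hP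
    have h1 := rk_contract_set (M := N) hZE (X := X)
      (hXR.trans (sdiff_subset_sdiff_left hB.sub))
    rw [rk_indep hZI] at h1
    have hP1 : InjOn q (P \ b '' ZW) := by
      intro v hv w hw hvw
      by_contra hne
      obtain ⟨z, hz, hzv⟩ := hcls v hv.1.1 w hw.1.1 hvw hne
      have h2 := hbz z hz
      have h3 := haz z hz
      rw [hzv, Sym2.mem_iff] at h2 h3
      have h4 : q (a z) ∈ W := by
        rcases h3 with h3 | h3 <;> rw [h3]
        · exact hv.1.2
        · exact hw.1.2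
      rcases h2 with h2 | h2
      · exact hv.2 ⟨z, ⟨hz, h4⟩, h2⟩
      · exact hw.2 ⟨z, ⟨hz, h4⟩, h2⟩
    have hP2 : MapsTo q (P \ b '' ZW) W := fun v hv => hv.1.2
    have hZWf : ZW.Finite := hZf.subset hZWs
    have hP1f : (P \ b '' ZW).Finite := Set.Finite.of_finite_image (hW.subset (by
      rintro _ ⟨v, hv, rfl⟩
      exact hP2 hv)) hP1
    have hPf : P.Finite := by
      refine (hP1f.union (hZWf.image b)).subset ?_
      intro v hv
      by_cases h : v ∈ b '' ZW
      · exact Or.inr h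
      · exact Or.inl ⟨hv, h⟩
    have hPc : P.ncard ≤ W.ncard + ZW.ncard := by
      have h2 : P.ncard ≤ (P \ b '' ZW).ncard + (b '' ZW).ncard := by
        refine (Set.ncard_le_ncard ?_ (hP1f.union (hZWf.image b))).trans (Set.ncard_union_le _ _)
        intro v hv
        by_cases h : v ∈ b '' ZW
        · exact Or.inr h
        · exact Or.inl ⟨hv, h⟩
      have h3 := Set.ncard_le_ncard_of_injOn q hP2 hP1 hW
      have h4 := Set.ncard_image_le (f := b) hZWf
      omega
    have h2 : X ∪ ZW ⊆ ins R ends P := by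
      rintro x (hx | hx)
      · refine ⟨hx.1.1, fun v hv => ⟨hU x hx.1.1 v hv, hx.2 _ (Sym2.mem_map.2 ⟨v, hv, rfl⟩)⟩⟩
      · refine ⟨hZ hx.1, fun v hv => ⟨hU x (hZ hx.1) v hv, ?_⟩⟩
        rw [(hab x hx.1).1, Sym2.mem_iff] at hv
        rcases hv with rfl | rfl
        · exact hx.2
        · rw [← (hab x hx.1).2.2]
          exact hx.2
    have h3 := (bicU_zero hB).rk_le hPf h2
    have h4 : rk N (X ∪ Z) ≤ rk N (X ∪ ZW) + (Z \ ZW).ncard := by
      refine le_trans (rk_mono N ?_) (rk_union_le N (hZf.subset sdiff_subset))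
      rintro x (hx | hx)
      · exact Or.inl (Or.inl hx)
      · by_cases hxW : x ∈ ZW
        · exact Or.inl (Or.inr hxW)
        · exact Or.inr ⟨hx, hxW⟩
    have h5 := Set.ncard_sdiff_add_ncard_of_subset hZWs hZf
    omega

/-- **A plain grid in a brick wall.** -/
theorem wall_pgrid {α : Type*} {N : Matroid α} [N.Finite] {e : Bool × ℕ × ℕ → α}
    {ends : α → Sym2 (ℕ × ℕ)} {s : ℕ} (he : InjOn e (Seg (2 * s)))
    (hends : ∀ σ ∈ Seg (2 * s), ends (e σ) = s(segNear σ, segFar σ))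
    (hB : Bic N (e '' Seg (2 * s)) ends) :
    ∃ Z R : Set α, Z ⊆ e '' Seg (2 * s) ∧ R ⊆ e '' Seg (2 * s) \ Z ∧ PGrid (N ／ Z) R s := by
  classical
  set Zs : Set (Bool × ℕ × ℕ) := {σ | σ ∈ Seg (2 * s) ∧ σ.1 = true ∧ σ.2.1 % 2 = 0} with hZs
  have hZsS : Zs ⊆ Seg (2 * s) := fun σ hσ => hσ.1
  set q : ℕ × ℕ → ℕ × ℕ := fun v => (v.1 / 2, v.2) with hq
  set σi : α → Bool × ℕ × ℕ := Function.invFunOn e (Seg (2 * s)) with hσi
  have hσe : ∀ σ ∈ Seg (2 * s), σi (e σ) = σ := fun σ hσ =>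
    he (Function.invFunOn_mem ⟨σ, hσ, rfl⟩) hσ (Function.invFunOn_eq ⟨σ, hσ, rfl⟩)
  set U : Set (ℕ × ℕ) := {p | p.1 ≤ 2 * s ∧ p.2 ≤ 2 * s} with hU
  have h1 : Bic (N ／ (e '' Zs)) (e '' Seg (2 * s) \ e '' Zs) (fun x => (ends x).map q) := by
    refine bic_matching hB (image_mono hZsS) (U := U) ?_ q (fun x => segNear (σi x))
      (fun x => segFar (σi x)) ?_ ?_ ?_
    · rintro _ ⟨σ, hσ, rfl⟩ v hv
      rw [hends σ hσ, Sym2.mem_iff] at hv
      have := seg_ends hσ
      rcases hv with rfl | rfl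
      · exact ⟨this.1, this.2.1⟩
      · exact ⟨this.2.2.1, this.2.2.2⟩
    · rintro _ ⟨σ, hσ, rfl⟩
      rw [hσe σ hσ.1]
      refine ⟨hends σ hσ.1, T2.near_ne_far σ, ?_⟩
      obtain ⟨b, x, z⟩ := σ
      obtain ⟨_, h2, h3⟩ := hσ
      simp only at h2 h3
      subst h2
      simp only [hq, segNear, segFar, if_true, Prod.mk.injEq, and_true]
      omega
    · rintro ⟨v1, v2⟩ hv ⟨w1, w2⟩ hw hvw hne
      simp only [hU, mem_ofPred_eq] at hv hw
      simp only [hq, Prod.mk.injEq] at hvw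
      obtain ⟨h2, h3⟩ := hvw
      subst h3
      have h4 : v1 ≠ w1 := fun h => hne (by rw [h])
      rcases Nat.lt_or_gt_of_ne h4 with h5 | h5
      · have h6 : w1 = v1 + 1 := by omega
        have hσ : (true, v1, v2) ∈ Seg (2 * s) := Or.inl ⟨rfl, by simp only; omega, hv.2⟩
        refine ⟨e (true, v1, v2), ⟨_, ⟨hσ, rfl, by simp only; omega⟩, rfl⟩, ?_⟩
        rw [hends _ hσ, h6]
        simp [segNear, segFar]
      · have h6 : v1 = w1 + 1 := by omega
        have hσ : (true, w1, v2) ∈ Seg (2 * s) := Or.inl ⟨rfl, by simp only; omega, hv.2⟩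
        refine ⟨e (true, w1, v2), ⟨_, ⟨hσ, rfl, by simp only; omega⟩, rfl⟩, ?_⟩
        rw [hends _ hσ, h6, Sym2.eq_swap]
        simp [segNear, segFar]
    · rintro _ ⟨σ, hσ, rfl⟩ _ ⟨τ, hτ, rfl⟩ hne
      rw [hσe σ hσ.1, hσe τ hτ.1]
      intro h2
      apply hne
      congr 1
      obtain ⟨b, x, z⟩ := σ
      obtain ⟨b', x', z'⟩ := τ
      obtain ⟨_, h3, h4⟩ := hσ
      obtain ⟨_, h5, h6⟩ := hτ
      simp only at h3 h4 h5 h6
      subst h3 h5
      simp only [hq, segNear, Prod.mk.injEq] at h2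
      have h7 : x = x' := by omega
      rw [h7, h2.2]
  set R : Set α := ins (e '' Seg (2 * s) \ e '' Zs) (fun x => (ends x).map q)
    (rect 0 0 s s) with hR
  have hRs : R ⊆ e '' Seg (2 * s) \ e '' Zs := fun x hx => hx.1
  -- the elements
  have hel : ∀ x ∈ R, ∃ b m z, x = e (b, m, z) ∧
      ((b = true ∧ m < 2 * s ∧ z ≤ 2 * s ∧ m % 2 = 1 ∧
        (ends x).map q = s((m / 2, z), (m / 2 + 1, z))) ∨
      (b = false ∧ m ≤ 2 * s ∧ z < 2 * s ∧ (m + z) % 2 = 0 ∧
        (ends x).map q = s((m / 2, z), (m / 2, z + 1)))) := by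
    intro x hx
    obtain ⟨⟨⟨b, m, z⟩, hσ, rfl⟩, hxZ⟩ := hx.1
    refine ⟨b, m, z, rfl, ?_⟩
    have h3 : (ends (e (b, m, z))).map q = s(q (segNear (b, m, z)), q (segFar (b, m, z))) := by
      rw [hends _ hσ, Sym2.map_mk]
    rcases hσ with ⟨g1, g2, g3⟩ | ⟨g1, g2, g3, g4⟩
    · simp only at g1 g2 g3
      subst g1
      have h4 : m % 2 = 1 := by
        by_contra h
        exact hxZ ⟨_, ⟨Or.inl ⟨rfl, g2, g3⟩, rfl, by simp only; omega⟩, rfl⟩
      refine Or.inl ⟨rfl, g2, g3, h4, ?_⟩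
      rw [h3]
      have e1 : (m + 1) / 2 = m / 2 + 1 := by omega
      simp only [hq, segNear, segFar, if_true, e1]
    · simp only at g1 g2 g3 g4
      subst g1
      refine Or.inr ⟨rfl, g2, g3, g4, ?_⟩
      rw [h3]
      simp only [hq, segNear, segFar, Bool.false_eq_true, if_false]
  have hG : Grd R (fun x => (ends x).map q) 0 0 s s := by
    refine ⟨?_, ?_, ?_⟩
    · intro x hx x' hx' hxx
      obtain ⟨b, m, z, rfl, h2⟩ := hel x hx
      obtain ⟨b', m', z', rfl, h2'⟩ := hel x' hx'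
      simp only at hxx
      congr 1
      rcases h2 with ⟨g1, g2, g3, g4, g5⟩ | ⟨g1, g2, g3, g4, g5⟩ <;>
        rcases h2' with ⟨g1', g2', g3', g4', g5'⟩ | ⟨g1', g2', g3', g4', g5'⟩ <;>
        rw [g5, g5', Sym2.eq_iff] at hxx <;> subst g1 <;> subst g1' <;>
        simp only [Prod.mk.injEq, true_and, reduceCtorEq, false_and] at hxx ⊢ <;> omega
    · intro x hx
      obtain ⟨b, m, z, rfl, h2⟩ := hel x hx
      have hm : ∀ v ∈ (ends (e (b, m, z))).map q, v ∈ rect 0 0 s s := hx.2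
      rcases h2 with ⟨g1, g2, g3, g4, g5⟩ | ⟨g1, g2, g3, g4, g5⟩
      · rw [g5] at hm
        exact ⟨_, _, g5, by simp [adj], hm _ (Sym2.mem_mk_left _ _),
          hm _ (Sym2.mem_mk_right _ _)⟩
      · rw [g5] at hm
        exact ⟨_, _, g5, by simp [adj], hm _ (Sym2.mem_mk_left _ _),
          hm _ (Sym2.mem_mk_right _ _)⟩
    · -- every edge is there
      have key : ∀ p p' : ℕ × ℕ, p ∈ rect 0 0 s s → p' ∈ rect 0 0 s s →
          ((p.1 = p'.1 ∧ p.2 + 1 = p'.2) ∨ (p.2 = p'.2 ∧ p.1 + 1 = p'.1)) →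
          ∃ x ∈ R, (ends x).map q = s(p, p') := by
        rintro ⟨p1, p2⟩ ⟨p1', p2'⟩ hp hp' h
        simp only at h
        obtain ⟨hp1, hp2, hp3, hp4⟩ := hp
        obtain ⟨hp1', hp2', hp3', hp4'⟩ := hp'
        simp only at hp1 hp2 hp3 hp4 hp1' hp2' hp3' hp4'
        rcases h with ⟨rfl, rfl⟩ | ⟨rfl, rfl⟩
        · set x := if p2 % 2 = 0 then 2 * p1 else 2 * p1 + 1 with hx
          have hx1 : x / 2 = p1 ∧ (x + p2) % 2 = 0 ∧ x ≤ 2 * s := by
            rw [hx]; split_ifs <;> omega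
          have hσ : (false, x, p2) ∈ Seg (2 * s) :=
            Or.inr ⟨rfl, hx1.2.2, by simp only; omega, hx1.2.1⟩
          have h3 : (ends (e (false, x, p2))).map q = s((p1, p2), (p1, p2 + 1)) := by
            rw [hends _ hσ, Sym2.map_mk]
            simp only [hq, segNear, segFar, Bool.false_eq_true, if_false, hx1.1]
          refine ⟨e (false, x, p2), ⟨⟨⟨_, hσ, rfl⟩, ?_⟩, ?_⟩, h3⟩
          · rintro ⟨τ, hτ, h4⟩
            have h5 := he hτ.1 hσ h4
            rw [h5] at hτ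
            exact absurd hτ.2.1 (by simp)
          · intro v hv
            simp only at hv
            rw [h3, Sym2.mem_iff] at hv
            rcases hv with rfl | rfl
            · exact ⟨by simp only; omega, by simp only; omega, by simp only; omega,
                by simp only; omega⟩
            · exact ⟨by simp only; omega, by simp only; omega, by simp only; omega,
                by simp only; omega⟩
        · have hσ : (true, 2 * p1 + 1, p2) ∈ Seg (2 * s) :=
            Or.inl ⟨rfl, by simp only; omega, by simp only; omega⟩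
          have h3 : (ends (e (true, 2 * p1 + 1, p2))).map q = s((p1, p2), (p1 + 1, p2)) := by
            rw [hends _ hσ, Sym2.map_mk]
            have e1 : (2 * p1 + 1) / 2 = p1 := by omega
            have e2 : (2 * p1 + 1 + 1) / 2 = p1 + 1 := by omega
            simp only [hq, segNear, segFar, if_true, e1, e2]
          refine ⟨e (true, 2 * p1 + 1, p2), ⟨⟨⟨_, hσ, rfl⟩, ?_⟩, ?_⟩, h3⟩
          · rintro ⟨τ, hτ, h4⟩
            have h5 := he hτ.1 hσ h4
            rw [h5] at hτ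
            have h6 := hτ.2.2
            simp only at h6
            omega
          · intro v hv
            simp only at hv
            rw [h3, Sym2.mem_iff] at hv
            rcases hv with rfl | rfl
            · exact ⟨by simp only; omega, by simp only; omega, by simp only; omega,
                by simp only; omega⟩
            · exact ⟨by simp only; omega, by simp only; omega, by simp only; omega,
                by simp only; omega⟩
      intro p p' hpp hp hp'
      rcases hpp with ⟨h2, h3 | h3⟩ | ⟨h2, h3 | h3⟩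
      · exact key p p' hp hp' (Or.inl ⟨h2, h3⟩)
      · obtain ⟨x, hx, hxe⟩ := key p' p hp' hp (Or.inl ⟨h2.symm, h3⟩)
        exact ⟨x, hx, by rw [Sym2.eq_swap]; exact hxe⟩
      · exact key p p' hp hp' (Or.inr ⟨h2, h3⟩)
      · obtain ⟨x, hx, hxe⟩ := key p' p hp' hp (Or.inr ⟨h2.symm, h3⟩)
        exact ⟨x, hx, by rw [Sym2.eq_swap]; exact hxe⟩
  obtain ⟨hE, vE, hI⟩ := hG.isGrid (e (true, 0, 0))
  exact ⟨e '' Zs, R, image_mono hZsS, hRs, ℕ × ℕ, _, _, hE, vE, Bic_sub h1 hRs, hI⟩

end CWL
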