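import Pool.Agent.CW.World

/-!
# Existence of a clean pair
-/

open Set BIC BICS
open scoped Matroid

namespace CWL

universe u

/-- contraction of a basis instead of the set -/
lemma rk_basis {α : Type*} {M : Matroid α} [M.Finite] {C I X : Set α} (hI : M.IsBasis I C)
    (hX : X ⊆ M.E \ C) : rk (M ／ C) X = rk (M ／ I) X := by
  have hC : C ⊆ M.E := hI.subset_ground
  have hIC : I ⊆ C := hI.subset
  have h1 := rk_contract_set (M := M) (C := C) (X := X) hC hX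
  have h2 := rk_contract_set (M := M) (C := I) (X := X) (hIC.trans hC)
    (hX.trans (sdiff_subset_sdiff_right hIC))
  have h3 : rk M I = rk M C := by
    rw [← rk_closure (M := M) I, ← rk_closure (M := M) C, hI.closure_eq_closure]
  have h4 : rk M (X ∪ I) = rk M (X ∪ C) := by
    rw [← rk_closure (M := M) (X ∪ I), ← rk_closure (M := M) (X ∪ C)]
    rw [← Matroid.closure_union_closure_right_eq, hI.closure_eq_closure,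
      Matroid.closure_union_closure_right_eq]
  omega

/-- the number of segments of a wall -/
lemma seg_ncard (y : ℕ) : (Seg y).ncard ≤ 2 * (y + 1) ^ 2 := by
  classical
  have h1 : Seg y ⊆ ((Finset.univ : Finset Bool) ×ˢ (Finset.range (y + 1) ×ˢ
      Finset.range (y + 1)) : Finset (Bool × ℕ × ℕ)) := by
    rintro ⟨b, m, z⟩ hs
    simp only [Seg, mem_ofPred_eq] at hs
    simp only [Finset.coe_product, mem_prod, Finset.coe_univ, mem_univ, true_and,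
      Finset.coe_range, mem_Iio]
    omega
  refine (Set.ncard_le_ncard h1 (Finset.finite_toSet _)).trans ?_
  rw [Set.ncard_coe_finset, Finset.card_product, Finset.card_product, Finset.card_range]
  simp only [Finset.card_univ, Fintype.card_bool]
  nlinarith

/-- a side is large -/
lemma GSide.rk_ge {α : Type u} {M : Matroid α} [M.Finite] {L : Bool × ℕ × ℕ → List α}
    {f : α → Sym2 ((ℕ × ℕ) ⊕ α)} {e : Bool × ℕ × ℕ → α} {u y : ℕ}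
    (h : GSide M (Seg y) L f e u) :
    (crr L (Seg y)).ncard ≤ rk M (crr L (Seg y)) + 2 * (y + 1) ^ 2 := by
  have h1 := h.cut (Subset.refl _)
  have h2 : {s | s ∈ Seg y ∧ ∃ x ∈ crr L (Seg y), x ∈ L s}.ncard ≤ (Seg y).ncard :=
    Set.ncard_le_ncard (fun s hs => hs.1) (seg_finite y)
  have h3 := seg_ncard y
  omega

/-- one side, from an arbitrary contracted set with a chosen basis -/
theorem oneSide (k : ℕ) : ∃ κ A : ℕ, 1 ≤ A ∧ ∀ N, A ≤ N → ∀ {α : Type u}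
    (M : Matroid α) [M.Finite] (C I T : Set α) (ends : α → Sym2 (ℕ × ℕ)), M.IsBasis I C →
    T ⊆ M.E \ C → Bic (M ／ C) T ends → Grd T ends 0 0 (2 * N) (2 * N) →
    HasUniformMinor M k ∨ ∃ (y u : ℕ) (L : Bool × ℕ × ℕ → List α)
      (f : α → Sym2 ((ℕ × ℕ) ⊕ α)) (e : Bool × ℕ × ℕ → α) (B : Set α),
      N ≤ A * (y + 2) ∧ y < 2 * N ∧ u ≤ κ ∧ crr L (Seg y) ⊆ T ∪ I ∧ GSide M (Seg y) L f e u ∧
      e '' Seg y ⊆ T ∧ B ⊆ I ∧ B.ncard ≤ κ ∧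
      ∀ Z ⊆ I \ (B ∪ crr L (Seg y)), ∀ X ⊆ crr L (Seg y), rk (M ／ Z) X = rk M X := by
  obtain ⟨κ, A, hA⟩ := cleanSide.{u} k 0
  refine ⟨κ, A + 1, by omega, fun N hN {α} M _ C I T ends hI hT hB hG => ?_⟩
  have hIC : I ⊆ C := hI.subset
  have hC : C ⊆ M.E := hI.subset_ground
  have hfC : (M ／ C).Finite := BQ.fin_contract C
  have hfI : (M ／ I).Finite := BQ.fin_contract I
  have hT' : T ⊆ M.E \ I := hT.trans (sdiff_subset_sdiff_right hIC)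
  have hB' : Bic (M ／ I) T ends := by
    refine Bic_of_rk hB (by rw [Matroid.contract_ground]; exact hT') fun X hX => ?_
    exact (rk_basis hI (hX.trans hT)).symm
  have hy1 : N / (A + 1) * (A + 1) ≤ N := Nat.div_mul_le_self _ _
  have hy0 : 1 ≤ N / (A + 1) := (Nat.one_le_div_iff (by omega)).2 hN
  obtain ⟨y, hy⟩ : ∃ y, N / (A + 1) = y + 1 := ⟨N / (A + 1) - 1, by omega⟩
  have hNy : A * (y + 1) ≤ N := by
    rw [hy] at hy1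
    nlinarith
  have hNy' : N < (A + 1) * (y + 1 + 1) := by
    rw [← hy]
    have := Nat.lt_mul_div_succ N (show 0 < A + 1 by omega)
    exact this
  rcases hA y N hNy M I T ends hI.indep hT' hB' hG with h | ⟨y', u, R, L, f, e, h1, h2, h3, h4,
    h5, h6, -, B, h7, h8, h9⟩
  · exact Or.inl h
  · right
    have hR : crr L (Seg y') = R := h5.sw.crr
    refine ⟨y', u, L, f, e, B, ?_, h2, h3, by rw [hR]; exact h4, h5.gside, ?_, h7, h8, ?_⟩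
    · have : (A + 1) * (y + 1 + 1) ≤ (A + 1) * (y' + 2) := Nat.mul_le_mul_left _ (by omega)
      omega
    · rintro _ ⟨s, hs, rfl⟩
      exact h6 s hs
    · rw [hR]
      exact h9

/-- the conclusion: a pair with at most `b` conflicts in a minor, linear sides -/
def HasPair {α : Type u} (M : Matroid α) (S₁ S₂ : Set α) (κ A N b : ℕ) : Prop :=
  ∃ (M' : Matroid α) (y₁ u₁ : ℕ) (L₁ : Bool × ℕ × ℕ → List α) (f₁ : α → Sym2 ((ℕ × ℕ) ⊕ α))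
    (e₁ : Bool × ℕ × ℕ → α) (y₂ u₂ : ℕ) (L₂ : Bool × ℕ × ℕ → List α)
    (f₂ : α → Sym2 ((ℕ × ℕ) ⊕ α)) (e₂ : Bool × ℕ × ℕ → α), M' ≤m M ∧
    N ≤ A * (y₁ + 2) ∧ N ≤ A * (y₂ + 2) ∧ u₁ ≤ κ ∧ u₂ ≤ κ ∧
    Pair M' (Seg y₁) L₁ f₁ e₁ u₁ (Seg y₂) L₂ f₂ e₂ u₂ ∧ e₁ '' Seg y₁ ⊆ S₁ ∧ e₂ '' Seg y₂ ⊆ S₂ ∧
    (crr L₁ (Seg y₁) ∩ crr L₂ (Seg y₂)).ncard ≤ b

/-- few elements of the first kind -/
theorem pairAlt1 (k : ℕ) : ∃ κ A : ℕ, 1 ≤ A ∧ ∀ N, A ≤ N → ∀ {α : Type u} (M : Matroid α)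
    [M.Finite] (S₁ S₂ C₁ D₂ : Set α) (g₁ g₂ : α → Sym2 (ℕ × ℕ)), S₁ ⊆ M.E → S₂ ⊆ M.E →
    Disjoint S₁ S₂ → C₁ ⊆ M.E \ S₁ → D₂ ⊆ M.E \ S₂ → Bic (M ／ C₁) S₁ g₁ →
    Grd S₁ g₁ 0 0 (2 * N) (2 * N) → Bic (M✶ ／ D₂) S₂ g₂ → Grd S₂ g₂ 0 0 (2 * N) (2 * N) →
    HasUniformMinor M k ∨ HasPair M S₁ S₂ κ A N (S₁.ncard + S₂.ncard + (C₁ ∩ D₂).ncard) := by
  obtain ⟨κ, A, hA1, hA⟩ := oneSide.{u} k
  refine ⟨κ, A, hA1, fun N hN {α} M _ S₁ S₂ C₁ D₂ g₁ g₂ hS₁ hS₂ hS hC hD hB₁ hG₁ hB₂ hG₂ => ?_⟩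
  have hf : M✶.Finite := inferInstance
  obtain ⟨I₁, hI₁⟩ := M.exists_isBasis C₁ (hC.trans sdiff_subset)
  obtain ⟨I₂, hI₂⟩ := M✶.exists_isBasis D₂ (hD.trans sdiff_subset)
  have hS₁' : S₁ ⊆ M.E \ C₁ := fun x hx => ⟨hS₁ hx, fun h => (hC h).2 hx⟩
  have hS₂' : S₂ ⊆ M✶.E \ D₂ := fun x hx => ⟨hS₂ hx, fun h => (hD h).2 hx⟩
  rcases hA N hN M C₁ I₁ S₁ g₁ hI₁ hS₁' hB₁ hG₁ with h | ⟨y₁, u₁, L₁, f₁, e₁, B₁, h1, -, h3, h4,
    h5, h6, -⟩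
  · exact Or.inl h
  rcases hA N hN M✶ D₂ I₂ S₂ g₂ hI₂ hS₂' hB₂ hG₂ with h | ⟨y₂, u₂, L₂, f₂, e₂, B₂, k1, -, k3, k4,
    k5, k6, -⟩
  · exact Or.inl (HasUniformMinor_dual h)
  refine Or.inr ⟨M, y₁, u₁, L₁, f₁, e₁, y₂, u₂, L₂, f₂, e₂, Matroid.IsMinor.refl, h1, k1, h3, k3,
    ⟨h5, k5, hS.mono h6 k6⟩, h6, k6, ?_⟩
  have hfin : M.E.Finite := M.ground_finite
  have hsub : crr L₁ (Seg y₁) ∩ crr L₂ (Seg y₂) ⊆ S₁ ∪ S₂ ∪ (C₁ ∩ D₂) := by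
    rintro x ⟨hx1, hx2⟩
    rcases h4 hx1 with h7 | h7
    · exact Or.inl (Or.inl h7)
    · rcases k4 hx2 with h8 | h8
      · exact Or.inl (Or.inr h8)
      · exact Or.inr ⟨hI₁.subset h7, hI₂.subset h8⟩
  refine (Set.ncard_le_ncard hsub (hfin.subset ?_)).trans ?_
  · rintro x ((hx | hx) | hx)
    · exact hS₁ hx
    · exact hS₂ hx
    · exact (hC hx.1).1
  · refine (Set.ncard_union_le _ _).trans ?_
    have := Set.ncard_union_le S₁ S₂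
    omega

/-- the data of two grids -/
structure Dat {α : Type u} (M : Matroid α) (S₁ S₂ C₁ D₂ : Set α) (g₁ g₂ : α → Sym2 (ℕ × ℕ))
    (n : ℕ) : Prop where
  sub₁ : S₁ ⊆ M.E
  sub₂ : S₂ ⊆ M.E
  dj : Disjoint S₁ S₂
  hC : C₁ ⊆ M.E \ S₁
  hD : D₂ ⊆ M.E \ S₂
  b₁ : Bic (M ／ C₁) S₁ g₁
  G₁ : Grd S₁ g₁ 0 0 n n
  b₂ : Bic (M✶ ／ D₂) S₂ g₂
  G₂ : Grd S₂ g₂ 0 0 n n

section

variable {α : Type u} {M : Matroid α} {S₁ S₂ C₁ D₂ Z : Set α} {g₁ g₂ : α → Sym2 (ℕ × ℕ)} {n : ℕ}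

lemma Dat.dual (h : Dat M S₁ S₂ C₁ D₂ g₁ g₂ n) : Dat M✶ S₂ S₁ D₂ C₁ g₂ g₁ n :=
  ⟨h.sub₂, h.sub₁, h.dj.symm, h.hD, h.hC, h.b₂, h.G₂, by rw [Matroid.dual_dual]; exact h.b₁, h.G₁⟩

lemma Dat.of_dual (h : Dat M✶ S₂ S₁ D₂ C₁ g₂ g₁ n) : Dat M S₁ S₂ C₁ D₂ g₁ g₂ n := by
  have := h.dual
  rwa [Matroid.dual_dual] at this

/-- contraction of elements of `C₁` which are useless for the second grid -/
lemma Dat.con [M.Finite] (h : Dat M S₁ S₂ C₁ D₂ g₁ g₂ n) (hZ : Z ⊆ C₁) (hZS : Disjoint Z S₂)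
    (hZD : Disjoint Z D₂) : Dat (M ／ Z) S₁ S₂ (C₁ \ Z) D₂ g₁ g₂ n := by
  have hf : M✶.Finite := inferInstance
  have hf1 : (M✶ ／ D₂).Finite := BQ.fin_contract D₂
  have hf2 : (M✶ ／ D₂ ＼ Z).Finite := BQ.fin_delete Z
  refine ⟨?_, ?_, h.dj, ?_, ?_, ?_, h.G₁, ?_, h.G₂⟩
  · exact fun x hx => ⟨h.sub₁ hx, fun hz => (h.hC (hZ hz)).2 hx⟩
  · exact fun x hx => ⟨h.sub₂ hx, fun hz => Set.disjoint_left.1 hZS hz hx⟩
  · exact fun x hx => ⟨⟨(h.hC hx.1).1, hx.2⟩, (h.hC hx.1).2⟩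
  · exact fun x hx => ⟨⟨(h.hD hx).1, fun hz => Set.disjoint_left.1 hZD hz hx⟩, (h.hD hx).2⟩
  · rw [Matroid.contract_contract, union_sdiff_self, union_eq_self_of_subset_left hZ]
    exact h.b₁
  · rw [Matroid.dual_contract, ← Matroid.contract_delete_comm _ hZD.symm]
    refine Bic_of_rk h.b₂ ?_ fun X hX => ?_
    · rw [Matroid.delete_ground]
      exact fun x hx => ⟨h.b₂.sub hx, fun hz => Set.disjoint_left.1 hZS hz hx⟩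
    · exact rk_delete fun x hx =>
        ⟨h.b₂.sub (hX hx), fun hz => Set.disjoint_left.1 hZS hz (hX hx)⟩

/-- deletion of superfluous conflicting elements -/
lemma Dat.del [M.Finite] (h : Dat M S₁ S₂ C₁ D₂ g₁ g₂ n) (hZ₁ : Z ⊆ C₁) (hZ₂ : Z ⊆ D₂)
    {I : Set α} (hI : M.IsBasis I C₁) (hIZ : Disjoint I Z) :
    Dat (M ＼ Z) S₁ S₂ (C₁ \ Z) (D₂ \ Z) g₁ g₂ n ∧ (M ＼ Z).IsBasis I (C₁ \ Z) := by
  have hf1 : (M ／ C₁).Finite := BQ.fin_contract C₁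
  have hf2 : (M ＼ Z).Finite := BQ.fin_delete Z
  have hf3 : (M ＼ Z ／ (C₁ \ Z)).Finite := BQ.fin_contract _
  have hICZ : I ⊆ C₁ \ Z := fun x hx => ⟨hI.subset hx, fun hz => Set.disjoint_left.1 hIZ hx hz⟩
  have hb : (M ＼ Z).IsBasis I (C₁ \ Z) := by
    rw [Matroid.delete_isBasis_iff]
    exact ⟨hI.isBasis_subset hICZ sdiff_subset, disjoint_sdiff_left⟩
  have hC : C₁ ⊆ M.E := hI.subset_ground
  refine ⟨⟨?_, ?_, h.dj, ?_, ?_, ?_, h.G₁, ?_, h.G₂⟩, hb⟩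
  · exact fun x hx => ⟨h.sub₁ hx, fun hz => (h.hC (hZ₁ hz)).2 hx⟩
  · exact fun x hx => ⟨h.sub₂ hx, fun hz => (h.hD (hZ₂ hz)).2 hx⟩
  · exact fun x hx => ⟨⟨(h.hC hx.1).1, hx.2⟩, (h.hC hx.1).2⟩
  · exact fun x hx => ⟨⟨(h.hD hx.1).1, hx.2⟩, (h.hD hx.1).2⟩
  · refine Bic_of_rk h.b₁ ?_ fun X hX => ?_
    · exact fun x hx => ⟨⟨h.sub₁ hx, fun hz => (h.hC (hZ₁ hz)).2 hx⟩, fun hz => (h.hC hz.1).2 hx⟩
    · have hXC : X ⊆ M.E \ C₁ := fun x hx => ⟨h.sub₁ (hX hx), fun hz => (h.hC hz).2 (hX hx)⟩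
      have hXZ : X ⊆ (M ＼ Z).E \ (C₁ \ Z) := fun x hx =>
        ⟨⟨(hXC hx).1, fun hz => (hXC hx).2 (hZ₁ hz)⟩, fun hz => (hXC hx).2 hz.1⟩
      have hXI : X ⊆ (M ＼ Z).E \ I := fun x hx =>
        ⟨⟨(hXC hx).1, fun hz => (hXC hx).2 (hZ₁ hz)⟩, fun hz => (hXC hx).2 (hI.subset hz)⟩
      have hXI' : X ⊆ M.E \ I := fun x hx => ⟨(hXC hx).1, fun hz => (hXC hx).2 (hI.subset hz)⟩
      rw [rk_basis hb hXZ, rk_basis hI hXC]
      have r1 := rk_contract_set (M := M ＼ Z) (C := I) (X := X)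
        (fun x hx => ⟨hI.indep.subset_ground hx, fun hz => (hICZ hx).2 hz⟩) hXI
      have r2 := rk_contract_set (M := M) (C := I) (X := X) hI.indep.subset_ground hXI'
      have r3 : rk (M ＼ Z) I = rk M I := rk_delete fun x hx =>
        ⟨hI.indep.subset_ground hx, fun hz => (hICZ hx).2 hz⟩
      have r4 : rk (M ＼ Z) (X ∪ I) = rk M (X ∪ I) := rk_delete (by
        rintro x (hx | hx)
        · exact (hXI hx).1
        · exact ⟨hI.indep.subset_ground hx, fun hz => (hICZ hx).2 hz⟩)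
      omega
  · rw [Matroid.dual_delete, Matroid.contract_contract, union_sdiff_self,
      union_eq_self_of_subset_left hZ₂]
    exact h.b₂

end

/-- few elements of the second kind -/
theorem pairAlt2 (k : ℕ) : ∃ κ A : ℕ, 1 ≤ A ∧ ∀ N, A ≤ N → ∀ {α : Type u} (M : Matroid α)
    [M.Finite] (S₁ S₂ C₁ D₂ : Set α) (g₁ g₂ : α → Sym2 (ℕ × ℕ)),
    Dat M S₁ S₂ C₁ D₂ g₁ g₂ (2 * N) → HasUniformMinor M k ∨
      HasPair M S₁ S₂ κ A N (S₁.ncard + S₂.ncard + (M.E \ (S₁ ∪ S₂ ∪ C₁ ∪ D₂)).ncard +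
        (κ + 16 * N ^ 2)) := by
  obtain ⟨κ, A, hA1, hA⟩ := oneSide.{u} k
  refine ⟨κ, A, hA1, fun N hN {α} M _ S₁ S₂ C₁ D₂ g₁ g₂ hdat => ?_⟩
  -- the first minor
  set Z₁ : Set α := C₁ \ (S₂ ∪ D₂) with hZ₁
  set Z₂ : Set α := D₂ \ (S₁ ∪ C₁) with hZ₂
  have hfa : (M ／ Z₁).Finite := BQ.fin_contract _
  have da := hdat.con (Z := Z₁) sdiff_subset
    (by rw [Set.disjoint_left]; exact fun x hx hx2 => hx.2 (Or.inl hx2))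
    (by rw [Set.disjoint_left]; exact fun x hx hx2 => hx.2 (Or.inr hx2))
  have hfa' : (M ／ Z₁)✶.Finite := inferInstance
  have db := da.dual.con (Z := Z₂) sdiff_subset
    (by rw [Set.disjoint_left]; exact fun x hx hx2 => hx.2 (Or.inl hx2))
    (by rw [Set.disjoint_left]; exact fun x hx hx2 => hx.2 (Or.inr hx2.1))
  rw [← Matroid.dual_delete] at db
  have dc := db.of_dual
  have hfb : (M ／ Z₁ ＼ Z₂).Finite := BQ.fin_delete _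
  -- the second minor
  obtain ⟨I₁, hI₁⟩ := (M ／ Z₁ ＼ Z₂).exists_isBasis (C₁ \ Z₁) (dc.hC.trans sdiff_subset)
  set Z₃ : Set α := (C₁ ∩ D₂) \ I₁ with hZ₃
  have hZ₃C : Z₃ ⊆ C₁ \ Z₁ := fun x hx => ⟨hx.1.1, fun hz => hz.2 (Or.inr hx.1.2)⟩
  have hZ₃D : Z₃ ⊆ D₂ \ Z₂ := fun x hx => ⟨hx.1.2, fun hz => hz.2 (Or.inr hx.1.1)⟩
  obtain ⟨dd, hI₁'⟩ := dc.del hZ₃C hZ₃D hI₁ disjoint_sdiff_right
  have hfc : (M ／ Z₁ ＼ Z₂ ＼ Z₃).Finite := BQ.fin_delete _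
  set M' : Matroid α := M ／ Z₁ ＼ Z₂ ＼ Z₃ with hM'
  have hminor : M' ≤m M := (del_minor _ _).trans ((del_minor _ _).trans (con_minor _ _))
  have hf' : M'✶.Finite := inferInstance
  obtain ⟨I₂, hI₂⟩ := M'✶.exists_isBasis ((D₂ \ Z₂) \ Z₃) (dd.hD.trans sdiff_subset)
  have hS₁' : S₁ ⊆ M'.E \ ((C₁ \ Z₁) \ Z₃) := fun x hx => ⟨dd.sub₁ hx, fun h => (dd.hC h).2 hx⟩
  have hS₂' : S₂ ⊆ M'✶.E \ ((D₂ \ Z₂) \ Z₃) :=
    fun x hx => ⟨dd.sub₂ hx, fun h => (dd.hD h).2 hx⟩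
  rcases hA N hN M' _ I₁ S₁ g₁ hI₁' hS₁' dd.b₁ dd.G₁ with h | ⟨y₁, u₁, L₁, f₁, e₁, B₁, h1, h2, h3,
    h4, h5, h6, h7, h8, h9⟩
  · exact Or.inl (HasUniformMinor_mono h hminor)
  rcases hA N hN M'✶ _ I₂ S₂ g₂ hI₂ hS₂' dd.b₂ dd.G₂ with h | ⟨y₂, u₂, L₂, f₂, e₂, B₂, k1, k2, k3,
    k4, k5, k6, -⟩
  · exact Or.inl (HasUniformMinor_mono (HasUniformMinor_dual h) hminor)
  right
  -- the third minor
  set Z : Set α := (C₁ ∩ D₂ ∩ I₁) \ (crr L₁ (Seg y₁) ∪ B₁ ∪ crr L₂ (Seg y₂)) with hZ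
  have hZI : Z ⊆ I₁ \ (B₁ ∪ crr L₁ (Seg y₁)) := by
    rintro x ⟨hx1, hx2⟩
    refine ⟨hx1.2, ?_⟩
    rintro (h | h)
    · exact hx2 (Or.inl (Or.inr h))
    · exact hx2 (Or.inl (Or.inl h))
  have hR₁ : crr L₁ (Seg y₁) ⊆ M'.E := h5.sub_ground
  have hR₂ : crr L₂ (Seg y₂) ⊆ M'.E := k5.sub_ground
  have hZR₂ : Disjoint (crr L₂ (Seg y₂)) Z := by
    rw [Set.disjoint_left]
    exact fun x hx hz => hz.2 (Or.inr hx)
  have hfz : (M' ／ Z).Finite := BQ.fin_contract _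
  have hfz' : (M' ／ Z)✶.Finite := inferInstance
  have p₁ : GSide (M' ／ Z) (Seg y₁) L₁ f₁ e₁ u₁ := by
    refine h5.of_rk ?_ fun X hX => h9 Z hZI X hX
    rw [Matroid.contract_ground]
    exact fun x hx => ⟨hR₁ hx, fun hz => hz.2 (Or.inl (Or.inl hx))⟩
  have p₂ : GSide (M' ／ Z)✶ (Seg y₂) L₂ f₂ e₂ u₂ := by
    rw [Matroid.dual_contract]
    exact k5.delete hZR₂
  refine ⟨M' ／ Z, y₁, u₁, L₁, f₁, e₁, y₂, u₂, L₂, f₂, e₂, (con_minor _ _).trans hminor, h1, k1,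
    h3, k3, ⟨p₁, p₂, hdat.dj.mono h6 k6⟩, h6, k6, ?_⟩
  -- the count
  have hfin : M.E.Finite := M.ground_finite
  have hEM : M'.E ⊆ M.E := hminor.subset
  have hX₀ : (M.E \ (S₁ ∪ S₂ ∪ C₁ ∪ D₂)).Finite := hfin.subset sdiff_subset
  have hE : (M' ／ Z).E ⊆ (crr L₁ (Seg y₁) ∪ crr L₂ (Seg y₂)) ∪
      (B₁ ∪ (S₁ ∪ S₂ ∪ (M.E \ (S₁ ∪ S₂ ∪ C₁ ∪ D₂)))) := by
    rintro x ⟨hx, hxZ⟩
    have hxE := hEM hx
    have hx1 : x ∉ Z₁ := hx.1.1.2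
    have hx2 : x ∉ Z₂ := hx.1.2
    have hx3 : x ∉ Z₃ := hx.2
    by_cases h10 : x ∈ S₁
    · exact Or.inr (Or.inr (Or.inl (Or.inl h10)))
    by_cases h11 : x ∈ S₂
    · exact Or.inr (Or.inr (Or.inl (Or.inr h11)))
    by_cases h12 : x ∈ C₁
    · have h13 : x ∈ D₂ := by
        by_contra h13
        exact hx1 ⟨h12, fun h => h.elim h11 h13⟩
      have h14 : x ∈ I₁ := by
        by_contra h14
        exact hx3 ⟨⟨h12, h13⟩, h14⟩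
      have h15 : x ∈ crr L₁ (Seg y₁) ∪ B₁ ∪ crr L₂ (Seg y₂) := by
        by_contra h15
        exact hxZ ⟨⟨⟨h12, h13⟩, h14⟩, h15⟩
      rcases h15 with (h15 | h15) | h15
      · exact Or.inl (Or.inl h15)
      · exact Or.inr (Or.inl h15)
      · exact Or.inl (Or.inr h15)
    · by_cases h13 : x ∈ D₂
      · exact absurd ⟨h13, fun h => h.elim h10 h12⟩ hx2
      · refine Or.inr (Or.inr (Or.inr ⟨hxE, ?_⟩))
        rintro (((h | h) | h) | h)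
        · exact h10 h
        · exact h11 h
        · exact h12 h
        · exact h13 h
  have hB₁f : B₁.Finite := (hfin.subset ((hI₁.subset.trans sdiff_subset).trans
    (hdat.hC.trans sdiff_subset))).subset h7
  have hRf₁ : (crr L₁ (Seg y₁)).Finite := hfin.subset (hR₁.trans hEM)
  have hRf₂ : (crr L₂ (Seg y₂)).Finite := hfin.subset (hR₂.trans hEM)
  have hS₁f : S₁.Finite := hfin.subset hdat.sub₁
  have hS₂f : S₂.Finite := hfin.subset hdat.sub₂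
  have c1 : (M' ／ Z).E.ncard ≤ (crr L₁ (Seg y₁) ∪ crr L₂ (Seg y₂)).ncard +
      (B₁.ncard + (S₁.ncard + S₂.ncard + (M.E \ (S₁ ∪ S₂ ∪ C₁ ∪ D₂)).ncard)) := by
    refine (Set.ncard_le_ncard hE ((hRf₁.union hRf₂).union
      (hB₁f.union ((hS₁f.union hS₂f).union hX₀)))).trans ?_
    refine (Set.ncard_union_le _ _).trans ?_
    have r1 := Set.ncard_union_le B₁ (S₁ ∪ S₂ ∪ (M.E \ (S₁ ∪ S₂ ∪ C₁ ∪ D₂)))
    have r2 := Set.ncard_union_le (S₁ ∪ S₂) (M.E \ (S₁ ∪ S₂ ∪ C₁ ∪ D₂))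
    have r3 := Set.ncard_union_le S₁ S₂
    omega
  have c2 := p₁.rk_ge
  have c3 := p₂.rk_ge
  have c4 : rk (M' ／ Z) (crr L₁ (Seg y₁)) ≤ rk (M' ／ Z) (M' ／ Z).E := rk_mono _ p₁.sub_ground
  have c5 : rk (M' ／ Z)✶ (crr L₂ (Seg y₂)) ≤ rk (M' ／ Z)✶ (M' ／ Z).E := rk_mono _ p₂.sub_ground
  have c6 := rk_dual (M := M' ／ Z) (X := (M' ／ Z).E) (Subset.refl _)
  rw [sdiff_self] at c6
  have c7 : rk (M' ／ Z) ∅ = 0 := rk_empty _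
  have c8 := Set.ncard_union_add_ncard_inter (crr L₁ (Seg y₁)) (crr L₂ (Seg y₂)) hRf₁ hRf₂
  have c9 : (y₁ + 1) ^ 2 ≤ (2 * N) ^ 2 := Nat.pow_le_pow_left (by omega) 2
  have c10 : (y₂ + 1) ^ 2 ≤ (2 * N) ^ 2 := Nat.pow_le_pow_left (by omega) 2
  have c11 : (2 * N) ^ 2 = 4 * N ^ 2 := by ring
  omega

end CWL
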