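import Pool.Agent.BICS.Base

/-!
# The partition lemma of T* (row B6, counting part; helper43, after helper47)

`S` the row side, `A` a set of `n` tiles, `K ⊆ S` the kept conflicts of these tiles, `pass_j` the
part of `K` on the pass `j`, `D` the other elements of the closure of `S`.  Elements of `D` which
see passes of one class only are good.  Then the number of classes times `n` is at most the number
of columns of the tiles, plus the rank of the bad elements modulo the good ones, plus a bounded
number.
-/

open Set BIC BICS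
open scoped Matroid

namespace CWL

section chain

variable {α : Type*} {M : Matroid α}

/-- **Chain lemma.**  A set spanned by `S` and by each `S \ {c, g c}`, `c ∈ Q`, has rank at most
`r(S) - |Q|`. -/
theorem chain [M.Finite] {S : Set α} (hS : S ⊆ M.E) (g : α → α) (Q : Finset α)
    (hQ : ∀ c ∈ Q, c ∈ S) (hg : ∀ c ∈ Q, g c ∉ Q)
    (hst : ∀ c ∈ Q, c ∉ M.closure (S \ {c, g c})) :
    ∀ F ⊆ M.closure S, (∀ c ∈ Q, F ⊆ M.closure (S \ {c, g c})) → rk M F + Q.card ≤ rk M S := by
  classical
  induction Q using Finset.induction_on with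
  | empty =>
    intro F hF _
    have h1 := rk_mono M hF
    rw [rk_closure] at h1
    simpa using h1
  | insert c Q hc ih =>
    intro F hF hFQ
    have hcS : c ∈ S := hQ c (Finset.mem_insert_self _ _)
    have h1 := ih (fun x hx => hQ x (Finset.mem_insert_of_mem hx))
      (fun x hx h => hg x (Finset.mem_insert_of_mem hx) (Finset.mem_insert_of_mem h))
      (fun x hx => hst x (Finset.mem_insert_of_mem hx)) (insert c F)
      (insert_subset (M.subset_closure S hS hcS) hF) ?_
    · have h2 : c ∉ M.closure F := by
        intro h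
        refine hst c (Finset.mem_insert_self _ _) ?_
        have h3 := M.closure_subset_closure_of_subset_closure
          (hFQ c (Finset.mem_insert_self _ _))
        exact h3 h
      have h3 := M.eRk_insert_eq_add_one (X := F) (e := c) ⟨hS hcS, h2⟩
      rw [← cast_rk, ← cast_rk] at h3
      have h4 : rk M (insert c F) = rk M F + 1 := by exact_mod_cast h3
      rw [Finset.card_insert_of_notMem hc]
      omega
    · intro x hx
      refine insert_subset ?_ (hFQ x (Finset.mem_insert_of_mem hx))
      refine M.subset_closure _ (sdiff_subset.trans hS) ⟨hcS, ?_⟩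
      rintro (h | h)
      · subst h; exact hc hx
      · have h' : c = g x := h
        exact hg x (Finset.mem_insert_of_mem hx) (h' ▸ Finset.mem_insert_self _ _)

end chain

section part

variable {α ι κ : Type*} [Fintype ι] [Fintype κ]

/-- The data of the partition lemma. -/
structure PartD (M : Matroid α) (S D : Set α) (K : Finset α) (π : α → ι) (root : ι → α)
    (cls : ι → κ) (G : κ → Set α) (n q r : ℕ) : Prop where
  S_sub : S ⊆ M.E
  D_cl : D ⊆ M.closure S
  K_sub : ∀ c ∈ K, c ∈ S
  /-- two kept elements of a pass are in series -/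
  star : ∀ c ∈ K, c ≠ root (π c) → c ∉ M.closure (S \ {c, root (π c)})
  root_mem : ∀ c ∈ K, root (π c) ∈ K
  root_pass : ∀ c ∈ K, π (root (π c)) = π c
  /-- the good elements of class `k` see only passes of class `k` -/
  good : ∀ k, G k ⊆ D
  sees : ∀ k, ∀ d ∈ G k, ∀ c ∈ K, cls (π c) ≠ k → c ≠ root (π c) →
    d ∈ M.closure (S \ {c, root (π c)})
  /-- (V1) one kept element of class `k` in each tile (minus the rank of the lift) -/
  V1 : ∀ k, ∃ I : Set α, I ⊆ {c | c ∈ K ∧ cls (π c) = k} ∧
    rk M (D ∪ (S \ (K : Set α))) + n ≤ rk M (I ∪ (D ∪ (S \ (K : Set α))))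
  /-- (V2) -/
  V2 : rk M S ≤ rk M (D ∪ (S \ (K : Set α))) + q
  /-- rank of the bad elements modulo the good ones -/
  bad : rk M (D ∪ (S \ (K : Set α))) ≤ rk M ((⋃ k, G k) ∪ (S \ (K : Set α))) + r

/-- submodularity for several sets -/
lemma rk_biUnion_le {α κ : Type*} (M : Matroid α) [M.Finite] (G : κ → Set α) (X : Set α)
    (T : Finset κ) :
    rk M ((⋃ k ∈ T, G k) ∪ X) + T.card * rk M X ≤ rk M X + ∑ k ∈ T, rk M (G k ∪ X) := by
  classical
  induction T using Finset.induction_on with
  | empty => simp
  | insert k T hk ih =>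
    have h1 := rk_submod M ((⋃ k ∈ T, G k) ∪ X) (G k ∪ X)
    have h2 : rk M X ≤ rk M (((⋃ k ∈ T, G k) ∪ X) ∩ (G k ∪ X)) :=
      rk_mono M fun x hx => ⟨Or.inr hx, Or.inr hx⟩
    have h3 : ((⋃ k ∈ T, G k) ∪ X) ∪ (G k ∪ X) = (⋃ k' ∈ insert k T, G k') ∪ X := by
      rw [Finset.set_biUnion_insert]
      ext x
      simp only [mem_union]
      tauto
    rw [h3] at h1
    rw [Finset.card_insert_of_notMem hk, Finset.sum_insert hk, Nat.add_mul, Nat.one_mul]
    omega

variable {M : Matroid α} {S D : Set α} {K : Finset α} {π : α → ι} {root : ι → α}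
  {cls : ι → κ} {G : κ → Set α} {n q r : ℕ}

/-- roots are few -/
lemma card_root (K : Finset α) (π : α → ι) (root : ι → α) (p : α → Prop) [DecidablePred p]
    [DecidableEq α] :
    (K.filter p).card ≤ (K.filter fun c => p c ∧ c ≠ root (π c)).card + Fintype.card ι := by
  classical
  have h1 : K.filter p ⊆ (K.filter fun c => p c ∧ c ≠ root (π c)) ∪
      Finset.univ.image root := by
    intro c hc
    rw [Finset.mem_filter] at hc
    rw [Finset.mem_union, Finset.mem_filter, Finset.mem_image]
    by_cases h : c = root (π c)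
    · exact Or.inr ⟨π c, Finset.mem_univ _, h.symm⟩
    · exact Or.inl ⟨hc.1, hc.2, h⟩
  have h2 : (Finset.univ.image root).card ≤ Fintype.card ι := by
    have := Finset.card_image_le (s := Finset.univ) (f := root)
    rwa [Finset.card_univ] at this
  exact (Finset.card_le_card h1).trans ((Finset.card_union_le _ _).trans (by omega))

/-- **PARTITION LEMMA.**  `(#classes) · n ≤ #columns + r_bad + (#classes + 1) · #passes`. -/
theorem PartD.le [M.Finite] (h : PartD M S D K π root cls G n q r) :
    Fintype.card κ * n ≤ q + r + (Fintype.card κ + 1) * Fintype.card ι := by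
  classical
  set X : Set α := S \ (K : Set α) with hX
  have hXE : X ⊆ M.E := sdiff_subset.trans h.S_sub
  have hKf : (K : Set α).Finite := K.finite_toSet
  -- the whole set of kept elements
  have hS1 : rk M S ≤ rk M X + K.card := by
    have h1 := rk_union_le M (X := X) hKf
    rw [Set.ncard_coe_finset] at h1
    refine le_trans (rk_mono M ?_) h1
    intro x hx
    by_cases hxK : x ∈ K
    · exact Or.inr hxK
    · exact Or.inl ⟨hx, hxK⟩
  have hg : ∀ (p : α → Prop) [DecidablePred p], ∀ c ∈ K.filter (fun c => p c ∧ c ≠ root (π c)),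
      root (π c) ∉ K.filter (fun c => p c ∧ c ≠ root (π c)) := by
    intro p _ c hc hc'
    rw [Finset.mem_filter] at hc hc'
    exact hc'.2.2 (by rw [h.root_pass c hc.1])
  have hXcl : ∀ c ∈ K, X ⊆ M.closure (S \ {c, root (π c)}) := by
    intro c hc x hx
    refine M.subset_closure _ (sdiff_subset.trans h.S_sub) ⟨hx.1, ?_⟩
    rintro (h1 | h1)
    · exact hx.2 (h1 ▸ hc)
    · have h1' : x = root (π c) := h1
      exact hx.2 (h1' ▸ h.root_mem c hc)
  have hXS : X ⊆ M.closure S := sdiff_subset.trans (M.subset_closure S h.S_sub)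
  -- (i)
  have hi : rk M X + K.card ≤ rk M S + Fintype.card ι := by
    have h1 := chain h.S_sub (fun c => root (π c))
      (K.filter fun c => True ∧ c ≠ root (π c))
      (fun c hc => h.K_sub c (Finset.mem_filter.1 hc).1) (hg _)
      (fun c hc => h.star c (Finset.mem_filter.1 hc).1 (Finset.mem_filter.1 hc).2.2) X hXS
      (fun c hc => hXcl c (Finset.mem_filter.1 hc).1)
    have h2 := card_root K π root (fun _ => True)
    rw [Finset.filter_true] at h2
    omega
  -- (ii)
  have hii : ∀ k, rk M (G k ∪ X) + n ≤
      rk M X + (K.filter fun c => cls (π c) = k).card + Fintype.card ι := by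
    intro k
    obtain ⟨I, hI, hI1⟩ := h.V1 k
    rw [← hX] at hI1
    have h1 := rk_submod M (I ∪ (G k ∪ X)) (D ∪ X)
    have h2 : rk M (G k ∪ X) ≤ rk M ((I ∪ (G k ∪ X)) ∩ (D ∪ X)) := by
      refine rk_mono M fun x hx => ⟨Or.inr hx, ?_⟩
      rcases hx with hx | hx
      · exact Or.inl (h.good k hx)
      · exact Or.inr hx
    have h3 : rk M (I ∪ (D ∪ X)) ≤ rk M ((I ∪ (G k ∪ X)) ∪ (D ∪ X)) := by
      refine rk_mono M fun x hx => ?_
      rcases hx with hx | hx
      · exact Or.inl (Or.inl hx)
      · exact Or.inr hx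
    have h4 := chain h.S_sub (fun c => root (π c))
      (K.filter fun c => cls (π c) ≠ k ∧ c ≠ root (π c))
      (fun c hc => h.K_sub c (Finset.mem_filter.1 hc).1) (hg _)
      (fun c hc => h.star c (Finset.mem_filter.1 hc).1 (Finset.mem_filter.1 hc).2.2)
      (I ∪ (G k ∪ X)) ?_ ?_
    · have h5 := card_root K π root (fun c => cls (π c) ≠ k)
      have h6 : (K.filter fun c => cls (π c) = k).card +
          (K.filter fun c => cls (π c) ≠ k).card = K.card :=
        Finset.card_filter_add_card_filter_not _
      omega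
    · refine union_subset (fun x hx => M.subset_closure S h.S_sub (h.K_sub x (hI hx).1))
        (union_subset ((h.good k).trans h.D_cl) hXS)
    · intro c hc
      rw [Finset.mem_filter] at hc
      refine union_subset (fun x hx => ?_) (union_subset (fun d hd => ?_) (hXcl c hc.1))
      · refine M.subset_closure _ (sdiff_subset.trans h.S_sub) ⟨h.K_sub x (hI hx).1, ?_⟩
        rintro (h5 | h5)
        · exact hc.2.1 (h5 ▸ (hI hx).2)
        · have h5' : x = root (π c) := h5
          apply hc.2.1
          rw [← h.root_pass c hc.1, ← h5']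
          exact (hI hx).2
      · exact h.sees k d hd c hc.1 hc.2.1 hc.2.2
  -- (iii)
  have hiii := rk_biUnion_le M G X Finset.univ
  have hU : (⋃ k ∈ (Finset.univ : Finset κ), G k) = ⋃ k, G k := by simp
  rw [hU, Finset.card_univ] at hiii
  have hsum : ∑ k, (K.filter fun c => cls (π c) = k).card = K.card := by
    rw [← Finset.card_eq_sum_card_fiberwise (f := fun c => cls (π c)) (t := Finset.univ)]
    intro x _
    simp
  have hs2 : ∑ k : κ, (rk M (G k ∪ X) + n) ≤
      ∑ k : κ, (rk M X + (K.filter fun c => cls (π c) = k).card + Fintype.card ι) :=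
    Finset.sum_le_sum fun k _ => hii k
  rw [Finset.sum_add_distrib, Finset.sum_add_distrib, Finset.sum_add_distrib, hsum,
    Finset.sum_const, Finset.sum_const, Finset.sum_const, Finset.card_univ, smul_eq_mul,
    smul_eq_mul, smul_eq_mul] at hs2
  have h7 := h.V2
  have h8 := h.bad
  rw [Nat.add_mul, Nat.one_mul]
  change rk M S ≤ rk M (D ∪ X) + q at h7
  change rk M (D ∪ X) ≤ rk M ((⋃ k, G k) ∪ X) + r at h8
  omega

end part

end CWL
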