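import Pool.Agent.CW.TDefs

/-!
# Row T1: contraction of a link, series extension (helper53)
-/

open Set BIC BICS
open scoped Matroid

namespace CWL

variable {α V V' : Type*} {M N : Matroid α} {R S : Set α} {ends : α → Sym2 V} {u u' : ℕ}

lemma BicU.mono (h : BicU M S ends u) (hu : u ≤ u') : BicU M S ends u' :=
  ⟨h.sub, h.ind, fun W => (h.rk W).trans (add_le_add le_rfl (by exact_mod_cast hu))⟩

lemma bicU_zero (h : Bic M S ends) : BicU M S ends 0 :=
  ⟨h.sub, h.ind, fun W => by simpa using h.rk W⟩

lemma BicU.bic (h : BicU M S ends 0) : Bic M S ends :=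
  ⟨h.sub, h.ind, fun W => by simpa using h.rk W⟩

lemma BicU.subset (h : BicU M S ends u) (hR : R ⊆ S) : BicU M R ends u :=
  ⟨hR.trans h.sub, fun F φ hF => h.ind F φ (hF.trans hR), fun W =>
    (M.eRk_mono (show ins R ends W ⊆ ins S ends W from fun _ he => ⟨hR he.1, he.2⟩)).trans
      (h.rk W)⟩

lemma BicU.rk_le [M.Finite] (h : BicU M S ends u) {W : Set V} (hW : W.Finite) {X : Set α}
    (hX : X ⊆ ins S ends W) : BIC.rk M X ≤ W.ncard + u := by
  have h1 := (M.eRk_mono hX).trans (h.rk W)
  rw [← cast_rk, ← hW.cast_ncard_eq] at h1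
  exact_mod_cast h1

lemma bicU_of_fin [M.Finite] (h1 : S ⊆ M.E)
    (h2 : ∀ (F : Set α) (φ : α → V), F ⊆ S → InjOn φ F → (∀ e ∈ F, φ e ∈ ends e) → M.Indep F)
    (h3 : ∀ W : Set V, W.Finite → BIC.rk M (ins S ends W) ≤ W.ncard + u) : BicU M S ends u := by
  refine ⟨h1, h2, fun W => ?_⟩
  rcases W.finite_or_infinite with hW | hW
  · rw [← cast_rk, ← hW.cast_ncard_eq]
    exact_mod_cast h3 W hW
  · rw [hW.encard_eq]
    simp

lemma BicU.of_rk [N.Finite] [M.Finite] (hB : BicU N S ends u) (hS : S ⊆ M.E)
    (h : ∀ X ⊆ S, BIC.rk M X = BIC.rk N X) : BicU M S ends u :=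
  ⟨hS, fun F φ hF h1 h2 => by
    refine indep_of_rk (hF.trans hS) ?_
    rw [h F hF, rk_indep (hB.ind F φ hF h1 h2)], fun W => by
    rw [← cast_rk, h _ (fun e he => he.1), cast_rk]
    exact hB.rk W⟩

/-- relabelling of the vertices -/
theorem BicU.map (hB : BicU N S ends u) (q : V → V')
    (hq : InjOn q {v | ∃ e ∈ S, v ∈ ends e}) : BicU N S (fun e => (ends e).map q) u where
  sub := hB.sub
  ind := by
    intro F φ hF h1 h2
    classical
    have H : ∀ e ∈ F, ∃ v, v ∈ ends e ∧ q v = φ e := by
      intro e he
      have h3 := h2 e he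
      simp only [Sym2.mem_map] at h3
      exact h3
    have hne : F = ∅ ∨ Nonempty V := by
      rcases F.eq_empty_or_nonempty with h | ⟨e, he⟩
      · exact Or.inl h
      · exact Or.inr ⟨(H e he).choose⟩
    rcases hne with rfl | hV
    · exact N.empty_indep
    · choose! ψ hψ using H
      refine hB.ind F ψ hF ?_ ?_
      · intro a ha b hb hab
        apply h1 ha hb
        rw [← (hψ a ha).2, ← (hψ b hb).2, hab]
      · intro e he
        exact (hψ e he).1
  rk := by
    intro W'
    set Vs : Set V := {v | ∃ e ∈ S, v ∈ ends e} with hVs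
    have h1 : ins S (fun e => (ends e).map q) W' ⊆ ins S ends (q ⁻¹' W' ∩ Vs) := by
      rintro e ⟨he, he'⟩
      refine ⟨he, fun v hv => ⟨?_, e, he, hv⟩⟩
      exact he' (q v) (Sym2.mem_map.2 ⟨v, hv, rfl⟩)
    refine (N.eRk_mono h1).trans ((hB.rk _).trans (add_le_add ?_ le_rfl))
    have h2 : InjOn q (q ⁻¹' W' ∩ Vs) := hq.mono inter_subset_right
    rw [← h2.encard_image]
    exact Set.encard_le_encard (by rintro _ ⟨v, hv, rfl⟩; exact hv.1)

/-- `ends` matters only on `S` -/
theorem BicU.congr (hB : BicU N S ends u) {ends' : α → Sym2 V}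
    (h : ∀ e ∈ S, ends' e = ends e) : BicU N S ends' u := by
  have hins : ∀ W, ins S ends' W = ins S ends W := by
    intro W
    ext e
    constructor
    · rintro ⟨h1, h2⟩
      exact ⟨h1, by rwa [← h e h1]⟩
    · rintro ⟨h1, h2⟩
      exact ⟨h1, by rwa [h e h1]⟩
  refine ⟨hB.sub, fun F φ hF h1 h2 => hB.ind F φ hF h1 fun e he => ?_, fun W => ?_⟩
  · rw [← h e (hF he)]
    exact h2 e he
  · rw [hins]
    exact hB.rk W

/-- **Contraction of a link.** -/
theorem BicU.contract [M.Finite] [DecidableEq V] (h : BicU M R ends u) {e : α} (he : e ∈ R)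
    {x y : V} (hxy : x ≠ y) (hends : ends e = s(x, y)) :
    BicU (M ／ {e}) (R \ {e}) (fun a => (ends a).map (fun v => if v = y then x else v)) u := by
  classical
  set m : V → V := fun v => if v = y then x else v with hm
  have hmy : m y = x := by simp [hm]
  have hmx : m x = x := by simp only [hm]; split_ifs <;> rfl
  have hmo : ∀ v, v ≠ y → m v = v := fun v hv => by simp only [hm, if_neg hv]
  have hI : M.Indep {e} := by
    refine h.ind {e} (fun _ => x) (by simpa using he) (by simp) ?_
    intro a ha
    rw [mem_singleton_iff.1 ha, hends]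
    exact Sym2.mem_mk_left _ _
  have hf : (M ／ {e}).Finite := BQ.fin_contract _
  have hRE : R \ {e} ⊆ (M ／ {e}).E := by
    rw [Matroid.contract_ground]
    exact sdiff_subset_sdiff_left h.sub
  refine bicU_of_fin hRE ?_ ?_
  · intro F φ hF hφ hφe
    rw [hI.contract_indep_iff]
    have heF : e ∉ F := fun h' => (hF h').2 rfl
    refine ⟨disjoint_singleton_right.2 heF, ?_⟩
    have H : ∀ a ∈ F, ∃ w, w ∈ ends a ∧ m w = φ a := by
      intro a ha
      have h1 := hφe a ha
      rw [Sym2.mem_map] at h1
      exact h1
    have : Nonempty V := ⟨x⟩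
    choose! w hw1 hw2 using H
    set ψ : α → V := fun b => if b = e then (if ∃ a ∈ F, w a = x then y else x) else w b with hψ
    have hψe : ψ e = if ∃ a ∈ F, w a = x then y else x := by simp [hψ]
    have hψF : ∀ a ∈ F, ψ a = w a := by
      intro a ha
      have : a ≠ e := fun h' => heF (h' ▸ ha)
      simp [hψ, this]
    have hwinj : InjOn w F := by
      intro a ha b hb hab
      apply hφ ha hb
      rw [← hw2 a ha, ← hw2 b hb, hab]
    have hne : ∀ a ∈ F, ψ e ≠ w a := by
      intro a ha hab
      rw [hψe] at hab
      split_ifs at hab with h1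
      · obtain ⟨b, hb, hbx⟩ := h1
        have h2 : φ a = φ b := by rw [← hw2 a ha, ← hw2 b hb, hbx, ← hab, hmy, hmx]
        have h3 := hφ ha hb h2
        subst h3
        exact hxy (hbx ▸ hab.symm ▸ rfl)
      · exact h1 ⟨a, ha, hab.symm⟩
    refine h.ind _ ψ ?_ ?_ ?_
    · exact union_subset (hF.trans sdiff_subset) (by simpa using he)
    · rintro a (ha | ha) b (hb | hb) hab
      · rw [hψF a ha, hψF b hb] at hab
        exact hwinj ha hb hab
      · rw [hψF a ha, mem_singleton_iff.1 hb] at hab
        exact absurd hab.symm (hne a ha)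
      · rw [hψF b hb, mem_singleton_iff.1 ha] at hab
        exact absurd hab (hne b hb)
      · rw [mem_singleton_iff.1 ha, mem_singleton_iff.1 hb]
    · rintro a (ha | ha)
      · rw [hψF a ha]
        exact hw1 a ha
      · rw [mem_singleton_iff.1 ha, hψe, hends]
        split_ifs
        · exact Sym2.mem_mk_right _ _
        · exact Sym2.mem_mk_left _ _
  · intro W hW
    have hXE : ∀ X : Set α, X ⊆ R \ {e} → BIC.rk (M ／ {e}) X + 1 = BIC.rk M (X ∪ {e}) := by
      intro X hX
      rw [← rk_contract_set (singleton_subset_iff.2 (h.sub he)) (hX.trans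
        (sdiff_subset_sdiff_left h.sub)), rk_indep hI, ncard_singleton]
    set X := ins (R \ {e}) (fun a => (ends a).map m) W with hX
    have hX1 := hXE X (fun a ha => ha.1)
    by_cases hxW : x ∈ W
    · have h1 : X ∪ {e} ⊆ ins R ends (insert y W) := by
        rintro a (ha | ha)
        · refine ⟨ha.1.1, fun v hv => ?_⟩
          have h2 := ha.2 (m v) (Sym2.mem_map.2 ⟨v, hv, rfl⟩)
          by_cases hvy : v = y
          · exact Or.inl hvy
          · rw [hmo v hvy] at h2
            exact Or.inr h2
        · rw [mem_singleton_iff.1 ha]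
          refine ⟨he, fun v hv => ?_⟩
          rw [hends] at hv
          rcases Sym2.mem_iff.1 hv with rfl | rfl
          · exact Or.inr hxW
          · exact Or.inl rfl
      have h2 := h.rk_le (hW.insert y) h1
      have h3 := Set.ncard_insert_le y W
      omega
    · have h1 : X ⊆ ins R ends W := by
        rintro a ha
        refine ⟨ha.1.1, fun v hv => ?_⟩
        have h2 := ha.2 (m v) (Sym2.mem_map.2 ⟨v, hv, rfl⟩)
        by_cases hvy : v = y
        · rw [hvy, hmy] at h2
          exact absurd h2 hxW
        · rwa [hmo v hvy] at h2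
      have h2 := h.rk_le hW h1
      have h3 := rk_union_le M (X := X) (finite_singleton e)
      rw [ncard_singleton] at h3
      omega

/-- **Series extension.** -/
theorem BicU.series [M.Finite] {c r : α} {x y : V} {g : V → V'} {z : V'}
    {ends' : α → Sym2 V'} (h : BicU (M ／ {c}) R ends u) (hcE : c ∈ M.E) (hcR : c ∉ R)
    (hrR : r ∈ R) (hr : ends r = s(x, y)) (hc : c ∈ M.closure R) (hcr : c ∉ M.closure (R \ {r}))
    (hg : Function.Injective g) (hz : z ∉ range g) (hec : ends' c = s(g x, z))
    (her : ends' r = s(z, g y)) (he : ∀ e ∈ R, e ≠ r → ends' e = (ends e).map g) :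
    BicU M (insert c R) ends' u := by
  classical
  have hRE : R ⊆ M.E \ {c} := h.sub
  have hnl : M.Indep {c} := by
    rw [Matroid.indep_singleton]
    refine ⟨fun hl => hcr (hl.mem_closure _), hcE⟩
  have hf : (M ／ {c}).Finite := BQ.fin_contract _
  have K1 : ∀ F ⊆ R, (M ／ {c}).Indep F → M.Indep (insert c F) := by
    intro F _ hF
    rw [hnl.contract_indep_iff] at hF
    have := hF.2
    rwa [union_singleton] at this
  have hrr : r ∉ M.closure (R \ {r}) := by
    intro h1
    apply hcr
    have h2 : M.closure R = M.closure (R \ {r}) := by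
      have h3 : R = insert r (R \ {r}) := by
        rw [insert_sdiff_singleton, insert_eq_of_mem hrR]
      conv_lhs => rw [h3]
      exact Matroid.closure_insert_eq_of_mem_closure h1
    rw [← h2]
    exact hc
  have hcr' : c ≠ r := fun h' => hcR (h' ▸ hrR)
  have hgz : ∀ v, g v ≠ z := fun v hv => hz ⟨v, hv⟩
  have hne : Nonempty V := ⟨x⟩
  -- rank in the contraction
  have hrk1 : ∀ X ⊆ R, BIC.rk (M ／ {c}) X + 1 = BIC.rk M (insert c X) := by
    intro X hX
    rw [← union_singleton, ← rk_contract_set (singleton_subset_iff.2 hcE) (hX.trans hRE),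
      rk_indep hnl, ncard_singleton]
  have hrk2 : ∀ X ⊆ R \ {r}, BIC.rk (M ／ {c}) X = BIC.rk M X := by
    intro X hX
    have h1 := hrk1 X (hX.trans sdiff_subset)
    have h2 : c ∉ M.closure X := fun h' => hcr (M.closure_subset_closure hX h')
    have h3 := M.eRk_insert_eq_add_one (e := c) (X := X) ⟨hcE, h2⟩
    rw [← cast_rk, ← cast_rk] at h3
    have h4 : BIC.rk M (insert c X) = BIC.rk M X + 1 := by exact_mod_cast h3
    omega
  refine bicU_of_fin (insert_subset hcE (hRE.trans sdiff_subset)) ?_ ?_
  · intro F φ hF hφ hφe
    -- choices for the old elements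
    have H : ∀ e, e ∈ F → e ∈ R → e ≠ r → ∃ w, w ∈ ends e ∧ g w = φ e := by
      intro e h1 h2 h3
      have h4 := hφe e h1
      rw [he e h2 h3, Sym2.mem_map] at h4
      exact h4
    choose! w hw1 hw2 using H
    by_cases hcF : c ∈ F
    · -- `c ∈ F`
      set F₀ := F \ {c} with hF₀
      have hF₀R : F₀ ⊆ R := by
        rintro e ⟨h1, h2⟩
        exact (hF h1).resolve_left h2
      have hins : insert c F₀ = F := by rw [hF₀, insert_sdiff_singleton, insert_eq_of_mem hcF]
      rw [← hins]
      apply K1 _ hF₀R
      set ψ : α → V := fun b => if b = r then (if φ r = z then x else y) else w b with hψ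
      refine h.ind F₀ ψ hF₀R ?_ ?_
      · have key : ∀ b ∈ F₀, b ≠ r → r ∈ F₀ → ψ b ≠ ψ r := by
          intro b hb hbr hr0 hbe
          simp only [hψ, if_neg hbr, if_true] at hbe
          split_ifs at hbe with h1
          · -- `φ r = z`, so `φ c = g x`
            have h2 : φ c = g x := by
              have h3 := hφe c hcF
              rw [hec, Sym2.mem_iff] at h3
              rcases h3 with h3 | h3
              · exact h3
              · exact absurd (hφ hcF hr0.1 (h3.trans h1.symm)) hcr'
            have h4 := hw2 b hb.1 (hF₀R hb) hbr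
            rw [hbe] at h4
            exact hb.2 (hφ hb.1 hcF (h4.symm.trans h2.symm))
          · have h2 : φ r = g y := by
              have h3 := hφe r hr0.1
              rw [her, Sym2.mem_iff] at h3
              rcases h3 with h3 | h3
              · exact absurd h3 h1
              · exact h3
            have h4 := hw2 b hb.1 (hF₀R hb) hbr
            rw [hbe] at h4
            exact hbr (hφ hb.1 hr0.1 (h4.symm.trans h2.symm))
        intro a ha b hb hab
        by_cases har : a = r
        · by_cases hbr : b = r
          · rw [har, hbr]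
          · subst har
            exact absurd hab.symm (key b hb hbr ha)
        · by_cases hbr : b = r
          · subst hbr
            exact absurd hab (key a ha har hb)
          · simp only [hψ, if_neg har, if_neg hbr] at hab
            apply hφ ha.1 hb.1
            rw [← hw2 a ha.1 (hF₀R ha) har, ← hw2 b hb.1 (hF₀R hb) hbr, hab]
      · intro b hb
        by_cases hbr : b = r
        · simp only [hψ, if_pos hbr]
          rw [hbr, hr]
          split_ifs
          · exact Sym2.mem_mk_left _ _
          · exact Sym2.mem_mk_right _ _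
        · simp only [hψ, if_neg hbr]
          exact hw1 b hb.1 (hF₀R hb) hbr
    · have hFR : F ⊆ R := by
        intro e h1
        rcases hF h1 with h2 | h2
        · exact absurd (h2 ▸ h1) hcF
        · exact h2
      by_cases hrz : r ∈ F ∧ φ r = z
      · -- `r` is attached at the new vertex
        obtain ⟨hrF, hrz⟩ := hrz
        have h1 : (M ／ {c}).Indep (F \ {r}) := by
          refine h.ind _ w (sdiff_subset.trans hFR) ?_ ?_
          · intro a ha b hb hab
            apply hφ ha.1 hb.1
            rw [← hw2 a ha.1 (hFR ha.1) ha.2, ← hw2 b hb.1 (hFR hb.1) hb.2, hab]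
          · intro a ha
            exact hw1 a ha.1 (hFR ha.1) ha.2
        have h2 : M.Indep (F \ {r}) :=
          (K1 _ (sdiff_subset.trans hFR) h1).subset (subset_insert _ _)
        have h3 : F = insert r (F \ {r}) := by
          rw [insert_sdiff_singleton, insert_eq_of_mem hrF]
        rw [h3, h2.insert_indep_iff_of_notMem (fun h' => h'.2 rfl)]
        exact ⟨(hRE hrR).1, fun h' => hrr (M.closure_subset_closure
          (sdiff_subset_sdiff_left hFR) h')⟩
      · have hry : r ∈ F → φ r = g y := by
          intro h1
          have h3 := hφe r h1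
          rw [her, Sym2.mem_iff] at h3
          rcases h3 with h3 | h3
          · exact absurd ⟨h1, h3⟩ hrz
          · exact h3
        set ψ : α → V := fun b => if b = r then y else w b with hψ
        have hψφ : ∀ b ∈ F, g (ψ b) = φ b := by
          intro b hb
          by_cases hbr : b = r
          · simp only [hψ, if_pos hbr]
            rw [hbr] at hb ⊢
            exact (hry hb).symm
          · simp only [hψ, if_neg hbr]
            exact hw2 b hb (hFR hb) hbr
        refine (K1 F hFR (h.ind F ψ hFR ?_ ?_)).subset (subset_insert _ _)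
        · intro a ha b hb hab
          apply hφ ha hb
          rw [← hψφ a ha, ← hψφ b hb, hab]
        · intro b hb
          by_cases hbr : b = r
          · simp only [hψ, if_pos hbr]
            rw [hbr, hr]
            exact Sym2.mem_mk_right _ _
          · simp only [hψ, if_neg hbr]
            exact hw1 b hb (hFR hb) hbr
  · intro W' hW'
    set W : Set V := g ⁻¹' W' with hW
    have hWf : W.Finite := hW'.preimage hg.injOn
    have hWimg : g '' W ⊆ W' \ {z} := by
      rintro _ ⟨v, hv, rfl⟩
      exact ⟨hv, hgz v⟩
    have hWc : W.ncard ≤ (W' \ {z}).ncard := by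
      rw [← Set.ncard_image_of_injective W hg]
      exact Set.ncard_le_ncard hWimg (hW'.subset sdiff_subset)
    set F := ins (insert c R) ends' W' with hF
    -- old elements different from `r`
    have hold : ∀ e ∈ F, e ≠ c → e ≠ r → e ∈ ins (R \ {r}) ends W := by
      rintro e ⟨h1, h2⟩ h3 h4
      have h5 : e ∈ R := h1.resolve_left h3
      refine ⟨⟨h5, h4⟩, fun v hv => ?_⟩
      apply h2
      rw [he e h5 h4]
      exact Sym2.mem_map.2 ⟨v, hv, rfl⟩
    have hcz : c ∈ F → z ∈ W' ∧ x ∈ W := by
      rintro ⟨_, h2⟩
      rw [hec] at h2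
      exact ⟨h2 _ (Sym2.mem_mk_right _ _), h2 _ (Sym2.mem_mk_left _ _)⟩
    have hrz : r ∈ F → z ∈ W' ∧ y ∈ W := by
      rintro ⟨_, h2⟩
      rw [her] at h2
      exact ⟨h2 _ (Sym2.mem_mk_left _ _), h2 _ (Sym2.mem_mk_right _ _)⟩
    have hrk0 : BIC.rk M (ins (R \ {r}) ends W) ≤ W.ncard + u := by
      rw [← hrk2 _ (fun e he => he.1)]
      exact h.rk_le hWf (fun e he => ⟨he.1.1, he.2⟩)
    by_cases hzW : z ∈ W'
    · have hcard : W'.ncard = (W' \ {z}).ncard + 1 :=
        (Set.ncard_sdiff_singleton_add_one hzW hW').symm
      by_cases hboth : x ∈ W ∧ y ∈ W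
      · have h1 : F ⊆ insert c (ins R ends W) := by
          intro e heF
          by_cases hec' : e = c
          · exact Or.inl hec'
          · right
            by_cases her' : e = r
            · rw [her']
              refine ⟨hrR, fun v hv => ?_⟩
              rw [hr] at hv
              rcases Sym2.mem_iff.1 hv with rfl | rfl
              · exact hboth.1
              · exact hboth.2
            · have := hold e heF hec' her'
              exact ⟨this.1.1, this.2⟩
        have h2 := rk_mono M h1
        have h3 := hrk1 (ins R ends W) (fun e he => he.1)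
        have h4 := h.rk_le hWf (X := ins R ends W) subset_rfl
        omega
      · have h1 : ∃ a : α, F ⊆ ins (R \ {r}) ends W ∪ {a} := by
          by_cases hxW : x ∈ W
          · have hyW : y ∉ W := fun h' => hboth ⟨hxW, h'⟩
            refine ⟨c, fun e heF => ?_⟩
            by_cases hec' : e = c
            · exact Or.inr hec'
            · left
              refine hold e heF hec' fun h' => ?_
              subst h'
              exact hyW (hrz heF).2
          · refine ⟨r, fun e heF => ?_⟩
            by_cases her' : e = r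
            · exact Or.inr her'
            · left
              refine hold e heF (fun h' => ?_) her'
              subst h'
              exact hxW (hcz heF).2
        obtain ⟨a, h1⟩ := h1
        have h2 := rk_mono M h1
        have h3 := rk_union_le M (X := ins (R \ {r}) ends W) (finite_singleton a)
        rw [ncard_singleton] at h3
        omega
    · have h1 : F ⊆ ins (R \ {r}) ends W := by
        intro e heF
        refine hold e heF (fun h' => ?_) (fun h' => ?_)
        · subst h'
          exact hzW (hcz heF).1
        · subst h'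
          exact hzW (hrz heF).1
      have h2 := rk_mono M h1
      have h3 : (W' \ {z}).ncard ≤ W'.ncard := Set.ncard_le_ncard sdiff_subset hW'
      omega

end CWL
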