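import Pool.Agent.CW.TDefs
import Pool.Agent.CW.Series
import Pool.Agent.GL.Loc

/-!
# Clean walls for other patterns: subgraphs, contraction of series elements, loops as spokes

`GWall M C B R e ends`: one element `e r` for every edge `r ∈ R` of a graph with ends `ends`
(loops are half-edges = spokes), `(M ／ C) | e '' R` is its bicircular matroid, and every
`c ∈ C \ B` is visible through at most one edge.
-/

open Set BIC BICS
open scoped Matroid

namespace CWL

universe u

structure GWall {α ρ V : Type*} (M : Matroid α) (C B : Set α) (R : Set ρ) (e : ρ → α)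
    (ends : α → Sym2 V) : Prop where
  ind : M.Indep C
  inj : InjOn e R
  sub : e '' R ⊆ M.E \ C
  bic : Bic (M ／ C) (e '' R) ends
  BC : B ⊆ C
  loc : ∀ c ∈ C \ B, ¬ Vis M C B (e '' R) c ∨ ∃ s ∈ R, ¬ Vis M C B (e '' (R \ {s})) c

lemma CWall.gwall {α : Type*} {M : Matroid α} {C B : Set α} {e : Bool × ℕ × ℕ → α}
    {ends : α → Sym2 (ℕ × ℕ)} {y : ℕ} (h : CWall M C B e ends y) :
    GWall M C B (Seg y) e ends :=
  ⟨h.ind, h.inj, h.sub, h.bic, h.BC, h.loc⟩

section

variable {α ρ V V' : Type*} {M : Matroid α} {C B : Set α} {R R' : Set ρ} {e : ρ → α}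
  {ends : α → Sym2 V}

lemma Vis.mono' {X Y : Set α} {c : α} (h : X ⊆ Y) (hv : Vis M C B X c) : Vis M C B Y c :=
  M.closure_subset_closure (union_subset_union_left _ h) hv

/-- deletion of edges -/
theorem GWall.subset (h : GWall M C B R e ends) (hR : R' ⊆ R) : GWall M C B R' e ends := by
  refine ⟨h.ind, h.inj.mono hR, (image_mono hR).trans h.sub, Bic_sub h.bic (image_mono hR), h.BC,
    fun c hc => ?_⟩
  rcases h.loc c hc with h1 | ⟨s, hs, h1⟩
  · exact Or.inl fun hv => h1 (hv.mono' (image_mono hR))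
  · by_cases hsR : s ∈ R'
    · exact Or.inr ⟨s, hsR, fun hv => h1 (hv.mono' (image_mono (sdiff_subset_sdiff_left hR)))⟩
    · refine Or.inl fun hv => h1 (hv.mono' (image_mono fun r hr => ⟨hR hr, fun hrs => ?_⟩))
      exact hsR ((mem_singleton_iff.1 hrs) ▸ hr)

/-- A pendant element does not change visibility. -/
lemma pendV {T : Set α} (hT : T ⊆ M.E \ C) (hB : Bic (M ／ C) T ends) (hBC : B ⊆ C) {c : α}
    (hc : c ∈ C \ B) {X : Set α} {f : α} (he : f ∈ T) {v : V} (hv : v ∈ ends f) (hX : X ⊆ T)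
    (hXv : ∀ g ∈ X, v ∉ ends g) (h : Vis M C B (insert f X) c) : Vis M C B X c := by
  by_contra hn
  unfold Vis at h hn
  rw [insert_union] at h
  have h1 := (M.closure_exchange ⟨h, hn⟩).1
  have h2 : insert c (X ∪ (C \ insert c B)) ⊆ X ∪ C := by
    rintro x (rfl | hx | hx)
    · exact Or.inr hc.1
    · exact Or.inl hx
    · exact Or.inr hx.1
  have h3 := M.closure_subset_closure h2 h1
  refine Gad.not_mem_Hx' hB he hv ?_
  unfold Gad.Hx
  rw [Matroid.contract_closure_eq]
  refine ⟨M.closure_subset_closure (union_subset_union_left _ ?_) h3, (hT he).2⟩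
  intro f hf
  refine ⟨hX hf, fun w hw hwv => ?_⟩
  rw [mem_singleton_iff] at hwv
  rw [hwv] at hw
  exact hXv f hf hw

lemma vis_contract {X : Set α} {c f : α} (hf : f ∉ C) (hc : c ∈ C) :
    Vis (M ／ {f}) C B X c ↔ Vis M C B (insert f X) c := by
  unfold Vis
  rw [Matroid.contract_closure_eq]
  have h1 : X ∪ (C \ insert c B) ∪ {f} = insert f X ∪ (C \ insert c B) := by
    ext x
    simp only [mem_union, mem_insert_iff, mem_singleton_iff]
    tauto
  rw [h1]
  constructor
  · exact fun h => h.1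
  · exact fun h => ⟨h, fun h' => hf ((mem_singleton_iff.1 h') ▸ hc)⟩

/-- **Contraction of a series element.** The vertex `x` is an end of `q` and, apart from `q`, only
of `r`; contract `q` (identify `x` and `z`). -/
theorem GWall.contract [M.Finite] [DecidableEq V] (h : GWall M C B R e ends) {q r : ρ} (hq : q ∈ R)
    (hr : r ∈ R) (hqr : q ≠ r) {x z : V} (hxz : z ≠ x) (hends : ends (e q) = s(z, x))
    (hx : ∀ s ∈ R, x ∈ ends (e s) → s = q ∨ s = r) :
    GWall (M ／ {e q}) C B (R \ {q}) e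
      (fun a => (ends a).map (fun v => if v = x then z else v)) := by
  have hqE : e q ∈ M.E \ C := h.sub ⟨q, hq, rfl⟩
  have hCf : C ⊆ M.E := h.ind.subset_ground
  have hfin := BQ.fin_contract (M := M) C
  -- images
  have him : e '' (R \ {q}) = e '' R \ {e q} := by
    ext a
    constructor
    · rintro ⟨s, ⟨hs, hsq⟩, rfl⟩
      refine ⟨⟨s, hs, rfl⟩, fun h' => hsq ?_⟩
      exact h.inj hs hq (mem_singleton_iff.1 h')
    · rintro ⟨⟨s, hs, rfl⟩, hne⟩
      exact ⟨s, ⟨hs, fun h' => hne (by rw [mem_singleton_iff.1 h']; rfl)⟩, rfl⟩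
  -- `e q` is independent in `M ／ C`
  have hI : (M ／ C).Indep {e q} := by
    refine h.bic.ind {e q} (fun _ => x) (by simpa using ⟨q, hq, rfl⟩) (by simp) ?_
    intro a ha
    rw [mem_singleton_iff.1 ha, hends]
    exact Sym2.mem_mk_right _ _
  have hI2 : M.Indep ({e q} ∪ C) := (h.ind.contract_indep_iff.1 hI).2
  have hIq : M.Indep {e q} := hI2.subset subset_union_left
  have hcc : M ／ {e q} ／ C = M ／ C ／ {e q} := by
    rw [Matroid.contract_contract, Matroid.contract_contract, union_comm]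
  refine ⟨?_, h.inj.mono sdiff_subset, ?_, ?_, h.BC, ?_⟩
  · rw [hIq.contract_indep_iff]
    refine ⟨?_, ?_⟩
    · rw [disjoint_singleton_right]
      exact hqE.2
    · rw [union_comm]
      exact hI2
  · rw [him, Matroid.contract_ground]
    rintro a ⟨ha, ha'⟩
    exact ⟨⟨(h.sub ha).1, ha'⟩, (h.sub ha).2⟩
  · rw [hcc, him]
    exact ((bicU_zero h.bic).contract (e := e q) ⟨q, hq, rfl⟩ hxz hends).bic
  · intro c hc
    have hne : ∀ s, e '' (R \ {s}) = e '' (R \ {s}) := fun _ => rfl
    rcases h.loc c hc with h1 | ⟨s, hs, h1⟩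
    · left
      rw [vis_contract hqE.2 hc.1]
      intro hv
      refine h1 (hv.mono' ?_)
      rintro a (rfl | ⟨s, hs, rfl⟩)
      · exact ⟨q, hq, rfl⟩
      · exact ⟨s, hs.1, rfl⟩
    · by_cases hsq : s = q
      · subst hsq
        refine Or.inr ⟨r, ⟨hr, fun h' => hqr (mem_singleton_iff.1 h').symm⟩, ?_⟩
        rw [vis_contract hqE.2 hc.1]
        intro hv
        apply h1
        refine (pendV (T := e '' R) h.sub h.bic h.BC hc (f := e s) (v := x) ⟨s, hs, rfl⟩ (by
          rw [hends]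
          exact Sym2.mem_mk_right _ _) ?_ ?_ hv).mono' ?_
        · rintro _ ⟨s', hs', rfl⟩
          exact ⟨s', hs'.1.1, rfl⟩
        · rintro _ ⟨s', hs', rfl⟩ hxs
          rcases hx s' hs'.1.1 hxs with h2 | h2
          · exact hs'.1.2 h2
          · exact hs'.2 h2
        · rintro _ ⟨s', hs', rfl⟩
          exact ⟨s', ⟨hs'.1.1, hs'.1.2⟩, rfl⟩
      · refine Or.inr ⟨s, ⟨hs, fun h' => hsq (mem_singleton_iff.1 h')⟩, ?_⟩
        rw [vis_contract hqE.2 hc.1]
        intro hv
        refine h1 (hv.mono' ?_)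
        rintro a (rfl | ⟨s', hs', rfl⟩)
        · exact ⟨q, ⟨hq, fun h' => hsq (mem_singleton_iff.1 h').symm⟩, rfl⟩
        · exact ⟨s', ⟨hs'.1.1, hs'.2⟩, rfl⟩

end

end CWL
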