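import Pool.Agent.CW.Alpha
import Pool.Agent.CW.Link
import Pool.Agent.CW.A1

/-!
# RELINK: the anchors of the rows can be changed (helper34, for MP_5165fa_co)

`relink`: if the anchors of the rows are linked to `R₂`, then so is every other choice of one element
of each row.
-/

open Set BIC
open scoped Matroid

namespace CWL

open BICS

universe u

/-- **RELINK.** -/
theorem relink (k : ℕ) (hk : 1 ≤ k) (t : ℕ) : ∃ T : ℕ, t ≤ T ∧ ∀ κ s₀ : ℕ, ∃ s₀' w₀ : ℕ,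
    ∀ w ≥ w₀, ∀ {α : Type u} (M : Matroid α) [M.Finite] (L : Bool × ℕ × ℕ → List α)
    (f : α → Sym2 ((ℕ × ℕ) ⊕ α)) (e a : Bool × ℕ × ℕ → α) (u : ℕ) (R₂ : Set α), u ≤ κ →
    GSide M (Seg w) L f e u → Linked M T s₀ (e '' Seg w) R₂ → (∀ r ∈ Seg w, a r ∈ L r) →
    Disjoint (a '' Seg w) R₂ → HasUniformMinor M k ∨ Linked M t s₀' (a '' Seg w) R₂ := by
  classical
  obtain ⟨K₀, hK⟩ := link.{u} k hk
  obtain ⟨K, hKd⟩ : ∃ K, K = max K₀ t := ⟨_, rfl⟩
  obtain ⟨sL, hsL⟩ := hK K (by omega)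
  refine ⟨K + 1, by omega, fun κ s₀ => ?_⟩
  obtain ⟨c, hc⟩ := alpha.{u} κ K
  obtain ⟨w₀, hw₀⟩ := hc s₀
  refine ⟨sL + s₀ + c + 2, w₀, ?_⟩
  intro w hw α M _ L f e a u R₂ hu hS hlink ha hdj
  by_cases hU : HasUniformMinor M k
  · exact Or.inl hU
  right
  intro X hX R hR Q hQ C D s₁ hs₁ s₂ hs₂ hRX hQX hC hD hP₁ hP₂
  have hfX : X.Finite := ⟨M.ground_finite.subset hX.subset⟩
  have hf1 : (X ／ C).Finite := BQ.fin_contract C
  have hRc := pgrid_ncard hP₁ (by omega)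
  -- the linking in `M`
  have hKM : KGe M R Q (K + 1) := by
    intro Y hRY hYQ
    by_contra hlt
    obtain ⟨A, B, hA, hB, hAB, hXe⟩ := hX.exists_eq_contract_delete_disjoint
    have hQM : Q ⊆ M.E := hQX.trans hX.subset
    have eXd : M✶ ／ B ＼ A = X✶ := by
      rw [hXe, Matroid.dual_delete (M := M ／ A), Matroid.dual_contract (M := M),
        Matroid.contract_delete_comm _ hAB.symm]
    have hfd : M✶.Finite := inferInstance
    have p2 : PGrid (M✶ ／ (B ∪ D)) Q s₂ := by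
      refine pgrid_lift (M := M✶) (D := A) ?_ ?_ ?_
      · rw [eXd]; exact hD
      · rw [eXd]; exact hQX
      · rw [eXd]; exact hP₂
    have hBD : B ∪ D ⊆ M.E \ Q := by
      rintro z (hz | hz)
      · refine ⟨hB hz, fun h => ?_⟩
        have h2 := hQX h
        rw [hXe] at h2
        exact h2.2 hz
      · exact ⟨hX.subset (hD hz).1, (hD hz).2⟩
    have h1 := hw₀ w hw (K + 1) (by omega) M L f e u R₂ Q (B ∪ D) s₂ hu (by omega) hS hlink hQ hQM
      hBD p2 Y (hYQ.trans sdiff_subset) (Set.disjoint_left.2 fun z hz hz' => (hYQ hz).2 hz')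
      (by omega)
    have h2 : R.ncard ≤ {r ∈ Seg w | ∃ x ∈ L r, x ∈ Y}.ncard := by
      have h3 : R ⊆ a '' {r ∈ Seg w | ∃ x ∈ L r, x ∈ Y} := by
        intro z hz
        obtain ⟨r, hr, rfl⟩ := hR hz
        exact ⟨r, ⟨hr, a r, ha r hr, hRY hz⟩, rfl⟩
      have hf : {r ∈ Seg w | ∃ x ∈ L r, x ∈ Y}.Finite := (seg_finite w).subset fun r hr => hr.1
      exact (Set.ncard_le_ncard h3 (hf.image _)).trans (Set.ncard_image_le hf)
    have h4 : s₁ ≤ s₁ * s₁ := Nat.le_mul_self s₁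
    omega
  rcases hsL s₁ (by omega) s₂ (by omega) M X R Q C D hX hRX hQX (hdj.mono hR hQ) hC hD hP₁ hP₂ hKM
    with h | h
  · exact absurd h hU
  · exact BQ.KGe.mono_n h (by omega)

end CWL
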