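import Pool.Agent.TST.Reps
import Pool.Agent.CW.Alpha

/-!
# Representatives of the rows, for any finite family of rows
-/

open Set BIC BICS
open scoped Matroid

namespace CWL

open TST

/-- `SubWall` for a family `Sg` of segments -/
structure SubW {α : Type*} (R : Set α) (ends : α → Sym2 ((ℕ × ℕ) ⊕ α))
    (L : Bool × ℕ × ℕ → List α) (Sg : Set (Bool × ℕ × ℕ)) : Prop where
  ne : ∀ s ∈ Sg, L s ≠ []
  nodup : ∀ s ∈ Sg, (L s).Nodup
  disj : ∀ s ∈ Sg, ∀ s' ∈ Sg, s ≠ s' → (L s).Disjoint (L s')
  mem : ∀ x, x ∈ R ↔ ∃ s ∈ Sg, x ∈ L s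
  end_eq : ∀ s ∈ Sg, ∀ (i : ℕ) (h : i < (L s).length),
    ends ((L s)[i]) = s(node s (L s) i, node s (L s) (i + 1))

variable {α : Type*} {M : Matroid α} {R : Set α} {ends : α → Sym2 ((ℕ × ℕ) ⊕ α)}
  {L L' : Bool × ℕ × ℕ → List α} {Sg : Set (Bool × ℕ × ℕ)} {u : ℕ}

/-- only the lists of the segments matter -/
lemma subW_congr (hW : SubW R ends L Sg) (h : ∀ s ∈ Sg, L' s = L s) :
    SubW R ends L' Sg := by
  constructor
  · intro s hs; rw [h s hs]; exact hW.ne s hs
  · intro s hs; rw [h s hs]; exact hW.nodup s hs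
  · intro s hs s' hs' hne; rw [h s hs, h s' hs']; exact hW.disj s hs s' hs' hne
  · intro x
    rw [hW.mem x]
    constructor
    · rintro ⟨s, hs, hx⟩
      exact ⟨s, hs, by rw [h s hs]; exact hx⟩
    · rintro ⟨s, hs, hx⟩
      exact ⟨s, hs, by rw [← h s hs]; exact hx⟩
  · intro s hs i hi
    have h1 := h s hs
    have h2 : i < (L s).length := by rw [← h1]; exact hi
    have h3 := hW.end_eq s hs i h2
    simp only [h1]
    exact h3

/-- relabelling by a permutation of the elements -/
lemma subW_map (hW : SubW R ends L Sg) (σ : Equiv.Perm α) :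
    SubW (σ '' R) (fun e => (ends (σ.symm e)).map (Sum.map id σ)) (fun s => (L s).map σ) Sg := by
  constructor
  · intro s hs h
    exact hW.ne s hs (List.map_eq_nil_iff.1 h)
  · intro s hs
    exact (hW.nodup s hs).map σ.injective
  · intro s hs s' hs' hne
    have h1 := hW.disj s hs s' hs' hne
    intro x hx hx'
    simp only [List.mem_map] at hx hx'
    obtain ⟨a, ha, rfl⟩ := hx
    obtain ⟨b, hb, hab⟩ := hx'
    have := σ.injective hab
    subst this
    exact h1 ha hb
  · intro x
    constructor
    · rintro ⟨a, ha, rfl⟩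
      obtain ⟨s, hs, has⟩ := (hW.mem a).1 ha
      exact ⟨s, hs, List.mem_map.2 ⟨a, has, rfl⟩⟩
    · rintro ⟨s, hs, hx⟩
      obtain ⟨a, ha, rfl⟩ := List.mem_map.1 hx
      exact ⟨a, (hW.mem a).2 ⟨s, hs, ha⟩, rfl⟩
  · intro s hs i hi
    have hi' : i < (L s).length := by simpa using hi
    simp only [List.getElem_map, Equiv.symm_apply_apply, node_map]
    rw [hW.end_eq s hs i hi', Sym2.map_mk]

/-- the neighbours of an inner vertex of a row -/
lemma inner_memS (hW : SubW R ends L Sg) {s : Bool × ℕ × ℕ} (hs : s ∈ Sg) {c : α}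
    {i : ℕ} (hi : i + 1 < (L s).length) (hc : (L s)[i]'(by omega) = c) {f : α} (hf : f ∈ R)
    (hfc : Sum.inr c ∈ ends f) : f = c ∨ f = (L s)[i + 1] := by
  obtain ⟨s', hs', hfs⟩ := (hW.mem f).1 hf
  obtain ⟨j, hj, rfl⟩ := List.getElem_of_mem hfs
  rw [hW.end_eq s' hs' j hj, Sym2.mem_iff] at hfc
  have key : ∀ k, k ≤ (L s').length → (Sum.inr c : (ℕ × ℕ) ⊕ α) = node s' (L s') k →
      s' = s ∧ k = i + 1 := by
    intro k hk h
    unfold node at h
    by_cases h0 : k = 0
    · simp [h0] at h
    · by_cases h1 : k = (L s').length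
      · rw [if_neg h0, if_pos h1] at h
        exact absurd h (by simp)
      · rw [if_neg h0, if_neg h1] at h
        have h2 : k - 1 < (L s').length := by omega
        rw [List.getElem?_eq_getElem h2] at h
        simp only [Sum.inr.injEq] at h
        have h3 : s' = s := by
          by_contra hne
          refine hW.disj s' hs' s hs hne (a := c) ?_ ?_
          · rw [h]; exact List.getElem_mem _
          · rw [← hc]; exact List.getElem_mem _
        subst h3
        rw [← hc] at h
        have h4 := (hW.nodup s' hs').getElem_inj_iff.1 h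
        exact ⟨rfl, by omega⟩
  rcases hfc with h | h
  · obtain ⟨rfl, h2⟩ := key j (by omega) h
    right
    subst h2
    rfl
  · obtain ⟨rfl, h2⟩ := key (j + 1) (by omega) h
    left
    have : j = i := by omega
    subst this
    exact hc

/-- **Two consecutive elements of a row are exchanged.** -/
theorem swap_adjS (hW : SubW R ends L Sg) (hB : BicU M R ends u) {s : Bool × ℕ × ℕ}
    (hs : s ∈ Sg) {pre l : List α} {c c' : α} (hL : L s = pre ++ c :: c' :: l) :
    ∃ ends', SubW R ends' (Function.update L s (pre ++ c' :: c :: l)) Sg ∧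
      BicU M R ends' u := by
  classical
  have hnd := hW.nodup s hs
  have hcc : c ≠ c' := by
    rw [hL] at hnd
    have := (List.nodup_append.1 hnd).2.1
    simp only [List.nodup_cons, List.mem_cons, not_or] at this
    exact this.1.1
  have hlen : (L s).length = pre.length + (l.length + 2) := by rw [hL]; simp
  have g1 : (L s)[pre.length]'(by omega) = c := by simp [hL]
  have g2 : (L s)[pre.length + 1]'(by omega) = c' := by simp [hL]
  have hcR : c ∈ R := (hW.mem c).2 ⟨s, hs, by rw [hL]; simp⟩
  have hcR' : c' ∈ R := (hW.mem c').2 ⟨s, hs, by rw [hL]; simp⟩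
  have n1 : node s (L s) (pre.length + 1) = Sum.inr c := by
    unfold node
    rw [if_neg (by omega), if_neg (by omega), List.getElem?_eq_getElem (by omega)]
    simp only [Nat.add_sub_cancel, g1]
  have e1 : ends c = s(node s (L s) pre.length, Sum.inr c) := by
    have := hW.end_eq s hs pre.length (by omega)
    rwa [g1, n1] at this
  have e2 : ends c' = s(Sum.inr c, node s (L s) (pre.length + 2)) := by
    have := hW.end_eq s hs (pre.length + 1) (by omega)
    rwa [g2, n1] at this
  have hx : ∀ f ∈ R, Sum.inr c ∈ ends f → f = c ∨ f = c' := by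
    intro f hf hfc
    have := inner_memS hW hs (i := pre.length) (by omega) g1 hf hfc
    rwa [g2] at this
  have hsw := swap_bicU hB e1 e2 hx
  set σ : Equiv.Perm α := Equiv.swap c c' with hσ
  have hσs : σ.symm = σ := Equiv.symm_swap _ _
  have hR : σ '' R = R := by
    ext a
    constructor
    · rintro ⟨b, hb, rfl⟩
      by_cases k1 : b = c
      · subst k1; rw [hσ, Equiv.swap_apply_left]; exact hcR'
      · by_cases k2 : b = c'
        · subst k2; rw [hσ, Equiv.swap_apply_right]; exact hcR
        · rw [hσ, Equiv.swap_apply_of_ne_of_ne k1 k2]; exact hb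
    · intro ha
      by_cases k1 : a = c
      · subst k1; exact ⟨c', hcR', by rw [hσ, Equiv.swap_apply_right]⟩
      · by_cases k2 : a = c'
        · subst k2; exact ⟨c, hcR, by rw [hσ, Equiv.swap_apply_left]⟩
        · exact ⟨a, ha, by rw [hσ, Equiv.swap_apply_of_ne_of_ne k1 k2]⟩
  have hid : ∀ (l₀ : List α), c ∉ l₀ → c' ∉ l₀ → l₀.map σ = l₀ := by
    intro l₀ h1 h2
    have : l₀.map σ = l₀.map id := List.map_congr_left fun a ha => by
      rw [hσ, Equiv.swap_apply_of_ne_of_ne]
      · rfl
      · rintro rfl; exact h1 ha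
      · rintro rfl; exact h2 ha
    rw [this, List.map_id]
  refine ⟨fun e => (ends (σ.symm e)).map (Sum.map id σ), ?_, ?_⟩
  · have h1 := subW_map hW σ
    rw [hR] at h1
    refine subW_congr h1 ?_
    intro s' hs'
    by_cases hss : s' = s
    · subst hss
      rw [Function.update_self, hL]
      rw [hL] at hnd
      have h2 := List.nodup_append.1 hnd
      have h3 : c ∉ pre := fun h => h2.2.2 c h c (by simp) rfl
      have h4 : c' ∉ pre := fun h => h2.2.2 c' h c' (by simp) rfl
      have h5 := h2.2.1
      simp only [List.nodup_cons, List.mem_cons, not_or] at h5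
      rw [List.map_append, List.map_cons, List.map_cons, hid pre h3 h4, hid l h5.1.2 h5.2.1]
      rw [hσ, Equiv.swap_apply_left, Equiv.swap_apply_right]
    · rw [Function.update_of_ne hss]
      have h2 := hW.disj s hs s' hs' (Ne.symm hss)
      exact (hid _ (fun h => h2 (a := c) (by rw [hL]; simp) h)
        (fun h => h2 (a := c') (by rw [hL]; simp) h)).symm
  · have h2 : BicU M R (fun e => ends (σ.symm e)) u := by
      rw [hσs]
      exact hsw
    exact h2.map (Sum.map id σ) (fun a _ b _ h => by
      rcases a with a | a <;> rcases b with b | b <;> simp at h ⊢ <;> exact h)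

/-- one row in a new order -/
theorem perm_rowS {s : Bool × ℕ × ℕ} (hs : s ∈ Sg) {l l' : List α} (hp : l.Perm l') :
    ∀ (pre : List α) (L : Bool × ℕ × ℕ → List α) (ends : α → Sym2 ((ℕ × ℕ) ⊕ α)),
      L s = pre ++ l → SubW R ends L Sg → BicU M R ends u →
      ∃ ends', SubW R ends' (Function.update L s (pre ++ l')) Sg ∧ BicU M R ends' u := by
  classical
  induction hp with
  | nil =>
    intro pre L ends hL hW hB
    refine ⟨ends, ?_, hB⟩
    rw [← hL, Function.update_eq_self]
    exact hW
  | @cons x l₁ l₂ _ ih =>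
    intro pre L ends hL hW hB
    have := ih (pre ++ [x]) L ends (by rw [hL]; simp) hW hB
    simpa using this
  | swap x z l =>
    intro pre L ends hL hW hB
    exact swap_adjS hW hB hs hL
  | @trans l₁ l₂ l₃ _ _ ih1 ih2 =>
    intro pre L ends hL hW hB
    obtain ⟨e1, h1, h2⟩ := ih1 pre L ends hL hW hB
    obtain ⟨e2, h3, h4⟩ := ih2 pre (Function.update L s (pre ++ l₂)) e1
      (by rw [Function.update_self]) h1 h2
    refine ⟨e2, ?_, h4⟩
    rwa [Function.update_idem] at h3

/-- **One element of a row is contracted.** -/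
theorem con_oneS [M.Finite] (hW : SubW R ends L Sg) (hB : BicU M R ends u)
    {s : Bool × ℕ × ℕ} (hs : s ∈ Sg) {c : α} {l : List α} (hL : L s = c :: l) (hl : l ≠ []) :
    ∃ ends', SubW (R \ {c}) ends' (Function.update L s l) Sg ∧
      BicU (M ／ {c}) (R \ {c}) ends' u := by
  classical
  have hnd := hW.nodup s hs
  rw [hL, List.nodup_cons] at hnd
  have hlen : 0 < l.length := List.length_pos_iff.2 hl
  have hcR : c ∈ R := (hW.mem c).2 ⟨s, hs, by rw [hL]; simp⟩
  have n1 : node s (L s) 1 = Sum.inr c := by
    rw [hL]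
    unfold node
    rw [if_neg (by omega), if_neg (by rw [List.length_cons]; omega)]
    simp
  have e1 : ends c = s(Sum.inl (segNear s), Sum.inr c) := by
    have := hW.end_eq s hs 0 (by rw [hL]; simp)
    simp only [hL, List.getElem_cons_zero] at this
    rw [← hL, node_zero, n1] at this
    exact this
  refine ⟨_, ?_, hB.contract hcR (by simp) e1⟩
  have hdis : ∀ s' ∈ Sg, s' ≠ s → c ∉ L s' := fun s' hs' hne h =>
    hW.disj s' hs' s hs hne h (by rw [hL]; simp)
  constructor
  · intro s' hs'
    by_cases hss : s' = s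
    · subst hss
      rw [Function.update_self]
      exact hl
    · rw [Function.update_of_ne hss]
      exact hW.ne s' hs'
  · intro s' hs'
    by_cases hss : s' = s
    · subst hss
      rw [Function.update_self]
      exact hnd.2
    · rw [Function.update_of_ne hss]
      exact hW.nodup s' hs'
  · intro s' hs' s'' hs'' hne
    have h1 := hW.disj s' hs' s'' hs'' hne
    by_cases hss : s' = s
    · subst hss
      have h2 : s'' ≠ s' := Ne.symm hne
      rw [Function.update_self, Function.update_of_ne h2]
      intro x hx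
      exact h1 (by rw [hL]; exact List.mem_cons_of_mem _ hx)
    · rw [Function.update_of_ne hss]
      by_cases hss' : s'' = s
      · subst hss'
        rw [Function.update_self]
        intro x hx hx'
        exact h1 hx (by rw [hL]; exact List.mem_cons_of_mem _ hx')
      · rw [Function.update_of_ne hss']
        exact h1
  · intro x
    constructor
    · rintro ⟨hx, hxc⟩
      obtain ⟨s', hs', hxs⟩ := (hW.mem x).1 hx
      refine ⟨s', hs', ?_⟩
      by_cases hss : s' = s
      · subst hss
        rw [Function.update_self]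
        rw [hL] at hxs
        rcases List.mem_cons.1 hxs with h | h
        · exact absurd h hxc
        · exact h
      · rw [Function.update_of_ne hss]
        exact hxs
    · rintro ⟨s', hs', hxs⟩
      by_cases hss : s' = s
      · subst hss
        rw [Function.update_self] at hxs
        refine ⟨(hW.mem x).2 ⟨s', hs', by rw [hL]; exact List.mem_cons_of_mem _ hxs⟩, ?_⟩
        rintro rfl
        exact hnd.1 hxs
      · rw [Function.update_of_ne hss] at hxs
        refine ⟨(hW.mem x).2 ⟨s', hs', hxs⟩, ?_⟩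
        rintro rfl
        exact hdis s' hs' hss hxs
  · intro s' hs' i hi
    have hmap : ∀ (l' : List α) (j : ℕ), c ∉ l' → (if node s' l' j = Sum.inr c then
        (Sum.inl (segNear s) : (ℕ × ℕ) ⊕ α) else node s' l' j) = node s' l' j := by
      intro l' j hcl
      rw [if_neg]
      intro h
      unfold node at h
      split_ifs at h
      split at h
      · rename_i heq
        rw [Sum.inr.injEq] at h
        subst h
        exact hcl (List.mem_of_getElem? heq)
      · simp at h
    by_cases hss : s' = s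
    · subst hss
      simp only [Function.update_self] at hi ⊢
      have h1 := hW.end_eq s' hs' (i + 1) (by rw [hL, List.length_cons]; omega)
      have h2 : (L s')[i + 1]'(by rw [hL, List.length_cons]; omega) = l[i] := by
        simp [hL]
      rw [h2] at h1
      rw [h1, Sym2.map_mk]
      have h3 : node s' (L s') (i + 1 + 1) = node s' l (i + 1) := by
        rw [hL]; exact node_cons _ _ _ (by omega)
      rw [h3, hmap l _ hnd.1]
      by_cases hi0 : i = 0
      · subst hi0
        rw [n1, if_pos rfl, node_zero]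
      · have h4 : node s' (L s') (i + 1) = node s' l i := by
          rw [hL]; exact node_cons _ _ _ (by omega)
        rw [h4, hmap l _ hnd.1]
    · simp only [Function.update_of_ne hss] at hi ⊢
      rw [hW.end_eq s' hs' i hi, Sym2.map_mk, hmap _ _ (hdis s' hs' hss),
        hmap _ _ (hdis s' hs' hss)]

/-- one row: all elements but the last one are contracted -/
theorem con_rowS {s : Bool × ℕ × ℕ} (hs : s ∈ Sg) (r : α) :
    ∀ (l : List α) (M : Matroid α) [M.Finite] (R : Set α) (ends : α → Sym2 ((ℕ × ℕ) ⊕ α))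
      (L : Bool × ℕ × ℕ → List α), L s = l ++ [r] → SubW R ends L Sg → BicU M R ends u →
      ∃ ends', SubW (R \ {x | x ∈ l}) ends' (Function.update L s [r]) Sg ∧
        BicU (M ／ {x | x ∈ l}) (R \ {x | x ∈ l}) ends' u := by
  classical
  intro l
  induction l with
  | nil =>
    intro M _ R ends L hL hW hB
    refine ⟨ends, ?_, ?_⟩
    · have e : ({x | x ∈ ([] : List α)} : Set α) = ∅ := by ext; simp
      rw [e, sdiff_empty]
      rw [List.nil_append] at hL
      rw [← hL, Function.update_eq_self]
      exact hW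
    · have e : ({x | x ∈ ([] : List α)} : Set α) = ∅ := by ext; simp
      rw [e, sdiff_empty, Matroid.contract_empty]
      exact hB
  | cons c l ih =>
    intro M _ R ends L hL hW hB
    obtain ⟨e1, h1, h2⟩ := con_oneS hW hB hs (c := c) (l := l ++ [r]) (by rw [hL]; rfl) (by simp)
    have hf : (M ／ {c}).Finite := BQ.fin_contract _
    obtain ⟨e2, h3, h4⟩ := ih (M ／ {c}) (R \ {c}) e1 (Function.update L s (l ++ [r]))
      (by rw [Function.update_self]) h1 h2
    have e : (R \ ({c} : Set α)) \ {x | x ∈ l} = R \ {x | x ∈ c :: l} := by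
      ext x
      simp only [mem_sdiff, mem_singleton_iff, mem_ofPred_eq, List.mem_cons, not_or]
      tauto
    have e' : M ／ ({c} : Set α) ／ {x | x ∈ l} = M ／ {x | x ∈ c :: l} := by
      rw [Matroid.contract_contract]
      congr 1
      ext x
      simp
    rw [Function.update_idem, e] at h3
    rw [e, e'] at h4
    exact ⟨e2, h3, h4⟩

/-- **REPRESENTATIVES.** One representative `r s` of every row is kept, all other elements of the
rows are contracted. -/
theorem con_repsS [M.Finite] (hSg : Sg.Finite) (hW : SubW R ends L Sg) (hB : BicU M R ends u)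
    {r : Bool × ℕ × ℕ → α} (hr : ∀ s ∈ Sg, r s ∈ L s) :
    ∃ ends' : α → Sym2 ((ℕ × ℕ) ⊕ α), BicU (M ／ (R \ r '' Sg)) (r '' Sg) ends' u ∧
      ∀ s ∈ Sg, ends' (r s) = s(Sum.inl (segNear s), Sum.inl (segFar s)) := by
  classical
  have key : ∀ T : Finset (Bool × ℕ × ℕ), (T : Set (Bool × ℕ × ℕ)) ⊆ Sg →
      ∃ (ends' : α → Sym2 ((ℕ × ℕ) ⊕ α)),
        SubW (R \ {x | ∃ s ∈ T, x ∈ L s ∧ x ≠ r s}) ends'
          (fun s => if s ∈ T then [r s] else L s) Sg ∧
        BicU (M ／ {x | ∃ s ∈ T, x ∈ L s ∧ x ≠ r s}) (R \ {x | ∃ s ∈ T, x ∈ L s ∧ x ≠ r s})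
          ends' u := by
    intro T
    induction T using Finset.induction_on with
    | empty =>
      intro _
      have e : ({x | ∃ s ∈ (∅ : Finset (Bool × ℕ × ℕ)), x ∈ L s ∧ x ≠ r s} : Set α) = ∅ := by
        ext; simp
      refine ⟨ends, ?_, ?_⟩
      · rw [e, sdiff_empty]; simpa using hW
      · rw [e, sdiff_empty, Matroid.contract_empty]; exact hB
    | insert s T hsT ih =>
      intro hT
      have hs : s ∈ Sg := hT (by simp)
      obtain ⟨e1, h1, h2⟩ := ih (fun a ha => hT (by simp only [Finset.coe_insert]; exact Or.inr ha))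
      have hf : (M ／ {x | ∃ s ∈ T, x ∈ L s ∧ x ≠ r s}).Finite := BQ.fin_contract _
      have hnd := hW.nodup s hs
      -- the representative comes last
      have hperm : (L s).Perm ((L s).erase (r s) ++ [r s]) :=
        (List.perm_cons_erase (hr s hs)).trans (List.perm_append_singleton _ _).symm
      obtain ⟨e2, h3, h4⟩ := perm_rowS hs hperm [] _ e1 (by simp [hsT]) h1 h2
      obtain ⟨e3, h5, h6⟩ := con_rowS hs (r s) ((L s).erase (r s)) _ _ e2 _
        (by rw [Function.update_self]; simp) h3 h4
      have hset : ∀ x, x ∈ (L s).erase (r s) ↔ x ∈ L s ∧ x ≠ r s := by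
        intro x
        rw [hnd.mem_erase_iff, and_comm]
      have eR : (R \ {x | ∃ s ∈ T, x ∈ L s ∧ x ≠ r s}) \ {x | x ∈ (L s).erase (r s)} =
          R \ {x | ∃ s' ∈ (insert s T : Finset (Bool × ℕ × ℕ)), x ∈ L s' ∧ x ≠ r s'} := by
        ext x
        simp only [mem_sdiff, mem_ofPred_eq, hset, Finset.mem_insert, exists_eq_or_imp]
        rw [and_assoc]
        refine and_congr_right fun _ => ?_
        rw [not_or]
        exact and_comm
      have eM : M ／ {x | ∃ s ∈ T, x ∈ L s ∧ x ≠ r s} ／ {x | x ∈ (L s).erase (r s)} =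
          M ／ {x | ∃ s' ∈ (insert s T : Finset (Bool × ℕ × ℕ)), x ∈ L s' ∧ x ≠ r s'} := by
        rw [Matroid.contract_contract]
        congr 1
        ext x
        simp only [mem_union, mem_ofPred_eq, hset, Finset.mem_insert, exists_eq_or_imp]
        exact or_comm
      rw [eR] at h5 h6
      rw [eM] at h6
      refine ⟨e3, subW_congr h5 ?_, h6⟩
      intro s' hs'
      by_cases hss : s' = s
      · subst hss
        simp
      · simp [hss]
  obtain ⟨e, h1, h2⟩ := key hSg.toFinset (by simp)
  have hset : R \ {x | ∃ s ∈ hSg.toFinset, x ∈ L s ∧ x ≠ r s} = r '' Sg := by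
    ext x
    simp only [mem_sdiff, mem_ofPred_eq, Set.Finite.mem_toFinset, not_exists, not_and, not_not]
    constructor
    · rintro ⟨hx, hx'⟩
      obtain ⟨s, hs, hxs⟩ := (hW.mem x).1 hx
      exact ⟨s, hs, (hx' s hs hxs).symm⟩
    · rintro ⟨s, hs, rfl⟩
      refine ⟨(hW.mem _).2 ⟨s, hs, hr s hs⟩, fun s' hs' h => ?_⟩
      by_cases hss : s' = s
      · rw [hss]
      · exact absurd (hr s hs) (fun h' => hW.disj s' hs' s hs hss h h')
  have hset' : {x | ∃ s ∈ hSg.toFinset, x ∈ L s ∧ x ≠ r s} = R \ r '' Sg := by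
    rw [← hset]
    ext x
    simp only [mem_sdiff, mem_ofPred_eq, Set.Finite.mem_toFinset]
    constructor
    · rintro ⟨s, hs, h3, h4⟩
      exact ⟨(hW.mem x).2 ⟨s, hs, h3⟩, fun h5 => h5.2 ⟨s, hs, h3, h4⟩⟩
    · rintro ⟨h3, h4⟩
      by_contra h5
      exact h4 ⟨h3, h5⟩
  rw [hset, hset'] at h2
  refine ⟨e, h2, fun s hs => ?_⟩
  have h3 := h1.end_eq s hs 0 (by simp [hs])
  simp only [Set.Finite.mem_toFinset, hs, if_true, List.getElem_cons_zero] at h3
  rw [h3, node_zero]
  congr 1


end CWL
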