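import Pool.Agent.CW.SubW
import Pool.Agent.CW.Ess

/-!
# Row T4c: robust sub-walls with linear loss

For a clean wall with exceptional set `B` there are `B' ⊆ B` and a sub-wall (of proportional side)
which is clean for `B'` and on which `B'` is seen completely, even if `F` vertices are removed.
-/

open Set BIC BICS
open scoped Matroid

namespace CWL

universe u

/-- the segments which avoid the vertices of `V` -/
def segAv (y : ℕ) (V : Finset (ℕ × ℕ)) : Set (Bool × ℕ × ℕ) :=
  {s | s ∈ Seg y ∧ segNear s ∉ V ∧ segFar s ∉ V}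

/-- `B` is seen completely by the wall without `F` vertices -/
def RobW {α : Type*} (M : Matroid α) (C B : Set α) (e : Bool × ℕ × ℕ → α) (y F : ℕ) : Prop :=
  ∀ V : Finset (ℕ × ℕ), V.card ≤ F →
    rk (M ／ C) (e '' segAv y V) + B.ncard ≤ rk (M ／ (C \ B)) (e '' segAv y V)

lemma seg_ends {y : ℕ} {s : Bool × ℕ × ℕ} (hs : s ∈ Seg y) :
    (segNear s).1 ≤ y ∧ (segNear s).2 ≤ y ∧ (segFar s).1 ≤ y ∧ (segFar s).2 ≤ y := by
  obtain ⟨b, x, z⟩ := s
  rcases hs with ⟨h1, h2, h3⟩ | ⟨h1, h2, h3, h4⟩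
  · simp only at h1 h2 h3
    subst h1
    simp only [segNear, segFar, if_true]
    omega
  · simp only at h1 h2 h3 h4
    subst h1
    simp only [segNear, segFar, Bool.false_eq_true, if_false]
    omega

/-- contracting fewer conflicts gives a bigger rank -/
lemma rk_mono_conf {α : Type*} {M : Matroid α} [M.Finite] {C B B₁ X : Set α} (hC : M.Indep C)
    (hB₁ : B₁ ⊆ B) (hBC : B ⊆ C) (hX : X ⊆ M.E \ C) :
    rk (M ／ (C \ B₁)) X ≤ rk (M ／ (C \ B)) X := by
  have h3 := ess_rk hC hX (Z := B₁) (hB₁.trans hBC)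
  have h4 := ess_rk hC hX (Z := B) hBC
  have hBf : B.Finite := (M.ground_finite.subset hC.subset_ground).subset hBC
  have h5 := rk_submod M (X ∪ (C \ B)) (B \ B₁)
  have h6 : rk M (B \ B₁) ≤ (B \ B₁).ncard := rk_le_ncard M (hBf.subset sdiff_subset)
  have h7 : rk M (X ∪ (C \ B₁)) ≤ rk M ((X ∪ (C \ B)) ∪ (B \ B₁)) := by
    refine rk_mono M ?_
    rintro x (hx | hx)
    · exact Or.inl (Or.inl hx)
    · by_cases hxB : x ∈ B
      · exact Or.inr ⟨hxB, hx.2⟩
      · exact Or.inl (Or.inr ⟨hx.1, hxB⟩)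
  have h8 := Set.ncard_sdiff_add_ncard_of_subset hB₁ hBf
  omega

/-- invisible for a bigger deleted set, when the difference is invisible -/
lemma not_vis_sub {α : Type*} {M : Matroid α} [M.Finite] {C B B₁ X : Set α} (hC : M.Indep C)
    (hB₁ : B₁ ⊆ B) (hBC : B ⊆ C) (hX : X ⊆ M.E \ C)
    (h : rk (M ／ (C \ B)) X = rk (M ／ (C \ B₁)) X) {c : α} (hc : c ∈ C \ B)
    (hv : ¬ Vis M C B X c) : ¬ Vis M C B₁ X c := by
  intro hv'
  have h1 := CW.rk_vis hC hc.1 (fun h => hc.2 (hB₁ h)) (X := X) hX hv'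
  have h2 := CW.rk_not_vis hC hc.1 hc.2 (X := X) hX hv
  have h3 := rk_mono_conf hC (insert_subset_insert (a := c) hB₁) (insert_subset hc.1 hBC) hX
  omega

/-- **Row T4c.** Robust sub-walls, linear loss. -/
theorem t4c (κ F : ℕ) : ∃ A : ℕ, 1 ≤ A ∧ ∀ y : ℕ, ∀ {α : Type u} (M : Matroid α) [M.Finite] (C B : Set α)
    (e : Bool × ℕ × ℕ → α) (ends : α → Sym2 (ℕ × ℕ)) (Y : ℕ), A * (y + 1) ≤ Y →
    CWall M C B e ends Y → B.ncard ≤ κ →
    ∃ B' ⊆ B, ∃ y' i j : ℕ, y ≤ y' ∧ (i + j) % 2 = 0 ∧ i + y' ≤ Y ∧ j + y' ≤ Y ∧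
      (∃ ends' : α → Sym2 (ℕ × ℕ), CWall M C B' (fun s => e (shS i j s)) ends' y') ∧
      RobW M C B' (fun s => e (shS i j s)) y' F := by
  classical
  induction κ with
  | zero =>
    refine ⟨1, le_rfl, fun y {α} M _ C B e ends Y hY hW hB => ?_⟩
    have hB0 : B = ∅ := by
      rw [Nat.le_zero, Set.ncard_eq_zero
        ((M.ground_finite.subset hW.ind.subset_ground).subset hW.BC)] at hB
      exact hB
    subst hB0
    refine ⟨∅, Subset.refl _, Y, 0, 0, by omega, rfl, by omega, by omega,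
      t4a M C ∅ e ends Y Y 0 0 hW rfl (by omega) (by omega), fun V _ => ?_⟩
    rw [ncard_empty, sdiff_empty]
    exact le_rfl
  | succ κ ih =>
    obtain ⟨A, hA1, hA⟩ := ih
    refine ⟨2 * F * (A + 1) + A, by omega, fun y {α} M _ C B e ends Y hY hW hB => ?_⟩
    by_cases hrob : RobW M C B e Y F
    · refine ⟨B, Subset.refl _, Y, 0, 0, ?_, rfl, by omega, by omega,
        t4a M C B e ends Y Y 0 0 hW rfl (by omega) (by omega), hrob⟩
      have h1 : 1 * (y + 1) ≤ (2 * F * (A + 1) + A) * (y + 1) :=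
        Nat.mul_le_mul_right _ (by omega)
      omega
    unfold RobW at hrob
    push Not at hrob
    obtain ⟨V, hV, hlt⟩ := hrob
    set X : Set α := e '' segAv Y V with hXdef
    have hXs : X ⊆ e '' Seg Y := image_mono fun s hs => hs.1
    have hXE : X ⊆ M.E \ C := hXs.trans hW.sub
    have hCf : C.Finite := M.ground_finite.subset hW.ind.subset_ground
    have hBf : B.Finite := hCf.subset hW.BC
    -- a basis of `B`
    obtain ⟨t, ht⟩ : ∃ t, rk (M ／ (C \ B)) X = rk (M ／ C) X + t := by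
      refine ⟨rk (M ／ (C \ B)) X - rk (M ／ C) X, ?_⟩
      have h1 := rk_mono_conf hW.ind (empty_subset B) hW.BC hXE
      rw [sdiff_empty] at h1
      omega
    obtain ⟨B₁, hB₁, hB₁c, hB₁r⟩ := choose_sub hW.ind hW.BC hXE (k := t) ht.symm.le
    have htB : t < B.ncard := by omega
    have hB₁C : B₁ ⊆ C := hB₁.trans hW.BC
    have heq : rk (M ／ (C \ B)) X = rk (M ／ (C \ B₁)) X := by
      have h1 := rk_conf_le hW.ind hB₁C hXE
      omega
    -- the sub-wall
    set Y' := A * (y + 1) with hY'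
    obtain ⟨i, hi0, hiY, hiV⟩ : ∃ i, i % 2 = 0 ∧ i + Y' ≤ Y ∧
        ∀ v ∈ V, ¬ (i ≤ v.1 ∧ v.1 ≤ i + Y') := by
      by_contra hcon
      push Not at hcon
      have hex : ∀ a : Fin (F + 1), ∃ v ∈ V, 2 * (Y' + 1) * a ≤ v.1 ∧
          v.1 ≤ 2 * (Y' + 1) * a + Y' := by
        intro a
        refine hcon _ ?_ ?_
        · rw [mul_assoc]
          exact Nat.mul_mod_right _ _
        · have h1 : 2 * (Y' + 1) * a ≤ 2 * (Y' + 1) * F := Nat.mul_le_mul_left _ (by omega)
          have h2 : 2 * (Y' + 1) * F + Y' ≤ (2 * F * (A + 1) + A) * (y + 1) := by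
            rw [hY']
            nlinarith [Nat.zero_le (F * y)]
          omega
      choose v hv h1 h2 using hex
      have hinj : Function.Injective v := by
        intro a a' haa
        have h3 := h1 a
        have h4 := h2 a
        have h5 := h1 a'
        have h6 := h2 a'
        rw [haa] at h3 h4
        by_contra hne
        rcases lt_or_gt_of_ne (fun h : a.1 = a'.1 => hne (Fin.ext h)) with h7 | h7
        · have h8 : 2 * (Y' + 1) * (a.1 + 1) ≤ 2 * (Y' + 1) * a'.1 := Nat.mul_le_mul_left _ h7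
          rw [mul_add] at h8
          omega
        · have h8 : 2 * (Y' + 1) * (a'.1 + 1) ≤ 2 * (Y' + 1) * a.1 := Nat.mul_le_mul_left _ h7
          rw [mul_add] at h8
          omega
      have h3 := Finset.card_le_card_of_injOn (s := (Finset.univ : Finset (Fin (F + 1)))) (t := V) v
        (fun a _ => hv a) hinj.injOn
      rw [Finset.card_univ, Fintype.card_fin] at h3
      omega
    have hsub : (fun s => e (shS i 0 s)) '' Seg Y' ⊆ X := by
      rintro _ ⟨s, hs, rfl⟩
      have h1 := seg_ends hs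
      refine ⟨shS i 0 s, ⟨shS_mem (by omega) hiY (by omega) hs, ?_, ?_⟩, rfl⟩
      · intro h
        rw [segNear_shS] at h
        exact hiV _ h ⟨by simp only; omega, by simp only; omega⟩
      · intro h
        rw [segFar_shS] at h
        exact hiV _ h ⟨by simp only; omega, by simp only; omega⟩
    obtain ⟨ends₁, hW₁⟩ := t4a M C B e ends Y Y' i 0 hW (by omega) hiY (by omega)
    have hmono : ∀ {X' : Set α}, X' ⊆ X → rk (M ／ (C \ B)) X' = rk (M ／ (C \ B₁)) X' := by
      intro X' hX'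
      have h1 := rk_mono_conf hW.ind hB₁ hW.BC (hX'.trans hXE)
      have hC₁ : (C \ B₁) \ (B \ B₁) = C \ B := by
        ext x
        simp only [mem_sdiff]
        constructor
        · rintro ⟨⟨a, b⟩, c⟩
          exact ⟨a, fun h => c ⟨h, b⟩⟩
        · rintro ⟨a, b⟩
          exact ⟨⟨a, fun h => b (hB₁ h)⟩, fun h => b h.1⟩
      have h2 := quo_conf (C := C \ B₁) (B := B \ B₁) (T := X) (hW.ind.subset sdiff_subset)
        (hXE.trans (sdiff_subset_sdiff_right sdiff_subset)) X' X hX' (Subset.refl _)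
      rw [hC₁] at h2
      omega
    have hW₂ : CWall M C B₁ (fun s => e (shS i 0 s)) ends₁ Y' := by
      refine ⟨hW₁.ind, hW₁.inj, hW₁.sub, hW₁.end_eq, hW₁.bic, hB₁C, ?_⟩
      intro c hc
      by_cases hcB : c ∈ B
      · left
        intro hv
        have hv' : Vis M C B₁ X c := Vis.mono hsub hv
        have h1 := CW.rk_vis hW.ind hc.1 hc.2 (X := X) hXE hv'
        have h2 := rk_mono_conf hW.ind (insert_subset hcB hB₁) hW.BC hXE
        omega
      · rcases hW₁.loc c ⟨hc.1, hcB⟩ with h1 | ⟨s, hs, h1⟩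
        · exact Or.inl (not_vis_sub hW.ind hB₁ hW.BC hW₁.sub (hmono hsub) ⟨hc.1, hcB⟩ h1)
        · refine Or.inr ⟨s, hs, not_vis_sub hW.ind hB₁ hW.BC ?_ (hmono ?_) ⟨hc.1, hcB⟩ h1⟩
          · exact (image_mono sdiff_subset).trans hW₁.sub
          · exact (image_mono sdiff_subset).trans hsub
    obtain ⟨B', hB', y', i', j', h1, h2, h3, h4, ⟨ends', h5⟩, h6⟩ :=
      hA y M C B₁ (fun s => e (shS i 0 s)) ends₁ Y' le_rfl hW₂ (by omega)
    have hfun : (fun s => e (shS i 0 (shS i' j' s))) = fun s => e (shS (i + i') j' s) := by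
      funext s
      rw [shS_add, zero_add]
    rw [hfun] at h5 h6
    exact ⟨B', hB'.trans hB₁, y', i + i', j', h1, by omega, by omega, by omega, ⟨ends', h5⟩, h6⟩

end CWL
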