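import Pool.Agent.CW.SubW

/-!
# Multi-scale choice of a block (helper45)

The conflicts are a finite set `Q`, `p x` / `q x` is the segment of `x` on the two sides.
If there are at most `K y₁² y₂²` of them, then there are a block of side `w` (`w` in a bounded
range) of the first side and a positive proportion of the tiles of the second side such that in
every tile no row of the block is heavy, the total is `≤ C w²` and the boundary layer is light.
-/

open Set
open scoped Classical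

namespace CWL

/-- the boundary layer of width `K₀` of the wall of side `w` -/
def layer (w K₀ : ℕ) : Set (Bool × ℕ × ℕ) :=
  {r | r ∈ Seg w ∧ (r.2.1 ≤ K₀ ∨ r.2.2 ≤ K₀ ∨ w ≤ r.2.1 + K₀ ∨ w ≤ r.2.2 + K₀)}

namespace Scl

variable {ι β : Type*}

/-- Markov's inequality in counting form -/
lemma markov (A : Finset ι) (B : Finset β) (R : ι → β → Prop) (D T h : ℕ)
    (hD : ∀ b ∈ B, (A.filter fun a => R a b).card ≤ D) :
    (A.filter fun a => T < h * (B.filter fun b => R a b).card).card * T ≤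
      h * (D * B.card) := by
  have h1 : ∑ a ∈ A, (B.filter fun b => R a b).card = ∑ b ∈ B, (A.filter fun a => R a b).card := by
    simpa [Finset.bipartiteAbove, Finset.bipartiteBelow] using
      Finset.sum_card_bipartiteAbove_eq_sum_card_bipartiteBelow (s := A) (t := B) R
  have h2 : ∑ b ∈ B, (A.filter fun a => R a b).card ≤ D * B.card := by
    rw [mul_comm]
    exact Finset.sum_le_card_nsmul _ _ _ hD
  calc (A.filter fun a => T < h * (B.filter fun b => R a b).card).card * T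
      = ∑ a ∈ A.filter (fun a => T < h * (B.filter fun b => R a b).card), T := by
        rw [Finset.sum_const, smul_eq_mul]
    _ ≤ ∑ a ∈ A.filter (fun a => T < h * (B.filter fun b => R a b).card),
          h * (B.filter fun b => R a b).card :=
        Finset.sum_le_sum fun a ha => (Finset.mem_filter.1 ha).2.le
    _ ≤ ∑ a ∈ A, h * (B.filter fun b => R a b).card :=
        Finset.sum_le_sum_of_subset (Finset.filter_subset _ _)
    _ = h * ∑ b ∈ B, (A.filter fun a => R a b).card := by rw [← Finset.mul_sum, h1]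
    _ ≤ h * (D * B.card) := Nat.mul_le_mul_left _ h2

lemma cntA (m u k : ℕ) :
    ((Finset.range m).filter fun a => 2 * a ≤ u ∧ u ≤ 2 * a + k).card ≤ k + 1 := by
  have : ((Finset.range m).filter fun a => 2 * a ≤ u ∧ u ≤ 2 * a + k).card ≤
      (Finset.range (k + 1)).card := by
    refine Finset.card_le_card_of_injOn (fun a => u - 2 * a) ?_ ?_
    · intro a ha
      simp only [Finset.coe_filter, Finset.mem_range, Set.mem_ofPred_eq] at ha
      simp only [Finset.coe_range, Set.mem_Iio]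
      omega
    · intro a ha b hb hab
      simp only [Finset.coe_filter, Finset.mem_range, Set.mem_ofPred_eq] at ha hb
      simp only at hab
      omega
  simpa using this

lemma cntB (m u w k : ℕ) :
    ((Finset.range m).filter fun a => 2 * a + w ≤ u + k ∧ u ≤ 2 * a + w).card ≤ k + 1 := by
  have : ((Finset.range m).filter fun a => 2 * a + w ≤ u + k ∧ u ≤ 2 * a + w).card ≤
      (Finset.range (k + 1)).card := by
    refine Finset.card_le_card_of_injOn (fun a => 2 * a + w - u) ?_ ?_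
    · intro a ha
      simp only [Finset.coe_filter, Finset.mem_range, Set.mem_ofPred_eq] at ha
      simp only [Finset.coe_range, Set.mem_Iio]
      omega
    · intro a ha b hb hab
      simp only [Finset.coe_filter, Finset.mem_range, Set.mem_ofPred_eq] at ha hb
      simp only at hab
      omega
  simpa using this

/-- positions (halved) of the blocks of side `w` in a wall of side `y` -/
def Pos (y w : ℕ) : Finset (ℕ × ℕ) :=
  Finset.range ((y - w) / 2 + 1) ×ˢ Finset.range ((y - w) / 2 + 1)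

lemma mem_blk {w a b : ℕ} {r : Bool × ℕ × ℕ} (h : r ∈ shS (2 * a) (2 * b) '' Seg w) :
    (2 * a ≤ r.2.1 ∧ r.2.1 ≤ 2 * a + w) ∧ 2 * b ≤ r.2.2 ∧ r.2.2 ≤ 2 * b + w := by
  obtain ⟨⟨c, x, z⟩, hs, rfl⟩ := h
  simp only [Seg, mem_ofPred_eq] at hs
  simp only [shS]
  rcases hs with ⟨-, h2, h3⟩ | ⟨-, h2, h3, -⟩ <;> omega

lemma cov (y w : ℕ) (r : Bool × ℕ × ℕ) :
    ((Pos y w).filter fun P => r ∈ shS (2 * P.1) (2 * P.2) '' Seg w).card ≤ (w + 1) ^ 2 := by
  set m := (y - w) / 2 + 1 with hm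
  have hsub : (Pos y w).filter (fun P => r ∈ shS (2 * P.1) (2 * P.2) '' Seg w) ⊆
      ((Finset.range m).filter fun a => 2 * a ≤ r.2.1 ∧ r.2.1 ≤ 2 * a + w) ×ˢ
        ((Finset.range m).filter fun a => 2 * a ≤ r.2.2 ∧ r.2.2 ≤ 2 * a + w) := by
    rintro ⟨a, b⟩ hP
    simp only [Finset.mem_filter, Pos, Finset.mem_product] at hP ⊢
    obtain ⟨h1, h2⟩ := mem_blk hP.2
    exact ⟨⟨hP.1.1, h1⟩, hP.1.2, h2⟩
  refine (Finset.card_le_card hsub).trans ?_
  rw [Finset.card_product, pow_two]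
  exact Nat.mul_le_mul (cntA _ _ _) (cntA _ _ _)

lemma covL (y w K₀ : ℕ) (r : Bool × ℕ × ℕ) :
    ((Pos y w).filter fun P => r ∈ shS (2 * P.1) (2 * P.2) '' layer w K₀).card ≤
      4 * ((K₀ + 1) * (w + 1)) := by
  set m := (y - w) / 2 + 1 with hm
  set A0 := (Finset.range m).filter fun a => 2 * a ≤ r.2.1 ∧ r.2.1 ≤ 2 * a + w with hA0
  set B0 := (Finset.range m).filter fun a => 2 * a ≤ r.2.2 ∧ r.2.2 ≤ 2 * a + w with hB0
  set A1 := (Finset.range m).filter fun a => 2 * a ≤ r.2.1 ∧ r.2.1 ≤ 2 * a + K₀ with hA1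
  set B1 := (Finset.range m).filter fun a => 2 * a ≤ r.2.2 ∧ r.2.2 ≤ 2 * a + K₀ with hB1
  set A2 := (Finset.range m).filter fun a => 2 * a + w ≤ r.2.1 + K₀ ∧ r.2.1 ≤ 2 * a + w with hA2
  set B2 := (Finset.range m).filter fun a => 2 * a + w ≤ r.2.2 + K₀ ∧ r.2.2 ≤ 2 * a + w with hB2
  have hsub : (Pos y w).filter (fun P => r ∈ shS (2 * P.1) (2 * P.2) '' layer w K₀) ⊆
      ((A1 ×ˢ B0) ∪ (A2 ×ˢ B0)) ∪ ((A0 ×ˢ B1) ∪ (A0 ×ˢ B2)) := by
    rintro ⟨a, b⟩ hP
    rw [Finset.mem_filter, Pos, Finset.mem_product] at hP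
    obtain ⟨⟨h1, h2⟩, t, ht, rfl⟩ := hP
    obtain ⟨h3, h4⟩ := mem_blk (r := shS (2 * a) (2 * b) t) (w := w) ⟨t, ht.1, rfl⟩
    simp only [Finset.mem_union, Finset.mem_product, hA0, hB0, hA1, hB1, hA2, hB2,
      Finset.mem_filter]
    obtain ⟨c, x, z⟩ := t
    have h5 := ht.2
    simp only [shS] at h3 h4 h5 ⊢
    simp only at h1 h2
    rcases h5 with h5 | h5 | h5 | h5
    · exact Or.inl (Or.inl ⟨⟨h1, by omega, by omega⟩, h2, h4⟩)
    · exact Or.inr (Or.inl ⟨⟨h1, h3⟩, h2, by omega, by omega⟩)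
    · exact Or.inl (Or.inr ⟨⟨h1, by omega, by omega⟩, h2, h4⟩)
    · exact Or.inr (Or.inr ⟨⟨h1, h3⟩, h2, by omega, by omega⟩)
  refine (Finset.card_le_card hsub).trans ?_
  have e0 : A0.card ≤ w + 1 := cntA _ _ _
  have e1 : B0.card ≤ w + 1 := cntA _ _ _
  have e2 : A1.card ≤ K₀ + 1 := cntA _ _ _
  have e3 : B1.card ≤ K₀ + 1 := cntA _ _ _
  have e4 : A2.card ≤ K₀ + 1 := cntB _ _ _ _
  have e5 : B2.card ≤ K₀ + 1 := cntB _ _ _ _
  have u1 := Finset.card_union_le ((A1 ×ˢ B0) ∪ (A2 ×ˢ B0)) ((A0 ×ˢ B1) ∪ (A0 ×ˢ B2))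
  have u2 := Finset.card_union_le (A1 ×ˢ B0) (A2 ×ˢ B0)
  have u3 := Finset.card_union_le (A0 ×ˢ B1) (A0 ×ˢ B2)
  rw [Finset.card_product, Finset.card_product] at u2 u3
  have f1 : A1.card * B0.card ≤ (K₀ + 1) * (w + 1) := Nat.mul_le_mul e2 e1
  have f2 : A2.card * B0.card ≤ (K₀ + 1) * (w + 1) := Nat.mul_le_mul e4 e1
  have f3 : A0.card * B1.card ≤ (K₀ + 1) * (w + 1) := by
    rw [mul_comm]; exact Nat.mul_le_mul e3 e0
  have f4 : A0.card * B2.card ≤ (K₀ + 1) * (w + 1) := by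
    rw [mul_comm]; exact Nat.mul_le_mul e5 e0
  omega

/-- number of elements of `B` on the row `r` -/
def cnt (B : Finset β) (p : β → Bool × ℕ × ℕ) (r : Bool × ℕ × ℕ) : ℕ :=
  (B.filter fun x => p x = r).card

/-- the block at position `P` is good -/
def Good (d h K₀ C w L : ℕ) (B : Finset β) (p : β → Bool × ℕ × ℕ) (P : ℕ × ℕ) : Prop :=
  (∀ r ∈ Seg w, d * (B.filter fun x => p x = shS (2 * P.1) (2 * P.2) r).card < w ^ 2) ∧
  (B.filter fun x => p x ∈ shS (2 * P.1) (2 * P.2) '' Seg w).card ≤ C * w ^ 2 ∧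
  h * (B.filter fun x => p x ∈ shS (2 * P.1) (2 * P.2) '' layer w K₀).card ≤ w ^ 2 ∧
  h * (B.filter fun x => p x ∈ shS (2 * P.1) (2 * P.2) '' Seg w ∧ L < cnt B p (p x)).card ≤ w ^ 2

lemma pos_card {y w : ℕ} (h : 2 * w ≤ y) : y ^ 2 ≤ 16 * (Pos y w).card := by
  rw [Pos, Finset.card_product, Finset.card_range]
  have h1 : y ≤ 4 * ((y - w) / 2 + 1) := by omega
  nlinarith

/-- **One tile.** -/
lemma tile (K₁ d h K₀ w₁ y lam w₀ L L' S : ℕ) (hK : 1 ≤ K₁) (hlam : lam = 1024 * (d + 1) * K₁)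
    (hw₀ : w₀ = w₁ + 1024 * (h + 1) * (K₀ + 1) * K₁) (B : Finset β) (p : β → Bool × ℕ × ℕ)
    (hB : B.card ≤ K₁ * y ^ 2) (hy : 2 * (w₀ * lam ^ lam) ≤ y)
    (hS : S * (B.filter fun x => L < cnt B p (p x) ∧ cnt B p (p x) < L').card ≤ B.card)
    (hS1 : 1024 * (h + 1) * K₁ ≤ S) (hL' : 1024 * K₁ * (w₀ * lam ^ lam) ^ 2 ≤ L') :
    ∃ σ < lam, (Pos y (w₀ * lam ^ σ)).card ≤ 2 * ((Pos y (w₀ * lam ^ σ)).filter
        fun P => Good d h K₀ (512 * K₁) (w₀ * lam ^ σ) L B p P).card := by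
  have hlam1 : 1 ≤ lam := by
    rw [hlam]
    exact Nat.one_le_iff_ne_zero.2 (by positivity)
  have hw₀1 : 1 ≤ w₀ := by
    have : 1 ≤ 1024 * (h + 1) * (K₀ + 1) * K₁ := Nat.one_le_iff_ne_zero.2 (by positivity)
    omega
  let W : ℕ → ℕ := fun σ => w₀ * lam ^ σ
  have hWs : ∀ σ, W (σ + 1) = lam * W σ := fun σ => by
    change w₀ * lam ^ (σ + 1) = lam * (w₀ * lam ^ σ)
    ring
  have hWmono : Monotone W := fun a b hab =>
    Nat.mul_le_mul_left _ (Nat.pow_le_pow_right hlam1 hab)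
  have hW1 : ∀ σ, 1 ≤ W σ := fun σ => Nat.one_le_iff_ne_zero.2 (by
    change w₀ * lam ^ σ ≠ 0
    positivity)
  let c : Bool × ℕ × ℕ → ℕ := fun r => (B.filter fun x => p x = r).card
  let R : ℕ → Finset β := fun σ =>
    B.filter fun x => (W σ) ^ 2 ≤ d * c (p x) ∧ d * c (p x) < (W (σ + 1)) ^ 2
  -- a good scale
  have hsum : ∑ σ ∈ Finset.range lam, (R σ).card ≤ B.card := by
    have hdis : (↑(Finset.range lam) : Set ℕ).PairwiseDisjoint R := by
      intro a _ b _ hab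
      rw [Function.onFun, Finset.disjoint_left]
      intro x hxa hxb
      simp only [R, Finset.mem_filter] at hxa hxb
      rcases lt_or_gt_of_ne hab with h' | h'
      · have := Nat.pow_le_pow_left (hWmono (show a + 1 ≤ b from h')) 2
        omega
      · have := Nat.pow_le_pow_left (hWmono (show b + 1 ≤ a from h')) 2
        omega
    rw [← Finset.card_biUnion hdis]
    exact Finset.card_le_card (Finset.biUnion_subset.2 fun σ _ => Finset.filter_subset _ _)
  obtain ⟨σ, hσ, hσR⟩ : ∃ σ < lam, lam * (R σ).card ≤ B.card := by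
    by_contra hcon
    push Not at hcon
    have h1 : ∑ σ ∈ Finset.range lam, lam * (R σ).card ≤ lam * B.card := by
      rw [← Finset.mul_sum]
      exact Nat.mul_le_mul_left _ hsum
    have h2 : ∑ σ ∈ Finset.range lam, B.card < ∑ σ ∈ Finset.range lam, lam * (R σ).card :=
      Finset.sum_lt_sum_of_nonempty ⟨0, Finset.mem_range.2 (by omega)⟩
        fun σ hσ => hcon σ (Finset.mem_range.1 hσ)
    rw [Finset.sum_const, Finset.card_range, smul_eq_mul] at h2
    omega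
  refine ⟨σ, hσ, ?_⟩
  change (Pos y (W σ)).card ≤ 2 * ((Pos y (W σ)).filter fun P =>
    Good d h K₀ (512 * K₁) (W σ) L B p P).card
  set w := W σ with hw
  have hw1 : 1 ≤ w := hW1 σ
  have hwy : 2 * w ≤ y := by
    have : W σ ≤ W lam := hWmono hσ.le
    exact (Nat.mul_le_mul_left 2 this).trans hy
  set N := (Pos y w).card with hN
  have hyN : y ^ 2 ≤ 16 * N := pos_card hwy
  have hBN : B.card ≤ 16 * K₁ * N := by
    calc B.card ≤ K₁ * y ^ 2 := hB
      _ ≤ K₁ * (16 * N) := Nat.mul_le_mul_left _ hyN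
      _ = 16 * K₁ * N := by ring
  have hw4 : (w + 1) ^ 2 ≤ 4 * w ^ 2 := by nlinarith
  -- (A) heavy rows
  let H : ℕ → Finset (Bool × ℕ × ℕ) := fun τ => (B.image p).filter fun r => (W τ) ^ 2 ≤ d * c r
  have hH1 : ∀ S : Finset (Bool × ℕ × ℕ), S ⊆ B.image p →
      ∑ r ∈ S, c r = (B.filter fun x => p x ∈ S).card := by
    intro S hS
    have := Finset.card_eq_sum_card_fiberwise (f := p) (s := B.filter fun x => p x ∈ S) (t := S)
      (fun x hx => (Finset.mem_filter.1 hx).2)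
    rw [this]
    refine Finset.sum_congr rfl fun r hr => ?_
    simp only [c]
    congr 1
    ext x
    simp only [Finset.mem_filter]
    constructor
    · rintro ⟨h1, rfl⟩
      exact ⟨⟨h1, hr⟩, rfl⟩
    · rintro ⟨⟨h1, _⟩, h2⟩
      exact ⟨h1, h2⟩
  have hHa : (H (σ + 1)).card * (W (σ + 1)) ^ 2 ≤ d * B.card := by
    calc (H (σ + 1)).card * (W (σ + 1)) ^ 2 = ∑ r ∈ H (σ + 1), (W (σ + 1)) ^ 2 := by
          rw [Finset.sum_const, smul_eq_mul]
      _ ≤ ∑ r ∈ H (σ + 1), d * c r :=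
          Finset.sum_le_sum fun r hr => (Finset.mem_filter.1 hr).2
      _ = d * ∑ r ∈ H (σ + 1), c r := by rw [Finset.mul_sum]
      _ ≤ d * B.card := by
          rw [hH1 _ (Finset.filter_subset _ _)]
          exact Nat.mul_le_mul_left _ (Finset.card_le_card (Finset.filter_subset _ _))
  have hHb : (H σ \ H (σ + 1)).card * w ^ 2 ≤ d * (R σ).card := by
    calc (H σ \ H (σ + 1)).card * w ^ 2 = ∑ r ∈ H σ \ H (σ + 1), w ^ 2 := by
          rw [Finset.sum_const, smul_eq_mul]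
      _ ≤ ∑ r ∈ H σ \ H (σ + 1), d * c r :=
          Finset.sum_le_sum fun r hr => (Finset.mem_filter.1 (Finset.mem_sdiff.1 hr).1).2
      _ = d * ∑ r ∈ H σ \ H (σ + 1), c r := by rw [Finset.mul_sum]
      _ ≤ d * (R σ).card := by
          rw [hH1 _ (Finset.sdiff_subset.trans (Finset.filter_subset _ _))]
          refine Nat.mul_le_mul_left _ (Finset.card_le_card fun x hx => ?_)
          simp only [Finset.mem_filter, Finset.mem_sdiff, H, R, not_and, not_le] at hx ⊢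
          exact ⟨hx.1, hx.2.1.2, hx.2.2 hx.2.1.1⟩
  have hHc : lam * ((H σ).card * w ^ 2) ≤ 2 * (d * B.card) := by
    have h1 : (H σ).card ≤ (H (σ + 1)).card + (H σ \ H (σ + 1)).card := by
      have := Finset.card_le_card (show H σ ⊆ H (σ + 1) ∪ (H σ \ H (σ + 1)) by
        intro x hx
        by_cases h' : x ∈ H (σ + 1)
        · exact Finset.mem_union_left _ h'
        · exact Finset.mem_union_right _ (Finset.mem_sdiff.2 ⟨hx, h'⟩))
      exact this.trans (Finset.card_union_le _ _)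
    have h2 : lam * ((H (σ + 1)).card * w ^ 2) ≤ d * B.card := by
      refine le_trans ?_ hHa
      rw [hWs σ, ← hw]
      have : lam * w ^ 2 ≤ (lam * w) ^ 2 := by
        have h0 : (lam * w) ^ 2 = lam * (lam * w ^ 2) := by ring
        rw [h0]
        exact Nat.mul_le_mul_left _ (Nat.le_mul_of_pos_left _ hlam1)
      calc lam * ((H (σ + 1)).card * w ^ 2) = (H (σ + 1)).card * (lam * w ^ 2) := by ring
        _ ≤ _ := Nat.mul_le_mul_left _ this
    have h3 : lam * ((H σ \ H (σ + 1)).card * w ^ 2) ≤ d * B.card := by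
      calc lam * ((H σ \ H (σ + 1)).card * w ^ 2) ≤ lam * (d * (R σ).card) :=
            Nat.mul_le_mul_left _ hHb
        _ = d * (lam * (R σ).card) := by ring
        _ ≤ d * B.card := Nat.mul_le_mul_left _ hσR
    calc lam * ((H σ).card * w ^ 2)
        ≤ lam * (((H (σ + 1)).card + (H σ \ H (σ + 1)).card) * w ^ 2) :=
          Nat.mul_le_mul_left _ (Nat.mul_le_mul_right _ h1)
      _ = lam * ((H (σ + 1)).card * w ^ 2) + lam * ((H σ \ H (σ + 1)).card * w ^ 2) := by ring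
      _ ≤ 2 * (d * B.card) := by omega
  set bA := (Pos y w).filter fun P => ∃ r ∈ Seg w,
    w ^ 2 ≤ d * (B.filter fun x => p x = shS (2 * P.1) (2 * P.2) r).card with hbA
  have hA : 8 * bA.card ≤ N := by
    have h1 : bA.card ≤ (H σ).card * (w + 1) ^ 2 := by
      have hsub : bA ⊆ (H σ).biUnion fun r =>
          (Pos y w).filter fun P => r ∈ shS (2 * P.1) (2 * P.2) '' Seg w := by
        intro P hP
        rw [hbA, Finset.mem_filter] at hP
        obtain ⟨hP1, r, hr, hr2⟩ := hP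
        rw [Finset.mem_biUnion]
        refine ⟨shS (2 * P.1) (2 * P.2) r, ?_, Finset.mem_filter.2 ⟨hP1, r, hr, rfl⟩⟩
        rw [Finset.mem_filter]
        refine ⟨?_, hr2⟩
        have hpos : 0 < (B.filter fun x => p x = shS (2 * P.1) (2 * P.2) r).card := by
          rcases Nat.eq_zero_or_pos (B.filter fun x => p x = shS (2 * P.1) (2 * P.2) r).card
            with h0 | h0
          · rw [h0, mul_zero] at hr2
            have := Nat.pow_le_pow_left hw1 2
            omega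
          · exact h0
        obtain ⟨x, hx⟩ := Finset.card_pos.1 hpos
        rw [Finset.mem_filter] at hx
        exact Finset.mem_image.2 ⟨x, hx.1, hx.2⟩
      refine (Finset.card_le_card hsub).trans ((Finset.card_biUnion_le).trans ?_)
      refine (Finset.sum_le_card_nsmul _ _ _ fun r _ => cov y w r).trans ?_
      rw [smul_eq_mul]
    have h2 : lam * bA.card ≤ 128 * d * K₁ * N := by
      calc lam * bA.card ≤ lam * ((H σ).card * (w + 1) ^ 2) := Nat.mul_le_mul_left _ h1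
        _ ≤ lam * ((H σ).card * (4 * w ^ 2)) :=
            Nat.mul_le_mul_left _ (Nat.mul_le_mul_left _ hw4)
        _ = 4 * (lam * ((H σ).card * w ^ 2)) := by ring
        _ ≤ 4 * (2 * (d * B.card)) := Nat.mul_le_mul_left _ hHc
        _ ≤ 4 * (2 * (d * (16 * K₁ * N))) := by gcongr
        _ = 128 * d * K₁ * N := by ring
    have h3 : (128 * K₁) * (8 * (d + 1) * bA.card) ≤ (128 * K₁) * (d * N) := by
      calc (128 * K₁) * (8 * (d + 1) * bA.card) = lam * bA.card := by rw [hlam]; ring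
        _ ≤ 128 * d * K₁ * N := h2
        _ = (128 * K₁) * (d * N) := by ring
    have h4 : 8 * (d + 1) * bA.card ≤ d * N := Nat.le_of_mul_le_mul_left h3 (by positivity)
    have h5 : (d + 1) * (8 * bA.card) ≤ (d + 1) * N := by nlinarith
    exact Nat.le_of_mul_le_mul_left h5 (by omega)
  -- (B) total
  set bB := (Pos y w).filter fun P => 512 * K₁ * w ^ 2 <
    1 * (B.filter fun x => p x ∈ shS (2 * P.1) (2 * P.2) '' Seg w).card with hbB
  have hBb : 8 * bB.card ≤ N := by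
    have h1 := markov (Pos y w) B (fun P x => p x ∈ shS (2 * P.1) (2 * P.2) '' Seg w)
      ((w + 1) ^ 2) (512 * K₁ * w ^ 2) 1 (fun x _ => cov y w (p x))
    have h2 : bB.card * (512 * K₁ * w ^ 2) ≤ 1 * ((w + 1) ^ 2 * B.card) := by
      convert h1 using 3
    have h3 : (64 * K₁ * w ^ 2) * (8 * bB.card) ≤ (64 * K₁ * w ^ 2) * N := by
      calc (64 * K₁ * w ^ 2) * (8 * bB.card) = bB.card * (512 * K₁ * w ^ 2) := by ring
        _ ≤ 1 * ((w + 1) ^ 2 * B.card) := h2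
        _ ≤ 1 * ((4 * w ^ 2) * (16 * K₁ * N)) := by gcongr
        _ = (64 * K₁ * w ^ 2) * N := by ring
    exact Nat.le_of_mul_le_mul_left h3 (by positivity)
  -- (C) boundary layer
  set bC := (Pos y w).filter fun P => w ^ 2 <
    h * (B.filter fun x => p x ∈ shS (2 * P.1) (2 * P.2) '' layer w K₀).card with hbC
  have hC : 8 * bC.card ≤ N := by
    have h1 := markov (Pos y w) B (fun P x => p x ∈ shS (2 * P.1) (2 * P.2) '' layer w K₀)
      (4 * ((K₀ + 1) * (w + 1))) (w ^ 2) h (fun x _ => covL y w K₀ (p x))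
    have h2 : bC.card * w ^ 2 ≤ h * (4 * ((K₀ + 1) * (w + 1)) * B.card) := by
      convert h1 using 3
    have h3 : w * (w * bC.card) ≤ w * (128 * h * (K₀ + 1) * K₁ * N) := by
      calc w * (w * bC.card) = bC.card * w ^ 2 := by ring
        _ ≤ h * (4 * ((K₀ + 1) * (w + 1)) * B.card) := h2
        _ ≤ h * (4 * ((K₀ + 1) * (2 * w)) * (16 * K₁ * N)) := by
            gcongr
            omega
        _ = w * (128 * h * (K₀ + 1) * K₁ * N) := by ring
    have h4 : w * bC.card ≤ 128 * h * (K₀ + 1) * K₁ * N :=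
      Nat.le_of_mul_le_mul_left h3 (by omega)
    have h5 : 1024 * (h + 1) * (K₀ + 1) * K₁ ≤ w := by
      have h6 : w₀ * 1 ≤ w := Nat.mul_le_mul_left _ (Nat.one_le_pow _ _ hlam1)
      rw [mul_one] at h6
      refine le_trans ?_ h6
      rw [hw₀]
      exact Nat.le_add_left _ _
    have h7 : (128 * (K₀ + 1) * K₁) * ((h + 1) * (8 * bC.card)) ≤
        (128 * (K₀ + 1) * K₁) * (h * N) := by
      calc (128 * (K₀ + 1) * K₁) * ((h + 1) * (8 * bC.card))
          = 1024 * (h + 1) * (K₀ + 1) * K₁ * bC.card := by ring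
        _ ≤ w * bC.card := Nat.mul_le_mul_right _ h5
        _ ≤ 128 * h * (K₀ + 1) * K₁ * N := h4
        _ = (128 * (K₀ + 1) * K₁) * (h * N) := by ring
    have h8 : (h + 1) * (8 * bC.card) ≤ h * N := Nat.le_of_mul_le_mul_left h7 (by positivity)
    have h9 : (h + 1) * (8 * bC.card) ≤ (h + 1) * N := by nlinarith
    exact Nat.le_of_mul_le_mul_left h9 (by omega)
  -- (D) very heavy rows
  have hwtop : w ≤ w₀ * lam ^ lam := hWmono hσ.le
  set V := (B.image p).filter fun r => L' ≤ cnt B p r with hV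
  have hVc : V.card * L' ≤ B.card := by
    calc V.card * L' = ∑ r ∈ V, L' := by rw [Finset.sum_const, smul_eq_mul]
      _ ≤ ∑ r ∈ V, c r := Finset.sum_le_sum fun r hr => (Finset.mem_filter.1 hr).2
      _ ≤ B.card := by
          rw [hH1 _ (Finset.filter_subset _ _)]
          exact Finset.card_le_card (Finset.filter_subset _ _)
  set bV := (Pos y w).filter fun P => ∃ r ∈ V, r ∈ shS (2 * P.1) (2 * P.2) '' Seg w with hbV
  have hVb : 16 * bV.card ≤ N := by
    have h1 : bV.card ≤ V.card * (w + 1) ^ 2 := by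
      have hsub : bV ⊆ V.biUnion fun r =>
          (Pos y w).filter fun P => r ∈ shS (2 * P.1) (2 * P.2) '' Seg w := by
        intro P hP
        rw [hbV, Finset.mem_filter] at hP
        obtain ⟨hP1, r, hr, hr2⟩ := hP
        exact Finset.mem_biUnion.2 ⟨r, hr, Finset.mem_filter.2 ⟨hP1, hr2⟩⟩
      refine (Finset.card_le_card hsub).trans ((Finset.card_biUnion_le).trans ?_)
      refine (Finset.sum_le_card_nsmul _ _ _ fun r _ => cov y w r).trans ?_
      rw [smul_eq_mul]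
    have h2 : 1024 * K₁ * w ^ 2 ≤ L' :=
      (Nat.mul_le_mul_left _ (Nat.pow_le_pow_left hwtop 2)).trans hL'
    have h3 : (64 * K₁ * w ^ 2) * (16 * bV.card) ≤ (64 * K₁ * w ^ 2) * N := by
      calc (64 * K₁ * w ^ 2) * (16 * bV.card) = bV.card * (1024 * K₁ * w ^ 2) := by ring
        _ ≤ (V.card * (w + 1) ^ 2) * L' := Nat.mul_le_mul h1 h2
        _ = (w + 1) ^ 2 * (V.card * L') := by ring
        _ ≤ (4 * w ^ 2) * (16 * K₁ * N) := Nat.mul_le_mul hw4 (hVc.trans hBN)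
        _ = (64 * K₁ * w ^ 2) * N := by ring
    exact Nat.le_of_mul_le_mul_left h3 (by positivity)
  set B' := B.filter fun x => L < cnt B p (p x) ∧ cnt B p (p x) < L' with hB'
  set bD := (Pos y w).filter fun P => w ^ 2 <
    h * (B'.filter fun x => p x ∈ shS (2 * P.1) (2 * P.2) '' Seg w).card with hbD
  have hD : 16 * bD.card ≤ N := by
    have h1 := markov (Pos y w) B' (fun P x => p x ∈ shS (2 * P.1) (2 * P.2) '' Seg w)
      ((w + 1) ^ 2) (w ^ 2) h (fun x _ => cov y w (p x))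
    have h2 : bD.card * w ^ 2 ≤ h * ((w + 1) ^ 2 * B'.card) := by
      convert h1 using 3
    have h3 : w ^ 2 * (S * bD.card) ≤ w ^ 2 * (64 * h * K₁ * N) := by
      calc w ^ 2 * (S * bD.card) = S * (bD.card * w ^ 2) := by ring
        _ ≤ S * (h * ((w + 1) ^ 2 * B'.card)) := Nat.mul_le_mul_left _ h2
        _ = h * (w + 1) ^ 2 * (S * B'.card) := by ring
        _ ≤ h * (4 * w ^ 2) * (16 * K₁ * N) :=
            Nat.mul_le_mul (Nat.mul_le_mul_left _ hw4) (hS.trans hBN)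
        _ = w ^ 2 * (64 * h * K₁ * N) := by ring
    have h4 : S * bD.card ≤ 64 * h * K₁ * N := Nat.le_of_mul_le_mul_left h3 (by positivity)
    have h7 : (64 * K₁) * ((h + 1) * (16 * bD.card)) ≤ (64 * K₁) * (h * N) := by
      calc (64 * K₁) * ((h + 1) * (16 * bD.card)) = 1024 * (h + 1) * K₁ * bD.card := by ring
        _ ≤ S * bD.card := Nat.mul_le_mul_right _ hS1
        _ ≤ 64 * h * K₁ * N := h4
        _ = (64 * K₁) * (h * N) := by ring
    have h8 : (h + 1) * (16 * bD.card) ≤ h * N := Nat.le_of_mul_le_mul_left h7 (by positivity)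
    have h9 : (h + 1) * (16 * bD.card) ≤ (h + 1) * N := by nlinarith
    exact Nat.le_of_mul_le_mul_left h9 (by omega)
  -- conclusion
  have hall : Pos y w ⊆ ((((Pos y w).filter fun P => Good d h K₀ (512 * K₁) w L B p P) ∪ bA) ∪
      (bB ∪ bC)) ∪ (bV ∪ bD) := by
    intro P hP
    by_cases h1 : P ∈ bA
    · exact Finset.mem_union_left _ (Finset.mem_union_left _ (Finset.mem_union_right _ h1))
    by_cases h2 : P ∈ bB
    · exact Finset.mem_union_left _ (Finset.mem_union_right _ (Finset.mem_union_left _ h2))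
    by_cases h3 : P ∈ bC
    · exact Finset.mem_union_left _ (Finset.mem_union_right _ (Finset.mem_union_right _ h3))
    by_cases h4 : P ∈ bV
    · exact Finset.mem_union_right _ (Finset.mem_union_left _ h4)
    by_cases h5 : P ∈ bD
    · exact Finset.mem_union_right _ (Finset.mem_union_right _ h5)
    refine Finset.mem_union_left _ (Finset.mem_union_left _ (Finset.mem_union_left _
      (Finset.mem_filter.2 ⟨hP, ?_, ?_, ?_, ?_⟩)))
    · intro r hr
      by_contra hcon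
      exact h1 (Finset.mem_filter.2 ⟨hP, r, hr, not_lt.1 hcon⟩)
    · by_contra hcon
      refine h2 (Finset.mem_filter.2 ⟨hP, ?_⟩)
      rw [one_mul]
      exact not_le.1 hcon
    · by_contra hcon
      exact h3 (Finset.mem_filter.2 ⟨hP, not_le.1 hcon⟩)
    · by_contra hcon
      refine h5 (Finset.mem_filter.2 ⟨hP, ?_⟩)
      have h6 : (B'.filter fun x => p x ∈ shS (2 * P.1) (2 * P.2) '' Seg w) =
          B.filter fun x => p x ∈ shS (2 * P.1) (2 * P.2) '' Seg w ∧ L < cnt B p (p x) := by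
        ext x
        simp only [hB', Finset.mem_filter]
        constructor
        · rintro ⟨⟨e1, e2, e3⟩, e4⟩
          exact ⟨e1, e4, e2⟩
        · rintro ⟨e1, e4, e2⟩
          refine ⟨⟨e1, e2, ?_⟩, e4⟩
          by_contra e5
          exact h4 (Finset.mem_filter.2 ⟨hP, p x, Finset.mem_filter.2
            ⟨Finset.mem_image_of_mem _ e1, not_lt.1 e5⟩, e4⟩)
      rw [h6]
      exact not_le.1 hcon
  have h1 := Finset.card_le_card hall
  have h2 := Finset.card_union_le ((((Pos y w).filter fun P =>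
    Good d h K₀ (512 * K₁) w L B p P) ∪ bA) ∪ (bB ∪ bC)) (bV ∪ bD)
  have h3 := Finset.card_union_le (((Pos y w).filter fun P =>
    Good d h K₀ (512 * K₁) w L B p P) ∪ bA) (bB ∪ bC)
  have h4 := Finset.card_union_le ((Pos y w).filter fun P => Good d h K₀ (512 * K₁) w L B p P) bA
  have h5 := Finset.card_union_le bB bC
  have h6 := Finset.card_union_le bV bD
  omega

/-- thresholds: `sthr i` -/
def sthr (K₁ w₀ : ℕ) (D : ℕ → ℕ) : ℕ → ℕ
  | 0 => 0
  | i + 1 => 1024 * K₁ * (w₀ * (1024 * (D (sthr K₁ w₀ D i) + 1) * K₁) ^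
      (1024 * (D (sthr K₁ w₀ D i) + 1) * K₁)) ^ 2 + sthr K₁ w₀ D i

lemma sthr_mono (K₁ w₀ : ℕ) (D : ℕ → ℕ) : Monotone (sthr K₁ w₀ D) :=
  monotone_nat_of_le_succ fun i => by
    rw [sthr]
    exact Nat.le_add_left _ _

lemma sthr_top {K₁ w₀ : ℕ} (D : ℕ → ℕ) (hK : 1 ≤ K₁) (hw : 1 ≤ w₀) (i : ℕ) :
    w₀ * (1024 * (D (sthr K₁ w₀ D i) + 1) * K₁) ^ (1024 * (D (sthr K₁ w₀ D i) + 1) * K₁) ≤
      sthr K₁ w₀ D (i + 1) := by
  rw [sthr]
  set u := w₀ * (1024 * (D (sthr K₁ w₀ D i) + 1) * K₁) ^ (1024 * (D (sthr K₁ w₀ D i) + 1) * K₁)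
    with hu
  have h1 : u ≤ u ^ 2 := by
    rw [pow_two]
    exact Nat.le_mul_self u
  have h2 : u ^ 2 ≤ 1024 * K₁ * u ^ 2 :=
    Nat.le_mul_of_pos_left _ (by positivity)
  omega

lemma sthr_lam {K₁ w₀ : ℕ} (D : ℕ → ℕ) (hK : 1 ≤ K₁) (hw : 1 ≤ w₀) (i : ℕ) :
    1024 * (D (sthr K₁ w₀ D i) + 1) * K₁ ≤ sthr K₁ w₀ D (i + 1) := by
  refine le_trans ?_ (sthr_top D hK hw i)
  set l := 1024 * (D (sthr K₁ w₀ D i) + 1) * K₁ with hl
  have hl1 : 1 < l := by
    have : 1 ≤ (D (sthr K₁ w₀ D i) + 1) * K₁ := Nat.one_le_iff_ne_zero.2 (by positivity)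
    rw [hl, mul_assoc]
    omega
  have h1 : l ≤ l ^ l := (Nat.lt_pow_self hl1).le
  have h2 : l ^ l ≤ w₀ * l ^ l := Nat.le_mul_of_pos_left _ hw
  exact h1.trans h2

/-- **One tile, with the thresholds.** -/
lemma tile2 (K₁ h K₀ w₁ y w₀ S : ℕ) (D : ℕ → ℕ) (hK : 1 ≤ K₁)
    (hw₀ : w₀ = w₁ + 1024 * (h + 1) * (K₀ + 1) * K₁) (hS1 : S = 1024 * (h + 1) * K₁)
    (B : Finset β) (p : β → Bool × ℕ × ℕ) (hB : B.card ≤ K₁ * y ^ 2)
    (hy : 2 * sthr K₁ w₀ D S ≤ y) :
    ∃ i < S, ∃ σ < 1024 * (D (sthr K₁ w₀ D i) + 1) * K₁,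
      (Pos y (w₀ * (1024 * (D (sthr K₁ w₀ D i) + 1) * K₁) ^ σ)).card ≤
      2 * ((Pos y (w₀ * (1024 * (D (sthr K₁ w₀ D i) + 1) * K₁) ^ σ)).filter
        fun P => Good (D (sthr K₁ w₀ D i)) h K₀ (512 * K₁)
          (w₀ * (1024 * (D (sthr K₁ w₀ D i) + 1) * K₁) ^ σ) (sthr K₁ w₀ D i) B p P).card := by
  have hw₀1 : 1 ≤ w₀ := by
    have : 1 ≤ 1024 * (h + 1) * (K₀ + 1) * K₁ := Nat.one_le_iff_ne_zero.2 (by positivity)
    omega
  have hS0 : 1 ≤ S := by
    rw [hS1]
    exact Nat.one_le_iff_ne_zero.2 (by positivity)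
  let R : ℕ → Finset β := fun i => B.filter fun x =>
    sthr K₁ w₀ D i < cnt B p (p x) ∧ cnt B p (p x) < sthr K₁ w₀ D (i + 1)
  have hsum : ∑ i ∈ Finset.range S, (R i).card ≤ B.card := by
    have hdis : (↑(Finset.range S) : Set ℕ).PairwiseDisjoint R := by
      intro a _ b _ hab
      rw [Function.onFun, Finset.disjoint_left]
      intro x hxa hxb
      simp only [R, Finset.mem_filter] at hxa hxb
      rcases lt_or_gt_of_ne hab with h' | h'
      · have := sthr_mono K₁ w₀ D (show a + 1 ≤ b from h')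
        omega
      · have := sthr_mono K₁ w₀ D (show b + 1 ≤ a from h')
        omega
    rw [← Finset.card_biUnion hdis]
    exact Finset.card_le_card (Finset.biUnion_subset.2 fun i _ => Finset.filter_subset _ _)
  obtain ⟨i, hi, hiR⟩ : ∃ i < S, S * (R i).card ≤ B.card := by
    by_contra hcon
    push Not at hcon
    have h1 : ∑ i ∈ Finset.range S, S * (R i).card ≤ S * B.card := by
      rw [← Finset.mul_sum]
      exact Nat.mul_le_mul_left _ hsum
    have h2 : ∑ i ∈ Finset.range S, B.card < ∑ i ∈ Finset.range S, S * (R i).card :=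
      Finset.sum_lt_sum_of_nonempty ⟨0, Finset.mem_range.2 (by omega)⟩
        fun i hi => hcon i (Finset.mem_range.1 hi)
    rw [Finset.sum_const, Finset.card_range, smul_eq_mul] at h2
    omega
  have h1 : w₀ * (1024 * (D (sthr K₁ w₀ D i) + 1) * K₁) ^
      (1024 * (D (sthr K₁ w₀ D i) + 1) * K₁) ≤ sthr K₁ w₀ D S :=
    (sthr_top D hK hw₀1 i).trans (sthr_mono K₁ w₀ D hi)
  obtain ⟨σ, hσ, hσ2⟩ := tile K₁ (D (sthr K₁ w₀ D i)) h K₀ w₁ y _ w₀ (sthr K₁ w₀ D i)
    (sthr K₁ w₀ D (i + 1)) S hK rfl hw₀ B p hB ((Nat.mul_le_mul_left 2 h1).trans hy) hiR hS1.ge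
    (by rw [sthr]; exact Nat.le_add_right _ _)
  exact ⟨i, hi, σ, hσ, hσ2⟩

lemma tile_uniq {G s a b a' b' : ℕ} (hG : s < G) {t : Bool × ℕ × ℕ}
    (h : t ∈ shS (G * a) (G * b) '' Seg s) (h' : t ∈ shS (G * a') (G * b') '' Seg s) :
    a = a' ∧ b = b' := by
  obtain ⟨⟨c, x, z⟩, hs, rfl⟩ := h
  obtain ⟨⟨c', x', z'⟩, hs', he⟩ := h'
  simp only [shS, Prod.mk.injEq] at he
  simp only [Seg, mem_ofPred_eq] at hs hs'
  have key : ∀ u v m n : ℕ, u ≤ s → v ≤ s → u + G * m = v + G * n → m = n := by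
    intro u v m n hu hv h
    rcases lt_trichotomy m n with h1 | h1 | h1
    · have : G * (m + 1) ≤ G * n := Nat.mul_le_mul_left _ h1
      have e : G * (m + 1) = G * m + G := by ring
      omega
    · exact h1
    · have : G * (n + 1) ≤ G * m := Nat.mul_le_mul_left _ h1
      have e : G * (n + 1) = G * n + G := by ring
      omega
  have hx : x ≤ s := by rcases hs with ⟨-, h2, h3⟩ | ⟨-, h2, h3, -⟩ <;> omega
  have hz : z ≤ s := by rcases hs with ⟨-, h2, h3⟩ | ⟨-, h2, h3, -⟩ <;> omega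
  have hx' : x' ≤ s := by rcases hs' with ⟨-, h2, h3⟩ | ⟨-, h2, h3, -⟩ <;> omega
  have hz' : z' ≤ s := by rcases hs' with ⟨-, h2, h3⟩ | ⟨-, h2, h3, -⟩ <;> omega
  exact ⟨key x x' a a' hx hx' he.2.1.symm, key z z' b b' hz hz' he.2.2.symm⟩

end Scl

open Scl in
/-- **The multi-scale choice of the block.** `D L` is the inverse of the density `δ` which is
allowed to depend on the threshold `L`, `h` is the inverse of `η`.
(a) no row of the block is heavy, (b) total, (c) boundary layer, (d) rows with more than `L`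
elements carry little together. -/
theorem scale (K G : ℕ) : ∃ C : ℕ, ∀ (D : ℕ → ℕ) (h K₀ w₁ s : ℕ), s < G → 2 ∣ G →
    ∃ wmax c : ℕ, ∀ y₁ y₂ : ℕ, 2 * wmax ≤ y₁ → 2 * s ≤ y₂ → ∀ {α : Type*} (Q : Finset α)
      (p q : α → Bool × ℕ × ℕ), Q.card ≤ K * y₁ ^ 2 * y₂ ^ 2 →
      ∃ w L, 1 ≤ w ∧ w₁ ≤ w ∧ w ≤ wmax ∧ L ≤ wmax ∧ ∃ i j : ℕ, i % 2 = 0 ∧ j % 2 = 0 ∧
        i + w ≤ y₁ ∧ j + w ≤ y₁ ∧ ∃ 𝒯 : Finset (ℕ × ℕ), y₂ ^ 2 ≤ c * 𝒯.card ∧
        (∀ t ∈ 𝒯, G ∣ t.1 ∧ G ∣ t.2 ∧ t.1 + s ≤ y₂ ∧ t.2 + s ≤ y₂) ∧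
        ∀ t ∈ 𝒯,
          (∀ r ∈ Seg w, D L * (Q.filter fun x => p x = shS i j r ∧
            q x ∈ shS t.1 t.2 '' Seg s).card < w ^ 2) ∧
          (Q.filter fun x => p x ∈ shS i j '' Seg w ∧
            q x ∈ shS t.1 t.2 '' Seg s).card ≤ C * w ^ 2 ∧
          h * (Q.filter fun x => p x ∈ shS i j '' layer w K₀ ∧
            q x ∈ shS t.1 t.2 '' Seg s).card ≤ w ^ 2 ∧
          h * (Q.filter fun x => (p x ∈ shS i j '' Seg w ∧ q x ∈ shS t.1 t.2 '' Seg s) ∧
            L < (Q.filter fun x' => p x' = p x ∧ q x' ∈ shS t.1 t.2 '' Seg s).card).card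
              ≤ w ^ 2 := by
  obtain ⟨K₁, hK₁⟩ : ∃ K₁, K₁ = 8 * K * G ^ 2 + 1 := ⟨_, rfl⟩
  refine ⟨512 * K₁, fun D h K₀ w₁ s hsG h2G => ?_⟩
  obtain ⟨w₀, hw₀⟩ : ∃ w₀, w₀ = w₁ + 1024 * (h + 1) * (K₀ + 1) * K₁ := ⟨_, rfl⟩
  obtain ⟨S, hS⟩ : ∃ S, S = 1024 * (h + 1) * K₁ := ⟨_, rfl⟩
  have hK1 : 1 ≤ K₁ := by rw [hK₁]; exact Nat.succ_le_succ (Nat.zero_le _)
  have hw₀1 : 1 ≤ w₀ := by
    have : 1 ≤ 1024 * (h + 1) * (K₀ + 1) * K₁ := Nat.one_le_iff_ne_zero.2 (by positivity)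
    omega
  have hS0 : 1 ≤ S := by
    rw [hS]
    exact Nat.one_le_iff_ne_zero.2 (by positivity)
  have hG1 : 1 ≤ G := by omega
  let T := sthr K₁ w₀ D
  let lm : ℕ → ℕ := fun i => 1024 * (D (T i) + 1) * K₁
  let wf : ℕ × ℕ → ℕ := fun e => w₀ * (lm e.1) ^ e.2
  have hTm : Monotone T := sthr_mono K₁ w₀ D
  have hlm1 : ∀ i, 1 ≤ lm i := fun i => Nat.one_le_iff_ne_zero.2 (by
    change 1024 * (D (T i) + 1) * K₁ ≠ 0
    positivity)
  have hTop : ∀ i < S, w₀ * lm i ^ lm i ≤ T S := fun i hi =>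
    (sthr_top D hK1 hw₀1 i).trans (hTm hi)
  have hTlam : ∀ i < S, lm i ≤ T S := fun i hi => (sthr_lam D hK1 hw₀1 i).trans (hTm hi)
  refine ⟨T S, 16 * G ^ 2 * (S * T S), fun y₁ y₂ hy₁ hy₂ {α} Q p q hQ => ?_⟩
  have hTS1 : 1 ≤ T S := le_trans (hlm1 0) (hTlam 0 hS0)
  set m := (y₂ - s) / G + 1 with hm
  have hm2 : y₂ ≤ 2 * G * m := by
    have h1 : y₂ - s < G * ((y₂ - s) / G + 1) := by
      have := Nat.lt_mul_div_succ (y₂ - s) (show 0 < G from hG1)
      simpa [Nat.succ_eq_add_one] using this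
    have h2 : 2 * (y₂ - s) ≤ 2 * (G * m) := Nat.mul_le_mul_left 2 h1.le
    have h3 : 2 * G * m = 2 * (G * m) := by ring
    omega
  have hmsq : y₂ ^ 2 ≤ 4 * G ^ 2 * m ^ 2 := by
    calc y₂ ^ 2 ≤ (2 * G * m) ^ 2 := Nat.pow_le_pow_left hm2 2
      _ = 4 * G ^ 2 * m ^ 2 := by ring
  have hy1 : 1 ≤ y₁ := by omega
  let Lt : Finset (ℕ × ℕ) := Finset.range m ×ˢ Finset.range m
  let B : ℕ × ℕ → Finset α := fun t => Q.filter fun x => q x ∈ shS (G * t.1) (G * t.2) '' Seg s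
  let Gd : Finset (ℕ × ℕ) := Lt.filter fun t => (B t).card ≤ K₁ * y₁ ^ 2
  have hGd : m ^ 2 ≤ 2 * Gd.card := by
    have hLt : Lt.card = m ^ 2 := by
      simp only [Lt, Finset.card_product, Finset.card_range]
      ring
    have h1 := markov Lt Q (fun t x => q x ∈ shS (G * t.1) (G * t.2) '' Seg s) 1
      (K₁ * y₁ ^ 2) 1 (fun x _ => by
        refine Finset.card_le_one.2 fun a ha b hb => ?_
        obtain ⟨e1, e2⟩ := tile_uniq hsG (Finset.mem_filter.1 ha).2 (Finset.mem_filter.1 hb).2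
        exact Prod.ext e1 e2)
    set bd := Lt.filter fun t => K₁ * y₁ ^ 2 <
      1 * (Q.filter fun x => q x ∈ shS (G * t.1) (G * t.2) '' Seg s).card with hbd
    have h2 : bd.card * (K₁ * y₁ ^ 2) ≤ K * y₁ ^ 2 * y₂ ^ 2 := by
      refine h1.trans ?_
      rw [one_mul, one_mul]
      exact hQ
    have h3 : y₁ ^ 2 * (bd.card * K₁) ≤ y₁ ^ 2 * (4 * K * G ^ 2 * m ^ 2) := by
      calc y₁ ^ 2 * (bd.card * K₁) = bd.card * (K₁ * y₁ ^ 2) := by ring
        _ ≤ K * y₁ ^ 2 * y₂ ^ 2 := h2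
        _ ≤ K * y₁ ^ 2 * (4 * G ^ 2 * m ^ 2) := Nat.mul_le_mul_left _ hmsq
        _ = y₁ ^ 2 * (4 * K * G ^ 2 * m ^ 2) := by ring
    have h4 : bd.card * K₁ ≤ 4 * K * G ^ 2 * m ^ 2 :=
      Nat.le_of_mul_le_mul_left h3 (by positivity)
    have h5 : 2 * bd.card ≤ m ^ 2 := by
      rcases Nat.eq_zero_or_pos (K * G ^ 2) with h0 | h0
      · have : 4 * K * G ^ 2 * m ^ 2 = 0 := by
          have : 4 * K * G ^ 2 = 4 * (K * G ^ 2) := by ring
          rw [this, h0]
          ring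
        rw [this] at h4
        have : bd.card * 1 ≤ bd.card * K₁ := Nat.mul_le_mul_left _ hK1
        omega
      · have h6 : (4 * (K * G ^ 2)) * (2 * bd.card) ≤ (4 * (K * G ^ 2)) * m ^ 2 := by
          calc (4 * (K * G ^ 2)) * (2 * bd.card) ≤ bd.card * K₁ := by
                rw [hK₁]
                nlinarith
            _ ≤ 4 * K * G ^ 2 * m ^ 2 := h4
            _ = (4 * (K * G ^ 2)) * m ^ 2 := by ring
        exact Nat.le_of_mul_le_mul_left h6 (by positivity)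
    have h7 : Lt ⊆ Gd ∪ bd := by
      intro t ht
      by_cases hc : (B t).card ≤ K₁ * y₁ ^ 2
      · exact Finset.mem_union_left _ (Finset.mem_filter.2 ⟨ht, hc⟩)
      · refine Finset.mem_union_right _ (Finset.mem_filter.2 ⟨ht, ?_⟩)
        rw [one_mul]
        exact not_le.1 hc
    have h8 := (Finset.card_le_card h7).trans (Finset.card_union_le _ _)
    omega
  -- the scale of a tile
  have hsc : ∀ t : ℕ × ℕ, ∃ e : ℕ × ℕ, t ∈ Gd → e.1 < S ∧ e.2 < lm e.1 ∧
      (Pos y₁ (wf e)).card ≤ 2 * ((Pos y₁ (wf e)).filter fun P =>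
        Good (D (T e.1)) h K₀ (512 * K₁) (wf e) (T e.1) (B t) p P).card := by
    intro t
    by_cases ht : t ∈ Gd
    · obtain ⟨i, h0, σ, h1, h2⟩ := tile2 K₁ h K₀ w₁ y₁ w₀ S D hK1 hw₀ hS (B t) p
        (Finset.mem_filter.1 ht).2 hy₁
      exact ⟨(i, σ), fun _ => ⟨h0, h1, h2⟩⟩
    · exact ⟨(0, 0), fun h => absurd h ht⟩
  choose σf hσf using hsc
  set Pr : Finset (ℕ × ℕ) := Finset.range S ×ˢ Finset.range (T S) with hPr
  have hPrc : Pr.card = S * T S := by
    rw [hPr, Finset.card_product, Finset.card_range, Finset.card_range]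
  have hmaps : ∀ t ∈ Gd, σf t ∈ Pr := by
    intro t ht
    obtain ⟨h1, h2, -⟩ := hσf t ht
    rw [hPr, Finset.mem_product, Finset.mem_range, Finset.mem_range]
    exact ⟨h1, h2.trans_le (hTlam _ h1)⟩
  obtain ⟨e, he, hec⟩ : ∃ e ∈ Pr, Gd.card ≤ (S * T S) * (Gd.filter fun t => σf t = e).card := by
    by_contra hcon
    push Not at hcon
    have h1 : Gd.card = ∑ e ∈ Pr, (Gd.filter fun t => σf t = e).card :=
      Finset.card_eq_sum_card_fiberwise fun t ht => Finset.mem_coe.2 (hmaps t ht)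
    have hne : Pr.Nonempty := Finset.card_pos.1 (by rw [hPrc]; positivity)
    have h2 : ∑ e ∈ Pr, (S * T S) * (Gd.filter fun t => σf t = e).card <
        ∑ e ∈ Pr, Gd.card :=
      Finset.sum_lt_sum_of_nonempty hne fun e he => hcon e he
    rw [← Finset.mul_sum, ← h1, Finset.sum_const, hPrc, smul_eq_mul] at h2
    omega
  obtain ⟨Gs, hGs⟩ : ∃ Gs, Gs = Gd.filter fun t => σf t = e := ⟨_, rfl⟩
  rw [← hGs] at hec
  rcases Gs.eq_empty_or_nonempty with hGe | hGne
  · -- no tile at all: then `y₂ = 0`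
    rw [hGe] at hec
    simp only [Finset.card_empty, mul_zero, Nat.le_zero] at hec
    rw [hec] at hGd
    have hm0 : m ^ 2 = 0 := by omega
    have : 0 < m ^ 2 := by positivity
    omega
  obtain ⟨t₀, ht₀⟩ := hGne
  rw [hGs, Finset.mem_filter] at ht₀
  obtain ⟨he1, he2, -⟩ := hσf t₀ ht₀.1
  rw [ht₀.2] at he1 he2
  obtain ⟨w, hw⟩ : ∃ w, w = wf e := ⟨_, rfl⟩
  obtain ⟨L, hL⟩ : ∃ L, L = T e.1 := ⟨_, rfl⟩
  have hgood : ∀ t ∈ Gs, (Pos y₁ w).card ≤ 2 * ((Pos y₁ w).filter fun P =>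
      Good (D L) h K₀ (512 * K₁) w L (B t) p P).card := by
    intro t ht
    rw [hGs, Finset.mem_filter] at ht
    have := (hσf t ht.1).2.2
    rw [ht.2, ← hw, ← hL] at this
    exact this
  -- the position
  obtain ⟨P, hP, hPc⟩ : ∃ P ∈ Pos y₁ w, Gs.card ≤
      2 * (Gs.filter fun t => Good (D L) h K₀ (512 * K₁) w L (B t) p P).card := by
    by_contra hcon
    push Not at hcon
    have h1 : ∑ P ∈ Pos y₁ w, (Gs.filter fun t =>
        Good (D L) h K₀ (512 * K₁) w L (B t) p P).card =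
        ∑ t ∈ Gs, ((Pos y₁ w).filter fun P => Good (D L) h K₀ (512 * K₁) w L (B t) p P).card := by
      simpa [Finset.bipartiteAbove, Finset.bipartiteBelow] using
        Finset.sum_card_bipartiteAbove_eq_sum_card_bipartiteBelow (s := Pos y₁ w) (t := Gs)
          (fun P t => Good (D L) h K₀ (512 * K₁) w L (B t) p P)
    have h2 : Gs.card * (Pos y₁ w).card ≤ 2 * ∑ t ∈ Gs, ((Pos y₁ w).filter fun P =>
        Good (D L) h K₀ (512 * K₁) w L (B t) p P).card := by
      rw [Finset.mul_sum, ← smul_eq_mul (a := Gs.card)]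
      exact Finset.card_nsmul_le_sum _ _ _ hgood
    have hne : (Pos y₁ w).Nonempty := ⟨(0, 0), by simp [Pos]⟩
    have h3 : ∑ P ∈ Pos y₁ w, 2 * (Gs.filter fun t =>
        Good (D L) h K₀ (512 * K₁) w L (B t) p P).card < ∑ P ∈ Pos y₁ w, Gs.card :=
      Finset.sum_lt_sum_of_nonempty hne fun P hP => hcon P hP
    rw [← Finset.mul_sum, h1, Finset.sum_const, smul_eq_mul, mul_comm (Pos y₁ w).card] at h3
    omega
  obtain ⟨Gf, hGf⟩ : ∃ Gf, Gf = Gs.filter fun t =>
    Good (D L) h K₀ (512 * K₁) w L (B t) p P := ⟨_, rfl⟩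
  rw [← hGf] at hPc
  have hinj : Set.InjOn (fun t : ℕ × ℕ => (G * t.1, G * t.2)) (Gf : Set (ℕ × ℕ)) := by
    rintro ⟨a, b⟩ _ ⟨a', b'⟩ _ he
    simp only [Prod.mk.injEq] at he
    exact Prod.ext (Nat.eq_of_mul_eq_mul_left hG1 he.1) (Nat.eq_of_mul_eq_mul_left hG1 he.2)
  have hwmax : w ≤ T S := by
    rw [hw]
    exact (Nat.mul_le_mul_left _ (Nat.pow_le_pow_right (hlm1 _) he2.le)).trans (hTop _ he1)
  have hw0w : w₀ ≤ w := by
    rw [hw]
    have : w₀ * 1 ≤ w₀ * lm e.1 ^ e.2 := Nat.mul_le_mul_left _ (Nat.one_le_pow _ _ (hlm1 _))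
    simpa using this
  have hLmax : L ≤ T S := by
    rw [hL]
    exact hTm he1.le
  rw [Pos, Finset.mem_product, Finset.mem_range, Finset.mem_range] at hP
  refine ⟨w, L, by omega, by omega, hwmax, hLmax, 2 * P.1, 2 * P.2, by omega, by omega, by omega,
    by omega, Gf.image fun t => (G * t.1, G * t.2), ?_, ?_, ?_⟩
  · rw [Finset.card_image_of_injOn hinj]
    calc y₂ ^ 2 ≤ 4 * G ^ 2 * m ^ 2 := hmsq
      _ ≤ 4 * G ^ 2 * (2 * Gd.card) := Nat.mul_le_mul_left _ hGd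
      _ ≤ 4 * G ^ 2 * (2 * ((S * T S) * Gs.card)) := by gcongr
      _ ≤ 4 * G ^ 2 * (2 * ((S * T S) * (2 * Gf.card))) := by gcongr
      _ = 16 * G ^ 2 * (S * T S) * Gf.card := by ring
  · intro t ht
    rw [Finset.mem_image] at ht
    obtain ⟨⟨a, b⟩, hab, rfl⟩ := ht
    rw [hGf, Finset.mem_filter, hGs, Finset.mem_filter, Finset.mem_filter, Finset.mem_product,
      Finset.mem_range, Finset.mem_range] at hab
    obtain ⟨⟨⟨⟨h1, h2⟩, -⟩, -⟩, -⟩ := hab
    have key : ∀ a : ℕ, a < m → G * a + s ≤ y₂ := by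
      intro a ha
      have h3 : G * a ≤ G * ((y₂ - s) / G) := Nat.mul_le_mul_left _ (by omega)
      have h4 := Nat.mul_div_le (y₂ - s) G
      omega
    exact ⟨Dvd.intro _ rfl, Dvd.intro _ rfl, key a h1, key b h2⟩
  · intro t ht
    rw [Finset.mem_image] at ht
    obtain ⟨⟨a, b⟩, hab, rfl⟩ := ht
    rw [hGf, Finset.mem_filter] at hab
    obtain ⟨g1, g2, g3, g4⟩ := hab.2
    have hfil : ∀ f : α → Prop, ((B (a, b)).filter fun x => f x) =
        Q.filter fun x => f x ∧ q x ∈ shS (G * a) (G * b) '' Seg s := by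
      intro f
      ext x
      simp only [B, Finset.mem_filter]
      constructor
      · rintro ⟨⟨h1, h2⟩, h3⟩
        exact ⟨h1, h3, h2⟩
      · rintro ⟨h1, h3, h2⟩
        exact ⟨⟨h1, h2⟩, h3⟩
    have hrow : ∀ r : Bool × ℕ × ℕ, (Q.filter fun x => p x = r ∧
        q x ∈ shS (G * a) (G * b) '' Seg s).card = cnt (B (a, b)) p r := by
      intro r
      rw [cnt]
      congr 1
      ext x
      simp only [B, Finset.mem_filter]
      constructor
      · rintro ⟨h1, h3, h2⟩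
        exact ⟨⟨h1, h2⟩, h3⟩
      · rintro ⟨⟨h1, h2⟩, h3⟩
        exact ⟨h1, h3, h2⟩
    rw [hfil] at g2 g3
    refine ⟨fun r hr => ?_, g2, g3, ?_⟩
    · simp only
      rw [hrow]
      exact g1 r hr
    · have h5 : (Q.filter fun x => (p x ∈ shS (2 * P.1) (2 * P.2) '' Seg w ∧
          q x ∈ shS (G * a) (G * b) '' Seg s) ∧
          L < (Q.filter fun x' => p x' = p x ∧ q x' ∈ shS (G * a) (G * b) '' Seg s).card).card =
          ((B (a, b)).filter fun x => p x ∈ shS (2 * P.1) (2 * P.2) '' Seg w ∧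
            L < cnt (B (a, b)) p (p x)).card := by
        congr 1
        ext x
        simp only [B, Finset.mem_filter, hrow]
        constructor
        · rintro ⟨h1, ⟨h2, h3⟩, h4⟩
          exact ⟨⟨h1, h3⟩, h2, h4⟩
        · rintro ⟨⟨h1, h3⟩, h2, h4⟩
          exact ⟨h1, ⟨h2, h3⟩, h4⟩
      simp only
      rw [h5]
      exact g4

end CWL
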