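import Pool.Agent.CW.TDefs

/-!
# After Theorem CW, row T2: contracting all elements of every segment but one
-/

open Set BIC BICS
open scoped Matroid

namespace CWL

universe u

namespace T2

/-- vertex number `t` of the segment `s` -/
def sv (Z : ℕ × ℕ) (l : ℕ) (s : Bool × ℕ × ℕ) (t : ℕ) : ℕ × ℕ :=
  if s.1 = true then (Z.1 + s.2.1 * l + t, Z.2 + s.2.2 * l) else
    (Z.1 + s.2.1 * l, Z.2 + s.2.2 * l + t)

/-- the node `v` of the wall -/
def nd (Z : ℕ × ℕ) (l : ℕ) (v : ℕ × ℕ) : ℕ × ℕ := (Z.1 + v.1 * l, Z.2 + v.2 * l)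

variable {Z : ℕ × ℕ} {l y N : ℕ}

lemma sv_zero (s : Bool × ℕ × ℕ) : sv Z l s 0 = nd Z l (segNear s) := by
  unfold sv nd segNear
  split_ifs <;> simp

lemma sv_last (s : Bool × ℕ × ℕ) : sv Z l s l = nd Z l (segFar s) := by
  unfold sv nd segFar
  split_ifs
  · simp only [Prod.mk.injEq, and_true]; ring
  · simp only [Prod.mk.injEq, true_and]; ring

lemma nd_inj (hl : 1 ≤ l) {v w : ℕ × ℕ} (h : nd Z l v = nd Z l w) : v = w := by
  unfold nd at h
  simp only [Prod.mk.injEq] at h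
  have h1 : v.1 * l = w.1 * l := by omega
  have h2 : v.2 * l = w.2 * l := by omega
  exact Prod.ext (Nat.eq_of_mul_eq_mul_right (by omega) h1)
    (Nat.eq_of_mul_eq_mul_right (by omega) h2)

lemma near_ne_far (s : Bool × ℕ × ℕ) : segNear s ≠ segFar s := by
  unfold segNear segFar
  split_ifs
  · intro h; simp only [Prod.mk.injEq] at h; omega
  · intro h; simp only [Prod.mk.injEq] at h; omega

/-- division with remainder, upper remainder allowed on one side -/
lemma div_aux {i i' t t' l : ℕ} (ht0 : 0 < t) (ht : t < l) (ht' : t' ≤ l)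
    (h : i * l + t = i' * l + t') : i = i' ∧ t = t' := by
  have h1 : i < i' + 1 := by
    by_contra hc
    have : (i' + 1) * l ≤ i * l := Nat.mul_le_mul_right _ (by omega)
    have e : (i' + 1) * l = i' * l + l := by ring
    omega
  have h2 : i' < i + 1 := by
    by_contra hc
    have : (i + 1) * l ≤ i' * l := Nat.mul_le_mul_right _ (by omega)
    have e : (i + 1) * l = i * l + l := by ring
    omega
  have h3 : i = i' := by omega
  subst h3
  exact ⟨rfl, by omega⟩

lemma div_aux' {i i' t t' l : ℕ} (ht : t < l) (ht' : t' < l)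
    (h : i * l + t = i' * l + t') : i = i' ∧ t = t' := by
  have h1 : i < i' + 1 := by
    by_contra hc
    have : (i' + 1) * l ≤ i * l := Nat.mul_le_mul_right _ (by omega)
    have e : (i' + 1) * l = i' * l + l := by ring
    omega
  have h2 : i' < i + 1 := by
    by_contra hc
    have : (i + 1) * l ≤ i' * l := Nat.mul_le_mul_right _ (by omega)
    have e : (i + 1) * l = i * l + l := by ring
    omega
  have h3 : i = i' := by omega
  subst h3
  exact ⟨rfl, by omega⟩

lemma not_dvd_aux {i i' t l : ℕ} (ht0 : 0 < t) (ht : t < l) (h : i * l + t = i' * l) : False := by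
  have h1 := div_aux (i := i) (i' := i') (t := t) (t' := 0) ht0 ht (by omega) (by omega)
  omega

/-- an interior vertex lies on one segment only -/
lemma sv_int {s s' : Bool × ℕ × ℕ} {t t' : ℕ} (ht0 : 0 < t) (ht : t < l) (ht' : t' ≤ l)
    (h : sv Z l s t = sv Z l s' t') : s = s' ∧ t = t' := by
  obtain ⟨b, i, j⟩ := s
  obtain ⟨b', i', j'⟩ := s'
  unfold sv at h
  cases b <;> cases b' <;> simp only [if_true, Bool.false_eq_true, if_false, Prod.mk.injEq] at h
  · obtain ⟨h1, h2⟩ := h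
    have h3 : i * l = i' * l := by omega
    have h4 := Nat.eq_of_mul_eq_mul_right (by omega) h3
    obtain ⟨h5, h6⟩ := div_aux (i := j) (i' := j') ht0 ht ht' (by omega)
    exact ⟨by rw [h4, h5], h6⟩
  · obtain ⟨h1, h2⟩ := h
    exact (not_dvd_aux (i := j) (i' := j') ht0 ht (by omega)).elim
  · obtain ⟨h1, h2⟩ := h
    exact (not_dvd_aux (i := i) (i' := i') ht0 ht (by omega)).elim
  · obtain ⟨h1, h2⟩ := h
    have h3 : j * l = j' * l := by omega
    have h4 := Nat.eq_of_mul_eq_mul_right (by omega) h3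
    obtain ⟨h5, h6⟩ := div_aux (i := i) (i' := i') ht0 ht ht' (by omega)
    exact ⟨by rw [h4, h5], h6⟩

lemma sv_ne_nd {s : Bool × ℕ × ℕ} {t : ℕ} (ht0 : 0 < t) (ht : t < l) (v : ℕ × ℕ) :
    sv Z l s t ≠ nd Z l v := by
  intro h
  have h1 : nd Z l v = sv Z l (s.1, v) 0 := by rw [sv_zero]; rfl
  rw [h1] at h
  have h2 := (sv_int ht0 ht (by omega) h).2
  omega

/-- vertices of one segment -/
lemma sv_same {s : Bool × ℕ × ℕ} {t t' : ℕ} (h : sv Z l s t = sv Z l s t') : t = t' := by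
  unfold sv at h
  split_ifs at h
  · simp only [Prod.mk.injEq] at h; omega
  · simp only [Prod.mk.injEq] at h; omega

/-- the edge determines the segment and the position -/
lemma edge_inj {s s' : Bool × ℕ × ℕ} {t t' : ℕ} (ht : t < l) (ht' : t' < l)
    (h : s(sv Z l s t, sv Z l s (t + 1)) = s(sv Z l s' t', sv Z l s' (t' + 1))) :
    s = s' ∧ t = t' := by
  obtain ⟨b, i, j⟩ := s
  obtain ⟨b', i', j'⟩ := s'
  rw [Sym2.eq_iff] at h
  unfold sv at h
  cases b <;> cases b' <;> simp only [if_true, Bool.false_eq_true, if_false, Prod.mk.injEq] at h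
  · have h1 : i * l = i' * l := by omega
    have h4 := Nat.eq_of_mul_eq_mul_right (by omega) h1
    obtain ⟨h5, h6⟩ := div_aux' (i := j) (i' := j') ht ht' (by omega)
    exact ⟨by rw [h4, h5], h6⟩
  · omega
  · omega
  · have h1 : j * l = j' * l := by omega
    have h4 := Nat.eq_of_mul_eq_mul_right (by omega) h1
    obtain ⟨h5, h6⟩ := div_aux' (i := i) (i' := i') ht ht' (by omega)
    exact ⟨by rw [h4, h5], h6⟩

lemma sv_mem (h1 : Z.1 + l * y < 2 * N) (h2 : Z.2 + l * y < 2 * N) {s : Bool × ℕ × ℕ}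
    (hs : s ∈ Seg y) {t : ℕ} (ht : t ≤ l) : sv Z l s t ∈ rect 0 0 (2 * N) (2 * N) := by
  obtain ⟨b, i, j⟩ := s
  unfold sv rect
  rcases hs with ⟨e1, e2, e3⟩ | ⟨e1, e2, e3, _⟩ <;> simp only at e1 e2 e3 <;> subst e1
  · have k1 : (i + 1) * l ≤ y * l := Nat.mul_le_mul_right _ e2
    have k2 : j * l ≤ y * l := Nat.mul_le_mul_right _ e3
    have k3 : (i + 1) * l = i * l + l := by ring
    have k4 : y * l = l * y := by ring
    simp only [if_true, mem_ofPred_eq]
    omega
  · have k1 : (j + 1) * l ≤ y * l := Nat.mul_le_mul_right _ e3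
    have k2 : i * l ≤ y * l := Nat.mul_le_mul_right _ e2
    have k3 : (j + 1) * l = j * l + l := by ring
    have k4 : y * l = l * y := by ring
    simp only [Bool.false_eq_true, if_false, mem_ofPred_eq]
    omega

lemma sv_adj (s : Bool × ℕ × ℕ) (t : ℕ) : adj (sv Z l s t) (sv Z l s (t + 1)) := by
  unfold sv adj
  split_ifs
  · right; exact ⟨rfl, Or.inl rfl⟩
  · left; exact ⟨rfl, Or.inl rfl⟩

lemma mem_segE {α : Type*} {T : Set α} {ends : α → Sym2 (ℕ × ℕ)} {s : Bool × ℕ × ℕ} {e : α} :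
    e ∈ segE T ends Z l s ↔ e ∈ T ∧ ∃ t < l, ends e = s(sv Z l s t, sv Z l s (t + 1)) := by
  obtain ⟨b, i, j⟩ := s
  unfold segE sv
  cases b
  · simp [add_assoc]
  · simp [add_assoc]

/-- the elements of the segments -/
structure El {α : Type*} (T : Set α) (ends : α → Sym2 (ℕ × ℕ)) (Z : ℕ × ℕ) (l y : ℕ)
    (el : Bool × ℕ × ℕ → ℕ → α) : Prop where
  mem : ∀ s ∈ Seg y, ∀ t < l, el s t ∈ T
  eq : ∀ s ∈ Seg y, ∀ t < l, ends (el s t) = s(sv Z l s t, sv Z l s (t + 1))

lemma exists_el {α : Type*} {T : Set α} {ends : α → Sym2 (ℕ × ℕ)}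
    (hG : Grd T ends 0 0 (2 * N) (2 * N)) (hne : Nonempty α)
    (h1 : Z.1 + l * y < 2 * N) (h2 : Z.2 + l * y < 2 * N) :
    ∃ el : Bool × ℕ × ℕ → ℕ → α, El T ends Z l y el := by
  classical
  have h : ∀ s t, ∃ e : α, s ∈ Seg y → t < l →
      e ∈ T ∧ ends e = s(sv Z l s t, sv Z l s (t + 1)) := by
    intro s t
    by_cases hs : s ∈ Seg y
    · by_cases ht : t < l
      · obtain ⟨e, he, he'⟩ := hG.surj _ _ (sv_adj s t) (sv_mem h1 h2 hs ht.le)
          (sv_mem h1 h2 hs (Nat.succ_le_of_lt ht))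
        exact ⟨e, fun _ _ => ⟨he, he'⟩⟩
      · exact ⟨hne.some, fun _ h => absurd h ht⟩
    · exact ⟨hne.some, fun h => absurd h hs⟩
  choose el hel using h
  exact ⟨el, fun s hs t ht => (hel s t hs ht).1, fun s hs t ht => (hel s t hs ht).2⟩

section main

variable {α : Type*} {T : Set α} {ends : α → Sym2 (ℕ × ℕ)} {el : Bool × ℕ × ℕ → ℕ → α}

lemma El.inj (h : El T ends Z l y el) {s s' : Bool × ℕ × ℕ} (hs : s ∈ Seg y) (hs' : s' ∈ Seg y)
    {t t' : ℕ} (ht : t < l) (ht' : t' < l) (he : el s t = el s' t') : s = s' ∧ t = t' := by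
  have h1 := h.eq s hs t ht
  rw [he, h.eq s' hs' t' ht'] at h1
  exact edge_inj ht ht' h1.symm

lemma El.segE (h : El T ends Z l y el) (hi : InjOn ends T) {s : Bool × ℕ × ℕ} (hs : s ∈ Seg y) :
    segE T ends Z l s = {x | ∃ t < l, x = el s t} := by
  ext x
  rw [mem_segE]
  constructor
  · rintro ⟨hx, t, ht, he⟩
    exact ⟨t, ht, hi hx (h.mem s hs t ht) (by rw [he, h.eq s hs t ht])⟩
  · rintro ⟨t, ht, rfl⟩
    exact ⟨h.mem s hs t ht, t, ht, h.eq s hs t ht⟩

/-- the contracted elements of the segments in `S` -/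
def con (el : Bool × ℕ × ℕ → ℕ → α) (l : ℕ) (S : Set (Bool × ℕ × ℕ)) : Set α :=
  {x | ∃ s ∈ S, ∃ t, 0 < t ∧ t < l ∧ x = el s t}

lemma con_mono {S S' : Set (Bool × ℕ × ℕ)} (h : S ⊆ S') : con el l S ⊆ con el l S' := by
  rintro x ⟨s, hs, t, h1, h2, rfl⟩
  exact ⟨s, h hs, t, h1, h2, rfl⟩

lemma El.con_sub (h : El T ends Z l y el) {S : Set (Bool × ℕ × ℕ)} (hS : S ⊆ Seg y) :
    con el l S ⊆ T := by
  rintro x ⟨s, hs, t, _, h2, rfl⟩
  exact h.mem s (hS hs) t h2

lemma El.not_con (hl : 1 ≤ l) (h : El T ends Z l y el) {s : Bool × ℕ × ℕ} (hs : s ∈ Seg y) :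
    el s 0 ∉ con el l (Seg y) := by
  rintro ⟨s', hs', t, h1, h2, h3⟩
  have := (h.inj hs hs' (by omega) h2 h3).2
  omega

/-- the position data of an element -/
noncomputable def psi (el : Bool × ℕ × ℕ → ℕ → α) (Z : ℕ × ℕ) (l y : ℕ)
    (off : Bool × ℕ × ℕ → ℕ) (x : α) : ℕ × ℕ :=
  open Classical in
  if h : ∃ s ∈ Seg y, ∃ t, t < l ∧ x = el s t then
    sv Z l h.choose (h.choose_spec.2.choose + off h.choose) else (0, 0)

lemma El.psi_eq (h : El T ends Z l y el) (off : Bool × ℕ × ℕ → ℕ) {s : Bool × ℕ × ℕ}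
    (hs : s ∈ Seg y) {t : ℕ} (ht : t < l) : psi el Z l y off (el s t) = sv Z l s (t + off s) := by
  classical
  have hex : ∃ s' ∈ Seg y, ∃ t', t' < l ∧ el s t = el s' t' := ⟨s, hs, t, ht, rfl⟩
  unfold psi
  rw [dif_pos hex]
  have h1 := h.inj hs hex.choose_spec.1 ht hex.choose_spec.2.choose_spec.1
    hex.choose_spec.2.choose_spec.2
  rw [← h1.2]
  congr 1
  · exact h1.1.symm
  · rw [← h1.1]

/-- the new ends -/
noncomputable def ends2 (el : Bool × ℕ × ℕ → ℕ → α) (y : ℕ) (x : α) : Sym2 (ℕ × ℕ) :=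
  open Classical in
  if h : ∃ s ∈ Seg y, x = el s 0 then s(segNear h.choose, segFar h.choose) else s((0, 0), (0, 0))

lemma El.ends2_eq (hl : 1 ≤ l) (h : El T ends Z l y el) {s : Bool × ℕ × ℕ} (hs : s ∈ Seg y) :
    ends2 el y (el s 0) = s(segNear s, segFar s) := by
  classical
  have hex : ∃ s' ∈ Seg y, el s 0 = el s' 0 := ⟨s, hs, rfl⟩
  unfold ends2
  rw [dif_pos hex]
  have h1 := h.inj hs hex.choose_spec.1 (by omega) (by omega) hex.choose_spec.2
  rw [← h1.1]

/-- independence over the contracted elements -/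
lemma El.indep {P : Matroid α} (hP : Bic P T ends) (hl : 1 ≤ l) (h : El T ends Z l y el)
    {F : Set α} {φ : α → ℕ × ℕ} (hF : F ⊆ (fun s => el s 0) '' Seg y) (hφ : InjOn φ F)
    (hφe : ∀ x ∈ F, φ x ∈ ends2 el y x) : P.Indep (F ∪ con el l (Seg y)) := by
  classical
  set off : Bool × ℕ × ℕ → ℕ := fun s => if el s 0 ∈ F ∧ φ (el s 0) = segFar s then 1 else 0
    with hoff
  -- description of the elements
  have hdesc : ∀ x ∈ F ∪ con el l (Seg y), ∃ s ∈ Seg y, ∃ t, t < l ∧ x = el s t ∧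
      ((0 < t + off s ∧ t + off s < l) ∨
        (el s 0 ∈ F ∧ sv Z l s (t + off s) = nd Z l (φ (el s 0)))) := by
    intro x hx
    have hx' : ∃ s ∈ Seg y, ∃ t, t < l ∧ x = el s t ∧ (t = 0 → x ∈ F) := by
      rcases hx with hx | ⟨s, hs, t, h1, h2, rfl⟩
      · obtain ⟨s, hs, rfl⟩ := hF hx
        exact ⟨s, hs, 0, by omega, rfl, fun _ => hx⟩
      · exact ⟨s, hs, t, h2, rfl, fun h => by omega⟩
    obtain ⟨s, hs, t, ht, rfl, h0⟩ := hx'
    refine ⟨s, hs, t, ht, rfl, ?_⟩
    by_cases hm : el s 0 ∈ F ∧ φ (el s 0) = segFar s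
    · have ho : off s = 1 := by simp only [hoff]; rw [if_pos hm]
      rw [ho]
      by_cases hlast : t + 1 = l
      · right
        refine ⟨hm.1, ?_⟩
        rw [hlast, sv_last, hm.2]
      · left; omega
    · have ho : off s = 0 := by simp only [hoff]; rw [if_neg hm]
      rw [ho]
      by_cases ht0 : t = 0
      · subst ht0
        right
        have hF0 := h0 rfl
        refine ⟨hF0, ?_⟩
        have h3 := hφe _ hF0
        rw [h.ends2_eq hl hs] at h3
        rcases Sym2.mem_iff.1 h3 with h4 | h4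
        · rw [h4, Nat.add_zero, sv_zero]
        · exact absurd ⟨hF0, h4⟩ hm
      · left; omega
  refine hP.ind _ (psi el Z l y off) (union_subset ?_ (h.con_sub subset_rfl)) ?_ ?_
  · intro x hx
    obtain ⟨s, hs, rfl⟩ := hF hx
    exact h.mem s hs 0 (by omega)
  · intro x hx x' hx' hxx
    obtain ⟨s, hs, t, ht, rfl, hc⟩ := hdesc x hx
    obtain ⟨s', hs', t', ht', rfl, hc'⟩ := hdesc x' hx'
    rw [h.psi_eq off hs ht, h.psi_eq off hs' ht'] at hxx
    have hof : ∀ s, off s ≤ 1 := by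
      intro s; simp only [hoff]; split_ifs <;> omega
    have key : s = s' := by
      rcases hc with hc | hc
      · exact (sv_int hc.1 hc.2 (by have := hof s'; omega) hxx).1
      · rcases hc' with hc' | hc'
        · exact (sv_int hc'.1 hc'.2 (by have := hof s; omega) hxx.symm).1.symm
        · rw [hc.2, hc'.2] at hxx
          have h1 := hφ hc.1 hc'.1 (nd_inj hl hxx)
          exact (h.inj hs hs' (by omega) (by omega) h1).1
    subst key
    have := sv_same hxx
    have h2 : t = t' := by omega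
    rw [h2]
  · intro x hx
    obtain ⟨s, hs, t, ht, rfl, _⟩ := hdesc x hx
    rw [h.psi_eq off hs ht, h.eq s hs t ht]
    simp only [hoff]
    split_ifs
    · exact Sym2.mem_mk_right _ _
    · exact Sym2.mem_mk_left _ _

/-- rank bound over the contracted elements -/
lemma El.rank {P : Matroid α} [P.Finite] (hP : Bic P T ends) (hl : 1 ≤ l) (h : El T ends Z l y el)
    (W : Set (ℕ × ℕ)) : (P ／ con el l (Seg y)).eRk
      (ins ((fun s => el s 0) '' Seg y) (ends2 el y) W) ≤ W.encard := by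
  classical
  by_cases hW : W.Finite
  swap
  · rw [Set.Infinite.encard_eq hW]
    exact le_top
  set SW : Set (Bool × ℕ × ℕ) := {s | s ∈ Seg y ∧ segNear s ∈ W ∧ segFar s ∈ W} with hSW
  have hSWs : SW ⊆ Seg y := fun s hs => hs.1
  have hX : ins ((fun s => el s 0) '' Seg y) (ends2 el y) W ⊆ (fun s => el s 0) '' SW := by
    rintro _ ⟨⟨s, hs, rfl⟩, h2⟩
    simp only at h2
    rw [h.ends2_eq hl hs] at h2
    exact ⟨s, ⟨hs, h2 _ (Sym2.mem_mk_left _ _), h2 _ (Sym2.mem_mk_right _ _)⟩, rfl⟩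
  have hcS := h.con_sub (S := Seg y) subset_rfl
  have hcE : con el l (Seg y) ⊆ P.E := hcS.trans hP.sub
  have hcI : P.Indep (con el l (Seg y)) := by
    have := h.indep hP hl (F := ∅) (φ := fun _ => (0, 0)) (empty_subset _) (injOn_empty _)
      (fun x hx => absurd hx (notMem_empty x))
    rwa [empty_union] at this
  set X : Set α := (fun s => el s 0) '' SW with hXdef
  have hXE : X ⊆ P.E \ con el l (Seg y) := by
    rintro _ ⟨s, hs, rfl⟩
    exact ⟨hP.sub (h.mem s (hSWs hs) 0 (by omega)), h.not_con hl (hSWs hs)⟩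
  have hfin := P.ground_finite
  have hAf : (con el l (Seg y)).Finite := hfin.subset hcE
  have hAW : con el l SW ⊆ con el l (Seg y) := con_mono hSWs
  have hAWf : (con el l SW).Finite := hAf.subset hAW
  -- the vertex set
  set U : Set (ℕ × ℕ) := nd Z l '' W ∪ psi el Z l y (fun _ => 0) '' con el l SW with hU
  have hUf : U.Finite := (hW.image _).union (hAWf.image _)
  have hUc : U.ncard ≤ W.ncard + (con el l SW).ncard :=
    (ncard_union_le _ _).trans (Nat.add_le_add (ncard_image_le hW) (ncard_image_le hAWf))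
  have hsvU : ∀ s ∈ SW, ∀ t ≤ l, sv Z l s t ∈ U := by
    intro s hs t ht
    by_cases h0 : t = 0
    · subst h0
      rw [sv_zero]
      exact Or.inl ⟨_, hs.2.1, rfl⟩
    · by_cases h1 : t = l
      · subst h1
        rw [sv_last]
        exact Or.inl ⟨_, hs.2.2, rfl⟩
      · refine Or.inr ⟨el s t, ⟨s, hs, t, by omega, by omega, rfl⟩, ?_⟩
        rw [h.psi_eq _ hs.1 (by omega)]
        rfl
  have hsub : X ∪ con el l SW ⊆ ins T ends U := by
    have key : ∀ s ∈ SW, ∀ t < l, el s t ∈ ins T ends U := by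
      intro s hs t ht
      refine ⟨h.mem s hs.1 t ht, fun v hv => ?_⟩
      rw [h.eq s hs.1 t ht] at hv
      rcases Sym2.mem_iff.1 hv with rfl | rfl
      · exact hsvU s hs t ht.le
      · exact hsvU s hs (t + 1) (by omega)
    rintro x (⟨s, hs, rfl⟩ | ⟨s, hs, t, _, h2, rfl⟩)
    · exact key s hs 0 (by omega)
    · exact key s hs t h2
  have r1 := rk_contract_set (M := P) hcE hXE
  have r2 := rk_indep hcI
  have r3 : rk P (X ∪ con el l (Seg y)) ≤ rk P (X ∪ con el l SW) +
      (con el l (Seg y) \ con el l SW).ncard := by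
    refine le_trans (rk_mono P ?_) (rk_union_le P (hAf.subset sdiff_subset))
    rintro x (hx | hx)
    · exact Or.inl (Or.inl hx)
    · by_cases hx' : x ∈ con el l SW
      · exact Or.inl (Or.inr hx')
      · exact Or.inr ⟨hx, hx'⟩
  have r4 := count_le hP hUf hsub
  have r5 : (con el l (Seg y) \ con el l SW).ncard + (con el l SW).ncard =
      (con el l (Seg y)).ncard := ncard_sdiff_add_ncard_of_subset hAW hAf
  have r6 : rk (P ／ con el l (Seg y)) X ≤ W.ncard := by omega
  calc (P ／ con el l (Seg y)).eRk _ ≤ (P ／ con el l (Seg y)).eRk X := Matroid.eRk_mono _ hX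
    _ = (rk (P ／ con el l (Seg y)) X : ℕ∞) := (cast_rk _ _).symm
    _ ≤ (W.ncard : ℕ∞) := by exact_mod_cast r6
    _ = W.encard := hW.cast_ncard_eq

end main

end T2

open T2 in
/-- ROW T2. -/
theorem t2Stmt : T2Stmt.{u} := by
  classical
  intro α M _ C T B ends N Z l y hC hT hB hG hBC hl h1 h2 hcw
  have hNpos : 1 ≤ N := by omega
  obtain ⟨e₀, he₀, -⟩ := hG.surj (0, 0) (1, 0) (Or.inr ⟨rfl, Or.inl rfl⟩)
    ⟨by simp, by simp only; omega, by simp, by simp only; omega⟩
    ⟨by simp, by simp only; omega, by simp, by simp only; omega⟩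
  obtain ⟨el, hel⟩ := exists_el (y := y) (l := l) (Z := Z) hG ⟨e₀⟩ h1 h2
  set A := con el l (Seg y) with hA
  have hAT : A ⊆ T := hel.con_sub subset_rfl
  have hAC : Disjoint A C := by
    rw [Set.disjoint_left]
    intro x hx hxC
    exact (hT (hAT hx)).2 hxC
  have hAI : (M ／ C).Indep A := by
    have := hel.indep hB hl (F := ∅) (φ := fun _ => (0, 0)) (empty_subset _) (injOn_empty _)
      (fun x hx => absurd hx (notMem_empty x))
    rwa [empty_union] at this
  have hACI : M.Indep (A ∪ C) := (hC.contract_indep_iff.1 hAI).2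
  have hAM : M.Indep A := hACI.subset subset_union_left
  have hcomm : M ／ A ／ C = M ／ C ／ A := by
    rw [Matroid.contract_contract, Matroid.contract_contract, union_comm]
  refine ⟨A, fun s => el s 0, ends2 el y, hAT, fun s hs => ⟨hel.mem s hs 0 (by omega),
    hel.not_con hl hs⟩, ?_⟩
  have hsub : (fun s => el s 0) '' Seg y ⊆ (M ／ A).E \ C := by
    rintro _ ⟨s, hs, rfl⟩
    have h3 := hT (hel.mem s hs 0 (by omega))
    exact ⟨⟨h3.1, hel.not_con hl hs⟩, h3.2⟩
  have hwall : wallE T ends Z l y = (fun s => el s 0) '' Seg y ∪ A := by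
    ext x
    unfold wallE
    simp only [mem_iUnion₂]
    constructor
    · rintro ⟨s, hs, hx⟩
      rw [hel.segE hG.inj hs] at hx
      obtain ⟨t, ht, rfl⟩ := hx
      by_cases h0 : t = 0
      · subst h0; exact Or.inl ⟨s, hs, rfl⟩
      · exact Or.inr ⟨s, hs, t, by omega, ht, rfl⟩
    · rintro (⟨s, hs, rfl⟩ | ⟨s, hs, t, _, ht, rfl⟩)
      · refine ⟨s, hs, ?_⟩
        rw [hel.segE hG.inj hs]
        exact ⟨0, by omega, rfl⟩
      · refine ⟨s, hs, ?_⟩
        rw [hel.segE hG.inj hs]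
        exact ⟨t, ht, rfl⟩
  have hvis : ∀ {X : Set α} {c : α}, Vis (M ／ A) C B X c → Vis M C B (X ∪ A) c := by
    intro X c hv
    have h3 : c ∈ (M ／ A).closure (X ∪ (C \ insert c B)) := hv
    rw [Matroid.contract_closure_eq] at h3
    have h4 := h3.1
    have h5 : X ∪ (C \ insert c B) ∪ A = X ∪ A ∪ (C \ insert c B) := by
      rw [union_right_comm]
    rw [h5] at h4
    exact h4
  refine ⟨?_, ?_, hsub, ?_, ⟨?_, ?_, ?_⟩, hBC, ?_⟩
  · rw [hAM.contract_indep_iff]
    exact ⟨hAC.symm, by rwa [union_comm]⟩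
  · intro s hs s' hs' hss
    exact (hel.inj hs hs' (by omega) (by omega) hss).1
  · intro s hs
    exact hel.ends2_eq hl hs
  · exact fun x hx => hsub hx
  · intro F φ hF hφ hφe
    rw [hcomm, hAI.contract_indep_iff]
    refine ⟨?_, hel.indep hB hl hF hφ hφe⟩
    rw [Set.disjoint_left]
    intro x hx
    obtain ⟨s, hs, rfl⟩ := hF hx
    exact hel.not_con hl hs
  · intro W
    rw [hcomm]
    exact hel.rank hB hl W
  · intro c hc
    rcases hcw c hc with h3 | ⟨s, hs, h3⟩
    · left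
      intro hv
      have := hvis hv
      rw [← hwall] at this
      exact h3 this
    · right
      refine ⟨s, hs, fun hv => ?_⟩
      refine h3 (el s 0) (by rw [hel.segE hG.inj hs]; exact ⟨0, by omega, rfl⟩)
        (Vis.mono ?_ (hvis hv))
      rintro x (⟨s', ⟨hs', hne⟩, rfl⟩ | hx)
      · refine ⟨by rw [hwall]; exact Or.inl ⟨s', hs', rfl⟩, fun h4 => hne ?_⟩
        exact (hel.inj hs' hs (by omega) (by omega) h4).1
      · refine ⟨by rw [hwall]; exact Or.inr hx, fun h4 => ?_⟩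
        rw [mem_singleton_iff] at h4
        subst h4
        exact hel.not_con hl hs hx

end CWL
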