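import Pool.Agent.CW.TDefs
import Pool.Agent.CW.Series
import Pool.Agent.CW.TTwo
import Pool.Agent.Helper74.WPP.Side

/-!
# Series extensions, and the subdivided wall as a quotient
-/

open Set BIC BICS
open scoped Matroid

namespace CWL

universe u

/-- **Series extension along a map.** Every `x` in the ground set of `N₀` is replaced by the
series class `π ⁻¹ x ∩ R`. -/
theorem series_ext {α : Type*} (N₀ : Matroid α) [N₀.Finite] {R : Set α} (hR : R.Finite)
    {π : α → α} (hπ : ∀ a ∈ R, π a ∈ N₀.E) (hsurj : N₀.E ⊆ π '' R) :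
    ∃ N : Matroid α, N.Finite ∧ N.E = R ∧ ∀ X ⊆ R,
      rk N X + {x | x ∈ N₀.E ∧ ∀ a ∈ R, π a = x → a ∈ X}.ncard =
        X.ncard + rk N₀ {x | x ∈ N₀.E ∧ ∀ a ∈ R, π a = x → a ∈ X} := by
  classical
  set P : Matroid α := N₀✶.comapOn R π with hP
  have hPE : P.E = R := rfl
  have hPf : P.Finite := ⟨by rw [hPE]; exact hR⟩
  have hNf : P✶.Finite := inferInstance
  have hrk : ∀ X ⊆ R, rk P X = rk N₀✶ (π '' X) := by
    intro X hX
    have h1 : rk P X = rk (N₀✶.comap π) X := by
      unfold BIC.rk
      rw [hP, Matroid.comapOn, Matroid.restrict_eRk_eq _ hX]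
    rw [h1]
    unfold BIC.rk
    rw [Matroid.eRk_comap]
  refine ⟨P✶, hNf, rfl, fun X hX => ?_⟩
  set A : Set α := {x | x ∈ N₀.E ∧ ∀ a ∈ R, π a = x → a ∈ X} with hA
  have hAE : A ⊆ N₀.E := fun x hx => hx.1
  have hEf := N₀.ground_finite
  have h1 := rk_dual (M := P) (X := X) (by rw [hPE]; exact hX)
  rw [hPE, hrk R (Subset.refl _), hrk (R \ X) sdiff_subset] at h1
  have h2 : π '' R = N₀.E := by
    refine Subset.antisymm ?_ hsurj
    rintro _ ⟨a, ha, rfl⟩
    exact hπ a ha
  have h3 : π '' (R \ X) = N₀.E \ A := by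
    ext x
    constructor
    · rintro ⟨a, ⟨ha, haX⟩, rfl⟩
      exact ⟨hπ a ha, fun h => haX (h.2 a ha rfl)⟩
    · rintro ⟨hx, hxA⟩
      by_contra hno
      apply hxA
      refine ⟨hx, fun a ha hax => ?_⟩
      by_contra haX
      exact hno ⟨a, ⟨ha, haX⟩, hax⟩
  rw [h2, h3] at h1
  have h4 := rk_dual (M := N₀) (X := N₀.E) (Subset.refl _)
  have h5 := rk_dual (M := N₀) (X := N₀.E \ A) sdiff_subset
  rw [Set.sdiff_self] at h4
  have h6 : N₀.E \ (N₀.E \ A) = A := by
    rw [sdiff_sdiff_right_self]
    exact inter_eq_self_of_subset_right hAE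
  rw [h6] at h5
  have h7 : rk N₀ ∅ = 0 := by
    have := rk_le_ncard N₀ (X := ∅) (by simp)
    simpa using this
  have h8 := Set.ncard_sdiff_add_ncard_of_subset hAE hEf
  rw [h7] at h4
  omega

/-- the segments whose lists are contained in `X` -/
def fullS {α : Type*} (L : Bool × ℕ × ℕ → List α) (S : Set (Bool × ℕ × ℕ)) (X : Set α) :
    Set (Bool × ℕ × ℕ) := {s | s ∈ S ∧ ∀ a ∈ L s, a ∈ X}

/-- the elements of the segments in `S` -/
def crr {α : Type*} (L : Bool × ℕ × ℕ → List α) (S : Set (Bool × ℕ × ℕ)) : Set α :=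
  {x | ∃ s ∈ S, x ∈ L s}

section nodes

variable {α : Type*}

/-- a node of a list is an end of the segment, or an element of the list which is not the last -/
lemma node_cases' (s : Bool × ℕ × ℕ) {l : List α} {i : ℕ}
    (hi : i ≤ l.length) {v : (ℕ × ℕ) ⊕ α} (hv : v = node s l i) :
    (i = 0 ∧ v = Sum.inl (segNear s)) ∨ (i = l.length ∧ v = Sum.inl (segFar s)) ∨
      ∃ (h : 0 < i) (h' : i < l.length), v = Sum.inr (l[i - 1]'(by omega)) := by
  subst hv
  unfold node
  rcases Nat.eq_zero_or_pos i with rfl | h0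
  · exact Or.inl ⟨rfl, by simp⟩
  · rcases hi.lt_or_eq with h1 | h1
    · refine Or.inr (Or.inr ⟨h0, h1, ?_⟩)
      rw [if_neg (by omega), if_neg (by omega), List.getElem?_eq_getElem (by omega)]
    · refine Or.inr (Or.inl ⟨h1, ?_⟩)
      rw [if_neg (by omega), if_pos h1]

lemma node_zero (s : Bool × ℕ × ℕ) (l : List α) : node s l 0 = Sum.inl (segNear s) := by
  simp [node]

lemma node_last (s : Bool × ℕ × ℕ) {l : List α} (hl : l ≠ []) :
    node s l l.length = Sum.inl (segFar s) := by
  have := List.length_pos_iff.2 hl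
  unfold node
  rw [if_neg (by omega), if_pos rfl]

lemma node_mid (s : Bool × ℕ × ℕ) {l : List α} {i : ℕ} (hi : 0 < i) (hl : i < l.length) :
    node s l i = Sum.inr (l[i - 1]'(by omega)) := by
  unfold node
  rw [if_neg (by omega), if_neg (by omega), List.getElem?_eq_getElem (by omega)]

/-- a node is an end of the segment or an element of the list other than the last one -/
lemma node_cases (s : Bool × ℕ × ℕ) {l : List α} (hl : l ≠ []) {i : ℕ} (hi : i ≤ l.length) :
    node s l i = Sum.inl (segNear s) ∨ node s l i = Sum.inl (segFar s) ∨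
      ∃ c ∈ l, node s l i = Sum.inr c := by
  rcases Nat.eq_zero_or_pos i with rfl | h0
  · exact Or.inl (node_zero s l)
  · rcases hi.lt_or_eq with h1 | h1
    · exact Or.inr (Or.inr ⟨_, List.getElem_mem _, node_mid s h0 h1⟩)
    · subst h1
      exact Or.inr (Or.inl (node_last s hl))

lemma node_ne (s : Bool × ℕ × ℕ) {l : List α} (hl : l.Nodup) {i j : ℕ} (hij : i < j)
    (hj : j ≤ l.length) : node s l i ≠ node s l j := by
  intro h
  rcases Nat.eq_zero_or_pos i with rfl | hi
  · rw [node_zero] at h
    rcases hj.lt_or_eq with h1 | h1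
    · rw [node_mid s (by omega) h1] at h
      simp at h
    · subst h1
      rw [node_last s (List.length_pos_iff.1 (by omega))] at h
      simp only [Sum.inl.injEq] at h
      exact T2.near_ne_far s h
  · rw [node_mid s hi (by omega)] at h
    rcases hj.lt_or_eq with h1 | h1
    · rw [node_mid s (by omega) h1] at h
      simp only [Sum.inr.injEq] at h
      have := (List.Nodup.getElem_inj_iff hl).1 h
      omega
    · subst h1
      rw [node_last s (List.length_pos_iff.1 (by omega))] at h
      simp at h

lemma node_inj (s : Bool × ℕ × ℕ) {l : List α} (hl : l.Nodup) {i j : ℕ} (hi : i ≤ l.length)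
    (hj : j ≤ l.length) (h : node s l i = node s l j) : i = j := by
  rcases Nat.lt_trichotomy i j with h1 | h1 | h1
  · exact absurd h (node_ne s hl h1 hj)
  · exact h1
  · exact absurd h.symm (node_ne s hl h1 hi)

end nodes

/-- **The series extension of a bicircular matroid along lists is the bicircular matroid of the
subdivided graph.** -/
theorem bic_ser {α : Type*} {N N₀ : Matroid α} [N.Finite] [N₀.Finite]
    {S : Set (Bool × ℕ × ℕ)} {L : Bool × ℕ × ℕ → List α} {f : α → Sym2 ((ℕ × ℕ) ⊕ α)}
    {e : Bool × ℕ × ℕ → α} {wends : α → Sym2 (ℕ × ℕ)} (hnd : ∀ s ∈ S, (L s).Nodup)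
    (hdisj : ∀ s ∈ S, ∀ s' ∈ S, s ≠ s' → (L s).Disjoint (L s'))
    (hend : ∀ s ∈ S, ∀ (i : ℕ) (h : i < (L s).length),
      f ((L s)[i]) = s(node s (L s) i, node s (L s) (i + 1)))
    (hlast : ∀ s ∈ S, (L s).getLast? = some (e s))
    (hw : ∀ s ∈ S, wends (e s) = s(segNear s, segFar s)) (hB : Bic N₀ (e '' S) wends)
    (hE : crr L S ⊆ N.E)
    (hr : ∀ X ⊆ crr L S, rk N X + (fullS L S X).ncard = X.ncard + rk N₀ (e '' fullS L S X)) :
    Bic N (crr L S) f := by
  classical
  have heL : ∀ s ∈ S, e s ∈ L s := fun s hs => List.mem_of_getLast? (hlast s hs)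
  have huniq : ∀ s ∈ S, ∀ s' ∈ S, ∀ x, x ∈ L s → x ∈ L s' → s = s' := by
    intro s hs s' hs' x hx hx'
    by_contra hne
    exact hdisj s hs s' hs' hne hx hx'
  have heinj : InjOn e S := by
    intro s hs s' hs' hss
    refine huniq s hs s' hs' (e s) (heL s hs) ?_
    rw [hss]
    exact heL s' hs'
  have hlen : ∀ s ∈ S, 0 < (L s).length := fun s hs =>
    List.length_pos_iff.2 (List.ne_nil_of_mem (heL s hs))
  have helast : ∀ s (hs : s ∈ S), (L s)[(L s).length - 1]'(by have := hlen s hs; omega) = e s := by
    intro s hs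
    have h1 := hlast s hs
    rw [List.getLast?_eq_getElem?] at h1
    exact (List.getElem?_eq_some_iff.1 h1).2
  have hNf := N.ground_finite
  have hNf0 := N₀.ground_finite
  refine ⟨hE, ?_, ?_⟩
  · -- oriented sets are independent
    intro F φ hF hφ hφe
    have hFf : F.Finite := hNf.subset (hF.trans hE)
    set SF := fullS L S F with hSF
    have hSFS : SF ⊆ S := fun s hs => hs.1
    -- some element of a full segment uses an end
    have key : ∀ s (hs : s ∈ SF), φ ((L s)[0]'(hlen s (hSFS hs))) ≠ Sum.inl (segNear s) →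
        φ (e s) = Sum.inl (segFar s) := by
      intro s hs h0
      have hsS := hSFS hs
      have hin : ∀ i (hi : i < (L s).length), φ ((L s)[i]) = node s (L s) (i + 1) := by
        intro i
        induction i with
        | zero =>
          intro hi
          have h1 := hφe _ (hs.2 _ (List.getElem_mem hi))
          rw [hend s hsS 0 hi, Sym2.mem_iff] at h1
          rcases h1 with h1 | h1
          · rw [node_zero] at h1
            exact absurd h1 h0
          · exact h1
        | succ i ih =>
          intro hi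
          have h1 := hφe _ (hs.2 _ (List.getElem_mem hi))
          rw [hend s hsS (i + 1) hi, Sym2.mem_iff] at h1
          rcases h1 with h1 | h1
          · have h2 := ih (by omega)
            rw [← h1] at h2
            have h3 := hφ (hs.2 _ (List.getElem_mem _)) (hs.2 _ (List.getElem_mem _)) h2
            have := (List.Nodup.getElem_inj_iff (hnd s hsS)).1 h3
            omega
          · exact h1
      have h1 := hin ((L s).length - 1) (by have := hlen s hsS; omega)
      rw [helast s hsS] at h1
      have h2 : (L s).length - 1 + 1 = (L s).length := by have := hlen s hsS; omega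
      rw [h2, node_last s (List.ne_nil_of_mem (heL s hsS))] at h1
      exact h1
    have hI : N₀.Indep (e '' SF) := by
      have hin : ∀ x ∈ e '' SF, ∃ s ∈ SF, e s = x := fun x hx => hx
      choose! g hg1 hg2 using hin
      set c : Bool × ℕ × ℕ → ℕ × ℕ := fun s =>
        if h : s ∈ SF then
          (if φ ((L s)[0]'(hlen s (hSFS h))) = Sum.inl (segNear s) then segNear s else segFar s)
        else segNear s with hc
      have hcs : ∀ s ∈ SF, (c s = segNear s ∨ c s = segFar s) ∧
          ∃ a ∈ L s, φ a = Sum.inl (c s) := by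
        intro s hs
        simp only [hc, dif_pos hs]
        split_ifs with h1
        · exact ⟨Or.inl rfl, _, List.getElem_mem _, h1⟩
        · exact ⟨Or.inr rfl, _, heL s (hSFS hs), key s hs h1⟩
      refine hB.ind _ (fun x => c (g x)) (image_mono hSFS) ?_ ?_
      · intro x hx x' hx' hxx
        obtain ⟨-, a, ha, hφa⟩ := hcs _ (hg1 x hx)
        obtain ⟨-, a', ha', hφa'⟩ := hcs _ (hg1 x' hx')
        simp only at hxx
        rw [hxx, ← hφa'] at hφa
        have h2 := hφ ((hg1 x hx).2 a ha) ((hg1 x' hx').2 a' ha') hφa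
        subst h2
        have h3 := huniq _ (hSFS (hg1 x hx)) _ (hSFS (hg1 x' hx')) _ ha ha'
        rw [← hg2 x hx, h3, hg2 x' hx']
      · intro x hx
        have h1 := (hcs _ (hg1 x hx)).1
        have h2 := hw _ (hSFS (hg1 x hx))
        rw [hg2 x hx] at h2
        rw [h2]
        rcases h1 with h1 | h1 <;> simp only [h1]
        · exact Sym2.mem_mk_left _ _
        · exact Sym2.mem_mk_right _ _
    have h1 := hr F hF
    rw [← hSF, rk_indep hI, (heinj.mono hSFS).ncard_image] at h1
    exact indep_of_rk (hF.trans hE) (by omega)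
  · -- ranks
    intro W
    rcases W.finite_or_infinite with hW | hW
    swap
    · rw [hW.encard_eq]
      exact le_top
    set X := ins (crr L S) f W with hX
    have hXs : X ⊆ crr L S := fun x hx => hx.1
    have hXf : X.Finite := hNf.subset (hXs.trans hE)
    set SX := fullS L S X with hSX
    have hSXS : SX ⊆ S := fun s hs => hs.1
    have h1 := hr X hXs
    rw [← hSX] at h1
    -- positions
    have hpos : ∀ a ∈ crr L S, ∃ s ∈ S, ∃ i : ℕ, (L s)[i]? = some a := by
      rintro a ⟨s, hs, ha⟩
      obtain ⟨i, hi, h2⟩ := List.mem_iff_getElem.1 ha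
      exact ⟨s, hs, i, by rw [List.getElem?_eq_getElem hi, h2]⟩
    choose! sg hsg ix hix using hpos
    have hixl : ∀ a ∈ crr L S, ix a < (L (sg a)).length := fun a ha =>
      (List.getElem?_eq_some_iff.1 (hix a ha)).1
    have hixe : ∀ a (ha : a ∈ crr L S), (L (sg a))[ix a]'(hixl a ha) = a := fun a ha =>
      (List.getElem?_eq_some_iff.1 (hix a ha)).2
    have hsgm : ∀ a ∈ crr L S, a ∈ L (sg a) := fun a ha => List.mem_of_getElem? (hix a ha)
    have hmis : ∀ s ∈ S \ SX, ∃ j < (L s).length, ∀ b, (L s)[j]? = some b → b ∉ X := by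
      rintro s ⟨hs, hsX⟩
      by_contra hno
      push Not at hno
      apply hsX
      refine ⟨hs, fun a ha => ?_⟩
      obtain ⟨i, hi, h2⟩ := List.mem_iff_getElem.1 ha
      obtain ⟨b, hb, hbX⟩ := hno i hi
      rw [List.getElem?_eq_getElem hi, h2, Option.some.injEq] at hb
      rwa [hb]
    choose! jm hjm1 hjm2 using hmis
    have hXW : ∀ a ∈ X, ∀ v ∈ f a, v ∈ W := fun a ha v hv => ha.2 v hv
    set pos : α → ℕ := fun a => if sg a ∈ SX ∨ ix a < jm (sg a) then ix a + 1 else ix a with hposd
    set g : α → (ℕ × ℕ) ⊕ α := fun a => node (sg a) (L (sg a)) (pos a) with hg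
    -- properties of the positions
    have hp : ∀ a ∈ X \ e '' SX, 0 < pos a ∧ pos a < (L (sg a)).length ∧
        (pos a = ix a ∨ pos a = ix a + 1) ∧
        (sg a ∉ SX → ((ix a < jm (sg a) ∧ pos a = ix a + 1) ∨
          (jm (sg a) < ix a ∧ pos a = ix a))) ∧ (sg a ∈ SX → pos a = ix a + 1) := by
      rintro a ⟨haX, hae⟩
      have haR := hXs haX
      have hsa := hsg a haR
      have h2 := hixl a haR
      by_cases hs : sg a ∈ SX
      · have h3 : pos a = ix a + 1 := by
          simp only [hposd]; rw [if_pos (Or.inl hs)]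
        have h4 : ix a + 1 ≠ (L (sg a)).length := by
          intro h4
          apply hae
          refine ⟨sg a, hs, ?_⟩
          have h6 := hlast _ hsa
          rw [List.getLast?_eq_getElem?, ← h4, Nat.add_sub_cancel, hix a haR,
            Option.some.injEq] at h6
          exact h6.symm
        exact ⟨by omega, by omega, Or.inr h3, fun h => absurd hs h, fun _ => h3⟩
      · have h3 := hjm1 _ ⟨hsa, hs⟩
        have h4 : ix a ≠ jm (sg a) := by
          intro h4
          have h5 := hix a haR
          rw [h4] at h5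
          exact hjm2 _ ⟨hsa, hs⟩ a h5 haX
        by_cases h5 : ix a < jm (sg a)
        · have h6 : pos a = ix a + 1 := by
            simp only [hposd]; rw [if_pos (Or.inr h5)]
          exact ⟨by omega, by omega, Or.inr h6, fun _ => Or.inl ⟨h5, h6⟩, fun h => absurd h hs⟩
        · have h6 : pos a = ix a := by
            simp only [hposd]; rw [if_neg (by tauto)]
          exact ⟨by omega, by omega, Or.inl h6, fun _ => Or.inr ⟨by omega, h6⟩,
            fun h => absurd h hs⟩
    have hinj : InjOn g (X \ e '' SX) := by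
      intro a ha b hb hab
      obtain ⟨pa0, pa1, pa2, pa3, pa4⟩ := hp a ha
      obtain ⟨pb0, pb1, pb2, pb3, pb4⟩ := hp b hb
      have haR := hXs ha.1
      have hbR := hXs hb.1
      simp only [hg] at hab
      have hss : sg a = sg b := by
        have h2 := hab
        rw [node_mid _ pa0 pa1, node_mid _ pb0 pb1, Sum.inr.injEq] at h2
        refine huniq _ (hsg a haR) _ (hsg b hbR) _ (List.getElem_mem (by omega)) (?_ :
          (L (sg a))[pos a - 1]'(by omega) ∈ L (sg b))
        rw [h2]
        exact List.getElem_mem _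
      have h3 : pos a = pos b := by
        refine node_inj (sg a) (hnd _ (hsg a haR)) pa1.le ?_ ?_
        · rw [hss]; exact pb1.le
        · rw [hab, hss]
      have h4 : ix a = ix b := by
        by_cases hs : sg a ∈ SX
        · have h5 := pa4 hs
          have h6 := pb4 (hss ▸ hs)
          omega
        · have h5 := pa3 hs
          have h6 := pb3 (hss ▸ hs)
          rw [← hss] at h6
          omega
      have h5 := hix a haR
      have h6 := hix b hbR
      rw [hss, h4, h6, Option.some.injEq] at h5
      exact h5.symm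
    have hgW : ∀ a ∈ X \ e '' SX, g a ∈ W ∩ range Sum.inr := by
      intro a ha
      obtain ⟨pa0, pa1, pa2, -, -⟩ := hp a ha
      have haR := hXs ha.1
      refine ⟨?_, ?_⟩
      · refine hXW a ha.1 _ ?_
        have h2 := hend _ (hsg a haR) (ix a) (hixl a haR)
        rw [hixe a haR] at h2
        rw [h2]
        simp only [hg]
        rcases pa2 with h3 | h3 <;> rw [h3]
        · exact Sym2.mem_mk_left _ _
        · exact Sym2.mem_mk_right _ _
      · simp only [hg]
        rw [node_mid _ pa0 pa1]
        exact ⟨_, rfl⟩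
    have hc1 : (X \ e '' SX).ncard ≤ (W ∩ range Sum.inr).ncard :=
      Set.ncard_le_ncard_of_injOn g hgW hinj (hW.subset inter_subset_left)
    -- the wall
    set W₀ : Set (ℕ × ℕ) := Sum.inl ⁻¹' W with hW₀
    have hW₀f : W₀.Finite := hW.preimage Sum.inl_injective.injOn
    have hc2 : rk N₀ (e '' SX) ≤ (W ∩ range Sum.inl).ncard := by
      have h2 : e '' SX ⊆ ins (e '' S) wends W₀ := by
        rintro _ ⟨s, hs, rfl⟩
        have hsS := hSXS hs
        have h3 := hXW _ (hs.2 _ (List.getElem_mem (l := L s) (n := 0) (hlen s hsS)))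
          (Sum.inl (segNear s)) (by
            rw [hend s hsS 0 (hlen s hsS), node_zero]
            exact Sym2.mem_mk_left _ _)
        have h4 := hXW _ (hs.2 _ (List.getElem_mem (l := L s) (n := (L s).length - 1)
          (by have := hlen s hsS; omega))) (Sum.inl (segFar s)) (by
            rw [hend s hsS _ (by have := hlen s hsS; omega)]
            have h5 : (L s).length - 1 + 1 = (L s).length := by have := hlen s hsS; omega
            rw [h5, node_last s (List.ne_nil_of_mem (heL s hsS))]
            exact Sym2.mem_mk_right _ _)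
        refine ⟨⟨s, hsS, rfl⟩, fun v hv => ?_⟩
        rw [hw s hsS, Sym2.mem_iff] at hv
        rcases hv with rfl | rfl
        · exact h3
        · exact h4
      have h3 := (N₀.eRk_mono h2).trans (hB.rk W₀)
      rw [← cast_rk, ← hW₀f.cast_ncard_eq] at h3
      have h4 : rk N₀ (e '' SX) ≤ W₀.ncard := by exact_mod_cast h3
      have h5 : W₀.ncard = (W ∩ range Sum.inl).ncard := by
        rw [← (Sum.inl_injective.injOn (s := W₀)).ncard_image, hW₀, image_preimage_eq_inter_range]
      omega
    have hc3 : (W ∩ range Sum.inr).ncard + (W ∩ range Sum.inl).ncard ≤ W.ncard := by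
      rw [← Set.ncard_union_eq ?_ (hW.subset inter_subset_left) (hW.subset inter_subset_left)]
      · exact Set.ncard_le_ncard (union_subset inter_subset_left inter_subset_left) hW
      · rw [Set.disjoint_left]
        rintro _ ⟨_, ⟨a, rfl⟩⟩ ⟨_, ⟨b, hb⟩⟩
        exact Sum.inl_ne_inr hb
    have heX : e '' SX ⊆ X := by
      rintro _ ⟨s, hs, rfl⟩
      exact hs.2 _ (heL s (hSXS hs))
    have hc4 := Set.ncard_sdiff_add_ncard_of_subset heX hXf
    rw [(heinj.mono hSXS).ncard_image] at hc4
    have h9 : rk N X ≤ W.ncard := by omega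
    rw [← cast_rk, ← hW.cast_ncard_eq]
    exact_mod_cast h9

end CWL
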