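import Pool.Agent.CW.Final

/-!
# Theorem CW*: bounded scale, linear side
-/

open Set BIC BICS
open scoped Matroid

namespace CWL

universe u

/-- **Assembly of Theorem CW\*.** -/
theorem cwStar_of {k : ℕ} (hF : FineStar.{u} k) (hW : CoarseStar.{u} k) : CwStar.{u} k := by
  obtain ⟨κ, μ, hA⟩ := essMar.{u} k
  choose Ff Lf bf Af hF using hF κ
  choose Fc l n hn hl hW using hW κ
  choose An hn using hn
  obtain ⟨β, hA⟩ := hA fun b => max (Ff b) (Fc (Lf b) (bf b))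
  obtain ⟨lm, hlm⟩ : ∃ lm, lm = (Finset.range (β + 1)).sup fun b => l (Lf b) (bf b) := ⟨_, rfl⟩
  obtain ⟨AA, hAA⟩ : ∃ AA, AA = (Finset.range (β + 1)).sup fun b =>
    Af b * (An (Lf b) (bf b) + 1) := ⟨_, rfl⟩
  refine ⟨κ, lm, AA + μ, fun y => ?_⟩
  intro N' hN' α M _ C T₀ ends₀ hC hT₀ hB₀ hG₀
  have hμ : μ * 1 ≤ μ * (y + 1) := Nat.mul_le_mul_left _ (by omega)
  have hAy : AA * (y + 1) + μ ≤ N' := by
    have h1 : (AA + μ) * (y + 1) = AA * (y + 1) + μ * (y + 1) := add_mul _ _ _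
    rw [ge_iff_le, h1] at hN'
    omega
  obtain ⟨N, rfl⟩ : ∃ N, N' = N + μ := ⟨N' - μ, by omega⟩
  have hG₁ : Grd T₀ ends₀ 0 0 (2 * N + 2 * μ) (2 * N + 2 * μ) := by
    rw [← mul_add]; exact hG₀
  rcases hA N M C T₀ ends₀ hC hT₀ hB₀ hG₁ with h | ⟨B, hBC, hBκ, b, hb, hctx, hloc⟩
  · exact Or.inl h
  have hbm : b ∈ Finset.range (β + 1) := Finset.mem_range.2 (Nat.lt_add_one_iff.2 hb)
  have hN1 : Af b * (n (Lf b) (bf b) y + 1) ≤ N := by
    have h1 : Af b * (An (Lf b) (bf b) + 1) ≤ AA := by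
      rw [hAA]
      exact Finset.le_sup (f := fun b => Af b * (An (Lf b) (bf b) + 1)) hbm
    have h2 := hn (Lf b) (bf b) y
    have h3 : n (Lf b) (bf b) y + 1 ≤ (An (Lf b) (bf b) + 1) * (y + 1) := by nlinarith
    calc Af b * (n (Lf b) (bf b) y + 1) ≤ Af b * ((An (Lf b) (bf b) + 1) * (y + 1)) :=
          Nat.mul_le_mul_left _ h3
      _ = Af b * (An (Lf b) (bf b) + 1) * (y + 1) := (mul_assoc _ _ _).symm
      _ ≤ AA * (y + 1) := Nat.mul_le_mul_right _ h1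
      _ ≤ N := by omega
  rcases hF b _ N hN1 M C _ B _ (hctx.mono (le_max_left _ _)) hBκ hloc with h | ⟨X, hX1, hX2,
    hhole⟩
  · exact Or.inl h
  rcases hW (Lf b) (bf b) y M C _ B _ N (hctx.mono (le_max_right _ _)) hBκ X hX1 hX2 hhole
    with h | ⟨Z, hZ1, hZ2, h⟩
  · exact Or.inl h
  refine Or.inr ⟨B, hBC, hBκ, (Z.1 + μ, Z.2 + μ), l (Lf b) (bf b), hl _ _, ?_, ?_, ?_, ?_⟩
  · rw [hlm]
    exact Finset.le_sup (f := fun b => l (Lf b) (bf b)) hbm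
  · simp only; omega
  · simp only; omega
  · have hseg := fun {s : Bool × ℕ × ℕ} (hs : s ∈ Seg y) =>
      segE_shift (μ := μ) (N := N) hG₁ hZ1 hZ2 hs
    have hwall : wallE T₀ ends₀ (Z.1 + μ, Z.2 + μ) (l (Lf b) (bf b)) y =
        wallE (ins T₀ ends₀ (rect μ μ (2 * N) (2 * N))) (shE μ ends₀) Z (l (Lf b) (bf b)) y := by
      unfold wallE
      exact iUnion₂_congr fun s hs => hseg hs
    intro c hc
    rw [hwall]
    rcases h c hc with h1 | ⟨s, hs, h1⟩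
    · exact Or.inl h1
    · refine Or.inr ⟨s, hs, fun r hr => h1 r ?_⟩
      rw [← hseg hs]
      exact hr

/-- **Theorem CW\***, unconditional. -/
theorem cwStar (k : ℕ) : CwStar.{u} k :=
  cwStar_of (fineStar_of_certC (certC_of (Gad.glMixH k))) (coarseStar_of (certB (Gad.glNearH k)))

end CWL
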