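import Pool.Agent.CW.TDefs

/-!
# Row T3: the visible conflicts subdivide the wall
-/

open Set BIC BICS
open scoped Matroid

namespace CWL

universe u

section series

variable {α V : Type*} {M : Matroid α} {R : Set α} {ends ends' : α → Sym2 V} {u : ℕ}

/-- rank of a contraction by one element -/
lemma eRk_con1 [M.Finite] {c : α} {X : Set α} (hc : M.Indep {c}) (hX : X ⊆ M.E \ {c}) :
    M.eRk (insert c X) = (M ／ {c}).eRk X + 1 := by
  have hf := BQ.fin_contract (M := M) {c}
  have h1 := BQ.rk_con (M := M) (C := {c}) (X := X) hc.subset_ground hX
  have h2 : rk M {c} = 1 := by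
    have h3 := hc.eRk_eq_encard
    rw [encard_singleton, ← cast_rk] at h3
    exact_mod_cast h3
  rw [h2, union_singleton] at h1
  rw [← cast_rk, ← cast_rk, ← h1]
  push_cast
  rfl

/-- **The series step** (with an unused vertex `z`). -/
theorem BicU.series' [M.Finite] {c r : α} {x y z : V} (h : BicU (M ／ {c}) R ends u)
    (hcE : c ∈ M.E) (hcR : c ∉ R) (hr : r ∈ R) (hxy : ends r = s(x, y))
    (h1 : c ∈ M.closure R) (h2 : c ∉ M.closure (R \ {r})) (hz : ∀ e ∈ R, z ∉ ends e)
    (e1 : ends' c = s(x, z)) (e2 : ends' r = s(z, y))
    (e3 : ∀ e ∈ R, e ≠ r → ends' e = ends e) : BicU M (insert c R) ends' u := by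
  classical
  have hRE : R ⊆ M.E \ {c} := h.sub
  have hRE' : R ⊆ M.E := hRE.trans sdiff_subset
  have hcr : c ≠ r := fun h => hcR (h ▸ hr)
  have hxz : x ≠ z := fun h => hz r hr (by rw [hxy, h]; simp)
  have hyz : y ≠ z := fun h => hz r hr (by rw [hxy, h]; simp)
  have hcI : M.Indep {c} := by
    rw [Matroid.indep_singleton, ← Matroid.not_isLoop_iff (M := M) hcE]
    intro hl
    exact h2 (hl.mem_closure _)
  have hcon : ∀ I ⊆ R, (M ／ {c}).Indep I → M.Indep (insert c I) := by
    intro I hI hIi
    have := (hcI.contract_indep_iff).1 hIi
    rw [union_singleton] at this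
    exact this.2
  have hrcl : r ∉ M.closure (R \ {r}) := by
    intro hr'
    apply h2
    have h3 : R ⊆ M.closure (R \ {r}) := by
      intro e he
      by_cases her : e = r
      · rw [her]; exact hr'
      · exact M.mem_closure_of_mem' ⟨he, her⟩ (hRE' he)
    exact M.closure_subset_closure_of_subset_closure h3 h1
  refine ⟨insert_subset hcE hRE', ?_, ?_⟩
  · intro F φ hF hφ hφe
    by_cases hcF : c ∈ F
    · have hF' : F \ {c} ⊆ R := by
        rintro e ⟨he, hec⟩
        exact (hF he).resolve_left hec
      have hFc : insert c (F \ {c}) = F := by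
        rw [insert_sdiff_singleton, insert_eq_of_mem hcF]
      rw [← hFc]
      refine hcon _ hF' ?_
      have hφc := hφe c hcF
      rw [e1, Sym2.mem_iff] at hφc
      refine h.ind _ (fun e => if e = r ∧ φ r = z then x else φ e) hF' ?_ ?_
      · intro a ha b hb hab
        simp only at hab
        by_cases ha' : a = r ∧ φ r = z <;> by_cases hb' : b = r ∧ φ r = z
        · rw [ha'.1, hb'.1]
        · rw [if_pos ha', if_neg hb'] at hab
          exfalso
          have hrF : r ∈ F := ha'.1 ▸ ha.1
          rcases hφc with hφc | hφc
          · exact hb.2 (hφ hb.1 hcF (by rw [hφc, hab]))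
          · exact hcr (hφ hcF hrF (by rw [hφc, ha'.2]))
        · rw [if_neg ha', if_pos hb'] at hab
          exfalso
          have hrF : r ∈ F := hb'.1 ▸ hb.1
          rcases hφc with hφc | hφc
          · exact ha.2 (hφ ha.1 hcF (by rw [hφc, hab]))
          · exact hcr (hφ hcF hrF (by rw [hφc, hb'.2]))
        · rw [if_neg ha', if_neg hb'] at hab
          exact hφ ha.1 hb.1 hab
      · intro e he
        by_cases he' : e = r ∧ φ r = z
        · simp only [if_pos he']
          rw [he'.1, hxy]
          simp
        · simp only [if_neg he']
          by_cases her : e = r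
          · subst her
            have h3 := hφe e he.1
            rw [e2, Sym2.mem_iff] at h3
            rw [hxy]
            rcases h3 with h3 | h3
            · exact absurd ⟨rfl, h3⟩ he'
            · rw [h3]; simp
          · rw [← e3 e (hF' he) her]
            exact hφe e he.1
    · have hFR : F ⊆ R := fun e he => (hF he).resolve_left fun h => hcF (h ▸ he)
      by_cases hrz : r ∈ F ∧ φ r = z
      · have hI : M.Indep (F \ {r}) := by
          refine (hcon _ (sdiff_subset.trans hFR) (h.ind _ φ (sdiff_subset.trans hFR)
            (hφ.mono sdiff_subset) ?_)).subset (subset_insert _ _)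
          rintro e ⟨he, her⟩
          rw [← e3 e (hFR he) her]
          exact hφe e he
        have h3 : r ∉ M.closure (F \ {r}) := fun h =>
          hrcl (M.closure_subset_closure (sdiff_subset_sdiff_left hFR) h)
        have h4 := hI.insert_indep_iff.2 (Or.inl ⟨hRE' hr, h3⟩)
        rwa [insert_sdiff_singleton, insert_eq_of_mem hrz.1] at h4
      · refine (hcon _ hFR (h.ind _ φ hFR hφ ?_)).subset (subset_insert _ _)
        intro e he
        by_cases her : e = r
        · subst her
          have h3 := hφe e he
          rw [e2, Sym2.mem_iff] at h3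
          rw [hxy]
          rcases h3 with h3 | h3
          · exact absurd ⟨he, h3⟩ hrz
          · rw [h3]; simp
        · rw [← e3 e (hFR he) her]
          exact hφe e he
  · intro W
    -- the part outside of `c`, `r`
    set X : Set α := ins (R \ {r}) ends (W \ {z}) with hX
    have hXE : X ⊆ M.E \ {c} := fun e he => hRE he.1.1
    have hXR : X ⊆ R \ {r} := fun e he => he.1
    have hXc : M.eRk X ≤ (M ／ {c}).eRk X := by
      have h3 : c ∉ M.closure X := fun h => h2 (M.closure_subset_closure hXR h)
      have h4 := eRk_con1 hcI hXE
      have h5 : M.eRk (insert c X) = M.eRk X + 1 := Matroid.eRk_insert_eq_add_one ⟨hcE, h3⟩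
      rw [h5] at h4
      exact (ENat.add_le_add_iff_right (by simp)).1 h4.le
    have hXr : (M ／ {c}).eRk X ≤ (W \ {z}).encard + u :=
      ((M ／ {c}).eRk_mono (show X ⊆ ins R ends (W \ {z}) from
        fun e he => ⟨he.1.1, he.2⟩)).trans (h.rk (W \ {z}))
    have hrest : ∀ e ∈ ins (insert c R) ends' W, e ≠ c → e ≠ r → e ∈ X := by
      rintro e ⟨he, he'⟩ hec her
      have heR : e ∈ R := he.resolve_left hec
      rw [e3 e heR her] at he'
      exact ⟨⟨heR, her⟩, fun v hv => ⟨he' v hv, fun h => hz e heR (h ▸ hv)⟩⟩
    by_cases hzW : z ∈ W
    · have hW : (W \ {z}).encard + 1 = W.encard := encard_sdiff_singleton_add_one hzW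
      by_cases hx : x ∈ W ∧ y ∈ W
      · -- both
        have h3 : ins (insert c R) ends' W ⊆ insert c (ins R ends (W \ {z})) := by
          intro e he
          by_cases hec : e = c
          · exact Or.inl hec
          · right
            by_cases her : e = r
            · subst her
              refine ⟨hr, fun v hv => ?_⟩
              rw [hxy, Sym2.mem_iff] at hv
              rcases hv with rfl | rfl
              · exact ⟨hx.1, hxz⟩
              · exact ⟨hx.2, hyz⟩
            · have := hrest e he hec her
              exact ⟨this.1.1, this.2⟩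
        refine (M.eRk_mono h3).trans ?_
        rw [eRk_con1 hcI (fun e he => hRE he.1), ← hW, add_right_comm]
        exact add_le_add_left (h.rk _) 1
      · have key : ∃ a, ins (insert c R) ends' W ⊆ insert a X := by
          by_cases hx' : x ∈ W
          · refine ⟨c, fun e he => ?_⟩
            by_cases hec : e = c
            · exact Or.inl hec
            · right
              refine hrest e he hec ?_
              rintro rfl
              refine hx ⟨hx', he.2 y ?_⟩
              rw [e2]; simp
          · refine ⟨r, fun e he => ?_⟩
            by_cases her : e = r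
            · exact Or.inl her
            · right
              refine hrest e he ?_ her
              rintro rfl
              refine hx' (he.2 x ?_)
              rw [e1]; simp
        obtain ⟨a, ha⟩ := key
        refine (M.eRk_mono ha).trans ?_
        refine (M.eRk_insert_le_add_one _ _).trans ?_
        rw [← hW, add_right_comm]
        exact add_le_add_left (hXc.trans hXr) 1
    · have h3 : ins (insert c R) ends' W ⊆ X := by
        intro e he
        refine hrest e he ?_ ?_
        · rintro rfl
          refine hzW (he.2 z ?_)
          rw [e1]; simp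
        · rintro rfl
          refine hzW (he.2 z ?_)
          rw [e2]; simp
      refine (M.eRk_mono h3).trans (hXc.trans (hXr.trans ?_))
      exact add_le_add_left (encard_le_encard sdiff_subset) _

/-- a map of the vertices which is injective on the used vertices -/
theorem BicU.relabel {V' : Type*} (h : BicU M R ends u) (ψ : V → V') (U : Set V)
    (hU : ∀ e ∈ R, ∀ v ∈ ends e, v ∈ U) (hψ : InjOn ψ U) :
    BicU M R (fun e => (ends e).map ψ) u := by
  classical
  refine ⟨h.sub, ?_, ?_⟩
  · intro F φ hF hφ hφe
    have hex : ∀ e ∈ F, ∃ v ∈ ends e, ψ v = φ e := fun e he => Sym2.mem_map.1 (hφe e he)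
    rcases F.eq_empty_or_nonempty with rfl | ⟨e₀, he₀⟩
    · exact M.empty_indep
    have : Nonempty V := ⟨(hex e₀ he₀).choose⟩
    choose! g hg using hex
    refine h.ind F g hF ?_ fun e he => (hg e he).1
    intro a ha b hb hab
    refine hφ ha hb ?_
    rw [← (hg a ha).2, ← (hg b hb).2, hab]
  · intro W
    have h1 : ins R (fun e => (ends e).map ψ) W ⊆ ins R ends (ψ ⁻¹' W ∩ U) := by
      rintro e ⟨he, he'⟩
      refine ⟨he, fun v hv => ⟨he' _ (Sym2.mem_map.2 ⟨v, hv, rfl⟩), hU e he v hv⟩⟩
    refine (M.eRk_mono h1).trans ((h.rk _).trans ?_)
    refine add_le_add_left ?_ _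
    rw [← (hψ.mono inter_subset_right).encard_image]
    refine encard_le_encard ?_
    rintro _ ⟨v, hv, rfl⟩
    exact hv.1

end series

/-- from `Bic` to `BicU` by uncontracting `B` -/
theorem bicU_of {α V : Type*} {M : Matroid α} [M.Finite] {C B S : Set α} {ends : α → Sym2 V}
    (hC : M.Indep C) (hBC : B ⊆ C) (hS : S ⊆ M.E \ C) (h : Bic (M ／ C) S ends) :
    BicU (M ／ (C \ B)) S ends B.ncard := by
  have hf1 := BQ.fin_contract (M := M) C
  have hf2 := BQ.fin_contract (M := M) (C \ B)
  have hCB : M.Indep (C \ B) := hC.subset sdiff_subset
  refine ⟨?_, ?_, ?_⟩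
  · rw [Matroid.contract_ground]
    exact fun x hx => ⟨(hS hx).1, fun h' => (hS hx).2 h'.1⟩
  · intro F φ hF hφ hφe
    have h1 := h.ind F φ hF hφ hφe
    rw [hC.contract_indep_iff] at h1
    rw [hCB.contract_indep_iff]
    exact ⟨h1.1.mono_right sdiff_subset, h1.2.subset (union_subset_union_right _ sdiff_subset)⟩
  · intro W
    have h1 : rk (M ／ (C \ B)) (ins S ends W) ≤ rk (M ／ C) (ins S ends W) + B.ncard :=
      rk_le_add hC hBC fun e he => hS he.1
    have h2 := h.rk W
    rw [← cast_rk] at h2
    rw [← cast_rk]
    have h3 : (rk (M ／ (C \ B)) (ins S ends W) : ℕ∞) ≤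
        (rk (M ／ C) (ins S ends W) : ℕ∞) + (B.ncard : ℕ∞) := by exact_mod_cast h1
    exact h3.trans (add_le_add_left h2 _)

lemma node_append {α : Type*} (s : Bool × ℕ × ℕ) {l t t' : List α} {j : ℕ} (hj : j ≤ l.length)
    (ht : t ≠ []) (ht' : t' ≠ []) : node s (l ++ t) j = node s (l ++ t') j := by
  unfold node
  by_cases h0 : j = 0
  · simp only [if_pos h0]
  · have h1 := List.length_pos_iff.2 ht
    have h2 := List.length_pos_iff.2 ht'
    have h3 : j ≠ (l ++ t).length := by rw [List.length_append]; omega
    have h4 : j ≠ (l ++ t').length := by rw [List.length_append]; omega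
    simp only [if_neg h0, if_neg h3, if_neg h4]
    rw [List.getElem?_append_left (by omega), List.getElem?_append_left (by omega)]

/-- **Row T3.** -/
theorem t3 : T3Stmt.{u} := by
  classical
  intro α M _ C B K e ends y hw hK hvis
  have hMfin : M.E.Finite := M.ground_finite
  have hCE : C ⊆ M.E := hw.ind.subset_ground
  have hKfin : K.Finite := hMfin.subset (hK.trans (sdiff_subset.trans hCE))
  set S : Set α := e '' Seg y with hS
  have hSC : ∀ x ∈ S, x ∉ C := fun x hx => (hw.sub hx).2
  -- the closure over `K`
  have hcl : ∀ (K : Set α), K ⊆ C \ B → ∀ c ∈ (C \ B) \ K, ∀ X ⊆ S,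
      (c ∈ (M ／ (C \ (B ∪ insert c K))).closure (X ∪ K) ↔ Vis M C B X c) := by
    intro K hK c hc X hX
    rw [Matroid.contract_closure_eq, mem_sdiff]
    have h1 : X ∪ K ∪ (C \ (B ∪ insert c K)) = X ∪ (C \ insert c B) := by
      ext x
      simp only [mem_union, mem_sdiff, mem_insert_iff]
      constructor
      · rintro ((h | h) | ⟨h, h'⟩)
        · exact Or.inl h
        · right
          refine ⟨(hK h).1, ?_⟩
          rintro (rfl | h')
          · exact hc.2 h
          · exact (hK h).2 h'
        · right
          refine ⟨h, ?_⟩
          rintro (rfl | h'')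
          · exact h' (Or.inr (Or.inl rfl))
          · exact h' (Or.inl h'')
      · rintro (h | ⟨h, h'⟩)
        · exact Or.inl (Or.inl h)
        · by_cases hxK : x ∈ K
          · exact Or.inl (Or.inr hxK)
          · right
            refine ⟨h, ?_⟩
            rintro (h'' | rfl | h'')
            · exact h' (Or.inr h'')
            · exact h' (Or.inl rfl)
            · exact hxK h''
    rw [h1]
    refine ⟨fun h => h.1, fun h => ⟨h, ?_⟩⟩
    rintro ⟨_, h2⟩
    exact h2 (Or.inr (Or.inl rfl))
  -- induction
  have main : ∀ K : Set α, K.Finite → K ⊆ C \ B → (∀ c ∈ K, Vis M C B S c) →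
      ∃ (L : Bool × ℕ × ℕ → List α) (ends' : α → Sym2 ((ℕ × ℕ) ⊕ α)),
      SubWall (S ∪ K) ends' L y ∧
      BicU (M ／ (C \ (B ∪ K))) (S ∪ K) ends' B.ncard ∧
      (∀ s ∈ Seg y, ∃ L', L s = L' ++ [e s]) ∧
      ∀ s ∈ Seg y, ∀ c ∈ L s, c ≠ e s → c ∈ K ∧ ¬ Vis M C B (e '' (Seg y \ {s})) c := by
    intro K hKf
    induction K, hKf using Set.Finite.induction_on with
    | empty =>
      intro _ _
      refine ⟨fun s => [e s], fun x => (ends x).map Sum.inl, ?_, ?_, ?_, ?_⟩
      · refine ⟨by simp, by simp, ?_, ?_, ?_⟩
        · intro s hs s' hs' hne
          intro a ha hb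
          rw [List.mem_singleton] at ha hb
          exact hne (hw.inj hs hs' (ha.symm.trans hb))
        · intro x
          simp only [union_empty, List.mem_singleton, hS, mem_image]
          constructor
          · rintro ⟨s, hs, rfl⟩
            exact ⟨s, hs, rfl⟩
          · rintro ⟨s, hs, rfl⟩
            exact ⟨s, hs, rfl⟩
        · intro s hs i hi
          have hi0 : i = 0 := by simpa using hi
          subst hi0
          simp [node, hw.end_eq s hs]
      · rw [union_empty, union_empty]
        exact (bicU_of hw.ind hw.BC hw.sub hw.bic).relabel Sum.inl univ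
          (fun _ _ _ _ => mem_univ _) Sum.inl_injective.injOn
      · intro s hs
        exact ⟨[], rfl⟩
      · intro s hs c hc hce
        exact absurd (List.mem_singleton.1 hc) hce
    | @insert c K hcK hKf ih =>
      intro hK hvis
      have hK' : K ⊆ C \ B := (subset_insert _ _).trans hK
      obtain ⟨L, ends', h1, h2, h3, h4⟩ := ih hK' fun d hd => hvis d (Or.inr hd)
      have hc : c ∈ C \ B := hK (Or.inl rfl)
      have hcv := hvis c (Or.inl rfl)
      obtain ⟨s₀, hs₀, hs₀'⟩ : ∃ s ∈ Seg y, ¬ Vis M C B (e '' (Seg y \ {s})) c :=
        (hw.loc c hc).resolve_left fun h => h hcv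
      obtain ⟨l, hl⟩ := h3 s₀ hs₀
      set M₁ : Matroid α := M ／ (C \ (B ∪ insert c K)) with hM₁
      have hf1 : M₁.Finite := BQ.fin_contract (M := M) _
      have hM₂ : M ／ (C \ (B ∪ K)) = M₁ ／ {c} := by
        rw [hM₁, Matroid.contract_contract]
        congr 1
        ext x
        simp only [mem_sdiff, mem_union, mem_insert_iff, mem_singleton_iff]
        constructor
        · rintro ⟨a, b⟩
          by_cases hxc : x = c
          · exact Or.inr hxc
          · left
            refine ⟨a, ?_⟩
            rintro (h | h | h)
            · exact b (Or.inl h)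
            · exact hxc h
            · exact b (Or.inr h)
        · rintro (⟨a, b⟩ | rfl)
          · refine ⟨a, ?_⟩
            rintro (h | h)
            · exact b (Or.inl h)
            · exact b (Or.inr (Or.inr h))
          · refine ⟨hc.1, ?_⟩
            rintro (h | h)
            · exact hc.2 h
            · exact hcK h
      rw [hM₂] at h2
      have hcE : c ∈ M₁.E := by
        rw [hM₁, Matroid.contract_ground]
        exact ⟨hCE hc.1, fun h => h.2 (Or.inr (Or.inl rfl))⟩
      have hcR : c ∉ S ∪ K := by
        rintro (h | h)
        · exact hSC c h hc.1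
        · exact hcK h
      have hrS : e s₀ ∈ S := ⟨s₀, hs₀, rfl⟩
      have hrc : e s₀ ≠ c := fun h => hSC _ hrS (h ▸ hc.1)
      have hLmem : ∀ s ∈ Seg y, ∀ d ∈ L s, d ∈ S ∪ K := fun s hs d hd =>
        (h1.mem d).2 ⟨s, hs, hd⟩
      have hcL : ∀ s ∈ Seg y, c ∉ L s := fun s hs hd => hcR (hLmem s hs c hd)
      have hlen : (L s₀).length = l.length + 1 := by rw [hl]; simp
      have hLget : ∀ h : l.length < (L s₀).length, (L s₀)[l.length] = e s₀ := by
        intro h
        simp [hl]
      -- the nodes
      have hnode : ∀ s ∈ Seg y, ∀ i, node s (L s) i ≠ Sum.inr c := by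
        intro s hs i hi
        unfold node at hi
        split_ifs at hi
        cases hd : (L s)[i - 1]? with
        | none => rw [hd] at hi; simp at hi
        | some d =>
          rw [hd] at hi
          simp only [Sum.inr.injEq] at hi
          subst hi
          exact hcL s hs (List.mem_of_getElem? hd)
      have hz : ∀ x ∈ S ∪ K, Sum.inr c ∉ ends' x := by
        intro x hx hx'
        obtain ⟨s, hs, hxs⟩ := (h1.mem x).1 hx
        obtain ⟨i, hi, rfl⟩ := List.mem_iff_getElem.1 hxs
        rw [h1.end_eq s hs i hi, Sym2.mem_iff] at hx'
        rcases hx' with h | h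
        · exact hnode s hs _ h.symm
        · exact hnode s hs _ h.symm
      have hend0 : ends' (e s₀) = s(node s₀ (L s₀) l.length, Sum.inl (segFar s₀)) := by
        have h5 := h1.end_eq s₀ hs₀ l.length (by omega)
        rw [hLget] at h5
        rw [h5]
        congr 1
        unfold node
        rw [if_neg (by omega), if_pos hlen.symm]
      set v₀ := node s₀ (L s₀) l.length with hv₀
      set ends'' : α → Sym2 ((ℕ × ℕ) ⊕ α) := fun x => if x = c then s(v₀, Sum.inr c) else
        if x = e s₀ then s(Sum.inr c, Sum.inl (segFar s₀)) else ends' x with hends''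
      have e1 : ends'' c = s(v₀, Sum.inr c) := by simp [hends'']
      have e2 : ends'' (e s₀) = s(Sum.inr c, Sum.inl (segFar s₀)) := by
        simp [hends'', hrc]
      have e3 : ∀ x, x ≠ c → x ≠ e s₀ → ends'' x = ends' x := by
        intro x h5 h6
        simp only [hends'', if_neg h5, if_neg h6]
      set L'' : Bool × ℕ × ℕ → List α := fun s => if s = s₀ then l ++ [c, e s₀] else L s with hL''
      have hL0 : L'' s₀ = l ++ [c, e s₀] := by simp [hL'']
      have hL1 : ∀ s, s ≠ s₀ → L'' s = L s := by
        intro s hs
        simp only [hL'', if_neg hs]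
      have hmem0 : ∀ d, d ∈ l ++ [c, e s₀] ↔ d = c ∨ d ∈ L s₀ := by
        intro d
        rw [hl]
        simp only [List.mem_append, List.mem_cons, List.not_mem_nil, or_false]
        tauto
      have hnd := h1.nodup s₀ hs₀
      rw [hl, List.nodup_append] at hnd
      refine ⟨L'', ends'', ?_, ?_, ?_, ?_⟩
      · refine ⟨?_, ?_, ?_, ?_, ?_⟩
        · intro s hs
          by_cases h : s = s₀
          · rw [h, hL0]; simp
          · rw [hL1 s h]; exact h1.ne s hs
        · intro s hs
          by_cases h : s = s₀
          · rw [h, hL0, List.nodup_append]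
            refine ⟨hnd.1, by simp [Ne.symm hrc], ?_⟩
            intro a ha b hb
            rw [List.mem_cons, List.mem_singleton] at hb
            rcases hb with rfl | rfl
            · rintro rfl
              exact hcL s₀ hs₀ (by rw [hl]; exact List.mem_append_left _ ha)
            · exact hnd.2.2 a ha _ (List.mem_singleton.2 rfl)
          · rw [hL1 s h]; exact h1.nodup s hs
        · intro s hs s' hs' hne
          by_cases h : s = s₀ <;> by_cases h' : s' = s₀
          · exact absurd (h.trans h'.symm) hne
          · rw [h, hL0, hL1 s' h']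
            intro d hd hd'
            rcases (hmem0 d).1 hd with rfl | hd
            · exact hcL s' hs' hd'
            · exact h1.disj s₀ hs₀ s' hs' (h ▸ hne) hd hd'
          · rw [h', hL0, hL1 s h]
            intro d hd hd'
            rcases (hmem0 d).1 hd' with rfl | hd'
            · exact hcL s hs hd
            · exact h1.disj s hs s₀ hs₀ (h' ▸ hne) hd hd'
          · rw [hL1 s h, hL1 s' h']
            exact h1.disj s hs s' hs' hne
        · intro x
          constructor
          · rintro (hx | rfl | hx)
            · obtain ⟨s, hs, hxs⟩ := (h1.mem x).1 (Or.inl hx)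
              refine ⟨s, hs, ?_⟩
              by_cases h : s = s₀
              · rw [h, hL0, hmem0]; exact Or.inr (h ▸ hxs)
              · rw [hL1 s h]; exact hxs
            · refine ⟨s₀, hs₀, ?_⟩
              rw [hL0, hmem0]; exact Or.inl rfl
            · obtain ⟨s, hs, hxs⟩ := (h1.mem x).1 (Or.inr hx)
              refine ⟨s, hs, ?_⟩
              by_cases h : s = s₀
              · rw [h, hL0, hmem0]; exact Or.inr (h ▸ hxs)
              · rw [hL1 s h]; exact hxs
          · rintro ⟨s, hs, hxs⟩
            have hmem : x = c ∨ x ∈ L s := by
              by_cases h : s = s₀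
              · rw [h, hL0, hmem0] at hxs
                rw [h]; exact hxs
              · rw [hL1 s h] at hxs
                exact Or.inr hxs
            rcases hmem with rfl | hx
            · exact Or.inr (Or.inl rfl)
            · rcases hLmem s hs x hx with h | h
              · exact Or.inl h
              · exact Or.inr (Or.inr h)
        · intro s hs i hi
          by_cases h : s = s₀
          · subst h
            have hnodeq : ∀ j ≤ l.length, node s (L'' s) j = node s (L s) j := by
              intro j hj
              rw [hL0, hl]
              exact node_append s hj (by simp) (by simp)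
            have hlen'' : (L'' s).length = l.length + 2 := by rw [hL0]; simp
            have hgetq : ∀ j : ℕ, ∀ hj : j < (L'' s).length, (L'' s)[j] = (l ++ [c, e s])[j]'(by
                rw [hL0] at hj; exact hj) := by
              intro j hj
              congr 1
            rcases Nat.lt_or_ge i l.length with hil | hil
            · have hget : (L'' s)[i] = (L s)[i]'(by omega) := by
                rw [hgetq i hi, List.getElem_append_left hil]
                simp only [hl, List.getElem_append_left hil]
              have hgl : (L s)[i]'(by omega) ∈ l := by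
                simp only [hl, List.getElem_append_left hil]
                exact List.getElem_mem hil
              rw [hget, hnodeq i hil.le, hnodeq (i + 1) hil, ← h1.end_eq s hs i (by omega)]
              refine e3 _ ?_ ?_
              · intro h
                exact hcL s hs (h ▸ List.getElem_mem _)
              · intro h
                exact hnd.2.2 _ hgl _ (List.mem_singleton.2 rfl) h
            · rw [hlen''] at hi
              have hcase : i = l.length ∨ i = l.length + 1 := by omega
              rcases hcase with rfl | rfl
              · have hget : (L'' s)[l.length] = c := by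
                  rw [hgetq _ (by omega)]
                  simp
                rw [hget, e1, hnodeq _ le_rfl]
                congr 1
                unfold node
                rw [if_neg (by omega), if_neg (by omega)]
                have : (L'' s)[l.length + 1 - 1]? = some c := by
                  rw [hL0]
                  simp
                rw [this]
              · have hget : (L'' s)[l.length + 1] = e s := by
                  rw [hgetq _ (by omega)]
                  simp
                rw [hget, e2]
                congr 1
                · unfold node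
                  rw [if_neg (by omega), if_neg (by omega)]
                  have : (L'' s)[l.length + 1 - 1]? = some c := by
                    rw [hL0]
                    simp
                  rw [this]
                · unfold node
                  rw [if_neg (by omega), if_pos (by omega)]
          · have hLs := hL1 s h
            have hi' : i < (L s).length := by rw [← hLs]; exact hi
            have hget : (L'' s)[i] = (L s)[i] := by
              congr 1
            rw [hget, hLs, ← h1.end_eq s hs i hi']
            refine e3 _ ?_ ?_
            · intro h'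
              exact hcL s hs (h' ▸ List.getElem_mem _)
            · intro h'
              refine h1.disj s hs s₀ hs₀ h (List.getElem_mem hi') ?_
              rw [h', hl]
              simp
      · have h5 : S ∪ insert c K = insert c (S ∪ K) := by
          ext x
          simp only [mem_union, mem_insert_iff]
          tauto
        rw [h5]
        refine h2.series' hcE hcR (Or.inl hrS) hend0 ?_ ?_ hz e1 e2 ?_
        · exact (hcl K hK' c ⟨hc, hcK⟩ S subset_rfl).2 hcv
        · have h6 : (S ∪ K) \ {e s₀} = e '' (Seg y \ {s₀}) ∪ K := by
            ext x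
            simp only [mem_sdiff, mem_union, mem_singleton_iff, hS, mem_image]
            constructor
            · rintro ⟨⟨s, hs, rfl⟩ | h, h'⟩
              · exact Or.inl ⟨s, ⟨hs, fun h'' => h' (by rw [h''])⟩, rfl⟩
              · exact Or.inr h
            · rintro (⟨s, ⟨hs, hs'⟩, rfl⟩ | h)
              · exact ⟨Or.inl ⟨s, hs, rfl⟩, fun h' => hs' (hw.inj hs hs₀ h')⟩
              · refine ⟨Or.inr h, ?_⟩
                rintro rfl
                exact hSC _ hrS (hK' h).1
          rw [h6]
          intro h7
          exact hs₀' ((hcl K hK' c ⟨hc, hcK⟩ _ (image_mono sdiff_subset)).1 h7)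
        · intro x hx hxr
          exact e3 x (fun h => hcR (h ▸ hx)) hxr
      · intro s hs
        by_cases h : s = s₀
        · refine ⟨l ++ [c], ?_⟩
          rw [h, hL0]
          simp
        · rw [hL1 s h]; exact h3 s hs
      · intro s hs d hd hde
        by_cases h : s = s₀
        · subst h
          rw [hL0, hmem0] at hd
          rcases hd with rfl | hd
          · exact ⟨Or.inl rfl, hs₀'⟩
          · obtain ⟨a, b⟩ := h4 s hs d hd hde
            exact ⟨Or.inr a, b⟩
        · rw [hL1 s h] at hd
          obtain ⟨a, b⟩ := h4 s hs d hd hde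
          exact ⟨Or.inr a, b⟩
  obtain ⟨L, ends', h1, h2, h3, h4⟩ := main K hKfin hK hvis
  refine ⟨L, ends', h1, h2, fun s hs => ?_, h4⟩
  obtain ⟨L', hL'⟩ := h3 s hs
  rw [hL']
  simp

end CWL
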