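import Pool.Agent.CW.TTwo
import Pool.Agent.CW.T3
import Pool.Agent.CW.Series
import Pool.Agent.CW.Rob
import Pool.Agent.CW.Star
import Pool.Agent.CW.Lift
import Pool.Agent.GL.Loc

/-!
# One clean side (the input of the two-sided theorem)

Nothing is contracted: `M` itself carries a subdivided brick wall on a set `R ⊆ T ∪ C`.
-/

open Set BIC BICS
open scoped Matroid

namespace CWL

universe u

/-- a pendant element may be removed from a spanning set -/
lemma cl_pend {α V : Type*} {P : Matroid α} {T : Set α} {ends : α → Sym2 V} (hB : Bic P T ends)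
    {X : Set α} (hX : X ⊆ T) {f a : α} {v : V} (hf : f ∈ T) (ha : a ∈ T) (hv : v ∈ ends f)
    (hav : v ∉ ends a) (hXv : ∀ g ∈ X, v ∉ ends g) (h : a ∈ P.closure (insert f X)) :
    a ∈ P.closure X := by
  by_contra hn
  have h1 := (P.closure_exchange ⟨h, hn⟩).1
  refine Gad.not_mem_Hx' hB hf hv ?_
  unfold Gad.Hx
  refine P.closure_subset_closure ?_ h1
  rintro g (rfl | hg)
  · refine ⟨ha, fun w hw hwv => hav ?_⟩
    rw [mem_singleton_iff] at hwv
    rwa [hwv] at hw
  · refine ⟨hX hg, fun w hw hwv => hXv g hg ?_⟩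
    rw [mem_singleton_iff] at hwv
    rwa [hwv] at hw

namespace T2

variable {α : Type*} {T : Set α} {ends : α → Sym2 (ℕ × ℕ)} {el : Bool × ℕ × ℕ → ℕ → α}
  {Z : ℕ × ℕ} {l y N : ℕ}

/-- an inner vertex of a segment lies only on two elements -/
lemma El.at_inner (h : El T ends Z l y el) {s s' : Bool × ℕ × ℕ} (hs' : s' ∈ Seg y) {t j : ℕ} (hj0 : 0 < j) (hj : j < l) (ht : t < l)
    (hv : sv Z l s j ∈ ends (el s' t)) : s' = s ∧ (t = j ∨ t + 1 = j) := by
  rw [h.eq s' hs' t ht, Sym2.mem_iff] at hv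
  rcases hv with h1 | h1
  · obtain ⟨h2, h3⟩ := sv_int hj0 hj (by omega) h1
    exact ⟨h2.symm, Or.inl h3.symm⟩
  · obtain ⟨h2, h3⟩ := sv_int hj0 hj (by omega) h1
    exact ⟨h2.symm, Or.inr h3.symm⟩

/-- all elements of the wall -/
def allE (el : Bool × ℕ × ℕ → ℕ → α) (l y : ℕ) : Set α := {x | ∃ s ∈ Seg y, ∃ t < l, x = el s t}

/-- a series element is a coloop when another element of its segment is deleted -/
lemma El.coloop {P : Matroid α} (hP : Bic P T ends) (h : El T ends Z l y el)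
    {s : Bool × ℕ × ℕ} (hs : s ∈ Seg y) {t : ℕ} (ht0 : 0 < t) (ht : t < l) :
    el s t ∉ P.closure (allE el l y \ {el s t, el s 0}) := by
  have haT : el s t ∈ T := h.mem s hs t ht
  have hallT : allE el l y ⊆ T := by
    rintro x ⟨s', hs', t', ht', rfl⟩
    exact h.mem s' hs' t' ht'
  -- remove the elements below `t`
  have key : ∀ j, j + 1 ≤ t → el s t ∈ P.closure (allE el l y \ {el s t, el s 0}) →
      el s t ∈ P.closure ({x | ∃ s' ∈ Seg y, ∃ t' < l, x = el s' t' ∧
        ¬ (s' = s ∧ (t' ≤ j ∨ t' = t))}) := by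
    intro j
    induction j with
    | zero =>
      intro _ hcl
      refine P.closure_subset_closure ?_ hcl
      rintro x ⟨⟨s', hs', t', ht', rfl⟩, hx⟩
      refine ⟨s', hs', t', ht', rfl, ?_⟩
      rintro ⟨rfl, h1 | h1⟩
      · have : t' = 0 := by omega
        subst this
        exact hx (Or.inr rfl)
      · subst h1
        exact hx (Or.inl rfl)
    | succ j ih =>
      intro hj hcl
      have h1 := ih (by omega) hcl
      refine cl_pend (f := el s (j + 1)) (v := sv Z l s (j + 1)) hP ?_ (h.mem s hs _ (by omega))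
        haT ?_ ?_ ?_ (P.closure_subset_closure ?_ h1)
      · rintro x ⟨s', hs', t', ht', rfl, _⟩
        exact h.mem s' hs' t' ht'
      · rw [h.eq s hs (j + 1) (by omega)]
        exact Sym2.mem_mk_left _ _
      · intro hv
        have := (h.at_inner hs (by omega) (by omega) ht hv).2
        omega
      · rintro x ⟨s', hs', t', ht', rfl, hx⟩ hv
        obtain ⟨h2, h3⟩ := h.at_inner hs' (by omega) (by omega) ht' hv
        exact hx ⟨h2, by omega⟩
      · rintro x ⟨s', hs', t', ht', rfl, hx⟩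
        by_cases h2 : s' = s ∧ t' = j + 1
        · obtain ⟨rfl, rfl⟩ := h2
          exact Or.inl rfl
        · refine Or.inr ⟨s', hs', t', ht', rfl, ?_⟩
          rintro ⟨rfl, h3⟩
          exact hx ⟨rfl, by
            rcases h3 with h3 | h3
            · left
              have : t' ≠ j + 1 := fun h4 => h2 ⟨rfl, h4⟩
              omega
            · exact Or.inr h3⟩
  intro hcl
  have h1 := key (t - 1) (by omega) hcl
  have hv : sv Z l s t ∈ ends (el s t) := by
    rw [h.eq s hs t ht]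
    exact Sym2.mem_mk_left _ _
  refine Gad.not_mem_Hx' hP haT hv ?_
  unfold Gad.Hx
  refine P.closure_subset_closure ?_ h1
  rintro x ⟨s', hs', t', ht', rfl, hx⟩
  refine ⟨h.mem s' hs' t' ht', fun w hw hwv => ?_⟩
  rw [mem_singleton_iff] at hwv
  rw [hwv] at hw
  obtain ⟨h2, h3⟩ := h.at_inner hs' ht0 ht ht' hw
  exact hx ⟨h2, by omega⟩

end T2

open T2 in
/-- ROW T2, nothing is contracted: the other elements of the segments become conflicts. -/
theorem t2' {α : Type u} (M : Matroid α) [M.Finite] (C T B : Set α) (ends : α → Sym2 (ℕ × ℕ))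
    (N : ℕ) (Z : ℕ × ℕ) (l y : ℕ) (hC : M.Indep C) (hT : T ⊆ M.E \ C) (hB : Bic (M ／ C) T ends)
    (hG : Grd T ends 0 0 (2 * N) (2 * N)) (hBC : B ⊆ C) (hl : 1 ≤ l) (h1 : Z.1 + l * y < 2 * N)
    (h2 : Z.2 + l * y < 2 * N) (hcw : Cw M C T B ends Z l y) :
    ∃ (A : Set α) (e : Bool × ℕ × ℕ → α) (ends' : α → Sym2 (ℕ × ℕ)), A ⊆ T ∧
      (∀ s ∈ Seg y, e s ∈ T \ A) ∧ CWall M (C ∪ A) B e ends' y := by
  classical
  have hNpos : 1 ≤ N := by omega
  obtain ⟨e₀, he₀, -⟩ := hG.surj (0, 0) (1, 0) (Or.inr ⟨rfl, Or.inl rfl⟩)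
    ⟨by simp, by simp only; omega, by simp, by simp only; omega⟩
    ⟨by simp, by simp only; omega, by simp, by simp only; omega⟩
  obtain ⟨el, hel⟩ := exists_el (y := y) (l := l) (Z := Z) hG ⟨e₀⟩ h1 h2
  set A := con el l (Seg y) with hA
  have hAT : A ⊆ T := hel.con_sub subset_rfl
  have hAC : Disjoint A C := by
    rw [Set.disjoint_left]
    intro x hx hxC
    exact (hT (hAT hx)).2 hxC
  have hAI : (M ／ C).Indep A := by
    have := hel.indep hB hl (F := ∅) (φ := fun _ => (0, 0)) (empty_subset _) (injOn_empty _)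
      (fun x hx => absurd hx (notMem_empty x))
    rwa [empty_union] at this
  have hACI : M.Indep (A ∪ C) := (hC.contract_indep_iff.1 hAI).2
  have hcomm : M ／ (C ∪ A) = M ／ C ／ A := by
    rw [Matroid.contract_contract]
  refine ⟨A, fun s => el s 0, ends2 el y, hAT, fun s hs => ⟨hel.mem s hs 0 (by omega),
    hel.not_con hl hs⟩, ?_⟩
  have hsub : (fun s => el s 0) '' Seg y ⊆ M.E \ (C ∪ A) := by
    rintro _ ⟨s, hs, rfl⟩
    have h3 := hT (hel.mem s hs 0 (by omega))
    exact ⟨h3.1, fun h => h.elim h3.2 (hel.not_con hl hs)⟩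
  have hwall : wallE T ends Z l y = (fun s => el s 0) '' Seg y ∪ A := by
    ext x
    unfold wallE
    simp only [mem_iUnion₂]
    constructor
    · rintro ⟨s, hs, hx⟩
      rw [hel.segE hG.inj hs] at hx
      obtain ⟨t, ht, rfl⟩ := hx
      by_cases h0 : t = 0
      · subst h0; exact Or.inl ⟨s, hs, rfl⟩
      · exact Or.inr ⟨s, hs, t, by omega, ht, rfl⟩
    · rintro (⟨s, hs, rfl⟩ | ⟨s, hs, t, _, ht, rfl⟩)
      · refine ⟨s, hs, ?_⟩
        rw [hel.segE hG.inj hs]
        exact ⟨0, by omega, rfl⟩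
      · refine ⟨s, hs, ?_⟩
        rw [hel.segE hG.inj hs]
        exact ⟨t, ht, rfl⟩
  have hBA : ∀ x ∈ A, x ∉ B := fun x hx hxB => Set.disjoint_left.1 hAC hx (hBC hxB)
  have hvis : ∀ {X : Set α} {c : α}, c ∈ C → Vis M (C ∪ A) B X c → Vis M C B (X ∪ A) c := by
    intro X c hcC hv
    unfold Vis at hv ⊢
    refine M.closure_subset_closure ?_ hv
    rintro x (hx | ⟨hx | hx, hx'⟩)
    · exact Or.inl (Or.inl hx)
    · exact Or.inr ⟨hx, hx'⟩
    · exact Or.inl (Or.inr hx)
  refine ⟨?_, ?_, hsub, ?_, ⟨?_, ?_, ?_⟩, hBC.trans subset_union_left, ?_⟩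
  · rwa [union_comm]
  · intro s hs s' hs' hss
    exact (hel.inj hs hs' (by omega) (by omega) hss).1
  · intro s hs
    exact hel.ends2_eq hl hs
  · exact fun x hx => hsub hx
  · intro F φ hF hφ hφe
    rw [hcomm, hAI.contract_indep_iff]
    refine ⟨?_, hel.indep hB hl hF hφ hφe⟩
    rw [Set.disjoint_left]
    intro x hx
    obtain ⟨s, hs, rfl⟩ := hF hx
    exact hel.not_con hl hs
  · intro W
    rw [hcomm]
    have hfin := BQ.fin_contract (M := M) C
    exact hel.rank hB hl W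
  · rintro c ⟨hc | hc, hcB⟩
    · rcases hcw c ⟨hc, hcB⟩ with h3 | ⟨s, hs, h3⟩
      · left
        intro hv
        have := hvis hc hv
        rw [← hwall] at this
        exact h3 this
      · right
        refine ⟨s, hs, fun hv => ?_⟩
        refine h3 (el s 0) (by rw [hel.segE hG.inj hs]; exact ⟨0, by omega, rfl⟩)
          (Vis.mono ?_ (hvis hc hv))
        rintro x (⟨s', ⟨hs', hne⟩, rfl⟩ | hx)
        · refine ⟨by rw [hwall]; exact Or.inl ⟨s', hs', rfl⟩, fun h4 => hne ?_⟩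
          exact (hel.inj hs' hs (by omega) (by omega) h4).1
        · refine ⟨by rw [hwall]; exact Or.inr hx, fun h4 => ?_⟩
          rw [mem_singleton_iff] at h4
          subst h4
          exact hel.not_con hl hs hx
    · obtain ⟨s, hs, t, ht0, ht, rfl⟩ := hc
      right
      refine ⟨s, hs, fun hv => ?_⟩
      refine hel.coloop hB hs ht0 ht ?_
      rw [Matroid.contract_closure_eq]
      refine ⟨M.closure_subset_closure ?_ hv, (hT (hel.mem s hs t ht)).2⟩
      rintro x (⟨s', ⟨hs', hne⟩, rfl⟩ | ⟨hx | hx, hx'⟩)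
      · refine Or.inl ⟨⟨s', hs', 0, by omega, rfl⟩, ?_⟩
        rintro (h4 | h4)
        · have := (hel.inj hs' hs (by omega) ht h4).2
          omega
        · exact hne (hel.inj hs' hs (by omega) (by omega) (mem_singleton_iff.1 h4)).1
      · exact Or.inr hx
      · obtain ⟨s', hs', t', ht0', ht', rfl⟩ := hx
        refine Or.inl ⟨⟨s', hs', t', ht', rfl⟩, ?_⟩
        rintro (h4 | h4)
        · exact hx' (Or.inl h4)
        · have := (hel.inj hs' hs ht' (by omega) (mem_singleton_iff.1 h4)).2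
          omega

/-! ### From the clean wall to `M` -/

/-- elements which are coloops over `R` -/
lemma skew_add {α : Type*} {M : Matroid α} [M.Finite] {R I : Set α} (hI : I ⊆ M.E) (_hR : R ⊆ M.E)
    (hd : Disjoint R I) (h : ∀ c ∈ I, c ∉ M.closure (R ∪ (I \ {c}))) {Y : Set α} (hY : Y ⊆ R) :
    rk M (Y ∪ I) = rk M Y + I.ncard := by
  classical
  have hIf : I.Finite := M.ground_finite.subset hI
  have hYI : Disjoint Y I := hd.mono_left hY
  have h1 := ess_coloops (M := M) (W := Y ∪ I) hIf.toFinset (by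
    intro c hc
    rw [Set.Finite.mem_toFinset] at hc
    have h2 : c ∉ M.closure ((Y ∪ I) \ {c}) := by
      intro h3
      refine h c hc (M.closure_subset_closure ?_ h3)
      rintro x ⟨hx | hx, hxc⟩
      · exact Or.inl (hY hx)
      · exact Or.inr ⟨hx, hxc⟩
    have h4 := rk_insert_ge (hI hc) h2
    rwa [insert_sdiff_singleton, insert_eq_of_mem (show c ∈ Y ∪ I from Or.inr hc)] at h4)
  rw [← Set.ncard_eq_toFinset_card _ hIf, Set.Finite.coe_toFinset] at h1
  have h2 : (Y ∪ I) \ I = Y := by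
    rw [union_sdiff_right]
    exact hYI.sdiff_eq_left
  rw [h2] at h1
  have h3 := rk_union_le M hIf (X := Y)
  omega

/-- elements which are coloops over `R` do not change the ranks inside `R` -/
lemma skew_rk {α : Type*} {M : Matroid α} [M.Finite] {R I : Set α} (hI : I ⊆ M.E) (hR : R ⊆ M.E)
    (hd : Disjoint R I) (h : ∀ c ∈ I, c ∉ M.closure (R ∪ (I \ {c}))) {X : Set α} (hX : X ⊆ R) :
    rk (M ／ I) X = rk M X := by
  classical
  have hcol := fun Y (hY : Y ⊆ R) => skew_add hI hR hd h hY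
  have h1 := BQ.rk_con (M := M) (C := I) (X := X) hI
    fun x hx => ⟨hR (hX hx), fun h' => Set.disjoint_left.1 hd (hX hx) h'⟩
  have h2 := hcol X hX
  have h3 := hcol ∅ (empty_subset _)
  rw [empty_union] at h3
  have h4 : rk M ∅ = 0 := by
    have h5 := rk_le_ncard M (X := ∅) (by simp)
    simpa using h5
  omega

/-- The lift of dimension `u` is seen by the wall without `F` vertices (counting form). -/
def RobM {α : Type*} (M : Matroid α) (L : Bool × ℕ × ℕ → List α) (y u F : ℕ) : Prop :=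
  ∀ V : Finset (ℕ × ℕ), V.card ≤ F → ∀ (P : Set (Bool × ℕ × ℕ)) (φ : Bool × ℕ × ℕ → ℕ × ℕ),
    P ⊆ segAv y V → InjOn φ P → (∀ s ∈ P, φ s = segNear s ∨ φ s = segFar s) →
    P.ncard + (crr L (segAv y V)).ncard + u ≤
      rk M (crr L (segAv y V)) + (segAv y V).ncard

/-- **A clean side.** `M` itself carries on `R` a subdivided brick wall up to a lift of
dimension `u`; `e s` is the last element of the segment `s`. -/
structure Side {α : Type*} (M : Matroid α) (R : Set α) (L : Bool × ℕ × ℕ → List α)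
    (f : α → Sym2 ((ℕ × ℕ) ⊕ α)) (e : Bool × ℕ × ℕ → α) (y u : ℕ) : Prop where
  sw : SubWall R f L y
  lift : Lift M R f u
  last : ∀ s ∈ Seg y, (L s).getLast? = some (e s)

/-- a circuit containing `x` -/
lemma circ_of_cl {α : Type*} {M : Matroid α} {X : Set α} {x : α} (hx : x ∉ X)
    (h : x ∈ M.closure X) : ∃ C, M.IsCircuit C ∧ x ∈ C ∧ C ⊆ insert x X := by
  obtain ⟨C, h1, h2, h3⟩ := (Matroid.mem_closure_iff_exists_isCircuit hx).1 h
  exact ⟨C, h2, h3, h1⟩

/-- circuits are unions of segments -/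
theorem ser_circ {α : Type*} {M : Matroid α} {R : Set α}
    {L : Bool × ℕ × ℕ → List α} {e : Bool × ℕ × ℕ → α} {y : ℕ}
    (h1 : ∀ s ∈ Seg y, ∀ c ∈ L s, c ≠ e s → c ∉ M.closure (R \ {c, e s}))
    (h2 : ∀ s ∈ Seg y, ∀ c ∈ L s, c ≠ e s → e s ∉ M.closure (R \ {c, e s}))
    {C : Set α} (hC : M.IsCircuit C) (hCR : C ⊆ R) {s : Bool × ℕ × ℕ} (hs : s ∈ Seg y) {a b : α}
    (ha : a ∈ L s) (hb : b ∈ L s) (haC : a ∈ C) : b ∈ C := by
  by_contra hbC
  have hab : a ≠ b := fun h => hbC (h ▸ haC)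
  by_cases hes : e s ∈ C
  · have hbe : b ≠ e s := fun h => hbC (h ▸ hes)
    refine h2 s hs b hb hbe (M.closure_subset_closure ?_
      (hC.mem_closure_sdiff_singleton_of_mem hes))
    rintro x ⟨hx, hxe⟩
    refine ⟨hCR hx, ?_⟩
    rintro (h | h)
    · exact hbC (h ▸ hx)
    · exact hxe h
  · have hae : a ≠ e s := fun h => hes (h ▸ haC)
    refine h1 s hs a ha hae (M.closure_subset_closure ?_
      (hC.mem_closure_sdiff_singleton_of_mem haC))
    rintro x ⟨hx, hxa⟩
    refine ⟨hCR hx, ?_⟩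
    rintro (h | h)
    · exact hxa h
    · exact hes (h ▸ hx)

/-- the series extension along lists -/
theorem exists_ser {α : Type*} (N₀ : Matroid α) [N₀.Finite] {S : Set (Bool × ℕ × ℕ)}
    (hS : S.Finite) {L : Bool × ℕ × ℕ → List α} {e : Bool × ℕ × ℕ → α}
    (hdisj : ∀ s ∈ S, ∀ s' ∈ S, s ≠ s' → (L s).Disjoint (L s'))
    (he : ∀ s ∈ S, e s ∈ L s) (hE : N₀.E = e '' S) :
    ∃ N : Matroid α, N.Finite ∧ crr L S ⊆ N.E ∧ ∀ X ⊆ crr L S,
      rk N X + (fullS L S X).ncard = X.ncard + rk N₀ (e '' fullS L S X) := by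
  classical
  have huniq : ∀ s ∈ S, ∀ s' ∈ S, ∀ x, x ∈ L s → x ∈ L s' → s = s' := by
    intro s hs s' hs' x hx hx'
    by_contra hne
    exact hdisj s hs s' hs' hne hx hx'
  have heinj : InjOn e S := by
    intro s hs s' hs' hss
    refine huniq s hs s' hs' (e s) (he s hs) ?_
    rw [hss]
    exact he s' hs'
  have hR : (crr L S).Finite := by
    refine (hS.biUnion fun s _ => (L s).finite_toSet).subset ?_
    rintro x ⟨s, hs, hx⟩
    exact mem_iUnion₂.2 ⟨s, hs, hx⟩
  set π : α → α := fun a => if h : ∃ s ∈ S, a ∈ L s then e h.choose else a with hπ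
  have hπe : ∀ s ∈ S, ∀ a ∈ L s, π a = e s := by
    intro s hs a ha
    have hex : ∃ s ∈ S, a ∈ L s := ⟨s, hs, ha⟩
    simp only [hπ, dif_pos hex]
    rw [huniq _ hex.choose_spec.1 s hs a hex.choose_spec.2 ha]
  obtain ⟨N, hNf, hNE, hr⟩ := series_ext N₀ hR (π := π) (by
    rintro a ⟨s, hs, ha⟩
    rw [hπe s hs a ha, hE]
    exact ⟨s, hs, rfl⟩) (by
    rw [hE]
    rintro _ ⟨s, hs, rfl⟩
    exact ⟨e s, ⟨s, hs, he s hs⟩, hπe s hs _ (he s hs)⟩)
  refine ⟨N, hNf, hNE.symm.subset, fun X hX => ?_⟩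
  have h1 := hr X hX
  have h2 : {x | x ∈ N₀.E ∧ ∀ a ∈ crr L S, π a = x → a ∈ X} = e '' fullS L S X := by
    ext x
    rw [hE]
    constructor
    · rintro ⟨⟨s, hs, rfl⟩, hx⟩
      exact ⟨s, ⟨hs, fun a ha => hx a ⟨s, hs, ha⟩ (hπe s hs a ha)⟩, rfl⟩
    · rintro ⟨s, hs, rfl⟩
      refine ⟨⟨s, hs.1, rfl⟩, ?_⟩
      rintro a ⟨s', hs', ha⟩ hax
      rw [hπe s' hs' a ha] at hax
      have := heinj hs' hs.1 hax
      subst this
      exact hs.2 a ha
  rw [h2, (heinj.mono fun s hs => hs.1).ncard_image] at h1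
  exact h1

lemma seg_finite (y : ℕ) : (Seg y).Finite := by
  refine Set.Finite.subset (((Set.finite_Iic y).prod (Set.finite_Iic y)).image
    (fun p : ℕ × ℕ => (true, p)) |>.union (((Set.finite_Iic y).prod (Set.finite_Iic y)).image
    (fun p : ℕ × ℕ => (false, p)))) ?_
  rintro ⟨b, i, j⟩ hs
  have h := hs
  rcases h with ⟨h1, h2, h3⟩ | ⟨h1, h2, h3, _⟩ <;> simp only at h1 h2 h3 <;> subst h1
  · exact Or.inl ⟨(i, j), ⟨by simpa using h2.le, by simpa using h3⟩, rfl⟩
  · exact Or.inr ⟨(i, j), ⟨by simpa using h2, by simpa using h3.le⟩, rfl⟩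

/-- **From the clean wall to a clean side.** -/
theorem CWall.side {α : Type u} {M : Matroid α} [M.Finite] {C B : Set α}
    {e : Bool × ℕ × ℕ → α} {ends : α → Sym2 (ℕ × ℕ)} {y : ℕ} (hW : CWall M C B e ends y) :
    ∃ (K : Set α) (L : Bool × ℕ × ℕ → List α) (f : α → Sym2 ((ℕ × ℕ) ⊕ α)), K ⊆ C \ B ∧
      Side M (e '' Seg y ∪ K) L f e y B.ncard ∧
      (∀ F : ℕ, RobW M C B e y F → RobM M L y B.ncard F) ∧
      (∀ Z ⊆ C \ (B ∪ K), ∀ X ⊆ e '' Seg y ∪ K, rk (M ／ Z) X = rk M X) := by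
  classical
  set K : Set α := {c | c ∈ C \ B ∧ Vis M C B (e '' Seg y) c} with hK
  have hKs : K ⊆ C \ B := fun c hc => hc.1
  obtain ⟨L, f, hsw, -, hlast, hloc⟩ := t3 M C B K e ends y hW hKs fun c hc => hc.2
  set R : Set α := e '' Seg y ∪ K with hR
  set I : Set α := C \ (B ∪ K) with hI
  have hCE : C ⊆ M.E := hW.ind.subset_ground
  have hIE : I ⊆ M.E := sdiff_subset.trans hCE
  have hRE : R ⊆ M.E := union_subset (hW.sub.trans sdiff_subset)
    (hKs.trans (sdiff_subset.trans hCE))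
  have hCf : C.Finite := M.ground_finite.subset hCE
  have hd : Disjoint R I := by
    rw [Set.disjoint_left]
    rintro x (hx | hx) hxI
    · exact (hW.sub hx).2 hxI.1
    · exact hxI.2 (Or.inr hx)
  have hinv : ∀ c ∈ I, c ∉ M.closure (R ∪ (I \ {c})) := by
    intro c hc hcl
    have hnv : ¬ Vis M C B (e '' Seg y) c := by
      intro hv
      exact hc.2 (Or.inr ⟨⟨hc.1, fun h => hc.2 (Or.inl h)⟩, hv⟩)
    refine hnv (M.closure_subset_closure ?_ hcl)
    rintro x ((hx | hx) | ⟨hx, hxc⟩)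
    · exact Or.inl hx
    · refine Or.inr ⟨(hKs hx).1, ?_⟩
      rintro (rfl | h)
      · exact hc.2 (Or.inr hx)
      · exact (hKs hx).2 h
    · refine Or.inr ⟨hx.1, ?_⟩
      rintro (h | h)
      · exact hxc h
      · exact hx.2 (Or.inl h)
  have hfin := BQ.fin_contract (M := M) I
  have heL : ∀ s ∈ Seg y, e s ∈ L s := fun s hs => List.mem_of_getLast? (hlast s hs)
  have hLR : ∀ s ∈ Seg y, ∀ x ∈ L s, x ∈ R := fun s hs x hx => (hsw.mem x).2 ⟨s, hs, hx⟩
  -- the star rule
  have k1 : ∀ s ∈ Seg y, ∀ c ∈ L s, c ≠ e s → c ∉ M.closure (R \ {c, e s}) := by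
    intro s hs c hc hce hcl
    refine (hloc s hs c hc hce).2 (M.closure_subset_closure ?_ hcl)
    rintro x ⟨hx | hx, hxc⟩
    · obtain ⟨s', hs', rfl⟩ := hx
      refine Or.inl ⟨s', ⟨hs', fun h => hxc (Or.inr ?_)⟩, rfl⟩
      rw [mem_singleton_iff.1 h]
      rfl
    · refine Or.inr ⟨(hKs hx).1, ?_⟩
      rintro (h | h)
      · exact hxc (Or.inl h)
      · exact (hKs hx).2 h
  have k0 : ∀ c ∈ K, c ∈ M.closure (R \ {c}) := by
    intro c hc
    have h1 : c ∈ M.closure ((R \ {c}) ∪ I) := by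
      refine M.closure_subset_closure ?_ hc.2
      rintro x (hx | ⟨hx, hx'⟩)
      · refine Or.inl ⟨Or.inl hx, fun h => (hW.sub hx).2 ?_⟩
        rw [mem_singleton_iff.1 h]
        exact hc.1.1
      · by_cases hxK : x ∈ K
        · exact Or.inl ⟨Or.inr hxK, fun h => hx' (Or.inl h)⟩
        · exact Or.inr ⟨hx, fun h => h.elim (fun h => hx' (Or.inr h)) hxK⟩
    by_contra h2
    have h3 : rk M (R \ {c}) + 1 ≤ rk M R := by
      have h4 := rk_insert_ge (hCE hc.1.1) h2
      rwa [insert_sdiff_singleton, insert_eq_of_mem (show c ∈ R from Or.inr hc)] at h4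
    have h4 := skew_add hIE hRE hd hinv (Subset.refl R)
    have h5 := skew_add hIE hRE hd hinv (sdiff_subset : R \ {c} ⊆ R)
    have h6 : rk M (R ∪ I) ≤ rk M ((R \ {c}) ∪ I) := by
      have h7 : M.closure (insert c ((R \ {c}) ∪ I)) = M.closure ((R \ {c}) ∪ I) :=
        Matroid.closure_insert_eq_of_mem_closure h1
      have h8 : insert c ((R \ {c}) ∪ I) = R ∪ I := by
        rw [← insert_union, insert_sdiff_singleton,
          insert_eq_of_mem (show c ∈ R from Or.inr hc)]
      rw [h8] at h7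
      rw [← rk_closure (R ∪ I), h7, rk_closure]
    omega
  have k2 : ∀ s ∈ Seg y, ∀ c ∈ L s, c ≠ e s → e s ∉ M.closure (R \ {c, e s}) := by
    intro s hs c hc hce hcl
    have hcK := (hloc s hs c hc hce).1
    refine k1 s hs c hc hce ?_
    have h1 := k0 c hcK
    have h2 : R \ {c} ⊆ insert (e s) (R \ {c, e s}) := by
      rintro x ⟨hx, hxc⟩
      by_cases hxe : x = e s
      · exact Or.inl hxe
      · exact Or.inr ⟨hx, fun h => h.elim (fun h => hxc h) hxe⟩
    have h3 := M.closure_subset_closure h2 h1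
    rwa [Matroid.closure_insert_eq_of_mem_closure hcl] at h3
  have hcrr0 : crr L (Seg y) = R := by
    ext x
    exact (hsw.mem x).symm
  -- the rank formula
  have hform : ∀ X ⊆ R, rk M X + (fullS L (Seg y) X).ncard =
      X.ncard + rk (M ／ (C \ B)) (e '' fullS L (Seg y) X) := by
    intro X hX
    set S := fullS L (Seg y) X with hS
    have hSs : S ⊆ Seg y := fun s hs => hs.1
    have hXf : X.Finite := M.ground_finite.subset (hX.trans hRE)
    have hcX : crr L S ⊆ X := by
      rintro x ⟨s, hs, hx⟩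
      exact hs.2 x hx
    have hcf := hXf.subset hcX
    -- elements of incomplete segments are coloops
    have h1 := ess_coloops (M := M) (W := X) (hXf.subset (sdiff_subset : X \ crr L S ⊆ X)).toFinset
      (by
        intro a ha
        rw [Set.Finite.mem_toFinset] at ha
        have h2 : a ∉ M.closure (X \ {a}) := by
          intro hcl
          obtain ⟨Ck, hCk, haC, hCkX⟩ := circ_of_cl (fun h => h.2 rfl) hcl
          have hCX : Ck ⊆ X := hCkX.trans (insert_subset ha.1 sdiff_subset)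
          obtain ⟨s, hs, has⟩ := (hsw.mem a).1 (hX ha.1)
          refine ha.2 ⟨s, ⟨hs, fun b hb => hCX ?_⟩, has⟩
          exact ser_circ k1 k2 hCk (hCX.trans hX) hs has hb haC
        have h3 := rk_insert_ge (hRE (hX ha.1)) h2
        rwa [insert_sdiff_singleton, insert_eq_of_mem ha.1] at h3)
    rw [← Set.ncard_eq_toFinset_card _ (hXf.subset sdiff_subset), Set.Finite.coe_toFinset,
      sdiff_sdiff_cancel_left hcX] at h1
    have h2 : rk M X ≤ rk M (crr L S) + (X \ crr L S).ncard := by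
      have h3 := rk_union_le M (hXf.subset (sdiff_subset : X \ crr L S ⊆ X)) (X := crr L S)
      rwa [union_sdiff_cancel hcX] at h3
    have h3 := Set.ncard_sdiff_add_ncard_of_subset hcX hXf
    -- complete segments
    have heS : e '' S ⊆ M.E \ C := (image_mono hSs).trans hW.sub
    have heS' : e '' S ⊆ crr L S := by
      rintro _ ⟨s, hs, rfl⟩
      exact ⟨s, hs, heL s (hSs hs)⟩
    set KS : Set α := crr L S \ e '' S with hKS
    have hKSK : KS ⊆ C \ B := by
      rintro x ⟨⟨s, hs, hx⟩, hxe⟩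
      by_cases hxs : x = e s
      · exact absurd ⟨s, hs, hxs.symm⟩ hxe
      · exact hKs (hloc s (hSs hs) x hx hxs).1
    have h4 := Set.ncard_sdiff_add_ncard_of_subset heS' hcf
    rw [(hW.inj.mono hSs).ncard_image, ← hKS] at h4
    have h5 := ess_rk hW.ind heS (Z := B) hW.BC
    have h6 := ess_coloops (M := M) (W := e '' S ∪ (C \ B))
      ((hCf.subset sdiff_subset).subset (sdiff_subset : (C \ B) \ KS ⊆ C \ B)).toFinset (by
        intro c hc
        rw [Set.Finite.mem_toFinset] at hc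
        have h7 : ¬ Vis M C B (e '' S) c := by
          intro hv
          by_cases hcK : c ∈ K
          · obtain ⟨s, hs, hcs⟩ := (hsw.mem c).1 (Or.inr hcK)
            have hce : c ≠ e s := fun h => (hW.sub ⟨s, hs, rfl⟩).2 (h ▸ hc.1.1)
            refine (hloc s hs c hcs hce).2 (M.closure_subset_closure ?_ hv)
            refine union_subset_union_left _ ?_
            rintro _ ⟨s', hs', rfl⟩
            refine ⟨s', ⟨hSs hs', fun h => hc.2 ?_⟩, rfl⟩
            rw [mem_singleton_iff] at h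
            subst h
            refine ⟨⟨s', hs', hcs⟩, ?_⟩
            rintro ⟨s'', hs'', h8⟩
            exact (hW.sub ⟨s'', hSs hs'', rfl⟩).2 (h8 ▸ hc.1.1)
          · exact hcK ⟨hc.1, M.closure_subset_closure
              (union_subset_union_left _ (image_mono hSs)) hv⟩
        have h8 : c ∉ M.closure ((e '' S ∪ (C \ B)) \ {c}) := by
          intro hcl
          refine h7 (M.closure_subset_closure ?_ hcl)
          rintro x ⟨hx | hx, hxc⟩
          · exact Or.inl hx
          · refine Or.inr ⟨hx.1, ?_⟩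
            rintro (h | h)
            · exact hxc h
            · exact hx.2 h
        have h9 := rk_insert_ge (hCE hc.1.1) h8
        rwa [insert_sdiff_singleton, insert_eq_of_mem (show c ∈ e '' S ∪ (C \ B) from
          Or.inr hc.1)] at h9)
    rw [← Set.ncard_eq_toFinset_card _ ((hCf.subset sdiff_subset).subset sdiff_subset),
      Set.Finite.coe_toFinset] at h6
    have h7 : (e '' S ∪ (C \ B)) \ ((C \ B) \ KS) = crr L S := by
      ext x
      constructor
      · rintro ⟨hx | hx, hx'⟩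
        · exact heS' hx
        · by_contra h
          exact hx' ⟨hx, fun h8 => h h8.1⟩
      · intro hx
        by_cases hxe : x ∈ e '' S
        · exact ⟨Or.inl hxe, fun h => (heS hxe).2 h.1.1⟩
        · exact ⟨Or.inr (hKSK ⟨hx, hxe⟩), fun h => h.2 ⟨hx, hxe⟩⟩
    rw [h7] at h6
    have h8 : rk M (e '' S ∪ (C \ B)) ≤ rk M (crr L S) + ((C \ B) \ KS).ncard := by
      refine le_trans (rk_mono M ?_) (rk_union_le M
        ((hCf.subset (sdiff_subset : C \ B ⊆ C)).subset (sdiff_subset : (C \ B) \ KS ⊆ _)))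
      rintro x (hx | hx)
      · exact Or.inl (heS' hx)
      · by_cases hxK : x ∈ KS
        · exact Or.inl hxK.1
        · exact Or.inr ⟨hx, hxK⟩
    have h9 := Set.ncard_sdiff_add_ncard_of_subset hKSK (hCf.subset sdiff_subset)
    have h10 := Set.ncard_sdiff_add_ncard_of_subset hW.BC hCf
    omega
  -- the quotient
  have hN0f : (M ／ C).Finite := BQ.fin_contract C
  have hfin0 : ((M ／ C) ↾ (e '' Seg y)).Finite := ⟨by
    rw [Matroid.restrict_ground_eq]
    exact (seg_finite y).image _⟩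
  obtain ⟨N, hNf, hNE, hNr⟩ := exists_ser ((M ／ C) ↾ (e '' Seg y)) (seg_finite y) (L := L) (e := e)
    hsw.disj heL (Matroid.restrict_ground_eq)
  have hr0 : ∀ X ⊆ e '' Seg y, rk ((M ／ C) ↾ (e '' Seg y)) X = rk (M ／ C) X := by
    intro X hX
    unfold BIC.rk
    rw [Matroid.restrict_eRk_eq _ hX]
  have hB0 : Bic ((M ／ C) ↾ (e '' Seg y)) (e '' Seg y) ends :=
    Bic_of_rk hW.bic (by rw [Matroid.restrict_ground_eq]) hr0
  have hBN : Bic N (crr L (Seg y)) f := bic_ser hsw.nodup hsw.disj hsw.end_eq hlast hW.end_eq hB0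
    hNE hNr
  rw [hcrr0] at hBN hNr
  have hCBE : C \ B ⊆ M.E := sdiff_subset.trans hCE
  have hquo : Quo (M ／ (C \ B)) (M ／ C) (e '' Seg y) := WPP.quo_mono sdiff_subset hCE hW.sub
  have hlift : Lift M R f B.ncard := by
    refine ⟨hRE, N, hNf, hBN, fun X Y hXY hY => ?_, fun X hX => ?_⟩
    · have hX := hXY.trans hY
      have hSXY : fullS L (Seg y) X ⊆ fullS L (Seg y) Y := fun s hs =>
        ⟨hs.1, fun a ha => hXY (hs.2 a ha)⟩
      have hSY : e '' fullS L (Seg y) Y ⊆ e '' Seg y := image_mono fun s hs => hs.1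
      have g1 := hform X hX
      have g2 := hform Y hY
      have g3 := hNr X hX
      have g4 := hNr Y hY
      have g5 := hquo (e '' fullS L (Seg y) X) (e '' fullS L (Seg y) Y) (image_mono hSXY) hSY
      rw [hr0 _ ((image_mono hSXY).trans hSY)] at g3
      rw [hr0 _ hSY] at g4
      omega
    · have hSX : e '' fullS L (Seg y) X ⊆ e '' Seg y := image_mono fun s hs => hs.1
      have g1 := hform X hX
      have g3 := hNr X hX
      rw [hr0 _ hSX] at g3
      have g4 : rk (M ／ (C \ B)) (e '' fullS L (Seg y) X) ≤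
          rk (M ／ C) (e '' fullS L (Seg y) X) + B.ncard :=
        rk_le_add hW.ind hW.BC (hSX.trans hW.sub)
      omega
  refine ⟨K, L, f, hKs, ⟨hsw, hlift, hlast⟩, ?_, ?_⟩
  swap
  · intro Z hZ X hX
    exact skew_rk (hZ.trans hIE) hRE (hd.mono_right hZ) (fun c hc hcl => hinv c (hZ hc)
      (M.closure_subset_closure (union_subset_union_right _ (sdiff_subset_sdiff_left hZ)) hcl)) hX
  · intro F hrob V hV P φ hP hφ hφe
    set S := segAv y V with hS
    have hSs : S ⊆ Seg y := fun s hs => hs.1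
    have hSf : S.Finite := (seg_finite y).subset hSs
    have h1 := hrob V hV
    rw [← hS] at h1
    have heS : e '' S ⊆ M.E \ C := (image_mono hSs).trans hW.sub
    -- the orientation
    have hPS : P ⊆ Seg y := hP.trans hSs
    have hPi : InjOn e P := hW.inj.mono hPS
    have hC0 := BQ.fin_contract (M := M) C
    have h2 : P.ncard ≤ rk (M ／ C) (e '' S) := by
      have hin : ∀ x ∈ e '' P, ∃ s ∈ P, e s = x := fun x hx => hx
      choose! g hg1 hg2 using hin
      have hI2 : (M ／ C).Indep (e '' P) := by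
        refine hW.bic.ind (e '' P) (fun x => φ (g x)) (image_mono hPS) ?_ ?_
        · intro a ha b hb hab
          have := hφ (hg1 a ha) (hg1 b hb) hab
          rw [← hg2 a ha, ← hg2 b hb, this]
        · intro a ha
          have h3 := hφe _ (hg1 a ha)
          rw [← hg2 a ha, hW.end_eq _ (hPS (hg1 a ha)), hg2 a ha]
          rcases h3 with h3 | h3 <;> rw [h3]
          · exact Sym2.mem_mk_left _ _
          · exact Sym2.mem_mk_right _ _
      calc P.ncard = (e '' P).ncard := (hPi.ncard_image).symm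
        _ = rk (M ／ C) (e '' P) := (rk_indep hI2).symm
        _ ≤ _ := rk_mono _ (image_mono hP)
    -- the conflicts on `S`
    have hcrr : crr L S ⊆ R := by
      rintro x ⟨s, hs, hx⟩
      exact (hsw.mem x).2 ⟨s, hSs hs, hx⟩
    have heL : ∀ s ∈ Seg y, e s ∈ L s := fun s hs => List.mem_of_getLast? (hlast s hs)
    have heS' : e '' S ⊆ crr L S := by
      rintro _ ⟨s, hs, rfl⟩
      exact ⟨s, hs, heL s (hSs hs)⟩
    have hRf : (crr L S).Finite := M.ground_finite.subset (hcrr.trans hRE)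
    set KS : Set α := crr L S \ e '' S with hKS
    have hKSK : KS ⊆ C \ B := by
      rintro x ⟨⟨s, hs, hx⟩, hxe⟩
      by_cases hxs : x = e s
      · exact absurd ⟨s, hs, hxs.symm⟩ hxe
      · exact hKs (hloc s (hSs hs) x hx hxs).1
    have h3 : KS.ncard + S.ncard = (crr L S).ncard := by
      have h4 := Set.ncard_sdiff_add_ncard_of_subset heS' hRf
      rw [(hW.inj.mono hSs).ncard_image] at h4
      exact h4
    have h4 := ess_rk hW.ind heS (Z := B) hW.BC
    have h5 : rk M (e '' S ∪ (C \ B)) ≤ rk M (crr L S) + ((C \ B) \ KS).ncard := by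
      refine le_trans (rk_mono M ?_) (rk_union_le M (hCf.subset (sdiff_subset.trans sdiff_subset)))
      rintro x (hx | hx)
      · exact Or.inl (heS' hx)
      · by_cases hxK : x ∈ KS
        · exact Or.inl hxK.1
        · exact Or.inr ⟨hx, hxK⟩
    have h6 := Set.ncard_sdiff_add_ncard_of_subset hKSK (hCf.subset sdiff_subset)
    have h7 := Set.ncard_sdiff_add_ncard_of_subset hW.BC hCf
    omega

/-- **One clean side**, nothing contracted or deleted; the side of the wall is linear in the side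
of the grid. -/
theorem cleanSide (k F : ℕ) : ∃ κ A : ℕ, ∀ y : ℕ, ∀ N ≥ A * (y + 1), ∀ {α : Type u}
    (M : Matroid α) [M.Finite] (C T : Set α) (ends : α → Sym2 (ℕ × ℕ)), M.Indep C →
    T ⊆ M.E \ C → Bic (M ／ C) T ends → Grd T ends 0 0 (2 * N) (2 * N) →
    HasUniformMinor M k ∨ ∃ (y' u : ℕ) (R : Set α) (L : Bool × ℕ × ℕ → List α)
      (f : α → Sym2 ((ℕ × ℕ) ⊕ α)) (e : Bool × ℕ × ℕ → α), y ≤ y' ∧ y' < 2 * N ∧ u ≤ κ ∧
      R ⊆ T ∪ C ∧ Side M R L f e y' u ∧ (∀ s ∈ Seg y', e s ∈ T) ∧ RobM M L y' u F ∧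
      ∃ B ⊆ C, B.ncard ≤ κ ∧ ∀ Z ⊆ C \ (B ∪ R), ∀ X ⊆ R, rk (M ／ Z) X = rk M X := by
  obtain ⟨κ, lm, A, hA⟩ := cwStar.{u} k
  obtain ⟨A₁, hA₁, hT⟩ := t4c.{u} κ F
  refine ⟨κ, 2 * A * A₁ + A₁, fun y N hN {α} M _ C T ends hC hT' hB hG => ?_⟩
  have hAy : A * (A₁ * (y + 1) + 1) ≤ N := by
    have h1 : A * (A₁ * (y + 1) + 1) ≤ (2 * A * A₁ + A₁) * (y + 1) := by
      have h2 : A * 1 ≤ A * (A₁ * (y + 1)) :=
        Nat.mul_le_mul_left _ (Nat.one_le_iff_ne_zero.2 (by positivity))
      nlinarith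
    exact h1.trans hN
  rcases hA (A₁ * (y + 1)) N hAy M C T ends hC hT' hB hG with h | ⟨B, hBC, hBκ, Z, l, hl, -, hZ1,
    hZ2, hcw⟩
  · exact Or.inl h
  right
  obtain ⟨A', e, ends', hAT, heT, hW⟩ := t2' M C T B ends N Z l (A₁ * (y + 1)) hC hT' hB hG hBC hl
    hZ1 hZ2 hcw
  obtain ⟨B', hB', y', i, j, hyy, hij, hi, hj, ⟨ends'', hW'⟩, hrob⟩ :=
    hT y M (C ∪ A') B e ends' (A₁ * (y + 1)) le_rfl hW hBκ
  obtain ⟨K, L, f, hK, hside, hrobm, hskew⟩ := hW'.side
  have hBf : B.Finite := (M.ground_finite.subset hC.subset_ground).subset hBC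
  have hshT : ∀ s ∈ Seg y', e (shS i j s) ∈ T := fun s hs =>
    (heT _ (shS_mem hij hi hj hs)).1
  have hlY : A₁ * (y + 1) ≤ l * (A₁ * (y + 1)) := Nat.le_mul_of_pos_left _ (by omega)
  refine ⟨y', B'.ncard, _, L, f, fun s => e (shS i j s), hyy, by omega,
    (Set.ncard_le_ncard hB' hBf).trans hBκ, ?_, hside, hshT, hrobm F hrob, B', hB'.trans hBC,
    (Set.ncard_le_ncard hB' hBf).trans hBκ, fun Z hZ X hX => hskew Z ?_ X hX⟩
  · rintro x (⟨s, hs, rfl⟩ | hx)
    · exact Or.inl (hshT s hs)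
    · rcases (hK hx).1 with h | h
      · exact Or.inr h
      · exact Or.inl (hAT h)
  · intro x hx
    refine ⟨Or.inl (hZ hx).1, ?_⟩
    rintro (h | h)
    · exact (hZ hx).2 (Or.inl h)
    · exact (hZ hx).2 (Or.inr (Or.inr h))

end CWL
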