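import Pool.Agent.CW.TDefs
import Pool.Agent.CW.Group

/-!
# Theorem CW, two sides: rows T4a, T4b (sub-walls of clean walls, robust sub-walls; helper43)
-/

open Set BIC BICS
open scoped Matroid

namespace CWL

universe u

lemma shS_inj (i j : ℕ) : Function.Injective (shS i j) := by
  rintro ⟨b, x, y⟩ ⟨b', x', y'⟩ h
  simp only [shS, Prod.mk.injEq] at h ⊢
  exact ⟨h.1, by omega, by omega⟩

lemma shS_add (i j a b : ℕ) (s : Bool × ℕ × ℕ) : shS i j (shS a b s) = shS (i + a) (j + b) s := by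
  obtain ⟨c, x, y⟩ := s
  simp only [shS, Prod.mk.injEq, true_and]
  omega

lemma shS_mem {y y' i j : ℕ} (hij : (i + j) % 2 = 0) (hi : i + y' ≤ y) (hj : j + y' ≤ y)
    {s : Bool × ℕ × ℕ} (hs : s ∈ Seg y') : shS i j s ∈ Seg y := by
  obtain ⟨b, x, z⟩ := s
  simp only [Seg, shS, mem_ofPred_eq] at hs ⊢
  rcases hs with ⟨h1, h2, h3⟩ | ⟨h1, h2, h3, h4⟩
  · exact Or.inl ⟨h1, by omega, by omega⟩
  · exact Or.inr ⟨h1, by omega, by omega, by omega⟩

lemma shS_sub {y y' i j : ℕ} (hij : (i + j) % 2 = 0) (hi : i + y' ≤ y) (hj : j + y' ≤ y) :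
    shS i j '' Seg y' ⊆ Seg y := by
  rintro _ ⟨s, hs, rfl⟩
  exact shS_mem hij hi hj hs

lemma segNear_shS (i j : ℕ) (s : Bool × ℕ × ℕ) :
    segNear (shS i j s) = ((segNear s).1 + i, (segNear s).2 + j) := rfl

lemma segFar_shS (i j : ℕ) (s : Bool × ℕ × ℕ) :
    segFar (shS i j s) = ((segFar s).1 + i, (segFar s).2 + j) := by
  obtain ⟨b, x, y⟩ := s
  cases b <;> simp [segFar, shS] <;> omega

/-- **Row T4a.** Sub-walls of clean walls are clean. -/
theorem t4a : T4aStmt.{u} := by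
  intro α M _ C B e ends y y' i j hW hij hi hj
  have hmem : ∀ s ∈ Seg y', shS i j s ∈ Seg y := fun s hs => shS_mem hij hi hj hs
  have hsub : (fun s => e (shS i j s)) '' Seg y' ⊆ e '' Seg y := by
    rintro _ ⟨s, hs, rfl⟩
    exact ⟨_, hmem s hs, rfl⟩
  let g : ℕ × ℕ → ℕ × ℕ := fun v => (v.1 - i, v.2 - j)
  let up : ℕ × ℕ → ℕ × ℕ := fun v => (v.1 + i, v.2 + j)
  have hup : Function.Injective up := by
    rintro ⟨a, b⟩ ⟨c, d⟩ h
    simp only [up, Prod.mk.injEq] at h ⊢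
    omega
  have hgu : ∀ v, g (up v) = v := by
    rintro ⟨a, b⟩
    simp only [g, up, Nat.add_sub_cancel]
  have hends : ∀ s ∈ Seg y', ends (e (shS i j s)) = s(up (segNear s), up (segFar s)) := by
    intro s hs
    rw [hW.end_eq _ (hmem s hs), segNear_shS, segFar_shS]
  have hends' : ∀ s ∈ Seg y', ((ends (e (shS i j s))).map g) = s(segNear s, segFar s) := by
    intro s hs
    rw [hends s hs, Sym2.map_mk]
    show s(g (up (segNear s)), g (up (segFar s))) = _
    rw [hgu, hgu]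
  have hmv : ∀ x ∈ (fun s => e (shS i j s)) '' Seg y', ∀ v, v ∈ (ends x).map g → up v ∈ ends x := by
    rintro _ ⟨s, hs, rfl⟩ v hv
    simp only at hv ⊢
    rw [hends' s hs] at hv
    rw [hends s hs]
    rcases Sym2.mem_iff.1 hv with rfl | rfl
    · exact Sym2.mem_mk_left _ _
    · exact Sym2.mem_mk_right _ _
  refine ⟨fun x => (ends x).map g, ?_⟩
  constructor
  · exact hW.ind
  · intro s hs t ht hst
    exact shS_inj i j (hW.inj (hmem s hs) (hmem t ht) hst)
  · exact hsub.trans hW.sub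
  · exact hends'
  · constructor
    · exact hsub.trans hW.bic.sub
    · intro F φ hF hφ hφe
      refine hW.bic.ind F (fun x => up (φ x)) (hF.trans hsub) ?_ ?_
      · intro x hx x' hx' h
        exact hφ hx hx' (hup h)
      · intro x hx
        exact hmv x (hF hx) _ (hφe x hx)
    · intro W
      have h1 : ins ((fun s => e (shS i j s)) '' Seg y') (fun x => (ends x).map g) W ⊆
          ins (e '' Seg y) ends (up '' W) := by
        rintro x ⟨hx, hx'⟩
        refine ⟨hsub hx, ?_⟩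
        obtain ⟨s, hs, rfl⟩ := hx
        intro v hv
        simp only at hv hx'
        rw [hends s hs] at hv
        rw [hends' s hs] at hx'
        rcases Sym2.mem_iff.1 hv with rfl | rfl
        · exact ⟨_, hx' _ (Sym2.mem_mk_left _ _), rfl⟩
        · exact ⟨_, hx' _ (Sym2.mem_mk_right _ _), rfl⟩
      refine ((M ／ C).eRk_mono h1).trans ((hW.bic.rk _).trans ?_)
      rw [hup.encard_image]
  · exact hW.BC
  · intro c hc
    have hmono : ∀ {X Y : Set α}, X ⊆ Y → ¬ Vis M C B Y c → ¬ Vis M C B X c :=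
      fun h hn hv => hn (Vis.mono h hv)
    rcases hW.loc c hc with h1 | ⟨s, hs, h1⟩
    · exact Or.inl (hmono hsub h1)
    · by_cases h2 : ∃ s' ∈ Seg y', shS i j s' = s
      · obtain ⟨s', hs', rfl⟩ := h2
        refine Or.inr ⟨s', hs', hmono ?_ h1⟩
        rintro _ ⟨t, ⟨ht, hts⟩, rfl⟩
        refine ⟨shS i j t, ⟨hmem t ht, fun h => hts (shS_inj i j h)⟩, rfl⟩
      · refine Or.inl (hmono ?_ h1)
        rintro _ ⟨t, ht, rfl⟩
        exact ⟨shS i j t, ⟨hmem t ht, fun h => h2 ⟨t, ht, h⟩⟩, rfl⟩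

/-- the scales -/
def sca (h : ℕ → ℕ) (b : ℕ) : ℕ → ℕ
  | 0 => b
  | t + 1 => max b (h (sca h b t))

lemma le_sca (h : ℕ → ℕ) (b t : ℕ) : b ≤ sca h b t := by
  cases t with
  | zero => exact le_rfl
  | succ t => exact le_max_left _ _

/-- the elements of a sub-wall -/
def sw {α : Type*} (e : Bool × ℕ × ℕ → α) (i j y : ℕ) : Set α := e '' (shS i j '' Seg y)

lemma sw_sub {α : Type*} (e : Bool × ℕ × ℕ → α) {i j a b y y' : ℕ} (hab : (a + b) % 2 = 0)
    (ha : a + y' ≤ y) (hb : b + y' ≤ y) : sw e (i + a) (j + b) y' ⊆ sw e i j y := by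
  apply image_mono
  rintro _ ⟨s, hs, rfl⟩
  exact ⟨shS a b s, shS_mem hab ha hb hs, shS_add i j a b s⟩

lemma sw_sub' {α : Type*} (e : Bool × ℕ × ℕ → α) {i j y y' : ℕ} (h : y' ≤ y) :
    sw e i j y' ⊆ sw e i j y := by
  have := sw_sub e (i := i) (j := j) (a := 0) (b := 0) (y := y) (y' := y') rfl (by omega)
    (by omega)
  simpa using this

/-- the induction over the scales, for a pair `L`, `N` of matroids with `N` a quotient of `L` -/
theorem robust_aux {α : Type*} (L N : Matroid α) [L.Finite] [N.Finite] (S : Set α) (hQ : Quo L N S)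
    (e : Bool × ℕ × ℕ → α) (Y : ℕ) (hS : ∀ i j y, (i + j) % 2 = 0 → i + y ≤ Y → j + y ≤ Y →
      sw e i j y ⊆ S) (h : ℕ → ℕ) (b : ℕ) : ∀ t : ℕ, ∀ i j : ℕ, (i + j) % 2 = 0 →
    i + h (sca h b t) ≤ Y → j + h (sca h b t) ≤ Y →
    rk L (sw e i j (h (sca h b t))) ≤ rk N (sw e i j (h (sca h b t))) + t →
    ∃ t' ≤ t, ∃ i' j' : ℕ, (i' + j') % 2 = 0 ∧ i' + h (sca h b t') ≤ Y ∧
      j' + h (sca h b t') ≤ Y ∧ ∃ u ≤ t,
      rk L (sw e i' j' (h (sca h b t'))) = rk N (sw e i' j' (h (sca h b t'))) + u ∧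
      ∀ a c : ℕ, (a + c) % 2 = 0 → a + sca h b t' ≤ h (sca h b t') →
        c + sca h b t' ≤ h (sca h b t') →
        rk L (sw e (i' + a) (j' + c) (sca h b t')) =
          rk N (sw e (i' + a) (j' + c) (sca h b t')) + u := by
  have hN0 : ∀ X ⊆ S, rk N X ≤ rk L X := by
    intro X hX
    have h1 := hQ ∅ X (empty_subset _) hX
    rw [CW.rk_emp, CW.rk_emp] at h1
    omega
  intro t
  induction t with
  | zero =>
    intro i j hij hi hj hd
    refine ⟨0, le_rfl, i, j, hij, hi, hj, 0, le_rfl, ?_, ?_⟩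
    · have := hN0 _ (hS i j _ hij hi hj)
      omega
    · intro a c hac ha hc
      have h1 := hQ _ _ (sw_sub e (i := i) (j := j) hac ha hc) (hS i j _ hij hi hj)
      have h2 := hN0 _ (hS (i + a) (j + c) (sca h b 0) (by omega) (by omega) (by omega))
      omega
  | succ t ih =>
    intro i j hij hi hj hd
    obtain ⟨u, hu⟩ : ∃ u, rk L (sw e i j (h (sca h b (t + 1)))) =
        rk N (sw e i j (h (sca h b (t + 1)))) + u :=
      Nat.exists_eq_add_of_le (hN0 _ (hS i j _ hij hi hj))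
    by_cases hall : ∀ a c : ℕ, (a + c) % 2 = 0 → a + sca h b (t + 1) ≤ h (sca h b (t + 1)) →
        c + sca h b (t + 1) ≤ h (sca h b (t + 1)) →
        rk L (sw e (i + a) (j + c) (sca h b (t + 1))) =
          rk N (sw e (i + a) (j + c) (sca h b (t + 1))) + u
    · exact ⟨t + 1, le_rfl, i, j, hij, hi, hj, u, by omega, hu, hall⟩
    · push Not at hall
      obtain ⟨a, c, hac, ha, hc, hne⟩ := hall
      have h1 := hQ _ _ (sw_sub e (i := i) (j := j) hac ha hc) (hS i j _ hij hi hj)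
      have hle : h (sca h b t) ≤ sca h b (t + 1) := le_max_right _ _
      have h2 := hQ _ _ (sw_sub' e (i := i + a) (j := j + c) hle)
        (hS (i + a) (j + c) _ (by omega) (by omega) (by omega))
      obtain ⟨t', ht', i', j', r1, r2, r3, u', hu', r4, r5⟩ := ih (i + a) (j + c) (by omega)
        (by omega) (by omega) (by omega)
      exact ⟨t', by omega, i', j', r1, r2, r3, u', by omega, r4, r5⟩

/-- **Row T4b**, with a lower bound `b` for the side of the small sub-walls. -/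
theorem t4b' (κ b : ℕ) (h : ℕ → ℕ) : ∃ y₁ Y : ℕ, ∀ {α : Type u} (M : Matroid α) [M.Finite]
    (C B : Set α) (e : Bool × ℕ × ℕ → α) (ends : α → Sym2 (ℕ × ℕ)), CWall M C B e ends Y →
    B.ncard ≤ κ →
    ∃ y₀ ≤ y₁, b ≤ y₀ ∧ ∃ i j : ℕ, (i + j) % 2 = 0 ∧ i + h y₀ ≤ Y ∧ j + h y₀ ≤ Y ∧ ∃ u ≤ κ,
      rk (M ／ (C \ B)) (e '' (shS i j '' Seg (h y₀))) =
        rk (M ／ C) (e '' (shS i j '' Seg (h y₀))) + u ∧
      ∀ a c : ℕ, (a + c) % 2 = 0 → a + y₀ ≤ h y₀ → c + y₀ ≤ h y₀ →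
        rk (M ／ (C \ B)) (e '' (shS (i + a) (j + c) '' Seg y₀)) =
          rk (M ／ C) (e '' (shS (i + a) (j + c) '' Seg y₀)) + u := by
  refine ⟨∑ t ∈ Finset.range (κ + 1), sca h b t, h (sca h b κ), ?_⟩
  intro α M _ C B e ends hW hB
  have hS : ∀ i j y, (i + j) % 2 = 0 → i + y ≤ h (sca h b κ) → j + y ≤ h (sca h b κ) →
      sw e i j y ⊆ e '' Seg (h (sca h b κ)) := by
    intro i j y hij hi hj
    exact image_mono (shS_sub hij hi hj)
  have hsub := hS 0 0 (h (sca h b κ)) rfl (by omega) (by omega)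
  have hf1 := BQ.fin_contract (M := M) C
  have hf2 := BQ.fin_contract (M := M) (C \ B)
  obtain ⟨t, ht, i, j, r1, r2, r3, u, r4, r5, r6⟩ := robust_aux (M ／ (C \ B)) (M ／ C)
    (e '' Seg (h (sca h b κ))) (quo_conf hW.ind hW.sub) e (h (sca h b κ)) hS h b κ 0 0 rfl
    (by omega) (by omega)
    ((rk_le_add hW.ind hW.BC (hsub.trans hW.sub)).trans (Nat.add_le_add_left hB _))
  refine ⟨sca h b t, ?_, le_sca h b t, i, j, r1, r2, r3, u, r4, r5, r6⟩
  exact Finset.single_le_sum (f := fun t => sca h b t) (fun _ _ => Nat.zero_le _)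
    (Finset.mem_range.2 (by omega))

/-- **Row T4b.** -/
theorem t4b : T4bStmt.{u} := by
  intro κ h
  obtain ⟨y₁, Y, H⟩ := t4b'.{u} κ 0 h
  refine ⟨y₁, Y, ?_⟩
  intro α M _ C B e ends hW hB
  obtain ⟨y₀, h1, -, h2⟩ := H M C B e ends hW hB
  exact ⟨y₀, h1, h2⟩

end CWL
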