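import Pool.Agent.CW.Main
import Pool.Agent.CW.Sim

/-!
# After Theorem CW: clean walls, subdivided walls (definitions and statements)
-/

open Set BIC BICS
open scoped Matroid

namespace CWL

universe u

/-- `Bic` up to a lift of dimension `u` -/
structure BicU {α V : Type*} (M : Matroid α) (S : Set α) (ends : α → Sym2 V) (u : ℕ) :
    Prop where
  sub : S ⊆ M.E
  ind : ∀ (F : Set α) (φ : α → V), F ⊆ S → InjOn φ F → (∀ e ∈ F, φ e ∈ ends e) → M.Indep F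
  rk : ∀ W : Set V, M.eRk (ins S ends W) ≤ W.encard + u

/-- the near end of a segment of the brick wall -/
def segNear (s : Bool × ℕ × ℕ) : ℕ × ℕ := (s.2.1, s.2.2)

/-- the far end of a segment of the brick wall -/
def segFar (s : Bool × ℕ × ℕ) : ℕ × ℕ :=
  if s.1 = true then (s.2.1 + 1, s.2.2) else (s.2.1, s.2.2 + 1)

/-- A clean wall: one element `e s` for each segment `s`; every `c ∈ C \ B` is invisible on the
wall or on the wall without one segment. -/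
structure CWall {α : Type*} (M : Matroid α) (C B : Set α) (e : Bool × ℕ × ℕ → α)
    (ends : α → Sym2 (ℕ × ℕ)) (y : ℕ) : Prop where
  ind : M.Indep C
  inj : InjOn e (Seg y)
  sub : e '' Seg y ⊆ M.E \ C
  end_eq : ∀ s ∈ Seg y, ends (e s) = s(segNear s, segFar s)
  bic : Bic (M ／ C) (e '' Seg y) ends
  BC : B ⊆ C
  loc : ∀ c ∈ C \ B, ¬ Vis M C B (e '' Seg y) c ∨
    ∃ s ∈ Seg y, ¬ Vis M C B (e '' (Seg y \ {s})) c

/-- ROW T2. Contract all elements of every segment but one. -/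
def T2Stmt : Prop :=
  ∀ {α : Type u} (M : Matroid α) [M.Finite] (C T B : Set α) (ends : α → Sym2 (ℕ × ℕ))
    (N : ℕ) (Z : ℕ × ℕ) (l y : ℕ), M.Indep C → T ⊆ M.E \ C → Bic (M ／ C) T ends →
    Grd T ends 0 0 (2 * N) (2 * N) → B ⊆ C → 1 ≤ l → Z.1 + l * y < 2 * N →
    Z.2 + l * y < 2 * N → Cw M C T B ends Z l y →
    ∃ (A : Set α) (e : Bool × ℕ × ℕ → α) (ends' : α → Sym2 (ℕ × ℕ)), A ⊆ T ∧
      (∀ s ∈ Seg y, e s ∈ T \ A) ∧ CWall (M ／ A) C B e ends' y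

/-- node number `i` of the segment `s` with the list `L` of elements -/
def node {α : Type*} (s : Bool × ℕ × ℕ) (L : List α) (i : ℕ) : (ℕ × ℕ) ⊕ α :=
  if i = 0 then Sum.inl (segNear s) else
    if i = L.length then Sum.inl (segFar s) else
      match L[i - 1]? with
      | some c => Sum.inr c
      | none => Sum.inl (0, 0)

/-- `R` carries, by `ends`, the brick wall of side `y` in which the segment `s` is subdivided
into the elements of the list `L s`. -/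
structure SubWall {α : Type*} (R : Set α) (ends : α → Sym2 ((ℕ × ℕ) ⊕ α))
    (L : Bool × ℕ × ℕ → List α) (y : ℕ) : Prop where
  ne : ∀ s ∈ Seg y, L s ≠ []
  nodup : ∀ s ∈ Seg y, (L s).Nodup
  disj : ∀ s ∈ Seg y, ∀ s' ∈ Seg y, s ≠ s' → (L s).Disjoint (L s')
  mem : ∀ x, x ∈ R ↔ ∃ s ∈ Seg y, x ∈ L s
  end_eq : ∀ s ∈ Seg y, ∀ (i : ℕ) (h : i < (L s).length),
    ends ((L s)[i]) = s(node s (L s) i, node s (L s) (i + 1))

/-- ROW T3. The visible conflicts subdivide the wall. -/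
def T3Stmt : Prop :=
  ∀ {α : Type u} (M : Matroid α) [M.Finite] (C B K : Set α) (e : Bool × ℕ × ℕ → α)
    (ends : α → Sym2 (ℕ × ℕ)) (y : ℕ), CWall M C B e ends y → K ⊆ C \ B →
    (∀ c ∈ K, Vis M C B (e '' Seg y) c) →
    ∃ (L : Bool × ℕ × ℕ → List α) (ends' : α → Sym2 ((ℕ × ℕ) ⊕ α)),
      SubWall (e '' Seg y ∪ K) ends' L y ∧
      BicU (M ／ (C \ (B ∪ K))) (e '' Seg y ∪ K) ends' B.ncard ∧
      (∀ s ∈ Seg y, (L s).getLast? = some (e s)) ∧
      ∀ s ∈ Seg y, ∀ c ∈ L s, c ≠ e s → c ∈ K ∧ ¬ Vis M C B (e '' (Seg y \ {s})) c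

/-- shift of a segment -/
def shS (i j : ℕ) (s : Bool × ℕ × ℕ) : Bool × ℕ × ℕ := (s.1, s.2.1 + i, s.2.2 + j)

/-- ROW T4a. Sub-walls of clean walls are clean. -/
def T4aStmt : Prop :=
  ∀ {α : Type u} (M : Matroid α) [M.Finite] (C B : Set α) (e : Bool × ℕ × ℕ → α)
    (ends : α → Sym2 (ℕ × ℕ)) (y y' i j : ℕ), CWall M C B e ends y → (i + j) % 2 = 0 →
    i + y' ≤ y → j + y' ≤ y →
    ∃ ends' : α → Sym2 (ℕ × ℕ), CWall M C B (fun s => e (shS i j s)) ends' y'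

/-- ROW T4b. Robust sub-walls. -/
def T4bStmt : Prop :=
  ∀ (κ : ℕ) (h : ℕ → ℕ), ∃ y₁ Y : ℕ, ∀ {α : Type u} (M : Matroid α) [M.Finite] (C B : Set α)
    (e : Bool × ℕ × ℕ → α) (ends : α → Sym2 (ℕ × ℕ)), CWall M C B e ends Y → B.ncard ≤ κ →
    ∃ y₀ ≤ y₁, ∃ i j : ℕ, (i + j) % 2 = 0 ∧ i + h y₀ ≤ Y ∧ j + h y₀ ≤ Y ∧ ∃ u ≤ κ,
      rk (M ／ (C \ B)) (e '' (shS i j '' Seg (h y₀))) =
        rk (M ／ C) (e '' (shS i j '' Seg (h y₀))) + u ∧
      ∀ a b : ℕ, (a + b) % 2 = 0 → a + y₀ ≤ h y₀ → b + y₀ ≤ h y₀ →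
        rk (M ／ (C \ B)) (e '' (shS (i + a) (j + b) '' Seg y₀)) =
          rk (M ／ C) (e '' (shS (i + a) (j + b) '' Seg y₀)) + u

end CWL
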