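import Pool.Agent.GL.RamseyP
import Pool.Agent.CW.Part

/-!
# Homogeneous tiles (row A3 of T*, helper43): the Ramsey step
-/

open Set BIC BICS RamP
open scoped Matroid

namespace CWL

section ramsey

variable {N n : ℕ} {y z : ℕ → ℕ} {g : ℕ → ℕ}

lemma mon_comp (h : Mon N y) (h1 : ∀ i < n, g i < N) (h2 : ∀ i j, i < j → j < n → g i < g j) :
    Mon n (fun i => y (g i)) := by
  rcases h with h | h
  · exact Or.inl fun r s hrs hs => h _ _ (h2 r s hrs hs) (h1 s hs)
  · exact Or.inr fun r s hrs hs => h _ _ (h2 r s hrs hs) (h1 s hs)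

lemma near_comp (h : Near N y z) (h1 : ∀ i < n, g i < N) (h2 : ∀ i j, i < j → j < n → g i < g j) :
    Near n (fun i => y (g i)) (fun i => z (g i)) := by
  rcases h with h | h
  · exact Or.inl fun r s hrs hs => h _ _ (h2 r s hrs hs) (h1 s hs)
  · exact Or.inr fun r s hrs hs => h _ _ (h2 r s hrs hs) (h1 s hs)

lemma sep_comp (h : Sep N y z) (h1 : ∀ i < n, g i < N) :
    Sep n (fun i => y (g i)) (fun i => z (g i)) := by
  rcases h with h | h
  · exact Or.inl fun r s hr hs => h _ _ (h1 r hr) (h1 s hs)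
  · exact Or.inr fun r s hr hs => h _ _ (h1 r hr) (h1 s hs)

lemma mon_of_code {B k : ℕ} {x : ℕ → ℕ}
    (h : Mon n fun b => 2 * (x b * B + k)) : Mon n x := by
  have key : ∀ a b : ℕ, 2 * (a * B + k) < 2 * (b * B + k) → a < b := by
    intro a b h
    have h1 : a * B < b * B := by omega
    exact Nat.lt_of_mul_lt_mul_right h1
  rcases h with h | h
  · exact Or.inl fun r s hrs hs => key _ _ (h r s hrs hs)
  · exact Or.inr fun r s hrs hs => key _ _ (h r s hrs hs)

/-- **Homogeneous tiles.**  `N` tiles with at most `κ₀` labelled conflicts each, on finitely many rows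
(`row b i`, `pos b i`), and a colouring `χ` of the pairs of tiles. -/
theorem homog_tiles (κ₀ n : ℕ) (β Γ : Type*) [Fintype β] [Fintype Γ] : ∃ N : ℕ,
    ∀ (m : ℕ → ℕ) (row : ℕ → ℕ → β) (pos : ℕ → ℕ → ℕ) (χ : ℕ → ℕ → Γ),
    (∀ b < N, m b ≤ κ₀) →
    (∀ b < N, ∀ b' < N, b ≠ b' → ∀ i < m b, ∀ i' < m b', row b i = row b' i' →
      pos b i ≠ pos b' i') →
    ∃ (f : ℕ → ℕ) (m₀ : ℕ) (R : ℕ → β) (γ : Γ), m₀ ≤ κ₀ ∧ (∀ b < n, f b < N) ∧
      (∀ a b, a < b → b < n → f a < f b) ∧ (∀ b < n, m (f b) = m₀) ∧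
      (∀ b < n, ∀ i < m₀, row (f b) i = R i) ∧
      (∀ i < m₀, Mon n fun b => pos (f b) i) ∧
      (∀ i < m₀, ∀ i' < m₀, R i = R i' → Near n (fun b => pos (f b) i) (fun b => pos (f b) i') ∨
        Sep n (fun b => pos (f b) i) (fun b => pos (f b) i')) ∧
      ∀ a b, a < b → b < n → χ (f a) (f b) = γ := by
  classical
  obtain ⟨N₁, hN₁⟩ := ramsey_pairs Γ (n + 1)
  obtain ⟨N, hN⟩ := homog (Fin κ₀) (N₁ + 1) (Fin (κ₀ + 1) × (Fin κ₀ → β))
  refine ⟨N, fun m row pos χ hm hpos => ?_⟩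
  set B := Fintype.card β with hB
  let e : β ≃ Fin B := Fintype.equivFin β
  let P : Fin κ₀ → ℕ → ℕ := fun i b =>
    if (i : ℕ) < m b then 2 * (pos b i * B + (e (row b i) : ℕ)) else 2 * b + 1
  have hP : ∀ i j r s, r < N → s < N → r ≠ s → P i r ≠ P j s := by
    intro i j r s hr hs hrs h
    simp only [P] at h
    by_cases h1 : (i : ℕ) < m r <;> by_cases h2 : (j : ℕ) < m s
    · rw [if_pos h1, if_pos h2] at h
      have h3 : pos r i * B + (e (row r i) : ℕ) = pos s j * B + (e (row s j) : ℕ) := by omega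
      have l1 := (e (row r i)).isLt
      have l2 := (e (row s j)).isLt
      have h4 : (e (row r i) : ℕ) = (e (row s j) : ℕ) := by
        have h3' := congrArg (· % B) h3
        simp only [Nat.add_mod, Nat.mul_mod_left, Nat.zero_add,
          Nat.mod_eq_of_lt l1, Nat.mod_eq_of_lt l2] at h3'
        exact h3'
      have h5 : row r i = row s j := e.injective (Fin.ext h4)
      refine hpos r hr s hs hrs i h1 j h2 h5 ?_
      have h6 : pos r i * B = pos s j * B := by omega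
      exact Nat.eq_of_mul_eq_mul_right (by omega) h6
    · rw [if_pos h1, if_neg h2] at h
      omega
    · rw [if_neg h1, if_pos h2] at h
      omega
    · rw [if_neg h1, if_neg h2] at h
      omega
  obtain ⟨f₁, hf1, hf2, ⟨c, hc⟩, hmon, hns⟩ := hN P
    (fun b => (⟨min (m b) κ₀, by omega⟩, fun i => row b i)) hP
  obtain ⟨g, γ, hg1, hg2, hg3⟩ := hN₁ (fun r s => χ (f₁ r) (f₁ s))
  have hg1' : ∀ i < n, g i < N₁ + 1 := fun i hi => by
    have := hg1 i (by omega)
    omega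
  have hg2' : ∀ i j, i < j → j < n → g i < g j := fun i j hij hj => hg2 i j hij (by omega)
  have hcol : ∀ b < n, m (f₁ (g b)) = (c.1 : ℕ) ∧ ∀ i : Fin κ₀, row (f₁ (g b)) i = c.2 i := by
    intro b hb
    have h1 := hc (g b) (hg1' b hb)
    have h2 : (⟨min (m (f₁ (g b))) κ₀, by omega⟩ : Fin (κ₀ + 1)) = c.1 := by rw [← h1]
    have h3 : (fun i : Fin κ₀ => row (f₁ (g b)) i) = c.2 := by rw [← h1]
    refine ⟨?_, fun i => congrFun h3 i⟩
    have h4 := congrArg (fun t : Fin (κ₀ + 1) => (t : ℕ)) h2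
    simp only at h4
    have h5 := hm (f₁ (g b)) (hf1 _ (hg1' b hb))
    omega
  have hc1 : (c.1 : ℕ) ≤ κ₀ := by have := c.1.isLt; omega
  refine ⟨fun b => f₁ (g b), c.1, fun i => if h : i < κ₀ then c.2 ⟨i, h⟩ else row (f₁ (g 0)) i, γ,
    hc1, fun b hb => hf1 _ (hg1' b hb), fun a b hab hb => hf2 _ _ (hg2' a b hab hb) (hg1' b hb),
    fun b hb => (hcol b hb).1, ?_, ?_, ?_, fun a b hab hb => hg3 a b hab (by omega)⟩
  · intro b hb i hi
    have hi' : i < κ₀ := by omega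
    simp only [dif_pos hi']
    exact (hcol b hb).2 ⟨i, hi'⟩
  · intro i hi
    have hi' : i < κ₀ := by omega
    by_cases hn : n = 0
    · subst hn
      exact Or.inl fun r s _ hs => absurd hs (by omega)
    have h1 := mon_comp (hmon ⟨i, hi'⟩) hg1' hg2'
    have h2 : ∀ b < n, P ⟨i, hi'⟩ (f₁ (g b)) =
        2 * (pos (f₁ (g b)) i * B + (e (c.2 ⟨i, hi'⟩) : ℕ)) := by
      intro b hb
      simp only [P]
      rw [if_pos (by rw [(hcol b hb).1]; exact hi), (hcol b hb).2 ⟨i, hi'⟩]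
    refine mon_of_code (k := (e (c.2 ⟨i, hi'⟩) : ℕ)) (B := B) ?_
    rcases h1 with h1 | h1
    · refine Or.inl fun r s hrs hs => ?_
      have := h1 r s hrs hs
      simp only at this
      rwa [h2 r (by omega), h2 s hs] at this
    · refine Or.inr fun r s hrs hs => ?_
      have := h1 r s hrs hs
      simp only at this
      rwa [h2 r (by omega), h2 s hs] at this
  · intro i hi i' hii' hR
    have hi' : i < κ₀ := by omega
    have hii : i' < κ₀ := by omega
    simp only [dif_pos hi', dif_pos hii] at hR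
    have h2 : ∀ (j : ℕ) (_ : j < (c.1 : ℕ)) (hj' : j < κ₀), ∀ b < n, P ⟨j, hj'⟩ (f₁ (g b)) =
        2 * (pos (f₁ (g b)) j * B + (e (c.2 ⟨j, hj'⟩) : ℕ)) := by
      intro j hj hj' b hb
      simp only [P]
      rw [if_pos (by rw [(hcol b hb).1]; exact hj), (hcol b hb).2 ⟨j, hj'⟩]
    have key : ∀ (j : ℕ) (_ : j < (c.1 : ℕ)) (hj' : j < κ₀), ∀ (l : ℕ) (_ : l < (c.1 : ℕ)) (hl' : l < κ₀), ∀ a < n,
        ∀ b < n, c.2 ⟨j, hj'⟩ = c.2 ⟨l, hl'⟩ → P ⟨j, hj'⟩ (f₁ (g a)) < P ⟨l, hl'⟩ (f₁ (g b)) →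
        pos (f₁ (g a)) j < pos (f₁ (g b)) l := by
      intro j hj hj' l hl hl' a ha b hb hjl h
      rw [h2 j hj hj' a ha, h2 l hl hl' b hb, hjl] at h
      have h3 : pos (f₁ (g a)) j * B < pos (f₁ (g b)) l * B := by omega
      exact Nat.lt_of_mul_lt_mul_right h3
    rcases hns ⟨i, hi'⟩ ⟨i', hii⟩ with h1 | h1
    · left
      rcases near_comp h1 hg1' hg2' with h1 | h1
      · refine Or.inl fun r s hrs hs => ?_
        obtain ⟨q1, q2, q3, q4⟩ := h1 r s hrs hs
        exact ⟨key i hi hi' i hi hi' _ (by omega) _ hs rfl q1,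
          key i hi hi' i' hii' hii _ (by omega) _ hs hR q2,
          key i' hii' hii i hi hi' _ (by omega) _ hs hR.symm q3,
          key i' hii' hii i' hii' hii _ (by omega) _ hs rfl q4⟩
      · refine Or.inr fun r s hrs hs => ?_
        obtain ⟨q1, q2, q3, q4⟩ := h1 r s hrs hs
        exact ⟨key i hi hi' i hi hi' _ hs _ (by omega) rfl q1,
          key i' hii' hii i hi hi' _ hs _ (by omega) hR.symm q2,
          key i hi hi' i' hii' hii _ hs _ (by omega) hR q3,
          key i' hii' hii i' hii' hii _ hs _ (by omega) rfl q4⟩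
    · right
      rcases sep_comp h1 hg1' with h1 | h1
      · exact Or.inl fun r s hr hs => key i hi hi' i' hii' hii _ hr _ hs hR (h1 r s hr hs)
      · exact Or.inr fun r s hr hs => key i' hii' hii i hi hi' _ hs _ hr hR.symm (h1 r s hr hs)

end ramsey

/-! ### Homogeneous units -/

/-- the node `p` (a position on a row) is strictly between the conflicts at the positions `x` and
`y` (the conflict at the position `x` joins the nodes `x` and `x + 1`) -/
def Btw (x y p : ℕ) : Prop := (x < p ∧ p ≤ y) ∨ (y < p ∧ p ≤ x)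

lemma Btw.symm {x y p : ℕ} (h : Btw x y p) : Btw y x p := Or.symm h

/-- **Homogeneous units.**  Tiles `0, ..., n - 1` with `m` labelled conflicts each; the conflict of
label `i` in the tile `b` is on the row `R i` at the position `q i b`; `J` = the honest elements
(pairs of nodes = (row, position)); `G` = the homogeneous strand graph on the labels. -/
structure HUnits {β : Type*} (J : β × ℕ → β × ℕ → Prop) (n m : ℕ) (R : ℕ → β) (q : ℕ → ℕ → ℕ)
    (G : ℕ → ℕ → Prop) : Prop where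
  mon : ∀ i < m, Mon n (q i)
  near : ∀ i < m, ∀ i' < m, R i = R i' → Near n (q i) (q i') ∨ Sep n (q i) (q i')
  inj : ∀ b < n, ∀ i < m, ∀ i' < m, i ≠ i' → R i = R i' → q i b ≠ q i' b
  hon : ∀ i < m, ∀ i' < m, ∀ a b, a < b → b < n →
    (G i i' ↔ ∃ p p', Btw (q i a) (q i b) p ∧ Btw (q i' a) (q i' b) p' ∧ J (R i, p) (R i', p'))

/-- **Existence of homogeneous units.** -/
theorem exists_units (κ₀ n : ℕ) (β : Type*) [Fintype β] : ∃ N : ℕ,
    ∀ (m : ℕ → ℕ) (row : ℕ → ℕ → β) (pos : ℕ → ℕ → ℕ) (J : β × ℕ → β × ℕ → Prop),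
    (∀ b < N, m b ≤ κ₀) →
    (∀ b < N, ∀ b' < N, ∀ i < m b, ∀ i' < m b', row b i = row b' i' → pos b i = pos b' i' →
      b = b' ∧ i = i') →
    ∃ (f : ℕ → ℕ) (m₀ : ℕ) (R : ℕ → β) (G : ℕ → ℕ → Prop), m₀ ≤ κ₀ ∧ (∀ b < n, f b < N) ∧
      (∀ a b, a < b → b < n → f a < f b) ∧ (∀ b < n, m (f b) = m₀) ∧
      (∀ b < n, ∀ i < m₀, row (f b) i = R i) ∧
      HUnits J n m₀ R (fun i b => pos (f b) i) G := by
  classical
  obtain ⟨N, hN⟩ := homog_tiles κ₀ n β (Fin κ₀ → Fin κ₀ → Bool)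
  refine ⟨N, fun m row pos J hm hpos => ?_⟩
  let χ : ℕ → ℕ → Fin κ₀ → Fin κ₀ → Bool := fun a b i i' =>
    decide (∃ p p', Btw (pos a i) (pos b i) p ∧ Btw (pos a i') (pos b i') p' ∧
      J (row a i, p) (row a i', p'))
  obtain ⟨f, m₀, R, γ, h1, h2, h3, h4, h5, h6, h7, h8⟩ := hN m row pos χ hm
    (fun b hb b' hb' hbb i hi i' hi' hr hp => hbb (hpos b hb b' hb' i hi i' hi' hr hp).1)
  refine ⟨f, m₀, R, fun i i' => ∃ (hi : i < κ₀) (hi' : i' < κ₀), γ ⟨i, hi⟩ ⟨i', hi'⟩ = true, h1,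
    h2, h3, h4, h5, h6, h7, ?_, ?_⟩
  · intro b hb i hi i' hi' hii hR hq
    refine hii (hpos (f b) (h2 b hb) (f b) (h2 b hb) i (by rw [h4 b hb]; exact hi) i'
      (by rw [h4 b hb]; exact hi') ?_ hq).2
    rw [h5 b hb i hi, h5 b hb i' hi', hR]
  · intro i hi i' hi' a b hab hb
    have h9 := h8 a b hab hb
    have h10 : χ (f a) (f b) ⟨i, by omega⟩ ⟨i', by omega⟩ = γ ⟨i, by omega⟩ ⟨i', by omega⟩ := by
      rw [h9]
    simp only [χ] at h10
    rw [h5 a (by omega) i hi, h5 a (by omega) i' hi'] at h10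
    constructor
    · rintro ⟨_, _, h11⟩
      rw [h11] at h10
      exact of_decide_eq_true h10
    · intro h11
      refine ⟨by omega, by omega, ?_⟩
      rw [← h10]
      exact decide_eq_true h11

end CWL
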