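import Pool.Agent.CW.World

/-!
# Row V1 of T*: one kept conflict in each tile costs nothing

The core of a tile of even side `s ≥ 4` is the brick wall without its two pendant segments.  For every
segment `σ` of the core there is an injective choice of an incident segment `≠ σ` for every vertex,
so that deleting one element of the column `σ` does not lower the rank.
-/

open Set BIC BICS
open scoped Matroid

namespace CWL

universe u

/-- the core of the brick wall of even side `s`: without the two pendant segments -/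
def core (s : ℕ) : Set (Bool × ℕ × ℕ) := Seg s \ {(true, 0, s), (true, s - 1, s)}

/-- the column of the root of row `j` (`j` not the row of a horizontal `σ`) -/
def rootCol (σ : Bool × ℕ × ℕ) (j : ℕ) : ℕ :=
  if j = 0 then (if σ.1 = false ∧ σ.2.2 = 0 ∧ (σ.2.1 = 0 ∨ σ.2.1 = 2) then 4 else 2)
  else (j - 1) % 2 + (if (σ.1 = false ∧ σ.2.2 = j - 1 ∧ σ.2.1 = (j - 1) % 2) ∨
    (σ.1 = true ∧ σ.2.2 = j - 1 ∧ j % 2 = 1) then 2 else 0)

/-- the segment chosen by a vertex -/
def chs (s : ℕ) (σ : Bool × ℕ × ℕ) (v : ℕ × ℕ) : Bool × ℕ × ℕ :=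
  if σ.1 = true ∧ v.2 = σ.2.2 then
    if v.2 = s then
      if v.1 ≤ σ.2.1 then (if v.1 = 1 then (false, 1, s - 1) else (true, v.1 - 1, s))
      else (if v.1 = s - 1 then (false, s - 1, s - 1) else (true, v.1, s))
    else
      if v.1 ≤ σ.2.1 then
        (if v.1 = 0 then (false, 0, if v.2 % 2 = 1 then v.2 - 1 else v.2) else (true, v.1 - 1, v.2))
      else
        (if v.1 = s then (false, s, if v.2 % 2 = 1 then v.2 - 1 else v.2) else (true, v.1, v.2))
  else
    if v.1 < rootCol σ v.2 then (true, v.1, v.2)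
    else if rootCol σ v.2 < v.1 then (true, v.1 - 1, v.2)
    else (false, v.1, if v.2 = 0 then 0 else v.2 - 1)

/-- the vertices of the core -/
def coreV (s : ℕ) : Set (ℕ × ℕ) :=
  {v | v.1 ≤ s ∧ v.2 ≤ s ∧ ¬ (v.1 = 0 ∧ v.2 = s) ∧ ¬ (v.1 = s ∧ v.2 = s)}

lemma mem_core_f {s i j : ℕ} : ((false, i, j) : Bool × ℕ × ℕ) ∈ core s ↔
    i ≤ s ∧ j < s ∧ (i + j) % 2 = 0 := by
  simp [core, Seg]

lemma mem_core_t {s i j : ℕ} : ((true, i, j) : Bool × ℕ × ℕ) ∈ core s ↔
    i < s ∧ j ≤ s ∧ ¬ (i = 0 ∧ j = s) ∧ ¬ (i = s - 1 ∧ j = s) := by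
  simp only [core, Seg, mem_sdiff, mem_ofPred_eq, mem_insert_iff, mem_singleton_iff,
    Prod.mk.injEq, not_or]
  simp
  tauto

lemma near_f (i j : ℕ) : segNear (false, i, j) = (i, j) := rfl
lemma near_t (i j : ℕ) : segNear (true, i, j) = (i, j) := rfl
lemma far_f (i j : ℕ) : segFar (false, i, j) = (i, j + 1) := by simp [segFar]
lemma far_t (i j : ℕ) : segFar (true, i, j) = (i + 1, j) := by simp [segFar]
lemma ff_eq {i j i' j' : ℕ} : ((false, i, j) : Bool × ℕ × ℕ) = (false, i', j') ↔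
    i = i' ∧ j = j' := by simp
lemma tt_eq {i j i' j' : ℕ} : ((true, i, j) : Bool × ℕ × ℕ) = (true, i', j') ↔
    i = i' ∧ j = j' := by simp
lemma ft_eq {i j i' j' : ℕ} : ((false, i, j) : Bool × ℕ × ℕ) = (true, i', j') ↔
    False := by simp
lemma tf_eq {i j i' j' : ℕ} : ((true, i, j) : Bool × ℕ × ℕ) = (false, i', j') ↔
    False := by simp

lemma core_ends {s : ℕ} (hs : 4 ≤ s) (hs2 : s % 2 = 0) {q : Bool × ℕ × ℕ} (hq : q ∈ core s) :
    segNear q ∈ coreV s ∧ segFar q ∈ coreV s := by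
  obtain ⟨b, i, j⟩ := q
  cases b
  · rw [mem_core_f] at hq
    rw [near_f, far_f]
    simp only [coreV, mem_ofPred_eq]
    omega
  · rw [mem_core_t] at hq
    rw [near_t, far_t]
    simp only [coreV, mem_ofPred_eq]
    omega

/-- the choice for a vertical segment -/
lemma chs_f (s a c i j : ℕ) : chs s (false, a, c) (i, j) =
    if i < rootCol (false, a, c) j then (true, i, j)
    else if rootCol (false, a, c) j < i then (true, i - 1, j)
    else (false, i, if j = 0 then 0 else j - 1) := by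
  simp [chs]

lemma root_f (a c j : ℕ) : rootCol (false, a, c) j =
    if j = 0 then (if c = 0 ∧ (a = 0 ∨ a = 2) then 4 else 2)
    else (j - 1) % 2 + (if c = j - 1 ∧ a = (j - 1) % 2 then 2 else 0) := by
  simp [rootCol]

lemma chs_t (s a c i j : ℕ) (hj : j ≠ c) : chs s (true, a, c) (i, j) =
    if i < rootCol (true, a, c) j then (true, i, j)
    else if rootCol (true, a, c) j < i then (true, i - 1, j)
    else (false, i, if j = 0 then 0 else j - 1) := by
  simp [chs, hj]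

lemma root_t (a c j : ℕ) : rootCol (true, a, c) j =
    if j = 0 then 2
    else (j - 1) % 2 + (if c = j - 1 ∧ j % 2 = 1 then 2 else 0) := by
  simp [rootCol]

lemma chs_s (s a i j : ℕ) : chs s (true, a, j) (i, j) =
    if j = s then
      if i ≤ a then (if i = 1 then (false, 1, s - 1) else (true, i - 1, s))
      else (if i = s - 1 then (false, s - 1, s - 1) else (true, i, s))
    else
      if i ≤ a then
        (if i = 0 then (false, 0, if j % 2 = 1 then j - 1 else j) else (true, i - 1, j))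
      else
        (if i = s then (false, s, if j % 2 = 1 then j - 1 else j) else (true, i, j)) := by
  simp [chs]

lemma chs_mem {s : ℕ} (hs : 4 ≤ s) (hs2 : s % 2 = 0) {σ : Bool × ℕ × ℕ} (hσ : σ ∈ core s)
    {v : ℕ × ℕ} (hv : v ∈ coreV s) :
    chs s σ v ∈ core s ∧ chs s σ v ≠ σ ∧ (v = segNear (chs s σ v) ∨ v = segFar (chs s σ v)) := by
  obtain ⟨b, a, c⟩ := σ
  obtain ⟨i, j⟩ := v
  simp only [coreV, mem_ofPred_eq] at hv
  cases b
  · rw [mem_core_f] at hσ
    rw [chs_f]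
    have hrc := root_f a c j
    generalize rootCol (false, a, c) j = r at *
    split_ifs at hrc <;> split_ifs <;>
      simp only [mem_core_f, mem_core_t, near_f, near_t, far_f, far_t, ff_eq, tf_eq, ne_eq,
        Prod.mk.injEq, not_false_eq_true, true_and, Bool.true_eq_false, Bool.false_eq_true,
        false_and, and_true, true_or, or_true] <;> omega
  · rw [mem_core_t] at hσ
    by_cases hj : j = c
    · subst hj
      rw [chs_s]
      split_ifs <;>
        simp only [mem_core_f, mem_core_t, near_f, near_t, far_f, far_t, ft_eq, tt_eq, ne_eq,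
          Prod.mk.injEq, not_false_eq_true, true_and, Bool.true_eq_false, Bool.false_eq_true,
        false_and, and_true, true_or, or_true] <;> omega
    · rw [chs_t _ _ _ _ _ hj]
      have hrc := root_t a c j
      generalize rootCol (true, a, c) j = r at *
      split_ifs at hrc <;> split_ifs <;>
        simp only [mem_core_f, mem_core_t, near_f, near_t, far_f, far_t, ft_eq, tt_eq, ne_eq,
          Prod.mk.injEq, not_false_eq_true, true_and, Bool.true_eq_false, Bool.false_eq_true,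
        false_and, and_true, true_or, or_true] <;> omega

lemma chs_inj {s : ℕ} (hs : 4 ≤ s) (hs2 : s % 2 = 0) {σ : Bool × ℕ × ℕ} (hσ : σ ∈ core s)
    {v v' : ℕ × ℕ} (hv : v ∈ coreV s) (hv' : v' ∈ coreV s) (h : chs s σ v = chs s σ v') :
    v = v' := by
  obtain ⟨b, a, c⟩ := σ
  obtain ⟨i, j⟩ := v
  obtain ⟨i', j'⟩ := v'
  simp only [coreV, mem_ofPred_eq] at hv hv'
  cases b
  · rw [mem_core_f] at hσ
    rw [chs_f, chs_f] at h
    have hrc := root_f a c j
    have hrc' := root_f a c j'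
    have hjj : j = j' → rootCol (false, a, c) j = rootCol (false, a, c) j' := fun h => by rw [h]
    generalize rootCol (false, a, c) j = r at *
    generalize rootCol (false, a, c) j' = r' at *
    split_ifs at h <;>
      simp only [ff_eq, tf_eq, ft_eq, tt_eq] at h <;> (try exact h.elim) <;>
      split_ifs at hrc hrc' <;> simp only [Prod.mk.injEq, and_true] <;> omega
  · rw [mem_core_t] at hσ
    by_cases hj : j = c
    · subst hj
      by_cases hj' : j' = j
      · subst hj'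
        rw [chs_s, chs_s] at h
        split_ifs at h <;>
          simp only [ff_eq, tf_eq, ft_eq, tt_eq] at h <;> (try exact h.elim) <;>
          simp only [Prod.mk.injEq, and_true] <;> omega
      · rw [chs_s, chs_t _ _ _ _ _ hj'] at h
        have hrc' := root_t a j j'
        generalize rootCol (true, a, j) j' = r' at *
        split_ifs at h <;>
          simp only [ff_eq, tf_eq, ft_eq, tt_eq] at h <;> (try exact h.elim) <;>
          split_ifs at hrc' <;> simp only [Prod.mk.injEq, and_true] <;> omega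
    · by_cases hj' : j' = c
      · subst hj'
        rw [chs_t _ _ _ _ _ hj, chs_s] at h
        have hrc' := root_t a j' j
        generalize rootCol (true, a, j') j = r' at *
        split_ifs at h <;>
          simp only [ff_eq, tf_eq, ft_eq, tt_eq] at h <;> (try exact h.elim) <;>
          split_ifs at hrc' <;> simp only [Prod.mk.injEq, and_true] <;> omega
      · rw [chs_t _ _ _ _ _ hj, chs_t _ _ _ _ _ hj'] at h
        have hrc := root_t a c j
        have hrc' := root_t a c j'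
        have hjj : j = j' → rootCol (true, a, c) j = rootCol (true, a, c) j' := fun h => by rw [h]
        generalize rootCol (true, a, c) j = r at *
        generalize rootCol (true, a, c) j' = r' at *
        split_ifs at h <;>
          simp only [ff_eq, tf_eq, ft_eq, tt_eq] at h <;> (try exact h.elim) <;>
          split_ifs at hrc hrc' <;> simp only [Prod.mk.injEq, and_true] <;> omega

/-! ### From choices to closures -/

/-- an injective choice of edges inside `W` spans everything inside `W` -/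
lemma cl_choice {α V ι : Type*} {N : Matroid α} {R : Set α} {f : α → Sym2 V}
    (hN : Bic N R f) {I : Set ι} (hI : I.Finite) (a : ι → V) (g : ι → α) (ha : InjOn a I)
    (hg : InjOn g I) (hgR : ∀ i ∈ I, g i ∈ R) (hga : ∀ i ∈ I, a i ∈ f (g i))
    (hgW : ∀ i ∈ I, ∀ x ∈ f (g i), x ∈ a '' I) {c : α} (hcR : c ∈ R)
    (hc : ∀ x ∈ f c, x ∈ a '' I) : c ∈ N.closure (g '' I) := by
  by_contra hcl
  obtain ⟨x0, hx0⟩ := exists_mem_ends f c
  obtain ⟨i0, hi0, -⟩ := hc x0 hx0
  have : Nonempty ι := ⟨i0⟩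
  have hinv : ∀ i ∈ I, Function.invFunOn g I (g i) = i := fun i hi =>
    hg (Function.invFunOn_mem ⟨i, hi, rfl⟩) hi (Function.invFunOn_eq ⟨i, hi, rfl⟩)
  have hind : N.Indep (g '' I) := by
    refine hN.ind (g '' I) (fun x => a (Function.invFunOn g I x)) ?_ ?_ ?_
    · rintro _ ⟨i, hi, rfl⟩
      exact hgR i hi
    · rintro _ ⟨i, hi, rfl⟩ _ ⟨j, hj, rfl⟩ hij
      simp only [hinv i hi, hinv j hj] at hij
      rw [ha hi hj hij]
    · rintro _ ⟨i, hi, rfl⟩
      simp only [hinv i hi]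
      exact hga i hi
  have h1 := N.eRk_insert_eq_add_one (X := g '' I) (e := c) ⟨hN.sub hcR, hcl⟩
  have h2 : N.eRk (g '' I) = (g '' I).encard := hind.eRk_eq_encard
  have h3 : (g '' I).encard = I.encard := hg.encard_image
  have h4 : (a '' I).encard = I.encard := ha.encard_image
  have h5 : N.eRk (insert c (g '' I)) ≤ (a '' I).encard := by
    refine (N.eRk_mono ?_).trans (hN.rk (a '' I))
    refine insert_subset ⟨hcR, hc⟩ ?_
    rintro _ ⟨i, hi, rfl⟩
    exact ⟨hgR i hi, hgW i hi⟩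
  rw [h1, h2, h3, h4] at h5
  have h6 : I.encard ≠ ⊤ := hI.encard_lt_top.ne
  have h7 : I.encard < I.encard + 1 := ENat.lt_add_one_iff h6 |>.2 le_rfl
  exact absurd h5 (not_le.2 h7)

section core

variable {α : Type*} {M N : Matroid α} {S : Set (Bool × ℕ × ℕ)} {L : Bool × ℕ × ℕ → List α}
  {f : α → Sym2 ((ℕ × ℕ) ⊕ α)} {e : Bool × ℕ × ℕ → α} {u : ℕ}

lemma GSide.len_pos (h : GSide M S L f e u) {q : Bool × ℕ × ℕ} (hq : q ∈ S) :
    0 < (L q).length := by
  have h1 := h.last q hq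
  rcases List.eq_nil_or_concat (L q) with h2 | ⟨l, b, h2⟩
  · rw [h2] at h1
    simp at h1
  · rw [h2]
    simp

/-- **The subdivided core minus one element of `σ` spans this element.** -/
theorem GSide.cl_core (h : GSide M S L f e u) (hN : Bic N (crr L S) f)
    {C : Set (Bool × ℕ × ℕ)} (hC : C ⊆ S) (hCf : C.Finite) {σ : Bool × ℕ × ℕ} (hσ : σ ∈ C)
    (ψ : ℕ × ℕ → Bool × ℕ × ℕ) (Vt : Set (ℕ × ℕ)) (hVf : Vt.Finite)
    (hVt : ∀ q ∈ C, segNear q ∈ Vt ∧ segFar q ∈ Vt)
    (hψ : ∀ v ∈ Vt, ψ v ∈ C ∧ ψ v ≠ σ ∧ (v = segNear (ψ v) ∨ v = segFar (ψ v)))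
    (hinj : InjOn ψ Vt) {c : α} (hc : c ∈ L σ) : c ∈ N.closure (crr L C \ {c}) := by
  classical
  -- elements by number
  set E : Bool × ℕ × ℕ → ℕ → α := fun q n => (L q).getD n c with hE
  have hEg : ∀ q n (hn : n < (L q).length), E q n = (L q)[n] := fun q n hn =>
    List.getD_eq_getElem _ _ hn
  have hEm : ∀ q ∈ C, ∀ n < (L q).length, E q n ∈ crr L C := by
    intro q hq n hn
    rw [hEg q n hn]
    exact ⟨q, hq, List.getElem_mem _⟩
  have hEi : ∀ q ∈ C, ∀ q' ∈ C, ∀ n < (L q).length, ∀ n' < (L q').length, E q n = E q' n' →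
      q = q' ∧ n = n' := by
    intro q hq q' hq' n hn n' hn' heq
    rw [hEg q n hn, hEg q' n' hn'] at heq
    have h1 : q = q' := h.uniq (hC hq) (hC hq') (List.getElem_mem hn)
      (by rw [heq]; exact List.getElem_mem hn')
    subst h1
    exact ⟨rfl, (List.Nodup.getElem_inj_iff (h.nodup q (hC hq))).1 heq⟩
  have hEf : ∀ q ∈ C, ∀ n < (L q).length, f (E q n) = s(node q (L q) n, node q (L q) (n + 1)) := by
    intro q hq n hn
    rw [hEg q n hn]
    exact h.end_eq q (hC hq) n hn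
  obtain ⟨j, hj, hcj⟩ : ∃ j, ∃ hj : j < (L σ).length, (L σ)[j] = c := List.mem_iff_getElem.1 hc
  have hcE : E σ j = c := by rw [hEg σ j hj]; exact hcj
  -- the index set
  set δ : Bool × ℕ × ℕ → ℕ → ℕ := fun q i =>
    if q = σ then (if i ≤ j then 0 else 1) else (if ψ (segNear q) = q then 1 else 0) with hδ
  set I : Set ((ℕ × ℕ) ⊕ ((Bool × ℕ × ℕ) × ℕ)) :=
    {x | (∃ v ∈ Vt, x = Sum.inl v) ∨
      ∃ q ∈ C, ∃ i, 0 < i ∧ i < (L q).length ∧ x = Sum.inr (q, i)} with hI
  set a : (ℕ × ℕ) ⊕ ((Bool × ℕ × ℕ) × ℕ) → (ℕ × ℕ) ⊕ α := fun x =>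
    Sum.elim (fun v => Sum.inl v) (fun p => Sum.inr (E p.1 (p.2 - 1))) x with ha
  set g : (ℕ × ℕ) ⊕ ((Bool × ℕ × ℕ) × ℕ) → α := fun x =>
    Sum.elim (fun v => E (ψ v) (if v = segNear (ψ v) then 0 else (L (ψ v)).length - 1))
      (fun p => E p.1 (p.2 - 1 + δ p.1 p.2)) x with hg
  have hIf : I.Finite := by
    have h1 : (⋃ q ∈ C, (fun i : ℕ => (Sum.inr (q, i) : (ℕ × ℕ) ⊕ ((Bool × ℕ × ℕ) × ℕ))) ''
        {i | i < (L q).length}).Finite :=
      hCf.biUnion fun q _ => (Set.finite_lt_nat _).image _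
    refine ((hVf.image Sum.inl).union h1).subset ?_
    rintro x (⟨v, hv, rfl⟩ | ⟨q, hq, i, hi0, hi, rfl⟩)
    · exact Or.inl ⟨v, hv, rfl⟩
    · refine Or.inr ?_
      simp only [mem_iUnion]
      exact ⟨q, hq, i, hi, rfl⟩
  -- nodes are covered
  have hnode : ∀ q ∈ C, ∀ i ≤ (L q).length, node q (L q) i ∈ a '' I := by
    intro q hq i hi
    rcases Nat.eq_zero_or_pos i with h0 | h0
    · subst h0
      rw [node_zero]
      exact ⟨Sum.inl (segNear q), Or.inl ⟨_, (hVt q hq).1, rfl⟩, rfl⟩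
    · rcases hi.lt_or_eq with h1 | h1
      · rw [node_mid q h0 h1]
        refine ⟨Sum.inr (q, i), Or.inr ⟨q, hq, i, h0, h1, rfl⟩, ?_⟩
        simp only [ha, Sum.elim_inr]
        rw [hEg q (i - 1) (by omega)]
      · subst h1
        rw [node_last q (List.length_pos_iff.1 h0)]
        exact ⟨Sum.inl (segFar q), Or.inl ⟨_, (hVt q hq).2, rfl⟩, rfl⟩
  have hends : ∀ q ∈ C, ∀ n < (L q).length, ∀ x ∈ f (E q n), x ∈ a '' I := by
    intro q hq n hn x hx
    rw [hEf q hq n hn, Sym2.mem_iff] at hx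
    rcases hx with rfl | rfl
    · exact hnode q hq n hn.le
    · exact hnode q hq (n + 1) hn
  -- the element chosen by an index
  have hδ1 : ∀ q i, δ q i ≤ 1 := by
    intro q i
    simp only [hδ]
    split_ifs <;> omega
  have hpos : ∀ q ∈ C, 0 < (L q).length := fun q hq => h.len_pos (hC hq)
  have hidx : ∀ x ∈ I, ∃ q ∈ C, ∃ n < (L q).length, g x = E q n ∧ a x ∈ f (E q n) ∧
      ¬ (q = σ ∧ n = j) := by
    rintro x (⟨v, hv, rfl⟩ | ⟨q, hq, i, hi0, hi, rfl⟩)
    · obtain ⟨h1, h2, h3⟩ := hψ v hv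
      refine ⟨ψ v, h1, if v = segNear (ψ v) then 0 else (L (ψ v)).length - 1, ?_, rfl, ?_, ?_⟩
      · have := hpos _ h1
        split_ifs <;> omega
      · have h4 := hpos _ h1
        split_ifs with h5
        · rw [hEf _ h1 0 h4, node_zero, ← h5]
          simp [ha]
        · rcases h3 with h3 | h3
          · exact absurd h3 h5
          · rw [hEf _ h1 ((L (ψ v)).length - 1) (by omega)]
            have h6 : (L (ψ v)).length - 1 + 1 = (L (ψ v)).length := by omega
            rw [h6, node_last _ (List.length_pos_iff.1 h4), ← h3]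
            simp [ha]
      · exact fun h4 => h2 h4.1
    · have h1 := hδ1 q i
      refine ⟨q, hq, i - 1 + δ q i, by omega, rfl, ?_, ?_⟩
      · have h2 : a (Sum.inr (q, i)) = node q (L q) i := by
          rw [node_mid q hi0 hi]
          simp only [ha, Sum.elim_inr]
          rw [hEg q (i - 1) (by omega)]
        rw [h2, hEf q hq _ (by omega)]
        rcases Nat.le_one_iff_eq_zero_or_eq_one.1 h1 with h3 | h3
        · rw [h3]
          have h4 : i - 1 + 0 + 1 = i := by omega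
          rw [h4]
          exact Sym2.mem_mk_right _ _
        · rw [h3]
          have h4 : i - 1 + 1 = i := by omega
          rw [h4]
          exact Sym2.mem_mk_left _ _
      · rintro ⟨h2, h3⟩
        simp only [hδ, h2, if_true] at h3
        split_ifs at h3 <;> omega
  have hnf : ∀ q : Bool × ℕ × ℕ, segNear q ≠ segFar q := by
    rintro ⟨b, x, y⟩
    cases b <;> simp [segNear, segFar]
  have hmem := cl_choice hN hIf a g ?_ ?_ ?_ ?_ ?_ (c := c) ⟨σ, hC hσ, hc⟩ ?_
  · refine N.closure_subset_closure ?_ hmem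
    rintro _ ⟨x, hx, rfl⟩
    obtain ⟨q, hq, n, hn, h1, -, h3⟩ := hidx x hx
    rw [h1]
    refine ⟨hEm q hq n hn, ?_⟩
    intro h4
    have h5 : E q n = E σ j := by rw [hcE]; exact h4
    exact h3 (hEi q hq σ hσ n hn j hj h5)
  · -- `a` is injective
    rintro x (⟨v, hv, rfl⟩ | ⟨q, hq, i, hi0, hi, rfl⟩) y (⟨v', hv', rfl⟩ | ⟨q', hq', i', hi0', hi', rfl⟩) hxy
    · simp only [ha, Sum.elim_inl, Sum.inl.injEq] at hxy
      rw [hxy]
    · simp [ha] at hxy
    · simp [ha] at hxy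
    · simp only [ha, Sum.elim_inr, Sum.inr.injEq] at hxy
      obtain ⟨h1, h2⟩ := hEi q hq q' hq' (i - 1) (by omega) (i' - 1) (by omega) hxy
      have h3 : i = i' := by omega
      rw [h1, h3]
  · -- `g` is injective
    have key : ∀ v ∈ Vt, ∀ q ∈ C, ∀ i, 0 < i → i < (L q).length →
        g (Sum.inl v) ≠ g (Sum.inr (q, i)) := by
      intro v hv q hq i hi0 hi heq
      obtain ⟨h1, h2, h3⟩ := hψ v hv
      have h4 := hpos _ h1
      have h5 := hδ1 q i
      simp only [hg, Sum.elim_inl, Sum.elim_inr] at heq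
      obtain ⟨h6, h7⟩ := hEi _ h1 q hq _ (by split_ifs <;> omega) _ (by omega) heq
      have hqσ : q ≠ σ := h6 ▸ h2
      simp only [hδ, if_neg hqσ] at h7
      rw [h6] at h7 h3
      by_cases h8 : v = segNear q
      · have h9 : ψ (segNear q) = q := by rw [← h8]; exact h6
        simp only [h8, h9, if_true] at h7
        omega
      · rcases h3 with h3 | h3
        · exact h8 h3
        · have h9 : ψ (segNear q) ≠ q := by
            intro h10
            have h11 : v = segNear q := hinj hv (hVt q hq).1 (h6.trans h10.symm)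
            exact h8 h11
          simp only [h8, h9, if_false] at h7
          omega
    rintro x (⟨v, hv, rfl⟩ | ⟨q, hq, i, hi0, hi, rfl⟩) y (⟨v', hv', rfl⟩ | ⟨q', hq', i', hi0', hi', rfl⟩) hxy
    · obtain ⟨h1, h2, h3⟩ := hψ v hv
      obtain ⟨h1', h2', h3'⟩ := hψ v' hv'
      have h4 := hpos _ h1
      have h4' := hpos _ h1'
      simp only [hg, Sum.elim_inl] at hxy
      obtain ⟨h6, -⟩ := hEi _ h1 _ h1' _ (by split_ifs <;> omega) _ (by split_ifs <;> omega) hxy
      rw [hinj hv hv' h6]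
    · exact absurd hxy (key v hv q' hq' i' hi0' hi')
    · exact absurd hxy.symm (key v' hv' q hq i hi0 hi)
    · have h5 := hδ1 q i
      have h5' := hδ1 q' i'
      simp only [hg, Sum.elim_inr] at hxy
      obtain ⟨h6, h7⟩ := hEi q hq q' hq' _ (by omega) _ (by omega) hxy
      subst h6
      have h8 : i = i' := by
        simp only [hδ] at h7
        split_ifs at h7 <;> omega
      rw [h8]
  · intro x hx
    obtain ⟨q, hq, n, hn, h1, -, -⟩ := hidx x hx
    rw [h1]
    obtain ⟨q', hq', h2⟩ := hEm q hq n hn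
    exact ⟨q', hC hq', h2⟩
  · intro x hx
    obtain ⟨q, hq, n, hn, h1, h2, -⟩ := hidx x hx
    rw [h1]
    exact h2
  · intro x hx
    obtain ⟨q, hq, n, hn, h1, -, -⟩ := hidx x hx
    rw [h1]
    exact hends q hq n hn
  · intro x hx
    rw [← hcE] at hx
    exact hends σ hσ j hj x hx

end core

/-! ### The tiles -/

section tile

variable {α : Type u} {M N : Matroid α} {w s : ℕ} {𝒯 : Finset (ℕ × ℕ)}
  {L : Bool × ℕ × ℕ → List α} {f : α → Sym2 ((ℕ × ℕ) ⊕ α)} {e : Bool × ℕ × ℕ → α} {u : ℕ}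

lemma core_sub_tiles {t : ℕ × ℕ} (ht : t ∈ 𝒯) : shS t.1 t.2 '' core s ⊆ tiles s 𝒯 := by
  rintro _ ⟨q, hq, rfl⟩
  exact ⟨t, ht, q, hq.1, rfl⟩

lemma Seg_finite (s : ℕ) : (Seg s).Finite := by
  refine Set.Finite.subset (Set.Finite.prod (Set.toFinite (Set.univ : Set Bool))
    (Set.Finite.prod (Set.finite_le_nat s) (Set.finite_le_nat s))) ?_
  rintro ⟨b, i, j⟩ h
  simp only [Seg, mem_ofPred_eq] at h
  refine ⟨mem_univ _, ?_, ?_⟩
  · show i ≤ s
    omega
  · show j ≤ s
    omega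

lemma coreV_finite (s : ℕ) : (coreV s).Finite := by
  refine Set.Finite.subset (Set.Finite.prod (Set.finite_le_nat s) (Set.finite_le_nat s)) ?_
  rintro ⟨i, j⟩ h
  exact ⟨h.1, h.2.1⟩

/-- the element `c` of the core of a tile is spanned by the other elements of the core -/
theorem GSide.cl_tile (h : GSide M (tiles s 𝒯) L f e u) (hN : Bic N (crr L (tiles s 𝒯)) f)
    (hs : 4 ≤ s) (hs2 : s % 2 = 0) {t : ℕ × ℕ} (ht : t ∈ 𝒯) {c : α}
    (hc : c ∈ crr L (shS t.1 t.2 '' core s)) :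
    c ∈ N.closure (crr L (shS t.1 t.2 '' core s) \ {c}) := by
  obtain ⟨_, ⟨σ, hσ, rfl⟩, hcσ⟩ := hc
  set up : ℕ × ℕ → ℕ × ℕ := fun v => (v.1 + t.1, v.2 + t.2) with hup
  set dn : ℕ × ℕ → ℕ × ℕ := fun v => (v.1 - t.1, v.2 - t.2) with hdn
  have hdu : ∀ v, dn (up v) = v := by
    rintro ⟨x, y⟩
    simp only [hup, hdn, Prod.mk.injEq]
    omega
  refine h.cl_core hN (core_sub_tiles ht) (((Seg_finite s).subset sdiff_subset).image _)
    ⟨σ, hσ, rfl⟩ (fun v => shS t.1 t.2 (chs s σ (dn v))) (up '' coreV s)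
    ((coreV_finite s).image _) ?_ ?_ ?_ hcσ
  · rintro _ ⟨q, hq, rfl⟩
    rw [segNear_shS, segFar_shS]
    obtain ⟨h1, h2⟩ := core_ends hs hs2 hq
    exact ⟨⟨_, h1, rfl⟩, ⟨_, h2, rfl⟩⟩
  · rintro _ ⟨v, hv, rfl⟩
    obtain ⟨h1, h2, h3⟩ := chs_mem hs hs2 hσ hv
    simp only [hdu]
    refine ⟨⟨_, h1, rfl⟩, fun h4 => h2 (shS_inj _ _ h4), ?_⟩
    rw [segNear_shS, segFar_shS]
    rcases h3 with h3 | h3
    · left
      rw [← h3]
    · right
      rw [← h3]
  · rintro _ ⟨v, hv, rfl⟩ _ ⟨v', hv', rfl⟩ heq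
    simp only [hdu] at heq
    rw [chs_inj hs hs2 hσ hv hv' (shS_inj _ _ heq)]

/-- **V1.**  `X` contains no element of the cores of the tiles in `𝒜`; `I` consists of at most one
element of the core of each of these tiles.  Then `I` is free over `X` in `M`, up to the lift of the
column side. -/
theorem GSide.V1 [M.Finite] (h : GSide M✶ (tiles s 𝒯) L f e u) (hs : 4 ≤ s) (hs2 : s % 2 = 0)
    {𝒜 : Finset (ℕ × ℕ)} (h𝒜 : 𝒜 ⊆ 𝒯) {X I : Set α} (hX : X ⊆ M.E)
    (hcore : ∀ t ∈ 𝒜, Disjoint (crr L (shS t.1 t.2 '' core s)) X)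
    (hI : ∀ x ∈ I, ∃ t ∈ 𝒜, x ∈ crr L (shS t.1 t.2 '' core s))
    (hone : ∀ t ∈ 𝒜, ∀ x ∈ I, ∀ y ∈ I, x ∈ crr L (shS t.1 t.2 '' core s) →
      y ∈ crr L (shS t.1 t.2 '' core s) → x = y) :
    rk M X + I.ncard ≤ rk M (I ∪ X) + u := by
  obtain ⟨h0, N, hNf, hN, hquo, hle⟩ := h.lift
  have hR : crr L (tiles s 𝒯) ⊆ M.E := by
    have := h0
    rwa [Matroid.dual_ground] at this
  have hcE : ∀ t ∈ 𝒜, crr L (shS t.1 t.2 '' core s) ⊆ crr L (tiles s 𝒯) := fun t ht =>
    crr_mono (core_sub_tiles (h𝒜 ht))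
  have hIR : I ⊆ crr L (tiles s 𝒯) := by
    intro x hx
    obtain ⟨t, ht, hxt⟩ := hI x hx
    exact hcE t ht hxt
  have hIE : I ⊆ M.E := hIR.trans hR
  have hIX : Disjoint I X := by
    rw [Set.disjoint_left]
    intro x hx hxX
    obtain ⟨t, ht, hxt⟩ := hI x hx
    exact Set.disjoint_left.1 (hcore t ht) hxt hxX
  have hIf : I.Finite := M.ground_finite.subset hIE
  -- the dual
  set T : Set α := M.E \ X with hT
  have hXI : X = M.E \ T := by
    rw [hT, sdiff_sdiff_cancel_left hX]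
  have hd1 := rk_dual (M := M) (X := T) sdiff_subset
  have hd2 := rk_dual (M := M) (X := T \ I) (sdiff_subset.trans sdiff_subset)
  have e1 : M.E \ T = X := hXI.symm
  have e2 : M.E \ (T \ I) = I ∪ X := by
    ext x
    simp only [hT, mem_sdiff, mem_union, not_and, not_not]
    constructor
    · rintro ⟨h1, h2⟩
      by_cases hx : x ∈ X
      · exact Or.inr hx
      · exact Or.inl (h2 ⟨h1, hx⟩)
    · rintro (h1 | h1)
      · exact ⟨hIE h1, fun _ => h1⟩
      · exact ⟨hX h1, fun h2 => absurd h1 h2.2⟩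
  rw [e1] at hd1
  rw [e2] at hd2
  have hIT : I ⊆ T := fun x hx => ⟨hIE hx, Set.disjoint_left.1 hIX hx⟩
  have hcard : (T \ I).ncard + I.ncard = T.ncard :=
    Set.ncard_sdiff_add_ncard_of_subset hIT (M.ground_finite.subset sdiff_subset)
  -- removing `I` costs at most `u` in the dual
  have hcost : rk M✶ T ≤ rk M✶ (T \ I) + u := by
    set Z : Set α := {x | ∃ t ∈ 𝒜, x ∈ crr L (shS t.1 t.2 '' core s)} with hZ
    have hZR : Z ⊆ crr L (tiles s 𝒯) := by
      rintro x ⟨t, ht, hx⟩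
      exact hcE t ht hx
    have hZT : Z ⊆ T := by
      rintro x ⟨t, ht, hx⟩
      exact ⟨hR (hcE t ht hx), Set.disjoint_left.1 (hcore t ht) hx⟩
    have hIZ : I ⊆ Z := fun x hx => hI x hx
    -- in `N` nothing is lost
    have hNle : rk N Z ≤ rk N (Z \ I) := by
      rw [← rk_closure (M := N) (Z \ I)]
      refine rk_mono N ?_
      intro x hx
      by_cases hxI : x ∈ I
      · obtain ⟨t, ht, hxt⟩ := hI x hxI
        refine N.closure_subset_closure ?_ (h.cl_tile hN hs hs2 (h𝒜 ht) hxt)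
        rintro y ⟨hy, hyx⟩
        refine ⟨⟨t, ht, hy⟩, fun hyI => hyx ?_⟩
        exact hone t ht y hyI x hxI hy hxt
      · exact N.subset_closure _ ((sdiff_subset.trans hZR).trans hN.sub) ⟨hx, hxI⟩
    have h1 : rk M✶ Z ≤ rk M✶ (Z \ I) + u := by
      have h2 := hle Z hZR
      have h3 := hquo ∅ (Z \ I) (empty_subset _) (sdiff_subset.trans hZR)
      rw [rk_empty, rk_empty] at h3
      omega
    have h4 := rk_submod M✶ Z (T \ I)
    have h5 : Z ∩ (T \ I) = Z \ I := by
      ext x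
      simp only [mem_inter_iff, mem_sdiff]
      exact ⟨fun hx => ⟨hx.1, hx.2.2⟩, fun hx => ⟨hx.1, hZT hx.1, hx.2⟩⟩
    have h6 : Z ∪ (T \ I) = T := by
      ext x
      simp only [mem_union, mem_sdiff]
      constructor
      · rintro (hx | hx)
        · exact hZT hx
        · exact hx.1
      · intro hx
        by_cases hxI : x ∈ I
        · exact Or.inl (hIZ hxI)
        · exact Or.inr ⟨hx, hxI⟩
    rw [h5, h6] at h4
    omega
  omega

/-- **V1 for the clean pair.**  `K` contains the conflicts on the cores of the tiles in `𝒜`. -/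
theorem World.V1 {L₁ : Bool × ℕ × ℕ → List α} {f₁ : α → Sym2 ((ℕ × ℕ) ⊕ α)}
    {e₁ : Bool × ℕ × ℕ → α} {u₁ : ℕ} {L₂ : Bool × ℕ × ℕ → List α} {f₂ : α → Sym2 ((ℕ × ℕ) ⊕ α)}
    {e₂ : Bool × ℕ × ℕ → α} {u₂ : ℕ} [M.Finite] (h : World M w s 𝒯 L₁ f₁ e₁ u₁ L₂ f₂ e₂ u₂)
    (hs : 4 ≤ s) (hs2 : s % 2 = 0) {𝒜 : Finset (ℕ × ℕ)} (h𝒜 : 𝒜 ⊆ 𝒯) {K I : Set α}
    (hK : ∀ t ∈ 𝒜, crr L₁ (Seg w) ∩ crr L₂ (shS t.1 t.2 '' core s) ⊆ K)
    (hI : ∀ x ∈ I, ∃ t ∈ 𝒜, x ∈ crr L₂ (shS t.1 t.2 '' core s))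
    (hone : ∀ t ∈ 𝒜, ∀ x ∈ I, ∀ y ∈ I, x ∈ crr L₂ (shS t.1 t.2 '' core s) →
      y ∈ crr L₂ (shS t.1 t.2 '' core s) → x = y) :
    rk M ((M.E \ (crr L₁ (Seg w) ∪ crr L₂ (tiles s 𝒯))) ∪ (crr L₁ (Seg w) \ K)) + I.ncard ≤
      rk M (I ∪ ((M.E \ (crr L₁ (Seg w) ∪ crr L₂ (tiles s 𝒯))) ∪ (crr L₁ (Seg w) \ K))) + u₂ := by
  refine h.pair.s₂.V1 hs hs2 h𝒜 (union_subset sdiff_subset
    (sdiff_subset.trans h.pair.s₁.sub_ground)) ?_ hI hone
  intro t ht
  rw [Set.disjoint_left]
  rintro x hx (⟨-, h1⟩ | ⟨h1, h2⟩)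
  · exact h1 (Or.inr (crr_mono (core_sub_tiles (h𝒜 ht)) hx))
  · exact h2 (hK t ht ⟨h1, hx⟩)

end tile

end CWL
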