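import Pool.Agent.CW.World

/-!
# Sides along paths of rows
-/

open Set BIC BICS
open scoped Matroid

namespace CWL

universe u

/-- a path: the elements `l` lead from `v` to `v'` through the vertices `U` -/
inductive WPath {α V : Type*} (f : α → Sym2 V) : V → V → List α → Set V → Prop
  | nil (v : V) : WPath f v v [] {v}
  | cons {v v' v'' : V} {x : α} {l : List α} {U : Set V} (h1 : f x = s(v, v')) (h2 : v ∉ U)
      (h3 : WPath f v' v'' l U) : WPath f v v'' (x :: l) (insert v U)

namespace WPath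

variable {α V : Type*} {f : α → Sym2 V} {v v' v'' : V} {l l' : List α} {U U' : Set V} {x : α}

lemma start (h : WPath f v v' l U) : v ∈ U := by
  cases h with
  | nil => rfl
  | cons h1 h2 h3 => exact mem_insert _ _

lemma fin (h : WPath f v v' l U) : v' ∈ U := by
  induction h with
  | nil => rfl
  | cons h1 h2 h3 ih => exact Or.inr ih

lemma single (h : f x = s(v, v')) (hne : v ≠ v') : WPath f v v' [x] {v, v'} :=
  WPath.cons h (by simpa using hne) (WPath.nil v')

lemma congr_set (h : WPath f v v' l U) (hU : U = U') : WPath f v v' l U' := hU ▸ h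

/-- concatenation -/
lemma append (h : WPath f v v' l U) (h' : WPath f v' v'' l' U')
    (hd : ∀ z ∈ U, z ∈ U' → z = v') : WPath f v v'' (l ++ l') (U ∪ U') := by
  induction h with
  | nil v =>
    rw [List.nil_append]
    refine h'.congr_set ?_
    exact (union_eq_self_of_subset_left (singleton_subset_iff.2 h'.start)).symm
  | @cons a b c x l U h1 h2 h3 ih =>
    rw [List.cons_append, insert_union]
    refine WPath.cons h1 ?_ (ih h' fun z hz => hd z (Or.inr hz))
    rintro (h4 | h4)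
    · exact h2 h4
    · have h5 := hd a (Or.inl rfl) h4
      exact h2 (h5 ▸ h3.fin)

lemma reverse (h : WPath f v v' l U) : WPath f v' v l.reverse U := by
  induction h with
  | nil v => exact WPath.nil v
  | @cons a b c x l U h1 h2 h3 ih =>
    rw [List.reverse_cons]
    have hab : b ≠ a := fun h => h2 (h ▸ h3.start)
    refine (ih.append (single (f := f) (x := x) (v := b) (v' := a) (by rw [h1, Sym2.eq_swap]) hab)
      ?_).congr_set ?_
    · rintro z hz (h4 | h4)
      · exact h4
      · rw [mem_singleton_iff] at h4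
        exact absurd (h4 ▸ hz) h2
    · ext z
      simp only [mem_union, mem_insert_iff, mem_singleton_iff]
      constructor
      · rintro (h4 | rfl | rfl)
        · exact Or.inr h4
        · exact Or.inr h3.start
        · exact Or.inl rfl
      · rintro (rfl | h4)
        · exact Or.inr (Or.inr rfl)
        · exact Or.inl h4

lemma ends_mem (h : WPath f v v' l U) : ∀ x ∈ l, ∀ z ∈ f x, z ∈ U := by
  induction h with
  | nil => simp
  | @cons a b c x l U h1 h2 h3 ih =>
    intro y hy z hz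
    rcases List.mem_cons.1 hy with rfl | hy
    · rw [h1, Sym2.mem_iff] at hz
      rcases hz with rfl | rfl
      · exact Or.inl rfl
      · exact Or.inr h3.start
    · exact Or.inr (ih y hy z hz)

lemma nodup (h : WPath f v v' l U) : l.Nodup := by
  induction h with
  | nil => simp
  | @cons a b c x l U h1 h2 h3 ih =>
    rw [List.nodup_cons]
    refine ⟨fun hx => h2 (h3.ends_mem x hx a ?_), ih⟩
    rw [h1]
    exact Sym2.mem_mk_left _ _

/-- the nodes -/
lemma nodes (h : WPath f v v' l U) : ∃ ν : ℕ → V, ν 0 = v ∧ ν l.length = v' ∧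
    (∀ (i : ℕ) (hi : i < l.length), f l[i] = s(ν i, ν (i + 1))) ∧
    (∀ i ≤ l.length, ∀ j ≤ l.length, ν i = ν j → i = j) ∧ ∀ i ≤ l.length, ν i ∈ U := by
  induction h with
  | nil v =>
    refine ⟨fun _ => v, rfl, rfl, fun i hi => absurd hi (by simp), fun i hi j hj _ => ?_,
      fun _ _ => rfl⟩
    simp only [List.length_nil, Nat.le_zero] at hi hj
    omega
  | @cons a b c x l U h1 h2 h3 ih =>
    obtain ⟨ν, n1, n2, n3, n4, n5⟩ := ih
    refine ⟨fun i => match i with
      | 0 => a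
      | i + 1 => ν i, rfl, ?_, ?_, ?_, ?_⟩
    · simp only [List.length_cons]
      exact n2
    · intro i hi
      rcases i with _ | i
      · simp only [List.getElem_cons_zero, n1]
        exact h1
      · simp only [List.getElem_cons_succ]
        exact n3 i (by simpa using hi)
    · intro i hi j hj hij
      rcases i with _ | i <;> rcases j with _ | j
      · rfl
      · simp only at hij
        exact absurd (hij ▸ n5 j (by simpa using hj)) h2
      · simp only at hij
        exact absurd (hij ▸ n5 i (by simpa using hi)) h2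
      · simp only at hij
        rw [n4 i (by simpa using hi) j (by simpa using hj) hij]
    · intro i hi
      rcases i with _ | i
      · exact Or.inl rfl
      · exact Or.inr (n5 i (by simpa using hi))

end WPath

/-- the ends of a segment -/
def sgE (s : Bool × ℕ × ℕ) : Sym2 (ℕ × ℕ) := s(segNear s, segFar s)

lemma seg_ext {s s' : Bool × ℕ × ℕ} (h : sgE s = sgE s') : s = s' := by
  obtain ⟨b, x, z⟩ := s
  obtain ⟨b', x', z'⟩ := s'
  unfold sgE segNear segFar at h
  rw [Sym2.eq_iff] at h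
  cases b <;> cases b' <;>
    simp only [Bool.false_eq_true, if_false, if_true, Prod.mk.injEq, reduceCtorEq, false_and,
      true_and] at h ⊢ <;> omega

section

variable {α : Type u} {M : Matroid α} {S : Set (Bool × ℕ × ℕ)} {L : Bool × ℕ × ℕ → List α}
  {f : α → Sym2 ((ℕ × ℕ) ⊕ α)} {e : Bool × ℕ × ℕ → α} {u : ℕ}

/-- one row as a path, forwards -/
lemma GSide.rowPath (h : GSide M S L f e u) {s : Bool × ℕ × ℕ} (hs : s ∈ S) :
    ∃ U, WPath f (Sum.inl (segNear s)) (Sum.inl (segFar s)) (L s) U ∧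
      ∀ v ∈ U, v = Sum.inl (segNear s) ∨ v = Sum.inl (segFar s) ∨ ∃ c ∈ L s, v = Sum.inr c := by
  -- the tail from the node `i`
  have key : ∀ n i, i + n = (L s).length → ∃ U,
      WPath f (node s (L s) i) (Sum.inl (segFar s)) ((L s).drop i) U ∧
      ∀ v ∈ U, ∃ j, i ≤ j ∧ j ≤ (L s).length ∧ v = node s (L s) j := by
    intro n
    induction n with
    | zero =>
      intro i hi
      have hi' : i = (L s).length := by omega
      subst hi'
      rw [node_last s (List.ne_nil_of_mem (h.mem_last hs)), List.drop_length]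
      refine ⟨_, WPath.nil _, ?_⟩
      rintro v rfl
      exact ⟨_, le_rfl, le_rfl, (node_last s (List.ne_nil_of_mem (h.mem_last hs))).symm⟩
    | succ n ih =>
      intro i hi
      obtain ⟨U, hU, hU2⟩ := ih (i + 1) (by omega)
      have hi' : i < (L s).length := by omega
      rw [List.drop_eq_getElem_cons hi']
      refine ⟨_, WPath.cons (h.end_eq s hs i hi') ?_ hU, ?_⟩
      · intro hv
        obtain ⟨j, hj1, hj2, hj3⟩ := hU2 _ hv
        exact node_ne s (h.nodup s hs) (show i < j by omega) hj2 hj3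
      · rintro v (rfl | hv)
        · exact ⟨i, le_rfl, hi'.le, rfl⟩
        · obtain ⟨j, hj1, hj2, hj3⟩ := hU2 _ hv
          exact ⟨j, by omega, hj2, hj3⟩
  obtain ⟨U, hU, hU2⟩ := key (L s).length 0 (by omega)
  rw [node_zero, List.drop_zero] at hU
  refine ⟨U, hU, fun v hv => ?_⟩
  obtain ⟨j, -, hj2, rfl⟩ := hU2 v hv
  exact node_cases s (List.ne_nil_of_mem (h.mem_last hs)) hj2

/-- **Paths of rows.** -/
theorem GSide.longPath (h : GSide M S L f e u) {p p' : ℕ × ℕ} {ls : List (Bool × ℕ × ℕ)}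
    {U : Set (ℕ × ℕ)} (hp : WPath sgE p p' ls U) (hls : ∀ s ∈ ls, s ∈ S) :
    ∃ l U', WPath f (Sum.inl p) (Sum.inl p') l U' ∧
      (∀ x, x ∈ l ↔ ∃ s ∈ ls, x ∈ L s) ∧
      (∀ v ∈ U', (∃ q ∈ U, v = Sum.inl q) ∨ ∃ s ∈ ls, ∃ c ∈ L s, v = Sum.inr c) ∧
      ∀ s, ls.getLast? = some s → p' = segFar s → l.getLast? = some (e s) := by
  induction hp with
  | nil v => exact ⟨[], _, WPath.nil _, by simp, fun z hz => Or.inl ⟨v, rfl, hz⟩, by simp⟩
  | @cons a b c s ls U h1 h2 h3 ih =>
    obtain ⟨l, U', k1, k2, k3, k4⟩ := ih fun t ht => hls t (List.mem_cons_of_mem _ ht)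
    have hs : s ∈ S := hls s (List.mem_cons_self)
    obtain ⟨W, w1, w2⟩ := h.rowPath hs
    have hsls : s ∉ ls := fun hs' => h2 (h3.ends_mem s hs' a (by
      rw [h1]; exact Sym2.mem_mk_left _ _))
    -- the disjointness
    have hdj : ∀ z ∈ W, z ∈ U' → z = Sum.inl b := by
      intro z hz hz'
      have haz : z = Sum.inl a ∨ z = Sum.inl b ∨ ∃ c ∈ L s, z = Sum.inr c := by
        unfold sgE at h1
        rw [Sym2.eq_iff] at h1
        rcases w2 z hz with h4 | h4 | h4
        · rcases h1 with ⟨h5, h6⟩ | ⟨h5, h6⟩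
          · exact Or.inl (by rw [h4, h5])
          · exact Or.inr (Or.inl (by rw [h4, h5]))
        · rcases h1 with ⟨h5, h6⟩ | ⟨h5, h6⟩
          · exact Or.inr (Or.inl (by rw [h4, h6]))
          · exact Or.inl (by rw [h4, h6])
        · exact Or.inr (Or.inr h4)
      rcases haz with h4 | h4 | ⟨y, hy, h4⟩
      · rcases k3 z hz' with ⟨q, hq, h5⟩ | ⟨t, ht, d, hd, h5⟩
        · rw [h4, Sum.inl.injEq] at h5
          exact absurd (h5 ▸ hq) h2
        · rw [h4] at h5
          simp at h5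
      · exact h4
      · rcases k3 z hz' with ⟨q, hq, h5⟩ | ⟨t, ht, d, hd, h5⟩
        · rw [h4] at h5
          simp at h5
        · rw [h4, Sum.inr.injEq] at h5
          subst h5
          have := h.uniq hs (hls t (List.mem_cons_of_mem _ ht)) hy hd
          exact absurd (this ▸ ht) hsls
    have hlast : ∀ t, (s :: ls).getLast? = some t → c = segFar t →
        (ls = [] ∧ t = s) ∨ ls ≠ [] ∧ ls.getLast? = some t := by
      intro t ht _
      rcases ls with _ | ⟨r, ls⟩
      · left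
        simp only [List.getLast?_singleton, Option.some.injEq] at ht
        exact ⟨rfl, ht.symm⟩
      · right
        rw [List.getLast?_cons_cons] at ht
        exact ⟨by simp, ht⟩
    unfold sgE at h1
    rw [Sym2.eq_iff] at h1
    have hmem : ∀ (r : List α), (∀ x, x ∈ r ↔ x ∈ L s) → ∀ x, x ∈ r ++ l ↔
        ∃ t ∈ s :: ls, x ∈ L t := by
      intro r hr x
      rw [List.mem_append, hr, k2]
      constructor
      · rintro (h4 | ⟨t, ht, h4⟩)
        · exact ⟨s, List.mem_cons_self, h4⟩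
        · exact ⟨t, List.mem_cons_of_mem _ ht, h4⟩
      · rintro ⟨t, ht, h4⟩
        rcases List.mem_cons.1 ht with rfl | ht
        · exact Or.inl h4
        · exact Or.inr ⟨t, ht, h4⟩
    have hlne : ls ≠ [] → l ≠ [] := by
      intro hne hl
      obtain ⟨t, ht⟩ := List.exists_mem_of_ne_nil ls hne
      have h5 := (k2 (e t)).2 ⟨t, ht, h.mem_last (hls t (List.mem_cons_of_mem _ ht))⟩
      rw [hl] at h5
      simp at h5
    rcases h1 with ⟨h5, h6⟩ | ⟨h5, h6⟩
    · rw [h5, h6] at w1
      refine ⟨L s ++ l, W ∪ U', w1.append k1 hdj, hmem _ (fun x => Iff.rfl), ?_, ?_⟩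
      · rintro v (hv | hv)
        · rcases w2 v hv with h4 | h4 | ⟨d, hd, h4⟩
          · exact Or.inl ⟨a, Or.inl rfl, by rw [h4, h5]⟩
          · exact Or.inl ⟨b, Or.inr h3.start, by rw [h4, h6]⟩
          · exact Or.inr ⟨s, List.mem_cons_self, d, hd, h4⟩
        · rcases k3 v hv with ⟨q, hq, h4⟩ | ⟨t, ht, h4⟩
          · exact Or.inl ⟨q, Or.inr hq, h4⟩
          · exact Or.inr ⟨t, List.mem_cons_of_mem _ ht, h4⟩
      · intro t ht hc
        rcases hlast t ht hc with ⟨h7, h8⟩ | ⟨h7, h8⟩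
        · subst h8
          have h9 : l = [] := by
            rcases List.eq_nil_or_concat l with h9 | ⟨l', y, h9⟩
            · exact h9
            · have := (k2 y).1 (by rw [h9]; simp)
              rw [h7] at this
              simp at this
          rw [h9, List.append_nil]
          exact h.last t hs
        · rw [List.getLast?_append_of_ne_nil _ (hlne h7)]
          exact k4 t h8 hc
    · rw [h5, h6] at w1
      refine ⟨(L s).reverse ++ l, W ∪ U', w1.reverse.append k1 hdj,
        hmem _ (fun x => List.mem_reverse), ?_, ?_⟩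
      · rintro v (hv | hv)
        · rcases w2 v hv with h4 | h4 | ⟨d, hd, h4⟩
          · exact Or.inl ⟨b, Or.inr h3.start, by rw [h4, h5]⟩
          · exact Or.inl ⟨a, Or.inl rfl, by rw [h4, h6]⟩
          · exact Or.inr ⟨s, List.mem_cons_self, d, hd, h4⟩
        · rcases k3 v hv with ⟨q, hq, h4⟩ | ⟨t, ht, h4⟩
          · exact Or.inl ⟨q, Or.inr hq, h4⟩
          · exact Or.inr ⟨t, List.mem_cons_of_mem _ ht, h4⟩
      · intro t ht hc
        rcases hlast t ht hc with ⟨h7, h8⟩ | ⟨h7, h8⟩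
        · subst h8
          exfalso
          apply h2
          rw [← h6, ← hc]
          exact h3.fin
        · rw [List.getLast?_append_of_ne_nil _ (hlne h7)]
          exact k4 t h8 hc

/-- **Relabelling along paths.** -/
theorem lift_paths {V : Type*} {g : α → Sym2 V} {R : Set α} (hl : Lift M R g u)
    {S' : Set (Bool × ℕ × ℕ)} {L' : Bool × ℕ × ℕ → List α} {ν : Bool × ℕ × ℕ → ℕ → V}
    {e' : Bool × ℕ × ℕ → α}
    (hnd : ∀ s ∈ S', (L' s).Nodup)
    (hdj : ∀ s ∈ S', ∀ s' ∈ S', s ≠ s' → (L' s).Disjoint (L' s'))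
    (hsub : crr L' S' ⊆ R)
    (hend : ∀ s ∈ S', ∀ (i : ℕ) (h : i < (L' s).length), g (L' s)[i] = s(ν s i, ν s (i + 1)))
    (hlast : ∀ s ∈ S', (L' s).getLast? = some (e' s))
    (hν : ∀ s ∈ S', ∀ i ≤ (L' s).length, ∀ s' ∈ S', ∀ i' ≤ (L' s').length,
      ν s i = ν s' i' ↔ node s (L' s) i = node s' (L' s') i') :
    ∃ f', GSide M S' L' f' e' u := by
  classical
  -- the relabelling
  set q : V → (ℕ × ℕ) ⊕ α := fun v =>
    if h : ∃ s ∈ S', ∃ i ≤ (L' s).length, ν s i = v then
      node h.choose (L' h.choose) h.choose_spec.2.choose else Sum.inl (0, 0) with hq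
  have hqν : ∀ s ∈ S', ∀ i ≤ (L' s).length, q (ν s i) = node s (L' s) i := by
    intro s hs i hi
    have h1 : ∃ s' ∈ S', ∃ i' ≤ (L' s').length, ν s' i' = ν s i := ⟨s, hs, i, hi, rfl⟩
    simp only [hq, dif_pos h1]
    exact (hν _ h1.choose_spec.1 _ h1.choose_spec.2.choose_spec.1 s hs i hi).1
      h1.choose_spec.2.choose_spec.2
  refine ⟨fun x => (g x).map q, hnd, hdj, ?_, ?_, hlast⟩
  · intro s hs i hi
    rw [hend s hs i hi, Sym2.map_mk, hqν s hs i hi.le, hqν s hs (i + 1) hi]
  · refine (hl.subset hsub).map q ?_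
    have hv : ∀ v ∈ {v | ∃ x ∈ crr L' S', v ∈ g x}, ∃ s ∈ S', ∃ i ≤ (L' s).length, v = ν s i := by
      rintro v ⟨x, ⟨s, hs, hx⟩, hvx⟩
      obtain ⟨i, hi, rfl⟩ := List.mem_iff_getElem.1 hx
      rw [hend s hs i hi, Sym2.mem_iff] at hvx
      rcases hvx with h1 | h1
      · exact ⟨s, hs, i, hi.le, h1⟩
      · exact ⟨s, hs, i + 1, hi, h1⟩
    intro v hv1 w hw1 hvw
    obtain ⟨s, hs, i, hi, rfl⟩ := hv v hv1
    obtain ⟨s', hs', i', hi', rfl⟩ := hv w hw1
    rw [hqν s hs i hi, hqν s' hs' i' hi'] at hvw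
    exact (hν s hs i hi s' hs' i' hi').2 hvw

/-- **Coarse sides.**  The segments `S'` are routed along paths of rows. -/
theorem GSide.coarse (h : GSide M S L f e u) {S' : Set (Bool × ℕ × ℕ)} {β : ℕ × ℕ → ℕ × ℕ}
    {P : Bool × ℕ × ℕ → List (Bool × ℕ × ℕ)} {U : Bool × ℕ × ℕ → Set (ℕ × ℕ)}
    {z : Bool × ℕ × ℕ → Bool × ℕ × ℕ}
    (hP : ∀ s ∈ S', WPath sgE (β (segNear s)) (β (segFar s)) (P s) (U s))
    (hPS : ∀ s ∈ S', ∀ t ∈ P s, t ∈ S)
    (hz : ∀ s ∈ S', (P s).getLast? = some (z s) ∧ segFar (z s) = β (segFar s))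
    (hβ : ∀ s ∈ S', ∀ s' ∈ S', ∀ p ∈ sgE s, ∀ p' ∈ sgE s', β p = β p' → p = p')
    (hU : ∀ s ∈ S', ∀ s' ∈ S', s ≠ s' → ∀ v ∈ U s, v ∈ U s' →
      (∃ p ∈ sgE s, v = β p) ∧ ∃ p ∈ sgE s', v = β p) :
    ∃ (L' : Bool × ℕ × ℕ → List α) (f' : α → Sym2 ((ℕ × ℕ) ⊕ α)),
      GSide M S' L' f' (fun s => e (z s)) u ∧ ∀ s ∈ S', ∀ x, x ∈ L' s ↔ ∃ t ∈ P s, x ∈ L t := by
  classical
  have H := fun s (hs : s ∈ S') => h.longPath (hP s hs) (hPS s hs)
  choose! L' W k1 k2 k3 k4 using H
  have H2 := fun s (hs : s ∈ S') => (k1 s hs).nodes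
  choose! ν n1 n2 n3 n4 n5 using H2
  -- different segments use different rows
  have hrow : ∀ s ∈ S', ∀ s' ∈ S', s ≠ s' → ∀ t, t ∈ P s → t ∈ P s' → False := by
    intro s hs s' hs' hne t ht ht'
    have e1 := (hP s hs).ends_mem t ht
    have e2 := (hP s' hs').ends_mem t ht'
    have hn : segNear t ∈ sgE t := Sym2.mem_mk_left _ _
    have hf : segFar t ∈ sgE t := Sym2.mem_mk_right _ _
    obtain ⟨⟨p, hp, hp'⟩, -⟩ := hU s hs s' hs' hne _ (e1 _ hn) (e2 _ hn)
    obtain ⟨⟨r, hr, hr'⟩, -⟩ := hU s hs s' hs' hne _ (e1 _ hf) (e2 _ hf)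
    obtain ⟨-, ⟨p2, hp2, hp2'⟩⟩ := hU s hs s' hs' hne _ (e1 _ hn) (e2 _ hn)
    obtain ⟨-, ⟨r2, hr2, hr2'⟩⟩ := hU s hs s' hs' hne _ (e1 _ hf) (e2 _ hf)
    have hpp : p = p2 := hβ s hs s' hs' p hp p2 hp2 (hp'.symm.trans hp2')
    have hrr : r = r2 := hβ s hs s' hs' r hr r2 hr2 (hr'.symm.trans hr2')
    subst hpp hrr
    have hpr : p ≠ r := by
      intro h4
      rw [h4, ← hr'] at hp'
      exact T2.near_ne_far t hp'
    have h5 : sgE s = s(p, r) := (Sym2.mem_and_mem_iff hpr).1 ⟨hp, hr⟩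
    have h6 : sgE s' = s(p, r) := (Sym2.mem_and_mem_iff hpr).1 ⟨hp2, hr2⟩
    exact hne (seg_ext (h5.trans h6.symm))
  have hne : ∀ s ∈ S', L' s ≠ [] := by
    intro s hs h4
    obtain ⟨h5, h6⟩ := hz s hs
    have h7 := k4 s hs _ h5 h6.symm
    rw [h4] at h7
    simp at h7
  refine ⟨L', ?_⟩
  suffices hsuf : ∃ f', GSide M S' L' f' (fun s => e (z s)) u by
    obtain ⟨f', hf'⟩ := hsuf
    exact ⟨f', hf', fun s hs => k2 s hs⟩
  refine lift_paths (ν := ν) h.lift (fun s hs => (k1 s hs).nodup) ?_ ?_ (fun s hs => n3 s hs) ?_ ?_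
  · intro s hs s' hs' hss
    rw [List.disjoint_left]
    intro x hx hx'
    obtain ⟨t, ht, hxt⟩ := (k2 s hs x).1 hx
    obtain ⟨t', ht', hxt'⟩ := (k2 s' hs' x).1 hx'
    have := h.uniq (hPS s hs t ht) (hPS s' hs' t' ht') hxt hxt'
    subst this
    exact hrow s hs s' hs' hss t ht ht'
  · rintro x ⟨s, hs, hx⟩
    obtain ⟨t, ht, hxt⟩ := (k2 s hs x).1 hx
    exact ⟨t, hPS s hs t ht, hxt⟩
  · intro s hs
    obtain ⟨h5, h6⟩ := hz s hs
    exact k4 s hs _ h5 h6.symm
  · -- the nodes
    -- inner nodes belong to one segment only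
    have hpos : ∀ s ∈ S', 0 < (L' s).length := fun s hs => List.length_pos_iff.2 (hne s hs)
    have hinn : ∀ s ∈ S', ∀ i ≤ (L' s).length, ∀ s' ∈ S', ∀ i' ≤ (L' s').length, s ≠ s' →
        ν s i = ν s' i' → (i = 0 ∨ i = (L' s).length) ∧ (i' = 0 ∨ i' = (L' s').length) := by
      intro s hs i hi s' hs' i' hi' hss hνν
      have h5 := k3 s hs _ (n5 s hs i hi)
      have h6 := k3 s' hs' _ (n5 s' hs' i' hi')
      rcases h5 with ⟨p, hp, h5⟩ | ⟨t, ht, c, hc, h5⟩
      · rcases h6 with ⟨p', hp', h6⟩ | ⟨t', ht', c', hc', h6⟩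
        · have h7 : p = p' := by
            have := h5.symm.trans (hνν.trans h6)
            simpa using this
          subst h7
          obtain ⟨⟨r, hr, hr'⟩, ⟨r2, hr2, hr2'⟩⟩ := hU s hs s' hs' hss p hp hp'
          constructor
          · rw [hr'] at h5
            unfold sgE at hr
            rw [Sym2.mem_iff] at hr
            rcases hr with rfl | rfl
            · left
              exact n4 s hs i hi 0 (by omega) (by rw [h5, n1 s hs])
            · right
              exact n4 s hs i hi _ le_rfl (by rw [h5, n2 s hs])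
          · rw [hr2'] at h6
            unfold sgE at hr2
            rw [Sym2.mem_iff] at hr2
            rcases hr2 with rfl | rfl
            · left
              exact n4 s' hs' i' hi' 0 (by omega) (by rw [h6, n1 s' hs'])
            · right
              exact n4 s' hs' i' hi' _ le_rfl (by rw [h6, n2 s' hs'])
        · have := h5.symm.trans (hνν.trans h6)
          simp at this
      · rcases h6 with ⟨p', hp', h6⟩ | ⟨t', ht', c', hc', h6⟩
        · have := h5.symm.trans (hνν.trans h6)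
          simp at this
        · have h7 := h5.symm.trans (hνν.trans h6)
          rw [Sum.inr.injEq] at h7
          subst h7
          have := h.uniq (hPS s hs t ht) (hPS s' hs' t' ht') hc hc'
          subst this
          exact (hrow s hs s' hs' hss t ht ht').elim
    have hinn2 : ∀ s ∈ S', ∀ i ≤ (L' s).length, ∀ s' ∈ S', ∀ i' ≤ (L' s').length, s ≠ s' →
        node s (L' s) i = node s' (L' s') i' →
        (i = 0 ∨ i = (L' s).length) ∧ (i' = 0 ∨ i' = (L' s').length) := by
      intro s hs i hi s' hs' i' hi' hss hνν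
      rcases node_cases' s hi rfl with ⟨h1, h2⟩ | ⟨h1, h2⟩ | ⟨h1, h2, h3⟩ <;>
        rcases node_cases' s' hi' rfl with ⟨h1', h2'⟩ | ⟨h1', h2'⟩ | ⟨h1', h2', h3'⟩
      · exact ⟨Or.inl h1, Or.inl h1'⟩
      · exact ⟨Or.inl h1, Or.inr h1'⟩
      · rw [h2, h3'] at hνν
        simp at hνν
      · exact ⟨Or.inr h1, Or.inl h1'⟩
      · exact ⟨Or.inr h1, Or.inr h1'⟩
      · rw [h2, h3'] at hνν
        simp at hνν
      · rw [h3, h2'] at hνν
        simp at hνν
      · rw [h3, h2'] at hνν
        simp at hνν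
      · rw [h3, h3', Sum.inr.injEq] at hνν
        exfalso
        have g1 : (L' s)[i - 1] ∈ L' s := List.getElem_mem _
        have g2 : (L' s)[i - 1] ∈ L' s' := by rw [hνν]; exact List.getElem_mem _
        obtain ⟨t, ht, hxt⟩ := (k2 s hs _).1 g1
        obtain ⟨t', ht', hxt'⟩ := (k2 s' hs' _).1 g2
        have := h.uniq (hPS s hs t ht) (hPS s' hs' t' ht') hxt hxt'
        subst this
        exact hrow s hs s' hs' hss t ht ht'
    -- the ends
    have hcor : ∀ s ∈ S', ∀ i, i = 0 ∨ i = (L' s).length → ∃ p ∈ sgE s,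
        ν s i = Sum.inl (β p) ∧ node s (L' s) i = Sum.inl p := by
      rintro s hs i (rfl | rfl)
      · exact ⟨_, Sym2.mem_mk_left _ _, n1 s hs, node_zero s _⟩
      · exact ⟨_, Sym2.mem_mk_right _ _, n2 s hs, node_last s (hne s hs)⟩
    intro s hs i hi s' hs' i' hi'
    by_cases hss : s = s'
    · subst hss
      constructor
      · intro h5
        rw [n4 s hs i hi i' hi' h5]
      · intro h5
        rw [node_inj s (k1 s hs).nodup hi hi' h5]
    · constructor
      · intro h5
        obtain ⟨h6, h7⟩ := hinn s hs i hi s' hs' i' hi' hss h5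
        obtain ⟨p, hp, p1, p2⟩ := hcor s hs i h6
        obtain ⟨p', hp', p1', p2'⟩ := hcor s' hs' i' h7
        rw [p2, p2']
        rw [p1, p1', Sum.inl.injEq] at h5
        rw [hβ s hs s' hs' p hp p' hp' h5]
      · intro h5
        obtain ⟨h6, h7⟩ := hinn2 s hs i hi s' hs' i' hi' hss h5
        obtain ⟨p, hp, p1, p2⟩ := hcor s hs i h6
        obtain ⟨p', hp', p1', p2'⟩ := hcor s' hs' i' h7
        rw [p1, p1']
        rw [p2, p2', Sum.inl.injEq] at h5
        rw [h5]

end

end CWL
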