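import Pool.Agent.CW.GSide
import Pool.Agent.CW.PairEx

/-!
# Isoperimetry of the brick wall (elements)

A separation of order `≤ q` of a bicircular matroid of the brick wall of side `y` has a side with
at most `cW q` elements.
-/

open Set BIC BICS
open scoped Matroid

namespace CWL

universe u

/-! ### Part 1: colourings of the segments with few mixed vertices -/

/-- the vertices of the wall -/
def wV (y : ℕ) : Finset (ℕ × ℕ) := Finset.range (y + 1) ×ˢ Finset.range (y + 1)

lemma mem_wV {y : ℕ} {v : ℕ × ℕ} : v ∈ wV y ↔ v.1 ≤ y ∧ v.2 ≤ y := by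
  simp only [wV, Finset.mem_product, Finset.mem_range]
  omega

/-- `v` is an end of `σ` -/
def At (v : ℕ × ℕ) (σ : Bool × ℕ × ℕ) : Prop := v = segNear σ ∨ v = segFar σ

instance (v : ℕ × ℕ) (σ : Bool × ℕ × ℕ) : Decidable (At v σ) := by unfold At; infer_instance

/-- a vertex with segments of both colours -/
def Mixed (y : ℕ) (c : Bool × ℕ × ℕ → Prop) (v : ℕ × ℕ) : Prop :=
  (∃ σ ∈ Seg y, At v σ ∧ c σ) ∧ ∃ σ ∈ Seg y, At v σ ∧ ¬ c σ

lemma at_of_not_mixed {y : ℕ} {c : Bool × ℕ × ℕ → Prop} {v : ℕ × ℕ} (h : ¬ Mixed y c v)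
    {σ τ : Bool × ℕ × ℕ} (hσ : σ ∈ Seg y) (hτ : τ ∈ Seg y) (h1 : At v σ) (h2 : At v τ) :
    c σ ↔ c τ := by
  by_contra hcon
  by_cases hc : c σ
  · exact h ⟨⟨σ, hσ, h1, hc⟩, ⟨τ, hτ, h2, fun h => hcon ⟨fun _ => h, fun _ => hc⟩⟩⟩
  · have hc2 : c τ := by
      by_contra h3
      exact hcon ⟨fun h4 => absurd h4 hc, fun h4 => absurd h4 h3⟩
    exact h ⟨⟨τ, hτ, h2, hc2⟩, ⟨σ, hσ, h1, hc⟩⟩

/-- A colouring of the wall with at most `m` mixed vertices is nearly constant. -/
theorem wall_colour {y m : ℕ} (c : Bool × ℕ × ℕ → Prop) (D : Finset (ℕ × ℕ)) (hD : D.card ≤ m)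
    (hmix : ∀ v ∈ wV y, Mixed y c v → v ∈ D) :
    {σ ∈ Seg y | c σ}.ncard ≤ 8 * (m + 1) ^ 2 ∨ {σ ∈ Seg y | ¬ c σ}.ncard ≤ 8 * (m + 1) ^ 2 := by
  classical
  have hSf : (Seg y).Finite := seg_finite y
  by_cases hy : y < 2 * m + 1
  · left
    have h1 := seg_ncard y
    have h2 : {σ ∈ Seg y | c σ}.ncard ≤ (Seg y).ncard := ncard_le_ncard (fun σ hσ => hσ.1) hSf
    have h3 : (y + 1) ^ 2 ≤ (2 * (m + 1)) ^ 2 := Nat.pow_le_pow_left (by omega) 2
    have h4 : (2 * (m + 1)) ^ 2 = 4 * (m + 1) ^ 2 := by ring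
    omega
  rw [not_lt] at hy
  set DZ : Finset ℕ := D.image Prod.snd with hDZ
  set DP : Finset ℕ := D.image (fun v => v.1 / 2) with hDP
  have cZ : DZ.card ≤ m := Finset.card_image_le.trans hD
  have cP : DP.card ≤ m := Finset.card_image_le.trans hD
  -- clean levels
  have lev : ∀ z ≤ y, z ∉ DZ → ∀ v, v ∈ wV y → v.2 = z → ¬ Mixed y c v := by
    intro z hz hzD v hv hvz hm
    exact hzD (Finset.mem_image.2 ⟨v, hmix v hv hm, hvz⟩)
  have par : ∀ p, p ∉ DP → ∀ v, v ∈ wV y → v.1 / 2 = p → ¬ Mixed y c v := by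
    intro p hp v hv hvp hm
    exact hp (Finset.mem_image.2 ⟨v, hmix v hv hm, hvp⟩)
  have hH : ∀ x z, x < y → z ≤ y → (true, x, z) ∈ Seg y := fun x z hx hz => Or.inl ⟨rfl, hx, hz⟩
  have hVm : ∀ x z, x ≤ y → z < y → (x + z) % 2 = 0 → (false, x, z) ∈ Seg y :=
    fun x z hx hz hp => Or.inr ⟨rfl, hx, hz, hp⟩
  have lev0 : ∀ z ≤ y, z ∉ DZ → ∀ x < y, (c (true, x, z) ↔ c (true, 0, z)) := by
    intro z hz hzD x
    induction x with
    | zero => intro _; exact Iff.rfl
    | succ x ih =>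
      intro hx
      rw [← ih (by omega)]
      refine at_of_not_mixed (lev z hz hzD (x + 1, z) (mem_wV.2 ⟨by simp only; omega, hz⟩) rfl)
        (hH _ _ hx hz) (hH _ _ (by omega) hz) (Or.inl rfl) (Or.inr ?_)
      simp [segFar]
  have lev1 : ∀ z ≤ y, z ∉ DZ → ∀ v, v ∈ wV y → v.2 = z → ∀ σ ∈ Seg y, At v σ →
      (c σ ↔ c (true, 0, z)) := by
    intro z hz hzD v hv hvz σ hσ hvσ
    have hv' := mem_wV.1 hv
    by_cases h1 : v.1 < y
    · rw [← lev0 z hz hzD v.1 h1]
      refine at_of_not_mixed (lev z hz hzD v hv hvz) hσ (hH _ _ h1 hz) hvσ (Or.inl ?_)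
      rw [← hvz]; rfl
    · rw [← lev0 z hz hzD (v.1 - 1) (by omega)]
      refine at_of_not_mixed (lev z hz hzD v hv hvz) hσ (hH _ _ (by omega) hz) hvσ (Or.inr ?_)
      refine Prod.ext ?_ ?_
      · simp only [segFar, if_true]; omega
      · simp only [segFar, if_true]; exact hvz
  -- clean pairs of columns
  have par0 : ∀ p, 2 * p + 1 ≤ y → p ∉ DP → ∀ z ≤ y, (c (true, 2 * p, z) ↔ c (true, 2 * p, 0)) := by
    intro p hp hpD z
    induction z with
    | zero => intro _; exact Iff.rfl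
    | succ z ih =>
      intro hz
      rw [← ih (by omega)]
      have hV : (false, 2 * p + z % 2, z) ∈ Seg y := hVm _ _ (by omega) (by omega) (by omega)
      have h1 : c (true, 2 * p, z + 1) ↔ c (false, 2 * p + z % 2, z) := by
        refine at_of_not_mixed (v := (2 * p + z % 2, z + 1)) (par p hpD _
          (mem_wV.2 ⟨by simp only; omega, hz⟩) (by simp only; omega)) (hH _ _ (by omega) hz) hV ?_
          (Or.inr (by simp [segFar]))
        rcases Nat.mod_two_eq_zero_or_one z with h | h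
        · exact Or.inl (by rw [h]; rfl)
        · exact Or.inr (by rw [h]; simp [segFar])
      have h2 : c (true, 2 * p, z) ↔ c (false, 2 * p + z % 2, z) := by
        refine at_of_not_mixed (v := (2 * p + z % 2, z)) (par p hpD _
          (mem_wV.2 ⟨by simp only; omega, by simp only; omega⟩) (by simp only; omega))
          (hH _ _ (by omega) (by omega)) hV ?_ (Or.inl rfl)
        rcases Nat.mod_two_eq_zero_or_one z with h | h
        · exact Or.inl (by rw [h]; rfl)
        · exact Or.inr (by rw [h]; simp [segFar])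
      rw [h1, h2]
  have par1 : ∀ p, 2 * p + 1 ≤ y → p ∉ DP → ∀ v, v ∈ wV y → v.1 / 2 = p → ∀ σ ∈ Seg y, At v σ →
      (c σ ↔ c (true, 2 * p, 0)) := by
    intro p hp hpD v hv hvp σ hσ hvσ
    have hv' := mem_wV.1 hv
    rw [← par0 p hp hpD v.2 hv'.2]
    refine at_of_not_mixed (par p hpD v hv hvp) hσ (hH _ _ (by omega) hv'.2) hvσ ?_
    rcases Nat.mod_two_eq_zero_or_one v.1 with h | h
    · exact Or.inl (Prod.ext (by simp only [segNear]; omega) rfl)
    · exact Or.inr (Prod.ext (by simp only [segFar, if_true]; omega) rfl)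
  -- a clean level and a clean pair exist
  obtain ⟨z₀, hz₀, hz₀D⟩ : ∃ z ≤ y, z ∉ DZ := by
    by_contra hcon
    push Not at hcon
    have h1 : Finset.range (y + 1) ⊆ DZ := fun z hz => hcon z (by
      rw [Finset.mem_range] at hz; omega)
    have h2 := Finset.card_le_card h1
    rw [Finset.card_range] at h2
    omega
  obtain ⟨p₀, hp₀, hp₀D⟩ : ∃ p, 2 * p + 1 ≤ y ∧ p ∉ DP := by
    by_contra hcon
    push Not at hcon
    have h1 : Finset.range (m + 1) ⊆ DP := fun z hz => hcon z (by
      rw [Finset.mem_range] at hz; omega)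
    have h2 := Finset.card_le_card h1
    rw [Finset.card_range] at h2
    omega
  set c₀ : Prop := c (true, 2 * p₀, 0) with hc₀
  have levC : ∀ z ≤ y, z ∉ DZ → (c (true, 0, z) ↔ c₀) := by
    intro z hz hzD
    rw [hc₀, ← par0 p₀ hp₀ hp₀D z hz]
    exact (lev0 z hz hzD (2 * p₀) (by omega)).symm
  have parC : ∀ p, 2 * p + 1 ≤ y → p ∉ DP → (c (true, 2 * p, 0) ↔ c₀) := by
    intro p hp hpD
    rw [← par0 p hp hpD z₀ hz₀, lev0 z₀ hz₀ hz₀D (2 * p) (by omega), levC z₀ hz₀ hz₀D]
  have wrong : ∀ σ ∈ Seg y, ¬ (c σ ↔ c₀) → σ.2.2 ∈ DZ ∧ (σ.2.1 / 2 ∈ DP ∨ σ.2.1 / 2 = y / 2) := by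
    intro σ hσ hne
    have hv : segNear σ ∈ wV y := by
      rw [mem_wV]
      exact ⟨(seg_ends hσ).1, (seg_ends hσ).2.1⟩
    have hv' := mem_wV.1 hv
    refine ⟨?_, ?_⟩
    · by_contra h
      apply hne
      rw [lev1 σ.2.2 hv'.2 h (segNear σ) hv rfl σ hσ (Or.inl rfl)]
      exact levC _ hv'.2 h
    · by_contra h
      push Not at h
      apply hne
      have h1 : σ.2.1 ≤ y := hv'.1
      have h3 : 2 * (σ.2.1 / 2) + 1 ≤ y := by omega
      rw [par1 (σ.2.1 / 2) h3 h.1 (segNear σ) hv rfl σ hσ (Or.inl rfl)]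
      exact parC _ h3 h.1
  have cnt : ∀ T : Set (Bool × ℕ × ℕ), T ⊆ Seg y → (∀ σ ∈ T, ¬ (c σ ↔ c₀)) →
      T.ncard ≤ 8 * (m + 1) ^ 2 := by
    intro T hT hne
    set XX : Finset ℕ := (insert (y / 2) DP).biUnion (fun p => {2 * p, 2 * p + 1}) with hXX
    have cX : XX.card ≤ 2 * (m + 1) := by
      refine (Finset.card_biUnion_le_card_mul _ _ 2 fun p _ => Finset.card_le_two).trans ?_
      have := Finset.card_insert_le (y / 2) DP
      rw [mul_comm]
      exact Nat.mul_le_mul_left 2 (by omega)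
    have h1 : T ⊆ ((({true, false} : Finset Bool) ×ˢ (XX ×ˢ DZ) : Finset (Bool × ℕ × ℕ)) :
        Set (Bool × ℕ × ℕ)) := by
      intro σ hσ
      obtain ⟨g1, g2⟩ := wrong σ (hT hσ) (hne σ hσ)
      rw [Finset.mem_coe, Finset.mem_product, Finset.mem_product]
      refine ⟨by cases σ.1 <;> simp, ?_, g1⟩
      rw [hXX, Finset.mem_biUnion]
      refine ⟨σ.2.1 / 2, Finset.mem_insert.2 (by tauto), ?_⟩
      rw [Finset.mem_insert, Finset.mem_singleton]
      omega
    have h2 := Set.ncard_le_ncard h1 (Finset.finite_toSet _)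
    rw [Set.ncard_coe_finset, Finset.card_product, Finset.card_product] at h2
    have h3 : ({true, false} : Finset Bool).card ≤ 2 := Finset.card_le_two
    have h4 : ({true, false} : Finset Bool).card * (XX.card * DZ.card) ≤
        2 * (2 * (m + 1) * (m + 1)) := by
      refine Nat.mul_le_mul h3 (Nat.mul_le_mul cX (by omega))
    have h5 : 2 * (2 * (m + 1) * (m + 1)) = 4 * (m + 1) ^ 2 := by ring
    omega
  by_cases hcc : c₀
  · right
    exact cnt _ (fun σ hσ => hσ.1) (fun σ hσ h => hσ.2 (h.2 hcc))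
  · left
    exact cnt _ (fun σ hσ => hσ.1) (fun σ hσ h => hcc (h.1 hσ.2))

/-! ### Part 2: the wall without a sparse set of segments is connected -/

/-- the segments of one class: `b`, `x mod 3`, `z mod 2`, without the three pendant segments -/
def cls (y : ℕ) (t : Bool × ℕ × ℕ) : Set (Bool × ℕ × ℕ) :=
  {σ | σ ∈ Seg y ∧ σ.1 = t.1 ∧ σ.2.1 % 3 = t.2.1 ∧ σ.2.2 % 2 = t.2.2 ∧
    σ ≠ (true, y - 1, 0) ∧ σ ≠ (true, 0, y) ∧ σ ≠ (true, y - 1, y)}

section conn

variable {α : Type*} {y : ℕ} {e : Bool × ℕ × ℕ → α} {ends : α → Sym2 (ℕ × ℕ)}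

/-- the relation of the wall without the segments of `F` -/
def WR (y : ℕ) (F : Set (Bool × ℕ × ℕ)) (u v : ℕ × ℕ) : Prop :=
  ∃ σ ∈ Seg y, σ ∉ F ∧ ((segNear σ = u ∧ segFar σ = v) ∨ (segNear σ = v ∧ segFar σ = u))

lemma WR.symm {F : Set (Bool × ℕ × ℕ)} {u v : ℕ × ℕ} (h : WR y F u v) : WR y F v u := by
  obtain ⟨σ, h1, h2, h3⟩ := h
  exact ⟨σ, h1, h2, h3.symm⟩

/-- linked -/
abbrev Lk (y : ℕ) (F : Set (Bool × ℕ × ℕ)) : ℕ × ℕ → ℕ × ℕ → Prop :=
  Relation.ReflTransGen (WR y F)

lemma Lk.symm {F : Set (Bool × ℕ × ℕ)} {u v : ℕ × ℕ} (h : Lk y F u v) : Lk y F v u := by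
  induction h with
  | refl => exact Relation.ReflTransGen.refl
  | tail _ h1 ih => exact Relation.ReflTransGen.head h1.symm ih

/-- `σ` can be bypassed -/
def Okk (y : ℕ) (F : Set (Bool × ℕ × ℕ)) (σ : Bool × ℕ × ℕ) : Prop := Lk y F (segNear σ) (segFar σ)

lemma okk_of_notMem {F : Set (Bool × ℕ × ℕ)} {σ : Bool × ℕ × ℕ} (h : σ ∈ Seg y) (hF : σ ∉ F) :
    Okk y F σ := Relation.ReflTransGen.single ⟨σ, h, hF, Or.inl ⟨rfl, rfl⟩⟩

/-- every segment can be bypassed -/
lemma okk_cls (hy : 3 ≤ y) (t σ : Bool × ℕ × ℕ) (hσ : σ ∈ Seg y) : Okk y (cls y t) σ := by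
  classical
  by_cases hF : σ ∈ cls y t
  swap
  · exact okk_of_notMem hσ hF
  -- the other five segments of a brick
  have key : ∀ x z, (x + z) % 2 = 0 → x + 2 ≤ y → z + 1 ≤ y →
      (σ = (true, x, z) ∨ σ = (true, x + 1, z) ∨ σ = (false, x + 2, z) ∨ σ = (true, x + 1, z + 1) ∨
        σ = (true, x, z + 1) ∨ σ = (false, x, z)) → Okk y (cls y t) σ := by
    intro x z hp hx hz hc
    have m1 : (true, x, z) ∈ Seg y := Or.inl ⟨rfl, by simp only; omega, by simp only; omega⟩
    have m2 : (true, x + 1, z) ∈ Seg y := Or.inl ⟨rfl, by simp only; omega, by simp only; omega⟩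
    have m3 : (false, x + 2, z) ∈ Seg y := Or.inr ⟨rfl, by simp only; omega, by simp only; omega,
      by simp only; omega⟩
    have m4 : (true, x + 1, z + 1) ∈ Seg y := Or.inl ⟨rfl, by simp only; omega, by simp only; omega⟩
    have m5 : (true, x, z + 1) ∈ Seg y := Or.inl ⟨rfl, by simp only; omega, by simp only; omega⟩
    have m6 : (false, x, z) ∈ Seg y := Or.inr ⟨rfl, by simp only; omega, by simp only; omega,
      by simp only; omega⟩
    have nn : ∀ b b' : Bool, ∀ i j i' j' : ℕ, i ≤ 2 → i' ≤ 2 → j ≤ 1 → j' ≤ 1 →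
        σ = (b, x + i, z + j) → (b, i, j) ≠ (b', i', j') → (b', x + i', z + j') ∉ cls y t := by
      intro b b' i j i' j' h1 h2 h3 h4 h5 hne hmem
      rw [h5] at hF
      obtain ⟨-, g1, g2, g3, -⟩ := hF
      obtain ⟨-, g1', g2', g3', -⟩ := hmem
      simp only at g1 g2 g3 g1' g2' g3'
      apply hne
      rw [Prod.mk.injEq, Prod.mk.injEq]
      exact ⟨by rw [g1, g1'], by omega, by omega⟩
    have o1 : (true, x, z) ∉ cls y t → Lk y (cls y t) (x, z) (x + 1, z) := by
      intro h
      simpa [Okk, segNear, segFar] using okk_of_notMem m1 h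
    have o2 : (true, x + 1, z) ∉ cls y t → Lk y (cls y t) (x + 1, z) (x + 2, z) := by
      intro h
      simpa [Okk, segNear, segFar] using okk_of_notMem m2 h
    have o3 : (false, x + 2, z) ∉ cls y t → Lk y (cls y t) (x + 2, z) (x + 2, z + 1) := by
      intro h
      simpa [Okk, segNear, segFar] using okk_of_notMem m3 h
    have o4 : (true, x + 1, z + 1) ∉ cls y t → Lk y (cls y t) (x + 1, z + 1) (x + 2, z + 1) := by
      intro h
      simpa [Okk, segNear, segFar] using okk_of_notMem m4 h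
    have o5 : (true, x, z + 1) ∉ cls y t → Lk y (cls y t) (x, z + 1) (x + 1, z + 1) := by
      intro h
      simpa [Okk, segNear, segFar] using okk_of_notMem m5 h
    have o6 : (false, x, z) ∉ cls y t → Lk y (cls y t) (x, z) (x, z + 1) := by
      intro h
      simpa [Okk, segNear, segFar] using okk_of_notMem m6 h
    rcases hc with hc | hc | hc | hc | hc | hc
    · have n := nn true
      have e2 := o2 (n true 0 0 1 0 (by omega) (by omega) (by omega) (by omega) hc (by simp))
      have e3 := o3 (n false 0 0 2 0 (by omega) (by omega) (by omega) (by omega) hc (by simp))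
      have e4 := o4 (n true 0 0 1 1 (by omega) (by omega) (by omega) (by omega) hc (by simp))
      have e5 := o5 (n true 0 0 0 1 (by omega) (by omega) (by omega) (by omega) hc (by simp))
      have e6 := o6 (n false 0 0 0 0 (by omega) (by omega) (by omega) (by omega) hc (by simp))
      rw [hc]
      exact e6.trans (e5.trans (e4.trans (e3.symm.trans e2.symm)))
    · have n := nn true
      have e1 := o1 (n true 1 0 0 0 (by omega) (by omega) (by omega) (by omega) hc (by simp))
      have e3 := o3 (n false 1 0 2 0 (by omega) (by omega) (by omega) (by omega) hc (by simp))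
      have e4 := o4 (n true 1 0 1 1 (by omega) (by omega) (by omega) (by omega) hc (by simp))
      have e5 := o5 (n true 1 0 0 1 (by omega) (by omega) (by omega) (by omega) hc (by simp))
      have e6 := o6 (n false 1 0 0 0 (by omega) (by omega) (by omega) (by omega) hc (by simp))
      rw [hc]
      exact e1.symm.trans (e6.trans (e5.trans (e4.trans e3.symm)))
    · have n := nn false
      have e1 := o1 (n true 2 0 0 0 (by omega) (by omega) (by omega) (by omega) hc (by simp))
      have e2 := o2 (n true 2 0 1 0 (by omega) (by omega) (by omega) (by omega) hc (by simp))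
      have e4 := o4 (n true 2 0 1 1 (by omega) (by omega) (by omega) (by omega) hc (by simp))
      have e5 := o5 (n true 2 0 0 1 (by omega) (by omega) (by omega) (by omega) hc (by simp))
      have e6 := o6 (n false 2 0 0 0 (by omega) (by omega) (by omega) (by omega) hc (by simp))
      rw [hc]
      exact e2.symm.trans (e1.symm.trans (e6.trans (e5.trans e4)))
    · have n := nn true
      have e1 := o1 (n true 1 1 0 0 (by omega) (by omega) (by omega) (by omega) hc (by simp))
      have e2 := o2 (n true 1 1 1 0 (by omega) (by omega) (by omega) (by omega) hc (by simp))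
      have e3 := o3 (n false 1 1 2 0 (by omega) (by omega) (by omega) (by omega) hc (by simp))
      have e5 := o5 (n true 1 1 0 1 (by omega) (by omega) (by omega) (by omega) hc (by simp))
      have e6 := o6 (n false 1 1 0 0 (by omega) (by omega) (by omega) (by omega) hc (by simp))
      rw [hc]
      exact e5.symm.trans (e6.symm.trans (e1.trans (e2.trans e3)))
    · have n := nn true
      have e1 := o1 (n true 0 1 0 0 (by omega) (by omega) (by omega) (by omega) hc (by simp))
      have e2 := o2 (n true 0 1 1 0 (by omega) (by omega) (by omega) (by omega) hc (by simp))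
      have e3 := o3 (n false 0 1 2 0 (by omega) (by omega) (by omega) (by omega) hc (by simp))
      have e4 := o4 (n true 0 1 1 1 (by omega) (by omega) (by omega) (by omega) hc (by simp))
      have e6 := o6 (n false 0 1 0 0 (by omega) (by omega) (by omega) (by omega) hc (by simp))
      rw [hc]
      exact e6.symm.trans (e1.trans (e2.trans (e3.trans e4.symm)))
    · have n := nn false
      have e1 := o1 (n true 0 0 0 0 (by omega) (by omega) (by omega) (by omega) hc (by simp))
      have e2 := o2 (n true 0 0 1 0 (by omega) (by omega) (by omega) (by omega) hc (by simp))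
      have e3 := o3 (n false 0 0 2 0 (by omega) (by omega) (by omega) (by omega) hc (by simp))
      have e4 := o4 (n true 0 0 1 1 (by omega) (by omega) (by omega) (by omega) hc (by simp))
      have e5 := o5 (n true 0 0 0 1 (by omega) (by omega) (by omega) (by omega) hc (by simp))
      rw [hc]
      exact e1.trans (e2.trans (e3.trans (e4.symm.trans e5.symm)))
  obtain ⟨b, x, z⟩ := σ
  have hn := hF.2.2.2.2
  simp only [ne_eq, Prod.mk.injEq, not_and] at hn
  rcases hσ with ⟨g1, g2, g3⟩ | ⟨g1, g2, g3, g4⟩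
  · simp only at g1 g2 g3
    subst g1
    simp only [true_imp_iff] at hn
    rcases Nat.mod_two_eq_zero_or_one (x + z) with h | h
    · by_cases h1 : x + 2 ≤ y ∧ z + 1 ≤ y
      · exact key x z h h1.1 h1.2 (Or.inl rfl)
      · have h2 : 1 ≤ x ∧ 1 ≤ z := by omega
        obtain ⟨x, rfl⟩ : ∃ x', x = x' + 1 := ⟨x - 1, by omega⟩
        obtain ⟨z, rfl⟩ : ∃ z', z = z' + 1 := ⟨z - 1, by omega⟩
        exact key x z (by omega) (by omega) (by omega) (by simp)
    · by_cases h1 : 1 ≤ x ∧ z + 1 ≤ y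
      · obtain ⟨x, rfl⟩ : ∃ x', x = x' + 1 := ⟨x - 1, by omega⟩
        exact key x z (by omega) (by omega) (by omega) (by simp)
      · have h2 : x + 2 ≤ y ∧ 1 ≤ z := by omega
        obtain ⟨z, rfl⟩ : ∃ z', z = z' + 1 := ⟨z - 1, by omega⟩
        exact key x z (by omega) (by omega) (by omega) (by simp)
  · simp only at g1 g2 g3 g4
    subst g1
    by_cases h1 : x + 2 ≤ y
    · exact key x z g4 h1 (by omega) (by simp)
    · obtain ⟨x, rfl⟩ : ∃ x', x = x' + 2 := ⟨x - 2, by omega⟩
      exact key x z (by omega) (by omega) (by omega) (by simp)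

/-- everything is linked to the corner -/
lemma lk_corner (hy : 3 ≤ y) (t : Bool × ℕ × ℕ) : ∀ z x, x ≤ y → z ≤ y →
    Lk y (cls y t) (0, 0) (x, z) := by
  have hor : ∀ x z, x < y → z ≤ y → Lk y (cls y t) (x, z) (x + 1, z) := by
    intro x z hx hz
    have := okk_cls hy t (true, x, z) (Or.inl ⟨rfl, hx, hz⟩)
    simpa [Okk, segNear, segFar] using this
  have hor2 : ∀ z ≤ y, ∀ x ≤ y, Lk y (cls y t) (0, z) (x, z) := by
    intro z hz x
    induction x with
    | zero => intro _; exact Relation.ReflTransGen.refl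
    | succ x ih => intro hx; exact (ih (by omega)).trans (hor x z (by omega) hz)
  intro z
  induction z with
  | zero => intro x hx hz; exact hor2 0 hz x hx
  | succ z ih =>
    intro x hx hz
    have h1 := ih (z % 2) (by omega) (by omega)
    have h2 := okk_cls hy t (false, z % 2, z) (Or.inr ⟨rfl, by simp only; omega, by simp only; omega,
      by simp only; omega⟩)
    have h3 : Lk y (cls y t) (z % 2, z) (z % 2, z + 1) := by
      simpa [Okk, segNear, segFar] using h2
    exact h1.trans (h3.trans ((hor2 (z + 1) hz (z % 2) (by omega)).symm.trans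
      (hor2 (z + 1) hz x hx)))

end conn

/-- the rank of a connected set -/
lemma rk_ge_vconn {α V : Type*} {N : Matroid α} [N.Finite] {S : Set α} {ends : α → Sym2 V}
    (hB : Bic N S ends) {W : Finset V} (hne : W.Nonempty)
    (hc : Gad.VConn S ends (W : Set V)) : W.card ≤ rk N S + 1 := by
  classical
  obtain ⟨b, hb⟩ := hne
  obtain ⟨E, -, -, hE⟩ := Gad.attach (S := S) (ends := ends) (W := {b}) (W.erase b) (by
    intro v hv
    refine ⟨b, rfl, ?_⟩
    have h1 := hc b (Finset.mem_coe.2 hb) v (Finset.mem_coe.2 (Finset.mem_of_mem_erase hv))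
    refine Relation.ReflTransGen.mono ?_ _ _ h1
    intro x y hxy
    have h2 : ∀ x, x ∈ (W : Set V) → x ∈ ({b} : Set V) ∪ (W.erase b : Finset V) := by
      intro x hx
      by_cases hxb : x = b
      · exact Or.inl hxb
      · exact Or.inr (Finset.mem_coe.2 (Finset.mem_erase.2 ⟨hxb, Finset.mem_coe.1 hx⟩))
    exact ⟨hxy.1, h2 x hxy.2.1, h2 y hxy.2.2⟩) (by
    rw [Set.disjoint_singleton_left, Finset.mem_coe]
    exact Finset.notMem_erase _ _)
  have hW : ({b} : Set V) ∪ ((W.erase b : Finset V) : Set V) = (W : Set V) := by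
    ext x
    simp only [mem_union, mem_singleton_iff, Finset.mem_coe, Finset.mem_erase]
    constructor
    · rintro (rfl | h)
      · exact hb
      · exact h.2
    · intro hx
      by_cases hxb : x = b
      · exact Or.inl hxb
      · exact Or.inr ⟨hxb, hx⟩
  have h1 := hE ∅ (Arb.single b)
  rw [hW, empty_union] at h1
  obtain ⟨h2, h3, h4⟩ := h1
  obtain ⟨φ, hφ, hφe⟩ := h4 b (Finset.mem_coe.2 hb)
  have hES : E ⊆ S := fun x hx => (h2 hx).1
  have h5 : N.Indep E := hB.ind E φ hES hφ.injOn hφe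
  have h6 : E.ncard = ((W : Set V) \ {b}).ncard := by
    rw [← hφ.image_eq, hφ.injOn.ncard_image]
  have h7 : ((W : Set V) \ {b}).ncard + 1 = W.card := by
    rw [Set.ncard_sdiff_singleton_of_mem (Finset.mem_coe.2 hb), Set.ncard_coe_finset]
    have : 0 < W.card := Finset.card_pos.2 ⟨b, hb⟩
    omega
  have h8 : rk N E ≤ rk N S := rk_mono N hES
  rw [rk_indep h5] at h8
  omega

/-- pendant elements of a side are coloops of this side -/
lemma rk_coloops {α : Type*} {N : Matroid α} [N.Finite] {A P : Set α} (hA : A ⊆ N.E) (hP : P ⊆ A)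
    (h : ∀ x ∈ P, x ∉ N.closure (A \ {x})) : rk N (A \ P) + P.ncard ≤ rk N A := by
  classical
  have hPf : P.Finite := N.ground_finite.subset (hP.trans hA)
  induction P, hPf using Set.Finite.induction_on with
  | empty => simp
  | @insert a P haP hPf ih =>
    have h1 := ih ((subset_insert _ _).trans hP) (fun x hx => h x (Or.inr hx))
    have haA : a ∈ A := hP (Or.inl rfl)
    have h2 : a ∉ N.closure (A \ insert a P) := fun hh =>
      h a (Or.inl rfl) (N.closure_subset_closure (sdiff_subset_sdiff_right (by simp)) hh)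
    have h3 := rk_insert_ge (hA haA) h2
    have h4 : insert a (A \ insert a P) = A \ P := by
      ext x
      simp only [mem_insert_iff, mem_sdiff]
      constructor
      · rintro (rfl | ⟨h5, h6⟩)
        · exact ⟨haA, haP⟩
        · exact ⟨h5, fun h7 => h6 (Or.inr h7)⟩
      · rintro ⟨h5, h6⟩
        by_cases hxa : x = a
        · exact Or.inl hxa
        · exact Or.inr ⟨h5, fun h7 => h7.elim hxa h6⟩
    rw [h4] at h3
    rw [ncard_insert_of_notMem haP hPf]
    omega

section iso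

variable {α V : Type*} {N : Matroid α} [N.Finite] {e : Bool × ℕ × ℕ → α} {ends : α → Sym2 V}
  {p : ℕ × ℕ → V} {y q : ℕ}

/-- the only element of `A` at one of its ends -/
def Pnd (y : ℕ) (e : Bool × ℕ × ℕ → α) (A : Set α) (σ : Bool × ℕ × ℕ) : Prop :=
  σ ∈ Seg y ∧ e σ ∈ A ∧ ∃ v, At v σ ∧ ∀ τ ∈ Seg y, At v τ → e τ ∈ A → τ = σ

lemma pnd_card (hy : 3 ≤ y) (hp : Function.Injective p) (he : InjOn e (Seg y))
    (hends : ∀ σ ∈ Seg y, ends (e σ) = s(p (segNear σ), p (segFar σ)))
    (hB : Bic N (e '' Seg y) ends) {A : Set α} (hA : A ⊆ e '' Seg y)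
    (hq : rk N A + rk N (e '' Seg y \ A) ≤ rk N (e '' Seg y) + q) :
    {σ | Pnd y e A σ}.ncard ≤ 12 * (q + 1) + 3 := by
  classical
  have hSf : (Seg y).Finite := seg_finite y
  have hup : rk N (e '' Seg y) ≤ (wV y).card := by
    have h1 : e '' Seg y ⊆ ins (e '' Seg y) ends (p '' (wV y : Set (ℕ × ℕ))) := by
      rintro _ ⟨σ, hσ, rfl⟩
      refine ⟨⟨σ, hσ, rfl⟩, fun v hv => ?_⟩
      rw [hends σ hσ, Sym2.mem_iff] at hv
      have h2 := seg_ends hσ
      rcases hv with rfl | rfl
      · exact ⟨_, Finset.mem_coe.2 (mem_wV.2 ⟨h2.1, h2.2.1⟩), rfl⟩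
      · exact ⟨_, Finset.mem_coe.2 (mem_wV.2 ⟨h2.2.2.1, h2.2.2.2⟩), rfl⟩
    have h2 : N.eRk (e '' Seg y) ≤ (p '' (wV y : Set (ℕ × ℕ))).encard :=
      (N.eRk_mono h1).trans (hB.rk _)
    have h3 : (p '' (wV y : Set (ℕ × ℕ))).encard ≤ (((wV y).card : ℕ) : ℕ∞) := by
      refine (Set.encard_image_le _ _).trans ?_
      rw [Set.encard_coe_eq_coe_finsetCard]
    have h4 := h2.trans h3
    rw [← cast_rk] at h4
    exact_mod_cast h4
  have hlow : ∀ t, (wV y).card ≤ rk N (e '' Seg y \ e '' cls y t) + 1 := by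
    intro t
    have hB' : Bic N (e '' Seg y \ e '' cls y t) ends := Bic_sub hB sdiff_subset
    have h1 : ((wV y).image p).card = (wV y).card := Finset.card_image_of_injective _ hp
    rw [← h1]
    have hcor : (0, 0) ∈ wV y := mem_wV.2 ⟨by simp, by simp⟩
    refine rk_ge_vconn hB' ⟨p (0, 0), Finset.mem_image_of_mem _ hcor⟩ ?_
    set R := fun a b => Gad.GAdj (e '' Seg y \ e '' cls y t) ends a b ∧
      a ∈ (((wV y).image p : Finset V) : Set V) ∧ b ∈ (((wV y).image p : Finset V) : Set V) with hR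
    have hRs : ∀ a b, R a b → R b a := fun a b h => ⟨h.1.symm, h.2.2, h.2.1⟩
    have hstep : ∀ a b, WR y (cls y t) a b → R (p a) (p b) := by
      rintro a b ⟨σ, h2, h3, h4⟩
      have h5 : e σ ∈ e '' Seg y \ e '' cls y t := by
        refine ⟨⟨σ, h2, rfl⟩, ?_⟩
        rintro ⟨τ, hτ, h6⟩
        rw [he hτ.1 h2 h6] at hτ
        exact h3 hτ
      have h6 := seg_ends h2
      have m1 : p (segNear σ) ∈ (((wV y).image p : Finset V) : Set V) :=
        Finset.mem_coe.2 (Finset.mem_image_of_mem _ (mem_wV.2 ⟨h6.1, h6.2.1⟩))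
      have m2 : p (segFar σ) ∈ (((wV y).image p : Finset V) : Set V) :=
        Finset.mem_coe.2 (Finset.mem_image_of_mem _ (mem_wV.2 ⟨h6.2.2.1, h6.2.2.2⟩))
      have h7 : R (p (segNear σ)) (p (segFar σ)) := ⟨⟨e σ, h5, hends σ h2⟩, m1, m2⟩
      rcases h4 with ⟨rfl, rfl⟩ | ⟨rfl, rfl⟩
      · exact h7
      · exact hRs _ _ h7
    have hlk : ∀ a b, Lk y (cls y t) a b → Relation.ReflTransGen R (p a) (p b) := by
      intro a b h
      induction h with
      | refl => exact Relation.ReflTransGen.refl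
      | tail _ h2 ih => exact ih.tail (hstep _ _ h2)
    have hsym : ∀ a b, Relation.ReflTransGen R a b → Relation.ReflTransGen R b a := by
      intro a b h
      induction h with
      | refl => exact Relation.ReflTransGen.refl
      | tail _ h2 ih => exact Relation.ReflTransGen.head (hRs _ _ h2) ih
    have hall : ∀ v ∈ (((wV y).image p : Finset V) : Set V),
        Relation.ReflTransGen R (p (0, 0)) v := by
      intro v hv
      obtain ⟨w, hw, rfl⟩ := Finset.mem_image.1 (Finset.mem_coe.1 hv)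
      have hw' := mem_wV.1 hw
      exact hlk _ _ (lk_corner hy t w.2 w.1 hw'.1 hw'.2)
    intro u hu v hv
    exact (hsym _ _ (hall u hu)).trans (hall v hv)
  -- one class
  have hcls : ∀ t, {σ | Pnd y e A σ ∧ σ ∈ cls y t}.ncard ≤ q + 1 := by
    intro t
    set P : Set α := e '' {σ | Pnd y e A σ ∧ σ ∈ cls y t} with hP
    have hPA : P ⊆ A := by
      rintro _ ⟨σ, hσ, rfl⟩
      exact hσ.1.2.1
    have hAE : A ⊆ N.E := hA.trans hB.sub
    have h1 := rk_coloops hAE hPA (by
      rintro _ ⟨σ, ⟨⟨g1, g2, v, g3, g4⟩, g5⟩, rfl⟩ hcl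
      have hv : p v ∈ ends (e σ) := by
        rw [hends σ g1, Sym2.mem_iff]
        rcases g3 with rfl | rfl
        · exact Or.inl rfl
        · exact Or.inr rfl
      refine Gad.not_mem_Hx' hB ⟨σ, g1, rfl⟩ hv ?_
      unfold Gad.Hx
      refine N.closure_subset_closure ?_ hcl
      rintro x ⟨hx, hxσ⟩
      obtain ⟨τ, hτ, rfl⟩ := hA hx
      refine ⟨⟨τ, hτ, rfl⟩, fun w hw hwv => ?_⟩
      rw [mem_singleton_iff] at hwv
      subst hwv
      rw [hends τ hτ, Sym2.mem_iff] at hw
      have hvτ : At v τ := by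
        rcases hw with h | h
        · exact Or.inl (hp h)
        · exact Or.inr (hp h)
      exact hxσ (by rw [g4 τ hτ hvτ hx]; rfl))
    have hPn : P.ncard = {σ | Pnd y e A σ ∧ σ ∈ cls y t}.ncard :=
      (he.mono (fun σ hσ => hσ.1.1)).ncard_image
    have h2 : rk N (e '' Seg y \ e '' cls y t) ≤ rk N (A \ P) + rk N (e '' Seg y \ A) := by
      have h3 := rk_submod (M := N) (A \ P) (e '' Seg y \ A)
      have h4 : rk N (e '' Seg y \ e '' cls y t) ≤ rk N ((A \ P) ∪ (e '' Seg y \ A)) := by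
        refine rk_mono N ?_
        rintro x ⟨hx, hxc⟩
        by_cases hxA : x ∈ A
        · refine Or.inl ⟨hxA, ?_⟩
          rintro ⟨σ, hσ, rfl⟩
          exact hxc ⟨σ, hσ.2, rfl⟩
        · exact Or.inr ⟨hx, hxA⟩
      omega
    have h3 := hlow t
    omega
  -- all classes
  set Ex : Finset (Bool × ℕ × ℕ) := {(true, y - 1, 0), (true, 0, y), (true, y - 1, y)} with hEx
  set I : Finset (Bool × ℕ × ℕ) := Finset.univ ×ˢ (Finset.range 3 ×ˢ Finset.range 2) with hI
  have hIc : I.card = 12 := by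
    rw [hI, Finset.card_product, Finset.card_product, Finset.card_range, Finset.card_range,
      Finset.card_univ, Fintype.card_bool]
  have hsub : {σ | Pnd y e A σ} ⊆ (Ex : Set (Bool × ℕ × ℕ)) ∪
      ⋃ t ∈ I, {σ | Pnd y e A σ ∧ σ ∈ cls y t} := by
    intro σ hσ
    by_cases hE : σ ∈ Ex
    · exact Or.inl hE
    · right
      rw [mem_iUnion₂]
      refine ⟨(σ.1, σ.2.1 % 3, σ.2.2 % 2), ?_, hσ, hσ.1, rfl, rfl, rfl, ?_⟩
      · rw [hI, Finset.mem_product, Finset.mem_product, Finset.mem_range, Finset.mem_range]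
        exact ⟨Finset.mem_univ _, Nat.mod_lt _ (by norm_num), Nat.mod_lt _ (by norm_num)⟩
      · simp only [hEx, Finset.mem_insert, Finset.mem_singleton, not_or] at hE
        exact hE
  have hfin : (⋃ t ∈ I, {σ | Pnd y e A σ ∧ σ ∈ cls y t}).Finite :=
    hSf.subset (by
      intro σ hσ
      obtain ⟨t, _, h⟩ := mem_iUnion₂.1 hσ
      exact h.1.1)
  have hUn : (⋃ t ∈ I, {σ | Pnd y e A σ ∧ σ ∈ cls y t}).ncard ≤ 12 * (q + 1) := by
    rw [← hIc]
    refine (Finset.set_ncard_biUnion_le _ _).trans ?_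
    calc _ ≤ ∑ _i ∈ I, (q + 1) := Finset.sum_le_sum fun t _ => hcls t
      _ = I.card * (q + 1) := by rw [Finset.sum_const, smul_eq_mul]
  have h1 := Set.ncard_le_ncard hsub ((Finset.finite_toSet Ex).union hfin)
  have h2 := Set.ncard_union_le (Ex : Set (Bool × ℕ × ℕ))
    (⋃ t ∈ I, {σ | Pnd y e A σ ∧ σ ∈ cls y t})
  have h3 : (Ex : Set (Bool × ℕ × ℕ)).ncard ≤ 3 := by
    rw [Set.ncard_coe_finset]
    exact Finset.card_le_three
  omega

/-- the constant -/
def cW (q : ℕ) : ℕ := 8 * (48 * (q + 1) + 13) ^ 2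

/-- **Isoperimetry of the brick wall.** -/
theorem wall_iso (hp : Function.Injective p) (he : InjOn e (Seg y))
    (hends : ∀ σ ∈ Seg y, ends (e σ) = s(p (segNear σ), p (segFar σ)))
    (hB : Bic N (e '' Seg y) ends) {A : Set α} (hA : A ⊆ e '' Seg y)
    (hq : rk N A + rk N (e '' Seg y \ A) ≤ rk N (e '' Seg y) + q) :
    {σ ∈ Seg y | e σ ∈ A}.ncard ≤ cW q ∨ {σ ∈ Seg y | e σ ∉ A}.ncard ≤ cW q := by
  classical
  have hSf : (Seg y).Finite := seg_finite y
  by_cases hy : 3 ≤ y
  swap
  · left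
    have h1 := seg_ncard y
    have h2 : {σ ∈ Seg y | e σ ∈ A}.ncard ≤ (Seg y).ncard :=
      ncard_le_ncard (fun σ hσ => hσ.1) hSf
    have h3 : (y + 1) ^ 2 ≤ 3 ^ 2 := Nat.pow_le_pow_left (by omega) 2
    have h4 : 13 ^ 2 ≤ (48 * (q + 1) + 13) ^ 2 := Nat.pow_le_pow_left (by omega) 2
    unfold cW
    omega
  set A' : Set α := e '' Seg y \ A with hA'
  have hAA : e '' Seg y \ A' = A := by rw [hA', sdiff_sdiff_cancel_left hA]
  have c1 := pnd_card hy hp he hends hB hA hq
  have c2 := pnd_card (q := q) hy hp he hends hB (A := A') sdiff_subset (by rw [hAA]; omega)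
  have f1 : {σ | Pnd y e A σ}.Finite := hSf.subset fun σ hσ => hσ.1
  have f2 : {σ | Pnd y e A' σ}.Finite := hSf.subset fun σ hσ => hσ.1
  set D : Finset (ℕ × ℕ) := f1.toFinset.biUnion (fun σ => {segNear σ, segFar σ}) ∪
    f2.toFinset.biUnion (fun σ => {segNear σ, segFar σ}) with hD
  have hDc : D.card ≤ 48 * (q + 1) + 12 := by
    have h1 : ∀ F : Finset (Bool × ℕ × ℕ), F.card ≤ 12 * (q + 1) + 3 →
        (F.biUnion (fun σ => ({segNear σ, segFar σ} : Finset (ℕ × ℕ)))).card ≤
          24 * (q + 1) + 6 := by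
      intro F hF
      refine (Finset.card_biUnion_le_card_mul _ _ 2 fun p _ => Finset.card_le_two).trans ?_
      omega
    have h2 := h1 f1.toFinset (by rw [← Set.ncard_eq_toFinset_card _ f1]; exact c1)
    have h3 := h1 f2.toFinset (by rw [← Set.ncard_eq_toFinset_card _ f2]; exact c2)
    have h4 := Finset.card_union_le (f1.toFinset.biUnion (fun σ => ({segNear σ, segFar σ} :
      Finset (ℕ × ℕ)))) (f2.toFinset.biUnion (fun σ => {segNear σ, segFar σ}))
    rw [hD]
    omega
  have hfin := wall_colour (y := y) (fun σ => e σ ∈ A) D hDc ?_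
  · unfold cW
    exact hfin
  intro v hv hm
  -- at most three segments at `v`
  set Tv : Finset (Bool × ℕ × ℕ) := {(true, v.1, v.2), (true, v.1 - 1, v.2),
    (false, v.1, if (v.1 + v.2) % 2 = 0 then v.2 else v.2 - 1)} with hTv
  have hTc : Tv.card ≤ 3 := Finset.card_le_three
  have hT : ∀ σ ∈ Seg y, At v σ → σ ∈ Tv := by
    rintro ⟨b, x, z⟩ hσ hvσ
    obtain ⟨v1, v2⟩ := v
    simp only [hTv, Finset.mem_insert, Finset.mem_singleton, Prod.mk.injEq]
    rcases hσ with ⟨g1, g2, g3⟩ | ⟨g1, g2, g3, g4⟩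
    · simp only at g1 g2 g3
      subst g1
      simp only [At, segNear, segFar, if_true, Prod.mk.injEq] at hvσ
      simp only [true_and, reduceCtorEq, false_and, or_false]
      omega
    · simp only at g1 g2 g3 g4
      subst g1
      simp only [At, segNear, segFar, Bool.false_eq_true, if_false, Prod.mk.injEq] at hvσ
      simp only [reduceCtorEq, false_and, false_or, true_and]
      split_ifs with h
      · omega
      · omega
  obtain ⟨⟨σ, hσ, hvσ, hσA⟩, ⟨τ, hτ, hvτ, hτA⟩⟩ := hm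
  have hτA' : e τ ∈ A' := ⟨⟨τ, hτ, rfl⟩, hτA⟩
  rw [hD, Finset.mem_union, Finset.mem_biUnion, Finset.mem_biUnion]
  by_cases h1 : ∀ σ' ∈ Seg y, At v σ' → e σ' ∈ A → σ' = σ
  · left
    refine ⟨σ, f1.mem_toFinset.2 ⟨hσ, hσA, v, hvσ, h1⟩, ?_⟩
    rw [Finset.mem_insert, Finset.mem_singleton]
    exact hvσ
  · by_cases h2 : ∀ τ' ∈ Seg y, At v τ' → e τ' ∈ A' → τ' = τ
    · right
      refine ⟨τ, f2.mem_toFinset.2 ⟨hτ, hτA', v, hvτ, h2⟩, ?_⟩
      rw [Finset.mem_insert, Finset.mem_singleton]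
      exact hvτ
    · exfalso
      push Not at h1 h2
      obtain ⟨σ', hσ', hvσ', hσA', hne⟩ := h1
      obtain ⟨τ', hτ', hvτ', hτA'', hne'⟩ := h2
      have h3 : ({σ, σ', τ, τ'} : Finset (Bool × ℕ × ℕ)) ⊆ Tv := by
        intro x hx
        simp only [Finset.mem_insert, Finset.mem_singleton] at hx
        rcases hx with rfl | rfl | rfl | rfl
        · exact hT _ hσ hvσ
        · exact hT _ hσ' hvσ'
        · exact hT _ hτ hvτ
        · exact hT _ hτ' hvτ'
      have h4 := Finset.card_le_card h3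
      have n1 : σ ≠ τ := fun h => hτA (h ▸ hσA)
      have n2 : σ ≠ τ' := fun h => hτA''.2 (h ▸ hσA)
      have n3 : σ' ≠ τ := fun h => hτA (h ▸ hσA')
      have n4 : σ' ≠ τ' := fun h => hτA''.2 (h ▸ hσA')
      have h5 : ({σ, σ', τ, τ'} : Finset (Bool × ℕ × ℕ)).card = 4 := by
        rw [Finset.card_insert_of_notMem, Finset.card_insert_of_notMem,
          Finset.card_insert_of_notMem, Finset.card_singleton]
        · rw [Finset.mem_singleton]; exact fun h => hne' h.symm
        · rw [Finset.mem_insert, Finset.mem_singleton]; exact fun h => h.elim n3 n4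
        · rw [Finset.mem_insert, Finset.mem_insert, Finset.mem_singleton]
          rintro (h | h | h)
          · exact hne h.symm
          · exact n1 h
          · exact n2 h
      omega

end iso

end CWL
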