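import Pool.Agent.CW.GSide
import Pool.Agent.CW.SubW
import Pool.Agent.CW.PGr

/-!
# The clean pair of walls (`World`)
-/

open Set BIC BICS
open scoped Matroid

namespace CWL

universe u

/-- the tiles of side `s` at the positions of `𝒯` -/
def tiles (s : ℕ) (𝒯 : Finset (ℕ × ℕ)) : Set (Bool × ℕ × ℕ) :=
  {σ | ∃ t ∈ 𝒯, σ ∈ shS t.1 t.2 '' Seg s}

/-- **The clean pair (`M₀`).**  `M` is a matroid with a subdivided brick wall `X` of side `w`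
(rows `L₁ r`, `r ∈ Seg w`) in `M` and tiles (brick walls of side `s`, columns `L₂ σ`) in `M✶`, both
up to lifts of rank `u₁`, `u₂`.  A row consists of its anchor `e₁ r` and conflicts, a column of its
anchor `e₂ σ` and conflicts. -/
structure World {α : Type u} (M : Matroid α) (w s : ℕ) (𝒯 : Finset (ℕ × ℕ))
    (L₁ : Bool × ℕ × ℕ → List α) (f₁ : α → Sym2 ((ℕ × ℕ) ⊕ α)) (e₁ : Bool × ℕ × ℕ → α) (u₁ : ℕ)
    (L₂ : Bool × ℕ × ℕ → List α) (f₂ : α → Sym2 ((ℕ × ℕ) ⊕ α)) (e₂ : Bool × ℕ × ℕ → α) (u₂ : ℕ) :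
    Prop where
  pair : Pair M (Seg w) L₁ f₁ e₁ u₁ (tiles s 𝒯) L₂ f₂ e₂ u₂
  rows : ∀ x ∈ crr L₁ (Seg w), x ∈ e₁ '' Seg w ∨ x ∈ crr L₂ (tiles s 𝒯)
  cols : ∀ x ∈ crr L₂ (tiles s 𝒯), x ∈ e₂ '' tiles s 𝒯 ∨ x ∈ crr L₁ (Seg w)
  /-- every other element is a nonloop in the closure of the wall -/
  clo : ∀ x ∈ M.E, x ∉ crr L₁ (Seg w) → x ∉ crr L₂ (tiles s 𝒯) →
    x ∈ M.closure (crr L₁ (Seg w)) ∧ x ∉ M.closure ∅
  /-- cutting conflicts costs at most 1 for each column (no loss for the lifts) -/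
  gain : ∀ Q ⊆ crr L₁ (Seg w) ∩ crr L₂ (tiles s 𝒯), rk M (crr L₁ (Seg w)) ≤
    rk M ((crr L₁ (Seg w) ∪ (M.E \ crr L₂ (tiles s 𝒯))) \ Q) +
      {σ | σ ∈ tiles s 𝒯 ∧ ∃ x ∈ Q, x ∈ L₂ σ}.ncard

section

variable {α : Type u} {M N : Matroid α} {S S' : Set (Bool × ℕ × ℕ)} {L : Bool × ℕ × ℕ → List α}
  {f : α → Sym2 ((ℕ × ℕ) ⊕ α)} {e : Bool × ℕ × ℕ → α} {u y : ℕ}

lemma GSide.at_inner (h : GSide M S L f e u) {s s' : Bool × ℕ × ℕ} (hs : s ∈ S) (hs' : s' ∈ S)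
    {m i : ℕ} (hm0 : 0 < m) (hm : m < (L s).length) (hi : i < (L s').length)
    (hv : node s (L s) m ∈ f ((L s')[i])) : s' = s ∧ (i = m ∨ i + 1 = m) := by
  have key : ∀ j ≤ (L s').length, node s (L s) m = node s' (L s') j → s' = s ∧ j = m := by
    intro j hj hn
    have h1 := hn
    rw [node_mid s hm0 hm] at h1
    have hss : s' = s := by
      rcases node_cases' s' hj h1 with ⟨-, h2⟩ | ⟨-, h2⟩ | ⟨h2, h3, h4⟩
      · simp at h2
      · simp at h2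
      · have h5 : (L s)[m - 1] = (L s')[j - 1] := by simpa using h4
        refine h.uniq hs' hs (x := (L s')[j - 1]) (List.getElem_mem _) ?_
        rw [← h5]
        exact List.getElem_mem _
    subst hss
    exact ⟨rfl, node_inj s' (h.nodup s' hs') hj hm.le hn.symm⟩
  rw [h.end_eq s' hs' i hi, Sym2.mem_iff] at hv
  rcases hv with h1 | h1
  · exact ⟨(key i hi.le h1).1, Or.inl (key i hi.le h1).2⟩
  · exact ⟨(key (i + 1) hi h1).1, Or.inr (key (i + 1) hi h1).2⟩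

/-- a series element is a coloop when an earlier element of its row is deleted -/
lemma GSide.coloop (h : GSide M S L f e u) (hN : Bic N (crr L S) f) {s : Bool × ℕ × ℕ}
    (hs : s ∈ S) {j i : ℕ} (hji : j < i) (hi : i < (L s).length) :
    (L s)[i] ∉ N.closure (crr L S \ {(L s)[i], (L s)[j]'(by omega)}) := by
  have hmemR : ∀ t (ht : t < (L s).length), (L s)[t] ∈ crr L S :=
    fun t ht => ⟨s, hs, List.getElem_mem _⟩
  have hne : ∀ t t' (ht : t < (L s).length) (ht' : t' < (L s).length), (L s)[t] = (L s)[t'] →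
      t = t' := fun t t' ht ht' h' => (List.Nodup.getElem_inj_iff (h.nodup s hs)).1 h'
  have key : ∀ m, m ≤ i - j - 1 →
      (L s)[i] ∈ N.closure (crr L S \ {(L s)[i], (L s)[j]'(by omega)}) →
      (L s)[i] ∈ N.closure ({x | x ∈ crr L S ∧ x ≠ (L s)[i] ∧
        ∀ t (ht : t < (L s).length), j ≤ t → t ≤ j + m → x ≠ (L s)[t]}) := by
    intro m
    induction m with
    | zero =>
      intro _ hcl
      refine N.closure_subset_closure ?_ hcl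
      rintro x ⟨hx, hx2⟩
      simp only [mem_insert_iff, mem_singleton_iff, not_or] at hx2
      refine ⟨hx, hx2.1, ?_⟩
      intro t ht h1 h2
      have : t = j := by omega
      subst this
      exact hx2.2
    | succ m ih =>
      intro hm hcl
      have h1 := ih (by omega) hcl
      have hlt : j + (m + 1) < (L s).length := by omega
      refine cl_pend hN (X := {x | x ∈ crr L S ∧ x ≠ (L s)[i] ∧
          ∀ t (ht : t < (L s).length), j ≤ t → t ≤ j + (m + 1) → x ≠ (L s)[t]})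
        (fun x hx => hx.1) (f := (L s)[j + (m + 1)]) (v := node s (L s) (j + (m + 1)))
        (hmemR _ hlt) (hmemR i hi) ?_ ?_ ?_ ?_
      · rw [h.end_eq s hs _ hlt]
        exact Sym2.mem_mk_left _ _
      · intro hv
        have h2 := (h.at_inner hs hs (by omega) hlt hi hv).2
        omega
      · rintro g ⟨⟨s', hs', hg⟩, hg1, hg2⟩ hv
        obtain ⟨t, ht, rfl⟩ := List.mem_iff_getElem.1 hg
        obtain ⟨h2, h3⟩ := h.at_inner hs hs' (by omega) hlt ht hv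
        subst h2
        exact hg2 t ht (by omega) (by omega) rfl
      · refine N.closure_subset_closure ?_ h1
        rintro x ⟨hx, hx1, hx2⟩
        by_cases hxe : x = (L s)[j + (m + 1)]
        · exact Or.inl hxe
        · refine Or.inr ⟨hx, hx1, fun t ht h2 h3 => ?_⟩
          rcases h3.lt_or_eq with h4 | h4
          · exact hx2 t ht h2 (by omega)
          · subst h4
            exact hxe
  intro hcl
  have h1 := key (i - j - 1) le_rfl hcl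
  refine Gad.not_mem_Hx' hN (hmemR i hi) (w := node s (L s) i) ?_ ?_
  · rw [h.end_eq s hs i hi]
    exact Sym2.mem_mk_left _ _
  · unfold Gad.Hx
    refine N.closure_subset_closure ?_ h1
    rintro x ⟨hx, hx1, hx2⟩
    refine ⟨hx, fun v hv => ?_⟩
    rw [mem_compl_iff, mem_singleton_iff]
    rintro rfl
    obtain ⟨s', hs', hg⟩ := hx
    obtain ⟨t, ht, rfl⟩ := List.mem_iff_getElem.1 hg
    obtain ⟨h2, h3⟩ := h.at_inner hs hs' (by omega) hi ht hv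
    subst h2
    rcases h3 with h3 | h3
    · subst h3
      exact hx1 rfl
    · exact hx2 t ht (by omega) (by omega) rfl

/-- **Cutting a side costs one for each row.** -/
theorem GSide.cut [M.Finite] (h : GSide M S L f e u) {Q : Set α} (hQ : Q ⊆ crr L S) :
    Q.ncard + rk M (crr L S \ Q) ≤ rk M (crr L S) + {s | s ∈ S ∧ ∃ x ∈ Q, x ∈ L s}.ncard := by
  classical
  obtain ⟨h0, N, hNf, hN, hquo, -⟩ := h.lift
  have hQf : Q.Finite := M.ground_finite.subset (hQ.trans h0)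
  -- the first element of `Q` on its row
  set sel : Set α := {x | x ∈ Q ∧ ∃ s ∈ S, ∃ i, ∃ hi : i < (L s).length, x = (L s)[i] ∧
    ∀ t (ht : t < (L s).length), (L s)[t] ∈ Q → i ≤ t} with hsel
  have hselQ : sel ⊆ Q := fun x hx => hx.1
  have hselc : sel.ncard ≤ {s | s ∈ S ∧ ∃ x ∈ Q, x ∈ L s}.ncard := by
    have hfin : {s | s ∈ S ∧ ∃ x ∈ Q, x ∈ L s}.Finite := by
      have h1 : ∀ x ∈ crr L S, ∃ s ∈ S, x ∈ L s := fun x hx => hx
      choose! g hg1 hg2 using h1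
      refine (hQf.image g).subset ?_
      rintro s ⟨hs, x, hx, hxs⟩
      exact ⟨x, hx, h.uniq (hg1 x (hQ hx)) hs (hg2 x (hQ hx)) hxs⟩
    have h1 : ∀ x ∈ crr L S, ∃ s ∈ S, x ∈ L s := fun x hx => hx
    choose! g hg1 hg2 using h1
    refine Set.ncard_le_ncard_of_injOn g ?_ ?_ hfin
    · intro x hx
      exact ⟨hg1 x (hQ hx.1), x, hx.1, hg2 x (hQ hx.1)⟩
    · intro x hx x' hx' hxx
      obtain ⟨hxQ, s, hs, i, hi, rfl, hmin⟩ := hx
      obtain ⟨hxQ', s', hs', i', hi', rfl, hmin'⟩ := hx'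
      have h2 := h.uniq (hg1 _ (hQ hxQ)) hs (hg2 _ (hQ hxQ)) (List.getElem_mem _)
      have h3 := h.uniq (hg1 _ (hQ hxQ')) hs' (hg2 _ (hQ hxQ')) (List.getElem_mem _)
      have h4 : s = s' := by rw [← h2, ← h3, hxx]
      subst h4
      have h5 := hmin i' hi' hxQ'
      have h6 := hmin' i hi hxQ
      have h7 : i = i' := by omega
      subst h7
      rfl
  have hQsf : (Q \ sel).Finite := hQf.subset sdiff_subset
  have h1 := ess_coloops (M := N) (W := crr L S \ sel) hQsf.toFinset (by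
    intro x hx
    rw [Set.Finite.mem_toFinset] at hx
    obtain ⟨s, hs, hxs⟩ := hQ hx.1
    obtain ⟨i, hi, rfl⟩ := List.mem_iff_getElem.1 hxs
    -- the first element of `Q` on the row
    have hex : ∃ j, ∃ hj : j < (L s).length, (L s)[j] ∈ Q := ⟨i, hi, hx.1⟩
    obtain ⟨hj, hjQ⟩ := Nat.find_spec hex
    have hmin : ∀ t (ht : t < (L s).length), (L s)[t] ∈ Q → Nat.find hex ≤ t :=
      fun t ht htQ => Nat.find_min' hex ⟨ht, htQ⟩
    have hjs : (L s)[Nat.find hex] ∈ sel := ⟨hjQ, s, hs, _, hj, rfl, hmin⟩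
    have hji : Nat.find hex < i := by
      rcases (hmin i hi hx.1).lt_or_eq with h2 | h2
      · exact h2
      · exfalso
        apply hx.2
        have h3 : (L s)[Nat.find hex] = (L s)[i] := by simp only [h2]
        rw [← h3]
        exact hjs
    have h2 := h.coloop hN hs hji hi
    have h3 : (L s)[i] ∉ N.closure ((crr L S \ sel) \ {(L s)[i]}) := by
      intro hcl
      refine h2 (N.closure_subset_closure ?_ hcl)
      rintro z ⟨⟨hz1, hz2⟩, hz3⟩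
      refine ⟨hz1, ?_⟩
      rintro (hz4 | hz4)
      · exact hz3 hz4
      · rw [mem_singleton_iff.1 hz4] at hz2
        exact hz2 hjs
    have h4 := rk_insert_ge (hN.sub (hQ hx.1)) h3
    rwa [insert_sdiff_self_of_mem (show (L s)[i] ∈ crr L S \ sel from ⟨hQ hx.1, hx.2⟩)] at h4)
  rw [Set.Finite.coe_toFinset, ← Set.ncard_eq_toFinset_card _ hQsf] at h1
  have e1 : (crr L S \ sel) \ (Q \ sel) = crr L S \ Q := by
    ext x
    simp only [mem_sdiff, not_and, not_not]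
    constructor
    · rintro ⟨⟨h2, h3⟩, h4⟩
      exact ⟨h2, fun h5 => h3 (h4 h5)⟩
    · rintro ⟨h2, h3⟩
      exact ⟨⟨h2, fun h4 => h3 (hselQ h4)⟩, fun h4 => absurd h4 h3⟩
  rw [e1] at h1
  have h2 : rk N (crr L S \ sel) ≤ rk N (crr L S) := rk_mono N sdiff_subset
  have h3 := hquo (crr L S \ Q) (crr L S) sdiff_subset (Subset.refl _)
  have h4 := Set.ncard_sdiff_add_ncard_of_subset hselQ hQf
  omega

/-- **The gain**: cutting conflicts costs at most one for each column. -/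
theorem Pair.gain [M.Finite] {S₁ S₂ : Set (Bool × ℕ × ℕ)}
    {L₁ L₂ : Bool × ℕ × ℕ → List α} {f₁ f₂ : α → Sym2 ((ℕ × ℕ) ⊕ α)} {e₁ e₂ : Bool × ℕ × ℕ → α}
    {u₁ u₂ : ℕ} (h : Pair M S₁ L₁ f₁ e₁ u₁ S₂ L₂ f₂ e₂ u₂) {Q : Set α} (hQ : Q ⊆ crr L₂ S₂)
    (hQ₁ : Q ⊆ crr L₁ S₁) :
    rk M (crr L₁ S₁ ∪ (M.E \ crr L₂ S₂)) ≤
      rk M ((crr L₁ S₁ ∪ (M.E \ crr L₂ S₂)) \ Q) + {σ | σ ∈ S₂ ∧ ∃ x ∈ Q, x ∈ L₂ σ}.ncard := by
  have hf : M✶.Finite := inferInstance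
  have hE₁ : crr L₁ S₁ ⊆ M.E := h.s₁.sub_ground
  have hE₂ : crr L₂ S₂ ⊆ M.E := h.s₂.sub_ground
  have hA : crr L₁ S₁ ∪ (M.E \ crr L₂ S₂) ⊆ M.E := union_subset hE₁ sdiff_subset
  -- `A = R₂ \ S`
  obtain ⟨h0, N, hNf, hN, hquo, -⟩ := h.s₂.lift
  have h1 := h.s₂.cut hQ
  -- submodularity in the dual: the gain in `R₂ \ S`
  have e1 : M.E \ (crr L₁ S₁ ∪ (M.E \ crr L₂ S₂)) = crr L₂ S₂ \ crr L₁ S₁ := by
    ext x
    simp only [mem_sdiff, mem_union, not_or, not_and, not_not]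
    constructor
    · rintro ⟨h2, h3, h4⟩
      exact ⟨h4 h2, h3⟩
    · rintro ⟨h2, h3⟩
      exact ⟨hE₂ h2, h3, fun _ => h2⟩
  have e2 : M.E \ ((crr L₁ S₁ ∪ (M.E \ crr L₂ S₂)) \ Q) = (crr L₂ S₂ \ crr L₁ S₁) ∪ Q := by
    rw [sdiff_sdiff_right, e1]
    congr 1
    exact inter_eq_right.2 (hQ.trans hE₂)
  have h2 := rk_dual (M := M) (X := M.E \ (crr L₁ S₁ ∪ (M.E \ crr L₂ S₂))) sdiff_subset
  have h3 := rk_dual (M := M) (X := M.E \ ((crr L₁ S₁ ∪ (M.E \ crr L₂ S₂)) \ Q)) sdiff_subset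
  rw [sdiff_sdiff_cancel_left hA] at h2
  rw [sdiff_sdiff_cancel_left (sdiff_subset.trans hA)] at h3
  rw [e1] at h2
  rw [e2] at h3
  have h4 : ((crr L₂ S₂ \ crr L₁ S₁) ∪ Q).ncard = (crr L₂ S₂ \ crr L₁ S₁).ncard + Q.ncard := by
    refine Set.ncard_union_eq ?_ (M.ground_finite.subset (sdiff_subset.trans hE₂))
      (M.ground_finite.subset (hQ.trans hE₂))
    rw [Set.disjoint_left]
    exact fun x hx hxQ => hx.2 (hQ₁ hxQ)
  have h5 := rk_submod (M := M✶) (crr L₂ S₂ \ Q) ((crr L₂ S₂ \ crr L₁ S₁) ∪ Q)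
  have e3 : crr L₂ S₂ \ Q ∩ ((crr L₂ S₂ \ crr L₁ S₁) ∪ Q) = crr L₂ S₂ \ crr L₁ S₁ := by
    ext x
    simp only [mem_inter_iff, mem_sdiff, mem_union]
    constructor
    · rintro ⟨⟨h6, h7⟩, h8 | h8⟩
      · exact h8
      · exact absurd h8 h7
    · rintro ⟨h6, h7⟩
      exact ⟨⟨h6, fun h8 => h7 (hQ₁ h8)⟩, Or.inl ⟨h6, h7⟩⟩
  have e4 : crr L₂ S₂ \ Q ∪ ((crr L₂ S₂ \ crr L₁ S₁) ∪ Q) = crr L₂ S₂ := by
    ext x
    simp only [mem_sdiff, mem_union]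
    constructor
    · rintro (⟨h6, h7⟩ | ⟨h6, h7⟩ | h6)
      · exact h6
      · exact h6
      · exact hQ h6
    · intro h6
      by_cases h7 : x ∈ Q
      · exact Or.inr (Or.inr h7)
      · exact Or.inl ⟨h6, h7⟩
  rw [e3, e4] at h5
  omega

lemma con_minor (M : Matroid α) (C : Set α) : M ／ C ≤m M := by
  have := Matroid.contract_delete_isMinor M C ∅
  rwa [Matroid.delete_empty] at this

lemma del_minor (M : Matroid α) (D : Set α) : M ＼ D ≤m M := by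
  have := Matroid.contract_delete_isMinor M ∅ D
  rwa [Matroid.contract_empty] at this

/-- a maximal set skew to `S`, outside of `S ∪ R` -/
theorem exists_maxskew {M : Matroid α} [M.Finite] {S : Set α} (R : Set α) :
    ∃ Z ⊆ M.E \ (S ∪ R), rk M (S ∪ Z) = rk M S + rk M Z ∧
      ∀ x ∈ M.E \ (S ∪ R ∪ Z), x ∈ (M ／ Z).closure S ∧ x ∉ (M ／ Z).closure ∅ := by
  classical
  have hfin : {Z : Set α | Z ⊆ M.E \ (S ∪ R) ∧ rk M (S ∪ Z) = rk M S + rk M Z}.Finite :=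
    (M.ground_finite.finite_subsets).subset fun Z hZ => hZ.1.trans sdiff_subset
  obtain ⟨Z, ⟨hZ, hZr⟩, hmax⟩ := hfin.exists_maximal ⟨∅, empty_subset _, by
    rw [union_empty, rk_empty]; omega⟩
  refine ⟨Z, hZ, hZr, fun x hx => ?_⟩
  have hZE : Z ⊆ M.E := hZ.trans sdiff_subset
  have hxZ : x ∉ Z := fun h => hx.2 (Or.inr h)
  have hno : rk M (S ∪ insert x Z) ≠ rk M S + rk M (insert x Z) := by
    intro h1
    have h2 := hmax (y := insert x Z) ⟨insert_subset ⟨hx.1, fun h => hx.2 (Or.inl h)⟩ hZ, h1⟩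
      (subset_insert _ _)
    exact hxZ (h2 (mem_insert _ _))
  have h3 : rk M (S ∪ insert x Z) ≤ rk M S + rk M (insert x Z) := C1Q.rk_union_le' M _ _
  have h4 : rk M (insert x Z) ≤ rk M Z + 1 := by
    have := rk_union_le M (X := Z) (Y := {x}) (by simp)
    rwa [union_singleton, ncard_singleton] at this
  have h5 : rk M (S ∪ Z) ≤ rk M (S ∪ insert x Z) :=
    rk_mono M (union_subset_union_right _ (subset_insert _ _))
  have e1 : S ∪ insert x Z = insert x (S ∪ Z) := by rw [union_insert]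
  rw [Matroid.contract_closure_eq, Matroid.contract_closure_eq, empty_union]
  refine ⟨⟨?_, hxZ⟩, fun h6 => ?_⟩
  · by_contra h6
    have h7 := rk_insert_ge hx.1 h6
    rw [← e1] at h7
    omega
  · have h7 : rk M (insert x Z) = rk M Z := by
      rw [← rk_closure (insert x Z), Matroid.closure_insert_eq_of_mem_closure h6.1, rk_closure]
    omega

/-- contraction of a skew set -/
lemma rk_contract_skew {M : Matroid α} [M.Finite] {S Z : Set α} (hS : S ⊆ M.E) (hZ : Z ⊆ M.E \ S)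
    (h : rk M (S ∪ Z) = rk M S + rk M Z) {X : Set α} (hX : X ⊆ S) : rk (M ／ Z) X = rk M X := by
  have h1 := rk_contract_set (M := M) (C := Z) (X := X) (hZ.trans sdiff_subset)
    fun x hx => ⟨hS (hX hx), fun hz => (hZ hz).2 (hX hx)⟩
  have h2 := rk_submod (M := M) (X ∪ Z) S
  have e1 : (X ∪ Z) ∩ S = X := by
    ext x
    constructor
    · rintro ⟨h3 | h3, h4⟩
      · exact h3
      · exact absurd h4 (hZ h3).2
    · exact fun h3 => ⟨Or.inl h3, hX h3⟩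
  have e2 : (X ∪ Z) ∪ S = S ∪ Z := by
    ext x
    constructor
    · rintro ((h3 | h3) | h3)
      · exact Or.inl (hX h3)
      · exact Or.inr h3
      · exact Or.inl h3
    · rintro (h3 | h3)
      · exact Or.inr h3
      · exact Or.inl (Or.inr h3)
  rw [e1, e2] at h2
  have h3 : rk M (X ∪ Z) ≤ rk M X + rk M Z := C1Q.rk_union_le' M _ _
  omega

section

variable {S₁ S₂ : Set (Bool × ℕ × ℕ)} {L₁ L₂ : Bool × ℕ × ℕ → List α}
  {f₁ f₂ : α → Sym2 ((ℕ × ℕ) ⊕ α)} {e₁ e₂ : Bool × ℕ × ℕ → α} {u₁ u₂ : ℕ}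

lemma Pair.skew [M.Finite] (h : Pair M S₁ L₁ f₁ e₁ u₁ S₂ L₂ f₂ e₂ u₂) {Z : Set α}
    (hZ : Z ⊆ M.E \ (crr L₁ S₁ ∪ crr L₂ S₂))
    (hr : rk M (crr L₁ S₁ ∪ Z) = rk M (crr L₁ S₁) + rk M Z) :
    Pair (M ／ Z) S₁ L₁ f₁ e₁ u₁ S₂ L₂ f₂ e₂ u₂ := by
  have hf : M✶.Finite := inferInstance
  have hZ₁ : Z ⊆ M.E \ crr L₁ S₁ := fun z hz => ⟨(hZ hz).1, fun h' => (hZ hz).2 (Or.inl h')⟩
  refine ⟨h.s₁.of_rk ?_ fun X hX => rk_contract_skew h.s₁.sub_ground hZ₁ hr hX, ?_, h.dj⟩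
  · rw [Matroid.contract_ground]
    exact fun x hx => ⟨h.s₁.sub_ground hx, fun hz => (hZ hz).2 (Or.inl hx)⟩
  · rw [Matroid.dual_contract]
    refine h.s₂.delete ?_
    rw [Set.disjoint_left]
    exact fun x hx hz => (hZ hz).2 (Or.inr hx)

/-- contract the elements of the rows on no column -/
theorem Pair.cleanRows [M.Finite] (h : Pair M S₁ L₁ f₁ e₁ u₁ S₂ L₂ f₂ e₂ u₂) :
    ∃ (Z : Set α) (f₁' : α → Sym2 ((ℕ × ℕ) ⊕ α)), Z = (crr L₁ S₁ \ crr L₂ S₂) \ e₁ '' S₁ ∧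
      Pair (M ／ Z) S₁ (lrem L₁ Z) f₁' e₁ u₁ S₂ L₂ f₂ e₂ u₂ := by
  obtain ⟨f', h'⟩ := h.contract (Z := (crr L₁ S₁ \ crr L₂ S₂) \ e₁ '' S₁)
    (fun x hx => hx.1.1) (by
      rw [Set.disjoint_left]
      exact fun x hx hz => hz.1.2 hx) fun s hs hz => hz.2 ⟨s, hs, rfl⟩
  exact ⟨_, f', rfl, h'⟩

/-- delete the elements of the columns on no row -/
theorem Pair.cleanCols [M.Finite] (h : Pair M S₁ L₁ f₁ e₁ u₁ S₂ L₂ f₂ e₂ u₂) :
    ∃ (Z : Set α) (f₂' : α → Sym2 ((ℕ × ℕ) ⊕ α)), Z = (crr L₂ S₂ \ crr L₁ S₁) \ e₂ '' S₂ ∧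
      Pair (M ＼ Z) S₁ L₁ f₁ e₁ u₁ S₂ (lrem L₂ Z) f₂' e₂ u₂ := by
  obtain ⟨f', h'⟩ := h.delete (Z := (crr L₂ S₂ \ crr L₁ S₁) \ e₂ '' S₂)
    (fun x hx => hx.1.1) (by
      rw [Set.disjoint_left]
      exact fun x hx hz => hz.1.2 hx) fun s hs hz => hz.2 ⟨s, hs, rfl⟩
  exact ⟨_, f', rfl, h'⟩

/-- **The clean pair.** -/
theorem Pair.world [M.Finite] {y₁ y₂ i j w s : ℕ} {𝒯 : Finset (ℕ × ℕ)}
    (h : Pair M (Seg y₁) L₁ f₁ e₁ u₁ (Seg y₂) L₂ f₂ e₂ u₂) (hi : i % 2 = 0) (hj : j % 2 = 0)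
    (hw₁ : i + w ≤ y₁) (hw₂ : j + w ≤ y₁)
    (h𝒯 : ∀ t ∈ 𝒯, t.1 % 2 = 0 ∧ t.2 % 2 = 0 ∧ t.1 + s ≤ y₂ ∧ t.2 + s ≤ y₂) :
    ∃ (M₀ : Matroid α) (L₁' : Bool × ℕ × ℕ → List α) (f₁' : α → Sym2 ((ℕ × ℕ) ⊕ α))
      (L₂' : Bool × ℕ × ℕ → List α) (f₂' : α → Sym2 ((ℕ × ℕ) ⊕ α)), M₀ ≤m M ∧
      World M₀ w s 𝒯 L₁' f₁' (fun r => e₁ (shS i j r)) u₁ L₂' f₂' e₂ u₂ ∧
      (∀ r ∈ Seg w, ∀ x ∈ L₁' r, x ∈ L₁ (shS i j r)) ∧
      ∀ σ ∈ tiles s 𝒯, ∀ x ∈ L₂' σ, x ∈ L₂ σ := by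
  have hS₁ : shS i j '' Seg w ⊆ Seg y₁ := shS_sub (by omega) hw₁ hw₂
  have hS₂ : tiles s 𝒯 ⊆ Seg y₂ := by
    rintro σ ⟨t, ht, hσ⟩
    obtain ⟨h1, h2, h3, h4⟩ := h𝒯 t ht
    exact shS_sub (by omega) h3 h4 hσ
  obtain ⟨Z₁, g₁, hZ₁, p₁⟩ := h.dropRows hS₁
  have hf1 : (M ＼ Z₁).Finite := BQ.fin_delete _
  obtain ⟨Z₂, g₂, hZ₂, p₂⟩ := p₁.dropCols hS₂
  have hf2 : (M ＼ Z₁ ／ Z₂).Finite := BQ.fin_contract _
  obtain ⟨Z₃, g₃, hZ₃, p₃⟩ := p₂.cleanRows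
  have hf3 : (M ＼ Z₁ ／ Z₂ ／ Z₃).Finite := BQ.fin_contract _
  obtain ⟨Z₄, g₄, hZ₄, p₄⟩ := p₃.cleanCols
  have hf4 : (M ＼ Z₁ ／ Z₂ ／ Z₃ ＼ Z₄).Finite := BQ.fin_delete _
  obtain ⟨Z₅, hZ₅, hr₅, hmax⟩ := exists_maxskew (M := M ＼ Z₁ ／ Z₂ ／ Z₃ ＼ Z₄)
    (S := crr (lrem (lrem L₁ Z₂) Z₃) (shS i j '' Seg w))
    (crr (lrem (lrem L₂ Z₁) Z₄) (tiles s 𝒯))
  have p₅ := p₄.skew hZ₅ hr₅
  have hf5 : (M ＼ Z₁ ／ Z₂ ／ Z₃ ＼ Z₄ ／ Z₅).Finite := BQ.fin_contract _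
  obtain ⟨g₅, q₅⟩ := p₅.s₁.shift (S' := Seg w) (i := i) (j := j) (Subset.refl _)
  have hcrr : crr (fun r => lrem (lrem L₁ Z₂) Z₃ (shS i j r)) (Seg w) =
      crr (lrem (lrem L₁ Z₂) Z₃) (shS i j '' Seg w) := crr_shift
  have himg : (fun r => e₁ (shS i j r)) '' Seg w = e₁ '' (shS i j '' Seg w) := by
    rw [image_image]
  have hp : Pair (M ＼ Z₁ ／ Z₂ ／ Z₃ ＼ Z₄ ／ Z₅) (Seg w)
      (fun r => lrem (lrem L₁ Z₂) Z₃ (shS i j r)) g₅ (fun r => e₁ (shS i j r)) u₁ (tiles s 𝒯)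
      (lrem (lrem L₂ Z₁) Z₄) g₄ e₂ u₂ := ⟨q₅, p₅.s₂, by rw [himg]; exact p₅.dj⟩
  refine ⟨_, _, g₅, _, g₄, ?_, ⟨hp, ?_, ?_, ?_, ?_⟩, ?_, ?_⟩
  · exact (con_minor _ _).trans ((del_minor _ _).trans ((con_minor _ _).trans
      ((con_minor _ _).trans (del_minor _ _))))
  · intro x hx
    rw [hcrr, crr_lrem] at hx
    rw [himg, crr_lrem]
    by_cases h1 : x ∈ e₁ '' (shS i j '' Seg w)
    · exact Or.inl h1
    · right
      by_cases h2 : x ∈ crr (lrem L₂ Z₁) (tiles s 𝒯)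
      · refine ⟨h2, fun h3 => ?_⟩
        rw [hZ₄] at h3
        refine h3.1.2 ?_
        rw [crr_lrem]
        exact hx
      · exfalso
        apply hx.2
        rw [hZ₃]
        exact ⟨⟨hx.1, h2⟩, h1⟩
  · intro x hx
    rw [crr_lrem] at hx
    rw [hcrr]
    by_contra h1
    push Not at h1
    apply hx.2
    rw [hZ₄]
    exact ⟨⟨hx.1, h1.2⟩, h1.1⟩
  · intro x hx h1 h2
    rw [hcrr] at h1 ⊢
    refine hmax x ⟨?_, ?_⟩
    · exact hx.1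
    · rintro ((h3 | h3) | h3)
      · exact h1 h3
      · exact h2 h3
      · exact hx.2 h3
  · intro Q hQ
    refine le_trans (rk_mono _ ?_) (hp.gain (Q := Q) (fun x hx => (hQ hx).2)
      fun x hx => (hQ hx).1)
    exact subset_union_left
  · intro r _ x hx
    exact (mem_lrem.1 (mem_lrem.1 hx).1).1
  · intro σ _ x hx
    exact (mem_lrem.1 (mem_lrem.1 hx).1).1

end

end

end CWL
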